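import Pool.Agent.KW.Stmts

set_option autoImplicit false

open MeasureTheory
open scoped BigOperators ENNReal

namespace Pool.Agent.KW

namespace BDD_

theorem lp_top_integrable {d : ℕ} (f : Lp ℝ ⊤ (mu d)) : Integrable f (mu d) := by
  have h : MemLp f ⊤ (mu d) := Lp.memLp f
  have h1 : MemLp f 1 (mu d) := h.mono_exponent le_top
  exact memLp_one_iff_integrable.mp h1

theorem kol_le {X : Type} [NormedAddCommGroup X] [NormedSpace ℝ X] (F : Set X) (C : ℝ)
    (h : ∀ f ∈ F, ‖f‖ ≤ C) : kol ℝ F 0 ≤ ENNReal.ofReal C := by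
  unfold kol
  have h0 : Module.finrank ℝ (⊥ : Submodule ℝ X) ≤ 0 := by simp
  refine le_trans (iInf_le _ ⟨(⊥ : Submodule ℝ X), inferInstance, h0⟩) ?_
  refine iSup₂_le fun f hf => ?_
  refine le_trans (Metric.infEDist_le_edist_of_mem (y := (0 : X)) ?_) ?_
  · simp
  · rw [edist_dist, dist_zero_right]
    exact ENNReal.ofReal_le_ofReal (h f hf)

theorem real_case (h1 : Stmt_Deco) (h3 : Stmt_Uniq) (d : ℕ) (q r α : ℝ) (hd : 1 ≤ d)
    (hq : 1 ≤ q) (hr : 1 / q < r) : kol ℝ (W d (ENNReal.ofReal q) r α) 0 ≠ ⊤ := by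
  obtain ⟨C, η, hC, hη, H⟩ := h1 d q r α hd hq hr
  refine ne_top_of_le_ne_top ENNReal.ofReal_ne_top (kol_le _ C ?_)
  rintro f ⟨φ, hφ, hφ1, hcoef⟩
  obtain ⟨g, hg, hgN⟩ := H φ hφ hφ1
  have hfg : f = g := by
    refine Lp.ext (h3 d f g (lp_top_integrable f) (lp_top_integrable g) fun n => ?_)
    rw [hcoef n, hg n]
  have := hgN 0
  simp only [Finset.range_zero, Finset.sum_empty, sub_zero, Nat.cast_zero, mul_zero, neg_zero,
    Real.rpow_zero, mul_one] at this
  rw [hfg]
  exact this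

end BDD_

theorem bdd_proof (h1 : Stmt_Deco) (h2 : Stmt_Mono) (h3 : Stmt_Uniq) : Stmt_Bdd := by
  intro d q r α hd hq hr
  by_cases hqt : q = ⊤
  · subst hqt
    simp only [one_div, ENNReal.inv_top, ENNReal.toReal_zero] at hr
    set q' : ℝ := max 1 (2 / r) with hq'
    have hq1 : 1 ≤ q' := le_max_left _ _
    have hq2 : 1 / q' < r := by
      rw [div_lt_iff₀ (by linarith)]
      have : 2 / r ≤ q' := le_max_right _ _
      have h2r : r * (2 / r) ≤ r * q' := mul_le_mul_of_nonneg_left this hr.le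
      have : r * (2 / r) = 2 := by field_simp
      linarith
    refine ne_top_of_le_ne_top (BDD_.real_case h1 h3 d q' r α hd hq1 hq2) ?_
    exact h2.2.1 d (ENNReal.ofReal q') ⊤ r α 0 (by
      rw [← ENNReal.ofReal_one]; exact ENNReal.ofReal_le_ofReal hq1) le_top
  · have hq1 : 1 ≤ q.toReal := by
      have := ENNReal.toReal_mono hqt hq
      simpa using this
    have hq2 : 1 / q.toReal < r := by
      rw [ENNReal.toReal_div, ENNReal.toReal_one] at hr
      exact hr
    have := BDD_.real_case h1 h3 d q.toReal r α hd hq1 hq2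
    rwa [ENNReal.ofReal_toReal hqt] at this

end Pool.Agent.KW
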