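import Pool.Agent.KW.Stmts

set_option autoImplicit false

/-!
# KW, module BET: the partition of unity
-/

open MeasureTheory
open scoped BigOperators ENNReal

namespace Pool.Agent.KW

noncomputable section

namespace BET_

/-- The cut-off function. -/
def eta (t : ℝ) : ℝ := max 0 (min 1 (2 - t))

theorem win_eq (t : ℝ) : win t = eta t - eta (2 * t) := by
  unfold win eta
  simp only [max_def, min_def]
  split_ifs <;> linarith

theorem win_nonneg (t : ℝ) : 0 ≤ win t := le_max_left _ _

theorem win_le_one (t : ℝ) : win t ≤ 1 := by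
  unfold win
  refine max_le zero_le_one ?_
  rcases le_total t 1 with h | h
  · exact (min_le_left _ _).trans (by linarith)
  · exact (min_le_right _ _).trans (by linarith)

theorem win_supp {t : ℝ} (h : win t ≠ 0) : 1 / 2 < t ∧ t < 2 := by
  have h1 : 0 < win t := lt_of_le_of_ne (win_nonneg t) (Ne.symm h)
  unfold win at h1
  rw [lt_max_iff] at h1
  rcases h1 with h1 | h1
  · exact absurd h1 (lt_irrefl _)
  · rw [lt_min_iff] at h1
    constructor <;> linarith [h1.1, h1.2]

theorem bet_zero (k : ℤ) : bet 0 k = eta (|(k : ℝ)|) := by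
  unfold bet eta
  rw [if_pos rfl]
  split_ifs with h
  · have h1 : |(k : ℝ)| ≤ 1 := by exact_mod_cast h
    rw [min_eq_left (by linarith), max_eq_right (by norm_num)]
  · have h1 : (2 : ℝ) ≤ |(k : ℝ)| := by
      have : (2 : ℤ) ≤ |k| := by omega
      exact_mod_cast this
    rw [min_eq_right (by linarith), max_eq_left (by linarith)]

theorem sum_bet (t : ℕ) (k : ℤ) :
    ∑ s ∈ Finset.range (t + 1), bet s k = eta (|(k : ℝ)| / 2 ^ t) := by
  induction t with
  | zero => rw [Finset.sum_range_one, bet_zero, pow_zero, div_one]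
  | succ t ih =>
    rw [Finset.sum_range_succ, ih]
    have h1 : bet (t + 1) k = win (|(k : ℝ)| / 2 ^ (t + 1)) := by
      unfold bet
      rw [if_neg (Nat.succ_ne_zero t)]
    have h2 : 2 * (|(k : ℝ)| / 2 ^ (t + 1)) = |(k : ℝ)| / 2 ^ t := by
      rw [pow_succ]
      field_simp
    rw [h1, win_eq, h2]
    ring

end BET_

theorem bet_proof : Stmt_Bet := by
  refine ⟨?_, ?_, ?_, ?_⟩
  · intro s k
    unfold bet
    split_ifs
    · norm_num
    · norm_num
    · exact ⟨BET_.win_nonneg _, BET_.win_le_one _⟩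
  · intro k h
    unfold bet at h
    rw [if_pos rfl] at h
    by_contra hk
    rw [if_neg hk] at h
    exact h rfl
  · intro s k hs h
    unfold bet at h
    rw [if_neg (by omega)] at h
    obtain ⟨h1, h2⟩ := BET_.win_supp h
    obtain ⟨s, rfl⟩ : ∃ s', s = s' + 1 := ⟨s - 1, by omega⟩
    have hp : (0 : ℝ) < 2 ^ s := by positivity
    rw [lt_div_iff₀ (by positivity)] at h1
    rw [div_lt_iff₀ (by positivity)] at h2
    rw [pow_succ] at h1 h2
    constructor
    · have h3 : (2 : ℝ) ^ s < |(k : ℝ)| := by linarith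
      have h4 : ((2 ^ s : ℤ) : ℝ) < ((|k| : ℤ) : ℝ) := by
        push_cast
        exact h3
      rw [Nat.add_sub_cancel]
      exact_mod_cast h4
    · have h3 : |(k : ℝ)| < (2 : ℝ) ^ (s + 1 + 1) := by
        rw [pow_succ, pow_succ]
        linarith
      have h4 : ((|k| : ℤ) : ℝ) < ((2 ^ (s + 1 + 1) : ℤ) : ℝ) := by
        push_cast
        exact h3
      exact_mod_cast h4
  · intro t k hk
    rw [BET_.sum_bet]
    have h1 : |(k : ℝ)| / 2 ^ t ≤ 1 := by
      rw [div_le_one (by positivity)]
      have h4 : ((|k| : ℤ) : ℝ) ≤ ((2 ^ t : ℤ) : ℝ) := by exact_mod_cast hk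
      push_cast at h4
      exact h4
    unfold BET_.eta
    rw [min_eq_left (by linarith), max_eq_right (by norm_num)]

end

end Pool.Agent.KW
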