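import Pool.Agent.KW.Stmts

set_option autoImplicit false

/-!
# KW, module BLK: norms of the one-dimensional blocks
-/

open MeasureTheory
open scoped BigOperators ENNReal

namespace Pool.Agent.KW

noncomputable section

namespace BLK_

theorem win_nonneg (t : ℝ) : 0 ≤ win t := le_max_left _ _

theorem win_le (t : ℝ) : win t ≤ 1 := by
  unfold win
  rcases le_total (2 * t - 1) (2 - t) with h | h
  · rw [min_eq_left h]; exact max_le zero_le_one (by linarith)
  · rw [min_eq_right h]; exact max_le zero_le_one (by linarith)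

theorem win_zero (t : ℝ) (h : t ≤ 1 / 2 ∨ 2 ≤ t) : win t = 0 := by
  unfold win
  apply max_eq_left
  rcases h with h | h
  · exact (min_le_left _ _).trans (by linarith)
  · exact (min_le_right _ _).trans (by linarith)

theorem win_lip (t u : ℝ) : |win t - win u| ≤ 2 * |t - u| := by
  unfold win
  have h1 : |max 0 (min (2 * t - 1) (2 - t)) - max 0 (min (2 * u - 1) (2 - u))| ≤
      |min (2 * t - 1) (2 - t) - min (2 * u - 1) (2 - u)| := by
    have := abs_max_sub_max_le_abs (min (2 * t - 1) (2 - t)) (min (2 * u - 1) (2 - u)) 0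
    rwa [max_comm _ (0 : ℝ), max_comm _ (0 : ℝ)] at this
  have h2 := abs_min_sub_min_le_max (2 * t - 1) (2 - t) (2 * u - 1) (2 - u)
  refine h1.trans (h2.trans (max_le ?_ ?_))
  · rw [show 2 * t - 1 - (2 * u - 1) = 2 * (t - u) by ring, abs_mul]; norm_num
  · rw [show 2 - t - (2 - u) = -(t - u) by ring, abs_neg]
    nlinarith [abs_nonneg (t - u)]

/-- The coefficients of the positive part. -/
def g (r α : ℝ) (s : ℕ) (k : ℤ) : ℂ :=
  (((2 : ℝ) ^ (-(r * s)) * (win ((k : ℝ) / 2 ^ s) * ((k : ℝ) / 2 ^ s) ^ (-r)) : ℝ) : ℂ) *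
    Complex.exp (-((α : ℂ) * (Real.pi : ℂ) / 2 * Complex.I))

theorem norm_ph (α : ℝ) : ‖Complex.exp (-((α : ℂ) * (Real.pi : ℂ) / 2 * Complex.I))‖ = 1 := by
  have : -((α : ℂ) * (Real.pi : ℂ) / 2 * Complex.I) =
      ((-(α * Real.pi / 2) : ℝ) : ℂ) * Complex.I := by push_cast; ring
  rw [this, Complex.norm_exp_ofReal_mul_I]

theorem norm_g (r α : ℝ) (s : ℕ) (k : ℤ) : ‖g r α s k‖ =
    (2 : ℝ) ^ (-(r * s)) * |win ((k : ℝ) / 2 ^ s) * ((k : ℝ) / 2 ^ s) ^ (-r)| := by
  unfold g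
  rw [norm_mul, norm_ph, mul_one, Complex.norm_real, Real.norm_eq_abs, abs_mul,
    abs_of_nonneg (Real.rpow_nonneg (by norm_num) _)]

theorem norm_g_sub (r α : ℝ) (s : ℕ) (k l : ℤ) : ‖g r α s k - g r α s l‖ =
    (2 : ℝ) ^ (-(r * s)) * |win ((k : ℝ) / 2 ^ s) * ((k : ℝ) / 2 ^ s) ^ (-r) -
      win ((l : ℝ) / 2 ^ s) * ((l : ℝ) / 2 ^ s) ^ (-r)| := by
  unfold g
  rw [← sub_mul, ← Complex.ofReal_sub, ← mul_sub, norm_mul, norm_ph, mul_one, Complex.norm_real,
    Real.norm_eq_abs, abs_mul, abs_of_nonneg (Real.rpow_nonneg (by norm_num) _)]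

theorem g_zero (r α : ℝ) (s : ℕ) (k : ℤ) (h : (k : ℝ) ≤ 2 ^ s / 2 ∨ 2 * 2 ^ s ≤ (k : ℝ)) :
    g r α s k = 0 := by
  have h2 : (0 : ℝ) < 2 ^ s := by positivity
  have : win ((k : ℝ) / 2 ^ s) = 0 := by
    apply win_zero
    rcases h with h | h
    · left
      rw [div_le_iff₀ h2]; linarith
    · right
      rw [le_div_iff₀ h2]; exact h
  unfold g
  rw [this]; simp

theorem pos_eq (r α : ℝ) (s : ℕ) (hs : s ≠ 0) (k : ℤ) (hk : 0 < k) :
    ((bet s k : ℝ) : ℂ) * rho r α k = g r α s k := by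
  have hk' : (0 : ℝ) < k := by exact_mod_cast hk
  have h2 : (0 : ℝ) < 2 ^ s := by positivity
  unfold bet rho g
  rw [if_neg hs, if_neg hk.ne', abs_of_pos hk', sign_pos hk]
  have e1 : (k : ℝ) ^ (-r) = (2 : ℝ) ^ (-(r * s)) * ((k : ℝ) / 2 ^ s) ^ (-r) := by
    rw [Real.div_rpow hk'.le h2.le, ← Real.rpow_natCast 2 s, ← Real.rpow_mul (by norm_num),
      show (s : ℝ) * -r = -(r * s) by ring]
    have : (2 : ℝ) ^ (-(r * s)) ≠ 0 := (Real.rpow_pos_of_pos (by norm_num) _).ne'
    field_simp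
  rw [e1]
  push_cast
  simp only [SignType.coe_one, one_mul]
  ring

theorem bet_neg (s : ℕ) (k : ℤ) : bet s (-k) = bet s k := by
  unfold bet
  rw [abs_neg, Int.cast_neg, abs_neg]

theorem split (h5 : Stmt_RhoB) (r α : ℝ) (s : ℕ) (hs : s ≠ 0) (k : ℤ) :
    ((bet s k : ℝ) : ℂ) * rho r α k = g r α s k + (starRingEnd ℂ) (g r α s (-k)) := by
  have h2 : (0 : ℝ) < 2 ^ s := by positivity
  rcases lt_trichotomy k 0 with hk | hk | hk
  · have hk' : (k : ℝ) < 0 := by exact_mod_cast hk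
    rw [g_zero r α s k (Or.inl (by linarith)), zero_add, ← pos_eq r α s hs (-k) (by omega),
      map_mul, Complex.conj_ofReal, bet_neg, (h5 r α).2.1 k, Complex.conj_conj]
  · subst hk
    rw [g_zero r α s 0 (Or.inl (by push_cast; positivity)),
      g_zero r α s (-0) (Or.inl (by push_cast; rw [neg_zero]; positivity)), map_zero, add_zero]
    unfold bet
    rw [if_neg hs]
    rw [win_zero _ (Or.inl (by simp))]
    simp
  · have hk' : (0 : ℝ) < k := by exact_mod_cast hk
    rw [g_zero r α s (-k) (Or.inl (by push_cast; linarith)), map_zero, add_zero,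
      pos_eq r α s hs k hk]

/-- The positive part of the block. -/
def P (r α : ℝ) (s : ℕ) (x : UnitAddCircle) : ℂ :=
  ∑ k ∈ Finset.Icc (-(2 : ℤ) ^ (s + 1)) (2 ^ (s + 1)), g r α s k * fourier k x

theorem blk_eq (h5 : Stmt_RhoB) (r α : ℝ) (s : ℕ) (hs : s ≠ 0) (x : UnitAddCircle) :
    blk r α s x = 2 * (P r α s x).re := by
  have e1 : ∑ k ∈ Finset.Icc (-(2 : ℤ) ^ (s + 1)) (2 ^ (s + 1)),
      (starRingEnd ℂ) (g r α s (-k)) * fourier k x = (starRingEnd ℂ) (P r α s x) := by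
    unfold P
    rw [map_sum]
    refine Finset.sum_nbij' (fun k => -k) (fun k => -k) ?_ ?_ ?_ ?_ ?_
    · intro k hk; rw [Finset.mem_Icc] at hk ⊢; constructor <;> omega
    · intro k hk; rw [Finset.mem_Icc] at hk ⊢; constructor <;> omega
    · intro k _; simp
    · intro k _; simp
    · intro k _
      rw [map_mul, ← fourier_neg, neg_neg]
  unfold blk
  have e2 : ∑ k ∈ Finset.Icc (-(2 : ℤ) ^ (s + 1)) (2 ^ (s + 1)),
      ((bet s k : ℝ) : ℂ) * rho r α k * fourier k x =
      P r α s x + (starRingEnd ℂ) (P r α s x) := by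
    rw [← e1]
    unfold P
    rw [← Finset.sum_add_distrib]
    refine Finset.sum_congr rfl fun k _ => ?_
    rw [split h5 r α s hs k, add_mul]
  rw [e2, Complex.add_re, Complex.conj_re]
  ring

theorem P_eq (r α : ℝ) (s : ℕ) (n : ℕ) (hn : 2 * n = 2 ^ s) (x : UnitAddCircle) :
    P r α s x = ∑ k ∈ Finset.Ioo (n : ℤ) ((n : ℤ) + 3 * n), g r α s k * fourier k x := by
  have hn' : (2 : ℝ) ^ s = 2 * n := by exact_mod_cast hn.symm
  have hn'' : (2 : ℤ) ^ (s + 1) = 4 * n := by
    have : (2 : ℤ) ^ s = 2 * n := by exact_mod_cast hn.symm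
    rw [pow_succ, this]; ring
  unfold P
  symm
  refine Finset.sum_subset ?_ ?_
  · intro k hk
    rw [Finset.mem_Ioo] at hk
    rw [Finset.mem_Icc, hn'']
    constructor <;> omega
  · intro k _ hk
    rw [Finset.mem_Ioo, not_and_or, not_lt, not_lt] at hk
    rw [g_zero, zero_mul]
    rw [hn']
    rcases hk with hk | hk
    · left
      have : (k : ℝ) ≤ n := by exact_mod_cast hk
      linarith
    · right
      have : ((n : ℤ) + 3 * n : ℤ) ≤ (k : ℝ) := by exact_mod_cast hk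
      push_cast at this
      linarith

theorem norm_fourier (k : ℤ) (x : UnitAddCircle) : ‖fourier k x‖ = 1 := by
  rw [fourier_apply]; exact Circle.norm_coe _

theorem zero_bound (r α : ℝ) (h4 : Stmt_Bet) (h5 : Stmt_RhoB) (x : UnitAddCircle) :
    |blk r α 0 x| ≤ 5 := by
  unfold blk
  refine (Complex.abs_re_le_norm _).trans ?_
  refine (norm_sum_le _ _).trans ?_
  have : ∀ k ∈ Finset.Icc (-(2 : ℤ) ^ (0 + 1)) (2 ^ (0 + 1)),
      ‖((bet 0 k : ℝ) : ℂ) * rho r α k * fourier k x‖ ≤ 1 := by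
    intro k _
    rw [norm_mul, norm_mul, norm_fourier, mul_one, Complex.norm_real, Real.norm_eq_abs]
    by_cases hb : bet 0 k = 0
    · rw [hb]; simp
    · have h1 := h4.2.1 k hb
      have h2 := h4.1 0 k
      rw [abs_of_nonneg h2.1]
      have h3 : ‖rho r α k‖ = 1 := by
        by_cases hk : k = 0
        · subst hk; unfold rho; simp
        · rw [(h5 r α).1 k hk]
          have : |(k : ℝ)| = 1 := by
            have h6 : |k| = 1 := by
              have := Int.one_le_abs hk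
              omega
            exact_mod_cast h6
          rw [this, Real.one_rpow]
      rw [h3, mul_one]
      exact h2.2
  refine (Finset.sum_le_card_nsmul _ _ 1 this).trans ?_
  have hc : (Finset.Icc (-(2 : ℤ) ^ (0 + 1)) (2 ^ (0 + 1))).card = 5 := by decide
  rw [hc]; norm_num

theorem g_facts {r CL : ℝ}
    (hL : ∀ w : ℝ → ℝ, (∀ t, |w t| ≤ 1) → (∀ t, t < 1 / 2 ∨ 4 < t → w t = 0) →
      (∀ t u, |w t - w u| ≤ 2 * |t - u|) →
      (∀ t, |w t * t ^ (-r)| ≤ CL) ∧ ∀ t u, |w t * t ^ (-r) - w u * u ^ (-r)| ≤ CL * |t - u|)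
    (hCL : 0 < CL) (α : ℝ) (s n : ℕ) (hn : 2 * n = 2 ^ s) (hn1 : 1 ≤ n) :
    (∀ k, ‖g r α s k‖ ≤ CL * (2 : ℝ) ^ (-(r * s))) ∧
    ∀ k, ‖g r α s k - g r α s (k - 1)‖ ≤ CL * (2 : ℝ) ^ (-(r * s)) / n := by
  have hn' : (2 : ℝ) ^ s = 2 * n := by exact_mod_cast hn.symm
  have hnp : (0 : ℝ) < n := by exact_mod_cast hn1
  have h2 : (0 : ℝ) < (2 : ℝ) ^ (-(r * s)) := Real.rpow_pos_of_pos (by norm_num) _
  obtain ⟨l1, l2⟩ := hL win (fun t => abs_le.2 ⟨by linarith [win_nonneg t], win_le t⟩)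
    (fun t ht => win_zero t (by
      rcases ht with h | h
      · left; linarith
      · right; linarith)) win_lip
  refine ⟨fun k => ?_, fun k => ?_⟩
  · rw [norm_g, mul_comm]
    exact mul_le_mul_of_nonneg_right (l1 _) h2.le
  · rw [norm_g_sub]
    have h3 := l2 ((k : ℝ) / 2 ^ s) (((k - 1 : ℤ) : ℝ) / 2 ^ s)
    have h4 : |(k : ℝ) / 2 ^ s - ((k - 1 : ℤ) : ℝ) / 2 ^ s| = 1 / (2 * n) := by
      rw [← sub_div]
      push_cast
      rw [show (k : ℝ) - (k - 1) = 1 by ring, hn', abs_of_pos (by positivity)]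
    rw [h4] at h3
    calc (2 : ℝ) ^ (-(r * s)) * |win ((k : ℝ) / 2 ^ s) * ((k : ℝ) / 2 ^ s) ^ (-r) -
          win (((k - 1 : ℤ) : ℝ) / 2 ^ s) * (((k - 1 : ℤ) : ℝ) / 2 ^ s) ^ (-r)|
        ≤ (2 : ℝ) ^ (-(r * s)) * (CL * (1 / (2 * n))) := mul_le_mul_of_nonneg_left h3 h2.le
      _ ≤ CL * (2 : ℝ) ^ (-(r * s)) / n := by
        have : (2 : ℝ) ^ (-(r * s)) * (CL * (1 / (2 * n))) =
            (CL * (2 : ℝ) ^ (-(r * s)) / n) / 2 := by
          field_simp
        rw [this]
        have : 0 < CL * (2 : ℝ) ^ (-(r * s)) / n := by positivity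
        linarith

end BLK_

open BLK_ in
theorem blk_proof (h1 : Stmt_Lip) (h2 : Stmt_LOne) (h3 : Stmt_LCirc) (h4 : Stmt_Bet)
    (h5 : Stmt_RhoB) : Stmt_Blk := by
  intro r α
  obtain ⟨CL, hCL, hL⟩ := h1 (-r)
  obtain ⟨C1, hC1, hO⟩ := h2
  refine ⟨5 + 3 * CL + 6 * C1 * CL, by nlinarith [mul_pos hC1 hCL], fun s => ?_⟩
  rcases Nat.eq_zero_or_pos s with hs | hs
  · subst hs
    have hb := zero_bound r α h4 h5
    have hC : (5 : ℝ) ≤ 5 + 3 * CL + 6 * C1 * CL := by nlinarith [mul_pos hC1 hCL]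
    have e1 : (1 - r) * ((0 : ℕ) : ℝ) = 0 := by simp
    have e2 : -(r * ((0 : ℕ) : ℝ)) = 0 := by simp
    rw [e1, e2, Real.rpow_zero, mul_one]
    refine ⟨fun x => (hb x).trans hC, ?_⟩
    have h6 : ∫ x, |blk r α 0 x| ∂AddCircle.haarAddCircle ≤
        ∫ _ : UnitAddCircle, (5 : ℝ) ∂AddCircle.haarAddCircle := by
      apply integral_mono_of_nonneg
      · exact Filter.Eventually.of_forall fun x => abs_nonneg _
      · exact integrable_const _
      · exact Filter.Eventually.of_forall hb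
    rw [integral_const] at h6
    simp only [probReal_univ, one_smul] at h6
    linarith
  · have hn : 2 * 2 ^ (s - 1) = 2 ^ s := by
      rw [← pow_succ']; congr 1; omega
    set n : ℕ := 2 ^ (s - 1) with hndef
    have hn1 : 1 ≤ n := Nat.one_le_two_pow
    have hn' : (2 : ℝ) ^ s = 2 * n := by exact_mod_cast hn.symm
    have hnp : (0 : ℝ) < n := by exact_mod_cast hn1
    obtain ⟨b1, b2⟩ := g_facts hL hCL α s n hn hn1
    set B : ℝ := CL * (2 : ℝ) ^ (-(r * s)) with hB
    have h2p : (0 : ℝ) < (2 : ℝ) ^ (-(r * s)) := Real.rpow_pos_of_pos (by norm_num) _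
    have hB0 : 0 < B := by positivity
    have hP : ∀ x, ‖P r α s x‖ ≤ 3 * n * B := by
      intro x
      rw [P_eq r α s n hn x]
      refine (norm_sum_le _ _).trans ?_
      refine (Finset.sum_le_card_nsmul _ _ B (fun k _ => ?_)).trans ?_
      · rw [norm_mul, norm_fourier, mul_one]; exact b1 k
      · rw [Int.card_Ioo, nsmul_eq_mul]
        apply mul_le_mul_of_nonneg_right _ hB0.le
        have : ((n : ℤ) + 3 * n - n - 1).toNat ≤ 3 * n := by omega
        exact_mod_cast this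
    have hbl : ∀ x, |blk r α s x| ≤ 2 * ‖P r α s x‖ := by
      intro x
      rw [blk_eq h5 r α s (by omega) x, abs_mul, abs_two]
      exact mul_le_mul_of_nonneg_left (Complex.abs_re_le_norm _) (by norm_num)
    refine ⟨fun x => ?_, ?_⟩
    · refine (hbl x).trans ?_
      have e3 : (2 : ℝ) ^ ((1 - r) * s) = 2 ^ s * (2 : ℝ) ^ (-(r * s)) := by
        rw [← Real.rpow_natCast 2 s, ← Real.rpow_add (by norm_num)]
        congr 1; ring
      rw [e3, hn']
      have := hP x
      have h7 : (5 + 3 * CL + 6 * C1 * CL) * (2 * n * (2 : ℝ) ^ (-(r * s))) =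
          2 * (3 * n * B) + (10 + 12 * C1 * CL) * (n * (2 : ℝ) ^ (-(r * s))) := by
        rw [hB]; ring
      rw [h7]
      have h8 : 0 ≤ (10 + 12 * C1 * CL) * (n * (2 : ℝ) ^ (-(r * s))) := by positivity
      linarith
    · have hcont : Continuous fun x : UnitAddCircle => ‖P r α s x‖ := by
        unfold P; fun_prop
      have hint : Integrable (fun x : UnitAddCircle => 2 * ‖P r α s x‖)
          AddCircle.haarAddCircle :=
        (continuous_const.mul hcont).integrable_of_hasCompactSupport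
          (HasCompactSupport.of_compactSpace _)
      have h6 : ∫ x, |blk r α s x| ∂AddCircle.haarAddCircle ≤
          ∫ x, 2 * ‖P r α s x‖ ∂AddCircle.haarAddCircle := by
        apply integral_mono_of_nonneg
        · exact Filter.Eventually.of_forall fun x => abs_nonneg _
        · exact hint
        · exact Filter.Eventually.of_forall hbl
      rw [integral_const_mul] at h6
      have hM : 4 * 2 ^ (s + 1) ≤ 2 ^ (s + 3) := by
        rw [pow_add 2 s 3, pow_add 2 s 1]; omega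
      have h7 := h3 (2 ^ (s + 1)) (2 ^ (s + 3)) Nat.one_le_two_pow hM (g r α s)
      have e4 : ((2 ^ (s + 1) : ℕ) : ℤ) = 2 ^ (s + 1) := by push_cast; rfl
      rw [e4] at h7
      have h8 := hO n (2 ^ (s + 3)) (n : ℤ) (g r α s) B hn1 (by
          rw [pow_add, ← hn]; omega) (fun k hk => by
          apply g_zero
          rw [hn']
          rcases hk with hk | hk
          · left
            have : (k : ℝ) ≤ n := by exact_mod_cast hk
            linarith
          · right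
            have : ((n : ℤ) + 3 * n : ℤ) ≤ (k : ℝ) := by exact_mod_cast hk
            push_cast at this
            linarith) b1 b2
      have h9 : avg (fun y : ZMod (2 ^ (s + 3)) => ‖P r α s (gr (2 ^ (s + 3)) y)‖) ≤ C1 * B := by
        refine le_trans (le_of_eq ?_) h8
        congr 1
        funext y
        rw [P_eq r α s n hn]
      have h10 : ∫ x, ‖P r α s x‖ ∂AddCircle.haarAddCircle ≤ 3 * (C1 * B) :=
        h7.trans (mul_le_mul_of_nonneg_left h9 (by norm_num))
      calc ∫ x, |blk r α s x| ∂AddCircle.haarAddCircle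
          ≤ 2 * (3 * (C1 * B)) := h6.trans (mul_le_mul_of_nonneg_left h10 (by norm_num))
        _ ≤ (5 + 3 * CL + 6 * C1 * CL) * (2 : ℝ) ^ (-(r * s)) := by
          have : (5 + 3 * CL + 6 * C1 * CL) * (2 : ℝ) ^ (-(r * s)) =
              2 * (3 * (C1 * B)) + (5 + 3 * CL) * (2 : ℝ) ^ (-(r * s)) := by
            rw [hB]; ring
          rw [this]
          have : 0 ≤ (5 + 3 * CL) * (2 : ℝ) ^ (-(r * s)) := by positivity
          linarith

end

end Pool.Agent.KW
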