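import Pool.Agent.KW.Stmts

set_option autoImplicit false

/-!
# KW: CARD, the number of shapes
-/

namespace Pool.Agent.KW

namespace CARD_

theorem ln_eq (e l : ℕ) : Ln (e + 1) l = (l + e).choose e := by
  unfold Ln Sh
  rw [← Finset.map_sym_eq_piAntidiag, Finset.card_map]
  have h1 : ((Finset.univ : Finset (Fin (e + 1))).sym l) = Finset.univ := by
    ext m
    simp
  rw [h1, Finset.card_univ, Sym.card_sym_eq_choose, Fintype.card_fin]
  have h2 : e + 1 + l - 1 = l + e := by omega
  rw [h2]
  exact Nat.choose_symm_add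

theorem upper (l : ℕ) : ∀ e : ℕ, (l + e).choose e ≤ (l + 1) ^ e := by
  intro e
  induction e with
  | zero => simp
  | succ e ih =>
    have h1 : (l + e + 1) * (l + e).choose e = (l + e + 1).choose (e + 1) * (e + 1) :=
      Nat.add_one_mul_choose_eq (l + e) e
    have h2 : l + e + 1 ≤ (l + 1) * (e + 1) := by nlinarith
    have h3 : (l + e + 1).choose (e + 1) * (e + 1) ≤ (l + 1) ^ (e + 1) * (e + 1) := by
      rw [← h1]
      calc (l + e + 1) * (l + e).choose e ≤ ((l + 1) * (e + 1)) * (l + 1) ^ e :=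
            Nat.mul_le_mul h2 ih
        _ = (l + 1) ^ (e + 1) * (e + 1) := by ring
    exact Nat.le_of_mul_le_mul_right h3 (Nat.succ_pos e)

theorem lower (l e : ℕ) : (l + 1) ^ e ≤ Nat.factorial e * (l + e).choose e := by
  rw [← Nat.ascFactorial_eq_factorial_mul_choose]
  exact Nat.pow_succ_le_ascFactorial _ _

end CARD_

open CARD_

theorem card_proof : Stmt_Card := by
  intro d l hd
  obtain ⟨e, rfl⟩ : ∃ e, d = e + 1 := ⟨d - 1, by omega⟩
  have h0 : e + 1 - 1 = e := by omega
  rw [h0, ln_eq]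
  refine ⟨?_, ?_, ?_⟩
  · exact_mod_cast lower l e
  · exact_mod_cast upper l e
  · intro l' hl
    rw [ln_eq]
    exact Nat.choose_le_choose e (by omega)

end Pool.Agent.KW
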