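import Pool.Agent.KW.Stmts

set_option autoImplicit false

/-!
# KW, module CNT: few configurations have most of their points in a small set
-/

open MeasureTheory
open scoped BigOperators ENNReal

namespace Pool.Agent.KW

noncomputable section

/-- The configurations with the points of `I` in `T`. -/
def CNT_.A {Ω : Type} [Fintype Ω] [DecidableEq Ω] (N : ℕ) (T : Finset Ω) (I : Finset (Fin N)) :
    Finset (Fin N → Ω × Bool) :=
  Fintype.piFinset fun i => if i ∈ I then T ×ˢ (Finset.univ : Finset Bool) else Finset.univ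

theorem CNT_.cardA {Ω : Type} [Fintype Ω] [DecidableEq Ω] (N : ℕ) (T : Finset Ω)
    (I : Finset (Fin N)) (δ : ℝ) (hT : (T.card : ℝ) ≤ δ * Fintype.card Ω) :
    ((CNT_.A N T I).card : ℝ) ≤ δ ^ I.card * (2 * (Fintype.card Ω : ℝ)) ^ N := by
  unfold CNT_.A
  rw [Fintype.card_piFinset, Nat.cast_prod]
  have h1 : ∀ i : Fin N, ((((if i ∈ I then T ×ˢ (Finset.univ : Finset Bool) else Finset.univ) :
      Finset (Ω × Bool)).card : ℕ) : ℝ) ≤
      (if i ∈ I then δ else 1) * (2 * (Fintype.card Ω : ℝ)) := by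
    intro i
    split_ifs with h
    · rw [Finset.card_product, Finset.card_univ, Fintype.card_bool]
      push_cast
      nlinarith
    · rw [Finset.card_univ, Fintype.card_prod, Fintype.card_bool]
      push_cast
      linarith
  refine (Finset.prod_le_prod (fun i _ => by positivity) fun i _ => h1 i).trans (le_of_eq ?_)
  rw [Finset.prod_mul_distrib, Finset.prod_const, Finset.card_univ, Fintype.card_fin,
    Finset.prod_ite_mem, Finset.univ_inter, Finset.prod_const]

theorem cnt_proof : Stmt_Cnt := by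
  intro Ω _ _ N T δ hN hc hδ hT
  have hc' : (0 : ℝ) < Fintype.card Ω := by exact_mod_cast hc
  have hN' : (0 : ℝ) < N := by exact_mod_cast hN
  rcases le_or_gt 1 δ with h1 | h1
  · have h2 : ((Finset.univ.filter fun ω : Fin N → Ω × Bool =>
      3 * (N : ℝ) / 4 ≤ ((Finset.univ.filter fun i => (ω i).1 ∈ T).card : ℝ)).card : ℝ) ≤
        (2 * (Fintype.card Ω : ℝ)) ^ N := by
      have h3 : (Finset.univ.filter fun ω : Fin N → Ω × Bool =>
        3 * (N : ℝ) / 4 ≤ ((Finset.univ.filter fun i => (ω i).1 ∈ T).card : ℝ)).card ≤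
          Fintype.card (Fin N → Ω × Bool) := Finset.card_le_univ _
      have h4 : (Fintype.card (Fin N → Ω × Bool) : ℝ) = (2 * (Fintype.card Ω : ℝ)) ^ N := by
        simp only [Fintype.card_pi, Fintype.card_prod, Fintype.card_bool, Finset.prod_const,
          Finset.card_univ, Fintype.card_fin]
        push_cast
        rw [mul_comm]
      rw [← h4]
      exact_mod_cast h3
    have h5 : (1 : ℝ) ≤ 2 ^ N * δ ^ (3 * (N : ℝ) / 4) := by
      have a1 : (1 : ℝ) ≤ 2 ^ N := one_le_pow₀ (by norm_num)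
      have a2 : (1 : ℝ) ≤ δ ^ (3 * (N : ℝ) / 4) := Real.one_le_rpow h1 (by positivity)
      nlinarith
    have h6 : (0 : ℝ) ≤ (2 * (Fintype.card Ω : ℝ)) ^ N := by positivity
    nlinarith
  · have hsub : (Finset.univ.filter fun ω : Fin N → Ω × Bool =>
      3 * (N : ℝ) / 4 ≤ ((Finset.univ.filter fun i => (ω i).1 ∈ T).card : ℝ)) ⊆
        ((Finset.univ : Finset (Finset (Fin N))).filter
          fun I => 3 * (N : ℝ) / 4 ≤ (I.card : ℝ)).biUnion fun I => CNT_.A N T I := by
      intro ω hω
      rw [Finset.mem_filter] at hω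
      rw [Finset.mem_biUnion]
      refine ⟨Finset.univ.filter fun i => (ω i).1 ∈ T, ?_, ?_⟩
      · rw [Finset.mem_filter]
        exact ⟨Finset.mem_univ _, hω.2⟩
      · unfold CNT_.A
        rw [Fintype.mem_piFinset]
        intro i
        split_ifs with h
        · rw [Finset.mem_filter] at h
          rw [Finset.mem_product]
          exact ⟨h.2, Finset.mem_univ _⟩
        · exact Finset.mem_univ _
    have h2 := (Finset.card_le_card hsub).trans Finset.card_biUnion_le
    have h3 : ((Finset.univ.filter fun ω : Fin N → Ω × Bool =>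
      3 * (N : ℝ) / 4 ≤ ((Finset.univ.filter fun i => (ω i).1 ∈ T).card : ℝ)).card : ℝ) ≤
        ∑ I ∈ (Finset.univ : Finset (Finset (Fin N))).filter
          (fun I => 3 * (N : ℝ) / 4 ≤ (I.card : ℝ)), ((CNT_.A N T I).card : ℝ) := by
      exact_mod_cast h2
    refine h3.trans ?_
    have h4 : ∀ I ∈ (Finset.univ : Finset (Finset (Fin N))).filter
          (fun I => 3 * (N : ℝ) / 4 ≤ (I.card : ℝ)), ((CNT_.A N T I).card : ℝ) ≤
        δ ^ (3 * (N : ℝ) / 4) * (2 * (Fintype.card Ω : ℝ)) ^ N := by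
      intro I hI
      rw [Finset.mem_filter] at hI
      refine (CNT_.cardA N T I δ hT).trans ?_
      refine mul_le_mul_of_nonneg_right ?_ (by positivity)
      rw [← Real.rpow_natCast]
      exact Real.rpow_le_rpow_of_exponent_ge' hδ h1.le (by positivity) hI.2
    refine (Finset.sum_le_sum h4).trans ?_
    rw [Finset.sum_const, nsmul_eq_mul]
    have h5 : (((Finset.univ : Finset (Finset (Fin N))).filter
          (fun I => 3 * (N : ℝ) / 4 ≤ (I.card : ℝ))).card : ℝ) ≤ 2 ^ N := by
      have a1 : ((Finset.univ : Finset (Finset (Fin N))).filter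
          (fun I => 3 * (N : ℝ) / 4 ≤ (I.card : ℝ))).card ≤ 2 ^ N := by
        refine (Finset.card_le_univ _).trans (le_of_eq ?_)
        rw [Fintype.card_finset, Fintype.card_fin]
      exact_mod_cast a1
    have h6 : (0 : ℝ) ≤ δ ^ (3 * (N : ℝ) / 4) * (2 * (Fintype.card Ω : ℝ)) ^ N := by
      have : 0 ≤ δ ^ (3 * (N : ℝ) / 4) := Real.rpow_nonneg hδ _
      positivity
    calc (((Finset.univ : Finset (Finset (Fin N))).filter
          (fun I => 3 * (N : ℝ) / 4 ≤ (I.card : ℝ))).card : ℝ) *
          (δ ^ (3 * (N : ℝ) / 4) * (2 * (Fintype.card Ω : ℝ)) ^ N) ≤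
          2 ^ N * (δ ^ (3 * (N : ℝ) / 4) * (2 * (Fintype.card Ω : ℝ)) ^ N) :=
          mul_le_mul_of_nonneg_right h5 h6
      _ = _ := by ring

end

end Pool.Agent.KW
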