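import Pool.Agent.KW.Stmts

set_option autoImplicit false

open MeasureTheory
open scoped BigOperators ENNReal

namespace Pool.Agent.KW

namespace CNV_

theorem int_sub {d : ℕ} (f : Tor d → ℝ) (x : Tor d) :
    ∫ y, f (x - y) ∂(mu d) = ∫ y, f y ∂(mu d) := by
  have i1 : (mu d).IsAddLeftInvariant := by unfold mu; infer_instance
  have i2 : (mu d).IsNegInvariant :=
    Measure.pi.isNegInvariant (fun _ : Fin d => (AddCircle.haarAddCircle : Measure UnitAddCircle))
  exact integral_sub_left_eq_self f (mu d) x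

theorem pw (q t s : ℝ) (hq : 1 ≤ q) (ht : 0 < t) (hs : 0 ≤ s) :
    s ≤ t + s ^ q * t ^ (1 - q) := by
  rcases le_or_gt s t with h | h
  · have h1 : 0 ≤ s ^ q * t ^ (1 - q) :=
      mul_nonneg (Real.rpow_nonneg hs q) (Real.rpow_nonneg ht.le _)
    linarith
  · have hs0 : 0 < s := lt_trans ht h
    have h1 : s ^ (1 - q) ≤ t ^ (1 - q) :=
      Real.rpow_le_rpow_of_nonpos ht h.le (by linarith)
    have h2 : s = s ^ q * s ^ (1 - q) := by
      rw [← Real.rpow_add hs0]; simp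
    have h3 : s ^ q * s ^ (1 - q) ≤ s ^ q * t ^ (1 - q) :=
      mul_le_mul_of_nonneg_left h1 (Real.rpow_nonneg hs q)
    linarith

end CNV_

open CNV_

theorem cnv_proof : Stmt_Cnv := by
  intro d A φ a₀ a₁ hA ha₀ hb hint
  have hcomp : ∀ x : Tor d, Continuous fun y : Tor d => |A (x - y)| := by
    intro x
    exact (hA.comp (continuous_const.sub continuous_id)).abs
  have hAi : ∀ x : Tor d, Integrable (fun y : Tor d => |A (x - y)|) (mu d) := by
    intro x
    refine Integrable.of_bound (hcomp x).aestronglyMeasurable a₀ ?_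
    filter_upwards with y
    rw [Real.norm_eq_abs, abs_abs]
    exact hb _
  have hAI : ∀ x : Tor d, ∫ y, |A (x - y)| ∂(mu d) ≤ a₁ := by
    intro x
    rw [int_sub (fun y => |A y|) x]
    exact hint
  refine ⟨?_, ?_⟩
  · intro lam hlam _ hφ x
    unfold cnv
    have h1 : ‖∫ y, A (x - y) * φ y ∂(mu d)‖ ≤ ∫ y, |A (x - y)| * lam ∂(mu d) := by
      refine norm_integral_le_of_norm_le ((hAi x).mul_const lam) ?_
      filter_upwards [hφ] with y hy
      rw [norm_mul, Real.norm_eq_abs, Real.norm_eq_abs]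
      exact mul_le_mul_of_nonneg_left hy (abs_nonneg _)
    rw [Real.norm_eq_abs] at h1
    rw [integral_mul_const] at h1
    exact le_trans h1 (mul_le_mul_of_nonneg_right (hAI x) hlam)
  · intro q t hq ht hφ hn x
    have hq0 : 0 < q := by linarith
    have hqt : (ENNReal.ofReal q).toReal = q := ENNReal.toReal_ofReal hq0.le
    have hne : ENNReal.ofReal q ≠ 0 := by
      rw [Ne, ENNReal.ofReal_eq_zero]; linarith
    have hqi : Integrable (fun y => ‖φ y‖ ^ q) (mu d) := by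
      have h := hφ.integrable_norm_rpow hne ENNReal.ofReal_ne_top
      rw [hqt] at h
      exact h
    have hI : ∫ y, ‖φ y‖ ^ q ∂(mu d) ≤ 1 := by
      have h := hφ.eLpNorm_eq_integral_rpow_norm hne ENNReal.ofReal_ne_top
      rw [hqt] at h
      rw [h] at hn
      have hnn : 0 ≤ ∫ y, ‖φ y‖ ^ q ∂(mu d) :=
        integral_nonneg fun y => Real.rpow_nonneg (norm_nonneg _) _
      have h2 : (∫ y, ‖φ y‖ ^ q ∂(mu d)) ^ q⁻¹ ≤ 1 := by
        have h3 : ENNReal.ofReal ((∫ y, ‖φ y‖ ^ q ∂(mu d)) ^ q⁻¹) ≤ ENNReal.ofReal 1 := by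
          rw [ENNReal.ofReal_one]; exact hn
        exact (ENNReal.ofReal_le_ofReal_iff zero_le_one).1 h3
      by_contra hcon
      push Not at hcon
      have h4 : 1 < (∫ y, ‖φ y‖ ^ q ∂(mu d)) ^ q⁻¹ :=
        Real.one_lt_rpow hcon (inv_pos.2 hq0)
      linarith
    unfold cnv
    have h1 : ‖∫ y, A (x - y) * φ y ∂(mu d)‖ ≤
        ∫ y, (|A (x - y)| * t + ‖φ y‖ ^ q * (a₀ * t ^ (1 - q))) ∂(mu d) := by
      refine norm_integral_le_of_norm_le (((hAi x).mul_const t).add (hqi.mul_const _)) ?_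
      filter_upwards with y
      rw [norm_mul, Real.norm_eq_abs]
      have h2 := pw q t ‖φ y‖ hq ht (norm_nonneg _)
      have h3 : 0 ≤ ‖φ y‖ ^ q * t ^ (1 - q) :=
        mul_nonneg (Real.rpow_nonneg (norm_nonneg _) q) (Real.rpow_nonneg ht.le _)
      calc |A (x - y)| * ‖φ y‖ ≤ |A (x - y)| * (t + ‖φ y‖ ^ q * t ^ (1 - q)) :=
            mul_le_mul_of_nonneg_left h2 (abs_nonneg _)
        _ = |A (x - y)| * t + |A (x - y)| * (‖φ y‖ ^ q * t ^ (1 - q)) := by ring
        _ ≤ |A (x - y)| * t + a₀ * (‖φ y‖ ^ q * t ^ (1 - q)) := by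
            have := mul_le_mul_of_nonneg_right (hb (x - y)) h3
            linarith
        _ = |A (x - y)| * t + ‖φ y‖ ^ q * (a₀ * t ^ (1 - q)) := by ring
    rw [integral_add ((hAi x).mul_const t) (hqi.mul_const _), integral_mul_const,
      integral_mul_const] at h1
    rw [Real.norm_eq_abs] at h1
    have h5 : (∫ y, |A (x - y)| ∂(mu d)) * t ≤ a₁ * t :=
      mul_le_mul_of_nonneg_right (hAI x) ht.le
    have h6 : 0 ≤ a₀ * t ^ (1 - q) := mul_nonneg ha₀ (Real.rpow_nonneg ht.le _)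
    have h7 : (∫ y, ‖φ y‖ ^ q ∂(mu d)) * (a₀ * t ^ (1 - q)) ≤ 1 * (a₀ * t ^ (1 - q)) :=
      mul_le_mul_of_nonneg_right hI h6
    linarith

end Pool.Agent.KW
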