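import Pool.Agent.KW.Stmts

set_option autoImplicit false

/-!
# KW, module CORE: a large separated family of random sums
-/

open MeasureTheory
open scoped BigOperators ENNReal

namespace Pool.Agent.KW

noncomputable section

namespace CORE_

/-- Markov's inequality. -/
theorem markov {α : Type} [Fintype α] (f : α → ℝ) (hf : ∀ a, 0 ≤ f a) (c : ℝ) :
    c * ((Finset.univ.filter fun a => c < f a).card : ℝ) ≤ ∑ a, f a := by
  classical
  calc c * ((Finset.univ.filter fun a => c < f a).card : ℝ)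
      = ∑ a ∈ Finset.univ.filter (fun a => c < f a), c := by
        rw [Finset.sum_const, nsmul_eq_mul, mul_comm]
    _ ≤ ∑ a ∈ Finset.univ.filter (fun a => c < f a), f a :=
        Finset.sum_le_sum fun a ha => (Finset.mem_filter.mp ha).2.le
    _ ≤ ∑ a, f a := Finset.sum_le_sum_of_subset_of_nonneg (Finset.filter_subset _ _)
        fun a _ _ => hf a

/-- From the average of an indicator to a number of elements. -/
theorem card_le_of_avg {α : Type} [Fintype α] [Nonempty α] (A : α → Prop) [DecidablePred A] (c : ℝ)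
    (h : avg (fun a => if A a then (1 : ℝ) else 0) ≤ c) :
    ((Finset.univ.filter A).card : ℝ) ≤ c * Fintype.card α := by
  unfold avg at h
  rw [div_le_iff₀ (by exact_mod_cast Fintype.card_pos), Finset.sum_boole] at h
  exact h

variable {Ω : Type} [AddCommGroup Ω] [Fintype Ω]

theorem one_le_avg (κ : Ω → ℝ) (θ : ℝ) : 1 ≤ avg fun y => Real.cosh (θ * κ y) := by
  unfold avg
  have hpos : (0 : ℝ) < Fintype.card Ω := by exact_mod_cast Fintype.card_pos
  rw [le_div_iff₀ hpos, one_mul]
  calc (Fintype.card Ω : ℝ) = ∑ _y : Ω, (1 : ℝ) := by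
        rw [Finset.sum_const, nsmul_eq_mul, mul_one]; rfl
    _ ≤ ∑ y : Ω, Real.cosh (θ * κ y) := Finset.sum_le_sum fun y _ => Real.one_le_cosh _

omit [Fintype Ω] in
/-- The random sum at one of its points. -/
theorem RS_insert {N : ℕ} (κ : Ω → ℝ) (i : Fin (N + 1)) (a : Ω × Bool) (ω : Fin N → Ω × Bool) :
    RS κ (i.insertNth a ω : Fin (N + 1) → Ω × Bool) a.1 = sgn a.2 * κ 0 + RS κ ω a.1 := by
  unfold RS
  rw [Fin.sum_univ_succAbove _ i]
  simp only [Fin.insertNth_apply_same, Fin.insertNth_apply_succAbove, sub_self]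

/-- The number of configurations with an exceptional point `i`. -/
theorem bad_card (hMgf : Stmt_Mgf) {N : ℕ} (κ : Ω → ℝ) (P θ τ : ℝ) (hκ : κ 0 = P) (hθ : 0 ≤ θ)
    (hτ : 2 * Real.exp (-(θ * (P / 4))) * (avg fun y => Real.cosh (θ * κ y)) ^ (N + 1) ≤ τ)
    (i : Fin (N + 1)) :
    ∑ ω : Fin (N + 1) → Ω × Bool,
      (if P / 4 ≤ |RS κ ω (ω i).1 - sgn (ω i).2 * P| then (1 : ℝ) else 0) ≤
      τ * Fintype.card (Fin (N + 1) → Ω × Bool) := by
  classical
  have hM := one_le_avg κ θ
  have hτ' : 2 * Real.exp (-(θ * (P / 4))) * (avg fun y => Real.cosh (θ * κ y)) ^ N ≤ τ := by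
    refine le_trans ?_ hτ
    apply mul_le_mul_of_nonneg_left _ (by positivity)
    exact pow_le_pow_right₀ hM (Nat.le_succ N)
  have h1 : ∀ a : Ω × Bool, ∑ ω : Fin N → Ω × Bool,
      (if P / 4 ≤ |RS κ ω a.1| then (1 : ℝ) else 0) ≤ τ * Fintype.card (Fin N → Ω × Bool) := by
    intro a
    have h2 := ((hMgf Ω N κ a.1).2 θ (P / 4) hθ).trans hτ'
    unfold avg at h2
    rwa [div_le_iff₀ (by exact_mod_cast Fintype.card_pos)] at h2
  rw [← (Fin.insertNthEquiv (fun _ => Ω × Bool) i).sum_comp, Fintype.sum_prod_type]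
  have h3 : ∀ (a : Ω × Bool) (ω : Fin N → Ω × Bool),
      (if P / 4 ≤ |RS κ ((Fin.insertNthEquiv (fun _ => Ω × Bool) i) (a, ω))
        (((Fin.insertNthEquiv (fun _ => Ω × Bool) i) (a, ω)) i).1 -
        sgn (((Fin.insertNthEquiv (fun _ => Ω × Bool) i) (a, ω)) i).2 * P| then (1 : ℝ) else 0) =
      if P / 4 ≤ |RS κ ω a.1| then (1 : ℝ) else 0 := by
    intro a ω
    have e1 : (Fin.insertNthEquiv (fun _ => Ω × Bool) i) (a, ω) =
      (i.insertNth a ω : Fin (N + 1) → Ω × Bool) := rfl
    rw [e1, Fin.insertNth_apply_same, RS_insert, hκ, add_sub_cancel_left]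
  simp_rw [h3]
  calc ∑ a : Ω × Bool, ∑ ω : Fin N → Ω × Bool, (if P / 4 ≤ |RS κ ω a.1| then (1 : ℝ) else 0)
      ≤ ∑ _a : Ω × Bool, τ * Fintype.card (Fin N → Ω × Bool) :=
        Finset.sum_le_sum fun a _ => h1 a
    _ = τ * Fintype.card (Fin (N + 1) → Ω × Bool) := by
        rw [Finset.sum_const, nsmul_eq_mul]
        have : (Fintype.card (Fin (N + 1) → Ω × Bool) : ℝ) =
            (Fintype.card (Ω × Bool) : ℝ) * Fintype.card (Fin N → Ω × Bool) := by
          rw [Fintype.card_fun, Fintype.card_fun, Fintype.card_fin, Fintype.card_fin, pow_succ]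
          push_cast
          ring
        rw [this, Finset.card_univ]
        ring

end CORE_

theorem core_proof (hMgf : Stmt_Mgf) (hCnt : Stmt_Cnt) (hSepF : Stmt_SepF) : Stmt_Core := by
  classical
  intro Ω _ _ _ N p κ Ψ P θ B τ Q hN hP hκ hθ hQ hτ hτ32 hB hΨ
  obtain ⟨N, rfl⟩ : ∃ N', N = N' + 1 := ⟨N - 1, by omega⟩
  set C := Fin (N + 1) → Ω × Bool with hC
  have hM := CORE_.one_le_avg κ θ
  have hΩ : (0 : ℝ) < Fintype.card Ω := by exact_mod_cast Fintype.card_pos
  have hT : (0 : ℝ) < Fintype.card C := by exact_mod_cast Fintype.card_pos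
  have hτ0 : 0 < τ := lt_of_lt_of_le (by positivity) hτ
  set T : ℝ := (Fintype.card C : ℝ) with hTdef
  -- event 1
  set E1 : Finset C := Finset.univ.filter fun ω => 8 * Q < avg (fun x => RS Ψ ω x ^ (2 * p))
    with hE1
  have h1 : (E1.card : ℝ) ≤ T / 8 := by
    have hm := CORE_.markov (fun ω : C => avg (fun x => RS Ψ ω x ^ (2 * p)))
      (fun ω => div_nonneg (Finset.sum_nonneg fun x _ => by
        rw [pow_mul]; positivity) hΩ.le) (8 * Q)
    have hs : ∑ ω : C, avg (fun x => RS Ψ ω x ^ (2 * p)) ≤ Q * T := by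
      unfold avg
      rw [← Finset.sum_div, Finset.sum_comm, div_le_iff₀ hΩ]
      calc ∑ x : Ω, ∑ ω : C, RS Ψ ω x ^ (2 * p) ≤ ∑ _x : Ω, Q * T := by
            refine Finset.sum_le_sum fun x _ => ?_
            have := hΨ x
            unfold avg at this
            rwa [div_le_iff₀ hT] at this
        _ = Q * T * Fintype.card Ω := by
            rw [Finset.sum_const, nsmul_eq_mul, Finset.card_univ]
            ring
    have h2 := hm.trans hs
    have h3 : Q * (8 * (E1.card : ℝ)) ≤ Q * T := by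
      calc Q * (8 * (E1.card : ℝ)) = 8 * Q * (E1.card : ℝ) := by ring
        _ ≤ Q * T := h2
    have h4 := le_of_mul_le_mul_left h3 hQ
    linarith
  -- event 2
  set E2 : Finset C := Finset.univ.filter fun ω => ∃ x, B * P < |RS κ ω x| with hE2
  have h2 : (E2.card : ℝ) ≤ T / 8 := by
    have hsub : E2 ⊆ Finset.univ.biUnion fun x : Ω =>
        Finset.univ.filter fun ω : C => B * P ≤ |RS κ ω x| := by
      intro ω hω
      obtain ⟨x, hx⟩ := (Finset.mem_filter.mp hω).2
      exact Finset.mem_biUnion.mpr ⟨x, Finset.mem_univ _,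
        Finset.mem_filter.mpr ⟨Finset.mem_univ _, hx.le⟩⟩
    have h3 : (E2.card : ℝ) ≤ ∑ x : Ω,
        ((Finset.univ.filter fun ω : C => B * P ≤ |RS κ ω x|).card : ℝ) := by
      have := (Finset.card_le_card hsub).trans Finset.card_biUnion_le
      exact_mod_cast this
    refine h3.trans ?_
    calc ∑ x : Ω, ((Finset.univ.filter fun ω : C => B * P ≤ |RS κ ω x|).card : ℝ)
        ≤ ∑ _x : Ω, (2 * Real.exp (-(θ * (B * P))) *
          (avg fun y => Real.cosh (θ * κ y)) ^ (N + 1)) * T :=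
          Finset.sum_le_sum fun x _ => CORE_.card_le_of_avg _ _ ((hMgf Ω (N + 1) κ x).2 θ _ hθ)
      _ = (Fintype.card Ω : ℝ) * (2 * Real.exp (-(θ * (B * P))) *
          (avg fun y => Real.cosh (θ * κ y)) ^ (N + 1)) * T := by
          rw [Finset.sum_const, nsmul_eq_mul, Finset.card_univ]
          ring
      _ ≤ 1 / 8 * T := mul_le_mul_of_nonneg_right hB hT.le
      _ = T / 8 := by ring
  -- event 3
  set nb : C → ℝ := fun ω => ∑ i : Fin (N + 1),
    (if P / 4 ≤ |RS κ ω (ω i).1 - sgn (ω i).2 * P| then (1 : ℝ) else 0) with hnb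
  set E3 : Finset C := Finset.univ.filter fun ω => ((N + 1 : ℕ) : ℝ) / 4 < nb ω with hE3
  have hN1 : (0 : ℝ) < ((N + 1 : ℕ) : ℝ) := by positivity
  have h3 : (E3.card : ℝ) ≤ T / 8 := by
    have hm := CORE_.markov nb (fun ω => Finset.sum_nonneg fun i _ => by
      split_ifs <;> norm_num) (((N + 1 : ℕ) : ℝ) / 4)
    have hs : ∑ ω : C, nb ω ≤ ((N + 1 : ℕ) : ℝ) * (τ * T) := by
      rw [hnb, Finset.sum_comm]
      calc _ ≤ ∑ _i : Fin (N + 1), τ * T :=
            Finset.sum_le_sum fun i _ => CORE_.bad_card hMgf κ P θ τ hκ hθ hτ i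
        _ = ((N + 1 : ℕ) : ℝ) * (τ * T) := by
            rw [Finset.sum_const, nsmul_eq_mul, Finset.card_univ, Fintype.card_fin]
    have h4 := hm.trans hs
    have h5 : ((N + 1 : ℕ) : ℝ) * ((E3.card : ℝ) / 4) ≤ ((N + 1 : ℕ) : ℝ) * (τ * T) := by
      calc ((N + 1 : ℕ) : ℝ) * ((E3.card : ℝ) / 4) = ((N + 1 : ℕ) : ℝ) / 4 * (E3.card : ℝ) := by
            ring
        _ ≤ _ := h4
    have h6 := le_of_mul_le_mul_left h5 hN1
    have h7 : τ * T ≤ 1 / 32 * T := mul_le_mul_of_nonneg_right hτ32 hT.le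
    linarith
  -- event 4
  set nt : C → ℝ := fun ω => ∑ x : Ω, (if P / 4 ≤ |RS κ ω x| then (1 : ℝ) else 0) with hnt
  set E4 : Finset C := Finset.univ.filter fun ω => 8 * τ * Fintype.card Ω < nt ω with hE4
  have h4 : (E4.card : ℝ) ≤ T / 8 := by
    have hm := CORE_.markov nt (fun ω => Finset.sum_nonneg fun i _ => by
      split_ifs <;> norm_num) (8 * τ * Fintype.card Ω)
    have hs : ∑ ω : C, nt ω ≤ (Fintype.card Ω : ℝ) * (τ * T) := by
      rw [hnt, Finset.sum_comm]
      calc _ ≤ ∑ _x : Ω, τ * T := by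
            refine Finset.sum_le_sum fun x _ => ?_
            have h5 := ((hMgf Ω (N + 1) κ x).2 θ (P / 4) hθ).trans hτ
            unfold avg at h5
            rwa [div_le_iff₀ hT] at h5
        _ = (Fintype.card Ω : ℝ) * (τ * T) := by
            rw [Finset.sum_const, nsmul_eq_mul, Finset.card_univ]
    have h5 := hm.trans hs
    have h6 : (τ * Fintype.card Ω) * (8 * (E4.card : ℝ)) ≤ (τ * Fintype.card Ω) * T := by
      calc (τ * Fintype.card Ω) * (8 * (E4.card : ℝ)) =
            8 * τ * Fintype.card Ω * (E4.card : ℝ) := by ring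
        _ ≤ (Fintype.card Ω : ℝ) * (τ * T) := h5
        _ = (τ * Fintype.card Ω) * T := by ring
    have h7 := le_of_mul_le_mul_left h6 (by positivity)
    linarith
  -- the good configurations
  set G : Finset C := Finset.univ \ (E1 ∪ E2 ∪ E3 ∪ E4) with hG
  have hGcard : T / 2 ≤ G.card := by
    have hu : (((E1 ∪ E2 ∪ E3 ∪ E4).card : ℕ) : ℝ) ≤ T / 2 := by
      have h5 : (E1 ∪ E2 ∪ E3 ∪ E4).card ≤ E1.card + E2.card + E3.card + E4.card := by
        refine (Finset.card_union_le _ _).trans ?_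
        have h6 := Finset.card_union_le (E1 ∪ E2) E3
        have h7 := Finset.card_union_le E1 E2
        omega
      have h6 : (((E1 ∪ E2 ∪ E3 ∪ E4).card : ℕ) : ℝ) ≤
          (E1.card : ℝ) + E2.card + E3.card + E4.card := by exact_mod_cast h5
      linarith
    have h5 : ((Finset.univ : Finset C).card : ℝ) ≤ G.card + (E1 ∪ E2 ∪ E3 ∪ E4).card := by
      have := Finset.card_le_card_sdiff_add_card (s := (Finset.univ : Finset C))
        (t := E1 ∪ E2 ∪ E3 ∪ E4)
      exact_mod_cast this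
    rw [Finset.card_univ] at h5
    linarith
  have hGmem : ∀ ω ∈ G, (avg (fun x => RS Ψ ω x ^ (2 * p)) ≤ 8 * Q) ∧
      (∀ x, |RS κ ω x| ≤ B * P) ∧ nb ω ≤ ((N + 1 : ℕ) : ℝ) / 4 ∧
      nt ω ≤ 8 * τ * Fintype.card Ω := by
    intro ω hω
    have h5 := (Finset.mem_sdiff.mp hω).2
    simp only [Finset.mem_union, not_or] at h5
    obtain ⟨⟨⟨h6, h7⟩, h8⟩, h9⟩ := h5
    refine ⟨?_, ?_, ?_, ?_⟩
    · by_contra hcon
      exact h6 (Finset.mem_filter.mpr ⟨Finset.mem_univ _, not_le.mp hcon⟩)
    · intro x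
      by_contra hcon
      exact h7 (Finset.mem_filter.mpr ⟨Finset.mem_univ _, x, not_le.mp hcon⟩)
    · by_contra hcon
      exact h8 (Finset.mem_filter.mpr ⟨Finset.mem_univ _, not_le.mp hcon⟩)
    · by_contra hcon
      exact h9 (Finset.mem_filter.mpr ⟨Finset.mem_univ _, not_le.mp hcon⟩)
  set K : ℝ := 2 ^ (N + 1) * (8 * τ) ^ (3 * ((N + 1 : ℕ) : ℝ) / 4) *
    (2 * (Fintype.card Ω : ℝ)) ^ (N + 1) with hK
  obtain ⟨F, hFG, hFcard, hFsep⟩ := hSepF C G
    (fun ω ω' => ∀ x, |RS κ ω x - RS κ ω' x| < P / 2) K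
    (fun a b h x => by rw [abs_sub_comm]; exact h x)
    (fun a _ x => by rw [sub_self, abs_zero]; linarith)
    (by
      intro b hb
      obtain ⟨-, -, -, hb4⟩ := hGmem b hb
      set Tb : Finset Ω := Finset.univ.filter fun x => P / 4 ≤ |RS κ b x| with hTb
      refine ⟨Finset.univ.filter fun ω : C => 3 * ((N + 1 : ℕ) : ℝ) / 4 ≤
        ((Finset.univ.filter fun i => (ω i).1 ∈ Tb).card : ℝ), ?_, ?_⟩
      · intro a ha hab
        obtain ⟨-, -, ha3, -⟩ := hGmem a ha
        refine Finset.mem_filter.mpr ⟨Finset.mem_univ _, ?_⟩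
        -- the points that are not exceptional
        have hcomp : ∀ i : Fin (N + 1), (1 : ℝ) -
            (if P / 4 ≤ |RS κ a (a i).1 - sgn (a i).2 * P| then (1 : ℝ) else 0) ≤
            if (a i).1 ∈ Tb then (1 : ℝ) else 0 := by
          intro i
          by_cases hi : P / 4 ≤ |RS κ a (a i).1 - sgn (a i).2 * P|
          · rw [if_pos hi, sub_self]
            split_ifs <;> norm_num
          · rw [if_neg hi, sub_zero, if_pos]
            refine Finset.mem_filter.mpr ⟨Finset.mem_univ _, ?_⟩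
            have h5 := hab (a i).1
            have h6 := not_le.mp hi
            have h7 : |sgn (a i).2 * P| = P := by
              rw [abs_mul, abs_of_pos hP]
              unfold sgn
              split_ifs <;> norm_num
            have h8 : |sgn (a i).2 * P| ≤ |RS κ b (a i).1| +
                |RS κ a (a i).1 - RS κ b (a i).1| + |RS κ a (a i).1 - sgn (a i).2 * P| := by
              have h9 : sgn (a i).2 * P = RS κ b (a i).1 + (RS κ a (a i).1 - RS κ b (a i).1) +
                  -(RS κ a (a i).1 - sgn (a i).2 * P) := by ring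
              calc |sgn (a i).2 * P| = |RS κ b (a i).1 + (RS κ a (a i).1 - RS κ b (a i).1) +
                  -(RS κ a (a i).1 - sgn (a i).2 * P)| := congrArg abs h9
                _ ≤ |RS κ b (a i).1 + (RS κ a (a i).1 - RS κ b (a i).1)| +
                  |-(RS κ a (a i).1 - sgn (a i).2 * P)| := abs_add_le _ _
                _ ≤ |RS κ b (a i).1| + |RS κ a (a i).1 - RS κ b (a i).1| +
                  |-(RS κ a (a i).1 - sgn (a i).2 * P)| := by
                    have := abs_add_le (RS κ b (a i).1) (RS κ a (a i).1 - RS κ b (a i).1)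
                    linarith
                _ = _ := by rw [abs_neg]
            linarith
        have hsum : ((N + 1 : ℕ) : ℝ) - nb a ≤
            ((Finset.univ.filter fun i => (a i).1 ∈ Tb).card : ℝ) := by
          calc ((N + 1 : ℕ) : ℝ) - nb a = ∑ i : Fin (N + 1), ((1 : ℝ) -
                (if P / 4 ≤ |RS κ a (a i).1 - sgn (a i).2 * P| then (1 : ℝ) else 0)) := by
                rw [Finset.sum_sub_distrib, Finset.sum_const, nsmul_eq_mul, mul_one,
                  Finset.card_univ, Fintype.card_fin]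
            _ ≤ ∑ i : Fin (N + 1), (if (a i).1 ∈ Tb then (1 : ℝ) else 0) :=
                Finset.sum_le_sum fun i _ => hcomp i
            _ = _ := by rw [Finset.sum_boole]
        linarith
      · have hTbcard : (Tb.card : ℝ) ≤ 8 * τ * Fintype.card Ω := by
          have : (Tb.card : ℝ) = nt b := by
            rw [hnt]
            simp only
            rw [Finset.sum_boole]
          rw [this]
          exact hb4
        have := hCnt Ω (N + 1) Tb (8 * τ) (by omega) Fintype.card_pos (by positivity) hTbcard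
        exact this)
  refine ⟨F, ?_, fun ω hω => (hGmem ω (hFG hω)).2.1, fun ω hω => (hGmem ω (hFG hω)).1, ?_⟩
  · have h5 : T / 2 ≤ F.card * K := hGcard.trans hFcard
    have hTeq : T = (2 * (Fintype.card Ω : ℝ)) ^ (N + 1) := by
      have h6 : Fintype.card (Fin (N + 1) → Ω × Bool) = (Fintype.card Ω * 2) ^ (N + 1) := by
        rw [Fintype.card_fun, Fintype.card_fin, Fintype.card_prod, Fintype.card_bool]
      have h7 : T = (((Fintype.card Ω * 2) ^ (N + 1) : ℕ) : ℝ) := by
        rw [← h6]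
      rw [h7]
      push_cast
      ring
    rw [hK, ← hTeq] at h5
    have h6 : T * (1 / 2) ≤ T * ((F.card : ℝ) *
        (2 ^ (N + 1) * (8 * τ) ^ (3 * ((N + 1 : ℕ) : ℝ) / 4))) := by
      calc T * (1 / 2) = T / 2 := by ring
        _ ≤ _ := h5
        _ = _ := by ring
    exact le_of_mul_le_mul_left h6 hT
  · intro ω hω ω' hω' hne
    have h5 := hFsep ω hω ω' hω' hne
    push Not at h5
    exact h5

end

end Pool.Agent.KW
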