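import Pool.Agent.KW.Stmts

set_option autoImplicit false

/-!
# CPLX: real and complex widths are comparable
-/

open MeasureTheory
open scoped BigOperators ENNReal

namespace Pool.Agent.KW

noncomputable section

namespace CPLX_

instance (d : ℕ) : (mu d).IsAddLeftInvariant := by unfold mu; infer_instance

/-- The kernel on the torus. -/
def KK (d : ℕ) (r α : ℝ) (x : Tor d) : ℝ := ∏ i, Fr r α (x i)

theorem KK_int (h : Stmt_Frk) (d : ℕ) (r α : ℝ) (hr : 0 < r) : Integrable (KK d r α) (mu d) := by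
  unfold KK mu
  exact Integrable.fintype_prod (f := fun _ : Fin d => Fr r α)
    (μ := fun _ : Fin d => (AddCircle.haarAddCircle : Measure UnitAddCircle))
    (fun _ => (h r α hr).1)

/-- The integrand of the convolution is integrable, for almost all points. -/
theorem conv_int (h : Stmt_Frk) (d : ℕ) (r α : ℝ) (hr : 0 < r) (φ : Tor d → ℂ)
    (hφ : Integrable φ (mu d)) : ∀ᵐ x ∂(mu d), Integrable
      (fun y => φ y * ((∏ i, Fr r α (x i - y i) : ℝ) : ℂ)) (mu d) := by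
  have hK : Integrable (fun x => ((KK d r α x : ℝ) : ℂ)) (mu d) := (KK_int h d r α hr).ofReal
  have h1 := MeasureTheory.Integrable.ae_convolution_exists (ContinuousLinearMap.mul ℂ ℂ)
    (μ := mu d) (ν := mu d) hφ hK
  filter_upwards [h1] with x hx
  exact hx

/-- Embedding, real and imaginary parts. -/
def emb (d : ℕ) : Lp ℝ ⊤ (mu d) →L[ℝ] Lp ℂ ⊤ (mu d) :=
  ContinuousLinearMap.compLpL ⊤ (mu d) Complex.ofRealCLM

def rep (d : ℕ) : Lp ℂ ⊤ (mu d) →L[ℝ] Lp ℝ ⊤ (mu d) :=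
  ContinuousLinearMap.compLpL ⊤ (mu d) Complex.reCLM

def imp (d : ℕ) : Lp ℂ ⊤ (mu d) →L[ℝ] Lp ℝ ⊤ (mu d) :=
  ContinuousLinearMap.compLpL ⊤ (mu d) Complex.imCLM

theorem emb_ae {d : ℕ} (f : Lp ℝ ⊤ (mu d)) : ∀ᵐ x ∂(mu d), emb d f x = ((f x : ℝ) : ℂ) :=
  ContinuousLinearMap.coeFn_compLpL Complex.ofRealCLM f

theorem rep_ae {d : ℕ} (f : Lp ℂ ⊤ (mu d)) : ∀ᵐ x ∂(mu d), rep d f x = (f x).re :=
  ContinuousLinearMap.coeFn_compLpL Complex.reCLM f

theorem imp_ae {d : ℕ} (f : Lp ℂ ⊤ (mu d)) : ∀ᵐ x ∂(mu d), imp d f x = (f x).im :=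
  ContinuousLinearMap.coeFn_compLpL Complex.imCLM f

theorem emb_norm {d : ℕ} (f : Lp ℝ ⊤ (mu d)) : ‖emb d f‖ ≤ ‖f‖ := by
  have h := ContinuousLinearMap.norm_compLp_le Complex.ofRealCLM f
  rw [Complex.ofRealCLM_norm, one_mul] at h
  exact h

theorem rep_norm {d : ℕ} (f : Lp ℂ ⊤ (mu d)) : ‖rep d f‖ ≤ ‖f‖ := by
  have h := ContinuousLinearMap.norm_compLp_le Complex.reCLM f
  rw [Complex.reCLM_norm, one_mul] at h
  exact h

theorem rep_emb {d : ℕ} (f : Lp ℝ ⊤ (mu d)) : rep d (emb d f) = f := by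
  apply Lp.ext
  filter_upwards [rep_ae (emb d f), emb_ae f] with x h1 h2
  rw [h1, h2, Complex.ofReal_re]

theorem decomp {d : ℕ} (f : Lp ℂ ⊤ (mu d)) :
    f = emb d (rep d f) + Complex.I • emb d (imp d f) := by
  apply Lp.ext
  filter_upwards [Lp.coeFn_add (emb d (rep d f)) (Complex.I • emb d (imp d f)),
    Lp.coeFn_smul Complex.I (emb d (imp d f)), emb_ae (rep d f), emb_ae (imp d f), rep_ae f,
    imp_ae f] with x h1 h2 h3 h4 h5 h6
  rw [h1, Pi.add_apply, h2, Pi.smul_apply, h3, h4, h5, h6, smul_eq_mul, mul_comm Complex.I]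
  exact (Complex.re_add_im (f x)).symm

/-- Real parts of the complex class. -/
theorem rep_mem (h : Stmt_Frk) {d : ℕ} {q : ℝ≥0∞} {r α : ℝ} (hq : 1 ≤ q) (hr : 0 < r)
    {f : Lp ℂ ⊤ (mu d)} (hf : f ∈ WC d q r α) : rep d f ∈ WR d q r α := by
  obtain ⟨φ, h1, h2, h3⟩ := hf
  refine ⟨fun x => (φ x).re, h1.re, (eLpNorm_mono fun x => ?_).trans h2, ?_⟩
  · exact Complex.abs_re_le_norm (φ x)
  · filter_upwards [rep_ae f, h3, conv_int h d r α hr φ (h1.integrable hq)] with x h4 h5 h6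
    rw [h4, h5]
    have h7 := integral_re (𝕜 := ℂ) h6
    simp only [RCLike.re_to_complex] at h7
    rw [← h7]
    refine integral_congr_ae (Filter.Eventually.of_forall fun y => ?_)
    simp only [Complex.re_mul_ofReal]

/-- Imaginary parts of the complex class. -/
theorem imp_mem (h : Stmt_Frk) {d : ℕ} {q : ℝ≥0∞} {r α : ℝ} (hq : 1 ≤ q) (hr : 0 < r)
    {f : Lp ℂ ⊤ (mu d)} (hf : f ∈ WC d q r α) : imp d f ∈ WR d q r α := by
  obtain ⟨φ, h1, h2, h3⟩ := hf
  refine ⟨fun x => (φ x).im, h1.im, (eLpNorm_mono fun x => ?_).trans h2, ?_⟩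
  · exact Complex.abs_im_le_norm (φ x)
  · filter_upwards [imp_ae f, h3, conv_int h d r α hr φ (h1.integrable hq)] with x h4 h5 h6
    rw [h4, h5]
    have h7 := integral_im (𝕜 := ℂ) h6
    simp only [RCLike.im_to_complex] at h7
    rw [← h7]
    refine integral_congr_ae (Filter.Eventually.of_forall fun y => ?_)
    simp only [Complex.im_mul_ofReal]

/-- The real class is contained in the complex class. -/
theorem emb_mem {d : ℕ} {q : ℝ≥0∞} {r α : ℝ} {f : Lp ℝ ⊤ (mu d)} (hf : f ∈ WR d q r α) :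
    emb d f ∈ WC d q r α := by
  obtain ⟨φ, h1, h2, h3⟩ := hf
  refine ⟨fun x => ((φ x : ℝ) : ℂ), h1.ofReal, (eLpNorm_mono fun x => ?_).trans h2, ?_⟩
  · rw [Complex.norm_real]
  · filter_upwards [emb_ae f, h3] with x h4 h5
    rw [h4, h5]
    refine Eq.trans (integral_ofReal (𝕜 := ℂ) (μ := mu d)
      (f := fun y => φ y * ∏ i, Fr r α (x i - y i))).symm ?_
    refine integral_congr_ae (Filter.Eventually.of_forall fun y => ?_)
    exact Complex.ofReal_mul _ _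

/-- Complexification of a subspace. -/
theorem exists_cplx {d : ℕ} (U : Submodule ℝ (Lp ℝ ⊤ (mu d))) (m : ℕ)
    (hU : FiniteDimensional ℝ U ∧ Module.finrank ℝ U ≤ m) :
    ∃ U' : Submodule ℂ (Lp ℂ ⊤ (mu d)), (FiniteDimensional ℂ U' ∧ Module.finrank ℂ U' ≤ m) ∧
      ∀ u ∈ U, emb d u ∈ U' := by
  have := hU.1
  let b := Module.finBasis ℝ U
  let e : Fin (Module.finrank ℝ U) → Lp ℂ ⊤ (mu d) := fun i => emb d (b i : Lp ℝ ⊤ (mu d))
  refine ⟨Submodule.span ℂ (Set.range e), ⟨?_, ?_⟩, ?_⟩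
  · exact FiniteDimensional.span_of_finite ℂ (Set.finite_range e)
  · have h1 := finrank_range_le_card (R := ℂ) e
    rw [Fintype.card_fin] at h1
    exact h1.trans hU.2
  · intro u hu
    have h1 := b.sum_repr ⟨u, hu⟩
    have h2 : u = ∑ i, b.repr ⟨u, hu⟩ i • (b i : Lp ℝ ⊤ (mu d)) := by
      have h3 := congrArg Subtype.val h1
      rw [Submodule.coe_sum] at h3
      exact h3.symm
    rw [h2, map_sum]
    refine Submodule.sum_mem _ fun i _ => ?_
    rw [map_smul]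
    have h4 : (b.repr ⟨u, hu⟩ i) • emb d (b i : Lp ℝ ⊤ (mu d)) =
        ((b.repr ⟨u, hu⟩ i : ℝ) : ℂ) • emb d (b i : Lp ℝ ⊤ (mu d)) :=
      (Complex.coe_smul _ _).symm
    rw [h4]
    exact Submodule.smul_mem _ _ (Submodule.subset_span ⟨i, rfl⟩)

theorem infE_le {d : ℕ} (U : Submodule ℝ (Lp ℝ ⊤ (mu d))) (U' : Submodule ℂ (Lp ℂ ⊤ (mu d)))
    (hUU : ∀ u ∈ U, emb d u ∈ U') (f : Lp ℂ ⊤ (mu d)) :
    Metric.infEDist f (U' : Set (Lp ℂ ⊤ (mu d))) ≤
      Metric.infEDist (rep d f) (U : Set (Lp ℝ ⊤ (mu d))) +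
        Metric.infEDist (imp d f) (U : Set (Lp ℝ ⊤ (mu d))) := by
  have key : ∀ u ∈ U, ∀ v ∈ U, Metric.infEDist f (U' : Set (Lp ℂ ⊤ (mu d))) ≤
      edist (rep d f) u + edist (imp d f) v := by
    intro u hu v hv
    have h1 : emb d u + Complex.I • emb d v ∈ U' :=
      U'.add_mem (hUU u hu) (U'.smul_mem _ (hUU v hv))
    refine (Metric.infEDist_le_edist_of_mem h1).trans ?_
    rw [edist_eq_enorm_sub, edist_eq_enorm_sub, edist_eq_enorm_sub]
    have h2 : f - (emb d u + Complex.I • emb d v) =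
        emb d (rep d f - u) + Complex.I • emb d (imp d f - v) := by
      rw [map_sub, map_sub, smul_sub]
      nth_rewrite 1 [decomp f]
      abel
    rw [h2]
    refine (enorm_add_le _ _).trans (add_le_add ?_ ?_)
    · rw [← ofReal_norm, ← ofReal_norm]
      exact ENNReal.ofReal_le_ofReal (emb_norm _)
    · rw [← ofReal_norm, ← ofReal_norm, norm_smul, Complex.norm_I, one_mul]
      exact ENNReal.ofReal_le_ofReal (emb_norm _)
  have hB : ∀ g : Lp ℝ ⊤ (mu d), Metric.infEDist g (U : Set (Lp ℝ ⊤ (mu d))) =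
      ⨅ u : U, edist g (u : Lp ℝ ⊤ (mu d)) := by
    intro g
    unfold Metric.infEDist
    exact iInf_subtype' (f := fun (y : Lp ℝ ⊤ (mu d)) (_ : y ∈ U) => edist g y)
  rw [hB, hB, ENNReal.iInf_add]
  refine le_iInf fun u => ?_
  rw [ENNReal.add_iInf]
  refine le_iInf fun v => ?_
  exact key u.1 u.2 v.1 v.2

end CPLX_

open CPLX_ in
/-- Module CPLX. -/
theorem cplx_proof (h : Stmt_Frk) : Stmt_Cplx := by
  intro d q r α m hq hr
  constructor
  · unfold kol
    have : Nonempty {U : Submodule ℝ (Lp ℝ ⊤ (mu d)) // FiniteDimensional ℝ U ∧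
        Module.finrank ℝ U ≤ m} := ⟨⟨⊥, inferInstance, by simp⟩⟩
    rw [ENNReal.mul_iInf (fun h => absurd h (by simp))]
    refine le_iInf fun U => ?_
    obtain ⟨U', hU', hUU⟩ := exists_cplx U.1 m U.2
    have hS : ∀ g ∈ WR d q r α, Metric.infEDist g (U.1 : Set (Lp ℝ ⊤ (mu d))) ≤
        ⨆ g ∈ WR d q r α, Metric.infEDist g (U.1 : Set (Lp ℝ ⊤ (mu d))) :=
      fun g hg => le_iSup₂_of_le g hg le_rfl
    refine iInf_le_of_le ⟨U', hU'⟩ ?_
    refine iSup₂_le fun f hf => ?_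
    refine (infE_le U.1 U' hUU f).trans ?_
    rw [two_mul]
    exact add_le_add (hS _ (rep_mem h hq hr hf)) (hS _ (imp_mem h hq hr hf))
  · unfold kol
    refine le_iInf fun U => ?_
    have := U.2.1
    let U₁ : Submodule ℝ (Lp ℂ ⊤ (mu d)) := U.1.restrictScalars ℝ
    have hfin : FiniteDimensional ℝ U₁ := FiniteDimensional.complexToReal U.1
    have hrank : Module.finrank ℝ U₁ = 2 * Module.finrank ℂ U.1 := finrank_real_of_complex U.1
    let U' : Submodule ℝ (Lp ℝ ⊤ (mu d)) := U₁.map ((rep d : _ →L[ℝ] _) : _ →ₗ[ℝ] _)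
    have hU' : FiniteDimensional ℝ U' ∧ Module.finrank ℝ U' ≤ 2 * m := by
      refine ⟨inferInstance, ?_⟩
      refine (Submodule.finrank_map_le _ U₁).trans ?_
      rw [hrank]
      exact Nat.mul_le_mul_left _ U.2.2
    have hS : ∀ g ∈ WC d q r α, Metric.infEDist g (U.1 : Set (Lp ℂ ⊤ (mu d))) ≤
        ⨆ g ∈ WC d q r α, Metric.infEDist g (U.1 : Set (Lp ℂ ⊤ (mu d))) :=
      fun g hg => le_iSup₂_of_le g hg le_rfl
    refine iInf_le_of_le ⟨U', hU'⟩ ?_
    refine iSup₂_le fun f hf => ?_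
    refine le_trans ?_ (hS _ (emb_mem hf))
    refine Metric.le_infEDist.2 fun u hu => ?_
    have h1 : rep d u ∈ U' := ⟨u, hu, rfl⟩
    refine (Metric.infEDist_le_edist_of_mem h1).trans ?_
    rw [edist_eq_enorm_sub, edist_eq_enorm_sub]
    have h2 : f - rep d u = rep d (emb d f - u) := by rw [map_sub, rep_emb]
    rw [h2, ← ofReal_norm, ← ofReal_norm]
    exact ENNReal.ofReal_le_ofReal (rep_norm _)

end

end Pool.Agent.KW
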