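import Pool.Agent.KW.Stmts

/-!
# KW, module CPROD: Fourier coefficients of tensor products
-/

set_option autoImplicit false

open MeasureTheory
open scoped BigOperators

namespace Pool.Agent.KW

theorem cprod_proof : Stmt_CProd := by
  intro d v _ n
  unfold coef mu
  rw [← MeasureTheory.integral_fintype_prod_eq_prod (𝕜 := ℂ)
    (fun i (x : UnitAddCircle) => fourier (-(n i)) x * ((v i x : ℝ) : ℂ))]
  refine integral_congr_ae (Filter.Eventually.of_forall fun x => ?_)
  simp only [ch, Pi.neg_apply]
  rw [Complex.ofReal_prod, ← Finset.prod_mul_distrib]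

end Pool.Agent.KW
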