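import Pool.Agent.KW.Stmts

set_option autoImplicit false

/-!
# KW: module CREP
-/

open MeasureTheory
open scoped BigOperators ENNReal

namespace Pool.Agent.KW

namespace CREP_

theorem bet_zero {s : ℕ} {k : ℤ} (hk : k ∉ Finset.Icc (-(2 : ℤ) ^ (s + 1)) (2 ^ (s + 1))) :
    bet s k = 0 := by
  have habs : (2 : ℤ) ^ (s + 1) < |k| := by
    by_contra hcon
    push Not at hcon
    apply hk
    rw [Finset.mem_Icc]
    exact abs_le.mp hcon
  unfold bet
  split_ifs with hs h1
  · exfalso
    have h2 : (2 : ℤ) ^ (s + 1) = 2 := by rw [hs]; norm_num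
    omega
  · rfl
  · unfold win
    have hpos : (0 : ℝ) < 2 ^ s := by positivity
    have h3 : (2 : ℝ) < |(k : ℝ)| / 2 ^ s := by
      rw [lt_div_iff₀ hpos]
      have : ((2 : ℤ) ^ (s + 1) : ℝ) < ((|k| : ℤ) : ℝ) := by exact_mod_cast habs
      rw [Int.cast_abs] at this
      calc (2 : ℝ) * 2 ^ s = 2 ^ (s + 1) := by ring
        _ < |(k : ℝ)| := by exact_mod_cast this
    have h4 : min (2 * (|(k : ℝ)| / 2 ^ s) - 1) (2 - |(k : ℝ)| / 2 ^ s) ≤ 0 :=
      le_trans (min_le_right _ _) (by linarith)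
    exact max_eq_left h4

theorem fourier_sub (n : ℤ) (x y : UnitAddCircle) :
    fourier n (x - y) = fourier n x * fourier (-n) y := by
  rw [fourier_apply, fourier_apply, fourier_apply, smul_sub, neg_smul, sub_eq_add_neg,
    AddCircle.toCircle_add, Circle.coe_mul]

theorem ch_sub {d : ℕ} (n : Fin d → ℤ) (x y : Tor d) : ch n (x - y) = ch n x * ch (-n) y := by
  unfold ch
  rw [← Finset.prod_mul_distrib]
  refine Finset.prod_congr rfl fun i _ => ?_
  rw [Pi.sub_apply, fourier_sub, Pi.neg_apply]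

theorem norm_ch {d : ℕ} (n : Fin d → ℤ) (x : Tor d) : ‖ch n x‖ = 1 := by
  unfold ch
  rw [norm_prod]
  refine Finset.prod_eq_one fun i _ => ?_
  rw [fourier_apply]
  exact Circle.norm_coe _

theorem integral_fourier (k : ℤ) :
    ∫ x : UnitAddCircle, fourier k x ∂AddCircle.haarAddCircle = if k = 0 then 1 else 0 := by
  split_ifs with h
  · subst h
    simp
  · exact integral_eq_zero_of_add_right_eq_neg (μ := AddCircle.haarAddCircle)
      (fourier_add_half_inv_index h one_pos)

theorem integral_ch {d : ℕ} (n m : Fin d → ℤ) :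
    ∫ x, ch (-n) x * ch m x ∂(mu d) = if m = n then 1 else 0 := by
  have h1 : ∀ x : Tor d, ch (-n) x * ch m x = ∏ i, fourier (-(n i) + m i) (x i) := by
    intro x
    unfold ch
    rw [← Finset.prod_mul_distrib]
    refine Finset.prod_congr rfl fun i _ => ?_
    rw [Pi.neg_apply, fourier_add]
  simp_rw [h1]
  unfold mu
  rw [integral_fintype_prod_eq_prod (fun i (t : UnitAddCircle) => (fourier (-(n i) + m i) t : ℂ))]
  simp_rw [integral_fourier]
  split_ifs with h
  · subst h
    simp
  · obtain ⟨i, hi⟩ := Function.ne_iff.mp h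
    refine Finset.prod_eq_zero (Finset.mem_univ i) ?_
    rw [if_neg]
    intro h0
    exact hi (by omega)

/-- The layer as a trigonometric polynomial. -/
theorem lay_eq (h1 : Stmt_RhoB) (d : ℕ) (r α : ℝ) (l : ℕ) (x : Tor d) :
    ((Lay d r α l x : ℝ) : ℂ) = ∑ n ∈ Box d (2 ^ (l + 1)), lm d r α l n * ch n x := by
  unfold Lay lm
  rw [Complex.ofReal_sum]
  have hs : ∀ s ∈ Sh d l, ((∏ i, blk r α (s i) (x i) : ℝ) : ℂ) =
      ∑ n ∈ Box d (2 ^ (l + 1)), (∏ i, ((bet (s i) (n i) : ℝ) : ℂ) * rho r α (n i)) * ch n x := by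
    intro s hs
    have hsl : ∀ i, s i ≤ l := by
      intro i
      have hsum : ∑ j, s j = l := by
        unfold Sh at hs
        exact (Finset.mem_piAntidiag.mp hs).1
      rw [← hsum]
      exact Finset.single_le_sum (f := s) (fun j _ => Nat.zero_le _) (Finset.mem_univ i)
    rw [Complex.ofReal_prod]
    have hk : ∀ i, ((blk r α (s i) (x i) : ℝ) : ℂ) =
        ∑ k ∈ Finset.Icc (-((2 ^ (l + 1) : ℕ) : ℤ)) ((2 ^ (l + 1) : ℕ) : ℤ),
          ((bet (s i) k : ℝ) : ℂ) * rho r α k * fourier k (x i) := by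
      intro i
      rw [(h1 r α).2.2 (s i) (x i)]
      refine Finset.sum_subset ?_ ?_
      · intro k hk
        rw [Finset.mem_Icc] at hk ⊢
        have hle : (2 : ℤ) ^ (s i + 1) ≤ 2 ^ (l + 1) :=
          pow_le_pow_right₀ (by norm_num) (by have := hsl i; omega)
        push_cast
        constructor <;> linarith [hk.1, hk.2]
      · intro k _ hk
        rw [bet_zero hk]
        simp
    simp_rw [hk]
    rw [Finset.prod_univ_sum]
    unfold Box
    refine Finset.sum_congr rfl fun n _ => ?_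
    unfold ch
    rw [← Finset.prod_mul_distrib]
  rw [Finset.sum_congr rfl hs, Finset.sum_comm]
  refine Finset.sum_congr rfl fun n _ => ?_
  rw [Finset.sum_mul]

theorem cnv_eq (h1 : Stmt_RhoB) (d : ℕ) (r α : ℝ) (l : ℕ) (φ : Tor d → ℝ)
    (hφ : Integrable φ (mu d)) (x : Tor d) :
    ((cnv (Lay d r α l) φ x : ℝ) : ℂ) =
      ∑ n ∈ Box d (2 ^ (l + 1)), lm d r α l n * coef (fun x => (φ x : ℂ)) n * ch n x := by
  unfold cnv
  rw [← integral_complex_ofReal]
  have h2 : ∀ y : Tor d, ((Lay d r α l (x - y) * φ y : ℝ) : ℂ) =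
      ∑ n ∈ Box d (2 ^ (l + 1)), (lm d r α l n * ch n x) * (ch (-n) y * (φ y : ℂ)) := by
    intro y
    rw [Complex.ofReal_mul, lay_eq h1, Finset.sum_mul]
    refine Finset.sum_congr rfl fun n _ => ?_
    rw [ch_sub]
    ring
  simp_rw [h2]
  have hφc : Integrable (fun y => (φ y : ℂ)) (mu d) := hφ.ofReal
  have hint : ∀ n : Fin d → ℤ, Integrable (fun y => ch (-n) y * (φ y : ℂ)) (mu d) := by
    intro n
    refine hφc.bdd_mul (c := 1) (ch_continuous (-n)).aestronglyMeasurable ?_
    exact Filter.Eventually.of_forall fun y => (norm_ch (-n) y).le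
  rw [integral_finsetSum]
  · refine Finset.sum_congr rfl fun n _ => ?_
    rw [integral_const_mul]
    unfold coef
    ring
  · intro n _
    exact (hint n).const_mul _

end CREP_

open CREP_ in
theorem crep_proof (h1 : Stmt_RhoB) (h2 : Stmt_LmA) : Stmt_CRep := by
  intro d r α l φ hφ
  have hmain : ∀ x, cnv (Lay d r α l) φ x = pl d r α l φ x := by
    intro x
    have h := cnv_eq h1 d r α l φ hφ x
    have h' := congrArg Complex.re h
    rw [Complex.ofReal_re] at h'
    rw [h']
    rfl
  refine ⟨hmain, fun n => ?_⟩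
  have hpl : ∀ x, ((pl d r α l φ x : ℝ) : ℂ) =
      ∑ n ∈ Box d (2 ^ (l + 1)), lm d r α l n * coef (fun x => (φ x : ℂ)) n * ch n x := by
    intro x
    rw [← hmain x, cnv_eq h1 d r α l φ hφ x]
  unfold coef
  simp_rw [hpl, Finset.mul_sum]
  rw [integral_finsetSum]
  · have h3 : ∀ m : Fin d → ℤ,
        ∫ x, ch (-n) x * (lm d r α l m * coef (fun x => (φ x : ℂ)) m * ch m x) ∂(mu d) =
          lm d r α l m * coef (fun x => (φ x : ℂ)) m * (if m = n then 1 else 0) := by
      intro m
      rw [← integral_ch n m, ← integral_const_mul]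
      refine integral_congr_ae (Filter.Eventually.of_forall fun x => ?_)
      show _ = _
      ring
    rw [Finset.sum_congr rfl fun m _ => h3 m]
    simp_rw [mul_ite, mul_one, mul_zero]
    rw [Finset.sum_ite_eq' (Box d (2 ^ (l + 1))) n]
    split_ifs with hn
    · rfl
    · have : lm d r α l n = 0 := by
        by_contra hne
        exact hn (h2.2 d r α l n hne)
      rw [this, zero_mul]
  · intro m _
    have hc : Continuous fun x : Tor d =>
        ch (-n) x * (lm d r α l m * coef (fun x => (φ x : ℂ)) m * ch m x) :=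
      (ch_continuous (-n)).mul (continuous_const.mul (ch_continuous m))
    refine Integrable.of_bound hc.aestronglyMeasurable
      ‖lm d r α l m * coef (fun x => (φ x : ℂ)) m‖ ?_
    refine Filter.Eventually.of_forall fun x => ?_
    rw [norm_mul, norm_mul, norm_ch, norm_ch, one_mul, mul_one]

end Pool.Agent.KW
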