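import Pool.Agent.KW.Stmts

set_option autoImplicit false

/-!
# KW, module DECO: the decomposition of a function of the class
-/

open MeasureTheory Filter
open scoped BigOperators ENNReal Topology

namespace Pool.Agent.KW

noncomputable section

namespace DECO_

lemma ch_norm {d : ℕ} (n : Fin d → ℤ) (x : Tor d) : ‖ch n x‖ = 1 := by
  unfold ch
  rw [norm_prod]
  exact Finset.prod_eq_one fun i _ => by rw [fourier_apply]; exact Circle.norm_coe _

lemma lp_int {d : ℕ} (f : Lp ℝ ⊤ (mu d)) : Integrable (fun x => (f x : ℂ)) (mu d) :=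
  ((Lp.memLp f).integrable le_top).ofReal

lemma ch_int {d : ℕ} (n : Fin d → ℤ) {g : Tor d → ℂ} (hg : Integrable g (mu d)) :
    Integrable (fun x => ch (-n) x * g x) (mu d) :=
  hg.bdd_mul (c := 1) (ch_continuous (-n)).aestronglyMeasurable
    (Filter.Eventually.of_forall fun x => (ch_norm (-n) x).le)

lemma ae_le_norm {d : ℕ} (h : Lp ℝ ⊤ (mu d)) : ∀ᵐ x ∂(mu d), ‖h x‖ ≤ ‖h‖ := by
  have h1 : eLpNorm h ⊤ (mu d) ≠ ⊤ := Lp.eLpNorm_ne_top h
  filter_upwards [ae_le_eLpNormEssSup (f := h) (μ := mu d)] with x hx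
  rw [← eLpNorm_exponent_top] at hx
  rw [Lp.norm_def]
  have h2 := ENNReal.toReal_mono h1 hx
  rwa [toReal_enorm] at h2

lemma coef_sub_le {d : ℕ} (f g : Lp ℝ ⊤ (mu d)) (n : Fin d → ℤ) :
    ‖coef (fun x => (f x : ℂ)) n - coef (fun x => (g x : ℂ)) n‖ ≤ ‖f - g‖ := by
  unfold coef
  rw [← integral_sub (ch_int n (lp_int f)) (ch_int n (lp_int g))]
  have hb : ∀ᵐ x ∂(mu d), ‖ch (-n) x * (f x : ℂ) - ch (-n) x * (g x : ℂ)‖ ≤ ‖f - g‖ := by
    filter_upwards [Lp.coeFn_sub f g, ae_le_norm (f - g)] with x h1 h2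
    rw [← mul_sub, norm_mul, ch_norm, one_mul, ← Complex.ofReal_sub, Complex.norm_real]
    rw [h1] at h2
    exact h2
  have h1 := norm_integral_le_of_norm_le_const hb
  rw [probReal_univ, mul_one] at h1
  exact h1

lemma cont_int {d : ℕ} (g : C(Tor d, ℝ)) : Integrable (fun x => ((g x : ℝ) : ℂ)) (mu d) := by
  have h1 : Continuous fun x => ((g x : ℝ) : ℂ) := Complex.continuous_ofReal.comp g.continuous
  exact h1.integrable_of_hasCompactSupport (HasCompactSupport.of_compactSpace _)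

lemma coef_toL {d : ℕ} (g : C(Tor d, ℝ)) (n : Fin d → ℤ) :
    coef (fun x => (toL g x : ℂ)) n = coef (fun x => ((g x : ℝ) : ℂ)) n := by
  unfold coef
  refine integral_congr_ae ?_
  have h1 : toL g =ᵐ[mu d] g := ContinuousMap.coeFn_toLp (mu d) g
  filter_upwards [h1] with x hx
  rw [hx]

lemma coef_sum {d : ℕ} (g : ℕ → C(Tor d, ℝ)) (N : ℕ) (n : Fin d → ℤ) :
    coef (fun x => ((∑ l ∈ Finset.range N, toL (g l) : Lp ℝ ⊤ (mu d)) x : ℂ)) n =
      ∑ l ∈ Finset.range N, coef (fun x => ((g l x : ℝ) : ℂ)) n := by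
  have h1 : (∑ l ∈ Finset.range N, toL (g l) : Lp ℝ ⊤ (mu d)) =
      toL (∑ l ∈ Finset.range N, g l) := by
    unfold toL
    rw [map_sum]
  rw [h1, coef_toL]
  unfold coef
  rw [← integral_finsetSum _ fun l _ => ch_int n (cont_int (g l))]
  refine integral_congr_ae (Filter.Eventually.of_forall fun x => ?_)
  simp only [ContinuousMap.coe_sum, Finset.sum_apply, Complex.ofReal_sum, Finset.mul_sum]

lemma exists_bound (k : ℕ) {ρ : ℝ} (h0 : 0 < ρ) (h1 : ρ < 1) :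
    ∃ B : ℝ, 0 < B ∧ ∀ l : ℕ, ((l : ℝ) + 1) ^ k * ρ ^ l ≤ B := by
  obtain ⟨B, hB⟩ := (tendsto_pow_const_mul_const_pow_of_lt_one k h0.le h1).bddAbove_range
  refine ⟨|B| / ρ + 1, by positivity, fun l => ?_⟩
  have h2 : ((l + 1 : ℕ) : ℝ) ^ k * ρ ^ (l + 1) ≤ B := hB ⟨l + 1, rfl⟩
  push_cast at h2
  have h3 : ((l : ℝ) + 1) ^ k * ρ ^ l * ρ ≤ |B| := by
    calc ((l : ℝ) + 1) ^ k * ρ ^ l * ρ = ((l : ℝ) + 1) ^ k * ρ ^ (l + 1) := by
          rw [pow_succ]; ring
      _ ≤ B := h2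
      _ ≤ |B| := le_abs_self B
  have h4 := (le_div_iff₀ h0).2 h3
  linarith

end DECO_

open DECO_ in
theorem deco_proof (hCnv : Stmt_Cnv) (hLay : Stmt_LayB) (hCRep : Stmt_CRep) (hLmA : Stmt_LmA)
    (hSup : Stmt_SupN) (hCard : Stmt_Card) : Stmt_Deco := by
  intro d q r α hd hq hr
  obtain ⟨CL, hCL, hL⟩ := hLay d r α
  have hq0 : 0 < q := lt_of_lt_of_le one_pos hq
  have hδ : 0 < (r - 1 / q) / 2 := by linarith
  obtain ⟨η, hη⟩ : ∃ η, η = (r - 1 / q) / 2 := ⟨_, rfl⟩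
  rw [← hη] at hδ
  obtain ⟨ρ, hρ⟩ : ∃ ρ : ℝ, ρ = (2 : ℝ) ^ (-η) := ⟨_, rfl⟩
  have hρ0 : 0 < ρ := by rw [hρ]; positivity
  have hρ1 : ρ < 1 := by
    rw [hρ]
    exact Real.rpow_lt_one_of_one_lt_of_neg one_lt_two (neg_neg_of_pos hδ)
  have hρl : ∀ l : ℕ, (2 : ℝ) ^ (-(η * l)) = ρ ^ l := by
    intro l
    rw [hρ, ← Real.rpow_natCast, ← Real.rpow_mul (by norm_num)]
    congr 1
    ring
  obtain ⟨B, hB, hBl⟩ := exists_bound (d - 1) hρ0 hρ1
  -- the norm of a layer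
  have hpl : ∀ φ : Tor d → ℝ, MemLp φ (ENNReal.ofReal q) (mu d) →
      eLpNorm φ (ENNReal.ofReal q) (mu d) ≤ 1 → ∀ l : ℕ,
      ‖toL (pl d r α l φ)‖ ≤ 2 * CL * B * ρ ^ l := by
    intro φ hφ hφ1 l
    have hint : Integrable φ (mu d) := hφ.integrable (by
      rw [← ENNReal.ofReal_one]
      exact ENNReal.ofReal_le_ofReal hq)
    have hnn : 0 ≤ 2 * CL * B * ρ ^ l := by positivity
    rw [hSup, ContinuousMap.norm_le _ hnn]
    intro x
    rw [← (hCRep d r α l φ hint).1 x]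
    obtain ⟨h1, h2, h3⟩ := hL l
    have ha0 : 0 ≤ CL * Ln d l * (2 : ℝ) ^ ((1 - r) * l) := by positivity
    have h4 := (hCnv d (Lay d r α l) φ _ _ h1 ha0 h2 h3).2 q ((2 : ℝ) ^ ((l : ℝ) / q)) hq
      (by positivity) hφ hφ1 x
    rw [Real.norm_eq_abs]
    refine h4.trans ?_
    have e1 : CL * Ln d l * (2 : ℝ) ^ (-(r * l)) * (2 : ℝ) ^ ((l : ℝ) / q) =
        CL * Ln d l * (ρ ^ l * ρ ^ l) := by
      rw [← hρl, mul_assoc, ← Real.rpow_add (by norm_num), ← Real.rpow_add (by norm_num)]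
      congr 2
      rw [hη]
      field_simp
      ring
    have e2 : CL * Ln d l * (2 : ℝ) ^ ((1 - r) * l) * ((2 : ℝ) ^ ((l : ℝ) / q)) ^ (1 - q) =
        CL * Ln d l * (ρ ^ l * ρ ^ l) := by
      rw [← hρl, mul_assoc, ← Real.rpow_mul (by norm_num), ← Real.rpow_add (by norm_num),
        ← Real.rpow_add (by norm_num)]
      congr 2
      rw [hη]
      field_simp
      ring
    rw [e1, e2]
    have h5 : (Ln d l : ℝ) ≤ ((l : ℝ) + 1) ^ (d - 1) := (hCard d l hd).2.1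
    have h6 : (Ln d l : ℝ) * ρ ^ l ≤ B :=
      (mul_le_mul_of_nonneg_right h5 (by positivity)).trans (hBl l)
    calc CL * Ln d l * (ρ ^ l * ρ ^ l) + CL * Ln d l * (ρ ^ l * ρ ^ l)
        = 2 * CL * ((Ln d l : ℝ) * ρ ^ l) * ρ ^ l := by ring
      _ ≤ 2 * CL * B * ρ ^ l := by gcongr
  refine ⟨2 * CL * B / (1 - ρ), η, ?_, hδ, fun φ hφ hφ1 => ?_⟩
  · have : 0 < 1 - ρ := by linarith
    positivity
  let F : ℕ → Lp ℝ ⊤ (mu d) := fun N => ∑ l ∈ Finset.range N, toL (pl d r α l φ)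
  have hdist : ∀ N, dist (F N) (F (N + 1)) ≤ 2 * CL * B * ρ ^ N := by
    intro N
    rw [dist_comm, dist_eq_norm]
    have h1 : F (N + 1) - F N = toL (pl d r α N φ) := by
      change ∑ l ∈ Finset.range (N + 1), toL (pl d r α l φ) -
        ∑ l ∈ Finset.range N, toL (pl d r α l φ) = _
      rw [Finset.sum_range_succ, add_sub_cancel_left]
    rw [h1]
    exact hpl φ hφ hφ1 N
  obtain ⟨f, hf⟩ := cauchySeq_tendsto_of_complete (cauchySeq_of_le_geometric ρ _ hρ1 hdist)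
  have hfN : ∀ N, ‖f - F N‖ ≤ 2 * CL * B / (1 - ρ) * ρ ^ N := by
    intro N
    have h1 := dist_le_of_le_geometric_of_tendsto ρ _ hρ1 hdist hf N
    rw [dist_comm, dist_eq_norm] at h1
    calc ‖f - F N‖ ≤ 2 * CL * B * ρ ^ N / (1 - ρ) := h1
      _ = 2 * CL * B / (1 - ρ) * ρ ^ N := by ring
  refine ⟨f, fun n => ?_, fun N => ?_⟩
  · have hint : Integrable φ (mu d) := hφ.integrable (by
      rw [← ENNReal.ofReal_one]
      exact ENNReal.ofReal_le_ofReal hq)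
    obtain ⟨t, ht⟩ : ∃ t : ℕ, ∀ i, |n i| ≤ 2 ^ t := by
      refine ⟨∑ i, (n i).natAbs, fun i => ?_⟩
      have h1 : (n i).natAbs ≤ ∑ i, (n i).natAbs :=
        Finset.single_le_sum (f := fun i => (n i).natAbs) (fun i _ => Nat.zero_le _)
          (Finset.mem_univ i)
      have h2 : (n i).natAbs < 2 ^ (∑ i, (n i).natAbs) := h1.trans_lt Nat.lt_two_pow_self
      rw [Int.abs_eq_natAbs]
      exact_mod_cast h2.le
    have hev : ∀ N, d * t + 1 ≤ N → coef (fun x => (F N x : ℂ)) n =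
        (∏ i, rho r α (n i)) * coef (fun x => (φ x : ℂ)) n := by
      intro N hN
      have h1 := coef_sum (fun l => pl d r α l φ) N n
      change coef (fun x => (F N x : ℂ)) n = _ at h1
      rw [h1]
      have h2 : ∀ l ∈ Finset.range N, coef (fun x => ((pl d r α l φ x : ℝ) : ℂ)) n =
          lm d r α l n * coef (fun x => (φ x : ℂ)) n := fun l _ => (hCRep d r α l φ hint).2 n
      rw [Finset.sum_congr rfl h2, ← Finset.sum_mul]
      congr 1
      have h3 := hLmA.1 d r α t n ht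
      rw [← h3.1]
      symm
      refine Finset.sum_subset (Finset.range_subset_range.2 hN) fun l _ hl => ?_
      rw [Finset.mem_range, not_lt] at hl
      exact h3.2 l (by omega)
    have hlim : Tendsto (fun N => ‖f - F N‖) atTop (𝓝 0) := by
      have h1 : Tendsto (fun N => f - F N) atTop (𝓝 (f - f)) := tendsto_const_nhds.sub hf
      rw [sub_self] at h1
      have h2 := h1.norm
      rwa [norm_zero] at h2
    have hle : ∀ᶠ N in atTop, ‖coef (fun x => (f x : ℂ)) n -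
        (∏ i, rho r α (n i)) * coef (fun x => (φ x : ℂ)) n‖ ≤ ‖f - F N‖ := by
      filter_upwards [eventually_ge_atTop (d * t + 1)] with N hN
      rw [← hev N hN]
      exact coef_sub_le f (F N) n
    have h0 := ge_of_tendsto hlim hle
    exact sub_eq_zero.1 (norm_le_zero_iff.1 h0)
  · rw [hρl]
    exact hfN N

end

end Pool.Agent.KW
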