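import Pool.Agent.KW.Stmts

set_option autoImplicit false

/-!
# KW, module DISC: the sup norm of a trigonometric polynomial is controlled by the grid
-/

open MeasureTheory
open scoped BigOperators ENNReal

namespace Pool.Agent.KW

noncomputable section

namespace DISC_

theorem fourier_addx (m : ℤ) (x y : UnitAddCircle) :
    (fourier m (x + y) : ℂ) = fourier m x * fourier m y := by
  rw [fourier_apply, fourier_apply, fourier_apply, smul_add, AddCircle.toCircle_add]
  simp

theorem fourier_negx (m : ℤ) (x : UnitAddCircle) :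
    (fourier m (-x) : ℂ) = fourier (-m) x := by
  rw [fourier_apply, fourier_apply, smul_neg, neg_smul]

theorem fourier_subx (m : ℤ) (x y : UnitAddCircle) :
    (fourier m (x - y) : ℂ) = fourier m x * fourier (-m) y := by
  rw [sub_eq_add_neg, fourier_addx, fourier_negx]

theorem gr_add (M : ℕ) [NeZero M] (y z : ZMod M) : gr M (y + z) = gr M y + gr M z := by
  unfold gr; exact map_add _ y z

theorem four_gr_one (M : ℕ) [NeZero M] (m : ℤ) (h0 : m ≠ 0) (hm : |m| < M) :
    (fourier m (gr M 1) : ℂ) ≠ 1 := by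
  intro h
  have hM : (M : ℂ) ≠ 0 := by exact_mod_cast NeZero.ne M
  have h1 : gr M 1 = (((1 : ℤ) / (M : ℝ) : ℝ) : UnitAddCircle) := by
    unfold gr
    have := ZMod.toAddCircle_intCast (N := M) 1
    simpa using this
  rw [h1, fourier_coe_apply] at h
  obtain ⟨k, hk⟩ := Complex.exp_eq_one_iff.mp h
  have hpi : (2 * (Real.pi : ℂ) * Complex.I) ≠ 0 := Complex.two_pi_I_ne_zero
  have h2 : (m : ℂ) = k * M := by
    have h3 : 2 * (Real.pi : ℂ) * Complex.I * (m / M) = 2 * (Real.pi : ℂ) * Complex.I * k := by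
      rw [mul_comm _ (k : ℂ), ← hk]
      push_cast
      field_simp
    have h4 := mul_left_cancel₀ hpi h3
    field_simp at h4
    rw [h4]; ring
  have h5 : m = k * M := by exact_mod_cast h2
  rcases eq_or_ne k 0 with hk0 | hk0
  · rw [hk0, zero_mul] at h5; exact h0 h5
  · have h6 : (1 : ℤ) ≤ |k| := Int.one_le_abs hk0
    rw [h5, abs_mul, Nat.abs_cast] at hm
    have h7 : (0 : ℤ) ≤ M := Int.natCast_nonneg M
    nlinarith

theorem sum_four (M : ℕ) [NeZero M] (m : ℤ) (hm : |m| < M) :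
    ∑ y : ZMod M, (fourier m (gr M y) : ℂ) = if m = 0 then (M : ℂ) else 0 := by
  split_ifs with h0
  · subst h0
    simp [ZMod.card]
  · have h1 : ∑ y : ZMod M, (fourier m (gr M (y + 1)) : ℂ) =
        ∑ y : ZMod M, (fourier m (gr M y) : ℂ) :=
      Equiv.sum_comp (Equiv.addRight (1 : ZMod M)) (fun y => (fourier m (gr M y) : ℂ))
    have h2 : ∑ y : ZMod M, (fourier m (gr M (y + 1)) : ℂ) =
        (∑ y : ZMod M, (fourier m (gr M y) : ℂ)) * fourier m (gr M 1) := by
      rw [Finset.sum_mul]; refine Finset.sum_congr rfl fun y _ => ?_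
      rw [gr_add, fourier_addx]
    have h3 := four_gr_one M m h0 hm
    have h4 : (∑ y : ZMod M, (fourier m (gr M y) : ℂ)) * (fourier m (gr M 1) - 1) = 0 := by
      rw [mul_sub, mul_one, ← h2, h1, sub_self]
    exact (mul_eq_zero.mp h4).resolve_right (sub_ne_zero.mpr h3)

/-- The discrete Parseval identity for a set of frequencies of diameter less than `M`. -/
theorem parseval (M : ℕ) [NeZero M] (S : Finset ℤ) (hS : ∀ i ∈ S, ∀ j ∈ S, |i - j| < M)
    (x : UnitAddCircle) :
    ∑ y : ZMod M, ‖∑ i ∈ S, (fourier i (x - gr M y) : ℂ)‖ ^ 2 = M * (S.card : ℝ) := by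
  have key : ∀ y : ZMod M, (((‖∑ i ∈ S, (fourier i (x - gr M y) : ℂ)‖ ^ 2 : ℝ)) : ℂ) =
      ∑ i ∈ S, ∑ j ∈ S, (fourier (i - j) x : ℂ) * fourier (j - i) (gr M y) := by
    intro y
    have h1 : (((‖∑ i ∈ S, (fourier i (x - gr M y) : ℂ)‖ ^ 2 : ℝ)) : ℂ) =
        (∑ i ∈ S, (fourier i (x - gr M y) : ℂ)) *
          (starRingEnd ℂ) (∑ i ∈ S, (fourier i (x - gr M y) : ℂ)) := by
      rw [Complex.mul_conj']; push_cast; rfl
    rw [h1, map_sum, Finset.sum_mul_sum]
    refine Finset.sum_congr rfl fun i _ => Finset.sum_congr rfl fun j _ => ?_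
    rw [← fourier_neg, ← fourier_add, fourier_subx]
    congr 2
    ring_nf
  have h2 : ((∑ y : ZMod M, ‖∑ i ∈ S, (fourier i (x - gr M y) : ℂ)‖ ^ 2 : ℝ) : ℂ) =
      ((M * (S.card : ℝ) : ℝ) : ℂ) := by
    rw [Complex.ofReal_sum, Finset.sum_congr rfl fun y _ => key y, Finset.sum_comm]
    have h3 : ∀ i ∈ S, ∑ y : ZMod M, ∑ j ∈ S, (fourier (i - j) x : ℂ) *
        fourier (j - i) (gr M y) = M := by
      intro i hi
      rw [Finset.sum_comm, Finset.sum_eq_single i]
      · rw [← Finset.mul_sum, sum_four M _ (by simpa using Nat.pos_of_ne_zero (NeZero.ne M))]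
        simp
      · intro j hj hji
        rw [← Finset.mul_sum, sum_four M _ (hS j hj i hi), if_neg (sub_ne_zero.mpr hji),
          mul_zero]
      · intro h; exact absurd hi h
    rw [Finset.sum_congr rfl h3, Finset.sum_const, nsmul_eq_mul]
    push_cast
    ring
  exact_mod_cast h2

/-- The kernel `D⁻¹ (∑_{-D ≤ i < 2D} e_i) (∑_{0 ≤ j < D} e_{-j})`. -/
def V (D : ℕ) (x : UnitAddCircle) : ℂ :=
  (D : ℂ)⁻¹ * ((∑ i ∈ Finset.Ico (-(D : ℤ)) (2 * D), (fourier i x : ℂ)) *
    (starRingEnd ℂ) (∑ j ∈ Finset.Ico (0 : ℤ) D, (fourier j x : ℂ)))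

theorem V_repro (D M : ℕ) [NeZero M] (hD : 1 ≤ D) (hM : 4 * D ≤ M) (k : ℤ) (hk : |k| ≤ D)
    (x : UnitAddCircle) :
    ∑ y : ZMod M, (fourier k (gr M y) : ℂ) * V D (x - gr M y) = M * fourier k x := by
  have hD' : (D : ℂ) ≠ 0 := by exact_mod_cast (by omega : D ≠ 0)
  have habs := abs_le.mp hk
  have key : ∀ y : ZMod M, (fourier k (gr M y) : ℂ) * V D (x - gr M y) =
      (D : ℂ)⁻¹ * ∑ j ∈ Finset.Ico (0 : ℤ) D, ∑ i ∈ Finset.Ico (-(D : ℤ)) (2 * D),
        (fourier (i - j) x : ℂ) * fourier (k - (i - j)) (gr M y) := by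
    intro y
    unfold V
    rw [map_sum, Finset.sum_mul_sum, Finset.sum_comm, mul_left_comm, Finset.mul_sum]
    congr 1
    refine Finset.sum_congr rfl fun j _ => ?_
    rw [Finset.mul_sum]
    refine Finset.sum_congr rfl fun i _ => ?_
    rw [← fourier_neg, ← fourier_add, ← sub_eq_add_neg, fourier_subx, sub_eq_add_neg k,
      fourier_add]
    ring
  rw [Finset.sum_congr rfl fun y _ => key y, ← Finset.mul_sum, Finset.sum_comm]
  have h3 : ∀ j ∈ Finset.Ico (0 : ℤ) D, ∑ y : ZMod M, ∑ i ∈ Finset.Ico (-(D : ℤ)) (2 * D),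
        (fourier (i - j) x : ℂ) * fourier (k - (i - j)) (gr M y) = M * fourier k x := by
    intro j hj
    rw [Finset.mem_Ico] at hj
    rw [Finset.sum_comm, Finset.sum_eq_single (k + j)]
    · rw [← Finset.mul_sum]
      have h4 : k - (k + j - j) = 0 := by ring
      have h5 : k + j - j = k := by ring
      rw [h4, h5, sum_four M _ (by simpa using Nat.pos_of_ne_zero (NeZero.ne M)), if_pos rfl,
        mul_comm]
    · intro i hi hik
      rw [Finset.mem_Ico] at hi
      rw [← Finset.mul_sum, sum_four M, if_neg (by omega), mul_zero]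
      rw [abs_lt]
      constructor <;> omega
    · intro h
      exact absurd (Finset.mem_Ico.mpr ⟨by omega, by omega⟩) h
  rw [Finset.sum_congr rfl h3, Finset.sum_const, Int.card_Ico, nsmul_eq_mul]
  have h6 : (((D : ℤ) - 0).toNat : ℂ) = D := by simp
  rw [h6]
  field_simp

theorem V_L1 (D M : ℕ) [NeZero M] (hD : 1 ≤ D) (hM : 4 * D ≤ M) (x : UnitAddCircle) :
    ∑ y : ZMod M, ‖V D (x - gr M y)‖ ≤ 2 * M := by
  have hD' : (0 : ℝ) < D := by exact_mod_cast (by omega : 0 < D)
  set A : ZMod M → ℝ := fun y =>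
    ‖∑ i ∈ Finset.Ico (-(D : ℤ)) (2 * D), (fourier i (x - gr M y) : ℂ)‖ with hA
  set B : ZMod M → ℝ := fun y =>
    ‖∑ j ∈ Finset.Ico (0 : ℤ) D, (fourier j (x - gr M y) : ℂ)‖ with hB
  have h1 : ∀ y : ZMod M, ‖V D (x - gr M y)‖ ≤ (D : ℝ)⁻¹ * ((A y ^ 2 + B y ^ 2) / 2) := by
    intro y
    have h2 : ‖V D (x - gr M y)‖ = (D : ℝ)⁻¹ * (A y * B y) := by
      unfold V
      rw [norm_mul, norm_mul, norm_inv, Complex.norm_natCast, Complex.norm_conj]
    rw [h2]
    refine mul_le_mul_of_nonneg_left ?_ (by positivity)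
    nlinarith [sq_nonneg (A y - B y)]
  have hAs : ∑ y : ZMod M, A y ^ 2 = M * (3 * D : ℝ) := by
    have := parseval M (Finset.Ico (-(D : ℤ)) (2 * D)) (by
      intro i hi j hj
      rw [Finset.mem_Ico] at hi hj
      rw [abs_lt]; constructor <;> omega) x
    rw [hA]
    simp only at this ⊢
    rw [this, Int.card_Ico]
    have : ((2 * (D : ℤ) - -(D : ℤ)).toNat : ℝ) = 3 * D := by
      have h : (2 * (D : ℤ) - -(D : ℤ)).toNat = 3 * D := by omega
      rw [h]; push_cast; ring
    rw [this]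
  have hBs : ∑ y : ZMod M, B y ^ 2 = M * (D : ℝ) := by
    have := parseval M (Finset.Ico (0 : ℤ) D) (by
      intro i hi j hj
      rw [Finset.mem_Ico] at hi hj
      rw [abs_lt]; constructor <;> omega) x
    rw [hB]
    simp only at this ⊢
    rw [this, Int.card_Ico]
    simp
  calc ∑ y : ZMod M, ‖V D (x - gr M y)‖
      ≤ ∑ y : ZMod M, (D : ℝ)⁻¹ * ((A y ^ 2 + B y ^ 2) / 2) := Finset.sum_le_sum fun y _ => h1 y
    _ = (D : ℝ)⁻¹ * ((∑ y : ZMod M, A y ^ 2 + ∑ y : ZMod M, B y ^ 2) / 2) := by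
        rw [← Finset.mul_sum, ← Finset.sum_div, Finset.sum_add_distrib]
    _ = 2 * M := by
        rw [hAs, hBs]
        field_simp
        ring

theorem repro (d D M : ℕ) [NeZero M] (hD : 1 ≤ D) (hM : 4 * D ≤ M) (f : Tor d → ℂ)
    (hf : f ∈ Trig d D) (x : Tor d) :
    ∑ y : Fin d → ZMod M, f (grd M y) * ∏ i, V D (x i - gr M (y i)) = (M : ℂ) ^ d * f x := by
  unfold Trig at hf
  induction hf using Submodule.span_induction with
  | mem f hf =>
    obtain ⟨n, hn, rfl⟩ := hf
    have h1 : ∀ y : Fin d → ZMod M, ch n (grd M y) * ∏ i, V D (x i - gr M (y i)) =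
        ∏ i, ((fourier (n i) (gr M (y i)) : ℂ) * V D (x i - gr M (y i))) := by
      intro y
      unfold ch grd
      rw [Finset.prod_mul_distrib]
    rw [Finset.sum_congr rfl fun y _ => h1 y]
    have h2 := Finset.prod_univ_sum (fun _ : Fin d => (Finset.univ : Finset (ZMod M)))
      (fun i y => (fourier (n i) (gr M y) : ℂ) * V D (x i - gr M y))
    rw [Fintype.piFinset_univ] at h2
    rw [← h2]
    rw [Finset.prod_congr rfl fun i _ => V_repro D M hD hM (n i) (hn i) (x i)]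
    rw [Finset.prod_mul_distrib, Finset.prod_const, Finset.card_univ, Fintype.card_fin]
    rfl
  | zero => simp
  | add f g _ _ h1 h2 =>
    simp only [Pi.add_apply, add_mul, mul_add, Finset.sum_add_distrib]
    rw [h1, h2]
  | smul a f _ h1 =>
    simp only [Pi.smul_apply, smul_eq_mul]
    have h2 : ∀ y : Fin d → ZMod M, a * f (grd M y) * ∏ i, V D (x i - gr M (y i)) =
        a * (f (grd M y) * ∏ i, V D (x i - gr M (y i))) := fun y => by ring
    rw [Finset.sum_congr rfl fun y _ => h2 y, ← Finset.mul_sum, h1]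
    ring

end DISC_

open DISC_ in
theorem disc_proof : Stmt_Disc := by
  intro d D M _ hD hM f hf B hB x
  have hMpos : (0 : ℝ) < M := by exact_mod_cast Nat.pos_of_ne_zero (NeZero.ne M)
  have hB0 : 0 ≤ B := le_trans (norm_nonneg _) (hB fun _ => 0)
  have h1 : ‖(M : ℂ) ^ d * f x‖ ≤ B * (2 * M) ^ d := by
    rw [← repro d D M hD hM f hf x]
    calc ‖∑ y : Fin d → ZMod M, f (grd M y) * ∏ i, V D (x i - gr M (y i))‖
        ≤ ∑ y : Fin d → ZMod M, ‖f (grd M y) * ∏ i, V D (x i - gr M (y i))‖ :=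
          norm_sum_le _ _
      _ ≤ ∑ y : Fin d → ZMod M, B * ∏ i, ‖V D (x i - gr M (y i))‖ := by
          refine Finset.sum_le_sum fun y _ => ?_
          rw [norm_mul, norm_prod]
          exact mul_le_mul_of_nonneg_right (hB y)
            (Finset.prod_nonneg fun i _ => norm_nonneg _)
      _ = B * ∏ i : Fin d, ∑ y : ZMod M, ‖V D (x i - gr M y)‖ := by
          rw [← Finset.mul_sum]
          have h2 := Finset.prod_univ_sum (fun _ : Fin d => (Finset.univ : Finset (ZMod M)))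
            (fun i y => ‖V D (x i - gr M y)‖)
          rw [Fintype.piFinset_univ] at h2
          rw [h2]
      _ ≤ B * ∏ _i : Fin d, (2 * (M : ℝ)) := by
          refine mul_le_mul_of_nonneg_left ?_ hB0
          exact Finset.prod_le_prod (fun i _ => Finset.sum_nonneg fun y _ => norm_nonneg _)
            fun i _ => V_L1 D M hD hM (x i)
      _ = B * (2 * M) ^ d := by
          rw [Finset.prod_const, Finset.card_univ, Fintype.card_fin]
  rw [norm_mul, norm_pow, Complex.norm_natCast, mul_pow] at h1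
  have h3 : ‖f x‖ ≤ B * 2 ^ d := by
    have h4 : (0 : ℝ) < (M : ℝ) ^ d := by positivity
    have h5 : (M : ℝ) ^ d * ‖f x‖ ≤ (M : ℝ) ^ d * (B * 2 ^ d) := by
      calc (M : ℝ) ^ d * ‖f x‖ ≤ B * (2 ^ d * (M : ℝ) ^ d) := h1
        _ = (M : ℝ) ^ d * (B * 2 ^ d) := by ring
    exact le_of_mul_le_mul_left h5 h4
  calc ‖f x‖ ≤ B * 2 ^ d := h3
    _ ≤ B * 3 ^ d := by
        refine mul_le_mul_of_nonneg_left ?_ hB0
        exact pow_le_pow_left₀ (by norm_num) (by norm_num) d
    _ = 3 ^ d * B := mul_comm _ _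

end

end Pool.Agent.KW
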