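import Pool.Agent.KW.Stmts

/-!
# KW module DUAL: from Gelfand widths to Kolmogorov widths
-/

set_option autoImplicit false

open scoped BigOperators

namespace Pool.Agent.KW

namespace DUAL_

/-- A linear functional on `X → ℝ` in coordinates. -/
theorem lin_coord {X : Type} [Fintype X] [DecidableEq X] (f : (X → ℝ) →ₗ[ℝ] ℝ) (y : X → ℝ) :
    f y = ∑ x, f (Pi.single x 1) * y x := by
  conv_lhs => rw [← Finset.univ_sum_single y]
  rw [map_sum]
  refine Finset.sum_congr rfl fun x _ => ?_
  have : (Pi.single x (y x) : X → ℝ) = y x • Pi.single x 1 := by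
    rw [← Pi.single_smul, smul_eq_mul, mul_one]
  rw [this, map_smul, smul_eq_mul, mul_comm]

theorem mem_of_orth {ι : Type} [Fintype ι] (V : Submodule ℝ (ι → ℝ)) (w : ι → ℝ)
    (h : ∀ b : ι → ℝ, (∀ z ∈ V, ∑ i, b i * z i = 0) → ∑ i, b i * w i = 0) : w ∈ V := by
  classical
  by_contra hw
  obtain ⟨f, hf, hV⟩ := Submodule.exists_le_ker_of_notMem hw
  refine hf ?_
  rw [lin_coord f w]
  refine h _ fun z hz => ?_
  rw [← lin_coord f z]
  exact hV hz

end DUAL_

open DUAL_ in
theorem dual_proof : Stmt_Dual := by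
  classical
  intro X ι _ _ v V ε hε hV a ha
  -- the linear map `b ↦ (⟨b, v x⟩)_x`
  set L : (ι → ℝ) →ₗ[ℝ] (X → ℝ) :=
    { toFun := fun b x => ∑ i, b i * v x i
      map_add' := by
        intro b b'; funext x
        simp only [Pi.add_apply, add_mul, Finset.sum_add_distrib]
      map_smul' := by
        intro r b; funext x
        simp only [Pi.smul_apply, smul_eq_mul, RingHom.id_apply, Finset.mul_sum, mul_assoc] }
    with hL
  have hLa : ∀ (b : ι → ℝ) (x : X), L b x = ∑ i, b i * v x i := fun b x => rfl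
  set O : Submodule ℝ (ι → ℝ) :=
    { carrier := {b | ∀ w ∈ V, ∑ i, b i * w i = 0}
      add_mem' := by
        intro b b' hb hb' w hw
        simp only [Pi.add_apply, add_mul, Finset.sum_add_distrib, hb w hw, hb' w hw, add_zero]
      zero_mem' := by intro w _; simp
      smul_mem' := by
        intro r b hb w hw
        have : ∑ i, (r • b) i * w i = r * ∑ i, b i * w i := by
          rw [Finset.mul_sum]; refine Finset.sum_congr rfl fun i _ => ?_
          simp only [Pi.smul_apply, smul_eq_mul, mul_assoc]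
        rw [this, hb w hw, mul_zero] } with hO
  set Y : Submodule ℝ (X → ℝ) := O.map L with hY
  by_cases hdis : Disjoint (Metric.closedBall (L a) ε) (Y : Set (X → ℝ))
  · exfalso
    obtain ⟨f, s, t, h1, hst, h2⟩ := geometric_hahn_banach_compact_closed
      (convex_closedBall (L a) ε) (isCompact_closedBall (L a) ε) Y.convex
      Y.closed_of_finiteDimensional hdis
    have ht : t < 0 := by
      have := h2 0 Y.zero_mem
      rwa [map_zero] at this
    have hfY : ∀ y ∈ Y, f y = 0 := by
      intro y hy
      by_contra hne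
      have hr := h2 (((t - 1) / f y) • y) (Y.smul_mem _ hy)
      rw [map_smul, smul_eq_mul, div_mul_cancel₀ _ hne] at hr
      linarith
    set c : X → ℝ := fun x => -f (Pi.single x 1) with hc
    have hfc : ∀ y : X → ℝ, f y = -∑ x, c x * y x := by
      intro y
      rw [← Finset.sum_neg_distrib]
      have := lin_coord (f : (X → ℝ) →ₗ[ℝ] ℝ) y
      rw [ContinuousLinearMap.coe_coe] at this
      rw [this]
      refine Finset.sum_congr rfl fun x _ => ?_
      simp only [hc]
      ring
    -- the crucial inequality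
    have hbig : ε * ∑ x, |c x| < ∑ x, c x * L a x := by
      have hz : (fun x => L a x - ε * (SignType.sign (c x) : ℝ)) ∈ Metric.closedBall (L a) ε := by
        rw [Metric.mem_closedBall, dist_pi_le_iff hε]
        intro x
        rw [Real.dist_eq]
        have : L a x - ε * (SignType.sign (c x) : ℝ) - L a x = -(ε * (SignType.sign (c x) : ℝ)) := by
          ring
        rw [this, abs_neg, abs_mul, abs_of_nonneg hε]
        have hs : |(SignType.sign (c x) : ℝ)| ≤ 1 := by
          rcases SignType.trichotomy (SignType.sign (c x)) with h | h | h <;> rw [h] <;> norm_num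
        calc ε * |(SignType.sign (c x) : ℝ)| ≤ ε * 1 := mul_le_mul_of_nonneg_left hs hε
          _ = ε := mul_one _
      have h3 := h1 _ hz
      rw [hfc] at h3
      have h4 : ∑ x, c x * (L a x - ε * (SignType.sign (c x) : ℝ)) =
          ∑ x, c x * L a x - ε * ∑ x, |c x| := by
        rw [Finset.mul_sum, ← Finset.sum_sub_distrib]
        refine Finset.sum_congr rfl fun x _ => ?_
        have : c x * (SignType.sign (c x) : ℝ) = |c x| := by
          rw [mul_comm]; exact sign_mul_self (c x)
        rw [← this]; ring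
      rw [h4] at h3
      linarith
    have hL2 : ∀ b : ι → ℝ, ∑ x, c x * L b x = ∑ i, b i * ∑ x, c x * v x i := by
      intro b
      simp only [hLa, Finset.mul_sum]
      rw [Finset.sum_comm]
      refine Finset.sum_congr rfl fun i _ => Finset.sum_congr rfl fun x _ => ?_
      ring
    set w : ι → ℝ := fun i => ∑ x, c x * v x i with hw
    have hwV : w ∈ V := by
      refine mem_of_orth V w fun b hb => ?_
      have h3 := hfY (L b) (Submodule.mem_map_of_mem (show b ∈ O from hb))
      rw [hfc, hL2 b] at h3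
      have : ∑ i, b i * w i = ∑ i, b i * ∑ x, c x * v x i := rfl
      rw [this]
      linarith
    set A : ℝ := ∑ x, |c x| with hA
    have hA0 : 0 ≤ A := Finset.sum_nonneg fun x _ => abs_nonneg _
    have hApos : 0 < A := by
      rcases hA0.lt_or_eq with h | h
      · exact h
      · exfalso
        have hc0 : ∀ x, c x = 0 := by
          intro x
          have := (Finset.sum_eq_zero_iff_of_nonneg (fun x _ => abs_nonneg (c x))).1 h.symm x
            (Finset.mem_univ x)
          exact abs_eq_zero.1 this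
        rw [← h] at hbig
        simp only [hc0, zero_mul, Finset.sum_const_zero, mul_zero, lt_irrefl] at hbig
    -- apply the hypothesis to the normalised functional
    have h5 : ∑ i, (∑ x, (A⁻¹ * c x) * v x i) ^ 2 ≤ ε ^ 2 := by
      refine hV (fun x => A⁻¹ * c x) ?_ ?_
      · have : ∑ x, |A⁻¹ * c x| = A⁻¹ * A := by
          rw [hA, Finset.mul_sum]
          refine Finset.sum_congr rfl fun x _ => ?_
          rw [abs_mul, abs_of_pos (inv_pos.2 hApos)]
        rw [this, inv_mul_cancel₀ hApos.ne']
      · have : (fun i => ∑ x, (A⁻¹ * c x) * v x i) = A⁻¹ • w := by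
          funext i
          simp only [hw, Pi.smul_apply, smul_eq_mul, Finset.mul_sum, mul_assoc]
        rw [this]
        exact V.smul_mem _ hwV
    have h6 : ∑ i, w i ^ 2 ≤ (ε * A) ^ 2 := by
      have e1 : ∀ i, ∑ x, (A⁻¹ * c x) * v x i = A⁻¹ * w i := by
        intro i
        simp only [hw, Finset.mul_sum, mul_assoc]
      simp only [e1, mul_pow] at h5
      rw [← Finset.mul_sum] at h5
      have h7 : ∑ i, w i ^ 2 = A ^ 2 * (A⁻¹ ^ 2 * ∑ i, w i ^ 2) := by
        rw [← mul_assoc, ← mul_pow, mul_inv_cancel₀ hApos.ne', one_pow, one_mul]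
      rw [h7, mul_pow]
      calc A ^ 2 * (A⁻¹ ^ 2 * ∑ i, w i ^ 2) ≤ A ^ 2 * ε ^ 2 :=
            mul_le_mul_of_nonneg_left h5 (sq_nonneg A)
        _ = ε ^ 2 * A ^ 2 := mul_comm _ _
    have h8 : (∑ i, a i * w i) ^ 2 ≤ (ε * A) ^ 2 := by
      calc (∑ i, a i * w i) ^ 2 ≤ (∑ i, a i ^ 2) * ∑ i, w i ^ 2 :=
            Finset.sum_mul_sq_le_sq_mul_sq _ _ _
        _ ≤ 1 * (ε * A) ^ 2 := mul_le_mul ha h6 (Finset.sum_nonneg fun i _ => sq_nonneg _)
            zero_le_one
        _ = (ε * A) ^ 2 := one_mul _
    have h9 : ∑ i, a i * w i ≤ ε * A := by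
      exact (abs_le_of_sq_le_sq' h8 (mul_nonneg hε hA0)).2
    rw [hL2 a] at hbig
    exact absurd hbig (not_lt.2 h9)
  · rw [Set.not_disjoint_iff] at hdis
    obtain ⟨y, hy1, hy2⟩ := hdis
    obtain ⟨b, hb, rfl⟩ := Submodule.mem_map.1 (show y ∈ Y from hy2)
    refine ⟨b, hb, fun x => ?_⟩
    have h3 : dist (L b) (L a) ≤ ε := Metric.mem_closedBall.1 hy1
    have h4 := (dist_pi_le_iff hε).1 h3 x
    rw [Real.dist_eq, abs_sub_comm] at h4
    have h5 : ∑ i, (a i - b i) * v x i = L a x - L b x := by
      simp only [hLa, sub_mul, Finset.sum_sub_distrib]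
    rw [h5]
    exact h4

end Pool.Agent.KW
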