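import Mathlib

set_option autoImplicit false

/-!
# KW: Kolmogorov widths of mixed-smoothness classes in the uniform norm (problem MP_4140a0_an)

Definitions.  The torus is `(ℝ/ℤ)^d` (the variable of the problem is `2π` times ours).
-/

open MeasureTheory
open scoped BigOperators ENNReal

namespace Pool.Agent.KW

noncomputable section

/-! ## The objects of the problem -/

/-- The `d`-dimensional torus. -/
abbrev Tor (d : ℕ) := Fin d → UnitAddCircle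

/-- The normalised Haar measure on the torus. -/
def mu (d : ℕ) : Measure (Tor d) := Measure.pi fun _ => AddCircle.haarAddCircle

instance (d : ℕ) : IsProbabilityMeasure (mu d) := by unfold mu; infer_instance

/-- The character `x ↦ exp (2πi ⟨n, x⟩)`. -/
def ch {d : ℕ} (n : Fin d → ℤ) (x : Tor d) : ℂ := ∏ i, fourier (n i) (x i)

/-- The Fourier coefficient of a function on the torus. -/
def coef {d : ℕ} (f : Tor d → ℂ) (n : Fin d → ℤ) : ℂ := ∫ x, ch (-n) x * f x ∂(mu d)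

/-- The Fourier coefficients of the kernel `F_r(x, α) = 1 + 2 ∑ k^{-r} cos (k x - α π / 2)`. -/
def rho (r α : ℝ) (k : ℤ) : ℂ :=
  if k = 0 then 1
  else ((|(k : ℝ)| ^ (-r) : ℝ) : ℂ) *
    Complex.exp (-(((SignType.sign k : ℤ) : ℂ) * (α : ℂ) * (Real.pi : ℂ) / 2 * Complex.I))

/-- The class `W^r_{q,α}` of the functions `f = φ * F_r(·, α)`, `‖φ‖_q ≤ 1`, as a subset of
`L_∞`; the convolution is expressed by the Fourier coefficients. -/
def W (d : ℕ) (q : ℝ≥0∞) (r α : ℝ) : Set (Lp ℝ ⊤ (mu d)) :=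
  {f | ∃ φ : Tor d → ℝ, MemLp φ q (mu d) ∧ eLpNorm φ q (mu d) ≤ 1 ∧
    ∀ n : Fin d → ℤ, coef (fun x => (f x : ℂ)) n =
      (∏ i, rho r α (n i)) * coef (fun x => (φ x : ℂ)) n}

/-- The Kolmogorov width: infimum over all linear subspaces of dimension at most `m`. -/
def kol (𝕜 : Type) [RCLike 𝕜] {X : Type} [NormedAddCommGroup X] [NormedSpace 𝕜 X] (F : Set X)
    (m : ℕ) : ℝ≥0∞ :=
  ⨅ U : {U : Submodule 𝕜 X // FiniteDimensional 𝕜 U ∧ Module.finrank 𝕜 U ≤ m},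
    ⨆ f ∈ F, Metric.infEDist f (U.1 : Set X)

/-- The kernel `F_r(2 π t, α) = 1 + 2 ∑_{k ≥ 1} k^{-r} cos (2 π k t - α π / 2)`, `t ∈ [0, 1)` the
representative of `x`. -/
def Fr (r α : ℝ) (x : UnitAddCircle) : ℝ :=
  Filter.limUnder Filter.atTop fun K : ℕ => 1 + 2 * ∑ k ∈ Finset.Icc 1 K, (k : ℝ) ^ (-r) *
    Real.cos ((k : ℝ) * (2 * Real.pi * (AddCircle.equivIco 1 0 x : ℝ)) - α * Real.pi / 2)

/-- The class `W^r_{q,α}` of the problem (real functions): `f = φ * F_r(·, α)`, `‖φ‖_q ≤ 1`. -/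
def WR (d : ℕ) (q : ℝ≥0∞) (r α : ℝ) : Set (Lp ℝ ⊤ (mu d)) :=
  {f | ∃ φ : Tor d → ℝ, MemLp φ q (mu d) ∧ eLpNorm φ q (mu d) ≤ 1 ∧
    ∀ᵐ x ∂(mu d), f x = ∫ y, φ y * ∏ i, Fr r α (x i - y i) ∂(mu d)}

/-- The class `W^r_{q,α}` of the problem (complex functions). -/
def WC (d : ℕ) (q : ℝ≥0∞) (r α : ℝ) : Set (Lp ℂ ⊤ (mu d)) :=
  {f | ∃ φ : Tor d → ℂ, MemLp φ q (mu d) ∧ eLpNorm φ q (mu d) ≤ 1 ∧
    ∀ᵐ x ∂(mu d), f x = ∫ y, φ y * ((∏ i, Fr r α (x i - y i) : ℝ) : ℂ) ∂(mu d)}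

/-! ## Orders -/

/-- `2 ^ {Jn d n} ≤ n ^ {2 d - 3}`. -/
def Jn (d n : ℕ) : ℕ := (2 * d - 3) * Nat.log 2 n

/-- `S² = ∑_{j ≤ J} 2 ^ {(1 - 2 r) j}`. -/
def Ssq (r : ℝ) (J : ℕ) : ℝ := ∑ j ∈ Finset.range (J + 1), (2 : ℝ) ^ ((1 - 2 * r) * (j : ℝ))

/-- The order of the width at `m ≈ 2 ^ n n ^ {d-1}`. -/
def Th (d : ℕ) (r : ℝ) (n : ℕ) : ℝ :=
  (2 : ℝ) ^ (-(r * (n : ℝ))) * Real.sqrt n * Real.sqrt (Ssq r (Jn d n))

/-- The order of the widths in terms of `m`. -/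
def psi (d : ℕ) (r : ℝ) (m : ℕ) : ℝ :=
  if 1 / 2 < r then (m : ℝ) ^ (-r) * (Real.log m) ^ (((d : ℝ) - 1) * r + 1 / 2)
  else if r = 1 / 2 then
    (m : ℝ) ^ (-r) * (Real.log m) ^ ((d : ℝ) / 2) * Real.sqrt (Real.log (3 + Real.log m))
  else (m : ℝ) ^ (-r) * (Real.log m) ^ (((d : ℝ) - 1) * (1 - r) + r)

/-! ## Shapes -/

/-- The shapes of the layer `l`: `s ∈ ℕ^d` with `|s| = l`. -/
def Sh (d l : ℕ) : Finset (Fin d → ℕ) := Finset.univ.piAntidiag l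

/-- The number of shapes of the layer `l`. -/
def Ln (d l : ℕ) : ℕ := (Sh d l).card

/-! ## The kernels of the lower bound -/

/-- The tent function with support `(2, 4)`. -/
def tent (t : ℝ) : ℝ := max 0 (1 - |t - 3|)

/-- The coefficients of the one-dimensional kernels, `2^{-s} tent (k/2^s) (k/2^s)^ρ`. -/
def kc (ρ : ℝ) (s : ℕ) (k : ℤ) : ℝ :=
  ((2 : ℝ) ^ s)⁻¹ * tent ((k : ℝ) / 2 ^ s) * ((k : ℝ) / 2 ^ s) ^ ρ

/-- The one-dimensional kernels `∑ kc ρ s k cos (2π k x + θ)`. -/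
def ker (ρ θ : ℝ) (s : ℕ) (x : UnitAddCircle) : ℝ :=
  (∑ k ∈ Finset.Ioo ((2 : ℤ) ^ (s + 1)) (2 ^ (s + 2)),
    ((kc ρ s k : ℝ) : ℂ) * Complex.exp (θ * Complex.I) * fourier k x).re

/-- The point `y / M` of the circle. -/
def gr (M : ℕ) [NeZero M] (y : ZMod M) : UnitAddCircle := ZMod.toAddCircle y

/-- The grid of the torus. -/
def grd {d : ℕ} (M : ℕ) [NeZero M] (y : Fin d → ZMod M) : Tor d := fun i => gr M (y i)

/-- The kernel with weights `b l` on the layers `l ≤ h`. -/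
def kap (d : ℕ) (b : ℕ → ℝ) (h : ℕ) (ρ θ : ℝ) (x : Tor d) : ℝ :=
  ∑ l ∈ Finset.range (h + 1), b l * ∑ s ∈ Sh d l, ∏ i, ker ρ θ (s i) (x i)

/-- The weights of the layers in the lower bound. -/
def wt (d : ℕ) (r A : ℝ) (n J : ℕ) (l : ℕ) : ℝ :=
  if n ≤ l ∧ l ≤ n + J then
    A * Real.sqrt n / (Ln d n * Real.sqrt (Ssq r J)) * (2 : ℝ) ^ (-(r * n)) *
      (2 : ℝ) ^ ((1 - 2 * r) * ((l : ℝ) - n))
  else 0

/-- The sum over the layer `l` of tensor products. -/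
def Gs {d M : ℕ} (g : ℕ → ZMod M → ℝ) (l : ℕ) (x : Fin d → ZMod M) : ℝ :=
  ∑ s ∈ Sh d l, ∏ i, g (s i) (x i)

/-! ## Random sums on finite groups -/

/-- The sign of a boolean. -/
def sgn (b : Bool) : ℝ := if b then 1 else -1

/-- The random sum `∑ ε_i κ (x - x_i)`. -/
def RS {Ω : Type*} [AddCommGroup Ω] {N : ℕ} (κ : Ω → ℝ) (ω : Fin N → Ω × Bool) (x : Ω) : ℝ :=
  ∑ i, sgn (ω i).2 * κ (x - (ω i).1)

/-- The average of a real function on a finite type. -/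
def avg {ι : Type*} [Fintype ι] (F : ι → ℝ) : ℝ := (∑ i, F i) / (Fintype.card ι : ℝ)

/-- The trigonometric polynomial `∑ ε_i κ (x - x_i)` with `x_i` in the grid. -/
def TS {d M N : ℕ} [NeZero M] (κ : Tor d → ℝ) (ω : Fin N → (Fin d → ZMod M) × Bool)
    (x : Tor d) : ℝ :=
  ∑ i, sgn (ω i).2 * κ (x - grd M (ω i).1)

/-! ## Trigonometric polynomials -/

/-- Complex trigonometric polynomials of degree at most `D` in each variable. -/
def Trig (d D : ℕ) : Submodule ℂ (Tor d → ℂ) :=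
  Submodule.span ℂ {f | ∃ n : Fin d → ℤ, (∀ i, |n i| ≤ D) ∧ f = ch n}

/-- A real function is a trigonometric polynomial of degree at most `D`. -/
def RTrig {d : ℕ} (D : ℕ) (f : Tor d → ℝ) : Prop := (fun x => (f x : ℂ)) ∈ Trig d D

/-! ## The blocks of the upper bound -/

/-- The window with support `(1/2, 2)`. -/
def win (t : ℝ) : ℝ := max 0 (min (2 * t - 1) (2 - t))

/-- The partition of unity on `ℤ`. -/
def bet (s : ℕ) (k : ℤ) : ℝ :=
  if s = 0 then (if |k| ≤ 1 then 1 else 0) else win (|(k : ℝ)| / 2 ^ s)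

/-- The one-dimensional blocks of the kernel `F_r(·, α)`. -/
def blk (r α : ℝ) (s : ℕ) (x : UnitAddCircle) : ℝ :=
  (∑ k ∈ Finset.Icc (-(2 : ℤ) ^ (s + 1)) (2 ^ (s + 1)), ((bet s k : ℝ) : ℂ) * rho r α k *
    fourier k x).re

/-- The layer `l` of the `d`-dimensional kernel. -/
def Lay (d : ℕ) (r α : ℝ) (l : ℕ) (x : Tor d) : ℝ := ∑ s ∈ Sh d l, ∏ i, blk r α (s i) (x i)

/-- The Fourier multiplier of the layer `l`. -/
def lm (d : ℕ) (r α : ℝ) (l : ℕ) (n : Fin d → ℤ) : ℂ :=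
  ∑ s ∈ Sh d l, ∏ i, ((bet (s i) (n i) : ℝ) : ℂ) * rho r α (n i)

/-- Convolution on the torus. -/
def cnv {d : ℕ} (A φ : Tor d → ℝ) (x : Tor d) : ℝ := ∫ y, A (x - y) * φ y ∂(mu d)

/-- The frequencies of degree at most `D` in each variable. -/
def Box (d D : ℕ) : Finset (Fin d → ℤ) := Fintype.piFinset fun _ => Finset.Icc (-(D : ℤ)) D

theorem ch_continuous {d : ℕ} (n : Fin d → ℤ) : Continuous (ch n) := by
  unfold ch; fun_prop

/-- The part of `φ * F_r` in the layer `l`, as a continuous function. -/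
def pl (d : ℕ) (r α : ℝ) (l : ℕ) (φ : Tor d → ℝ) : C(Tor d, ℝ) where
  toFun x := (∑ n ∈ Box d (2 ^ (l + 1)), lm d r α l n * coef (fun x => (φ x : ℂ)) n * ch n x).re
  continuous_toFun := by
    refine Complex.continuous_re.comp (continuous_finsetSum _ fun n _ => ?_)
    exact continuous_const.mul (ch_continuous n)

/-- A continuous function as an element of `L_∞`. -/
def toL {d : ℕ} (f : C(Tor d, ℝ)) : Lp ℝ ⊤ (mu d) := ContinuousMap.toLp ⊤ (mu d) ℝ f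

end

end Pool.Agent.KW
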