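import Pool.Agent.KW.Stmts

set_option autoImplicit false

/-!
# KW, module EXPG: the exponential moment of the hyperbolic kernel
-/

open MeasureTheory
open scoped BigOperators ENNReal

namespace Pool.Agent.KW

noncomputable section

theorem EXPG_.sumBd (D : ℕ) : ∃ S : ℝ, 0 < S ∧ ∀ K : ℕ,
    ∑ k ∈ Finset.range K, ((2 : ℝ) ^ k)⁻¹ * ((k : ℝ) + 1) ^ D * Real.exp (((k : ℝ) + 1) / 4) ≤ S := by
  set r : ℝ := Real.exp (1 / 4) / 2 with hr
  have he : Real.exp (1 / 4) ≤ 4 / 3 := by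
    have h1 : (3 : ℝ) / 4 ≤ Real.exp (-(1 / 4)) := by
      have := Real.add_one_le_exp (-(1 / 4 : ℝ))
      linarith
    rw [Real.exp_neg] at h1
    have h2 : 0 < Real.exp (1 / 4 : ℝ) := Real.exp_pos _
    rw [le_inv_comm₀ (by norm_num) h2] at h1
    norm_num at h1 ⊢
    linarith
  have hr0 : 0 < r := by positivity
  have hr1 : r < 1 := by rw [hr]; linarith
  have hs0 : Summable (fun n : ℕ => (n : ℝ) ^ D * r ^ n) :=
    summable_pow_mul_geometric_of_norm_lt_one D (by rw [Real.norm_of_nonneg hr0.le]; exact hr1)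
  have hs1 : Summable (fun n : ℕ => ((n + 1 : ℕ) : ℝ) ^ D * r ^ (n + 1)) :=
    (summable_nat_add_iff 1).2 hs0
  have hs : Summable (fun k : ℕ => ((2 : ℝ) ^ k)⁻¹ * ((k : ℝ) + 1) ^ D *
      Real.exp (((k : ℝ) + 1) / 4)) := by
    have h2 := hs1.mul_left 2
    refine h2.congr fun k => ?_
    have h3 : Real.exp (((k : ℝ) + 1) / 4) = Real.exp (1 / 4) ^ (k + 1) := by
      rw [← Real.exp_nat_mul]
      congr 1
      push_cast
      ring
    rw [h3, hr, div_pow]
    push_cast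
    rw [pow_succ (2 : ℝ) k]
    field_simp
  refine ⟨∑' k : ℕ, ((2 : ℝ) ^ k)⁻¹ * ((k : ℝ) + 1) ^ D *
      Real.exp (((k : ℝ) + 1) / 4) + 1, ?_, fun K => ?_⟩
  · have : 0 ≤ ∑' k : ℕ, ((2 : ℝ) ^ k)⁻¹ * ((k : ℝ) + 1) ^ D *
      Real.exp (((k : ℝ) + 1) / 4) := tsum_nonneg fun k => by positivity
    linarith
  · have := hs.sum_le_tsum (Finset.range K) (fun k _ => by positivity)
    linarith

theorem EXPG_.coshPart (x m : ℝ) (hx : 0 ≤ x) (hm : 0 ≤ m) (N : ℕ) :
    ∑ p ∈ Finset.range N, x ^ (2 * (p + 1)) / ((2 * (p + 1)).factorial : ℝ) *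
      m ^ (2 * (p + 1) - 1) ≤ x ^ 2 * (m * Real.exp (x * m)) := by
  have h1 : ∀ p ∈ Finset.range N, x ^ (2 * (p + 1)) / ((2 * (p + 1)).factorial : ℝ) *
      m ^ (2 * (p + 1) - 1) ≤ x ^ 2 * m * ((x * m) ^ (2 * p) / ((2 * p).factorial : ℝ)) := by
    intro p _
    have h2 : 2 * (p + 1) - 1 = 2 * p + 1 := by omega
    rw [h2]
    have h3 : x ^ (2 * (p + 1)) / ((2 * (p + 1)).factorial : ℝ) * m ^ (2 * p + 1) =
        x ^ 2 * m * ((x * m) ^ (2 * p) / ((2 * (p + 1)).factorial : ℝ)) := by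
      rw [mul_pow]
      ring
    rw [h3]
    refine mul_le_mul_of_nonneg_left ?_ (by positivity)
    refine div_le_div_of_nonneg_left (by positivity) (by positivity) ?_
    exact_mod_cast Nat.factorial_le (by omega)
  refine (Finset.sum_le_sum h1).trans ?_
  rw [← Finset.mul_sum]
  have h4 := sum_le_hasSum (Finset.range N) (fun p _ => by positivity) (Real.hasSum_cosh (x * m))
  have h5 : Real.cosh (x * m) ≤ Real.exp (x * m) := by
    rw [Real.cosh_eq]
    have : Real.exp (-(x * m)) ≤ Real.exp (x * m) :=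
      Real.exp_le_exp.2 (by nlinarith [mul_nonneg hx hm])
    linarith
  have h6 : x ^ 2 * m * ∑ i ∈ Finset.range N, (x * m) ^ (2 * i) / ((2 * i).factorial : ℝ) ≤
      x ^ 2 * m * Real.exp (x * m) := mul_le_mul_of_nonneg_left (h4.trans h5) (by positivity)
  linarith

theorem EXPG_.avg_sum {ι : Type*} [Fintype ι] (s : Finset ℕ) (f : ℕ → ι → ℝ) :
    avg (fun x => ∑ p ∈ s, f p x) = ∑ p ∈ s, avg (f p) := by
  unfold avg
  rw [Finset.sum_comm, Finset.sum_div]

theorem EXPG_.avg_mul {ι : Type*} [Fintype ι] (a : ℝ) (f : ι → ℝ) :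
    avg (fun x => a * f x) = a * avg f := by
  unfold avg
  rw [← Finset.mul_sum, mul_div_assoc]

theorem expg_proof (hM : Stmt_MomG) (hC : Stmt_Card) : Stmt_ExpG := by
  intro d hd C hC1
  obtain ⟨S, hS0, hS⟩ := EXPG_.sumBd (2 * (d - 1))
  have hfac : (1 : ℝ) ≤ (Nat.factorial (d - 1) : ℝ) := by
    exact_mod_cast Nat.succ_le_of_lt (Nat.factorial_pos _)
  have hfac0 : (0 : ℝ) < (Nat.factorial (d - 1) : ℝ) := by linarith
  refine ⟨1 / (4 * (Nat.factorial (d - 1) : ℝ)), C ^ d * S, by positivity, by positivity, ?_⟩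
  intro l M _ g hg lam hlam hle
  obtain ⟨hL1, -, -⟩ := hC d l (by omega)
  have hLpos : (0 : ℝ) < (Ln d l : ℝ) := by
    have h1 : (0 : ℝ) < ((l : ℝ) + 1) ^ (d - 1) := by positivity
    nlinarith
  -- the partial sums
  have hT : ∀ N : ℕ, avg (fun x : Fin d → ZMod M => ∑ p ∈ Finset.range N,
      (lam * Gs g l x) ^ (2 * (p + 1)) / ((2 * (p + 1)).factorial : ℝ)) ≤
      C ^ d * S * lam ^ 2 * (Ln d l * ((2 : ℝ) ^ l)⁻¹) := by
    intro N
    have e1 : avg (fun x : Fin d → ZMod M => ∑ p ∈ Finset.range N,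
        (lam * Gs g l x) ^ (2 * (p + 1)) / ((2 * (p + 1)).factorial : ℝ)) =
        ∑ p ∈ Finset.range N, lam ^ (2 * (p + 1)) / ((2 * (p + 1)).factorial : ℝ) *
          avg (fun x : Fin d → ZMod M => Gs g l x ^ (2 * (p + 1))) := by
      rw [EXPG_.avg_sum]
      refine Finset.sum_congr rfl fun p _ => ?_
      rw [← EXPG_.avg_mul]
      congr 1
      funext x
      rw [mul_pow]
      ring
    rw [e1]
    have e2 : ∀ p ∈ Finset.range N, lam ^ (2 * (p + 1)) / ((2 * (p + 1)).factorial : ℝ) *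
          avg (fun x : Fin d → ZMod M => Gs g l x ^ (2 * (p + 1))) ≤
        lam ^ (2 * (p + 1)) / ((2 * (p + 1)).factorial : ℝ) *
          (C ^ d * Ln d l * ((2 : ℝ) ^ l)⁻¹ *
    ∑ k ∈ Finset.range (d * l + 1), ((2 : ℝ) ^ k)⁻¹ * ((k : ℝ) + 1) ^ (d - 1) *
      (min (((k : ℝ) + 1) ^ (d - 1)) (Ln d l)) ^ (2 * (p + 1) - 1)) := by
      intro p _
      exact mul_le_mul_of_nonneg_left
        (hM d (by omega) C hC1 l M g hg (2 * (p + 1)) (by omega)) (by positivity)
    refine (Finset.sum_le_sum e2).trans ?_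
    have e3 : ∑ p ∈ Finset.range N, lam ^ (2 * (p + 1)) / ((2 * (p + 1)).factorial : ℝ) *
          (C ^ d * Ln d l * ((2 : ℝ) ^ l)⁻¹ *
    ∑ k ∈ Finset.range (d * l + 1), ((2 : ℝ) ^ k)⁻¹ * ((k : ℝ) + 1) ^ (d - 1) *
      (min (((k : ℝ) + 1) ^ (d - 1)) (Ln d l)) ^ (2 * (p + 1) - 1)) =
        C ^ d * Ln d l * ((2 : ℝ) ^ l)⁻¹ *
          ∑ k ∈ Finset.range (d * l + 1), ((2 : ℝ) ^ k)⁻¹ * ((k : ℝ) + 1) ^ (d - 1) *
            ∑ p ∈ Finset.range N, lam ^ (2 * (p + 1)) / ((2 * (p + 1)).factorial : ℝ) *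
              (min (((k : ℝ) + 1) ^ (d - 1)) (Ln d l)) ^ (2 * (p + 1) - 1) := by
      simp_rw [Finset.mul_sum]
      rw [Finset.sum_comm]
      refine Finset.sum_congr rfl fun k _ => Finset.sum_congr rfl fun p _ => ?_
      ring
    rw [e3]
    have e4 : ∀ k ∈ Finset.range (d * l + 1), ((2 : ℝ) ^ k)⁻¹ * ((k : ℝ) + 1) ^ (d - 1) *
            ∑ p ∈ Finset.range N, lam ^ (2 * (p + 1)) / ((2 * (p + 1)).factorial : ℝ) *
              (min (((k : ℝ) + 1) ^ (d - 1)) (Ln d l)) ^ (2 * (p + 1) - 1) ≤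
        lam ^ 2 * (((2 : ℝ) ^ k)⁻¹ * ((k : ℝ) + 1) ^ (2 * (d - 1)) *
          Real.exp (((k : ℝ) + 1) / 4)) := by
      intro k _
      set m : ℝ := min (((k : ℝ) + 1) ^ (d - 1)) (Ln d l) with hm
      have hm0 : 0 ≤ m := le_min (by positivity) hLpos.le
      have hm1 : m ≤ ((k : ℝ) + 1) ^ (d - 1) := min_le_left _ _
      have hm2 : m ≤ (Ln d l : ℝ) := min_le_right _ _
      have hlm : lam * m ≤ ((k : ℝ) + 1) / 4 := by
        rcases le_or_gt k l with hkl | hkl
        · have hk : ((k : ℝ) + 1) ≤ (l : ℝ) + 1 := by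
            have : (k : ℝ) ≤ l := by exact_mod_cast hkl
            linarith
          -- multiply with Ln
          have a1 : lam * m ≤ lam * ((k : ℝ) + 1) ^ (d - 1) :=
            mul_le_mul_of_nonneg_left hm1 hlam
          refine a1.trans ?_
          have hd1 : d - 1 = (d - 2) + 1 := by omega
          have a2 : ((k : ℝ) + 1) ^ (d - 1) ≤ ((l : ℝ) + 1) ^ (d - 2) * ((k : ℝ) + 1) := by
            rw [hd1, pow_succ]
            exact mul_le_mul_of_nonneg_right (pow_le_pow_left₀ (by positivity) hk _) (by positivity)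
          have a3 : lam * ((l : ℝ) + 1) ^ (d - 2) ≤ 1 / 4 := by
            have b1 : lam * ((l : ℝ) + 1) ^ (d - 1) ≤
                (Nat.factorial (d - 1) : ℝ) * (lam * Ln d l) := by
              have := mul_le_mul_of_nonneg_left hL1 hlam
              linarith
            have b2 : (Nat.factorial (d - 1) : ℝ) * (lam * Ln d l) ≤ ((l : ℝ) + 1) / 4 := by
              have := mul_le_mul_of_nonneg_left hle hfac0.le
              refine this.trans (le_of_eq ?_)
              field_simp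
            have b3 : lam * ((l : ℝ) + 1) ^ (d - 2) * ((l : ℝ) + 1) ≤ 1 / 4 * ((l : ℝ) + 1) := by
              have : lam * ((l : ℝ) + 1) ^ (d - 2) * ((l : ℝ) + 1) =
                  lam * ((l : ℝ) + 1) ^ (d - 1) := by
                rw [hd1, pow_succ]
                ring
              rw [this]
              linarith
            exact le_of_mul_le_mul_right b3 (by positivity)
          calc lam * ((k : ℝ) + 1) ^ (d - 1) ≤ lam * (((l : ℝ) + 1) ^ (d - 2) * ((k : ℝ) + 1)) :=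
                mul_le_mul_of_nonneg_left a2 hlam
            _ = (lam * ((l : ℝ) + 1) ^ (d - 2)) * ((k : ℝ) + 1) := by ring
            _ ≤ 1 / 4 * ((k : ℝ) + 1) := mul_le_mul_of_nonneg_right a3 (by positivity)
            _ = ((k : ℝ) + 1) / 4 := by ring
        · have hk : ((l : ℝ) + 1) ≤ (k : ℝ) + 1 := by
            have : (l : ℝ) ≤ k := by exact_mod_cast hkl.le
            linarith
          have a1 : lam * m ≤ lam * Ln d l := mul_le_mul_of_nonneg_left hm2 hlam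
          have a2 : 1 / (4 * (Nat.factorial (d - 1) : ℝ)) * ((l : ℝ) + 1) ≤
              1 / 4 * ((l : ℝ) + 1) := by
            refine mul_le_mul_of_nonneg_right ?_ (by positivity)
            refine one_div_le_one_div_of_le (by norm_num) ?_
            linarith
          linarith
      have h5 := EXPG_.coshPart lam m hlam hm0 N
      have h6 : lam ^ 2 * (m * Real.exp (lam * m)) ≤
          lam ^ 2 * (((k : ℝ) + 1) ^ (d - 1) * Real.exp (((k : ℝ) + 1) / 4)) := by
        refine mul_le_mul_of_nonneg_left ?_ (by positivity)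
        exact mul_le_mul hm1 (Real.exp_le_exp.2 hlm) (Real.exp_pos _).le (by positivity)
      calc ((2 : ℝ) ^ k)⁻¹ * ((k : ℝ) + 1) ^ (d - 1) *
            ∑ p ∈ Finset.range N, lam ^ (2 * (p + 1)) / ((2 * (p + 1)).factorial : ℝ) *
              m ^ (2 * (p + 1) - 1) ≤ ((2 : ℝ) ^ k)⁻¹ * ((k : ℝ) + 1) ^ (d - 1) *
              (lam ^ 2 * (((k : ℝ) + 1) ^ (d - 1) * Real.exp (((k : ℝ) + 1) / 4))) :=
            mul_le_mul_of_nonneg_left (h5.trans h6) (by positivity)
        _ = _ := by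
            rw [two_mul, pow_add]
            ring
    have e5 : ∑ k ∈ Finset.range (d * l + 1), ((2 : ℝ) ^ k)⁻¹ * ((k : ℝ) + 1) ^ (d - 1) *
            ∑ p ∈ Finset.range N, lam ^ (2 * (p + 1)) / ((2 * (p + 1)).factorial : ℝ) *
              (min (((k : ℝ) + 1) ^ (d - 1)) (Ln d l)) ^ (2 * (p + 1) - 1) ≤ lam ^ 2 * S := by
      refine (Finset.sum_le_sum e4).trans ?_
      rw [← Finset.mul_sum]
      exact mul_le_mul_of_nonneg_left (hS _) (by positivity)
    calc C ^ d * Ln d l * ((2 : ℝ) ^ l)⁻¹ *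
          ∑ k ∈ Finset.range (d * l + 1), ((2 : ℝ) ^ k)⁻¹ * ((k : ℝ) + 1) ^ (d - 1) *
            ∑ p ∈ Finset.range N, lam ^ (2 * (p + 1)) / ((2 * (p + 1)).factorial : ℝ) *
              (min (((k : ℝ) + 1) ^ (d - 1)) (Ln d l)) ^ (2 * (p + 1) - 1) ≤
          C ^ d * Ln d l * ((2 : ℝ) ^ l)⁻¹ * (lam ^ 2 * S) :=
          mul_le_mul_of_nonneg_left e5 (by positivity)
      _ = _ := by ring
  -- the limit
  have hlim : Filter.Tendsto (fun N : ℕ => avg (fun x : Fin d → ZMod M => ∑ p ∈ Finset.range N,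
      (lam * Gs g l x) ^ (2 * (p + 1)) / ((2 * (p + 1)).factorial : ℝ))) Filter.atTop
      (nhds (avg (fun x : Fin d → ZMod M => Real.cosh (lam * Gs g l x) - 1))) := by
    unfold avg
    refine Filter.Tendsto.div_const (tendsto_finsetSum _ fun x _ => ?_) _
    have h1 := (hasSum_nat_add_iff' 1).2 (Real.hasSum_cosh (lam * Gs g l x))
    have h2 := h1.tendsto_sum_nat
    simpa using h2
  exact le_of_tendsto' hlim hT

end

end Pool.Agent.KW
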