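import Pool.Agent.KW.Stmts

set_option autoImplicit false

/-!
# KW: module FINAL
-/

open MeasureTheory
open scoped BigOperators ENNReal

namespace Pool.Agent.KW

theorem final_proof (h1 : Stmt_Main) (h2 : Stmt_LitW) (h3 : Stmt_Cplx) (h4 : Stmt_PsiD)
    (_h5 : Stmt_Mono) : Stmt_Final := by
  intro d q r α hd hq hr
  have hr0 : 0 < r := lt_of_le_of_lt ENNReal.toReal_nonneg hr
  have hq1 : 1 ≤ q := le_trans (by norm_num) hq
  obtain ⟨c₁, c₂, hc₁, hc₂, hm⟩ := h1 d q r α hd hq hr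
  obtain ⟨c, hc, hpsi⟩ := h4 d r hd hr0
  have hW : WR d q r α = W d q r α := h2 d q r α hq1 hr0
  refine ⟨⟨c₁, c₂, hc₁, hc₂, fun m hm2 => ?_⟩, ⟨c₁ * c, 2 * c₂, mul_pos hc₁ hc,
    by positivity, fun m hm2 => ?_⟩⟩
  · rw [hW]
    exact hm m hm2
  · obtain ⟨hu, hl⟩ := h3 d q r α m hq1 hr0
    rw [hW] at hu hl
    constructor
    · have hlow := (hm (2 * m) (by omega)).1
      refine le_trans (ENNReal.ofReal_le_ofReal ?_) (le_trans hlow hl)
      have := (hpsi m hm2).2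
      calc c₁ * c * psi d r m = c₁ * (c * psi d r m) := by ring
        _ ≤ c₁ * psi d r (2 * m) := mul_le_mul_of_nonneg_left this hc₁.le
    · refine le_trans hu ?_
      have hup := (hm m hm2).2
      calc 2 * kol ℝ (W d q r α) m ≤ 2 * ENNReal.ofReal (c₂ * psi d r m) := by gcongr
        _ = ENNReal.ofReal (2 * c₂ * psi d r m) := by
          rw [mul_assoc, ENNReal.ofReal_mul (by norm_num : (0 : ℝ) ≤ 2)]
          norm_num

end Pool.Agent.KW
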