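import Pool.Agent.KW.Stmts

set_option autoImplicit false

/-!
# FRA: the partial sums of the cosine series
-/

open scoped BigOperators

namespace Pool.Agent.KW

namespace FRA_

/-- Abel summation -/
theorem abel (a z : ℕ → ℝ) (B : ℝ) (m : ℕ) (ha : ∀ k, m ≤ k → a (k + 1) ≤ a k)
    (ha0 : ∀ k, m ≤ k → 0 ≤ a k) (hz : ∀ n, m ≤ n → |∑ k ∈ Finset.Ico m n, z k| ≤ B) :
    ∀ n, m ≤ n → |∑ k ∈ Finset.Ico m n, a k * z k| ≤ a m * B := by
  have key : ∀ n, m ≤ n → |∑ k ∈ Finset.Ico m n, a k * z k - a n * ∑ k ∈ Finset.Ico m n, z k| ≤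
      (a m - a n) * B := by
    intro n hn
    induction n, hn using Nat.le_induction with
    | base => simp
    | succ n hn ih =>
      rw [Finset.sum_Ico_succ_top hn, Finset.sum_Ico_succ_top hn]
      have h1 := hz (n + 1) (by omega)
      rw [Finset.sum_Ico_succ_top hn] at h1
      have h2 := ha n hn
      have e : ∑ k ∈ Finset.Ico m n, a k * z k + a n * z n -
          a (n + 1) * (∑ k ∈ Finset.Ico m n, z k + z n) =
          (∑ k ∈ Finset.Ico m n, a k * z k - a n * ∑ k ∈ Finset.Ico m n, z k) +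
            (a n - a (n + 1)) * (∑ k ∈ Finset.Ico m n, z k + z n) := by ring
      rw [e]
      refine (abs_add_le _ _).trans ?_
      rw [abs_mul, abs_of_nonneg (by linarith : 0 ≤ a n - a (n + 1))]
      have h3 : (a n - a (n + 1)) * |∑ k ∈ Finset.Ico m n, z k + z n| ≤
          (a n - a (n + 1)) * B := mul_le_mul_of_nonneg_left h1 (by linarith)
      linarith
  intro n hn
  have h1 := key n hn
  have h2 := hz n hn
  have h3 : |a n * ∑ k ∈ Finset.Ico m n, z k| ≤ a n * B := by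
    rw [abs_mul, abs_of_nonneg (ha0 n hn)]
    exact mul_le_mul_of_nonneg_left h2 (ha0 n hn)
  have h4 : |∑ k ∈ Finset.Ico m n, a k * z k| ≤
      |∑ k ∈ Finset.Ico m n, a k * z k - a n * ∑ k ∈ Finset.Ico m n, z k| +
        |a n * ∑ k ∈ Finset.Ico m n, z k| := by
    have := abs_add_le (∑ k ∈ Finset.Ico m n, a k * z k - a n * ∑ k ∈ Finset.Ico m n, z k)
      (a n * ∑ k ∈ Finset.Ico m n, z k)
    rwa [sub_add_cancel] at this
  linarith

/-- the trigonometric sums -/
theorem trig (t β : ℝ) (m : ℕ) : ∀ n, m ≤ n →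
    2 * Real.sin (Real.pi * t) * ∑ k ∈ Finset.Ico m n, Real.cos ((k : ℝ) * (2 * Real.pi * t) - β) =
      Real.sin ((2 * n - 1) * (Real.pi * t) - β) - Real.sin ((2 * m - 1) * (Real.pi * t) - β) := by
  intro n hn
  induction n, hn using Nat.le_induction with
  | base => simp
  | succ n hn ih =>
    rw [Finset.sum_Ico_succ_top hn, mul_add, ih]
    have h1 : 2 * Real.sin (Real.pi * t) * Real.cos ((n : ℝ) * (2 * Real.pi * t) - β) =
        Real.sin ((2 * ((n + 1 : ℕ) : ℝ) - 1) * (Real.pi * t) - β) -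
          Real.sin ((2 * n - 1) * (Real.pi * t) - β) := by
      have e1 : (2 * ((n + 1 : ℕ) : ℝ) - 1) * (Real.pi * t) - β =
          ((n : ℝ) * (2 * Real.pi * t) - β) + Real.pi * t := by
        push_cast
        ring
      have e2 : (2 * (n : ℝ) - 1) * (Real.pi * t) - β =
          ((n : ℝ) * (2 * Real.pi * t) - β) - Real.pi * t := by ring
      rw [e1, e2]
      generalize (n : ℝ) * (2 * Real.pi * t) - β = A
      generalize Real.pi * t = C
      rw [Real.sin_add, Real.sin_sub]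
      ring
    rw [h1]
    ring

theorem trig_bd (t β u : ℝ) (hu : 0 < u) (hs : 2 * u ≤ Real.sin (Real.pi * t)) (m n : ℕ)
    (hn : m ≤ n) :
    |∑ k ∈ Finset.Ico m n, Real.cos ((k : ℝ) * (2 * Real.pi * t) - β)| ≤ 1 / (2 * u) := by
  have h1 := trig t β m n hn
  have h2 : |2 * Real.sin (Real.pi * t) *
      ∑ k ∈ Finset.Ico m n, Real.cos ((k : ℝ) * (2 * Real.pi * t) - β)| ≤ 2 := by
    rw [h1]
    refine (abs_sub _ _).trans ?_
    have h3 := Real.abs_sin_le_one ((2 * n - 1) * (Real.pi * t) - β)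
    have h4 := Real.abs_sin_le_one ((2 * m - 1) * (Real.pi * t) - β)
    linarith
  rw [abs_mul, abs_of_nonneg (by linarith : (0 : ℝ) ≤ 2 * Real.sin (Real.pi * t))] at h2
  rw [le_div_iff₀ (by linarith)]
  have h5 := abs_nonneg (∑ k ∈ Finset.Ico m n, Real.cos ((k : ℝ) * (2 * Real.pi * t) - β))
  nlinarith

theorem sin_lower (t : ℝ) (h0 : 0 < t) (h1 : t < 1) :
    2 * min t (1 - t) ≤ Real.sin (Real.pi * t) := by
  have hpi := Real.pi_pos
  rcases le_total t (1 / 2) with h | h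
  · have h2 := Real.mul_le_sin (x := Real.pi * t) (by positivity) (by nlinarith)
    have e : 2 / Real.pi * (Real.pi * t) = 2 * t := by field_simp
    rw [e] at h2
    have := min_le_left t (1 - t)
    linarith
  · have h2 := Real.mul_le_sin (x := Real.pi * (1 - t)) (by
      have : 0 < 1 - t := by linarith
      positivity) (by nlinarith)
    have e : 2 / Real.pi * (Real.pi * (1 - t)) = 2 * (1 - t) := by field_simp
    have e2 : Real.sin (Real.pi * (1 - t)) = Real.sin (Real.pi * t) := by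
      have : Real.pi * (1 - t) = Real.pi - Real.pi * t := by ring
      rw [this, Real.sin_pi_sub]
    rw [e, e2] at h2
    have := min_le_right t (1 - t)
    linarith

/-- sum of `k ^ (-ρ)` -/
theorem sum_rpow (ρ : ℝ) (h1 : ρ ≤ 1 / 2) (h0 : 0 < ρ) (m : ℕ) :
    ∑ k ∈ Finset.Ico 1 (m + 1), (k : ℝ) ^ (-ρ) ≤ 2 * (m : ℝ) ^ (1 - ρ) := by
  induction m with
  | zero =>
    simp
    positivity
  | succ m ih =>
    rw [Finset.sum_Ico_succ_top (by omega)]
    have hp : (0 : ℝ) < (m : ℝ) + 1 := by positivity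
    have hb := rpow_one_add_le_one_add_mul_self (s := -(1 / ((m : ℝ) + 1)))
      (by
        rw [neg_le_neg_iff, div_le_one hp]
        have : (0 : ℝ) ≤ m := Nat.cast_nonneg m
        linarith) (p := 1 - ρ) (by linarith) (by linarith)
    have e1 : 1 + -(1 / ((m : ℝ) + 1)) = (m : ℝ) / (m + 1) := by field_simp; ring
    rw [e1, Real.div_rpow (Nat.cast_nonneg m) hp.le, div_le_iff₀ (Real.rpow_pos_of_pos hp _)] at hb
    have e2 : ((m : ℝ) + 1) ^ (1 - ρ) = ((m : ℝ) + 1) * ((m : ℝ) + 1) ^ (-ρ) := by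
      rw [sub_eq_add_neg, Real.rpow_add hp, Real.rpow_one]
    have e3 : (1 + (1 - ρ) * -(1 / ((m : ℝ) + 1))) * ((m : ℝ) + 1) ^ (1 - ρ) =
        ((m : ℝ) + 1) ^ (1 - ρ) - (1 - ρ) * ((m : ℝ) + 1) ^ (-ρ) := by
      rw [e2]
      field_simp
      ring
    rw [e3] at hb
    have e4 : 0 < ((m : ℝ) + 1) ^ (-ρ) := Real.rpow_pos_of_pos hp _
    push_cast
    nlinarith

theorem bound (r α : ℝ) (hr : 0 < r) (t : ℝ) (h0 : 0 < t) (h1 : t < 1) (K : ℕ) :
    |1 + 2 * ∑ k ∈ Finset.Icc 1 K, (k : ℝ) ^ (-r) *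
      Real.cos ((k : ℝ) * (2 * Real.pi * t) - α * Real.pi / 2)| ≤
        6 * (t ^ (-(1 - min r (1 / 2))) + (1 - t) ^ (-(1 - min r (1 / 2)))) := by
  set ρ := min r (1 / 2) with hρ
  have hρ0 : 0 < ρ := lt_min hr (by norm_num)
  have hρ1 : ρ ≤ 1 / 2 := min_le_right _ _
  have hρr : ρ ≤ r := min_le_left _ _
  set u := min t (1 - t) with hu
  have hu0 : 0 < u := lt_min h0 (by linarith)
  have hu1 : u ≤ 1 := (min_le_left _ _).trans h1.le
  have hs := sin_lower t h0 h1
  rw [← hu] at hs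
  set z : ℕ → ℝ := fun k => Real.cos ((k : ℝ) * (2 * Real.pi * t) - α * Real.pi / 2) with hz
  have hz1 : ∀ k, |z k| ≤ 1 := fun k => Real.abs_cos_le_one _
  set a : ℕ → ℝ := fun k => (k : ℝ) ^ (-r) with ha
  have ha0 : ∀ k, 0 ≤ a k := fun k => Real.rpow_nonneg (Nat.cast_nonneg k) _
  have hmono : ∀ k, 1 ≤ k → a (k + 1) ≤ a k := by
    intro k hk
    have hk' : (0 : ℝ) < k := by exact_mod_cast hk
    exact Real.rpow_le_rpow_of_nonpos hk' (by push_cast; linarith) (by linarith)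
  have har : ∀ k, 1 ≤ k → a k ≤ (k : ℝ) ^ (-ρ) := by
    intro k hk
    have hk' : (1 : ℝ) ≤ k := by exact_mod_cast hk
    exact Real.rpow_le_rpow_of_exponent_le hk' (by linarith)
  set m : ℕ := ⌊1 / u⌋₊ with hm
  have hm1 : (m : ℝ) ≤ 1 / u := Nat.floor_le (by positivity)
  have hm2 : 1 / u < (m : ℝ) + 1 := Nat.lt_floor_add_one _
  have huη : u ^ (-(1 - ρ)) = (1 / u) ^ (1 - ρ) := by
    rw [one_div, Real.inv_rpow hu0.le, Real.rpow_neg hu0.le]
  have hU1 : 1 ≤ u ^ (-(1 - ρ)) := by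
    rw [huη]
    exact Real.one_le_rpow (by rw [le_div_iff₀ hu0]; linarith) (by linarith)
  -- the first part
  have first : ∀ n, n ≤ m → |∑ k ∈ Finset.Ico 1 (n + 1), a k * z k| ≤ 2 * u ^ (-(1 - ρ)) := by
    intro n hn
    calc |∑ k ∈ Finset.Ico 1 (n + 1), a k * z k| ≤ ∑ k ∈ Finset.Ico 1 (n + 1), |a k * z k| :=
          Finset.abs_sum_le_sum_abs _ _
      _ ≤ ∑ k ∈ Finset.Ico 1 (n + 1), (k : ℝ) ^ (-ρ) := by
        refine Finset.sum_le_sum fun k hk => ?_
        rw [abs_mul, abs_of_nonneg (ha0 k)]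
        calc a k * |z k| ≤ a k * 1 := mul_le_mul_of_nonneg_left (hz1 k) (ha0 k)
          _ ≤ (k : ℝ) ^ (-ρ) := by
            rw [mul_one]
            exact har k (Finset.mem_Ico.1 hk).1
      _ ≤ 2 * (n : ℝ) ^ (1 - ρ) := sum_rpow ρ hρ1 hρ0 n
      _ ≤ 2 * u ^ (-(1 - ρ)) := by
        rw [huη]
        have : (n : ℝ) ≤ 1 / u := le_trans (by exact_mod_cast hn) hm1
        have := Real.rpow_le_rpow (Nat.cast_nonneg n) this (by linarith : 0 ≤ 1 - ρ)
        linarith
  have second : ∀ n, m + 1 ≤ n → |∑ k ∈ Finset.Ico (m + 1) n, a k * z k| ≤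
      1 / 2 * u ^ (-(1 - ρ)) := by
    intro n hn
    have h2 := abel a z (1 / (2 * u)) (m + 1) (fun k hk => hmono k (by omega)) (fun k _ => ha0 k)
      (fun n hn => trig_bd t _ u hu0 hs (m + 1) n hn) n hn
    refine h2.trans ?_
    have h3 : a (m + 1) ≤ (1 / u) ^ (-ρ) := by
      refine (har (m + 1) (by omega)).trans ?_
      exact Real.rpow_le_rpow_of_nonpos (by positivity) (by push_cast; linarith) (by linarith)
    have h4 : (1 / u) ^ (-ρ) * (1 / (2 * u)) = 1 / 2 * u ^ (-(1 - ρ)) := by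
      rw [huη, sub_eq_add_neg, add_comm, Real.rpow_add (by positivity : 0 < 1 / u), Real.rpow_one]
      field_simp
    rw [← h4]
    exact mul_le_mul_of_nonneg_right h3 (by positivity)
  have hsum : |∑ k ∈ Finset.Icc 1 K, a k * z k| ≤ 5 / 2 * u ^ (-(1 - ρ)) := by
    have e : Finset.Icc 1 K = Finset.Ico 1 (K + 1) := by
      ext k
      simp only [Finset.mem_Icc, Finset.mem_Ico]
      omega
    rw [e]
    rcases le_total K m with h | h
    · have := first K h
      linarith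
    · have h5 : ∑ k ∈ Finset.Ico 1 (K + 1), a k * z k =
          ∑ k ∈ Finset.Ico 1 (m + 1), a k * z k + ∑ k ∈ Finset.Ico (m + 1) (K + 1), a k * z k :=
        (Finset.sum_Ico_consecutive _ (by omega) (by omega)).symm
      rw [h5]
      have h6 := first m le_rfl
      have h7 := second (K + 1) (by omega)
      have := abs_add_le (∑ k ∈ Finset.Ico 1 (m + 1), a k * z k)
        (∑ k ∈ Finset.Ico (m + 1) (K + 1), a k * z k)
      linarith
  have hfin : |1 + 2 * ∑ k ∈ Finset.Icc 1 K, a k * z k| ≤ 6 * u ^ (-(1 - ρ)) := by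
    have h8 := abs_add_le 1 (2 * ∑ k ∈ Finset.Icc 1 K, a k * z k)
    rw [abs_mul, abs_one, abs_two] at h8
    linarith
  refine hfin.trans ?_
  have h9 : u ^ (-(1 - ρ)) ≤ t ^ (-(1 - ρ)) + (1 - t) ^ (-(1 - ρ)) := by
    have h10 : 0 ≤ t ^ (-(1 - ρ)) := Real.rpow_nonneg h0.le _
    have h11 : 0 ≤ (1 - t) ^ (-(1 - ρ)) := Real.rpow_nonneg (by linarith) _
    rcases min_choice t (1 - t) with h | h
    · rw [hu, h]
      linarith
    · rw [hu, h]
      linarith
  linarith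

theorem conv (r α : ℝ) (hr : 0 < r) (t : ℝ) (h0 : 0 < t) (h1 : t < 1) :
    ∃ L : ℝ, Filter.Tendsto (fun K : ℕ => 1 + 2 * ∑ k ∈ Finset.Icc 1 K, (k : ℝ) ^ (-r) *
      Real.cos ((k : ℝ) * (2 * Real.pi * t) - α * Real.pi / 2)) Filter.atTop (nhds L) := by
  set u := min t (1 - t) with hu
  have hu0 : 0 < u := lt_min h0 (by linarith)
  have hs := sin_lower t h0 h1
  rw [← hu] at hs
  set f : ℕ → ℝ := fun k => ((k : ℝ) + 1) ^ (-r) with hf
  set z : ℕ → ℝ := fun k => Real.cos (((k + 1 : ℕ) : ℝ) * (2 * Real.pi * t) - α * Real.pi / 2)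
    with hz
  have hanti : Antitone f := by
    intro k l hkl
    have hk' : (0 : ℝ) < (k : ℝ) + 1 := by positivity
    have : (k : ℝ) ≤ l := by exact_mod_cast hkl
    exact Real.rpow_le_rpow_of_nonpos hk' (by linarith) (by linarith)
  have htend : Filter.Tendsto f Filter.atTop (nhds 0) := by
    have h2 := (tendsto_rpow_neg_atTop hr).comp
      (Filter.tendsto_atTop_add_const_right _ (1 : ℝ) tendsto_natCast_atTop_atTop)
    exact h2
  have hsh : ∀ (g : ℕ → ℝ) (n : ℕ), ∑ i ∈ Finset.range n, g (i + 1) =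
      ∑ k ∈ Finset.Ico 1 (n + 1), g k := by
    intro g n
    rw [Finset.range_eq_Ico, Finset.sum_Ico_add' g 0 n 1, zero_add]
  have hbd : ∀ n, ‖∑ i ∈ Finset.range n, z i‖ ≤ 1 / (2 * u) := by
    intro n
    have e := hsh (fun k => Real.cos ((k : ℝ) * (2 * Real.pi * t) - α * Real.pi / 2)) n
    rw [Real.norm_eq_abs]
    have e2 : ∑ i ∈ Finset.range n, z i =
        ∑ k ∈ Finset.Ico 1 (n + 1), Real.cos ((k : ℝ) * (2 * Real.pi * t) - α * Real.pi / 2) := e
    rw [e2]
    exact trig_bd t _ u hu0 hs 1 (n + 1) (by omega)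
  have hc := hanti.cauchySeq_series_mul_of_tendsto_zero_of_bounded htend hbd
  obtain ⟨L, hL⟩ := cauchySeq_tendsto_of_complete hc
  refine ⟨1 + 2 * L, ?_⟩
  have e3 : (fun K : ℕ => 1 + 2 * ∑ k ∈ Finset.Icc 1 K, (k : ℝ) ^ (-r) *
      Real.cos ((k : ℝ) * (2 * Real.pi * t) - α * Real.pi / 2)) =
      fun K : ℕ => 1 + 2 * ∑ i ∈ Finset.range K, f i • z i := by
    funext K
    have e : Finset.Icc 1 K = Finset.Ico 1 (K + 1) := by
      ext k
      simp only [Finset.mem_Icc, Finset.mem_Ico]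
      omega
    rw [e, ← hsh (fun k => (k : ℝ) ^ (-r) *
      Real.cos ((k : ℝ) * (2 * Real.pi * t) - α * Real.pi / 2)) K]
    congr 2
    refine Finset.sum_congr rfl fun i _ => ?_
    simp only [hf, hz, smul_eq_mul]
    push_cast
    ring
  rw [e3]
  exact (hL.const_mul 2).const_add 1

end FRA_

theorem fra_proof : Stmt_FrA := by
  intro r α hr
  refine ⟨6, 1 - min r (1 / 2), by norm_num, ?_, ?_, fun t h0 h1 =>
    ⟨fun K => FRA_.bound r α hr t h0 h1 K, FRA_.conv r α hr t h0 h1⟩⟩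
  · have := min_le_right r (1 / 2 : ℝ)
    linarith
  · have : 0 < min r (1 / 2 : ℝ) := lt_min hr (by norm_num)
    linarith

end Pool.Agent.KW
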