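import Pool.Agent.KW.Stmts

set_option autoImplicit false

/-!
# Module FRK: the kernel `F_r(·, α)` is integrable with Fourier coefficients `rho r α`
-/

open MeasureTheory Set Filter Topology
open scoped BigOperators ENNReal

namespace Pool.Agent.KW

noncomputable section

namespace FRK_

/-- the representative in `[0, 1)` -/
def tt (x : UnitAddCircle) : ℝ := (AddCircle.equivIco 1 0 x : ℝ)

theorem measurable_tt : Measurable tt :=
  measurable_subtype_coe.comp (AddCircle.measurableEquivIco (1 : ℝ) 0).measurable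

theorem coe_tt (x : UnitAddCircle) : ((tt x : ℝ) : UnitAddCircle) = x := AddCircle.coe_equivIco

theorem tt_coe {s : ℝ} (hs : s ∈ Ico (0 : ℝ) 1) : tt (s : UnitAddCircle) = s := by
  unfold tt
  rw [AddCircle.equivIco_coe_eq (by simpa using hs)]

theorem haar_eq : (AddCircle.haarAddCircle : Measure UnitAddCircle) =
    Measure.map ((↑) : ℝ → UnitAddCircle) (volume.restrict (Ioc (0 : ℝ) (0 + 1))) := by
  rw [(AddCircle.measurePreserving_mk (1 : ℝ) 0).map_eq, AddCircle.volume_eq_smul_haarAddCircle,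
    ENNReal.ofReal_one, one_smul]

theorem meas_mk : Measurable ((↑) : ℝ → UnitAddCircle) :=
  (AddCircle.measurePreserving_mk (1 : ℝ) 0).measurable

theorem ae_Ioo : ∀ᵐ s ∂(volume.restrict (Ioc (0 : ℝ) (0 + 1))), s ∈ Ioo (0 : ℝ) 1 := by
  have h1 : ∀ᵐ s ∂(volume.restrict (Ioc (0 : ℝ) (0 + 1))), s ∈ Ioc (0 : ℝ) (0 + 1) :=
    ae_restrict_mem measurableSet_Ioc
  have h2 : ∀ᵐ s ∂(volume.restrict (Ioc (0 : ℝ) (0 + 1))), s ≠ 1 :=
    ae_restrict_of_ae (by
      rw [ae_iff]
      simp)
  filter_upwards [h1, h2] with s hs hs'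
  rw [zero_add] at hs
  exact ⟨hs.1, lt_of_le_of_ne hs.2 hs'⟩

theorem ae_tt : ∀ᵐ x ∂(AddCircle.haarAddCircle : Measure UnitAddCircle), tt x ∈ Ioo (0 : ℝ) 1 := by
  rw [haar_eq, ae_map_iff meas_mk.aemeasurable (measurable_tt measurableSet_Ioo)]
  filter_upwards [ae_Ioo] with s hs
  rw [tt_coe ⟨hs.1.le, hs.2⟩]
  exact hs

/-- the dominating function is integrable -/
theorem dom_integrable {C η : ℝ} (hη : η < 1) :
    Integrable (fun x => C * (tt x ^ (-η) + (1 - tt x) ^ (-η)))
      (AddCircle.haarAddCircle : Measure UnitAddCircle) := by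
  have hm : Measurable (fun x => C * (tt x ^ (-η) + (1 - tt x) ^ (-η))) := by
    have := measurable_tt
    fun_prop
  rw [haar_eq, integrable_map_measure hm.aestronglyMeasurable meas_mk.aemeasurable]
  have h1 : IntervalIntegrable (fun s : ℝ => s ^ (-η)) volume 0 1 :=
    intervalIntegral.intervalIntegrable_rpow' (by linarith)
  have h2 : IntervalIntegrable (fun s : ℝ => (1 - s) ^ (-η)) volume 0 1 := by
    have := (h1.comp_sub_left 1).symm
    simpa using this
  have h3 : Integrable (fun s : ℝ => C * (s ^ (-η) + (1 - s) ^ (-η)))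
      (volume.restrict (Ioc (0 : ℝ) (0 + 1))) := by
    rw [zero_add]
    exact ((intervalIntegrable_iff_integrableOn_Ioc_of_le zero_le_one).mp (h1.add h2)).const_mul C
  refine h3.congr ?_
  filter_upwards [ae_Ioo] with s hs
  simp only [Function.comp]
  rw [tt_coe ⟨hs.1.le, hs.2⟩]

/-- the partial sums -/
def SK (r α : ℝ) (K : ℕ) (x : UnitAddCircle) : ℝ :=
  1 + 2 * ∑ k ∈ Finset.Icc 1 K, (k : ℝ) ^ (-r) *
    Real.cos ((k : ℝ) * (2 * Real.pi * tt x) - α * Real.pi / 2)

theorem measurable_SK (r α : ℝ) (K : ℕ) : Measurable (SK r α K) := by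
  unfold SK
  have := measurable_tt
  fun_prop

theorem term_eq (h2 : Stmt_RhoB) (r α : ℝ) {k : ℕ} (hk : 1 ≤ k) (x : UnitAddCircle) :
    rho r α (k : ℤ) * fourier (k : ℤ) x + rho r α (-(k : ℤ)) * fourier (-(k : ℤ)) x =
      ((2 * ((k : ℝ) ^ (-r) *
        Real.cos ((k : ℝ) * (2 * Real.pi * tt x) - α * Real.pi / 2)) : ℝ) : ℂ) := by
  rw [(h2 r α).2.1, fourier_neg, ← map_mul, Complex.add_conj]
  congr 2
  have hk0 : ((k : ℤ)) ≠ 0 := by omega
  have e1 : rho r α (k : ℤ) = (((k : ℝ) ^ (-r) : ℝ) : ℂ) *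
      Complex.exp (((-(α * Real.pi / 2) : ℝ) : ℂ) * Complex.I) := by
    unfold rho
    rw [if_neg hk0]
    have hs : SignType.sign (k : ℤ) = 1 := sign_pos (by omega)
    rw [hs]
    have ha : |(((k : ℤ) : ℝ))| = (k : ℝ) := by
      rw [Int.cast_natCast]
      exact abs_of_nonneg (Nat.cast_nonneg k)
    rw [ha]
    congr 2
    push_cast
    simp
  have e2 : fourier (k : ℤ) x = Complex.exp ((((k : ℝ) * (2 * Real.pi * tt x) : ℝ) : ℂ) *
      Complex.I) := by
    conv_lhs => rw [← coe_tt x]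
    rw [fourier_coe_apply]
    congr 1
    push_cast
    ring
  rw [e1, e2, mul_assoc, ← Complex.exp_add, ← add_mul, ← Complex.ofReal_add, Complex.re_ofReal_mul,
    Complex.exp_ofReal_mul_I_re]
  congr 2
  ring

theorem SK_eq (h2 : Stmt_RhoB) (r α : ℝ) (K : ℕ) (x : UnitAddCircle) :
    ((SK r α K x : ℝ) : ℂ) = 1 + ∑ k ∈ Finset.Icc 1 K,
      (rho r α (k : ℤ) * fourier (k : ℤ) x + rho r α (-(k : ℤ)) * fourier (-(k : ℤ)) x) := by
  rw [Finset.sum_congr rfl fun k hk => term_eq h2 r α (Finset.mem_Icc.mp hk).1 x]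
  unfold SK
  rw [← Complex.ofReal_sum, ← Finset.mul_sum, ← Complex.ofReal_one, ← Complex.ofReal_add]

theorem orth (m k : ℤ) :
    ∫ x, fourier (-m) x * fourier k x ∂(AddCircle.haarAddCircle : Measure UnitAddCircle) =
      if m = k then 1 else 0 := by
  have h := congrFun (fourierCoeff_fourier (T := 1) k) m
  unfold fourierCoeff at h
  simp only [smul_eq_mul] at h
  rw [h, Pi.single_apply]

theorem int_cont {f : UnitAddCircle → ℂ} (hf : Continuous f) :
    Integrable f (AddCircle.haarAddCircle : Measure UnitAddCircle) :=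
  hf.integrable_of_hasCompactSupport (HasCompactSupport.of_compactSpace f)

theorem coeff_SK (h2 : Stmt_RhoB) (r α : ℝ) (n : ℤ) (K : ℕ) (hK : n.natAbs ≤ K) :
    ∫ x, fourier (-n) x * ((SK r α K x : ℝ) : ℂ)
      ∂(AddCircle.haarAddCircle : Measure UnitAddCircle) = rho r α n := by
  have e1 : ∀ x : UnitAddCircle, fourier (-n) x * ((SK r α K x : ℝ) : ℂ) =
      fourier (-n) x * fourier 0 x + ∑ k ∈ Finset.Icc 1 K,
        (rho r α (k : ℤ) * (fourier (-n) x * fourier (k : ℤ) x) +
          rho r α (-(k : ℤ)) * (fourier (-n) x * fourier (-(k : ℤ)) x)) := by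
    intro x
    rw [SK_eq h2, mul_add, Finset.mul_sum, fourier_zero]
    congr 1
    refine Finset.sum_congr rfl fun k _ => ?_
    ring
  have hc : ∀ m : ℤ, Continuous fun x : UnitAddCircle => (fourier m x : ℂ) :=
    fun m => (fourier m).continuous
  have hcc : ∀ (c : ℂ) (m : ℤ), Continuous fun x : UnitAddCircle =>
      c * ((fourier (-n) x : ℂ) * fourier m x) :=
    fun c m => continuous_const.mul ((hc _).mul (hc _))
  have i1 : Integrable (fun x : UnitAddCircle => (fourier (-n) x : ℂ) * fourier 0 x)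
      (AddCircle.haarAddCircle : Measure UnitAddCircle) := int_cont ((hc _).mul (hc _))
  have i0 : ∀ (c : ℂ) (m : ℤ), Integrable (fun x : UnitAddCircle =>
      c * ((fourier (-n) x : ℂ) * fourier m x))
      (AddCircle.haarAddCircle : Measure UnitAddCircle) := fun c m => int_cont (hcc c m)
  have i2 : ∀ k : ℕ, Integrable (fun x : UnitAddCircle =>
      rho r α (k : ℤ) * ((fourier (-n) x : ℂ) * fourier (k : ℤ) x) +
        rho r α (-(k : ℤ)) * (fourier (-n) x * fourier (-(k : ℤ)) x))
      (AddCircle.haarAddCircle : Measure UnitAddCircle) := fun k => (i0 _ _).add (i0 _ _)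
  have i3 : Integrable (fun x : UnitAddCircle => ∑ k ∈ Finset.Icc 1 K,
      (rho r α (k : ℤ) * ((fourier (-n) x : ℂ) * fourier (k : ℤ) x) +
        rho r α (-(k : ℤ)) * (fourier (-n) x * fourier (-(k : ℤ)) x)))
      (AddCircle.haarAddCircle : Measure UnitAddCircle) :=
    integrable_finsetSum _ fun k _ => i2 k
  rw [integral_congr_ae (Eventually.of_forall e1), integral_add i1 i3,
    integral_finsetSum _ fun k _ => i2 k, orth]
  have e2 : ∀ k ∈ Finset.Icc 1 K, ∫ x : UnitAddCircle,
      (rho r α (k : ℤ) * (fourier (-n) x * fourier (k : ℤ) x) +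
          rho r α (-(k : ℤ)) * (fourier (-n) x * fourier (-(k : ℤ)) x))
        ∂(AddCircle.haarAddCircle : Measure UnitAddCircle) =
      (if n.natAbs = k then rho r α n else 0) := by
    intro k hk
    have hk1 := (Finset.mem_Icc.mp hk).1
    rw [integral_add (i0 _ _) (i0 _ _), integral_const_mul,
      integral_const_mul, orth, orth]
    by_cases h : n.natAbs = k
    · rw [if_pos h]
      rcases Int.natAbs_eq n with h3 | h3
      · rw [h] at h3
        have h4 : n ≠ -(k : ℤ) := by omega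
        rw [if_pos h3, if_neg h4, ← h3]
        ring
      · rw [h] at h3
        have h4 : n ≠ (k : ℤ) := by omega
        rw [if_pos h3, if_neg h4, ← h3]
        ring
    · rw [if_neg h]
      have h3 : n ≠ (k : ℤ) := by omega
      have h4 : n ≠ -(k : ℤ) := by omega
      rw [if_neg h3, if_neg h4]
      ring
  rw [Finset.sum_congr rfl e2, Finset.sum_ite_eq]
  by_cases hn : n = 0
  · rw [if_pos hn, if_neg (by
      rw [Finset.mem_Icc]
      omega), hn]
    unfold rho
    rw [if_pos rfl, add_zero]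
  · rw [if_neg hn, if_pos (by
      rw [Finset.mem_Icc]
      omega), zero_add]

end FRK_

theorem frk_proof (h1 : Stmt_FrA) (h2 : Stmt_RhoB) : Stmt_Frk := by
  intro r α hr
  obtain ⟨C, η, -, -, hη, hF⟩ := h1 r α hr
  have hg := FRK_.dom_integrable (C := C) hη
  have hbd : ∀ᵐ x ∂(AddCircle.haarAddCircle : Measure UnitAddCircle), ∀ K : ℕ,
      |FRK_.SK r α K x| ≤ C * (FRK_.tt x ^ (-η) + (1 - FRK_.tt x) ^ (-η)) := by
    filter_upwards [FRK_.ae_tt] with x hx K
    exact (hF (FRK_.tt x) hx.1 hx.2).1 K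
  have hlim : ∀ᵐ x ∂(AddCircle.haarAddCircle : Measure UnitAddCircle),
      Tendsto (fun K : ℕ => FRK_.SK r α K x) atTop (𝓝 (Fr r α x)) := by
    filter_upwards [FRK_.ae_tt] with x hx
    obtain ⟨L, hL⟩ := (hF (FRK_.tt x) hx.1 hx.2).2
    have hL' : Tendsto (fun K : ℕ => FRK_.SK r α K x) atTop (𝓝 L) := hL
    have e : Fr r α x = L := hL'.limUnder_eq
    rw [e]
    exact hL'
  have hmeas : AEStronglyMeasurable (Fr r α) (AddCircle.haarAddCircle : Measure UnitAddCircle) :=
    aestronglyMeasurable_of_tendsto_ae atTop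
      (fun K => (FRK_.measurable_SK r α K).aestronglyMeasurable) hlim
  have hint : Integrable (Fr r α) (AddCircle.haarAddCircle : Measure UnitAddCircle) := by
    refine hg.mono' hmeas ?_
    filter_upwards [hbd, hlim] with x hx hx'
    rw [Real.norm_eq_abs]
    exact le_of_tendsto' hx'.abs fun K => hx K
  refine ⟨hint, fun n => ?_⟩
  have ht : Tendsto (fun K : ℕ => ∫ x, fourier (-n) x * ((FRK_.SK r α K x : ℝ) : ℂ)
      ∂(AddCircle.haarAddCircle : Measure UnitAddCircle)) atTop
      (𝓝 (∫ x, fourier (-n) x * ((Fr r α x : ℝ) : ℂ)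
        ∂(AddCircle.haarAddCircle : Measure UnitAddCircle))) := by
    refine tendsto_integral_of_dominated_convergence
      (fun x => C * (FRK_.tt x ^ (-η) + (1 - FRK_.tt x) ^ (-η))) (fun K => ?_) hg (fun K => ?_) ?_
    · exact ((fourier (-n)).continuous.measurable.mul
        (Complex.measurable_ofReal.comp (FRK_.measurable_SK r α K))).aestronglyMeasurable
    · filter_upwards [hbd] with x hx
      rw [norm_mul, fourier_apply, Circle.norm_coe, one_mul, Complex.norm_real, Real.norm_eq_abs]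
      exact hx K
    · filter_upwards [hlim] with x hx
      exact tendsto_const_nhds.mul ((Complex.continuous_ofReal.tendsto _).comp hx)
  have ht' : Tendsto (fun K : ℕ => ∫ x, fourier (-n) x * ((FRK_.SK r α K x : ℝ) : ℂ)
      ∂(AddCircle.haarAddCircle : Measure UnitAddCircle)) atTop (𝓝 (rho r α n)) := by
    refine tendsto_const_nhds.congr' ?_
    filter_upwards [eventually_ge_atTop n.natAbs] with K hK
    exact (FRK_.coeff_SK h2 r α n K hK).symm
  exact tendsto_nhds_unique ht ht'

end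

end Pool.Agent.KW
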