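import Pool.Agent.KW.LITW
import Pool.Agent.KW.CPLX

set_option autoImplicit false

/-!
# KW, module INCL: the convolutions of the class are bounded functions
-/

open MeasureTheory
open scoped BigOperators ENNReal

namespace Pool.Agent.KW

noncomputable section

namespace INCL_

variable {d : ℕ}

/-- The real case, `‖φ‖_q ≤ 1`. -/
theorem memLp_one (hD : Stmt_Deco) (hF : Stmt_Frk) (hU : Stmt_Uniq) {q : ℝ≥0∞} {r α : ℝ}
    (hd : 1 ≤ d) (hq : 1 ≤ q) (hr : (1 / q).toReal < r) (φ : Tor d → ℝ)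
    (hφ : MemLp φ q (mu d)) (hφ1 : eLpNorm φ q (mu d) ≤ 1) :
    MemLp (fun x => ∫ y, φ y * ∏ i, Fr r α (x i - y i) ∂(mu d)) ⊤ (mu d) := by
  have hr0 : 0 < r := lt_of_le_of_lt ENNReal.toReal_nonneg hr
  obtain ⟨s, hs1, hsr, hsq⟩ : ∃ s : ℝ, 1 ≤ s ∧ 1 / s < r ∧ ENNReal.ofReal s ≤ q := by
    by_cases hqt : q = ⊤
    · refine ⟨max 1 (2 / r), le_max_left _ _, ?_, by rw [hqt]; exact le_top⟩
      have h2 : 2 / r ≤ max 1 (2 / r) := le_max_right _ _
      have h3 : 0 < 2 / r := by positivity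
      calc 1 / max 1 (2 / r) ≤ 1 / (2 / r) := one_div_le_one_div_of_le h3 h2
        _ = r / 2 := by field_simp
        _ < r := by linarith
    · refine ⟨q.toReal, ?_, ?_, ?_⟩
      · have := ENNReal.toReal_mono hqt hq
        simpa using this
      · rw [ENNReal.toReal_div] at hr
        simpa using hr
      · rw [ENNReal.ofReal_toReal hqt]
  have hm : MemLp φ (ENNReal.ofReal s) (mu d) := hφ.mono_exponent hsq
  have hm1 : eLpNorm φ (ENNReal.ofReal s) (mu d) ≤ 1 :=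
    (eLpNorm_le_eLpNorm_of_exponent_le hsq hφ.1).trans hφ1
  obtain ⟨C, η, hC, hη, hmain⟩ := hD d s r α hd hs1 hsr
  obtain ⟨f, hf, -⟩ := hmain φ hm hm1
  have hi : Integrable φ (mu d) := hφ.integrable hq
  have hf1 : Integrable f (mu d) := (Lp.memLp f).integrable le_top
  have hae := hU d f (fun x => ∫ y, φ y * LITW_.PF d r α (x - y) ∂(mu d)) hf1
    (LITW_.conv_int hF hr0 α hi) (fun n => by rw [hf n, LITW_.conv_coef hF hr0 α hi n])
  exact (memLp_congr_ae hae).1 (Lp.memLp f)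

/-- The real case. -/
theorem memLp_real (hD : Stmt_Deco) (hF : Stmt_Frk) (hU : Stmt_Uniq) {q : ℝ≥0∞} {r α : ℝ}
    (hd : 1 ≤ d) (hq : 1 ≤ q) (hr : (1 / q).toReal < r) (φ : Tor d → ℝ)
    (hφ : MemLp φ q (mu d)) :
    MemLp (fun x => ∫ y, φ y * ∏ i, Fr r α (x i - y i) ∂(mu d)) ⊤ (mu d) := by
  set c : ℝ := (eLpNorm φ q (mu d)).toReal + 1 with hc
  have hc0 : 0 < c := by
    have : 0 ≤ (eLpNorm φ q (mu d)).toReal := ENNReal.toReal_nonneg
    linarith
  have h1 : eLpNorm (fun x => c⁻¹ * φ x) q (mu d) ≤ 1 := by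
    have h2 : eLpNorm (fun x => c⁻¹ * φ x) q (mu d) = ‖c⁻¹‖ₑ * eLpNorm φ q (mu d) :=
      eLpNorm_const_smul c⁻¹ φ q (mu d)
    rw [h2, ← ofReal_norm, Real.norm_eq_abs, abs_of_pos (inv_pos.2 hc0)]
    rw [← ENNReal.ofReal_toReal hφ.2.ne, ← ENNReal.ofReal_mul (inv_pos.2 hc0).le]
    rw [ENNReal.ofReal_le_one, inv_mul_le_iff₀ hc0, mul_one]
    linarith
  have h3 := memLp_one hD hF hU (α := α) hd hq hr (fun x => c⁻¹ * φ x) (hφ.const_mul c⁻¹) h1
  have h4 := h3.const_mul c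
  refine (memLp_congr_ae (Filter.Eventually.of_forall fun x => ?_)).1 h4
  rw [← integral_const_mul]
  refine integral_congr_ae (Filter.Eventually.of_forall fun y => ?_)
  show c * (c⁻¹ * φ y * _) = φ y * _
  rw [← mul_assoc, ← mul_assoc, mul_inv_cancel₀ hc0.ne', one_mul]

/-- The complex case. -/
theorem memLp_cplx (hD : Stmt_Deco) (hF : Stmt_Frk) (hU : Stmt_Uniq) {q : ℝ≥0∞} {r α : ℝ}
    (hd : 1 ≤ d) (hq : 1 ≤ q) (hr : (1 / q).toReal < r) (φ : Tor d → ℂ)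
    (hφ : MemLp φ q (mu d)) :
    MemLp (fun x => ∫ y, φ y * ((∏ i, Fr r α (x i - y i) : ℝ) : ℂ) ∂(mu d)) ⊤ (mu d) := by
  have hr0 : 0 < r := lt_of_le_of_lt ENNReal.toReal_nonneg hr
  have h1 := memLp_real hD hF hU (α := α) hd hq hr (fun x => (φ x).re) hφ.re
  have h2 := memLp_real hD hF hU (α := α) hd hq hr (fun x => (φ x).im) hφ.im
  have h3 := (h1.ofReal (K := ℂ)).add ((h2.ofReal (K := ℂ)).const_mul Complex.I)
  refine (memLp_congr_ae ?_).1 h3
  filter_upwards [CPLX_.conv_int hF d r α hr0 φ (hφ.integrable hq)] with x hx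
  have h7 := integral_re (𝕜 := ℂ) hx
  have h8 := integral_im (𝕜 := ℂ) hx
  simp only [RCLike.re_to_complex, RCLike.im_to_complex, Complex.re_mul_ofReal,
    Complex.im_mul_ofReal] at h7 h8
  simp only [Pi.add_apply]
  rw [h7, h8]
  rw [mul_comm Complex.I]
  exact Complex.re_add_im _

end INCL_

end

end Pool.Agent.KW
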