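import Pool.Agent.KW.Stmts

set_option autoImplicit false

/-!
# INTP: interpolation between the classes
-/

open MeasureTheory
open scoped BigOperators ENNReal

namespace Pool.Agent.KW

namespace INTP_

theorem norm_ch {d : ℕ} (n : Fin d → ℤ) (x : Tor d) : ‖ch n x‖ = 1 := by
  unfold ch
  rw [norm_prod]
  refine Finset.prod_eq_one fun i _ => ?_
  rw [fourier_apply, Circle.norm_coe]

theorem coef_int {d : ℕ} (n : Fin d → ℤ) {f : Tor d → ℝ} (hf : Integrable f (mu d)) :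
    Integrable (fun x => ch n x * ((f x : ℝ) : ℂ)) (mu d) := by
  have h1 : Integrable (fun x => ((f x : ℝ) : ℂ)) (mu d) := hf.ofReal
  refine h1.bdd_mul (c := 1) (ch_continuous n).aestronglyMeasurable ?_
  exact Filter.Eventually.of_forall fun x => (norm_ch n x).le

theorem coef_lin {d : ℕ} (n : Fin d → ℤ) (a b : ℝ) {f g h : Tor d → ℝ}
    (hf : Integrable f (mu d)) (hg : Integrable g (mu d))
    (hh : h =ᵐ[mu d] fun x => a * f x + b * g x) :
    coef (fun x => ((h x : ℝ) : ℂ)) n =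
      a * coef (fun x => ((f x : ℝ) : ℂ)) n + b * coef (fun x => ((g x : ℝ) : ℂ)) n := by
  unfold coef
  rw [← integral_const_mul, ← integral_const_mul, ← integral_add]
  · refine integral_congr_ae ?_
    filter_upwards [hh] with x hx
    rw [hx]
    push_cast
    ring
  · exact (coef_int (-n) hf).const_mul _
  · exact (coef_int (-n) hg).const_mul _

/-- truncation -/
def cl (lam t : ℝ) : ℝ := max (-lam) (min t lam)

theorem cl_cont (lam : ℝ) : Continuous (cl lam) := by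
  unfold cl
  fun_prop

theorem cl_abs {lam : ℝ} (h : 0 ≤ lam) (t : ℝ) : |cl lam t| ≤ lam := by
  unfold cl
  rw [abs_le]
  exact ⟨le_max_left _ _, max_le (by linarith) (min_le_right _ _)⟩

theorem cl_sub {lam : ℝ} (h : 1 ≤ lam) (t s : ℝ) (hs : 1 ≤ s) :
    |t - cl lam t| ≤ lam ^ (1 - s) * |t| ^ s := by
  have h0 : 0 < lam := by linarith
  by_cases ht : |t| ≤ lam
  · have : cl lam t = t := by
      unfold cl
      rw [min_eq_left ((le_abs_self t).trans ht), max_eq_right]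
      have := neg_abs_le t
      linarith
    rw [this, sub_self, abs_zero]
    positivity
  · have ht' : lam < |t| := not_le.1 ht
    have h1 : |t - cl lam t| ≤ |t| := by
      unfold cl
      rcases le_total 0 t with h2 | h2
      · rw [abs_of_nonneg h2] at ht' ⊢
        rw [min_eq_right ht'.le, max_eq_right (by linarith), abs_of_nonneg (by linarith)]
        linarith
      · rw [abs_of_nonpos h2] at ht' ⊢
        rw [min_eq_left (by linarith), max_eq_left (by linarith), abs_of_nonpos (by linarith)]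
        linarith
    refine h1.trans ?_
    have h2 : |t| = |t| ^ (1 - s) * |t| ^ s := by
      rw [← Real.rpow_add (h0.trans ht')]
      simp
    have h3 : |t| ^ (1 - s) ≤ lam ^ (1 - s) :=
      Real.rpow_le_rpow_of_nonpos h0 ht'.le (by linarith)
    calc |t| = |t| ^ (1 - s) * |t| ^ s := h2
      _ ≤ lam ^ (1 - s) * |t| ^ s :=
        mul_le_mul_of_nonneg_right h3 (Real.rpow_nonneg (abs_nonneg _) _)

/-- the decomposition of a function of the class -/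
theorem split (h1 : Stmt_Deco) (d : ℕ) (q₀ q₁ r α lam : ℝ) (hd : 1 ≤ d) (hq0 : 1 ≤ q₀)
    (hq : q₀ < q₁) (hr : 1 / q₀ < r) (hlam : 1 ≤ lam) (f : Lp ℝ ⊤ (mu d))
    (hf : f ∈ W d (ENNReal.ofReal q₁) r α) :
    ∃ g₁ ∈ W d ⊤ r α, ∃ g₂ ∈ W d (ENNReal.ofReal q₀) r α,
      f = lam • g₁ + (lam ^ (1 - q₁ / q₀)) • g₂ := by
  obtain ⟨φ, hφ, hφ1, hφc⟩ := hf
  have hl0 : 0 < lam := by linarith
  have hq00 : 0 < q₀ := by linarith
  set μ' : ℝ := lam ^ (1 - q₁ / q₀) with hμ'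
  have hμ0 : 0 < μ' := Real.rpow_pos_of_pos hl0 _
  have hs : 1 ≤ q₁ / q₀ := by
    rw [le_div_iff₀ hq00]
    linarith
  have hqq : (1 : ℝ≥0∞) ≤ ENNReal.ofReal q₁ := by
    rw [← ENNReal.ofReal_one]
    exact ENNReal.ofReal_le_ofReal (by linarith)
  have hφi : Integrable φ (mu d) := hφ.integrable hqq
  -- the truncated part
  set φ₁ : Tor d → ℝ := fun x => lam⁻¹ * cl lam (φ x) with hφ₁
  have m1 : AEStronglyMeasurable φ₁ (mu d) :=
    ((cl_cont lam).comp_aestronglyMeasurable hφ.1).const_mul _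
  have b1 : ∀ x, ‖φ₁ x‖ ≤ 1 := by
    intro x
    rw [hφ₁, Real.norm_eq_abs, abs_mul, abs_of_pos (inv_pos.2 hl0)]
    have := cl_abs hl0.le (φ x)
    rw [inv_mul_le_iff₀ hl0]
    linarith
  have n1 : eLpNorm φ₁ ⊤ (mu d) ≤ 1 := by
    rw [eLpNorm_exponent_top, ← ENNReal.ofReal_one]
    exact eLpNormEssSup_le_of_ae_bound (Filter.Eventually.of_forall b1)
  have M1 : MemLp φ₁ ⊤ (mu d) := ⟨m1, n1.trans_lt ENNReal.one_lt_top⟩
  have i1 : Integrable φ₁ (mu d) := M1.integrable le_top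
  -- the rest
  set φ₂ : Tor d → ℝ := fun x => μ'⁻¹ * (φ x - cl lam (φ x)) with hφ₂
  have m2 : AEStronglyMeasurable φ₂ (mu d) :=
    (hφ.1.sub ((cl_cont lam).comp_aestronglyMeasurable hφ.1)).const_mul _
  have b2 : ∀ x, ‖φ₂ x‖ ≤ ‖‖φ x‖ ^ (q₁ / q₀)‖ := by
    intro x
    rw [hφ₂, Real.norm_eq_abs, abs_mul, abs_of_pos (inv_pos.2 hμ0), inv_mul_le_iff₀ hμ0]
    have h3 := cl_sub hlam (φ x) (q₁ / q₀) hs
    rw [Real.norm_eq_abs, Real.norm_eq_abs, abs_of_nonneg (Real.rpow_nonneg (abs_nonneg _) _)]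
    exact h3
  have n2 : eLpNorm φ₂ (ENNReal.ofReal q₀) (mu d) ≤ 1 := by
    refine (eLpNorm_mono b2).trans ?_
    rw [eLpNorm_norm_rpow φ (by linarith), ← ENNReal.ofReal_mul hq00.le,
      mul_div_cancel₀ _ hq00.ne']
    calc eLpNorm φ (ENNReal.ofReal q₁) (mu d) ^ (q₁ / q₀) ≤ 1 ^ (q₁ / q₀) :=
          ENNReal.rpow_le_rpow hφ1 (by linarith)
      _ = 1 := ENNReal.one_rpow _
  have M2 : MemLp φ₂ (ENNReal.ofReal q₀) (mu d) := ⟨m2, n2.trans_lt ENNReal.one_lt_top⟩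
  -- the function g₁
  have n1' : eLpNorm φ₁ (ENNReal.ofReal q₀) (mu d) ≤ 1 :=
    (eLpNorm_le_eLpNorm_of_exponent_le le_top m1).trans n1
  obtain ⟨C, η, hC, hη, hdec⟩ := h1 d q₀ r α hd hq0 hr
  obtain ⟨g₁, hg₁, -⟩ := hdec φ₁ ⟨m1, n1'.trans_lt ENNReal.one_lt_top⟩ n1'
  refine ⟨g₁, ⟨φ₁, M1, n1, hg₁⟩, μ'⁻¹ • (f - lam • g₁), ⟨φ₂, M2, n2, fun n => ?_⟩, ?_⟩
  · have hfi : Integrable (fun x => f x) (mu d) := (Lp.memLp f).integrable le_top
    have hgi : Integrable (fun x => g₁ x) (mu d) := (Lp.memLp g₁).integrable le_top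
    have e1 : (fun x => (μ'⁻¹ • (f - lam • g₁) : Lp ℝ ⊤ (mu d)) x) =ᵐ[mu d]
        fun x => μ'⁻¹ * f x + (-(μ'⁻¹ * lam)) * g₁ x := by
      filter_upwards [Lp.coeFn_smul μ'⁻¹ (f - lam • g₁), Lp.coeFn_sub f (lam • g₁),
        Lp.coeFn_smul lam g₁] with x h3 h4 h5
      rw [h3, Pi.smul_apply, h4, Pi.sub_apply, h5, Pi.smul_apply, smul_eq_mul, smul_eq_mul]
      ring
    have e2 : φ₂ =ᵐ[mu d] fun x => μ'⁻¹ * φ x + (-(μ'⁻¹ * lam)) * φ₁ x := by
      refine Filter.Eventually.of_forall fun x => ?_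
      simp only [hφ₂, hφ₁]
      have : lam * lam⁻¹ = 1 := mul_inv_cancel₀ hl0.ne'
      calc μ'⁻¹ * (φ x - cl lam (φ x)) = μ'⁻¹ * φ x + -μ'⁻¹ * (1 * cl lam (φ x)) := by ring
        _ = μ'⁻¹ * φ x + -μ'⁻¹ * ((lam * lam⁻¹) * cl lam (φ x)) := by rw [this]
        _ = _ := by ring
    rw [coef_lin n _ _ hfi hgi e1, coef_lin n _ _ hφi i1 e2, hφc n, hg₁ n]
    ring
  · rw [smul_smul, mul_inv_cancel₀ hμ0.ne', one_smul]
    abel

theorem edist_comb {X : Type} [NormedAddCommGroup X] [NormedSpace ℝ X] (a b : ℝ) (ha : 0 ≤ a)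
    (hb : 0 ≤ b) (f g u v : X) : edist (a • f + b • g) (a • u + b • v) ≤
      ENNReal.ofReal a * edist f u + ENNReal.ofReal b * edist g v := by
  have h : ∀ (c : ℝ) (x y : X), 0 ≤ c → edist (c • x) (c • y) = ENNReal.ofReal c * edist x y := by
    intro c x y hc
    rw [edist_smul₀, ENNReal.smul_def, smul_eq_mul, ENNReal.ofReal, Real.toNNReal_of_nonneg hc]
    congr 2
    ext
    simp [abs_of_nonneg hc]
  refine (edist_add_add_le _ _ _ _).trans ?_
  rw [h a _ _ ha, h b _ _ hb]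

theorem infEDist_comb {X : Type} [NormedAddCommGroup X] [NormedSpace ℝ X] (a b : ℝ) (ha : 0 < a)
    (hb : 0 < b) (f g : X) (U V : Submodule ℝ X) :
    Metric.infEDist (a • f + b • g) ((U ⊔ V : Submodule ℝ X) : Set X) ≤
      ENNReal.ofReal a * Metric.infEDist f (U : Set X) +
        ENNReal.ofReal b * Metric.infEDist g (V : Set X) := by
  have ha0 : ENNReal.ofReal a ≠ 0 := by simpa using ha
  have hb0 : ENNReal.ofReal b ≠ 0 := by simpa using hb
  unfold Metric.infEDist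
  simp only [ENNReal.mul_iInf_of_ne ha0 ENNReal.ofReal_ne_top,
    ENNReal.mul_iInf_of_ne hb0 ENNReal.ofReal_ne_top, ENNReal.iInf_add, ENNReal.add_iInf]
  refine le_iInf fun v => le_iInf fun hv => le_iInf fun u => le_iInf fun hu => ?_
  refine (iInf₂_le (a • u + b • v) ?_).trans (edist_comb a b ha.le hb.le f g u v)
  exact Submodule.add_mem_sup (U.smul_mem a hu) (V.smul_mem b hv)

end INTP_

theorem intp_proof (h1 : Stmt_Deco) (_h2 : Stmt_Mono) : Stmt_Intp := by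
  intro d q₀ q₁ r α lam m hd hq0 hq hr hlam
  have hl0 : 0 < lam := by linarith
  have hμ0 : 0 < lam ^ (1 - q₁ / q₀) := Real.rpow_pos_of_pos hl0 _
  have ha0 : ENNReal.ofReal lam ≠ 0 := by simpa using hl0
  have hb0 : ENNReal.ofReal (lam ^ (1 - q₁ / q₀)) ≠ 0 := by simpa using hμ0
  unfold kol
  simp only [ENNReal.mul_iInf_of_ne ha0 ENNReal.ofReal_ne_top,
    ENNReal.mul_iInf_of_ne hb0 ENNReal.ofReal_ne_top, ENNReal.iInf_add, ENNReal.add_iInf]
  refine le_iInf fun V => le_iInf fun U => ?_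
  have hU1 := U.2.1
  have hV1 := V.2.1
  have hfr : Module.finrank ℝ ((U.1 ⊔ V.1 : Submodule ℝ (Lp ℝ ⊤ (mu d)))) ≤ 2 * m := by
    have h3 := Submodule.finrank_add_le_finrank_add_finrank U.1 V.1
    have h4 := U.2.2
    have h5 := V.2.2
    omega
  refine (iInf_le _ ⟨U.1 ⊔ V.1, inferInstance, hfr⟩).trans ?_
  refine iSup₂_le fun f hf => ?_
  obtain ⟨g₁, hg₁, g₂, hg₂, rfl⟩ := INTP_.split h1 d q₀ q₁ r α lam hd hq0 hq hr hlam f hf
  refine (INTP_.infEDist_comb _ _ hl0 hμ0 g₁ g₂ U.1 V.1).trans ?_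
  have e1 : Metric.infEDist g₁ ((U : Submodule ℝ (Lp ℝ ⊤ (mu d))) : Set (Lp ℝ ⊤ (mu d))) ≤
      ⨆ f ∈ W d ⊤ r α, Metric.infEDist f (U : Submodule ℝ (Lp ℝ ⊤ (mu d))) :=
    le_iSup₂_of_le g₁ hg₁ le_rfl
  have e2 : Metric.infEDist g₂ ((V : Submodule ℝ (Lp ℝ ⊤ (mu d))) : Set (Lp ℝ ⊤ (mu d))) ≤
      ⨆ f ∈ W d (ENNReal.ofReal q₀) r α, Metric.infEDist f (V : Submodule ℝ (Lp ℝ ⊤ (mu d))) :=
    le_iSup₂_of_le g₂ hg₂ le_rfl
  exact add_le_add (mul_le_mul' le_rfl e1) (mul_le_mul' le_rfl e2)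

end Pool.Agent.KW
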