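import Pool.Agent.KW.Stmts

set_option autoImplicit false

/-!
# KW, module JL: the Johnson-Lindenstrauss lemma with signs
-/

open scoped BigOperators

namespace Pool.Agent.KW

namespace JL_

theorem exp_eighth : Real.exp (1 / 8) ≤ 32 / 27 := by
  by_contra h
  push Not at h
  have h1 : (32 / 27 : ℝ) ^ 8 < Real.exp (1 / 8) ^ 8 := pow_lt_pow_left₀ h (by norm_num) (by norm_num)
  rw [← Real.exp_nat_mul] at h1
  have h2 := Real.exp_one_lt_d9
  norm_num at h1
  linarith

theorem exp_q : (2 : ℝ) ≤ Real.exp (15 / 16) := by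
  have := Real.quadratic_le_exp_of_nonneg (show (0 : ℝ) ≤ 15 / 16 by norm_num)
  norm_num at this
  linarith

/-- the sum of an exponential over all sign matrices. -/
theorem sum_exp {ι : Type} [Fintype ι] [DecidableEq ι] (m : ℕ) (t : ℝ) (w : ι → ℝ) :
    ∑ ε : Fin m → ι → Bool, Real.exp (t * ∑ j, (∑ i, sgn (ε j i) * w i) ^ 2) =
      (∑ e : ι → Bool, Real.exp (t * (∑ i, sgn (e i) * w i) ^ 2)) ^ m := by
  rw [Fintype.sum_pow]
  refine Finset.sum_congr rfl fun ε _ => ?_
  rw [Finset.mul_sum, Real.exp_sum]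

theorem one_w {ι : Type} [Fintype ι] [DecidableEq ι] (hS : Stmt_SgnM) (m : ℕ) (w : ι → ℝ)
    (hw : 0 < ∑ i, w i ^ 2) :
    ∑ ε : Fin m → ι → Bool,
      (Real.exp (m / 16 - (∑ j, (∑ i, sgn (ε j i) * w i) ^ 2) / (4 * ∑ i, w i ^ 2)) +
        Real.exp ((∑ j, (∑ i, sgn (ε j i) * w i) ^ 2) / (4 * ∑ i, w i ^ 2) - m)) ≤
      (Fintype.card (ι → Bool) : ℝ) ^ m *
        (Real.exp (m / 16) * (27 / 32) ^ m + Real.exp (-m) * 2 ^ m) := by
  set s := ∑ i, w i ^ 2 with hs
  set u : ι → ℝ := fun i => w i / Real.sqrt s with hu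
  have hsq : 0 < Real.sqrt s := Real.sqrt_pos.mpr hw
  have hss : Real.sqrt s ^ 2 = s := Real.sq_sqrt hw.le
  have hu1 : ∑ i, u i ^ 2 = 1 := by
    simp only [hu, div_pow]
    rw [← Finset.sum_div, hss, ← hs, div_self hw.ne']
  have hX : ∀ e : ι → Bool, (∑ i, sgn (e i) * u i) ^ 2 = (∑ i, sgn (e i) * w i) ^ 2 / s := by
    intro e
    have : ∑ i, sgn (e i) * u i = (∑ i, sgn (e i) * w i) / Real.sqrt s := by
      rw [Finset.sum_div]
      refine Finset.sum_congr rfl fun i _ => ?_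
      simp only [hu]; ring
    rw [this, div_pow, hss]
  obtain ⟨h1, h2⟩ := hS ι u hu1
  have hK : (0 : ℝ) < (Fintype.card (ι → Bool) : ℝ) := by
    exact_mod_cast Fintype.card_pos
  unfold avg at h1 h2
  rw [div_le_iff₀ hK] at h1 h2
  have e1 : ∀ ε : Fin m → ι → Bool,
      Real.exp (m / 16 - (∑ j, (∑ i, sgn (ε j i) * w i) ^ 2) / (4 * s)) =
        Real.exp (m / 16) * Real.exp ((-(1 / (4 * s))) * ∑ j, (∑ i, sgn (ε j i) * w i) ^ 2) := by
    intro ε
    rw [← Real.exp_add]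
    congr 1
    ring
  have e2 : ∀ ε : Fin m → ι → Bool,
      Real.exp ((∑ j, (∑ i, sgn (ε j i) * w i) ^ 2) / (4 * s) - m) =
        Real.exp (-m) * Real.exp ((1 / (4 * s)) * ∑ j, (∑ i, sgn (ε j i) * w i) ^ 2) := by
    intro ε
    rw [← Real.exp_add]
    congr 1
    ring
  rw [Finset.sum_add_distrib]
  simp only [e1, e2]
  rw [← Finset.mul_sum, ← Finset.mul_sum, sum_exp, sum_exp]
  have g1 : ∑ e : ι → Bool, Real.exp (-(1 / (4 * s)) * (∑ i, sgn (e i) * w i) ^ 2) ≤
      27 / 32 * (Fintype.card (ι → Bool) : ℝ) := by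
    refine le_trans (le_of_eq ?_) h1
    refine Finset.sum_congr rfl fun e _ => ?_
    show _ = Real.exp _
    rw [hX]
    congr 1
    field_simp
  have g2 : ∑ e : ι → Bool, Real.exp ((1 / (4 * s)) * (∑ i, sgn (e i) * w i) ^ 2) ≤
      2 * (Fintype.card (ι → Bool) : ℝ) := by
    refine le_trans (le_of_eq ?_) h2
    refine Finset.sum_congr rfl fun e _ => ?_
    show _ = Real.exp _
    rw [hX]
    congr 1
    field_simp
  have g1' := pow_le_pow_left₀ (Finset.sum_nonneg fun e _ => (Real.exp_pos _).le) g1 m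
  have g2' := pow_le_pow_left₀ (Finset.sum_nonneg fun e _ => (Real.exp_pos _).le) g2 m
  rw [mul_pow] at g1' g2'
  have p1 := mul_le_mul_of_nonneg_left g1' (Real.exp_pos ((m : ℝ) / 16)).le
  have p2 := mul_le_mul_of_nonneg_left g2' (Real.exp_pos (-(m : ℝ))).le
  calc _ ≤ _ := add_le_add p1 p2
    _ = _ := by ring

end JL_

open JL_ in
theorem jl_proof (hS : Stmt_SgnM) : Stmt_JL := by
  intro ι _ _ m S hcard
  classical
  by_contra hcon
  push Not at hcon
  -- for every sign matrix there is a bad vector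
  set f : (ι → ℝ) → (Fin m → ι → Bool) → ℝ := fun w ε =>
    if 0 < ∑ i, w i ^ 2 then
      Real.exp (m / 16 - (∑ j, (∑ i, sgn (ε j i) * w i) ^ 2) / (4 * ∑ i, w i ^ 2)) +
        Real.exp ((∑ j, (∑ i, sgn (ε j i) * w i) ^ 2) / (4 * ∑ i, w i ^ 2) - m)
    else 0 with hf
  have hf0 : ∀ w ε, 0 ≤ f w ε := by
    intro w ε
    simp only [hf]
    split_ifs
    · positivity
    · exact le_rfl
  have hbad : ∀ ε : Fin m → ι → Bool, 1 < ∑ w ∈ S, f w ε := by
    intro ε
    obtain ⟨w, hw, hb⟩ := hcon (fun j i => sgn (ε j i))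
    refine lt_of_lt_of_le ?_ (Finset.single_le_sum (fun w _ => hf0 w ε) hw)
    have hpos : 0 < ∑ i, w i ^ 2 := by
      by_contra h0
      have h0' : ∑ i, w i ^ 2 = 0 :=
        le_antisymm (not_lt.mp h0) (Finset.sum_nonneg fun i _ => sq_nonneg _)
      have hz : ∀ i, w i = 0 := by
        intro i
        have := (Finset.sum_eq_zero_iff_of_nonneg (fun i _ => sq_nonneg (w i))).mp h0' i
          (Finset.mem_univ i)
        exact pow_eq_zero_iff (two_ne_zero) |>.mp this
      have h3 := hb (by simp [hz])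
      simp [hz] at h3
    simp only [hf, if_pos hpos]
    by_cases hlow : (m : ℝ) / 4 * ∑ i, w i ^ 2 ≤ ∑ j, (∑ i, sgn (ε j i) * w i) ^ 2
    · have hup := hb hlow
      have : (0 : ℝ) < (∑ j, (∑ i, sgn (ε j i) * w i) ^ 2) / (4 * ∑ i, w i ^ 2) - m := by
        rw [sub_pos, lt_div_iff₀ (by positivity)]
        linarith
      have h1 := Real.one_lt_exp_iff.mpr this
      have h2 := Real.exp_pos (m / 16 - (∑ j, (∑ i, sgn (ε j i) * w i) ^ 2) / (4 * ∑ i, w i ^ 2))
      linarith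
    · push Not at hlow
      have : (0 : ℝ) < m / 16 - (∑ j, (∑ i, sgn (ε j i) * w i) ^ 2) / (4 * ∑ i, w i ^ 2) := by
        rw [sub_pos, div_lt_iff₀ (by positivity)]
        linarith
      have h1 := Real.one_lt_exp_iff.mpr this
      have h2 := Real.exp_pos ((∑ j, (∑ i, sgn (ε j i) * w i) ^ 2) / (4 * ∑ i, w i ^ 2) - m)
      linarith
  have hlt : ∑ ε : Fin m → ι → Bool, (1 : ℝ) < ∑ ε : Fin m → ι → Bool, ∑ w ∈ S, f w ε :=
    Finset.sum_lt_sum_of_nonempty Finset.univ_nonempty fun ε _ => hbad ε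
  rw [Finset.sum_comm] at hlt
  set K : ℝ := (Fintype.card (ι → Bool) : ℝ) with hK
  have hKpos : 0 < K := by
    rw [hK]; exact_mod_cast Fintype.card_pos
  have hone : ∑ ε : Fin m → ι → Bool, (1 : ℝ) = K ^ m := by
    rw [Finset.sum_const, Finset.card_univ, Fintype.card_fun, Fintype.card_fin]
    simp [hK]
  set B : ℝ := Real.exp (m / 16) * (27 / 32) ^ m + Real.exp (-m) * 2 ^ m with hB
  have hw1 : ∀ w ∈ S, ∑ ε : Fin m → ι → Bool, f w ε ≤ K ^ m * B := by
    intro w _
    by_cases hpos : 0 < ∑ i, w i ^ 2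
    · simp only [hf, if_pos hpos]
      exact one_w hS m w hpos
    · simp only [hf, if_neg hpos, Finset.sum_const_zero]
      positivity
  have hsum := Finset.sum_le_sum hw1
  rw [Finset.sum_const, nsmul_eq_mul] at hsum
  -- numerical estimate
  have q1 : Real.exp (m / 16) * (Real.exp (m / 16) * (27 / 32) ^ m) ≤ 1 := by
    have : Real.exp ((m : ℝ) / 16) * (Real.exp (m / 16) * (27 / 32) ^ m) =
        (Real.exp (1 / 8) * (27 / 32)) ^ m := by
      rw [mul_pow, ← Real.exp_nat_mul, ← mul_assoc, ← Real.exp_add]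
      congr 2
      ring
    rw [this]
    refine pow_le_one₀ (by positivity) ?_
    have := exp_eighth
    linarith
  have q2 : Real.exp (m / 16) * (Real.exp (-m) * 2 ^ m) ≤ 1 := by
    have : Real.exp ((m : ℝ) / 16) * (Real.exp (-m) * 2 ^ m) =
        (Real.exp (-(15 / 16)) * 2) ^ m := by
      rw [mul_pow, ← Real.exp_nat_mul, ← mul_assoc, ← Real.exp_add]
      congr 2
      ring
    rw [this]
    refine pow_le_one₀ (by positivity) ?_
    rw [Real.exp_neg, inv_mul_le_iff₀ (Real.exp_pos _)]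
    have := exp_q
    linarith
  have hB0 : 0 ≤ B := by rw [hB]; positivity
  have hSB : (S.card : ℝ) * B ≤ 1 := by
    have h1 : 2 * (S.card : ℝ) * B ≤ Real.exp (m / 16) * B := mul_le_mul_of_nonneg_right hcard hB0
    have h2 : Real.exp (m / 16) * B ≤ 2 := by
      rw [hB, mul_add]
      linarith
    linarith
  have : (S.card : ℝ) * (K ^ m * B) ≤ K ^ m := by
    calc (S.card : ℝ) * (K ^ m * B) = K ^ m * (S.card * B) := by ring
      _ ≤ K ^ m * 1 := mul_le_mul_of_nonneg_left hSB (by positivity)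
      _ = K ^ m := mul_one _
  rw [hone] at hlt
  linarith

end Pool.Agent.KW
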