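import Pool.Agent.KW.Stmts

set_option autoImplicit false

/-!
# KW: module JOIN
-/

open scoped BigOperators

namespace Pool.Agent.KW

namespace JOIN_

theorem mem_Sh {d l : ℕ} (s : Fin d → ℕ) : s ∈ Sh d l ↔ ∑ i, s i = l := by
  unfold Sh
  rw [Finset.mem_piAntidiag]
  simp

/-- The number of shapes. -/
theorem Ln_le (d k : ℕ) (hd : 1 ≤ d) : Ln d k ≤ (k + 1) ^ (d - 1) := by
  obtain ⟨e, rfl⟩ : ∃ e, d = e + 1 := ⟨d - 1, by omega⟩
  have h : (Sh (e + 1) k).card ≤
      (Fintype.piFinset (fun _ : Fin e => Finset.range (k + 1))).card := by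
    refine Finset.card_le_card_of_injOn (fun s => Fin.tail s) ?_ ?_
    · intro s hs
      have hs' : ∑ i, s i = k := (mem_Sh s).1 hs
      rw [Finset.mem_coe, Fintype.mem_piFinset]
      intro i
      rw [Finset.mem_range]
      have h1 : s i.succ ≤ ∑ j, s j := Finset.single_le_sum (fun _ _ => Nat.zero_le _)
        (Finset.mem_univ _)
      simp only [Fin.tail]
      omega
    · intro s hs t ht hst
      have hs' : ∑ i, s i = k := (mem_Sh s).1 hs
      have ht' : ∑ i, t i = k := (mem_Sh t).1 ht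
      have hst' : Fin.tail s = Fin.tail t := hst
      have hj : ∀ j : Fin e, s j.succ = t j.succ := fun j => congrFun hst' j
      rw [Fin.sum_univ_succ] at hs' ht'
      have h2 : ∑ j : Fin e, s j.succ = ∑ j : Fin e, t j.succ :=
        Finset.sum_congr rfl (fun j _ => hj j)
      funext i
      refine Fin.cases ?_ (fun j => hj j) i
      omega
  unfold Ln
  refine h.trans (le_of_eq ?_)
  rw [Fintype.card_piFinset]
  simp

/-- The number of shapes below a given one. -/
theorem card_below (d l k : ℕ) (u : Fin d → ℕ) (hu : ∑ i, u i = l + k) :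
    ((Sh d l).filter (fun s => ∀ i, s i ≤ u i)).card ≤ min (Ln d k) (Ln d l) := by
  refine le_min ?_ (Finset.card_filter_le _ _)
  unfold Ln
  refine Finset.card_le_card_of_injOn (fun s => fun i => u i - s i) ?_ ?_
  · intro s hs
    rw [Finset.mem_coe, Finset.mem_filter] at hs
    rw [Finset.mem_coe, mem_Sh]
    have h1 : ∑ i, s i = l := (mem_Sh s).1 hs.1
    have h2 : ∑ i, (u i - s i) + ∑ i, s i = ∑ i, u i := by
      rw [← Finset.sum_add_distrib]
      exact Finset.sum_congr rfl (fun i _ => Nat.sub_add_cancel (hs.2 i))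
    show ∑ i, (u i - s i) = k
    omega
  · intro s hs t ht hst
    rw [Finset.mem_coe, Finset.mem_filter] at hs ht
    funext i
    have h3 : u i - s i = u i - t i := congrFun hst i
    have h4 := hs.2 i
    have h5 := ht.2 i
    omega

/-- The number of tuples with a given size of the join. -/
theorem card_fiber (d l q k : ℕ) :
    ((Fintype.piFinset (fun _ : Fin (q + 1) => Sh d l)).filter
      (fun t => ∑ i, ((Finset.univ.sup fun j : Fin (q + 1) => t j i) - t 0 i) = k)).card ≤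
    (Ln d l * Ln d k) * (min (Ln d k) (Ln d l)) ^ q := by
  classical
  have hsub : (Fintype.piFinset (fun _ : Fin (q + 1) => Sh d l)).filter
      (fun t => ∑ i, ((Finset.univ.sup fun j : Fin (q + 1) => t j i) - t 0 i) = k) ⊆
      (Sh d l ×ˢ Sh d k).biUnion (fun ab => Fintype.piFinset (fun j : Fin (q + 1) =>
        if j = 0 then {ab.1} else (Sh d l).filter (fun s => ∀ i, s i ≤ ab.1 i + ab.2 i))) := by
    intro t ht
    rw [Finset.mem_filter, Fintype.mem_piFinset] at ht
    obtain ⟨ht1, ht2⟩ := ht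
    rw [Finset.mem_biUnion]
    refine ⟨(t 0, fun i => (Finset.univ.sup fun j : Fin (q + 1) => t j i) - t 0 i), ?_, ?_⟩
    · rw [Finset.mem_product]
      exact ⟨ht1 0, (mem_Sh _).2 ht2⟩
    · rw [Fintype.mem_piFinset]
      intro j
      by_cases hj : j = 0
      · subst hj
        simp
      · rw [if_neg hj, Finset.mem_filter]
        refine ⟨ht1 j, fun i => ?_⟩
        have h6 : t j i ≤ Finset.univ.sup fun j : Fin (q + 1) => t j i :=
          Finset.le_sup (f := fun j : Fin (q + 1) => t j i) (Finset.mem_univ j)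
        show t j i ≤ t 0 i + ((Finset.univ.sup fun j : Fin (q + 1) => t j i) - t 0 i)
        omega
  refine (Finset.card_le_card hsub).trans ?_
  have hprod : (Sh d l ×ˢ Sh d k).card = Ln d l * Ln d k := by
    rw [Finset.card_product]
    rfl
  rw [← hprod]
  refine Finset.card_biUnion_le_card_mul _ _ _ ?_
  rintro ⟨a, b⟩ hab
  rw [Finset.mem_product] at hab
  have ha : ∑ i, a i = l := (mem_Sh a).1 hab.1
  have hb : ∑ i, b i = k := (mem_Sh b).1 hab.2
  rw [Fintype.card_piFinset, Fin.prod_univ_succ]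
  have h7 : ∀ j : Fin q, ((if (j.succ : Fin (q + 1)) = 0 then ({a} : Finset (Fin d → ℕ)) else
      (Sh d l).filter (fun s => ∀ i, s i ≤ a i + b i)) : Finset (Fin d → ℕ)).card ≤
      min (Ln d k) (Ln d l) := by
    intro j
    rw [if_neg (Fin.succ_ne_zero j)]
    refine card_below d l k (fun i => a i + b i) ?_
    rw [Finset.sum_add_distrib, ha, hb]
  rw [if_pos rfl, Finset.card_singleton, one_mul]
  calc _ ≤ ∏ _j : Fin q, min (Ln d k) (Ln d l) := Finset.prod_le_prod' (fun j _ => h7 j)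
    _ = (min (Ln d k) (Ln d l)) ^ q := by
      rw [Finset.prod_const, Finset.card_univ, Fintype.card_fin]

end JOIN_

open JOIN_ in
theorem join_proof : Stmt_Join := by
  intro d l p hd hp
  obtain ⟨q, rfl⟩ : ∃ q, p = q + 1 := ⟨p - 1, by omega⟩
  set T := Fintype.piFinset (fun _ : Fin (q + 1) => Sh d l) with hT
  -- the size of the join minus the first shape
  have hle : ∀ t ∈ T, ∀ j i, t j i ≤ l := by
    intro t ht j i
    rw [hT, Fintype.mem_piFinset] at ht
    have h1 : ∑ i, t j i = l := (mem_Sh _).1 (ht j)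
    have h2 : t j i ≤ ∑ i, t j i := Finset.single_le_sum (f := fun i => t j i)
      (fun _ _ => Nat.zero_le _) (Finset.mem_univ i)
    omega
  have hmaps : ∀ t ∈ T, (∑ i, ((Finset.univ.sup fun j : Fin (q + 1) => t j i) - t 0 i)) ∈
      Finset.range (d * l + 1) := by
    intro t ht
    rw [Finset.mem_range]
    have h3 : ∑ i : Fin d, ((Finset.univ.sup fun j : Fin (q + 1) => t j i) - t 0 i) ≤
        ∑ _i : Fin d, l := by
      refine Finset.sum_le_sum (fun i _ => ?_)
      have h4 : (Finset.univ.sup fun j : Fin (q + 1) => t j i) ≤ l :=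
        Finset.sup_le (fun j _ => hle t ht j i)
      omega
    rw [Finset.sum_const, Finset.card_univ, Fintype.card_fin, smul_eq_mul] at h3
    omega
  have hF : ∀ t ∈ T, ∏ i : Fin d, ((2 : ℝ) ^ (Finset.univ.sup fun j : Fin (q + 1) => t j i))⁻¹ =
      ((2 : ℝ) ^ l)⁻¹ *
        ((2 : ℝ) ^ (∑ i, ((Finset.univ.sup fun j : Fin (q + 1) => t j i) - t 0 i)))⁻¹ := by
    intro t ht
    rw [Finset.prod_inv_distrib, Finset.prod_pow_eq_pow_sum, ← mul_inv, ← pow_add]
    congr 2
    have h5 := ht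
    rw [hT, Fintype.mem_piFinset] at h5
    have h6 : ∑ i, t 0 i = l := (mem_Sh _).1 (h5 0)
    rw [← h6, ← Finset.sum_add_distrib]
    refine Finset.sum_congr rfl (fun i _ => ?_)
    have h7 : t 0 i ≤ Finset.univ.sup fun j : Fin (q + 1) => t j i :=
      Finset.le_sup (f := fun j : Fin (q + 1) => t j i) (Finset.mem_univ 0)
    omega
  rw [Finset.sum_congr rfl hF, ← Finset.sum_fiberwise_of_maps_to hmaps, Finset.mul_sum]
  refine Finset.sum_le_sum (fun k _ => ?_)
  have h8 : ∑ t ∈ T.filter (fun t =>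
      (∑ i, ((Finset.univ.sup fun j : Fin (q + 1) => t j i) - t 0 i)) = k),
      ((2 : ℝ) ^ l)⁻¹ *
        ((2 : ℝ) ^ (∑ i, ((Finset.univ.sup fun j : Fin (q + 1) => t j i) - t 0 i)))⁻¹ =
      ((T.filter (fun t =>
        (∑ i, ((Finset.univ.sup fun j : Fin (q + 1) => t j i) - t 0 i)) = k)).card : ℝ) *
        (((2 : ℝ) ^ l)⁻¹ * ((2 : ℝ) ^ k)⁻¹) := by
    rw [← nsmul_eq_mul, ← Finset.sum_const]
    refine Finset.sum_congr rfl (fun t ht => ?_)
    rw [(Finset.mem_filter.1 ht).2]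
  rw [h8]
  have h9 : ((T.filter (fun t =>
        (∑ i, ((Finset.univ.sup fun j : Fin (q + 1) => t j i) - t 0 i)) = k)).card : ℝ) ≤
      ((Ln d l : ℝ) * (Ln d k : ℝ)) * (min (Ln d k : ℝ) (Ln d l : ℝ)) ^ q := by
    have h10 := card_fiber d l q k
    rw [← hT] at h10
    have h11 : ((T.filter (fun t =>
        (∑ i, ((Finset.univ.sup fun j : Fin (q + 1) => t j i) - t 0 i)) = k)).card : ℝ) ≤
        (((Ln d l * Ln d k) * (min (Ln d k) (Ln d l)) ^ q : ℕ) : ℝ) := by
      exact_mod_cast h10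
    refine h11.trans (le_of_eq ?_)
    push_cast
    rfl
  have hk : (Ln d k : ℝ) ≤ ((k : ℝ) + 1) ^ (d - 1) := by
    exact_mod_cast Ln_le d k hd
  have h12 : (min (Ln d k : ℝ) (Ln d l : ℝ)) ^ q ≤
      (min (((k : ℝ) + 1) ^ (d - 1)) (Ln d l)) ^ q :=
    pow_le_pow_left₀ (le_min (Nat.cast_nonneg _) (Nat.cast_nonneg _)) (min_le_min hk le_rfl) q
  have h13 : (0 : ℝ) ≤ ((2 : ℝ) ^ l)⁻¹ * ((2 : ℝ) ^ k)⁻¹ := by positivity
  calc _ ≤ (((Ln d l : ℝ) * (Ln d k : ℝ)) * (min (Ln d k : ℝ) (Ln d l : ℝ)) ^ q) *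
        (((2 : ℝ) ^ l)⁻¹ * ((2 : ℝ) ^ k)⁻¹) := mul_le_mul_of_nonneg_right h9 h13
    _ ≤ (((Ln d l : ℝ) * ((k : ℝ) + 1) ^ (d - 1)) *
          (min (((k : ℝ) + 1) ^ (d - 1)) (Ln d l)) ^ q) *
        (((2 : ℝ) ^ l)⁻¹ * ((2 : ℝ) ^ k)⁻¹) := by
      refine mul_le_mul_of_nonneg_right ?_ h13
      refine mul_le_mul (mul_le_mul_of_nonneg_left hk (Nat.cast_nonneg _)) h12 ?_ ?_
      · exact pow_nonneg (le_min (Nat.cast_nonneg _) (Nat.cast_nonneg _)) q
      · positivity
    _ = _ := by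
      rw [Nat.add_sub_cancel]
      ring

end Pool.Agent.KW
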