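import Pool.Agent.KW.Stmts

set_option autoImplicit false

/-!
# KW, module KAPC: the Fourier coefficients of the test functions
-/

open MeasureTheory
open scoped BigOperators ENNReal

namespace Pool.Agent.KW

noncomputable section

namespace KAPC_

theorem integrable_cont {d : ℕ} {f : Tor d → ℂ} (hf : Continuous f) : Integrable f (mu d) :=
  hf.integrable_of_hasCompactSupport (HasCompactSupport.of_compactSpace f)

theorem coef_sum {d : ℕ} {ι : Type} (S : Finset ι) (F : ι → Tor d → ℂ)
    (hF : ∀ i ∈ S, Continuous (F i)) (n : Fin d → ℤ) :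
    coef (fun x => ∑ i ∈ S, F i x) n = ∑ i ∈ S, coef (F i) n := by
  unfold coef
  simp_rw [Finset.mul_sum]
  exact integral_finsetSum S fun i hi => integrable_cont ((ch_continuous (-n)).mul (hF i hi))

theorem coef_smul {d : ℕ} (c : ℂ) (F : Tor d → ℂ) (n : Fin d → ℤ) :
    coef (fun x => c * F x) n = c * coef F n := by
  unfold coef
  rw [← integral_const_mul]
  congr 1
  funext x
  ring

theorem ker_cont (ρ θ : ℝ) (s : ℕ) : Continuous (ker ρ θ s) := by
  unfold ker
  refine Complex.continuous_re.comp (continuous_finsetSum _ fun k _ => ?_)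
  exact continuous_const.mul (fourier k).continuous

/-- One term of the test function. -/
def term {d : ℕ} (ρ θ : ℝ) (s : Fin d → ℕ) (y x : Tor d) : ℂ :=
  ((∏ i, ker ρ θ (s i) (x i - y i) : ℝ) : ℂ)

theorem term_cont {d : ℕ} (ρ θ : ℝ) (s : Fin d → ℕ) (y : Tor d) :
    Continuous (term ρ θ s y) := by
  unfold term
  refine Complex.continuous_ofReal.comp (continuous_finsetProd _ fun i _ => ?_)
  exact (ker_cont ρ θ (s i)).comp ((continuous_apply i).sub continuous_const)

/-- The Fourier coefficient of the test function as a sum. -/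
theorem coef_TS {d N M : ℕ} [NeZero M] (b : ℕ → ℝ) (h : ℕ) (ρ θ : ℝ)
    (ω : Fin N → (Fin d → ZMod M) × Bool) (n : Fin d → ℤ) :
    coef (fun x => ((TS (kap d b h ρ θ) ω x : ℝ) : ℂ)) n =
      ∑ j, (sgn (ω j).2 : ℂ) * ∑ l ∈ Finset.range (h + 1), (b l : ℂ) *
        ∑ s ∈ Sh d l, coef (term ρ θ s (grd M (ω j).1)) n := by
  have e : (fun x : Tor d => ((TS (kap d b h ρ θ) ω x : ℝ) : ℂ)) = fun x =>
      ∑ j, (sgn (ω j).2 : ℂ) * ∑ l ∈ Finset.range (h + 1), (b l : ℂ) *
        ∑ s ∈ Sh d l, term ρ θ s (grd M (ω j).1) x := by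
    funext x
    unfold TS kap term
    push_cast
    rfl
  have c3 : ∀ (j : Fin N) (l : ℕ), Continuous fun x : Tor d =>
      ∑ s ∈ Sh d l, term ρ θ s (grd M (ω j).1) x := fun j l =>
    continuous_finsetSum _ fun s _ => term_cont ρ θ s _
  have c2 : ∀ (j : Fin N), Continuous fun x : Tor d =>
      ∑ l ∈ Finset.range (h + 1), (b l : ℂ) * ∑ s ∈ Sh d l, term ρ θ s (grd M (ω j).1) x :=
    fun j => continuous_finsetSum _ fun l _ => continuous_const.mul (c3 j l)
  rw [e]
  refine (coef_sum Finset.univ (fun j x => (sgn (ω j).2 : ℂ) *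
    ∑ l ∈ Finset.range (h + 1), (b l : ℂ) * ∑ s ∈ Sh d l, term ρ θ s (grd M (ω j).1) x)
    (fun j _ => continuous_const.mul (c2 j)) n).trans ?_
  refine Finset.sum_congr rfl fun j _ => ?_
  refine (coef_smul _ _ n).trans ?_
  congr 1
  refine (coef_sum (Finset.range (h + 1)) (fun l x => (b l : ℂ) *
    ∑ s ∈ Sh d l, term ρ θ s (grd M (ω j).1) x)
    (fun l _ => continuous_const.mul (c3 j l)) n).trans ?_
  refine Finset.sum_congr rfl fun l _ => ?_
  refine (coef_smul _ _ n).trans ?_
  congr 1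
  exact coef_sum (Sh d l) (fun s x => term ρ θ s (grd M (ω j).1) x)
    (fun s _ => term_cont ρ θ s _) n

end KAPC_

theorem kapc_proof (hK : Stmt_KCoef) (hC : Stmt_CProd) : Stmt_KapC := by
  intro d b h r α N M _ ω n
  rw [KAPC_.coef_TS, KAPC_.coef_TS, Finset.mul_sum]
  refine Finset.sum_congr rfl fun j _ => ?_
  rw [Finset.mul_sum, Finset.mul_sum, Finset.mul_sum]
  refine Finset.sum_congr rfl fun l _ => ?_
  rw [Finset.mul_sum, Finset.mul_sum, Finset.mul_sum, Finset.mul_sum, Finset.mul_sum]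
  refine Finset.sum_congr rfl fun s hs => ?_
  have hsl : ∑ i, s i = l := (Finset.mem_piAntidiag.mp hs).1
  have key : coef (KAPC_.term 0 0 s (grd M (ω j).1)) n = (∏ i, rho r α (n i)) *
      (((2 : ℝ) ^ (r * l) : ℝ) : ℂ) *
        coef (KAPC_.term r (α * Real.pi / 2) s (grd M (ω j).1)) n := by
    have h1 := hC d (fun i x => ker 0 0 (s i) (x - grd M (ω j).1 i))
      (fun i => (KAPC_.ker_cont 0 0 (s i)).comp (continuous_id.sub continuous_const)) n
    have h2 := hC d (fun i x => ker r (α * Real.pi / 2) (s i) (x - grd M (ω j).1 i))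
      (fun i => (KAPC_.ker_cont _ _ (s i)).comp (continuous_id.sub continuous_const)) n
    have h3 : coef (KAPC_.term 0 0 s (grd M (ω j).1)) n = _ := h1
    have h4 : coef (KAPC_.term r (α * Real.pi / 2) s (grd M (ω j).1)) n = _ := h2
    rw [h3, h4]
    have h5 : (((2 : ℝ) ^ (r * l) : ℝ) : ℂ) = ∏ i, (((2 : ℝ) ^ (r * s i) : ℝ) : ℂ) := by
      rw [← Complex.ofReal_prod, ← Real.rpow_sum_of_pos (by norm_num), ← Finset.mul_sum]
      congr 3
      rw [← hsl]
      push_cast
      rfl
    rw [h5, ← Finset.prod_mul_distrib, ← Finset.prod_mul_distrib]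
    refine Finset.prod_congr rfl fun i _ => ?_
    rw [hK r α (s i) (grd M (ω j).1 i) (n i), mul_assoc]
    congr 1
    rw [← integral_const_mul]
    congr 1
    funext x
    push_cast
    ring
  rw [key]
  push_cast
  ring

end

end Pool.Agent.KW
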