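import Pool.Agent.KW.Stmts

set_option autoImplicit false

/-!
# KW, module KAPE: the exponential moment of the combined kernel (convexity of cosh)
-/

open MeasureTheory
open scoped BigOperators ENNReal

namespace Pool.Agent.KW

noncomputable section

theorem KAPE_.cosh_sum {ι : Type} (s : Finset ι) (w y : ι → ℝ) (h0 : ∀ i ∈ s, 0 ≤ w i)
    (h1 : ∑ i ∈ s, w i = 1) : Real.cosh (∑ i ∈ s, w i * y i) ≤ ∑ i ∈ s, w i * Real.cosh (y i) := by
  have a1 := convexOn_exp.map_sum_le (t := s) (w := w) (p := y) h0 h1 (fun i _ => Set.mem_univ _)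
  have a2 := convexOn_exp.map_sum_le (t := s) (w := w) (p := fun i => -y i) h0 h1
    (fun i _ => Set.mem_univ _)
  simp only [smul_eq_mul] at a1 a2
  have a3 : ∑ i ∈ s, w i * -y i = -∑ i ∈ s, w i * y i := by
    rw [← Finset.sum_neg_distrib]
    exact Finset.sum_congr rfl fun i _ => by ring
  rw [a3] at a2
  rw [Real.cosh_eq]
  have a4 : ∑ i ∈ s, w i * Real.cosh (y i) =
      (∑ i ∈ s, w i * Real.exp (y i) + ∑ i ∈ s, w i * Real.exp (-y i)) / 2 := by
    rw [← Finset.sum_add_distrib, Finset.sum_div]
    refine Finset.sum_congr rfl fun i _ => ?_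
    rw [Real.cosh_eq]
    ring
  rw [a4]
  linarith

theorem KAPE_.avg_mono {ι : Type*} [Fintype ι] (f g : ι → ℝ) (h : ∀ x, f x ≤ g x) :
    avg f ≤ avg g := by
  unfold avg
  exact div_le_div_of_nonneg_right (Finset.sum_le_sum fun x _ => h x) (by positivity)

theorem KAPE_.avg_sum {ι : Type*} [Fintype ι] (s : Finset ℕ) (w : ℕ → ℝ) (f : ℕ → ι → ℝ) :
    avg (fun x => ∑ p ∈ s, w p * f p x) = ∑ p ∈ s, w p * avg (f p) := by
  unfold avg
  rw [Finset.sum_comm, Finset.sum_div]
  refine Finset.sum_congr rfl fun p _ => ?_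
  rw [← Finset.mul_sum, mul_div_assoc]

theorem kape_proof (hK : Stmt_Ker) (hO : Stmt_Orth) (hE : Stmt_ExpG) (hC : Stmt_Card) :
    Stmt_KapE := by
  intro d hd
  obtain ⟨C₀, hC₀, hker⟩ := hK 0
  obtain ⟨c₁, C₁, hc₁, hC₁, hexp⟩ := hE d hd 1 le_rfl
  have hC₀p : 0 < C₀ := by linarith
  refine ⟨c₁ / C₀ ^ d, C₁ * (C₀ ^ d) ^ 2, by positivity, by positivity, ?_⟩
  intro b h n M _ P θ hM hb hbn hP hP0 hθ hθP
  have hLpos : ∀ l, (0 : ℝ) < (Ln d l : ℝ) := by
    intro l
    obtain ⟨h1, -, -⟩ := hC d l (by omega)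
    have h2 : (0 : ℝ) < ((l : ℝ) + 1) ^ (d - 1) := by positivity
    have h3 : (0 : ℝ) < (Nat.factorial (d - 1) : ℝ) := by positivity
    by_contra h4
    have h5 : (Ln d l : ℝ) ≤ 0 := not_lt.1 h4
    nlinarith [mul_nonneg h3.le (neg_nonneg.2 h5)]
  constructor
  · unfold kap
    rw [hP]
    refine Finset.sum_congr rfl fun l _ => ?_
    congr 1
    have h1 : ∀ s ∈ Sh d l, ∏ i, ker 0 0 (s i) ((0 : Tor d) i) = 1 := by
      intro s _
      refine Finset.prod_eq_one fun i _ => ?_
      exact hO.1 (s i)
    rw [Finset.sum_congr rfl h1]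
    simp [Ln]
  · -- the one-dimensional functions
    set g : ℕ → ZMod M → ℝ := fun s y => |ker 0 0 s (gr M y)| / C₀ with hg
    have hGH : ∀ l ≤ h, GHyp 1 l M g := by
      intro l hl
      refine ⟨fun s hs y => ⟨by positivity, ?_⟩, fun s hs => ?_⟩
      · rw [hg]
        simp only
        rw [div_le_one hC₀p]
        exact (hker 0 s).1 _
      · have h1 := (hker 0 s).2 M (le_trans (Nat.pow_le_pow_right (by norm_num) (by omega)) hM)
        have h2 : avg (g s) = avg (fun y : ZMod M => |ker 0 0 s (gr M y)|) / C₀ := by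
          unfold avg
          rw [hg]
          simp only
          rw [← Finset.sum_div]
          ring
        rw [h2, one_mul, div_le_iff₀ hC₀p, mul_comm _ C₀]
        exact h1
    -- the weights
    set w : ℕ → ℝ := fun l => b l * Ln d l / P with hw
    have hw0 : ∀ l, 0 ≤ w l := fun l => div_nonneg (mul_nonneg (hb l) (hLpos l).le) hP0.le
    have hw1 : ∑ l ∈ Finset.range (h + 1), w l = 1 := by
      rw [hw]
      simp only
      rw [← Finset.sum_div, ← hP, div_self hP0.ne']
    set lam : ℕ → ℝ := fun l => C₀ ^ d * (θ * P) / Ln d l with hlam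
    have hlam0 : ∀ l, 0 ≤ lam l := fun l => by
      rw [hlam]
      simp only
      have := hLpos l
      positivity
    have hpt : ∀ x : Fin d → ZMod M, Real.cosh (θ * kap d b h 0 0 (grd M x)) - 1 ≤
        ∑ l ∈ Finset.range (h + 1), w l * (Real.cosh (lam l * Gs g l x) - 1) := by
      intro x
      set y : ℕ → ℝ := fun l => θ * P / Ln d l *
        ∑ s ∈ Sh d l, ∏ i, ker 0 0 (s i) ((grd M x) i) with hy
      have h1 : θ * kap d b h 0 0 (grd M x) = ∑ l ∈ Finset.range (h + 1), w l * y l := by
        unfold kap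
        rw [Finset.mul_sum]
        refine Finset.sum_congr rfl fun l _ => ?_
        rw [hw, hy]
        simp only
        have := (hLpos l).ne'
        have := hP0.ne'
        field_simp
      rw [h1]
      have h2 := KAPE_.cosh_sum (Finset.range (h + 1)) w y (fun l _ => hw0 l) hw1
      have h3 : ∀ l, Real.cosh (y l) ≤ Real.cosh (lam l * Gs g l x) := by
        intro l
        rw [Real.cosh_le_cosh]
        have h4 : |∑ s ∈ Sh d l, ∏ i, ker 0 0 (s i) ((grd M x) i)| ≤ C₀ ^ d * Gs g l x := by
          unfold Gs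
          rw [Finset.mul_sum]
          refine (Finset.abs_sum_le_sum_abs _ _).trans (Finset.sum_le_sum fun s _ => ?_)
          rw [Finset.abs_prod]
          have h5 : C₀ ^ d = ∏ _i : Fin d, C₀ := by simp
          rw [h5, ← Finset.prod_mul_distrib]
          refine Finset.prod_le_prod (fun i _ => abs_nonneg _) fun i _ => le_of_eq ?_
          rw [hg]
          simp only [grd]
          field_simp
        have h6 : 0 ≤ Gs g l x := by
          unfold Gs
          refine Finset.sum_nonneg fun s _ => Finset.prod_nonneg fun i _ => ?_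
          rw [hg]
          simp only
          positivity
        have h7 : 0 ≤ lam l * Gs g l x := mul_nonneg (hlam0 l) h6
        have h9 : 0 ≤ θ * P / Ln d l := by
          have := hLpos l
          positivity
        rw [abs_of_nonneg h7, hy]
        simp only
        rw [abs_mul, abs_of_nonneg h9]
        calc θ * P / Ln d l * |∑ s ∈ Sh d l, ∏ i, ker 0 0 (s i) ((grd M x) i)| ≤
            θ * P / Ln d l * (C₀ ^ d * Gs g l x) := mul_le_mul_of_nonneg_left h4 h9
          _ = lam l * Gs g l x := by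
            rw [hlam]
            ring
      have h10 : ∑ l ∈ Finset.range (h + 1), w l * Real.cosh (y l) ≤
          ∑ l ∈ Finset.range (h + 1), w l * Real.cosh (lam l * Gs g l x) :=
        Finset.sum_le_sum fun l _ => mul_le_mul_of_nonneg_left (h3 l) (hw0 l)
      have h11 : ∑ l ∈ Finset.range (h + 1), w l * (Real.cosh (lam l * Gs g l x) - 1) =
          ∑ l ∈ Finset.range (h + 1), w l * Real.cosh (lam l * Gs g l x) - 1 := by
        simp only [mul_sub, mul_one]
        rw [Finset.sum_sub_distrib, hw1]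
      rw [h11]
      linarith
    refine (KAPE_.avg_mono _ _ hpt).trans ?_
    rw [KAPE_.avg_sum]
    set B : ℝ := C₁ * (C₀ ^ d) ^ 2 * (θ * P) ^ 2 * (((2 : ℝ) ^ n)⁻¹ * (Ln d n : ℝ)⁻¹) with hB
    have hfin : ∀ l ∈ Finset.range (h + 1),
        w l * avg (fun x : Fin d → ZMod M => Real.cosh (lam l * Gs g l x) - 1) ≤ w l * B := by
      intro l hl
      rw [Finset.mem_range] at hl
      rcases lt_or_ge l n with hln | hln
      · have : w l = 0 := by
          rw [hw]
          simp only
          rw [hbn l hln]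
          simp
        rw [this]
        simp
      · refine mul_le_mul_of_nonneg_left ?_ (hw0 l)
        have hL := hLpos l
        have hln' : (n : ℝ) ≤ l := by exact_mod_cast hln
        have h1 : lam l * Ln d l ≤ c₁ * ((l : ℝ) + 1) := by
          have h2 : lam l * Ln d l = C₀ ^ d * (θ * P) := by
            rw [hlam]
            simp only
            field_simp
          rw [h2]
          have h3 : C₀ ^ d * (θ * P) ≤ C₀ ^ d * (c₁ / C₀ ^ d * ((n : ℝ) + 1)) :=
            mul_le_mul_of_nonneg_left hθP (by positivity)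
          have h4 : C₀ ^ d * (c₁ / C₀ ^ d * ((n : ℝ) + 1)) = c₁ * ((n : ℝ) + 1) := by
            field_simp
          rw [h4] at h3
          have h5 : c₁ * ((n : ℝ) + 1) ≤ c₁ * ((l : ℝ) + 1) :=
            mul_le_mul_of_nonneg_left (by linarith) hc₁.le
          linarith
        refine (hexp l M g (hGH l (by omega)) (lam l) (hlam0 l) h1).trans ?_
        have h6 : C₁ * lam l ^ 2 * (Ln d l * ((2 : ℝ) ^ l)⁻¹) =
            C₁ * (C₀ ^ d) ^ 2 * (θ * P) ^ 2 * (((2 : ℝ) ^ l)⁻¹ * (Ln d l : ℝ)⁻¹) := by
          rw [hlam]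
          simp only
          field_simp
        rw [h6, hB]
        refine mul_le_mul_of_nonneg_left ?_ (by positivity)
        have h7 : (Ln d n : ℝ) ≤ Ln d l := by
          exact_mod_cast (hC d n (by omega)).2.2 l hln
        have h8 : (2 : ℝ) ^ n ≤ 2 ^ l := pow_le_pow_right₀ (by norm_num) hln
        have h9 := hLpos n
        refine mul_le_mul ?_ ?_ (by positivity) (by positivity)
        · exact inv_anti₀ (by positivity) h8
        · exact inv_anti₀ h9 h7
    refine (Finset.sum_le_sum hfin).trans (le_of_eq ?_)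
    rw [← Finset.sum_mul, hw1, one_mul]

end

end Pool.Agent.KW
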