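import Pool.Agent.KW.Stmts

/-!
# KCOEF: the one-dimensional kernels for `f` and `φ` are related by the multiplier `rho`
-/

set_option autoImplicit false

open MeasureTheory
open scoped BigOperators ENNReal

namespace Pool.Agent.KW

noncomputable section

namespace KCOEF_

theorem integral_fourier (n : ℤ) :
    ∫ x : UnitAddCircle, fourier n x ∂AddCircle.haarAddCircle = if n = 0 then (1 : ℂ) else 0 := by
  split_ifs with h
  · subst h
    simp
  · exact integral_eq_zero_of_add_right_eq_neg (μ := AddCircle.haarAddCircle)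
      (fourier_add_half_inv_index h (by norm_num))

theorem fourier_sub (m : ℤ) (x y : UnitAddCircle) :
    (fourier m (x - y) : ℂ) = fourier m x * fourier (-m) y := by
  rw [fourier_apply, fourier_apply, fourier_apply, sub_eq_add_neg, smul_add, smul_neg, neg_smul,
    AddCircle.toCircle_add, Circle.coe_mul]

theorem int_four (k m : ℤ) (y : UnitAddCircle) :
    ∫ x : UnitAddCircle, fourier (-k) x * fourier m (x - y) ∂AddCircle.haarAddCircle =
      if m = k then (fourier (-k) y : ℂ) else 0 := by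
  have h : ∀ x : UnitAddCircle, (fourier (-k) x * fourier m (x - y) : ℂ) =
      fourier (-k + m) x * fourier (-m) y := by
    intro x
    rw [fourier_sub, fourier_add]
    ring
  simp_rw [h]
  rw [integral_mul_const, integral_fourier]
  by_cases hm : m = k
  · subst hm
    simp
  · rw [if_neg hm, if_neg (by omega)]
    simp

theorem ker_complex (ρ θ : ℝ) (s : ℕ) (x : UnitAddCircle) :
    ((ker ρ θ s x : ℝ) : ℂ) = ∑ m ∈ Finset.Ioo ((2 : ℤ) ^ (s + 1)) (2 ^ (s + 2)),
      (((kc ρ s m / 2 : ℝ) : ℂ) * Complex.exp (θ * Complex.I) * fourier m x +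
        ((kc ρ s m / 2 : ℝ) : ℂ) * Complex.exp (-(θ * Complex.I)) * fourier (-m) x) := by
  unfold ker
  rw [Complex.re_eq_add_conj, map_sum, ← Finset.sum_add_distrib, Finset.sum_div]
  refine Finset.sum_congr rfl fun m _ => ?_
  have h1 : (starRingEnd ℂ) (Complex.exp (θ * Complex.I)) = Complex.exp (-(θ * Complex.I)) := by
    rw [← Complex.exp_conj]
    simp
  have h2 : (starRingEnd ℂ) (fourier m x : ℂ) = fourier (-m) x := by
    rw [fourier_neg]
  rw [map_mul, map_mul, h1, h2, Complex.conj_ofReal]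
  push_cast
  ring

theorem int_ker (ρ θ : ℝ) (s : ℕ) (y : UnitAddCircle) (k : ℤ) :
    ∫ x : UnitAddCircle, fourier (-k) x * ((ker ρ θ s (x - y) : ℝ) : ℂ)
        ∂AddCircle.haarAddCircle =
      ∑ m ∈ Finset.Ioo ((2 : ℤ) ^ (s + 1)) (2 ^ (s + 2)),
        (((kc ρ s m / 2 : ℝ) : ℂ) * Complex.exp (θ * Complex.I) *
            (if m = k then (fourier (-k) y : ℂ) else 0) +
          ((kc ρ s m / 2 : ℝ) : ℂ) * Complex.exp (-(θ * Complex.I)) *
            (if -m = k then (fourier (-k) y : ℂ) else 0)) := by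
  have hcont : ∀ (m j : ℤ), Integrable (fun x : UnitAddCircle =>
      (fourier j x * fourier m (x - y) : ℂ)) AddCircle.haarAddCircle := by
    intro m j
    have hc : Continuous (fun x : UnitAddCircle => (fourier j x * fourier m (x - y) : ℂ)) := by
      fun_prop
    exact hc.integrable_of_hasCompactSupport (HasCompactSupport.of_compactSpace _)
  have h : ∀ x : UnitAddCircle, fourier (-k) x * ((ker ρ θ s (x - y) : ℝ) : ℂ) =
      ∑ m ∈ Finset.Ioo ((2 : ℤ) ^ (s + 1)) (2 ^ (s + 2)),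
        (((kc ρ s m / 2 : ℝ) : ℂ) * Complex.exp (θ * Complex.I) *
            (fourier (-k) x * fourier m (x - y)) +
          ((kc ρ s m / 2 : ℝ) : ℂ) * Complex.exp (-(θ * Complex.I)) *
            (fourier (-k) x * fourier (-m) (x - y))) := by
    intro x
    rw [ker_complex, Finset.mul_sum]
    refine Finset.sum_congr rfl fun m _ => ?_
    ring
  simp_rw [h]
  rw [integral_finsetSum]
  · refine Finset.sum_congr rfl fun m _ => ?_
    rw [integral_add ((hcont m (-k)).const_mul _) ((hcont (-m) (-k)).const_mul _),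
      integral_const_mul, integral_const_mul, int_four, int_four]
  · intro m _
    exact ((hcont m (-k)).const_mul _).add ((hcont (-m) (-k)).const_mul _)

/-- the scalar identity -/
theorem kc_rel (r α : ℝ) (s : ℕ) (m : ℤ) (hm : 0 < m) :
    ((kc 0 s m / 2 : ℝ) : ℂ) = rho r α m * ((((2 : ℝ) ^ (r * s) : ℝ) : ℂ) *
      (((kc r s m / 2 : ℝ) : ℂ) * Complex.exp (((α * Real.pi / 2 : ℝ) : ℂ) * Complex.I))) ∧
    ((kc 0 s m / 2 : ℝ) : ℂ) = rho r α (-m) * ((((2 : ℝ) ^ (r * s) : ℝ) : ℂ) *
      (((kc r s m / 2 : ℝ) : ℂ) * Complex.exp (-(((α * Real.pi / 2 : ℝ) : ℂ) * Complex.I)))) := by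
  have hm' : (0 : ℝ) < (m : ℝ) := by exact_mod_cast hm
  have hp : (0 : ℝ) < (2 : ℝ) ^ s := by positivity
  have hreal : kc 0 s m = (m : ℝ) ^ (-r) * ((2 : ℝ) ^ (r * s) * kc r s m) := by
    unfold kc
    have e1 : ((m : ℝ) / 2 ^ s) ^ r = (m : ℝ) ^ r / (2 : ℝ) ^ (r * s) := by
      rw [Real.div_rpow hm'.le hp.le]
      congr 1
      rw [← Real.rpow_natCast, ← Real.rpow_mul (by norm_num), mul_comm]
    have e2 : (m : ℝ) ^ (-r) = ((m : ℝ) ^ r)⁻¹ := Real.rpow_neg hm'.le r
    have h1 : (0 : ℝ) < (m : ℝ) ^ r := Real.rpow_pos_of_pos hm' r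
    have h2 : (0 : ℝ) < (2 : ℝ) ^ (r * s) := Real.rpow_pos_of_pos (by norm_num) _
    rw [e1, e2, Real.rpow_zero]
    field_simp
  have habs : |((m : ℤ) : ℝ)| = (m : ℝ) := abs_of_pos hm'
  have hs : (SignType.sign m : ℤ) = 1 := by
    rw [sign_pos hm]; rfl
  have hsn : (SignType.sign (-m) : ℤ) = -1 := by
    rw [sign_neg (by omega : (-m) < 0)]; rfl
  constructor
  · unfold rho
    rw [if_neg (by omega : m ≠ 0), habs, hs, hreal]
    have hexp : Complex.exp (-(((1 : ℤ) : ℂ) * (α : ℂ) * (Real.pi : ℂ) / 2 * Complex.I)) *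
        Complex.exp (((α * Real.pi / 2 : ℝ) : ℂ) * Complex.I) = 1 := by
      rw [← Complex.exp_add, ← Complex.exp_zero]
      congr 1
      push_cast
      ring
    calc (((m : ℝ) ^ (-r) * ((2 : ℝ) ^ (r * s) * kc r s m) / 2 : ℝ) : ℂ)
        = ((((m : ℝ) ^ (-r) : ℝ) : ℂ) * ((((2 : ℝ) ^ (r * s) : ℝ) : ℂ) *
            (((kc r s m / 2 : ℝ) : ℂ)))) * 1 := by
          push_cast
          ring
      _ = _ := by
          rw [← hexp]
          ring
  · unfold rho
    have habs' : |(((-m : ℤ)) : ℝ)| = (m : ℝ) := by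
      push_cast
      rw [abs_neg]
      exact habs
    rw [if_neg (by omega : -m ≠ 0), habs', hsn, hreal]
    have hexp : Complex.exp (-(((-1 : ℤ) : ℂ) * (α : ℂ) * (Real.pi : ℂ) / 2 * Complex.I)) *
        Complex.exp (-(((α * Real.pi / 2 : ℝ) : ℂ) * Complex.I)) = 1 := by
      rw [← Complex.exp_add, ← Complex.exp_zero]
      congr 1
      push_cast
      ring
    calc (((m : ℝ) ^ (-r) * ((2 : ℝ) ^ (r * s) * kc r s m) / 2 : ℝ) : ℂ)
        = ((((m : ℝ) ^ (-r) : ℝ) : ℂ) * ((((2 : ℝ) ^ (r * s) : ℝ) : ℂ) *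
            (((kc r s m / 2 : ℝ) : ℂ)))) * 1 := by
          push_cast
          ring
      _ = _ := by
          rw [← hexp]
          ring

end KCOEF_

theorem kcoef_proof : Stmt_KCoef := by
  intro r α s y k
  have h1 := KCOEF_.int_ker 0 0 s y k
  have h2 := KCOEF_.int_ker r (α * Real.pi / 2) s y k
  have h3 : ∫ x : UnitAddCircle, fourier (-k) x *
      (((2 : ℝ) ^ (r * s) * ker r (α * Real.pi / 2) s (x - y) : ℝ) : ℂ)
        ∂AddCircle.haarAddCircle =
      (((2 : ℝ) ^ (r * s) : ℝ) : ℂ) * ∫ x : UnitAddCircle, fourier (-k) x *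
        ((ker r (α * Real.pi / 2) s (x - y) : ℝ) : ℂ) ∂AddCircle.haarAddCircle := by
    rw [← integral_const_mul]
    refine integral_congr_ae (Filter.Eventually.of_forall fun x => ?_)
    push_cast
    ring
  rw [h3, h1, h2, Finset.mul_sum, Finset.mul_sum]
  refine Finset.sum_congr rfl fun m hm => ?_
  have hm0 : 0 < m := by
    have := (Finset.mem_Ioo.1 hm).1
    have h2 : (0 : ℤ) < 2 ^ (s + 1) := by positivity
    omega
  obtain ⟨k1, k2⟩ := KCOEF_.kc_rel r α s m hm0
  by_cases e1 : m = k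
  · have e2 : ¬ (-m = k) := by omega
    rw [if_pos e1, if_neg e2]
    subst e1
    simp only [Complex.ofReal_zero, zero_mul, Complex.exp_zero, neg_zero, mul_one, mul_zero,
      add_zero]
    rw [k1]
    ring
  · by_cases e2 : -m = k
    · rw [if_neg e1, if_pos e2]
      subst e2
      simp only [Complex.ofReal_zero, zero_mul, Complex.exp_zero, neg_zero, mul_one, mul_zero,
        zero_add]
      rw [k2]
      ring
    · rw [if_neg e1, if_neg e2]
      simp

end

end Pool.Agent.KW
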