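import Pool.Agent.KW.Stmts

set_option autoImplicit false

/-!
# KW, module KER: bounds of the one-dimensional kernels
-/

open MeasureTheory
open scoped BigOperators ENNReal

namespace Pool.Agent.KW

namespace KER_

theorem tent_nonneg (t : ℝ) : 0 ≤ tent t := le_max_left _ _

theorem tent_le (t : ℝ) : |tent t| ≤ 1 := by
  rw [abs_of_nonneg (tent_nonneg t)]
  unfold tent
  refine max_le (by norm_num) ?_
  have := abs_nonneg (t - 3)
  linarith

theorem tent_zero (t : ℝ) (h : 1 ≤ |t - 3|) : tent t = 0 := by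
  unfold tent
  exact max_eq_left (by linarith)

theorem tent_supp (t : ℝ) (h : t < 1 / 2 ∨ 4 < t) : tent t = 0 := by
  apply tent_zero
  rcases h with h | h
  · rw [abs_sub_comm]
    exact le_trans (by linarith) (le_abs_self _)
  · exact le_trans (by linarith) (le_abs_self _)

theorem tent_lip (t u : ℝ) : |tent t - tent u| ≤ 2 * |t - u| := by
  unfold tent
  have h1 := abs_max_sub_max_le_abs (1 - |t - 3|) (1 - |u - 3|) 0
  rw [max_comm, max_comm (1 - |u - 3|)] at h1
  refine h1.trans ?_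
  have h2 : |1 - |t - 3| - (1 - |u - 3|)| ≤ |t - u| := by
    have : 1 - |t - 3| - (1 - |u - 3|) = |u - 3| - |t - 3| := by ring
    rw [this, abs_sub_comm t u]
    refine (abs_abs_sub_abs_le_abs_sub (u - 3) (t - 3)).trans (le_of_eq ?_)
    congr 1; ring
  have := abs_nonneg (t - u)
  linarith

theorem norm_fourier (k : ℤ) (x : UnitAddCircle) : ‖(fourier k x : ℂ)‖ = 1 := by
  rw [fourier_apply]; exact Circle.norm_coe _

end KER_

open KER_ in
theorem ker_proof (h1 : Stmt_Lip) (h2 : Stmt_LOne) : Stmt_Ker := by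
  intro ρ
  obtain ⟨Cr, hCr, hL⟩ := h1 ρ
  obtain ⟨hLa, hLb⟩ := hL tent tent_le tent_supp tent_lip
  obtain ⟨C0, hC0, hO⟩ := h2
  refine ⟨1 + 2 * Cr + C0 * Cr, ?_, ?_⟩
  · have : 0 < C0 * Cr := by positivity
    linarith
  intro θ s
  have h2s : (0 : ℝ) < 2 ^ s := by positivity
  set c : ℤ → ℂ := fun k => ((kc ρ s k : ℝ) : ℂ) * Complex.exp (θ * Complex.I) with hc
  have hcn : ∀ k, ‖c k‖ = |kc ρ s k| := by
    intro k
    rw [hc]
    simp only [norm_mul, Complex.norm_real, Real.norm_eq_abs]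
    rw [Complex.norm_exp_ofReal_mul_I, mul_one]
  have hkc : ∀ k, |kc ρ s k| ≤ Cr * ((2 : ℝ) ^ s)⁻¹ := by
    intro k
    unfold kc
    rw [mul_assoc, abs_mul, abs_of_pos (inv_pos.2 h2s), mul_comm]
    exact mul_le_mul_of_nonneg_right (hLa _) (inv_pos.2 h2s).le
  have hker : ∀ x, |ker ρ θ s x| ≤
      ‖∑ k ∈ Finset.Ioo ((2 : ℤ) ^ (s + 1)) (2 ^ (s + 2)), c k * fourier k x‖ := by
    intro x
    unfold ker
    exact Complex.abs_re_le_norm _
  constructor
  · intro x
    refine (hker x).trans ((norm_sum_le _ _).trans ?_)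
    have e1 : ∀ k ∈ Finset.Ioo ((2 : ℤ) ^ (s + 1)) (2 ^ (s + 2)),
        ‖c k * fourier k x‖ ≤ Cr * ((2 : ℝ) ^ s)⁻¹ := by
      intro k _
      rw [norm_mul, norm_fourier, mul_one, hcn]
      exact hkc k
    refine (Finset.sum_le_card_nsmul _ _ _ e1).trans ?_
    rw [Int.card_Ioo, nsmul_eq_mul]
    have e2 : (((2 ^ (s + 2) - 2 ^ (s + 1) - 1 : ℤ).toNat : ℕ) : ℝ) ≤ 2 * 2 ^ s := by
      have e3 : ((2 ^ (s + 2) - 2 ^ (s + 1) - 1 : ℤ).toNat : ℤ) ≤ 2 * 2 ^ s := by
        rw [Int.toNat_of_nonneg]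
        · have : (2 : ℤ) ^ (s + 2) - 2 ^ (s + 1) = 2 * 2 ^ s := by ring
          linarith
        · have : (2 : ℤ) ^ (s + 2) - 2 ^ (s + 1) = 2 * 2 ^ s := by ring
          have h1 : (1 : ℤ) ≤ 2 ^ s := one_le_pow₀ (by norm_num)
          linarith
      exact_mod_cast e3
    calc (((2 ^ (s + 2) - 2 ^ (s + 1) - 1 : ℤ).toNat : ℕ) : ℝ) * (Cr * ((2 : ℝ) ^ s)⁻¹)
        ≤ (2 * 2 ^ s) * (Cr * ((2 : ℝ) ^ s)⁻¹) :=
          mul_le_mul_of_nonneg_right e2 (by positivity)
      _ = 2 * Cr := by field_simp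
      _ ≤ 1 + 2 * Cr + C0 * Cr := by
          have : 0 < C0 * Cr := by positivity
          linarith
  · intro M _ hM
    have hM' : 4 * 2 ^ s ≤ M := by
      calc 4 * 2 ^ s = 2 ^ (s + 2) := by ring
        _ ≤ M := hM
    have hn1 : 1 ≤ 2 ^ s := Nat.one_le_two_pow
    have key := hO (2 ^ s) M ((2 : ℤ) ^ (s + 1)) c (Cr * ((2 : ℝ) ^ s)⁻¹) hn1 hM' ?_ ?_ ?_
    · have e1 : ∀ y : ZMod M, ∑ k ∈ Finset.Ioo ((2 : ℤ) ^ (s + 1)) (2 ^ (s + 2)),
          c k * fourier k (gr M y) = ∑ k ∈ Finset.Ioo ((2 : ℤ) ^ (s + 1))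
            ((2 : ℤ) ^ (s + 1) + 3 * ((2 ^ s : ℕ) : ℤ)), c k * fourier k (gr M y) := by
        intro y
        apply Finset.sum_subset
        · intro k hk
          rw [Finset.mem_Ioo] at hk ⊢
          refine ⟨hk.1, lt_of_lt_of_le hk.2 ?_⟩
          push_cast
          have : (2 : ℤ) ^ (s + 2) = 2 ^ (s + 1) + 2 * 2 ^ s := by ring
          have h1 : (0 : ℤ) < 2 ^ s := by positivity
          linarith
        · intro k _ hk
          rw [Finset.mem_Ioo, not_and_or, not_lt, not_lt] at hk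
          have : kc ρ s k = 0 := by
            unfold kc
            rw [tent_zero, mul_zero, zero_mul]
            rcases hk with hk | hk
            · have h3 : (k : ℝ) / 2 ^ s ≤ 2 := by
                rw [div_le_iff₀ h2s]
                have : (k : ℝ) ≤ ((2 ^ (s + 1) : ℤ) : ℝ) := by exact_mod_cast hk
                push_cast at this
                rw [pow_succ] at this
                linarith
              rw [abs_sub_comm]
              exact le_trans (by linarith) (le_abs_self _)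
            · have h3 : 4 ≤ (k : ℝ) / 2 ^ s := by
                rw [le_div_iff₀ h2s]
                have : ((2 ^ (s + 2) : ℤ) : ℝ) ≤ (k : ℝ) := by exact_mod_cast hk
                push_cast at this
                rw [pow_add] at this
                linarith
              exact le_trans (by linarith) (le_abs_self _)
          rw [hc]
          simp [this]
      have e2 : avg (fun y : ZMod M => |ker ρ θ s (gr M y)|) ≤
          avg (fun y : ZMod M => ‖∑ k ∈ Finset.Ioo ((2 : ℤ) ^ (s + 1))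
            ((2 : ℤ) ^ (s + 1) + 3 * ((2 ^ s : ℕ) : ℤ)), c k * fourier k (gr M y)‖) := by
        unfold avg
        apply div_le_div_of_nonneg_right _ (by positivity)
        apply Finset.sum_le_sum
        intro y _
        rw [← e1 y]
        exact hker _
      refine e2.trans (key.trans ?_)
      have : C0 * (Cr * ((2 : ℝ) ^ s)⁻¹) = (C0 * Cr) * ((2 : ℝ) ^ s)⁻¹ := by ring
      rw [this]
      exact mul_le_mul_of_nonneg_right (by linarith) (inv_pos.2 h2s).le
    · intro k hk
      have : kc ρ s k = 0 := by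
        unfold kc
        rw [tent_zero, mul_zero, zero_mul]
        rcases hk with hk | hk
        · have h3 : (k : ℝ) / 2 ^ s ≤ 2 := by
            rw [div_le_iff₀ h2s]
            have : (k : ℝ) ≤ ((2 ^ (s + 1) : ℤ) : ℝ) := by exact_mod_cast hk
            push_cast at this
            rw [pow_succ] at this
            linarith
          rw [abs_sub_comm]
          exact le_trans (by linarith) (le_abs_self _)
        · have h3 : 4 ≤ (k : ℝ) / 2 ^ s := by
            rw [le_div_iff₀ h2s]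
            have : ((2 ^ (s + 1) + 3 * ((2 ^ s : ℕ) : ℤ) : ℤ) : ℝ) ≤ (k : ℝ) := by
              exact_mod_cast hk
            push_cast at this
            rw [pow_succ] at this
            linarith
          exact le_trans (by linarith) (le_abs_self _)
      rw [hc]
      simp [this]
    · intro k
      rw [hcn]
      exact hkc k
    · intro k
      have e1 : c k - c (k - 1) = (((kc ρ s k - kc ρ s (k - 1) : ℝ)) : ℂ) *
          Complex.exp (θ * Complex.I) := by
        rw [hc]; push_cast; ring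
      rw [e1, norm_mul, Complex.norm_exp_ofReal_mul_I, mul_one, Complex.norm_real,
        Real.norm_eq_abs]
      have e2 : kc ρ s k - kc ρ s (k - 1) = ((2 : ℝ) ^ s)⁻¹ *
          (tent ((k : ℝ) / 2 ^ s) * ((k : ℝ) / 2 ^ s) ^ ρ -
            tent (((k - 1 : ℤ) : ℝ) / 2 ^ s) * (((k - 1 : ℤ) : ℝ) / 2 ^ s) ^ ρ) := by
        unfold kc; ring
      rw [e2, abs_mul, abs_of_pos (inv_pos.2 h2s)]
      have e3 := hLb ((k : ℝ) / 2 ^ s) (((k - 1 : ℤ) : ℝ) / 2 ^ s)
      have e4 : |(k : ℝ) / 2 ^ s - ((k - 1 : ℤ) : ℝ) / 2 ^ s| = ((2 : ℝ) ^ s)⁻¹ := by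
        rw [← sub_div]
        push_cast
        rw [show (k : ℝ) - (k - 1) = 1 by ring, one_div, abs_of_pos (inv_pos.2 h2s)]
      rw [e4] at e3
      calc ((2 : ℝ) ^ s)⁻¹ * _ ≤ ((2 : ℝ) ^ s)⁻¹ * (Cr * ((2 : ℝ) ^ s)⁻¹) :=
            mul_le_mul_of_nonneg_left e3 (inv_pos.2 h2s).le
        _ = Cr * ((2 : ℝ) ^ s)⁻¹ / ((2 ^ s : ℕ) : ℝ) := by
            push_cast
            field_simp

end Pool.Agent.KW
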