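import Pool.Agent.KW.Stmts

set_option autoImplicit false

/-!
# LAYB: sup norm and `L_1` norm of the layers
-/

open MeasureTheory
open scoped BigOperators ENNReal

namespace Pool.Agent.KW.LAYB_

noncomputable section

lemma blk_cont (r α : ℝ) (s : ℕ) : Continuous (blk r α s) := by
  unfold blk
  refine Complex.continuous_re.comp (continuous_finsetSum _ fun k _ => ?_)
  exact continuous_const.mul (fourier k).continuous

lemma sh_sum (d l : ℕ) (s : Fin d → ℕ) (hs : s ∈ Sh d l) : ∑ i, s i = l := by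
  unfold Sh at hs
  exact (Finset.mem_piAntidiag.1 hs).1

lemma prod_pow (d l : ℕ) (s : Fin d → ℕ) (hs : s ∈ Sh d l) (C a : ℝ) :
    ∏ i, C * (2 : ℝ) ^ (a * (s i : ℝ)) = C ^ d * (2 : ℝ) ^ (a * (l : ℝ)) := by
  rw [Finset.prod_mul_distrib, Finset.prod_const, Finset.card_univ, Fintype.card_fin,
    ← Real.rpow_sum_of_pos two_pos, ← Finset.mul_sum]
  have h : (∑ i, (s i : ℝ)) = (l : ℝ) := by
    rw [← sh_sum d l s hs]
    push_cast
    rfl
  rw [h]

lemma tens_cont (d : ℕ) (r α : ℝ) (s : Fin d → ℕ) :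
    Continuous (fun x : Tor d => ∏ i, |blk r α (s i) (x i)|) :=
  continuous_finsetProd _ fun i _ => ((blk_cont r α (s i)).comp (continuous_apply i)).abs

lemma lay_cont (d : ℕ) (r α : ℝ) (l : ℕ) : Continuous (Lay d r α l) := by
  unfold Lay
  exact continuous_finsetSum _ fun s _ => continuous_finsetProd _ fun i _ =>
    (blk_cont r α (s i)).comp (continuous_apply i)

lemma lay_le (d : ℕ) (r α : ℝ) (l : ℕ) (x : Tor d) :
    |Lay d r α l x| ≤ ∑ s ∈ Sh d l, ∏ i, |blk r α (s i) (x i)| := by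
  unfold Lay
  refine (Finset.abs_sum_le_sum_abs _ _).trans (le_of_eq ?_)
  refine Finset.sum_congr rfl fun s _ => ?_
  rw [Finset.abs_prod]

lemma cont_int {d : ℕ} (f : Tor d → ℝ) (hf : Continuous f) : Integrable f (mu d) :=
  hf.integrable_of_hasCompactSupport (HasCompactSupport.of_compactSpace f)

end

end Pool.Agent.KW.LAYB_

namespace Pool.Agent.KW

open LAYB_

theorem layb_proof (hB : Stmt_Blk) : Stmt_LayB := by
  intro d r α
  obtain ⟨C, hC1, hC⟩ := hB r α
  have hC0 : 0 ≤ C := zero_le_one.trans hC1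
  refine ⟨C ^ d, pow_pos (by linarith) d, fun l => ⟨lay_cont d r α l, fun x => ?_, ?_⟩⟩
  · refine (lay_le d r α l x).trans ?_
    have h1 : ∀ s ∈ Sh d l, ∏ i, |blk r α (s i) (x i)| ≤
        C ^ d * (2 : ℝ) ^ ((1 - r) * (l : ℝ)) := by
      intro s hs
      rw [← prod_pow d l s hs C (1 - r)]
      exact Finset.prod_le_prod (fun i _ => abs_nonneg _) fun i _ => (hC (s i)).1 (x i)
    refine (Finset.sum_le_sum h1).trans (le_of_eq ?_)
    rw [Finset.sum_const, nsmul_eq_mul]
    change (Ln d l : ℝ) * _ = _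
    ring
  · have h2 : ∫ x, |Lay d r α l x| ∂(mu d) ≤
        ∫ x, ∑ s ∈ Sh d l, ∏ i, |blk r α (s i) (x i)| ∂(mu d) := by
      refine integral_mono (cont_int _ (lay_cont d r α l).abs) (cont_int _ ?_) fun x =>
        lay_le d r α l x
      exact continuous_finsetSum _ fun s _ => tens_cont d r α s
    refine h2.trans ?_
    rw [integral_finsetSum _ fun s _ => cont_int _ (tens_cont d r α s)]
    have h3 : ∀ s ∈ Sh d l, ∫ x, ∏ i, |blk r α (s i) (x i)| ∂(mu d) ≤
        C ^ d * (2 : ℝ) ^ (-(r * (l : ℝ))) := by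
      intro s hs
      have h4 : ∫ x, ∏ i, |blk r α (s i) (x i)| ∂(mu d) =
          ∏ i, ∫ x, |blk r α (s i) x| ∂AddCircle.haarAddCircle := by
        unfold mu
        exact integral_fintype_prod_eq_prod (μ := fun _ => AddCircle.haarAddCircle)
          (fun i (y : UnitAddCircle) => |blk r α (s i) y|)
      rw [h4]
      have h5 : (2 : ℝ) ^ (-(r * (l : ℝ))) = (2 : ℝ) ^ ((-r) * (l : ℝ)) := by
        rw [neg_mul]
      rw [h5, ← prod_pow d l s hs C (-r)]
      refine Finset.prod_le_prod (fun i _ => integral_nonneg fun _ => abs_nonneg _) fun i _ => ?_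
      have h6 := (hC (s i)).2
      rwa [← neg_mul] at h6
    refine (Finset.sum_le_sum h3).trans (le_of_eq ?_)
    rw [Finset.sum_const, nsmul_eq_mul]
    change (Ln d l : ℝ) * _ = _
    ring

end Pool.Agent.KW
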