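import Pool.Agent.KW.DISC

set_option autoImplicit false

/-!
# KW, module LCIRC: the `L_1` norm on the circle is controlled by the grid
-/

open MeasureTheory
open scoped BigOperators ENNReal

namespace Pool.Agent.KW

noncomputable section

namespace LCIRC_

theorem V_cont (D : ℕ) : Continuous (DISC_.V D) := by
  unfold DISC_.V
  refine continuous_const.mul ((continuous_finsetSum _ fun i _ => ?_).mul
    (Complex.continuous_conj.comp (continuous_finsetSum _ fun i _ => ?_)))
  · exact (fourier i).continuous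
  · exact (fourier i).continuous

theorem int_cont {f : UnitAddCircle → ℝ} (hf : Continuous f) :
    Integrable f AddCircle.haarAddCircle :=
  hf.integrable_of_hasCompactSupport (HasCompactSupport.of_compactSpace f)

theorem shift (f : UnitAddCircle → ℝ) (a : UnitAddCircle) :
    ∫ x, f (x - a) ∂AddCircle.haarAddCircle = ∫ x, f x ∂AddCircle.haarAddCircle :=
  integral_sub_right_eq_self f a

theorem V_int (D : ℕ) (hD : 1 ≤ D) :
    ∫ x, ‖DISC_.V D x‖ ∂AddCircle.haarAddCircle ≤ 2 := by
  have : NeZero (4 * D) := ⟨by omega⟩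
  have hM : (0 : ℝ) < ((4 * D : ℕ) : ℝ) := by
    have : 0 < 4 * D := by omega
    exact_mod_cast this
  have h1 : ∫ x, ∑ y : ZMod (4 * D), ‖DISC_.V D (x - gr (4 * D) y)‖ ∂AddCircle.haarAddCircle =
      ((4 * D : ℕ) : ℝ) * ∫ x, ‖DISC_.V D x‖ ∂AddCircle.haarAddCircle := by
    rw [integral_finsetSum]
    · rw [Finset.sum_congr rfl fun y _ => shift (fun x => ‖DISC_.V D x‖) (gr (4 * D) y),
        Finset.sum_const, Finset.card_univ, ZMod.card, nsmul_eq_mul]
    · intro y _
      exact int_cont ((V_cont D).comp (continuous_id.sub continuous_const)).norm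
  have h2 : ∫ x, ∑ y : ZMod (4 * D), ‖DISC_.V D (x - gr (4 * D) y)‖ ∂AddCircle.haarAddCircle ≤
      2 * ((4 * D : ℕ) : ℝ) := by
    calc ∫ x, ∑ y : ZMod (4 * D), ‖DISC_.V D (x - gr (4 * D) y)‖ ∂AddCircle.haarAddCircle
        ≤ ∫ _x : UnitAddCircle, 2 * ((4 * D : ℕ) : ℝ) ∂AddCircle.haarAddCircle := by
          refine integral_mono ?_ (integrable_const _) fun x => ?_
          · exact int_cont (continuous_finsetSum _ fun y _ =>
              ((V_cont D).comp (continuous_id.sub continuous_const)).norm)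
          · exact DISC_.V_L1 D (4 * D) hD le_rfl x
      _ = 2 * ((4 * D : ℕ) : ℝ) := by
          rw [integral_const]
          simp
  rw [h1, mul_comm] at h2
  exact le_of_mul_le_mul_right h2 hM

end LCIRC_

open LCIRC_ in
theorem lcirc_proof : Stmt_LCirc := by
  intro D M _ hD hM c
  have hMpos : (0 : ℝ) < M := by exact_mod_cast Nat.pos_of_ne_zero (NeZero.ne M)
  have hMc : (M : ℂ) ≠ 0 := by exact_mod_cast NeZero.ne M
  let T : UnitAddCircle → ℂ := fun x => ∑ k ∈ Finset.Icc (-(D : ℤ)) D, c k * fourier k x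
  have hTc : Continuous T :=
    continuous_finsetSum _ fun k _ => continuous_const.mul (fourier k).continuous
  have hrep : ∀ x, ∑ y : ZMod M, T (gr M y) * DISC_.V D (x - gr M y) = M * T x := by
    intro x
    change ∑ y : ZMod M, (∑ k ∈ Finset.Icc (-(D : ℤ)) D, c k * fourier k (gr M y)) *
      DISC_.V D (x - gr M y) = M * ∑ k ∈ Finset.Icc (-(D : ℤ)) D, c k * fourier k x
    simp only [Finset.sum_mul]
    rw [Finset.sum_comm, Finset.mul_sum]
    refine Finset.sum_congr rfl fun k hk => ?_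
    rw [Finset.mem_Icc] at hk
    have h := DISC_.V_repro D M hD hM k (abs_le.mpr hk) x
    calc ∑ y : ZMod M, c k * fourier k (gr M y) * DISC_.V D (x - gr M y)
        = c k * ∑ y : ZMod M, (fourier k (gr M y) : ℂ) * DISC_.V D (x - gr M y) := by
          rw [Finset.mul_sum]
          exact Finset.sum_congr rfl fun y _ => by ring
      _ = M * (c k * fourier k x) := by rw [h]; ring
  have hpt : ∀ x, ‖T x‖ ≤ (M : ℝ)⁻¹ * ∑ y : ZMod M, ‖T (gr M y)‖ * ‖DISC_.V D (x - gr M y)‖ := by
    intro x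
    have h1 : (M : ℝ) * ‖T x‖ ≤ ∑ y : ZMod M, ‖T (gr M y)‖ * ‖DISC_.V D (x - gr M y)‖ := by
      have h2 : (M : ℝ) * ‖T x‖ = ‖(M : ℂ) * T x‖ := by
        rw [norm_mul, Complex.norm_natCast]
      rw [h2, ← hrep x]
      refine (norm_sum_le _ _).trans (le_of_eq (Finset.sum_congr rfl fun y _ => norm_mul _ _))
    calc ‖T x‖ = (M : ℝ)⁻¹ * ((M : ℝ) * ‖T x‖) := by
          rw [← mul_assoc, inv_mul_cancel₀ hMpos.ne', one_mul]
      _ ≤ _ := mul_le_mul_of_nonneg_left h1 (inv_nonneg.mpr hMpos.le)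
  have hVc : ∀ y : ZMod M, Continuous fun x : UnitAddCircle => ‖DISC_.V D (x - gr M y)‖ :=
    fun y => ((V_cont D).comp (continuous_id.sub continuous_const)).norm
  have hsum0 : 0 ≤ ∑ y : ZMod M, ‖T (gr M y)‖ := Finset.sum_nonneg fun y _ => norm_nonneg _
  change ∫ x : UnitAddCircle, ‖T x‖ ∂AddCircle.haarAddCircle ≤
    3 * avg (fun y : ZMod M => ‖T (gr M y)‖)
  calc ∫ x : UnitAddCircle, ‖T x‖ ∂AddCircle.haarAddCircle
      ≤ ∫ x : UnitAddCircle, (M : ℝ)⁻¹ * ∑ y : ZMod M, ‖T (gr M y)‖ *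
          ‖DISC_.V D (x - gr M y)‖ ∂AddCircle.haarAddCircle := by
        refine integral_mono (int_cont hTc.norm) (int_cont ?_) hpt
        exact continuous_const.mul (continuous_finsetSum _ fun y _ =>
          continuous_const.mul (hVc y))
    _ = (M : ℝ)⁻¹ * ∑ y : ZMod M, ‖T (gr M y)‖ *
          ∫ x, ‖DISC_.V D x‖ ∂AddCircle.haarAddCircle := by
        rw [integral_const_mul, integral_finsetSum]
        · congr 1
          refine Finset.sum_congr rfl fun y _ => ?_
          rw [integral_const_mul, shift (fun x => ‖DISC_.V D x‖) (gr M y)]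
        · intro y _
          exact int_cont (continuous_const.mul (hVc y))
    _ ≤ (M : ℝ)⁻¹ * ∑ y : ZMod M, ‖T (gr M y)‖ * 2 := by
        refine mul_le_mul_of_nonneg_left (Finset.sum_le_sum fun y _ => ?_)
          (inv_nonneg.mpr hMpos.le)
        exact mul_le_mul_of_nonneg_left (V_int D hD) (norm_nonneg _)
    _ ≤ 3 * avg (fun y : ZMod M => ‖T (gr M y)‖) := by
        unfold avg
        rw [ZMod.card, ← Finset.sum_mul]
        have h3 : (M : ℝ)⁻¹ * ((∑ y : ZMod M, ‖T (gr M y)‖) * 2) =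
            2 * ((∑ y : ZMod M, ‖T (gr M y)‖) / (M : ℝ)) := by
          field_simp
        rw [h3]
        exact mul_le_mul_of_nonneg_right (by norm_num) (div_nonneg hsum0 hMpos.le)

end

end Pool.Agent.KW
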