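import Pool.Agent.KW.Stmts

set_option autoImplicit false

open scoped BigOperators

namespace Pool.Agent.KW

namespace LIP_

theorem pow_le (ρ t : ℝ) (h1 : 1 / 2 ≤ t) (h2 : t ≤ 4) : t ^ ρ ≤ (4 : ℝ) ^ |ρ| := by
  have ht : 0 < t := by linarith
  rcases le_total 1 t with h | h
  · calc t ^ ρ ≤ t ^ |ρ| := Real.rpow_le_rpow_of_exponent_le h (le_abs_self ρ)
      _ ≤ (4 : ℝ) ^ |ρ| := Real.rpow_le_rpow ht.le h2 (abs_nonneg ρ)
  · have h3 : t ^ ρ = (t⁻¹) ^ (-ρ) := by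
      rw [Real.inv_rpow ht.le, Real.rpow_neg ht.le, inv_inv]
    have h4 : 1 ≤ t⁻¹ := by
      rw [le_inv_comm₀ one_pos ht, inv_one]; exact h
    have h5 : t⁻¹ ≤ 4 := by
      rw [inv_le_comm₀ ht (by norm_num)]
      linarith
    rw [h3]
    calc (t⁻¹) ^ (-ρ) ≤ (t⁻¹) ^ |ρ| :=
          Real.rpow_le_rpow_of_exponent_le h4 (neg_le_abs ρ)
      _ ≤ (4 : ℝ) ^ |ρ| := Real.rpow_le_rpow (by positivity) h5 (abs_nonneg ρ)

theorem lip_pow (ρ t u : ℝ) (ht : t ∈ Set.Icc (1 / 2 : ℝ) 4) (hu : u ∈ Set.Icc (1 / 2 : ℝ) 4) :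
    |t ^ ρ - u ^ ρ| ≤ |ρ| * (4 : ℝ) ^ |ρ - 1| * |t - u| := by
  have key := Convex.norm_image_sub_le_of_norm_hasDerivWithin_le (f := fun x : ℝ => x ^ ρ)
    (f' := fun x : ℝ => ρ * x ^ (ρ - 1)) (s := Set.Icc (1 / 2 : ℝ) 4)
    (C := |ρ| * (4 : ℝ) ^ |ρ - 1|) (x := u) (y := t)
    (fun x hx => (Real.hasDerivAt_rpow_const
      (Or.inl (by have := hx.1; linarith [this] : x ≠ 0))).hasDerivWithinAt)
    (fun x hx => by
      rw [Real.norm_eq_abs, abs_mul,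
        abs_of_nonneg (Real.rpow_nonneg (by have := hx.1; linarith) _)]
      exact mul_le_mul_of_nonneg_left (pow_le _ _ hx.1 hx.2) (abs_nonneg _))
    (convex_Icc _ _) hu ht
  simpa [Real.norm_eq_abs] using key

end LIP_

open LIP_

theorem lip_proof : Stmt_Lip := by
  intro ρ
  set P : ℝ := (4 : ℝ) ^ |ρ| with hP
  set Q : ℝ := |ρ| * (4 : ℝ) ^ |ρ - 1| with hQ
  have hP0 : 0 < P := Real.rpow_pos_of_pos (by norm_num) _
  have hQ0 : 0 ≤ Q := mul_nonneg (abs_nonneg _) (Real.rpow_nonneg (by norm_num) _)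
  refine ⟨2 * P + Q, by linarith, fun w hw1 hw0 hwl => ?_⟩
  have hb : ∀ t, t ∈ Set.Icc (1 / 2 : ℝ) 4 → |t ^ ρ| ≤ P := by
    intro t ht
    rw [abs_of_nonneg (Real.rpow_nonneg (by have := ht.1; linarith) _)]
    exact pow_le _ _ ht.1 ht.2
  have hout : ∀ t, t ∉ Set.Icc (1 / 2 : ℝ) 4 → w t = 0 := by
    intro t ht
    refine hw0 t ?_
    by_contra h
    push Not at h
    exact ht ⟨h.1, h.2⟩
  have hone : ∀ t u, u ∉ Set.Icc (1 / 2 : ℝ) 4 →
      |w t * t ^ ρ - w u * u ^ ρ| ≤ (2 * P + Q) * |t - u| := by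
    intro t u hu
    rw [hout u hu, zero_mul, sub_zero]
    by_cases ht : t ∈ Set.Icc (1 / 2 : ℝ) 4
    · have h1 := hwl t u
      rw [hout u hu, sub_zero] at h1
      rw [abs_mul]
      calc |w t| * |t ^ ρ| ≤ (2 * |t - u|) * P :=
            mul_le_mul h1 (hb t ht) (abs_nonneg _) (by positivity)
        _ ≤ (2 * P + Q) * |t - u| := by nlinarith [abs_nonneg (t - u)]
    · rw [hout t ht, zero_mul, abs_zero]
      positivity
  refine ⟨fun t => ?_, fun t u => ?_⟩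
  · by_cases ht : t ∈ Set.Icc (1 / 2 : ℝ) 4
    · rw [abs_mul]
      calc |w t| * |t ^ ρ| ≤ 1 * P :=
            mul_le_mul (hw1 t) (hb t ht) (abs_nonneg _) (by norm_num)
        _ ≤ 2 * P + Q := by linarith
    · rw [hout t ht, zero_mul, abs_zero]
      positivity
  · by_cases hu : u ∈ Set.Icc (1 / 2 : ℝ) 4
    · by_cases ht : t ∈ Set.Icc (1 / 2 : ℝ) 4
      · have h1 : w t * t ^ ρ - w u * u ^ ρ =
            (w t - w u) * t ^ ρ + w u * (t ^ ρ - u ^ ρ) := by ring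
        rw [h1]
        calc |(w t - w u) * t ^ ρ + w u * (t ^ ρ - u ^ ρ)|
            ≤ |(w t - w u) * t ^ ρ| + |w u * (t ^ ρ - u ^ ρ)| := abs_add_le _ _
          _ = |w t - w u| * |t ^ ρ| + |w u| * |t ^ ρ - u ^ ρ| := by rw [abs_mul, abs_mul]
          _ ≤ (2 * |t - u|) * P + 1 * (Q * |t - u|) := by
              refine add_le_add ?_ ?_
              · exact mul_le_mul (hwl t u) (hb t ht) (abs_nonneg _) (by positivity)
              · exact mul_le_mul (hw1 u) (lip_pow ρ t u ht hu) (abs_nonneg _) (by norm_num)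
          _ = (2 * P + Q) * |t - u| := by ring
      · have h1 := hone u t ht
        rw [abs_sub_comm, abs_sub_comm t u]
        exact h1
    · exact hone t u hu

end Pool.Agent.KW
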