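import Pool.Agent.KW.Stmts

set_option autoImplicit false

/-!
# KW, module LITW: the class of the problem is the class `W`
-/

open MeasureTheory
open scoped BigOperators ENNReal Topology Convolution

namespace Pool.Agent.KW

noncomputable section

namespace LITW_

variable {d : ℕ}

instance instL : (mu d).IsAddLeftInvariant := by unfold mu; infer_instance

instance instR : (mu d).IsAddRightInvariant := by
  unfold mu
  infer_instance

theorem ch_sub_mul (n : Fin d → ℤ) (x y : Tor d) : ch n y * ch n (x - y) = ch n x := by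
  unfold ch
  rw [← Finset.prod_mul_distrib]
  refine Finset.prod_congr rfl fun i _ => ?_
  rw [Pi.sub_apply]
  have h : x i = y i + (x i - y i) := by abel
  conv_rhs => rw [h]
  rw [fourier_apply, fourier_apply, fourier_apply, smul_add, AddCircle.toCircle_add, Circle.coe_mul]

theorem ch_norm (n : Fin d → ℤ) (x : Tor d) : ‖ch n x‖ = 1 := by
  unfold ch
  rw [norm_prod]
  refine Finset.prod_eq_one fun i _ => ?_
  rw [fourier_apply]
  exact Circle.norm_coe _

/-- the product kernel -/
def PF (d : ℕ) (r α : ℝ) (x : Tor d) : ℝ := ∏ i, Fr r α (x i)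

theorem PF_int (h1 : Stmt_Frk) {r : ℝ} (hr : 0 < r) (α : ℝ) : Integrable (PF d r α) (mu d) := by
  unfold PF mu
  exact Integrable.fintype_prod (f := fun (_ : Fin d) => Fr r α) fun i => (h1 r α hr).1

theorem PF_coef (h1 : Stmt_Frk) {r : ℝ} (hr : 0 < r) (α : ℝ) (n : Fin d → ℤ) :
    coef (fun x => (PF d r α x : ℂ)) n = ∏ i, rho r α (n i) := by
  have h : ∀ i, rho r α (n i) = ∫ x, fourier (-(n i)) x * ((Fr r α x : ℝ) : ℂ)
      ∂AddCircle.haarAddCircle := fun i => ((h1 r α hr).2 (n i)).symm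
  simp_rw [h]
  unfold coef mu PF
  rw [← integral_fintype_prod_eq_prod (𝕜 := ℂ)
    (fun (i : Fin d) (x : UnitAddCircle) => fourier (-(n i)) x * ((Fr r α x : ℝ) : ℂ))]
  refine integral_congr_ae (Filter.Eventually.of_forall fun x => ?_)
  simp only [ch, Pi.neg_apply, Complex.ofReal_prod]
  rw [← Finset.prod_mul_distrib]

theorem conv_int (h1 : Stmt_Frk) {r : ℝ} (hr : 0 < r) (α : ℝ) {φ : Tor d → ℝ}
    (hφ : Integrable φ (mu d)) :
    Integrable (fun x => ∫ y, φ y * PF d r α (x - y) ∂(mu d)) (mu d) := by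
  have h := Integrable.integrable_convolution (ContinuousLinearMap.mul ℝ ℝ) hφ
    (PF_int (d := d) h1 hr α)
  exact h

theorem int_ch {φ : Tor d → ℝ} (hφ : Integrable φ (mu d)) (n : Fin d → ℤ) :
    Integrable (fun x => ch n x * (φ x : ℂ)) (mu d) := by
  refine (hφ.ofReal (𝕜 := ℂ)).bdd_mul (c := 1) (ch_continuous n).aestronglyMeasurable ?_
  exact Filter.Eventually.of_forall fun x => (ch_norm n x).le

theorem conv_coef (h1 : Stmt_Frk) {r : ℝ} (hr : 0 < r) (α : ℝ) {φ : Tor d → ℝ}
    (hφ : Integrable φ (mu d)) (n : Fin d → ℤ) :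
    coef (fun x => ((∫ y, φ y * PF d r α (x - y) ∂(mu d) : ℝ) : ℂ)) n =
      (∏ i, rho r α (n i)) * coef (fun x => (φ x : ℂ)) n := by
  rw [← PF_coef h1 hr α n]
  have h := integral_convolution (μ := mu d) (ν := mu d) (ContinuousLinearMap.mul ℂ ℂ)
    (int_ch hφ (-n)) (int_ch (PF_int (d := d) h1 hr α) (-n))
  rw [ContinuousLinearMap.mul_apply'] at h
  unfold coef
  rw [mul_comm, ← h]
  refine integral_congr_ae (Filter.Eventually.of_forall fun x => ?_)
  simp only [convolution_def, ContinuousLinearMap.mul_apply']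
  rw [← integral_complex_ofReal, ← integral_const_mul]
  refine integral_congr_ae (Filter.Eventually.of_forall fun y => ?_)
  simp only [Complex.ofReal_mul]
  rw [← ch_sub_mul (-n) x y]
  ring

end LITW_

open LITW_

/-- LITW. -/
theorem litw_proof (h1 : Stmt_Frk) (_h2 : Stmt_CProd) (h3 : Stmt_Uniq) : Stmt_LitW := by
  intro d q r α hq hr
  have key : ∀ (f : Lp ℝ ⊤ (mu d)) (φ : Tor d → ℝ), MemLp φ q (mu d) →
      ((∀ᵐ x ∂(mu d), f x = ∫ y, φ y * ∏ i, Fr r α (x i - y i) ∂(mu d)) ↔
      ∀ n : Fin d → ℤ, coef (fun x => (f x : ℂ)) n =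
        (∏ i, rho r α (n i)) * coef (fun x => (φ x : ℂ)) n) := by
    intro f φ hφ
    have hφ1 : Integrable φ (mu d) := hφ.integrable hq
    have hf1 : Integrable f (mu d) := (Lp.memLp f).integrable le_top
    have hc : ∀ x : Tor d, ∫ y, φ y * ∏ i, Fr r α (x i - y i) ∂(mu d) =
        ∫ y, φ y * PF d r α (x - y) ∂(mu d) := fun x => rfl
    simp_rw [hc]
    constructor
    · intro h n
      rw [← conv_coef h1 hr α hφ1 n]
      unfold coef
      refine integral_congr_ae ?_
      filter_upwards [h] with x hx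
      rw [hx]
    · intro h
      have := h3 d f (fun x => ∫ y, φ y * PF d r α (x - y) ∂(mu d)) hf1
        (conv_int h1 hr α hφ1) (fun n => by rw [h n, conv_coef h1 hr α hφ1 n])
      exact this
  unfold WR W
  ext f
  simp only [Set.mem_setOf_eq]
  constructor
  · rintro ⟨φ, a, b, c⟩
    exact ⟨φ, a, b, (key f φ a).1 c⟩
  · rintro ⟨φ, a, b, c⟩
    exact ⟨φ, a, b, (key f φ a).2 c⟩

end

end Pool.Agent.KW
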