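import Pool.Agent.KW.Stmts

set_option autoImplicit false

open scoped BigOperators

namespace Pool.Agent.KW

namespace LMA_

theorem mem_Sh {d l : ℕ} {s : Fin d → ℕ} : s ∈ Sh d l ↔ ∑ i, s i = l := by
  unfold Sh
  rw [Finset.mem_piAntidiag]
  constructor
  · rintro ⟨h, -⟩; exact h
  · intro h; exact ⟨h, fun i _ => Finset.mem_univ _⟩

theorem bet_zero (hB : Stmt_Bet) (t s : ℕ) (k : ℤ) (hk : |k| ≤ 2 ^ t) (hs : t < s) :
    bet s k = 0 := by
  by_contra h
  have h1 := (hB.2.2.1 s k (by omega) h).1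
  have h2 : (2 : ℤ) ^ t ≤ 2 ^ (s - 1) := pow_le_pow_right₀ (by norm_num) (by omega)
  omega

end LMA_

open LMA_

theorem lma_proof (hB : Stmt_Bet) : Stmt_LmA := by
  refine ⟨fun d r α t n hn => ⟨?_, fun l hl => ?_⟩, fun d r α l n hne => ?_⟩
  · set F : (Fin d → ℕ) → ℂ := fun s => ∏ i, ((bet (s i) (n i) : ℝ) : ℂ) * rho r α (n i) with hF
    set P : Finset (Fin d → ℕ) := Fintype.piFinset fun _ => Finset.range (t + 1) with hP
    have hmaps : ∀ s ∈ P, (∑ i, s i) ∈ Finset.range (d * t + 1) := by
      intro s hs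
      rw [Finset.mem_range]
      have h1 : ∑ i, s i ≤ ∑ _i : Fin d, t := by
        refine Finset.sum_le_sum fun i _ => ?_
        have := Finset.mem_range.1 (Fintype.mem_piFinset.1 hs i)
        omega
      simp only [Finset.sum_const, Finset.card_univ, Fintype.card_fin, smul_eq_mul] at h1
      omega
    have h1 : ∀ l, lm d r α l n = ∑ s ∈ P with ∑ i, s i = l, F s := by
      intro l
      unfold lm
      symm
      refine Finset.sum_subset ?_ ?_
      · intro s hs
        exact mem_Sh.2 (Finset.mem_filter.1 hs).2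
      · intro s hs hs'
        have h2 : s ∉ P := fun h => hs' (Finset.mem_filter.2 ⟨h, mem_Sh.1 hs⟩)
        rw [hP, Fintype.mem_piFinset] at h2
        push Not at h2
        obtain ⟨i, hi⟩ := h2
        rw [Finset.mem_range, not_lt] at hi
        exact Finset.prod_eq_zero (Finset.mem_univ i) (by
          rw [bet_zero hB t (s i) (n i) (hn i) (by omega), Complex.ofReal_zero, zero_mul])
    rw [Finset.sum_congr rfl fun l _ => h1 l, Finset.sum_fiberwise_of_maps_to hmaps]
    rw [hP, ← Finset.prod_univ_sum (fun _ => Finset.range (t + 1))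
      (fun i s => ((bet s (n i) : ℝ) : ℂ) * rho r α (n i))]
    refine Finset.prod_congr rfl fun i _ => ?_
    rw [← Finset.sum_mul, ← Complex.ofReal_sum, hB.2.2.2 t (n i) (hn i), Complex.ofReal_one,
      one_mul]
  · unfold lm
    refine Finset.sum_eq_zero fun s hs => ?_
    have h2 : ∃ i, t < s i := by
      by_contra hc
      push Not at hc
      have h3 : ∑ i, s i ≤ ∑ _i : Fin d, t := Finset.sum_le_sum fun i _ => hc i
      simp only [Finset.sum_const, Finset.card_univ, Fintype.card_fin, smul_eq_mul] at h3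
      rw [mem_Sh.1 hs] at h3
      omega
    obtain ⟨i, hi⟩ := h2
    exact Finset.prod_eq_zero (Finset.mem_univ i) (by
      rw [bet_zero hB t (s i) (n i) (hn i) hi, Complex.ofReal_zero, zero_mul])
  · have h1 : ∃ s ∈ Sh d l, (∏ i, ((bet (s i) (n i) : ℝ) : ℂ) * rho r α (n i)) ≠ 0 := by
      by_contra hc
      push Not at hc
      exact hne (Finset.sum_eq_zero hc)
    obtain ⟨s, hs, hp⟩ := h1
    unfold Box
    rw [Fintype.mem_piFinset]
    intro i
    have h2 : ((bet (s i) (n i) : ℝ) : ℂ) * rho r α (n i) ≠ 0 := fun h =>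
      hp (Finset.prod_eq_zero (Finset.mem_univ i) h)
    have h3 : bet (s i) (n i) ≠ 0 := by
      intro h
      rw [h, Complex.ofReal_zero, zero_mul] at h2
      exact h2 rfl
    have h4 : s i ≤ l := by
      rw [← mem_Sh.1 hs]
      exact Finset.single_le_sum (f := s) (fun j _ => Nat.zero_le _) (Finset.mem_univ i)
    have h5 : |n i| ≤ 2 ^ (l + 1) := by
      rcases Nat.eq_zero_or_pos (s i) with h0 | h0
      · rw [h0] at h3
        have h6 := hB.2.1 (n i) h3
        have h7 : (1 : ℤ) ≤ 2 ^ (l + 1) := one_le_pow₀ (by norm_num)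
        omega
      · have h6 := (hB.2.2.1 (s i) (n i) h0 h3).2
        have h7 : (2 : ℤ) ^ (s i + 1) ≤ 2 ^ (l + 1) :=
          pow_le_pow_right₀ (by norm_num) (by omega)
        omega
    rw [Finset.mem_Icc]
    push_cast
    exact abs_le.1 h5

end Pool.Agent.KW
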