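import Pool.Agent.KW.Stmts

set_option autoImplicit false

/-!
# LMB: the square sum of the multipliers
-/

open scoped BigOperators

namespace Pool.Agent.KW

namespace LMB_

theorem rpow_le_two {x : ℝ} (r : ℝ) (h1 : 1 / 2 ≤ x) (h2 : x ≤ 2) : x ^ (-r) ≤ (2 : ℝ) ^ |r| := by
  rcases le_total 0 r with hr | hr
  · rw [abs_of_nonneg hr]
    have h3 : x ^ (-r) ≤ (1 / 2 : ℝ) ^ (-r) :=
      Real.rpow_le_rpow_of_nonpos (by norm_num) h1 (by linarith)
    refine le_trans h3 (le_of_eq ?_)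
    rw [one_div, Real.inv_rpow (by norm_num), Real.rpow_neg (by norm_num), inv_inv]
  · rw [abs_of_nonpos hr]
    exact Real.rpow_le_rpow (by linarith) h2 (by linarith)

/-- The size of the kernel coefficients in a block. -/
theorem rho_sq (hB : Stmt_Bet) (hR : Stmt_RhoB) (r α : ℝ) (s : ℕ) (k : ℤ) (hs : 1 ≤ s)
    (hk : bet s k ≠ 0) :
    ‖rho r α k‖ ^ 2 ≤ ((2 : ℝ) ^ |r|) ^ 2 * (2 : ℝ) ^ (-(2 * r) * (s : ℝ)) := by
  obtain ⟨h1, h2⟩ := hB.2.2.1 s k hs hk
  have hk0 : k ≠ 0 := by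
    rintro rfl
    have : (0 : ℤ) < 2 ^ (s - 1) := by positivity
    simp at h1
    linarith
  rw [(hR r α).1 k hk0]
  have h2s : (0 : ℝ) < (2 : ℝ) ^ s := by positivity
  have h1' : (2 : ℝ) ^ (s - 1) < |(k : ℝ)| := by exact_mod_cast h1
  have h2' : |(k : ℝ)| < (2 : ℝ) ^ (s + 1) := by exact_mod_cast h2
  have h3 : (2 : ℝ) ^ s = 2 * (2 : ℝ) ^ (s - 1) := by
    rw [← pow_succ']
    congr 1
    omega
  have hx1 : 1 / 2 ≤ |(k : ℝ)| / 2 ^ s := by
    rw [le_div_iff₀ h2s]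
    linarith
  have hx2 : |(k : ℝ)| / 2 ^ s ≤ 2 := by
    rw [div_le_iff₀ h2s]
    rw [pow_succ'] at h2'
    linarith
  have h4 : |(k : ℝ)| = 2 ^ s * (|(k : ℝ)| / 2 ^ s) := by
    field_simp
  have h5 : |(k : ℝ)| ^ (-r) = (2 : ℝ) ^ (-r * (s : ℝ)) * (|(k : ℝ)| / 2 ^ s) ^ (-r) := by
    conv_lhs => rw [h4]
    rw [Real.mul_rpow (by positivity) (by positivity), ← Real.rpow_natCast,
      ← Real.rpow_mul (by norm_num)]
    congr 2
    ring
  have h6 := rpow_le_two r hx1 hx2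
  have h7 : 0 ≤ |(k : ℝ)| ^ (-r) := by positivity
  have h8 : |(k : ℝ)| ^ (-r) ≤ (2 : ℝ) ^ (-r * (s : ℝ)) * (2 : ℝ) ^ |r| := by
    rw [h5]
    gcongr
  calc (|(k : ℝ)| ^ (-r)) ^ 2 ≤ ((2 : ℝ) ^ (-r * (s : ℝ)) * (2 : ℝ) ^ |r|) ^ 2 := by gcongr
    _ = ((2 : ℝ) ^ |r|) ^ 2 * ((2 : ℝ) ^ (-r * (s : ℝ))) ^ 2 := by ring
    _ = ((2 : ℝ) ^ |r|) ^ 2 * (2 : ℝ) ^ (-(2 * r) * (s : ℝ)) := by
      congr 1
      rw [← Real.rpow_natCast, ← Real.rpow_mul (by norm_num)]
      congr 1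
      push_cast
      ring

/-- The square sum in one variable. -/
theorem one_dim (hB : Stmt_Bet) (hR : Stmt_RhoB) (r α : ℝ) (s : ℕ) (A : Finset ℤ) :
    ∑ k ∈ A, bet s k * ‖rho r α k‖ ^ 2 ≤
      8 * ((2 : ℝ) ^ |r|) ^ 2 * (2 : ℝ) ^ ((1 - 2 * r) * (s : ℝ)) := by
  classical
  have h2r : (1 : ℝ) ≤ (2 : ℝ) ^ |r| := Real.one_le_rpow (by norm_num) (abs_nonneg r)
  have hbig : ∀ (K : Finset ℤ) (M : ℝ), 0 ≤ M →
      (∀ k, bet s k ≠ 0 → k ∈ K ∧ ‖rho r α k‖ ^ 2 ≤ M) →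
      ∑ k ∈ A, bet s k * ‖rho r α k‖ ^ 2 ≤ K.card * M := by
    intro K M hM hK
    have h1 : ∑ k ∈ A, bet s k * ‖rho r α k‖ ^ 2 =
        ∑ k ∈ A.filter (fun k => bet s k ≠ 0), bet s k * ‖rho r α k‖ ^ 2 := by
      symm
      apply Finset.sum_filter_of_ne
      intro k _ hk h0
      apply hk
      rw [h0, zero_mul]
    rw [h1]
    calc ∑ k ∈ A.filter (fun k => bet s k ≠ 0), bet s k * ‖rho r α k‖ ^ 2
        ≤ ∑ k ∈ A.filter (fun k => bet s k ≠ 0), M := by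
          apply Finset.sum_le_sum
          intro k hk
          have hk' := (Finset.mem_filter.1 hk).2
          have h2 := hB.1 s k
          calc bet s k * ‖rho r α k‖ ^ 2 ≤ 1 * ‖rho r α k‖ ^ 2 :=
                mul_le_mul_of_nonneg_right h2.2 (by positivity)
            _ ≤ M := by rw [one_mul]; exact (hK k hk').2
      _ = (A.filter (fun k => bet s k ≠ 0)).card * M := by
          rw [Finset.sum_const, nsmul_eq_mul]
      _ ≤ K.card * M := by
          apply mul_le_mul_of_nonneg_right _ hM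
          have h3 : A.filter (fun k => bet s k ≠ 0) ⊆ K := fun k hk =>
            (hK k (Finset.mem_filter.1 hk).2).1
          exact_mod_cast Finset.card_le_card h3
  rcases Nat.eq_zero_or_pos s with rfl | hs
  · have h1 := hbig (Finset.Icc (-1) 1) 1 (by norm_num) (by
      intro k hk
      have h2 := hB.2.1 k hk
      refine ⟨Finset.mem_Icc.2 (abs_le.1 h2), ?_⟩
      by_cases hk0 : k = 0
      · subst hk0
        simp [rho]
      · rw [(hR r α).1 k hk0]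
        have h3 : |k| = 1 := le_antisymm h2 (Int.one_le_abs hk0)
        have h4 : |(k : ℝ)| = 1 := by exact_mod_cast h3
        rw [h4, Real.one_rpow]
        norm_num)
    refine le_trans h1 ?_
    have h5 : (Finset.Icc (-1 : ℤ) 1).card = 3 := by rfl
    rw [h5]
    simp only [Nat.cast_zero, mul_zero, Real.rpow_zero, mul_one]
    push_cast
    nlinarith
  · have h1 := hbig (Finset.Icc (-2 ^ (s + 1)) (2 ^ (s + 1)))
      (((2 : ℝ) ^ |r|) ^ 2 * (2 : ℝ) ^ (-(2 * r) * (s : ℝ))) (by positivity) (by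
      intro k hk
      have h2 := hB.2.2.1 s k hs hk
      refine ⟨Finset.mem_Icc.2 (abs_le.1 h2.2.le), rho_sq hB hR r α s k hs hk⟩)
    refine le_trans h1 ?_
    have h2 : ((Finset.Icc (-2 ^ (s + 1) : ℤ) (2 ^ (s + 1))).card : ℝ) ≤ 8 * (2 : ℝ) ^ s := by
      rw [Int.card_Icc]
      have h3 : ((2 : ℤ) ^ (s + 1) + 1 - -2 ^ (s + 1)).toNat = 2 * 2 ^ (s + 1) + 1 := by
        have h4 : (2 : ℤ) ^ (s + 1) + 1 - -2 ^ (s + 1) = ((2 * 2 ^ (s + 1) + 1 : ℕ) : ℤ) := by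
          push_cast
          ring
        rw [h4, Int.toNat_natCast]
      rw [h3]
      push_cast
      rw [pow_succ]
      have : (1 : ℝ) ≤ (2 : ℝ) ^ s := one_le_pow₀ (by norm_num)
      linarith
    have h5 : (2 : ℝ) ^ ((1 - 2 * r) * (s : ℝ)) =
        (2 : ℝ) ^ s * (2 : ℝ) ^ (-(2 * r) * (s : ℝ)) := by
      rw [← Real.rpow_natCast 2 s, ← Real.rpow_add (by norm_num)]
      congr 1
      ring
    rw [h5]
    calc ((Finset.Icc (-2 ^ (s + 1) : ℤ) (2 ^ (s + 1))).card : ℝ) *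
          (((2 : ℝ) ^ |r|) ^ 2 * (2 : ℝ) ^ (-(2 * r) * (s : ℝ)))
        ≤ 8 * (2 : ℝ) ^ s * (((2 : ℝ) ^ |r|) ^ 2 * (2 : ℝ) ^ (-(2 * r) * (s : ℝ))) := by
          gcongr
      _ = _ := by ring

/-- The sum of the products of the partition of unity over some of the layers. -/
noncomputable def part (d : ℕ) (I : Finset ℕ) (n : Fin d → ℤ) : ℝ :=
  ∑ l ∈ I, ∑ s ∈ Sh d l, ∏ i, bet (s i) (n i)

theorem part_nonneg (hB : Stmt_Bet) (d : ℕ) (I : Finset ℕ) (n : Fin d → ℤ) :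
    0 ≤ part d I n :=
  Finset.sum_nonneg fun _ _ => Finset.sum_nonneg fun s _ =>
    Finset.prod_nonneg fun i _ => (hB.1 (s i) (n i)).1

theorem part_le_one (hB : Stmt_Bet) (d : ℕ) (I : Finset ℕ) (n : Fin d → ℤ) :
    part d I n ≤ 1 := by
  classical
  -- a common bound
  obtain ⟨t, ht1, ht2⟩ : ∃ t : ℕ, (∀ i, |n i| ≤ 2 ^ t) ∧ ∀ l ∈ I, l ≤ t := by
    refine ⟨(∑ i, (n i).natAbs) + ∑ l ∈ I, l, ?_, ?_⟩
    · intro i
      have h1 : (n i).natAbs ≤ ∑ i, (n i).natAbs :=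
        Finset.single_le_sum (f := fun i => (n i).natAbs) (fun _ _ => Nat.zero_le _)
          (Finset.mem_univ i)
      have h2 : (n i).natAbs ≤ 2 ^ ((∑ i, (n i).natAbs) + ∑ l ∈ I, l) :=
        le_trans (le_trans h1 (Nat.le_add_right _ _)) Nat.lt_two_pow_self.le
      rw [Int.abs_eq_natAbs]
      exact_mod_cast h2
    · intro l hl
      have h1 : l ≤ ∑ l ∈ I, l :=
        Finset.single_le_sum (f := fun l : ℕ => l) (fun _ _ => Nat.zero_le _) hl
      omega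
  have h3 : part d I n = ∑ s ∈ I.biUnion (Sh d), ∏ i, bet (s i) (n i) := by
    unfold part
    rw [Finset.sum_biUnion]
    intro l _ l' _ hne
    rw [Function.onFun, Finset.disjoint_left]
    intro s hs hs'
    simp only [Sh, Finset.mem_piAntidiag] at hs hs'
    exact hne (hs.1.symm.trans hs'.1)
  have h4 : I.biUnion (Sh d) ⊆ Fintype.piFinset (fun _ : Fin d => Finset.range (t + 1)) := by
    intro s hs
    obtain ⟨l, hl, hs⟩ := Finset.mem_biUnion.1 hs
    simp only [Sh, Finset.mem_piAntidiag] at hs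
    rw [Fintype.mem_piFinset]
    intro i
    have h5 : s i ≤ ∑ i, s i :=
      Finset.single_le_sum (f := fun i => s i) (fun _ _ => Nat.zero_le _) (Finset.mem_univ i)
    have h6 := ht2 l hl
    rw [Finset.mem_range]
    have h7 : ∑ i, s i = l := hs.1
    omega
  rw [h3]
  calc ∑ s ∈ I.biUnion (Sh d), ∏ i, bet (s i) (n i)
      ≤ ∑ s ∈ Fintype.piFinset (fun _ : Fin d => Finset.range (t + 1)),
          ∏ i, bet (s i) (n i) :=
        Finset.sum_le_sum_of_subset_of_nonneg h4 fun s _ _ =>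
          Finset.prod_nonneg fun i _ => (hB.1 (s i) (n i)).1
    _ = ∏ i, ∑ j ∈ Finset.range (t + 1), bet j (n i) :=
        (Finset.prod_univ_sum (fun _ : Fin d => Finset.range (t + 1))
          (fun i j => bet j (n i))).symm
    _ = 1 := by
        apply Finset.prod_eq_one
        intro i _
        exact hB.2.2.2 t (n i) (ht1 i)

theorem sum_lm (d : ℕ) (r α : ℝ) (I : Finset ℕ) (n : Fin d → ℤ) :
    ∑ l ∈ I, lm d r α l n = (part d I n : ℂ) * ∏ i, rho r α (n i) := by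
  unfold lm part
  push_cast
  rw [Finset.sum_mul]
  refine Finset.sum_congr rfl fun l _ => ?_
  rw [Finset.sum_mul]
  refine Finset.sum_congr rfl fun s _ => ?_
  rw [Finset.prod_mul_distrib]

theorem norm_sq_le (hB : Stmt_Bet) (d : ℕ) (r α : ℝ) (I : Finset ℕ) (n : Fin d → ℤ) :
    ‖∑ l ∈ I, lm d r α l n‖ ^ 2 ≤
      ∑ l ∈ I, ∑ s ∈ Sh d l, ∏ i, (bet (s i) (n i) * ‖rho r α (n i)‖ ^ 2) := by
  have h0 := part_nonneg hB d I n
  have h1 := part_le_one hB d I n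
  rw [sum_lm, norm_mul, Complex.norm_real, Real.norm_of_nonneg h0, norm_prod, mul_pow]
  have h2 : part d I n ^ 2 ≤ part d I n := by nlinarith
  calc part d I n ^ 2 * (∏ i, ‖rho r α (n i)‖) ^ 2
      ≤ part d I n * (∏ i, ‖rho r α (n i)‖) ^ 2 := by gcongr
    _ = _ := by
        unfold part
        rw [Finset.sum_mul]
        refine Finset.sum_congr rfl fun l _ => ?_
        rw [Finset.sum_mul]
        refine Finset.sum_congr rfl fun s _ => ?_
        rw [Finset.prod_mul_distrib, Finset.prod_pow]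

end LMB_

open LMB_ in
theorem lmb_proof (hB : Stmt_Bet) (hR : Stmt_RhoB) : Stmt_LmB := by
  intro d r α
  refine ⟨(8 * ((2 : ℝ) ^ |r|) ^ 2) ^ d, by positivity, ?_⟩
  intro I h
  calc ∑ n ∈ Box d (2 ^ h), ‖∑ l ∈ I, lm d r α l n‖ ^ 2
      ≤ ∑ n ∈ Box d (2 ^ h), ∑ l ∈ I, ∑ s ∈ Sh d l,
          ∏ i, (bet (s i) (n i) * ‖rho r α (n i)‖ ^ 2) :=
        Finset.sum_le_sum fun n _ => norm_sq_le hB d r α I n
    _ = ∑ l ∈ I, ∑ s ∈ Sh d l, ∑ n ∈ Box d (2 ^ h),
          ∏ i, (bet (s i) (n i) * ‖rho r α (n i)‖ ^ 2) := by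
        rw [Finset.sum_comm]
        refine Finset.sum_congr rfl fun l _ => ?_
        rw [Finset.sum_comm]
    _ ≤ ∑ l ∈ I, ∑ s ∈ Sh d l,
          (8 * ((2 : ℝ) ^ |r|) ^ 2) ^ d * (2 : ℝ) ^ ((1 - 2 * r) * (l : ℝ)) := by
        refine Finset.sum_le_sum fun l _ => Finset.sum_le_sum fun s hs => ?_
        have h1 : ∑ n ∈ Box d (2 ^ h), ∏ i, (bet (s i) (n i) * ‖rho r α (n i)‖ ^ 2) =
            ∏ i, ∑ k ∈ Finset.Icc (-((2 ^ h : ℕ) : ℤ)) ((2 ^ h : ℕ) : ℤ),
              (bet (s i) k * ‖rho r α k‖ ^ 2) :=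
          (Finset.prod_univ_sum (fun _ : Fin d => Finset.Icc (-((2 ^ h : ℕ) : ℤ)) ((2 ^ h : ℕ) : ℤ))
            (fun i k => bet (s i) k * ‖rho r α k‖ ^ 2)).symm
        rw [h1]
        calc ∏ i, ∑ k ∈ Finset.Icc (-((2 ^ h : ℕ) : ℤ)) ((2 ^ h : ℕ) : ℤ),
              (bet (s i) k * ‖rho r α k‖ ^ 2)
            ≤ ∏ i : Fin d, (8 * ((2 : ℝ) ^ |r|) ^ 2 * (2 : ℝ) ^ ((1 - 2 * r) * (s i : ℝ))) := by
              apply Finset.prod_le_prod
              · intro i _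
                exact Finset.sum_nonneg fun k _ =>
                  mul_nonneg (hB.1 (s i) k).1 (by positivity)
              · intro i _
                exact one_dim hB hR r α (s i) _
          _ = (8 * ((2 : ℝ) ^ |r|) ^ 2) ^ d * (2 : ℝ) ^ ((1 - 2 * r) * (l : ℝ)) := by
              rw [Finset.prod_mul_distrib, Finset.prod_const, Finset.card_univ,
                Fintype.card_fin]
              congr 1
              have h2 : ∑ i, s i = l := by
                simp only [Sh, Finset.mem_piAntidiag] at hs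
                exact hs.1
              rw [← Real.rpow_sum_of_pos (by norm_num : (0 : ℝ) < 2)]
              congr 1
              rw [← Finset.mul_sum]
              congr 1
              exact_mod_cast h2
    _ = (8 * ((2 : ℝ) ^ |r|) ^ 2) ^ d * ∑ l ∈ I, (2 : ℝ) ^ ((1 - 2 * r) * l) * Ln d l := by
        rw [Finset.mul_sum]
        refine Finset.sum_congr rfl fun l _ => ?_
        rw [Finset.sum_const, nsmul_eq_mul]
        unfold Ln
        ring

end Pool.Agent.KW
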