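import Pool.Agent.KW.Stmts

/-!
# KW, module LMC: the number of frequencies of the layers below `n₀`
-/

set_option autoImplicit false

open scoped BigOperators

namespace Pool.Agent.KW

namespace LMC_

/-- The box of the frequencies of the shape `s`. -/
noncomputable def bx {d : ℕ} (s : Fin d → ℕ) : Finset (Fin d → ℤ) :=
  Fintype.piFinset fun i => Finset.Icc (-((2 : ℤ) ^ (s i + 1))) (2 ^ (s i + 1))

lemma card_bx {d : ℕ} (s : Fin d → ℕ) : ((bx s).card : ℝ) ≤ (5 : ℝ) ^ d * 2 ^ (∑ i, s i) := by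
  have h1 : ∀ i, ((Finset.Icc (-((2 : ℤ) ^ (s i + 1))) (2 ^ (s i + 1))).card : ℝ) ≤
      5 * 2 ^ (s i) := by
    intro i
    have e : (Finset.Icc (-((2 : ℤ) ^ (s i + 1))) (2 ^ (s i + 1))).card = 2 * 2 ^ (s i + 1) + 1 := by
      rw [Int.card_Icc]
      have : (2 : ℤ) ^ (s i + 1) + 1 - -(2 ^ (s i + 1)) = ((2 * 2 ^ (s i + 1) + 1 : ℕ) : ℤ) := by
        push_cast
        ring
      rw [this, Int.toNat_natCast]
    rw [e]
    push_cast
    have h2 : (1 : ℝ) ≤ 2 ^ (s i) := one_le_pow₀ (by norm_num)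
    rw [pow_succ]
    linarith
  unfold bx
  rw [Fintype.card_piFinset]
  push_cast
  calc ∏ i, ((Finset.Icc (-((2 : ℤ) ^ (s i + 1))) (2 ^ (s i + 1))).card : ℝ)
      ≤ ∏ i : Fin d, (5 * 2 ^ (s i) : ℝ) :=
        Finset.prod_le_prod (fun i _ => Nat.cast_nonneg _) fun i _ => h1 i
    _ = (5 : ℝ) ^ d * 2 ^ (∑ i, s i) := by
        rw [Finset.prod_mul_distrib, Finset.prod_const, Finset.card_univ, Fintype.card_fin,
          Finset.prod_pow_eq_pow_sum]

end LMC_

open LMC_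

theorem lmc_proof (h1 : Stmt_Bet) (h2 : Stmt_Card) : Stmt_LmC := by
  classical
  obtain ⟨_, hb0, hb1, _⟩ := h1
  intro d hd
  refine ⟨(5 : ℝ) ^ d, by positivity, fun n₀ =>
    ⟨(Finset.range n₀).biUnion fun l => (Sh d l).biUnion fun s => bx s, ?_, ?_⟩⟩
  · have hL : ∀ l ∈ Finset.range n₀, (((Sh d l).biUnion fun s => bx s).card : ℝ) ≤
        (5 : ℝ) ^ d * Ln d n₀ * 2 ^ l := by
      intro l hl
      have a1 : (((Sh d l).biUnion fun s => bx s).card : ℝ) ≤ ∑ s ∈ Sh d l, ((bx s).card : ℝ) := by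
        exact_mod_cast Finset.card_biUnion_le
      have a2 : ∑ s ∈ Sh d l, ((bx s).card : ℝ) ≤ ∑ s ∈ Sh d l, (5 : ℝ) ^ d * 2 ^ l := by
        refine Finset.sum_le_sum fun s hs => ?_
        have h3 := card_bx s
        have h4 : ∑ i, s i = l := by
          unfold Sh at hs
          rw [Finset.mem_piAntidiag] at hs
          exact hs.1
        rwa [h4] at h3
      have a3 : (Ln d l : ℝ) ≤ Ln d n₀ := by
        exact_mod_cast (h2 d l hd).2.2 n₀ (Finset.mem_range.1 hl).le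
      calc (((Sh d l).biUnion fun s => bx s).card : ℝ) ≤ ∑ s ∈ Sh d l, (5 : ℝ) ^ d * 2 ^ l :=
            a1.trans a2
        _ = Ln d l * ((5 : ℝ) ^ d * 2 ^ l) := by
            rw [Finset.sum_const, nsmul_eq_mul]
            rfl
        _ ≤ Ln d n₀ * ((5 : ℝ) ^ d * 2 ^ l) :=
            mul_le_mul_of_nonneg_right a3 (by positivity)
        _ = (5 : ℝ) ^ d * Ln d n₀ * 2 ^ l := by ring
    have b1 : (((Finset.range n₀).biUnion fun l => (Sh d l).biUnion fun s => bx s).card : ℝ) ≤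
        ∑ l ∈ Finset.range n₀, (((Sh d l).biUnion fun s => bx s).card : ℝ) := by
      exact_mod_cast Finset.card_biUnion_le
    have b2 : ∑ l ∈ Finset.range n₀, (2 : ℝ) ^ l ≤ 2 ^ n₀ := by
      have := geom_sum_eq (x := (2 : ℝ)) (by norm_num) n₀
      rw [this]
      have : (2 : ℝ) - 1 = 1 := by norm_num
      rw [this, div_one]
      linarith
    calc (((Finset.range n₀).biUnion fun l => (Sh d l).biUnion fun s => bx s).card : ℝ)
        ≤ ∑ l ∈ Finset.range n₀, (5 : ℝ) ^ d * Ln d n₀ * 2 ^ l := b1.trans (Finset.sum_le_sum hL)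
      _ = (5 : ℝ) ^ d * Ln d n₀ * ∑ l ∈ Finset.range n₀, (2 : ℝ) ^ l := by
          rw [Finset.mul_sum]
      _ ≤ (5 : ℝ) ^ d * Ln d n₀ * 2 ^ n₀ := mul_le_mul_of_nonneg_left b2 (by positivity)
      _ = (5 : ℝ) ^ d * (2 ^ n₀ * Ln d n₀) := by ring
  · intro r α l n hl hn
    unfold lm at hn
    obtain ⟨s, hs, hne⟩ := Finset.exists_ne_zero_of_sum_ne_zero hn
    rw [Finset.mem_biUnion]
    refine ⟨l, Finset.mem_range.2 hl, ?_⟩
    rw [Finset.mem_biUnion]
    refine ⟨s, hs, ?_⟩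
    unfold bx
    rw [Fintype.mem_piFinset]
    intro i
    rw [Finset.prod_ne_zero_iff] at hne
    have h3 := hne i (Finset.mem_univ i)
    have h4 : bet (s i) (n i) ≠ 0 := by
      intro h
      apply h3
      rw [h]
      simp
    rw [Finset.mem_Icc, ← abs_le]
    rcases Nat.eq_zero_or_pos (s i) with h | h
    · rw [h] at h4 ⊢
      have := hb0 (n i) h4
      norm_num
      linarith
    · exact (hb1 (s i) (n i) h h4).2.le

end Pool.Agent.KW
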