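import Pool.Agent.KW.Stmts

set_option autoImplicit false

/-!
# KW, module LONE: the `L_1` norm on the grid of a polynomial with Lipschitz coefficients
-/

open MeasureTheory
open scoped BigOperators ENNReal ComplexConjugate

namespace Pool.Agent.KW

noncomputable section

namespace LONE_

variable {M : ℕ} [NeZero M]

theorem fourier_gr (k : ℤ) (y : ZMod M) :
    fourier k (gr M y) = ZMod.stdAddChar (y * (k : ZMod M)) := by
  have h1 : k • gr M y = gr M (y * (k : ZMod M)) := by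
    unfold gr
    rw [← map_zsmul, zsmul_eq_mul, mul_comm]
  rw [fourier_apply, h1]
  rfl

theorem sum_fourier (k : ℤ) :
    ∑ y : ZMod M, fourier k (gr M y) = if (k : ZMod M) = 0 then (M : ℂ) else 0 := by
  simp_rw [fourier_gr]
  rw [AddChar.sum_mulShift (k : ZMod M) (ZMod.isPrimitive_stdAddChar M), ZMod.card]
  split_ifs <;> simp

/-- Parseval on the grid. -/
theorem parseval (S : Finset ℤ) (d : ℤ → ℂ)
    (hS : ∀ k ∈ S, ∀ l ∈ S, ((k - l : ℤ) : ZMod M) = 0 → k = l) :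
    ∑ y : ZMod M, ‖∑ k ∈ S, d k * fourier k (gr M y)‖ ^ 2 = M * ∑ k ∈ S, ‖d k‖ ^ 2 := by
  have h : (((∑ y : ZMod M, ‖∑ k ∈ S, d k * fourier k (gr M y)‖ ^ 2 : ℝ)) : ℂ) =
      ((M * ∑ k ∈ S, ‖d k‖ ^ 2 : ℝ) : ℂ) := by
    push_cast
    have h1 : ∀ y : ZMod M, (‖∑ k ∈ S, d k * fourier k (gr M y)‖ : ℂ) ^ 2 =
        ∑ k ∈ S, ∑ l ∈ S, d k * conj (d l) * fourier (k - l) (gr M y) := by
      intro y
      rw [← Complex.mul_conj', map_sum, Finset.sum_mul_sum]
      refine Finset.sum_congr rfl fun k _ => Finset.sum_congr rfl fun l _ => ?_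
      rw [map_mul, ← fourier_neg, sub_eq_add_neg, fourier_add]
      ring
    simp_rw [h1]
    rw [Finset.sum_comm, Finset.mul_sum]
    refine Finset.sum_congr rfl fun k hk => ?_
    rw [Finset.sum_comm]
    rw [Finset.sum_eq_single_of_mem k hk]
    · rw [← Finset.mul_sum, sum_fourier, sub_self, Int.cast_zero, if_pos rfl,
        Complex.mul_conj']
      ring
    · intro l hl hlk
      rw [← Finset.mul_sum, sum_fourier, if_neg, mul_zero]
      intro h0
      exact hlk (hS k hk l hl h0).symm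
  exact_mod_cast h

omit [NeZero M] in
/-- Frequencies in a short interval are different modulo `M`. -/
theorem inj_mod {a : ℤ} {n : ℕ} (_ : 1 ≤ n) (hM : 4 * n ≤ M) (k : ℤ)
    (hk : k ∈ Finset.Ioc a (a + 3 * n)) (l : ℤ) (hl : l ∈ Finset.Ioc a (a + 3 * n))
    (h : ((k - l : ℤ) : ZMod M) = 0) : k = l := by
  rw [Finset.mem_Ioc] at hk hl
  rw [ZMod.intCast_zmod_eq_zero_iff_dvd] at h
  have h1 : |k - l| < (M : ℤ) := by
    rw [abs_lt]
    constructor <;> omega
  have := Int.eq_zero_of_abs_lt_dvd h h1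
  omega

/-- The distance of the roots of unity from `1`. -/
theorem dist_one (y : ZMod M) :
    4 * (min (y.val : ℝ) (M - y.val) / M) ≤ ‖1 - fourier 1 (gr M y)‖ := by
  have hM : (0 : ℝ) < M := by exact_mod_cast NeZero.pos M
  have hv : (y.val : ℝ) < M := by exact_mod_cast ZMod.val_lt y
  have h1 : fourier 1 (gr M y) =
      Complex.exp (Complex.I * ((2 * Real.pi * (y.val / M) : ℝ) : ℂ)) := by
    unfold gr
    rw [ZMod.toAddCircle_apply, fourier_coe_apply]
    congr 1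
    push_cast
    ring
  have h2 : ‖1 - fourier 1 (gr M y)‖ = |2 * Real.sin (Real.pi * (y.val / M))| := by
    rw [norm_sub_rev, h1, Complex.norm_exp_I_mul_ofReal_sub_one, Real.norm_eq_abs]
    congr 3
    ring
  have hs : 2 * (min (y.val : ℝ) (M - y.val) / M) ≤ Real.sin (Real.pi * (y.val / M)) := by
    have hpi := Real.pi_pos
    rcases le_total (y.val : ℝ) (M - y.val) with h | h
    · rw [min_eq_left h]
      have h3 : (y.val : ℝ) / M ≤ 1 / 2 := by
        rw [div_le_iff₀ hM]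
        linarith
      have h4 : 0 ≤ (y.val : ℝ) / M := by positivity
      have h5 := Real.mul_le_sin (x := Real.pi * (y.val / M)) (by positivity) (by nlinarith)
      calc 2 * ((y.val : ℝ) / M) = 2 / Real.pi * (Real.pi * (y.val / M)) := by
            field_simp
        _ ≤ _ := h5
    · rw [min_eq_right h]
      have h3 : ((M : ℝ) - y.val) / M ≤ 1 / 2 := by
        rw [div_le_iff₀ hM]
        linarith
      have h4 : 0 ≤ ((M : ℝ) - y.val) / M := div_nonneg (by linarith) hM.le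
      have h5 := Real.mul_le_sin (x := Real.pi * ((M - y.val) / M)) (by positivity) (by nlinarith)
      have h6 : Real.sin (Real.pi * ((M - y.val) / M)) = Real.sin (Real.pi * (y.val / M)) := by
        have : Real.pi * (((M : ℝ) - y.val) / M) = Real.pi - Real.pi * (y.val / M) := by
          field_simp
        rw [this, Real.sin_pi_sub]
      calc 2 * (((M : ℝ) - y.val) / M) = 2 / Real.pi * (Real.pi * ((M - y.val) / M)) := by
            field_simp
        _ ≤ _ := h5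
        _ = _ := h6
  rw [h2]
  have := le_abs_self (2 * Real.sin (Real.pi * ((y.val : ℝ) / M)))
  linarith

/-- The telescoping bound. -/
theorem tele (α : ℝ) (hα : 0 < α) (J : ℕ) :
    ∑ j ∈ Finset.range J, 1 / (1 + (α * ((j : ℝ) + 1)) ^ 2) ≤ 2 / α := by
  have h : ∀ j : ℕ, 1 / (1 + (α * ((j : ℝ) + 1)) ^ 2) ≤
      2 / (α * (1 + α * j)) - 2 / (α * (1 + α * ((j + 1 : ℕ) : ℝ))) := by
    intro j
    push_cast
    have hj : (0 : ℝ) ≤ j := Nat.cast_nonneg j
    have h1 : 0 < 1 + α * j := by positivity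
    have h2 : 0 < 1 + α * ((j : ℝ) + 1) := by positivity
    have h3 : 2 / (α * (1 + α * j)) - 2 / (α * (1 + α * ((j : ℝ) + 1))) =
        2 / ((1 + α * j) * (1 + α * ((j : ℝ) + 1))) := by
      field_simp
      ring
    rw [h3, div_le_div_iff₀ (by positivity) (by positivity)]
    nlinarith [sq_nonneg (1 - α * ((j : ℝ) + 1)), mul_pos hα h2]
  calc ∑ j ∈ Finset.range J, 1 / (1 + (α * ((j : ℝ) + 1)) ^ 2)
      ≤ ∑ j ∈ Finset.range J, (2 / (α * (1 + α * j)) - 2 / (α * (1 + α * ((j + 1 : ℕ) : ℝ)))) :=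
        Finset.sum_le_sum fun j _ => h j
    _ = 2 / (α * (1 + α * ((0 : ℕ) : ℝ))) - 2 / (α * (1 + α * (J : ℝ))) :=
        Finset.sum_range_sub' (fun j : ℕ => 2 / (α * (1 + α * (j : ℝ)))) J
    _ ≤ 2 / α := by
        have : (0 : ℝ) ≤ 2 / (α * (1 + α * J)) := by positivity
        simp only [Nat.cast_zero, mul_zero, add_zero, mul_one]
        linarith

/-- The sum of the inverse weights. -/
theorem sum_inv {n : ℕ} (hn : 1 ≤ n) (hM : 4 * n ≤ M) :
    ∑ y : ZMod M, 1 / (1 + (n : ℝ) ^ 2 * ‖1 - fourier 1 (gr M y)‖ ^ 2) ≤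
      5 * (M : ℝ) / (4 * (n : ℝ)) := by
  have hM0 : (0 : ℝ) < M := by exact_mod_cast NeZero.pos M
  have hn1 : (1 : ℝ) ≤ n := by exact_mod_cast hn
  have hM4 : 4 * (n : ℝ) ≤ M := by exact_mod_cast hM
  set α : ℝ := 4 * n / M with hα
  have hα0 : 0 < α := by positivity
  have hα1 : α ≤ 1 := by rw [hα, div_le_one hM0]; exact hM4
  set g : ℝ → ℝ := fun t => 1 / (1 + (α * t) ^ 2) with hg
  have hgpos : ∀ t, 0 ≤ g t := fun t => by rw [hg]; positivity
  have h1 : ∀ y : ZMod M, 1 / (1 + (n : ℝ) ^ 2 * ‖1 - fourier 1 (gr M y)‖ ^ 2) ≤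
      g y.val + g (M - y.val) := by
    intro y
    have hd := dist_one y
    have hv : (y.val : ℝ) < M := by exact_mod_cast ZMod.val_lt y
    have hmin : 0 ≤ min (y.val : ℝ) (M - y.val) := le_min (by positivity) (by linarith)
    have h2 : (α * min (y.val : ℝ) (M - y.val)) ^ 2 ≤
        (n : ℝ) ^ 2 * ‖1 - fourier 1 (gr M y)‖ ^ 2 := by
      rw [← mul_pow]
      apply pow_le_pow_left₀ (by positivity)
      calc α * min (y.val : ℝ) (M - y.val) = n * (4 * (min (y.val : ℝ) (M - y.val) / M)) := by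
            rw [hα]; ring
        _ ≤ _ := mul_le_mul_of_nonneg_left hd (by linarith)
    have h3 : 1 / (1 + (n : ℝ) ^ 2 * ‖1 - fourier 1 (gr M y)‖ ^ 2) ≤
        g (min (y.val : ℝ) (M - y.val)) := by
      rw [hg]
      apply one_div_le_one_div_of_le (by positivity)
      linarith
    refine h3.trans ?_
    rcases min_choice (y.val : ℝ) (M - y.val) with h | h
    · rw [h]
      linarith [hgpos (M - y.val)]
    · rw [h]
      linarith [hgpos (y.val)]
  have h2 : ∀ F : ℕ → ℝ, ∑ y : ZMod M, F y.val = ∑ j ∈ Finset.range M, F j := by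
    intro F
    obtain ⟨m, rfl⟩ : ∃ m, M = m + 1 := ⟨M - 1, by have := NeZero.pos M; omega⟩
    rw [Finset.sum_range]
    rfl
  have h3 : ∑ j ∈ Finset.range M, g (j : ℝ) ≤ 1 + 2 / α := by
    obtain ⟨m, hm⟩ : ∃ m, M = m + 1 := ⟨M - 1, by have := NeZero.pos M; omega⟩
    rw [hm, Finset.sum_range_succ']
    have h4 : g ((0 : ℕ) : ℝ) = 1 := by rw [hg]; simp
    rw [h4]
    have h5 := tele α hα0 m
    have h6 : ∑ j ∈ Finset.range m, g ((j + 1 : ℕ) : ℝ) =
        ∑ j ∈ Finset.range m, 1 / (1 + (α * ((j : ℝ) + 1)) ^ 2) := by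
      refine Finset.sum_congr rfl fun j _ => ?_
      rw [hg]
      push_cast
      rfl
    rw [h6]
    linarith
  have h4 : ∑ j ∈ Finset.range M, g ((M : ℝ) - j) ≤ 2 / α := by
    have h5 : ∑ j ∈ Finset.range M, g ((M : ℝ) - j) =
        ∑ j ∈ Finset.range M, 1 / (1 + (α * ((j : ℝ) + 1)) ^ 2) := by
      rw [← Finset.sum_range_reflect]
      refine Finset.sum_congr rfl fun j hj => ?_
      have hj' := Finset.mem_range.mp hj
      rw [hg]
      simp only
      have : (M : ℝ) - ((M - 1 - j : ℕ) : ℝ) = (j : ℝ) + 1 := by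
        rw [Nat.sub_sub, Nat.cast_sub (by omega)]
        push_cast
        ring
      rw [this]
    rw [h5]
    exact tele α hα0 M
  calc ∑ y : ZMod M, 1 / (1 + (n : ℝ) ^ 2 * ‖1 - fourier 1 (gr M y)‖ ^ 2)
      ≤ ∑ y : ZMod M, (g y.val + g (M - y.val)) := Finset.sum_le_sum fun y _ => h1 y
    _ = ∑ j ∈ Finset.range M, g (j : ℝ) + ∑ j ∈ Finset.range M, g ((M : ℝ) - j) := by
        rw [Finset.sum_add_distrib, h2 (fun j => g (j : ℝ)), h2 (fun j => g ((M : ℝ) - j))]
    _ ≤ 1 + 2 / α + 2 / α := add_le_add h3 h4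
    _ ≤ 5 / α := by
        have : 1 ≤ 1 / α := by rw [le_div_iff₀ hα0]; linarith
        have e : 5 / α = 1 / α + 2 / α + 2 / α := by ring
        linarith
    _ = 5 * M / (4 * n) := by
        rw [hα]
        field_simp

/-- Summation by parts. -/
theorem diff_eq (a : ℤ) (n : ℕ) (_ : 1 ≤ n) (c : ℤ → ℂ)
    (hc : ∀ k : ℤ, k ≤ a ∨ a + 3 * n ≤ k → c k = 0) (x : UnitAddCircle) :
    (1 - fourier 1 x) * ∑ k ∈ Finset.Ioc a (a + 3 * n), c k * fourier k x =
      ∑ k ∈ Finset.Ioc a (a + 3 * n), (c k - c (k - 1)) * fourier k x := by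
  have h1 : ∑ k ∈ Finset.Ioc a (a + 3 * n), c (k - 1) * fourier k x =
      ∑ k ∈ Finset.Ico a (a + 3 * n), c k * fourier (k + 1) x := by
    refine Finset.sum_nbij' (fun k => k - 1) (fun k => k + 1) ?_ ?_ ?_ ?_ ?_
    · intro k hk
      rw [Finset.mem_Ioc] at hk
      rw [Finset.mem_Ico]
      omega
    · intro k hk
      rw [Finset.mem_Ico] at hk
      rw [Finset.mem_Ioc]
      omega
    · intro k _
      simp
    · intro k _
      simp
    · intro k _
      simp
  have h2 : ∑ k ∈ Finset.Ico a (a + 3 * n), c k * fourier (k + 1) x =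
      ∑ k ∈ Finset.Ioo a (a + 3 * n), c k * fourier (k + 1) x := by
    symm
    apply Finset.sum_subset
    · intro k hk
      rw [Finset.mem_Ioo] at hk
      rw [Finset.mem_Ico]
      omega
    · intro k hk hk'
      rw [Finset.mem_Ico] at hk
      rw [Finset.mem_Ioo] at hk'
      rw [hc k (Or.inl (by omega)), zero_mul]
  have h3 : ∑ k ∈ Finset.Ioc a (a + 3 * n), c k * fourier (k + 1) x =
      ∑ k ∈ Finset.Ioo a (a + 3 * n), c k * fourier (k + 1) x := by
    symm
    apply Finset.sum_subset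
    · intro k hk
      rw [Finset.mem_Ioo] at hk
      rw [Finset.mem_Ioc]
      omega
    · intro k hk hk'
      rw [Finset.mem_Ioc] at hk
      rw [Finset.mem_Ioo] at hk'
      rw [hc k (Or.inr (by omega)), zero_mul]
  simp_rw [sub_mul (c _)]
  rw [Finset.sum_sub_distrib, h1, h2, ← h3, sub_mul, one_mul, Finset.mul_sum]
  congr 1
  refine Finset.sum_congr rfl fun k _ => ?_
  rw [fourier_add]
  ring

end LONE_

theorem lone_proof : Stmt_LOne := by
  refine ⟨3, by norm_num, ?_⟩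
  intro n M _ a c B hn hM hc hB hL
  have hM0 : (0 : ℝ) < M := by exact_mod_cast NeZero.pos M
  have hn1 : (1 : ℝ) ≤ n := by exact_mod_cast hn
  have hB0 : 0 ≤ B := (norm_nonneg _).trans (hB 0)
  set T : ZMod M → ℂ := fun y => ∑ k ∈ Finset.Ioc a (a + 3 * n), c k * fourier k (gr M y)
    with hT
  have hTeq : ∀ y, ∑ k ∈ Finset.Ioo a (a + 3 * n), c k * fourier k (gr M y) = T y := by
    intro y
    rw [hT]
    apply Finset.sum_subset
    · intro k hk
      rw [Finset.mem_Ioo] at hk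
      rw [Finset.mem_Ioc]
      omega
    · intro k hk hk'
      rw [Finset.mem_Ioc] at hk
      rw [Finset.mem_Ioo] at hk'
      rw [hc k (Or.inr (by omega)), zero_mul]
  simp_rw [hTeq]
  have hcard : ((Finset.Ioc a (a + 3 * n)).card : ℝ) = 3 * n := by
    rw [Int.card_Ioc]
    have : (a + 3 * n - a).toNat = 3 * n := by omega
    rw [this]
    push_cast
    ring
  -- Parseval
  have p1 : ∑ y : ZMod M, ‖T y‖ ^ 2 ≤ M * (3 * n * B ^ 2) := by
    rw [hT, LONE_.parseval _ _ (LONE_.inj_mod hn hM)]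
    apply mul_le_mul_of_nonneg_left _ hM0.le
    calc ∑ k ∈ Finset.Ioc a (a + 3 * n), ‖c k‖ ^ 2
        ≤ ∑ _k ∈ Finset.Ioc a (a + 3 * n), B ^ 2 :=
          Finset.sum_le_sum fun k _ => pow_le_pow_left₀ (norm_nonneg _) (hB k) 2
      _ = 3 * n * B ^ 2 := by rw [Finset.sum_const, nsmul_eq_mul, hcard]
  have p2 : ∑ y : ZMod M, (n : ℝ) ^ 2 * ‖1 - fourier 1 (gr M y)‖ ^ 2 * ‖T y‖ ^ 2 ≤
      M * (3 * n * B ^ 2) := by
    have h1 : ∀ y : ZMod M, (n : ℝ) ^ 2 * ‖1 - fourier 1 (gr M y)‖ ^ 2 * ‖T y‖ ^ 2 =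
        (n : ℝ) ^ 2 * ‖∑ k ∈ Finset.Ioc a (a + 3 * n), (c k - c (k - 1)) *
          fourier k (gr M y)‖ ^ 2 := by
      intro y
      rw [← LONE_.diff_eq a n hn c hc (gr M y), norm_mul, mul_pow, mul_assoc]
    simp_rw [h1]
    rw [← Finset.mul_sum, LONE_.parseval _ _ (LONE_.inj_mod hn hM), ← mul_assoc,
      mul_comm ((n : ℝ) ^ 2), mul_assoc]
    apply mul_le_mul_of_nonneg_left _ hM0.le
    calc (n : ℝ) ^ 2 * ∑ k ∈ Finset.Ioc a (a + 3 * n), ‖c k - c (k - 1)‖ ^ 2
        ≤ (n : ℝ) ^ 2 * ∑ _k ∈ Finset.Ioc a (a + 3 * n), (B / n) ^ 2 := by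
          apply mul_le_mul_of_nonneg_left _ (by positivity)
          exact Finset.sum_le_sum fun k _ => pow_le_pow_left₀ (norm_nonneg _) (hL k) 2
      _ = 3 * n * B ^ 2 := by
          rw [Finset.sum_const, nsmul_eq_mul, hcard]
          field_simp
  -- Cauchy-Schwarz
  set w : ZMod M → ℝ := fun y => 1 + (n : ℝ) ^ 2 * ‖1 - fourier 1 (gr M y)‖ ^ 2 with hw
  have hw0 : ∀ y, 0 < w y := fun y => by rw [hw]; positivity
  have cs : (∑ y : ZMod M, ‖T y‖) ^ 2 ≤ (∑ y, w y * ‖T y‖ ^ 2) * ∑ y, 1 / w y := by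
    apply Finset.sum_sq_le_sum_mul_sum_of_sq_le_mul
    · intro y _
      have := hw0 y
      positivity
    · intro y _
      have := hw0 y
      positivity
    · intro y _
      have := hw0 y
      apply le_of_eq
      field_simp
  have q1 : ∑ y, w y * ‖T y‖ ^ 2 ≤ M * (6 * n * B ^ 2) := by
    have : ∑ y, w y * ‖T y‖ ^ 2 = ∑ y : ZMod M, ‖T y‖ ^ 2 +
        ∑ y : ZMod M, (n : ℝ) ^ 2 * ‖1 - fourier 1 (gr M y)‖ ^ 2 * ‖T y‖ ^ 2 := by
      rw [← Finset.sum_add_distrib]
      refine Finset.sum_congr rfl fun y _ => ?_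
      rw [hw]
      ring
    rw [this]
    linarith
  have q2 := LONE_.sum_inv (M := M) hn hM
  have q3 : (∑ y : ZMod M, ‖T y‖) ^ 2 ≤ (3 * B * M) ^ 2 := by
    calc (∑ y : ZMod M, ‖T y‖) ^ 2 ≤ (∑ y, w y * ‖T y‖ ^ 2) * ∑ y, 1 / w y := cs
      _ ≤ (M * (6 * n * B ^ 2)) * (5 * M / (4 * n)) := by
          apply mul_le_mul q1 q2
          · exact Finset.sum_nonneg fun y _ => (one_div_pos.mpr (hw0 y)).le
          · positivity
      _ = 15 / 2 * (B * M) ^ 2 := by
          field_simp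
          ring
      _ ≤ (3 * B * M) ^ 2 := by nlinarith [sq_nonneg (B * M)]
  have q4 : ∑ y : ZMod M, ‖T y‖ ≤ 3 * B * M := abs_le_of_sq_le_sq' q3 (by positivity) |>.2
  unfold avg
  rw [ZMod.card, div_le_iff₀ hM0]
  exact q4

end

end Pool.Agent.KW
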