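import Pool.Agent.KW.Stmts

set_option autoImplicit false

/-!
# LOWA: second moment of the weights
-/

open MeasureTheory
open scoped BigOperators ENNReal

namespace Pool.Agent.KW.LOWA_

noncomputable section

lemma ssq_pos (r : ℝ) (J : ℕ) : 0 < Ssq r J := by
  unfold Ssq
  exact Finset.sum_pos (fun j _ => Real.rpow_pos_of_pos two_pos _) ⟨0, by simp⟩

lemma ln_pos (hC : Stmt_Card) (d n : ℕ) (hd : 1 ≤ d) : 0 < (Ln d n : ℝ) := by
  have h1 := (hC d n hd).1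
  have h2 : (0 : ℝ) < ((n : ℝ) + 1) ^ (d - 1) := by positivity
  have h3 : (0 : ℝ) < (Nat.factorial (d - 1) : ℝ) := by exact_mod_cast Nat.factorial_pos _
  by_contra h
  have h4 : (Nat.factorial (d - 1) : ℝ) * (Ln d n : ℝ) ≤ 0 :=
    mul_nonpos_of_nonneg_of_nonpos h3.le (not_lt.1 h)
  linarith

lemma ln_le (hC : Stmt_Card) (d n j : ℕ) (hd : 1 ≤ d) (hj : j ≤ n) :
    (Ln d (n + j) : ℝ) ≤ 2 ^ (d - 1) * (Nat.factorial (d - 1) : ℝ) * (Ln d n : ℝ) := by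
  have h1 := (hC d n hd).1
  have h2 := (hC d (n + j) hd).2.1
  have h3 : (((n + j : ℕ) : ℝ) + 1) ^ (d - 1) ≤ (2 * ((n : ℝ) + 1)) ^ (d - 1) := by
    refine pow_le_pow_left₀ (by positivity) ?_ _
    have h4 : (j : ℝ) ≤ n := by exact_mod_cast hj
    push_cast
    linarith
  calc (Ln d (n + j) : ℝ) ≤ (2 * ((n : ℝ) + 1)) ^ (d - 1) := h2.trans h3
    _ = 2 ^ (d - 1) * ((n : ℝ) + 1) ^ (d - 1) := mul_pow _ _ _
    _ ≤ 2 ^ (d - 1) * ((Nat.factorial (d - 1) : ℝ) * (Ln d n : ℝ)) :=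
        mul_le_mul_of_nonneg_left h1 (by positivity)
    _ = _ := by ring

lemma term (d : ℕ) (r A : ℝ) (n J j : ℕ) (hj : j ≤ J) (hL : 0 < (Ln d n : ℝ)) :
    (wt d r A n J (n + j) * (2 : ℝ) ^ (r * ((n + j : ℕ) : ℝ))) ^ 2 *
      (Ln d (n + j) * ((2 : ℝ) ^ (n + j))⁻¹) =
    A ^ 2 * n / ((2 : ℝ) ^ n * (Ln d n : ℝ) ^ 2 * Ssq r J) * Ln d (n + j) *
      (2 : ℝ) ^ ((1 - 2 * r) * (j : ℝ)) := by
  have hS := ssq_pos r J
  have h0 : n ≤ n + j ∧ n + j ≤ n + J := ⟨by omega, by omega⟩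
  have h1 : wt d r A n J (n + j) * (2 : ℝ) ^ (r * ((n + j : ℕ) : ℝ)) =
      A * Real.sqrt n / (Ln d n * Real.sqrt (Ssq r J)) * (2 : ℝ) ^ ((1 - r) * (j : ℝ)) := by
    unfold wt
    rw [if_pos h0]
    have h2 : (2 : ℝ) ^ (-(r * n)) * (2 : ℝ) ^ ((1 - 2 * r) * (((n + j : ℕ) : ℝ) - n)) *
        (2 : ℝ) ^ (r * ((n + j : ℕ) : ℝ)) = (2 : ℝ) ^ ((1 - r) * (j : ℝ)) := by
      rw [← Real.rpow_add two_pos, ← Real.rpow_add two_pos]
      congr 1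
      push_cast
      ring
    rw [← h2]
    ring
  have h3 : ((2 : ℝ) ^ (n + j))⁻¹ = ((2 : ℝ) ^ n)⁻¹ * (2 : ℝ) ^ (-(j : ℝ)) := by
    rw [pow_add, mul_inv, Real.rpow_neg two_pos.le, Real.rpow_natCast]
  have h4 : ((2 : ℝ) ^ ((1 - r) * (j : ℝ))) ^ 2 * (2 : ℝ) ^ (-(j : ℝ)) =
      (2 : ℝ) ^ ((1 - 2 * r) * (j : ℝ)) := by
    rw [← Real.rpow_natCast, ← Real.rpow_mul two_pos.le, ← Real.rpow_add two_pos]
    congr 1
    push_cast
    ring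
  rw [h1, h3, ← h4, mul_pow, div_pow, mul_pow, mul_pow, Real.sq_sqrt (Nat.cast_nonneg _),
    Real.sq_sqrt hS.le]
  field_simp

end

end Pool.Agent.KW.LOWA_

namespace Pool.Agent.KW

open LOWA_

theorem lowa_proof (hC : Stmt_Card) : Stmt_LowA := by
  intro d r hd _
  refine ⟨2 ^ (d - 1) * (Nat.factorial (d - 1) : ℝ), by positivity, ?_⟩
  intro A n J _ _ hJ
  have hd1 : 1 ≤ d := by omega
  have hL := ln_pos hC d n hd1
  have hS := ssq_pos r J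
  rw [show n + J + 1 = n + (J + 1) by ring, Finset.sum_range_add]
  have hz : ∑ l ∈ Finset.range n, (wt d r A n J l * (2 : ℝ) ^ (r * l)) ^ 2 *
      (Ln d l * ((2 : ℝ) ^ l)⁻¹) = 0 := by
    refine Finset.sum_eq_zero fun l hl => ?_
    have h1 : wt d r A n J l = 0 := by
      unfold wt
      rw [if_neg]
      intro h
      exact absurd (Finset.mem_range.1 hl) (not_lt.2 h.1)
    rw [h1]
    ring
  rw [hz, zero_add]
  have hterm : ∀ j ∈ Finset.range (J + 1),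
      (wt d r A n J (n + j) * (2 : ℝ) ^ (r * ((n + j : ℕ) : ℝ))) ^ 2 *
        (Ln d (n + j) * ((2 : ℝ) ^ (n + j))⁻¹) ≤
      A ^ 2 * n / ((2 : ℝ) ^ n * (Ln d n : ℝ) ^ 2 * Ssq r J) *
        (2 ^ (d - 1) * (Nat.factorial (d - 1) : ℝ) * (Ln d n : ℝ)) *
        (2 : ℝ) ^ ((1 - 2 * r) * (j : ℝ)) := by
    intro j hj
    have hjJ : j ≤ J := Nat.lt_succ_iff.1 (Finset.mem_range.1 hj)
    rw [term d r A n J j hjJ hL]
    refine mul_le_mul_of_nonneg_right (mul_le_mul_of_nonneg_left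
      (ln_le hC d n j hd1 (hjJ.trans hJ)) ?_) (Real.rpow_pos_of_pos two_pos _).le
    positivity
  refine (Finset.sum_le_sum hterm).trans (le_of_eq ?_)
  rw [← Finset.mul_sum]
  change _ * Ssq r J = _
  field_simp

end Pool.Agent.KW
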