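import Pool.Agent.KW.Stmts

set_option autoImplicit false

open scoped BigOperators

namespace Pool.Agent.KW

namespace LOWB_

theorem Ln_pos (hC : Stmt_Card) (d n : ℕ) (hd : 2 ≤ d) : 0 < (Ln d n : ℝ) := by
  obtain ⟨h1, -, -⟩ := hC d n (by omega)
  have h2 : (0 : ℝ) < ((n : ℝ) + 1) ^ (d - 1) := by positivity
  have h3 : (0 : ℝ) < (Nat.factorial (d - 1) : ℝ) := by exact_mod_cast Nat.factorial_pos _
  by_contra hn
  have h4 : (Ln d n : ℝ) ≤ 0 := not_lt.mp hn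
  have h5 : (Nat.factorial (d - 1) : ℝ) * (Ln d n : ℝ) ≤ 0 :=
    mul_nonpos_of_nonneg_of_nonpos h3.le h4
  linarith

theorem Ln_dbl (hC : Stmt_Card) (d n j : ℕ) (hd : 2 ≤ d) (hj : j ≤ n) :
    (Ln d (n + j) : ℝ) ≤ (2 : ℝ) ^ (d - 1) * (Nat.factorial (d - 1) : ℝ) * (Ln d n : ℝ) := by
  obtain ⟨h1, -, -⟩ := hC d n (by omega)
  obtain ⟨-, h2, -⟩ := hC d (n + j) (by omega)
  have hj' : (j : ℝ) ≤ n := by exact_mod_cast hj
  have h3 : (((n + j : ℕ) : ℝ) + 1) ^ (d - 1) ≤ (2 * ((n : ℝ) + 1)) ^ (d - 1) := by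
    apply pow_le_pow_left₀ (by positivity)
    push_cast
    linarith
  rw [mul_pow] at h3
  calc (Ln d (n + j) : ℝ) ≤ (2 : ℝ) ^ (d - 1) * ((n : ℝ) + 1) ^ (d - 1) := h2.trans h3
    _ ≤ (2 : ℝ) ^ (d - 1) * ((Nat.factorial (d - 1) : ℝ) * (Ln d n : ℝ)) :=
        mul_le_mul_of_nonneg_left h1 (by positivity)
    _ = _ := by ring

theorem Ssq_ge (r : ℝ) (J j : ℕ) (hj : j ≤ J) : (2 : ℝ) ^ ((1 - 2 * r) * (j : ℝ)) ≤ Ssq r J := by
  unfold Ssq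
  exact Finset.single_le_sum (f := fun j : ℕ => (2 : ℝ) ^ ((1 - 2 * r) * (j : ℝ)))
    (fun i _ => Real.rpow_nonneg (by norm_num) _) (Finset.mem_range.mpr (by omega))

theorem Ssq_pos (r : ℝ) (J : ℕ) : 0 < Ssq r J :=
  lt_of_lt_of_le (Real.rpow_pos_of_pos (by norm_num) _) (Ssq_ge r J 0 (Nat.zero_le _))

theorem sqrt_ge (r : ℝ) (J j : ℕ) (hj : j ≤ J) :
    (2 : ℝ) ^ ((1 / 2 - r) * (j : ℝ)) ≤ Real.sqrt (Ssq r J) := by
  apply Real.le_sqrt_of_sq_le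
  have h1 : ((2 : ℝ) ^ ((1 / 2 - r) * (j : ℝ))) ^ 2 = (2 : ℝ) ^ ((1 - 2 * r) * (j : ℝ)) := by
    rw [← Real.rpow_natCast, ← Real.rpow_mul (by norm_num)]
    congr 1
    push_cast
    ring
  rw [h1]
  exact Ssq_ge r J j hj

theorem wt_mul (hC : Stmt_Card) (d : ℕ) (r A : ℝ) (n J j : ℕ) (hd : 2 ≤ d) (hA : 1 ≤ A)
    (hj : j ≤ J) :
    |wt d r A n J (n + j) * (2 : ℝ) ^ (r * ((n + j : ℕ) : ℝ))| ≤
      A * Real.sqrt n / Ln d n * (2 : ℝ) ^ ((j : ℝ) / 2) := by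
  have hL := Ln_pos hC d n hd
  have hS : 0 < Real.sqrt (Ssq r J) := Real.sqrt_pos.mpr (Ssq_pos r J)
  have hAp : 0 < A := by linarith
  have hcond : n ≤ n + j ∧ n + j ≤ n + J := ⟨by omega, by omega⟩
  have h1 : wt d r A n J (n + j) * (2 : ℝ) ^ (r * ((n + j : ℕ) : ℝ)) =
      A * Real.sqrt n / (Ln d n * Real.sqrt (Ssq r J)) * (2 : ℝ) ^ ((1 - r) * (j : ℝ)) := by
    unfold wt
    rw [if_pos hcond]
    have h2 : (2 : ℝ) ^ (-(r * (n : ℝ))) * (2 : ℝ) ^ ((1 - 2 * r) * (((n + j : ℕ) : ℝ) - n)) *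
        (2 : ℝ) ^ (r * ((n + j : ℕ) : ℝ)) = (2 : ℝ) ^ ((1 - r) * (j : ℝ)) := by
      rw [← Real.rpow_add (by norm_num), ← Real.rpow_add (by norm_num)]
      congr 1
      push_cast
      ring
    rw [← h2]
    ring
  rw [h1, abs_of_nonneg (by positivity)]
  have h3 : (2 : ℝ) ^ ((1 - r) * (j : ℝ)) =
      (2 : ℝ) ^ ((1 / 2 - r) * (j : ℝ)) * (2 : ℝ) ^ ((j : ℝ) / 2) := by
    rw [← Real.rpow_add (by norm_num)]
    congr 1
    ring
  rw [h3]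
  have h4 := sqrt_ge r J j hj
  have h5 : A * Real.sqrt n / (Ln d n * Real.sqrt (Ssq r J)) *
      ((2 : ℝ) ^ ((1 / 2 - r) * (j : ℝ)) * (2 : ℝ) ^ ((j : ℝ) / 2)) =
      (A * Real.sqrt n / Ln d n * (2 : ℝ) ^ ((j : ℝ) / 2)) *
        ((2 : ℝ) ^ ((1 / 2 - r) * (j : ℝ)) / Real.sqrt (Ssq r J)) := by
    field_simp
  rw [h5]
  have h6 : (2 : ℝ) ^ ((1 / 2 - r) * (j : ℝ)) / Real.sqrt (Ssq r J) ≤ 1 := by
    rw [div_le_one hS]; exact h4
  exact mul_le_of_le_one_right (by positivity) h6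

theorem geom (q : ℝ) (hq : 1 < q) (J : ℕ) :
    ∑ j ∈ Finset.range (J + 1), q ^ j ≤ q / (q - 1) * q ^ J := by
  have h0 : 0 < q - 1 := by linarith
  rw [geom_sum_eq (by linarith)]
  rw [div_le_iff₀ h0]
  have h1 : q / (q - 1) * q ^ J * (q - 1) = q ^ (J + 1) := by
    field_simp
    ring
  rw [h1]
  linarith

end LOWB_

open LOWB_ in
theorem lowb_proof (hC : Stmt_Card) : Stmt_LowB := by
  intro d k r hd hk hr
  set e : ℝ := 1 / (2 * (k : ℝ)) with he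
  have hk0 : (0 : ℝ) < k := by exact_mod_cast (by omega : 0 < k)
  have hk2 : (2 : ℝ) ≤ k := by exact_mod_cast hk
  have he0 : 0 < e := by positivity
  have he1 : e * (2 * k) = 1 := by rw [he]; field_simp
  have he4 : e ≤ 1 / 4 := by
    rw [he]
    apply one_div_le_one_div_of_le (by norm_num)
    linarith
  set q : ℝ := (2 : ℝ) ^ (1 / 2 - e) with hq
  have hq1 : 1 < q := by
    rw [hq]
    exact Real.one_lt_rpow (by norm_num) (by linarith)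
  have hq0 : 0 < q := by linarith
  have hq2k : q ^ (2 * k) = 2 ^ (k - 1) := by
    rw [hq, ← Real.rpow_natCast, ← Real.rpow_mul (by norm_num), ← Real.rpow_natCast]
    congr 1
    rw [Nat.cast_sub (by omega)]
    push_cast
    have : (1 / 2 - e) * (2 * (k : ℝ)) = k - e * (2 * k) := by ring
    rw [this, he1]
  set C1 : ℝ := (2 : ℝ) ^ (d - 1) * (Nat.factorial (d - 1) : ℝ) with hC1
  have hC1p : 0 < C1 := by
    have : (0 : ℝ) < (Nat.factorial (d - 1) : ℝ) := by exact_mod_cast Nat.factorial_pos _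
    positivity
  refine ⟨(q / (q - 1)) ^ (2 * k) * C1, ?_, ?_⟩
  · have : 0 < q - 1 := by linarith
    positivity
  intro A n J hA hn hJ hAn
  have hL := Ln_pos hC d n hd
  have hAp : 0 < A := by linarith
  have hnp : (0 : ℝ) < n := by exact_mod_cast (by omega : 0 < n)
  have hq10 : 0 < q - 1 := by linarith
  set L : ℝ := (Ln d n : ℝ) with hLdef
  set K : ℝ := A * Real.sqrt n / L * (C1 * L * ((2 : ℝ) ^ n)⁻¹) ^ e with hK
  have hbase : 0 < C1 * L * ((2 : ℝ) ^ n)⁻¹ := by positivity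
  have hKp : 0 < K := by
    rw [hK]
    have : 0 < (C1 * L * ((2 : ℝ) ^ n)⁻¹) ^ e := Real.rpow_pos_of_pos hbase _
    have h2 : 0 < Real.sqrt (n : ℝ) := Real.sqrt_pos.mpr hnp
    positivity
  -- each term
  have hterm : ∀ j ∈ Finset.range (J + 1),
      |wt d r A n J (n + j) * (2 : ℝ) ^ (r * ((n + j : ℕ) : ℝ))| *
        ((Ln d (n + j) : ℝ) * ((2 : ℝ) ^ (n + j))⁻¹) ^ e ≤ K * q ^ j := by
    intro j hj
    have hjJ : j ≤ J := by have := Finset.mem_range.mp hj; omega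
    have h1 := wt_mul hC d r A n J j hd hA hjJ
    have h2 : ((Ln d (n + j) : ℝ) * ((2 : ℝ) ^ (n + j))⁻¹) ^ e ≤
        (C1 * L * ((2 : ℝ) ^ n)⁻¹) ^ e * (2 : ℝ) ^ (-(e * j)) := by
      have h3 : (2 : ℝ) ^ (-(e * (j : ℝ))) = (((2 : ℝ) ^ j)⁻¹) ^ e := by
        rw [← Real.rpow_natCast, ← Real.rpow_neg (by norm_num), ← Real.rpow_mul (by norm_num)]
        congr 1
        ring
      rw [h3, ← Real.mul_rpow hbase.le (by positivity)]
      apply Real.rpow_le_rpow (by positivity) _ he0.le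
      have h4 := Ln_dbl hC d n j hd (by omega)
      have h5 : C1 * L * ((2 : ℝ) ^ n)⁻¹ * ((2 : ℝ) ^ j)⁻¹ = C1 * L * ((2 : ℝ) ^ (n + j))⁻¹ := by
        rw [pow_add, mul_inv]; ring
      rw [h5]
      exact mul_le_mul_of_nonneg_right h4 (by positivity)
    have h6 : q ^ j = (2 : ℝ) ^ ((j : ℝ) / 2) * (2 : ℝ) ^ (-(e * j)) := by
      rw [← Real.rpow_add (by norm_num), hq, ← Real.rpow_natCast, ← Real.rpow_mul (by norm_num)]
      congr 1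
      ring
    calc _ ≤ (A * Real.sqrt n / L * (2 : ℝ) ^ ((j : ℝ) / 2)) *
          ((C1 * L * ((2 : ℝ) ^ n)⁻¹) ^ e * (2 : ℝ) ^ (-(e * j))) :=
        mul_le_mul h1 h2 (Real.rpow_nonneg (by positivity) _) (by positivity)
      _ = K * q ^ j := by rw [h6, hK]; ring
  -- the sum
  have hsum : ∑ l ∈ Finset.range (n + J + 1), |wt d r A n J l * (2 : ℝ) ^ (r * (l : ℝ))| *
      ((Ln d l : ℝ) * ((2 : ℝ) ^ l)⁻¹) ^ e ≤ K * (q / (q - 1) * q ^ J) := by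
    rw [add_assoc, Finset.sum_range_add]
    have h0 : ∑ l ∈ Finset.range n, |wt d r A n J l * (2 : ℝ) ^ (r * (l : ℝ))| *
        ((Ln d l : ℝ) * ((2 : ℝ) ^ l)⁻¹) ^ e = 0 := by
      apply Finset.sum_eq_zero
      intro l hl
      have hl' := Finset.mem_range.mp hl
      have : wt d r A n J l = 0 := by
        unfold wt
        rw [if_neg (by omega)]
      rw [this]
      simp
    rw [h0, zero_add]
    calc _ ≤ ∑ j ∈ Finset.range (J + 1), K * q ^ j := Finset.sum_le_sum hterm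
      _ = K * ∑ j ∈ Finset.range (J + 1), q ^ j := by rw [Finset.mul_sum]
      _ ≤ _ := mul_le_mul_of_nonneg_left (geom q hq1 J) hKp.le
  have hnn : 0 ≤ ∑ l ∈ Finset.range (n + J + 1), |wt d r A n J l * (2 : ℝ) ^ (r * (l : ℝ))| *
      ((Ln d l : ℝ) * ((2 : ℝ) ^ l)⁻¹) ^ e :=
    Finset.sum_nonneg fun l _ => mul_nonneg (abs_nonneg _) (Real.rpow_nonneg (by positivity) _)
  have hpow := pow_le_pow_left₀ hnn hsum (2 * k)
  refine hpow.trans ?_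
  -- the power of the bound
  have hK2k : K ^ (2 * k) = (A ^ 2 * n / L ^ 2) ^ k * (C1 * L * ((2 : ℝ) ^ n)⁻¹) := by
    rw [hK, mul_pow]
    congr 1
    · rw [pow_mul, div_pow, mul_pow, Real.sq_sqrt hnp.le]
    · rw [← Real.rpow_natCast, ← Real.rpow_mul hbase.le]
      push_cast
      rw [he1, Real.rpow_one]
  have hqJ : (q ^ J) ^ (2 * k) = ((2 : ℝ) ^ J) ^ (k - 1) := by
    rw [← pow_mul, mul_comm J, pow_mul, hq2k, ← pow_mul, ← pow_mul, mul_comm]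
  have hfin : (A ^ 2 * n / L ^ 2) ^ k * ((2 : ℝ) ^ J) ^ (k - 1) ≤ A ^ 2 * n / L ^ 2 := by
    obtain ⟨m, rfl⟩ : ∃ m, k = m + 1 := ⟨k - 1, by omega⟩
    have h1 : m + 1 - 1 = m := by omega
    rw [h1, pow_succ]
    have h2 : (A ^ 2 * n / L ^ 2) ^ m * (A ^ 2 * n / L ^ 2) * ((2 : ℝ) ^ J) ^ m =
        (A ^ 2 * n * (2 : ℝ) ^ J / L ^ 2) ^ m * (A ^ 2 * n / L ^ 2) := by
      have : A ^ 2 * n * (2 : ℝ) ^ J / L ^ 2 = (A ^ 2 * n / L ^ 2) * (2 : ℝ) ^ J := by ring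
      rw [this, mul_pow]; ring
    rw [h2]
    have h3 : A ^ 2 * n * (2 : ℝ) ^ J / L ^ 2 ≤ 1 := by
      rw [div_le_one (by positivity)]; exact hAn
    have h4 : (A ^ 2 * n * (2 : ℝ) ^ J / L ^ 2) ^ m ≤ 1 := pow_le_one₀ (by positivity) h3
    exact mul_le_of_le_one_left (by positivity) h4
  calc (K * (q / (q - 1) * q ^ J)) ^ (2 * k)
      = (q / (q - 1)) ^ (2 * k) * (C1 * L * ((2 : ℝ) ^ n)⁻¹) *
        ((A ^ 2 * n / L ^ 2) ^ k * ((2 : ℝ) ^ J) ^ (k - 1)) := by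
        rw [mul_pow K, mul_pow (q / (q - 1)), hqJ, hK2k]; ring
    _ ≤ (q / (q - 1)) ^ (2 * k) * (C1 * L * ((2 : ℝ) ^ n)⁻¹) * (A ^ 2 * n / L ^ 2) :=
        mul_le_mul_of_nonneg_left hfin (by positivity)
    _ = (q / (q - 1)) ^ (2 * k) * C1 * (A ^ 2 * n / ((2 : ℝ) ^ n * L)) := by
        field_simp

end Pool.Agent.KW
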