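import Pool.Agent.KW.Stmts

set_option autoImplicit false

/-!
# LOWC: the choice of the number of layers, and the peak
-/

open scoped BigOperators

namespace Pool.Agent.KW

namespace LOWC_

theorem term_le (r : ℝ) (J : ℕ) : (2 : ℝ) ^ ((1 - 2 * r) * (J : ℝ)) ≤ Ssq r J := by
  unfold Ssq
  exact Finset.single_le_sum (f := fun j : ℕ => (2 : ℝ) ^ ((1 - 2 * r) * (j : ℝ)))
    (fun j _ => by positivity) (Finset.mem_range.2 (Nat.lt_succ_self J))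

theorem Ssq_pos (r : ℝ) (J : ℕ) : 0 < Ssq r J :=
  lt_of_lt_of_le (by positivity) (term_le r J)

theorem Ssq_succ (r : ℝ) (J : ℕ) :
    Ssq r (J + 1) ≤ (1 + (2 : ℝ) ^ (1 - 2 * r)) * Ssq r J := by
  have h1 : Ssq r (J + 1) = Ssq r J + (2 : ℝ) ^ ((1 - 2 * r) * ((J + 1 : ℕ) : ℝ)) := by
    unfold Ssq
    rw [Finset.sum_range_succ]
  have h2 : (2 : ℝ) ^ ((1 - 2 * r) * ((J + 1 : ℕ) : ℝ)) =
      (2 : ℝ) ^ (1 - 2 * r) * (2 : ℝ) ^ ((1 - 2 * r) * (J : ℝ)) := by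
    rw [← Real.rpow_add (by norm_num : (0 : ℝ) < 2)]
    congr 1
    push_cast
    ring
  rw [h1, h2]
  have h3 := mul_le_mul_of_nonneg_left (term_le r J)
    (by positivity : (0 : ℝ) ≤ (2 : ℝ) ^ (1 - 2 * r))
  linarith

theorem Ssq_add (r : ℝ) (J i : ℕ) :
    Ssq r (J + i) ≤ (1 + (2 : ℝ) ^ (1 - 2 * r)) ^ i * Ssq r J := by
  induction i with
  | zero => simp
  | succ i ih =>
    have h1 := Ssq_succ r (J + i)
    have h2 := mul_le_mul_of_nonneg_left ih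
      (by positivity : (0 : ℝ) ≤ 1 + (2 : ℝ) ^ (1 - 2 * r))
    calc Ssq r (J + (i + 1)) ≤ (1 + (2 : ℝ) ^ (1 - 2 * r)) * Ssq r (J + i) := h1
      _ ≤ (1 + (2 : ℝ) ^ (1 - 2 * r)) * ((1 + (2 : ℝ) ^ (1 - 2 * r)) ^ i * Ssq r J) := h2
      _ = (1 + (2 : ℝ) ^ (1 - 2 * r)) ^ (i + 1) * Ssq r J := by ring

theorem sq_le_two_pow : ∀ m : ℕ, 4 ≤ m → m * m ≤ 2 ^ m := by
  intro m hm
  induction m, hm using Nat.le_induction with
  | base => norm_num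
  | succ m hm ih =>
    rw [pow_succ]
    nlinarith

/-- The peak. -/
theorem peak (d : ℕ) (r A : ℝ) (n J : ℕ) (hn : 1 ≤ n) (hA : 1 ≤ A)
    (hL : ∀ l, n ≤ l → Ln d n ≤ Ln d l) (hLp : 0 < Ln d n) :
    (2 : ℝ) ^ (-(r * (n : ℝ))) * Real.sqrt n * Real.sqrt (Ssq r J) ≤
      ∑ l ∈ Finset.range (n + J + 1), wt d r A n J l * Ln d l := by
  have hS := Ssq_pos r J
  have hsS : 0 < Real.sqrt (Ssq r J) := Real.sqrt_pos.2 hS
  have hLp' : (0 : ℝ) < Ln d n := by exact_mod_cast hLp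
  have h1 : ∑ l ∈ Finset.range (n + J + 1), wt d r A n J l * Ln d l =
      ∑ l ∈ Finset.range n, wt d r A n J l * Ln d l +
      ∑ j ∈ Finset.range (J + 1), wt d r A n J (n + j) * Ln d (n + j) := by
    rw [add_assoc, Finset.sum_range_add]
  have h2 : ∑ l ∈ Finset.range n, wt d r A n J l * Ln d l = 0 := by
    apply Finset.sum_eq_zero
    intro l hl
    have hl' := Finset.mem_range.1 hl
    unfold wt
    rw [if_neg (by omega), zero_mul]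
  rw [h1, h2, zero_add]
  have h3 : ∀ j ∈ Finset.range (J + 1),
      A * Real.sqrt n / Real.sqrt (Ssq r J) * (2 : ℝ) ^ (-(r * (n : ℝ))) *
        (2 : ℝ) ^ ((1 - 2 * r) * (j : ℝ)) ≤ wt d r A n J (n + j) * Ln d (n + j) := by
    intro j hj
    have hj' := Finset.mem_range.1 hj
    unfold wt
    rw [if_pos (by omega)]
    have h4 : ((n + j : ℕ) : ℝ) - n = j := by push_cast; ring
    rw [h4]
    have h5 : (Ln d n : ℝ) ≤ Ln d (n + j) := by exact_mod_cast hL (n + j) (by omega)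
    have h6 : A * Real.sqrt n / Real.sqrt (Ssq r J) * (2 : ℝ) ^ (-(r * (n : ℝ))) *
        (2 : ℝ) ^ ((1 - 2 * r) * (j : ℝ)) =
        A * Real.sqrt n / (Ln d n * Real.sqrt (Ssq r J)) * (2 : ℝ) ^ (-(r * (n : ℝ))) *
        (2 : ℝ) ^ ((1 - 2 * r) * (j : ℝ)) * Ln d n := by
      field_simp
    rw [h6]
    apply mul_le_mul_of_nonneg_left h5
    have : 0 ≤ A := by linarith
    positivity
  have h7 := Finset.sum_le_sum h3
  rw [← Finset.mul_sum] at h7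
  refine le_trans ?_ h7
  have h8 : ∑ j ∈ Finset.range (J + 1), (2 : ℝ) ^ ((1 - 2 * r) * (j : ℝ)) = Ssq r J := rfl
  rw [h8]
  have h9 : A * Real.sqrt n / Real.sqrt (Ssq r J) * (2 : ℝ) ^ (-(r * (n : ℝ))) * Ssq r J =
      A * ((2 : ℝ) ^ (-(r * (n : ℝ))) * Real.sqrt n * Real.sqrt (Ssq r J)) := by
    have h10 : Ssq r J = Real.sqrt (Ssq r J) * Real.sqrt (Ssq r J) :=
      (Real.mul_self_sqrt hS.le).symm
    have h11 : Ssq r J / Real.sqrt (Ssq r J) = Real.sqrt (Ssq r J) := by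
      rw [div_eq_iff hsS.ne']
      exact h10
    calc A * Real.sqrt n / Real.sqrt (Ssq r J) * (2 : ℝ) ^ (-(r * (n : ℝ))) * Ssq r J
        = A * ((2 : ℝ) ^ (-(r * (n : ℝ))) * Real.sqrt n * (Ssq r J / Real.sqrt (Ssq r J))) := by
          ring
      _ = _ := by rw [h11]
  rw [h9]
  have h12 : 0 ≤ (2 : ℝ) ^ (-(r * (n : ℝ))) * Real.sqrt n * Real.sqrt (Ssq r J) := by positivity
  nlinarith

end LOWC_

open LOWC_ in
theorem lowc_proof (hCard : Stmt_Card) : Stmt_LowC := by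
  intro d r A hd hr hA
  obtain ⟨J0, hJ0⟩ := pow_unbounded_of_one_lt (A ^ 2 * (Nat.factorial (d - 1) : ℝ) ^ 2)
    (by norm_num : (1 : ℝ) < 2)
  have hc1 : (1 : ℝ) ≤ 1 + (2 : ℝ) ^ (1 - 2 * r) := by
    have : (0 : ℝ) < (2 : ℝ) ^ (1 - 2 * r) := by positivity
    linarith
  have hc2 : (1 : ℝ) ≤ (1 + (2 : ℝ) ^ (1 - 2 * r)) ^ J0 := one_le_pow₀ hc1
  have hc3 : (0 : ℝ) < (1 + (2 : ℝ) ^ (1 - 2 * r)) ^ J0 := by linarith
  refine ⟨((1 + (2 : ℝ) ^ (1 - 2 * r)) ^ J0)⁻¹, 2 ^ (J0 + 4 + 2 * d), by positivity, ?_⟩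
  intro n hn
  have hn1 : 1 ≤ n := le_trans (Nat.one_le_two_pow) hn
  have hlog : J0 + 4 + 2 * d ≤ Nat.log 2 n :=
    (Nat.le_log_iff_pow_le (by norm_num) (by omega)).2 hn
  have hJ1 : J0 ≤ Jn d n := by
    unfold Jn
    calc J0 ≤ 1 * Nat.log 2 n := by omega
      _ ≤ (2 * d - 3) * Nat.log 2 n := Nat.mul_le_mul_right _ (by omega)
  have hpl : 2 ^ Nat.log 2 n ≤ n := Nat.pow_log_le_self 2 (by omega)
  have hJ2 : Jn d n ≤ n := by
    unfold Jn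
    calc (2 * d - 3) * Nat.log 2 n ≤ Nat.log 2 n * Nat.log 2 n :=
          Nat.mul_le_mul_right _ (by omega)
      _ ≤ 2 ^ Nat.log 2 n := sq_le_two_pow _ (by omega)
      _ ≤ n := hpl
  obtain ⟨hC1, -, hC3⟩ := hCard d n (by omega)
  have hn1' : (1 : ℝ) ≤ n := by exact_mod_cast hn1
  have hLpos : 0 < Ln d n := by
    rcases Nat.eq_zero_or_pos (Ln d n) with h | h
    · rw [h] at hC1
      have : (0 : ℝ) < ((n : ℝ) + 1) ^ (d - 1) := by positivity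
      norm_num at hC1
      linarith
    · exact h
  have hJS : Ssq r (Jn d n) ≤ (1 + (2 : ℝ) ^ (1 - 2 * r)) ^ J0 * Ssq r (Jn d n - J0) := by
    have h := Ssq_add r (Jn d n - J0) J0
    rwa [Nat.sub_add_cancel hJ1] at h
  refine ⟨Jn d n - J0, by omega, ?_, ?_, ?_⟩
  · -- the number of layers
    have h1 : (2 : ℝ) ^ (Jn d n) ≤ (n : ℝ) ^ (2 * d - 3) := by
      have h2 : (2 : ℕ) ^ (Jn d n) ≤ n ^ (2 * d - 3) := by
        unfold Jn
        rw [mul_comm, pow_mul]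
        exact Nat.pow_le_pow_left hpl _
      exact_mod_cast h2
    have h3 : (2 : ℝ) ^ (Jn d n) = (2 : ℝ) ^ (Jn d n - J0) * (2 : ℝ) ^ J0 := by
      rw [← pow_add, Nat.sub_add_cancel hJ1]
    have h4 : (n : ℝ) ^ (d - 1) ≤ (Nat.factorial (d - 1) : ℝ) * (Ln d n : ℝ) := by
      refine le_trans ?_ hC1
      exact pow_le_pow_left₀ (by linarith) (by linarith) _
    have h5 : (n : ℝ) * (n : ℝ) ^ (2 * d - 3) = ((n : ℝ) ^ (d - 1)) ^ 2 := by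
      rw [← pow_succ', ← pow_mul]
      congr 1
      omega
    have h6 : ((n : ℝ) ^ (d - 1)) ^ 2 ≤
        ((Nat.factorial (d - 1) : ℝ) * (Ln d n : ℝ)) ^ 2 :=
      pow_le_pow_left₀ (by positivity) h4 2
    have h7 : A ^ 2 * n * (2 : ℝ) ^ (Jn d n - J0) * (2 : ℝ) ^ J0 ≤
        (Ln d n : ℝ) ^ 2 * (2 : ℝ) ^ J0 := by
      calc A ^ 2 * n * (2 : ℝ) ^ (Jn d n - J0) * (2 : ℝ) ^ J0
          = A ^ 2 * (n * (2 : ℝ) ^ (Jn d n)) := by rw [h3]; ring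
        _ ≤ A ^ 2 * (n * (n : ℝ) ^ (2 * d - 3)) := by gcongr
        _ = A ^ 2 * ((n : ℝ) ^ (d - 1)) ^ 2 := by rw [h5]
        _ ≤ A ^ 2 * ((Nat.factorial (d - 1) : ℝ) * (Ln d n : ℝ)) ^ 2 := by gcongr
        _ = A ^ 2 * (Nat.factorial (d - 1) : ℝ) ^ 2 * (Ln d n : ℝ) ^ 2 := by ring
        _ ≤ (2 : ℝ) ^ J0 * (Ln d n : ℝ) ^ 2 := by gcongr
        _ = (Ln d n : ℝ) ^ 2 * (2 : ℝ) ^ J0 := by ring
    exact le_of_mul_le_mul_right h7 (by positivity)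
  · rw [inv_mul_le_iff₀ hc3]
    exact hJS
  · refine le_trans ?_ (peak d r A n (Jn d n - J0) hn1 hA hC3 hLpos)
    unfold Th
    have h1 : ((1 + (2 : ℝ) ^ (1 - 2 * r)) ^ J0)⁻¹ * Real.sqrt (Ssq r (Jn d n)) ≤
        Real.sqrt (Ssq r (Jn d n - J0)) := by
      rw [inv_mul_le_iff₀ hc3]
      have hS1 := Ssq_pos r (Jn d n - J0)
      apply Real.sqrt_le_iff.2
      constructor
      · positivity
      · rw [mul_pow, Real.sq_sqrt hS1.le]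
        refine le_trans hJS ?_
        apply mul_le_mul_of_nonneg_right _ hS1.le
        nlinarith
    calc ((1 + (2 : ℝ) ^ (1 - 2 * r)) ^ J0)⁻¹ *
          ((2 : ℝ) ^ (-(r * (n : ℝ))) * Real.sqrt n * Real.sqrt (Ssq r (Jn d n)))
        = (2 : ℝ) ^ (-(r * (n : ℝ))) * Real.sqrt n *
          (((1 + (2 : ℝ) ^ (1 - 2 * r)) ^ J0)⁻¹ * Real.sqrt (Ssq r (Jn d n))) := by ring
      _ ≤ (2 : ℝ) ^ (-(r * (n : ℝ))) * Real.sqrt n * Real.sqrt (Ssq r (Jn d n - J0)) := by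
          gcongr

end Pool.Agent.KW
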