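import Pool.Agent.KW.Stmts

set_option autoImplicit false

/-!
# LOWF: a large family of separated test functions
-/

open MeasureTheory
open scoped BigOperators ENNReal

namespace Pool.Agent.KW

noncomputable section

namespace LOWF_

theorem grd_sub {d M : ℕ} [NeZero M] (x y : Fin d → ZMod M) :
    grd M (x - y) = grd M x - grd M y := by
  funext i
  simp only [grd, gr, Pi.sub_apply]
  exact map_sub ZMod.toAddCircle (x i) (y i)

theorem TS_grd {d M N : ℕ} [NeZero M] (κ : Tor d → ℝ) (ω : Fin N → (Fin d → ZMod M) × Bool)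
    (x : Fin d → ZMod M) : TS κ ω (grd M x) = RS (fun y => κ (grd M y)) ω x := by
  unfold TS RS
  refine Finset.sum_congr rfl fun i _ => ?_
  simp only [grd_sub]

theorem continuous_of_rtrig (h2 : Stmt_Trig) {d D : ℕ} {f : Tor d → ℝ} (hf : RTrig D f) :
    Continuous f := by
  have h := h2.2.1 d D _ hf
  have h' : Continuous fun x => ((f x : ℂ)).re := Complex.continuous_re.comp h
  simpa using h'

theorem Th_nonneg (d : ℕ) (r : ℝ) (n : ℕ) : 0 ≤ Th d r n := by
  unfold Th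
  positivity

theorem coef_smul {d : ℕ} (f : Tor d → ℝ) (c : ℝ) (n : Fin d → ℤ) :
    coef (fun x => ((c * f x : ℝ) : ℂ)) n = (c : ℂ) * coef (fun x => (f x : ℂ)) n := by
  unfold coef
  rw [← integral_const_mul]
  refine integral_congr_ae (Filter.Eventually.of_forall fun x => ?_)
  simp only
  push_cast
  ring

theorem coef_toL {d : ℕ} (f : C(Tor d, ℝ)) (n : Fin d → ℤ) :
    coef (fun x => ((toL f : Tor d → ℝ) x : ℂ)) n = coef (fun x => ((f x : ℝ) : ℂ)) n := by
  unfold coef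
  refine integral_congr_ae ?_
  have h : (toL f : Tor d → ℝ) =ᵐ[mu d] f := ContinuousMap.coeFn_toLp (mu d) (𝕜 := ℝ) f
  filter_upwards [h] with x hx
  rw [hx]

theorem memLp_of_continuous {d : ℕ} (f : Tor d → ℝ) (hf : Continuous f) (q : ℝ≥0∞) :
    MemLp f q (mu d) := by
  have h : MemLp f ⊤ (mu d) := by
    have h1 : MemLp (toL ⟨f, hf⟩ : Tor d → ℝ) ⊤ (mu d) := Lp.memLp _
    have h2 : (toL ⟨f, hf⟩ : Tor d → ℝ) =ᵐ[mu d] f :=
      ContinuousMap.coeFn_toLp (mu d) (𝕜 := ℝ) ⟨f, hf⟩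
    exact (memLp_congr_ae h2).1 h1
  exact h.mono_exponent le_top

end LOWF_

open LOWF_

theorem lowf_proof (h1 : Stmt_LowG) (h2 : Stmt_Trig) (h3 : Stmt_Disc) (h4 : Stmt_Quad)
    (_h5 : Stmt_SupN) (h6 : Stmt_KapC) : Stmt_LowF := by
  intro d p r α hd hp hr
  obtain ⟨c, B, Q, n₀, hc, hB, hQ, hmain⟩ := h1 d p r (α * Real.pi / 2) hd hp hr
  refine ⟨min c (c / Q), 3 ^ d * B, n₀, lt_min hc (div_pos hc hQ), by positivity, ?_⟩
  intro n hn
  obtain ⟨h, M, N, hM, b, P, F, hM1, hM2, hP, hPT, hF, hsup, hmom, hsep⟩ := hmain n hn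
  -- the test functions
  have hT : ∀ ω : Fin N → (Fin d → ZMod M) × Bool, RTrig (2 ^ (h + 2)) (TS (kap d b h 0 0) ω) :=
    fun ω => h2.2.2.2.2 d b h 0 0 N M ω
  have hT' : ∀ ω : Fin N → (Fin d → ZMod M) × Bool, RTrig (2 ^ (h + 2))
      (TS (kap d (fun l => b l * (2 : ℝ) ^ (r * l)) h r (α * Real.pi / 2)) ω) :=
    fun ω => h2.2.2.2.2 d _ h r (α * Real.pi / 2) N M ω
  have hcont : ∀ ω : Fin N → (Fin d → ZMod M) × Bool, Continuous (TS (kap d b h 0 0) ω) :=
    fun ω => continuous_of_rtrig h2 (hT ω)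
  have hcont' : ∀ ω : Fin N → (Fin d → ZMod M) × Bool, Continuous
      (TS (kap d (fun l => b l * (2 : ℝ) ^ (r * l)) h r (α * Real.pi / 2)) ω) :=
    fun ω => continuous_of_rtrig h2 (hT' ω)
  let G : (Fin N → (Fin d → ZMod M) × Bool) → C(Tor d, ℝ) := fun ω =>
    ⟨fun x => Q⁻¹ * TS (kap d b h 0 0) ω x, continuous_const.mul (hcont ω)⟩
  have hG : ∀ ω x, G ω x = Q⁻¹ * TS (kap d b h 0 0) ω x := fun ω x => rfl
  -- separation
  have hsepG : ∀ ω ∈ F, ∀ ω' ∈ F, ω ≠ ω' → P / Q ≤ ‖G ω - G ω'‖ := by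
    intro ω hω ω' hω' hne
    obtain ⟨x, hx⟩ := hsep ω hω ω' hω' hne
    have e1 : (G ω - G ω') (grd M x) =
        Q⁻¹ * (RS (fun y => kap d b h 0 0 (grd M y)) ω x -
          RS (fun y => kap d b h 0 0 (grd M y)) ω' x) := by
      rw [ContinuousMap.sub_apply, hG, hG, TS_grd, TS_grd]
      ring
    have e2 : ‖(G ω - G ω') (grd M x)‖ ≤ ‖G ω - G ω'‖ := ContinuousMap.norm_coe_le_norm _ _
    rw [e1, norm_mul, Real.norm_eq_abs, Real.norm_eq_abs, abs_of_pos (inv_pos.2 hQ)] at e2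
    refine le_trans ?_ e2
    rw [div_eq_inv_mul]
    exact mul_le_mul_of_nonneg_left hx (inv_pos.2 hQ).le
  have hPQ : 0 < P / Q := div_pos hP hQ
  have hinj : Set.InjOn G F := by
    intro ω hω ω' hω' he
    by_contra hne
    have := hsepG ω hω ω' hω' hne
    rw [he, sub_self, norm_zero] at this
    linarith
  classical
  refine ⟨P / Q, F.image G, hPQ, ?_, ?_, ?_, ?_, ?_⟩
  · have h0 := Th_nonneg d r n
    calc min c (c / Q) * Th d r n ≤ c / Q * Th d r n :=
          mul_le_mul_of_nonneg_right (min_le_right _ _) h0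
      _ = c * Th d r n / Q := by ring
      _ ≤ P / Q := div_le_div_of_nonneg_right hPT hQ.le
  · rw [Finset.card_image_of_injOn hinj]
    refine le_trans (Real.exp_le_exp.2 ?_) hF
    exact mul_le_mul_of_nonneg_right (min_le_left _ _) (by positivity)
  · intro f hf
    obtain ⟨ω, hω, rfl⟩ := Finset.mem_image.1 hf
    have h0 : 0 ≤ 3 ^ d * B * (P / Q) := by positivity
    rw [ContinuousMap.norm_le _ h0]
    intro x
    have h7 := h3 d (2 ^ (h + 2)) M Nat.one_le_two_pow hM1 _ (hT ω) (B * P) (by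
      intro y
      rw [Complex.norm_real, Real.norm_eq_abs, TS_grd]
      exact hsup ω hω y) x
    rw [Complex.norm_real] at h7
    rw [hG, norm_mul, Real.norm_eq_abs, abs_of_pos (inv_pos.2 hQ)]
    calc Q⁻¹ * ‖TS (kap d b h 0 0) ω x‖ ≤ Q⁻¹ * (3 ^ d * (B * P)) :=
          mul_le_mul_of_nonneg_left h7 (inv_pos.2 hQ).le
      _ = 3 ^ d * B * (P / Q) := by ring
  · intro f hf g hg hne
    obtain ⟨ω, hω, rfl⟩ := Finset.mem_image.1 hf
    obtain ⟨ω', hω', rfl⟩ := Finset.mem_image.1 hg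
    exact hsepG ω hω ω' hω' (fun he => hne (by rw [he]))
  · intro f hf
    obtain ⟨ω, hω, rfl⟩ := Finset.mem_image.1 hf
    refine ⟨fun x => Q⁻¹ * TS (kap d (fun l => b l * (2 : ℝ) ^ (r * l)) h r
      (α * Real.pi / 2)) ω x, ?_, ?_, ?_⟩
    · exact memLp_of_continuous _ (continuous_const.mul (hcont' ω)) _
    · have h8 := h4.2 d (2 ^ (h + 2)) M p _ Q hp hM2 (hT' ω) hQ.le (by
        have h9 := hmom ω hω
        refine le_trans (le_of_eq ?_) h9
        refine congrArg avg ?_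
        funext y
        rw [TS_grd])
      have h10 : (fun x => Q⁻¹ * TS (kap d (fun l => b l * (2 : ℝ) ^ (r * l)) h r
          (α * Real.pi / 2)) ω x) = Q⁻¹ • (TS (kap d (fun l => b l * (2 : ℝ) ^ (r * l)) h r
          (α * Real.pi / 2)) ω) := by
        funext x
        simp [smul_eq_mul]
      rw [h10, eLpNorm_const_smul]
      calc ‖Q⁻¹‖ₑ * eLpNorm (TS (kap d (fun l => b l * (2 : ℝ) ^ (r * l)) h r
          (α * Real.pi / 2)) ω) (2 * p : ℕ) (mu d) ≤ ‖Q⁻¹‖ₑ * ENNReal.ofReal Q :=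
            mul_le_mul_right h8 _
        _ = 1 := by
          rw [Real.enorm_eq_ofReal (inv_pos.2 hQ).le, ← ENNReal.ofReal_mul (inv_pos.2 hQ).le,
            inv_mul_cancel₀ hQ.ne', ENNReal.ofReal_one]
    · intro m
      rw [coef_toL]
      have e1 : coef (fun x => ((G ω x : ℝ) : ℂ)) m =
          ((Q⁻¹ : ℝ) : ℂ) * coef (fun x => ((TS (kap d b h 0 0) ω x : ℝ) : ℂ)) m :=
        coef_smul _ _ _
      rw [e1, coef_smul, h6 d b h r α N M ω m]
      ring

end

end Pool.Agent.KW
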