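import Pool.Agent.KW.Stmts

set_option autoImplicit false

/-!
# KW, module LOWG: a large family of separated random sums on the grid
-/

open MeasureTheory
open scoped BigOperators ENNReal

namespace Pool.Agent.KW

namespace LOWG_

theorem ssq_pos (r : ℝ) (J : ℕ) : 0 < Ssq r J := by
  unfold Ssq
  exact Finset.sum_pos (fun j _ => by positivity) ⟨0, by simp⟩

theorem th_pos (d : ℕ) (r : ℝ) (n : ℕ) (hn : 1 ≤ n) : 0 < Th d r n := by
  unfold Th
  have h1 : (0 : ℝ) < n := by exact_mod_cast hn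
  have := ssq_pos r (Jn d n)
  positivity

theorem avg_sub_one {ι : Type*} [Fintype ι] [Nonempty ι] (F : ι → ℝ) :
    avg (fun i => F i - 1) = avg F - 1 := by
  unfold avg
  have h : (Fintype.card ι : ℝ) ≠ 0 := by
    exact_mod_cast Fintype.card_ne_zero
  rw [Finset.sum_sub_distrib]
  simp only [Finset.sum_const, Finset.card_univ, nsmul_eq_mul, mul_one]
  field_simp

/-- The exponential bound for a power of an average. -/
theorem pow_le (N : ℕ) (x : ℝ) (hx : 0 ≤ 1 + x) (E : ℝ) (hE : (N : ℝ) * x ≤ E) :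
    (1 + x) ^ N ≤ Real.exp E := by
  calc (1 + x) ^ N ≤ (Real.exp x) ^ N := by
        apply pow_le_pow_left₀ hx
        have := Real.add_one_le_exp x
        linarith
    _ = Real.exp (N * x) := by rw [← Real.exp_nat_mul]
    _ ≤ Real.exp E := Real.exp_le_exp.2 hE

end LOWG_

open LOWG_ in
theorem lowg_proof (h1 : Stmt_LowM) (h2 : Stmt_KapE) (_h3 : Stmt_Mgf) (h4 : Stmt_MomP)
    (h5 : Stmt_Core) (_h6 : Stmt_Card) : Stmt_LowG := by
  intro d p r θ hd hp hr
  obtain ⟨c1, C1, hc1, hC1, hK⟩ := h2 d hd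
  obtain ⟨Q0, hQ0, hM⟩ := h1 d p r hd hp hr
  obtain ⟨C4, hC4, hmom⟩ := h4 p
  set a : ℝ := min c1 1 with ha
  have ha0 : 0 < a := lt_min hc1 one_pos
  have hac : a ≤ c1 := min_le_left _ _
  have ha1 : a ≤ 1 := min_le_right _ _
  set A : ℝ := 1 + 16 * C1 * a with hA
  have hA1 : 1 ≤ A := by
    have : 0 ≤ 16 * C1 * a := by positivity
    linarith
  have hA2 : 16 * C1 * a ≤ A ^ 2 := by nlinarith
  obtain ⟨cL, n1, hcL, hN⟩ := hM A hA1
  have hl2 : 0 < Real.log 2 := Real.log_pos (by norm_num)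
  have hl16 : Real.log 16 = 4 * Real.log 2 := by
    rw [show (16 : ℝ) = 2 ^ (4 : ℕ) by norm_num, Real.log_pow]; norm_num
  have hl64 : Real.log 64 = 6 * Real.log 2 := by
    rw [show (64 : ℝ) = 2 ^ (6 : ℕ) by norm_num, Real.log_pow]; norm_num
  set B0 : ℝ := (d * (6 + p) * Real.log 2 + a / 16 + Real.log 16) / a with hB0
  have hB0p : 0 < B0 := by
    have : 0 < Real.log 16 := Real.log_pos (by norm_num)
    positivity
  have haB : a * B0 = d * (6 + p) * Real.log 2 + a / 16 + Real.log 16 := by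
    rw [hB0]; field_simp
  set Q1 : ℝ := C4 * Q0 ^ p with hQ1
  have hQ1p : 0 < Q1 := by positivity
  obtain ⟨n2, hn2⟩ := exists_nat_ge (320 * Real.log 2 / a)
  refine ⟨min (cL / 2) (a * cL / 8), 2 * B0, 1 + 8 * Q1, max (max n1 n2) 1, ?_, by positivity,
    by positivity, ?_⟩
  · exact lt_min (by positivity) (by positivity)
  intro n hn
  have hnn1 : n1 ≤ n := le_trans (le_trans (le_max_left _ _) (le_max_left _ _)) hn
  have hnn2 : n2 ≤ n := le_trans (le_trans (le_max_right _ _) (le_max_left _ _)) hn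
  have hn0 : 1 ≤ n := le_trans (le_max_right _ _) hn
  have hnr : (1 : ℝ) ≤ n := by exact_mod_cast hn0
  have hnpos : (0 : ℝ) < n := by linarith
  have han : 320 * Real.log 2 ≤ a * n := by
    have h : 320 * Real.log 2 / a ≤ n := le_trans hn2 (by exact_mod_cast hnn2)
    rw [div_le_iff₀ ha0] at h
    linarith
  obtain ⟨J, N, b, P, hJ, hN1, hb0, hbn, hP, hPc, hNup, hNlow, hmomK⟩ := hN n hnn1
  have hTh := th_pos d r n hn0
  have hP0 : 0 < P := lt_of_lt_of_le (by positivity) hPc
  have hM0 : (2 : ℕ) ^ (n + J + 4 + p) ≠ 0 := by positivity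
  have hNZ : NeZero ((2 : ℕ) ^ (n + J + 4 + p)) := ⟨hM0⟩
  set M : ℕ := 2 ^ (n + J + 4 + p) with hMdef
  have hM3 : 2 ^ (n + J + 3) ≤ M := Nat.pow_le_pow_right (by norm_num) (by omega)
  have hNpos : (1 : ℝ) ≤ N := by exact_mod_cast hN1
  -- the exponential moment
  set te : ℝ := a * n / P with hte
  have hte0 : 0 ≤ te := by positivity
  have hteP : te * P = a * n := by rw [hte]; field_simp
  obtain ⟨hk0, hkE⟩ := hK b (n + J) n M P te hM3 hb0 hbn hP hP0 hte0 (by
    rw [hteP]
    nlinarith)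
  rw [hteP] at hkE
  set κ : (Fin d → ZMod M) → ℝ := fun y => kap d b (n + J) 0 0 (grd M y) with hκ
  set Ψ : (Fin d → ZMod M) → ℝ :=
    fun y => kap d (fun l => b l * (2 : ℝ) ^ (r * l)) (n + J) r θ (grd M y) with hΨ
  have hκ0 : κ 0 = P := by
    rw [hκ]
    simp only
    rw [← hk0]
    congr 1
    funext i
    simp [grd, gr]
  have hLn : 0 < (Ln d n : ℝ) := by
    by_contra hcon
    have h0 : (Ln d n : ℝ) = 0 := le_antisymm (not_lt.1 hcon) (by positivity)
    rw [h0] at hNup
    simp at hNup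
    omega
  have h2n : (0 : ℝ) < 2 ^ n := by positivity
  have hE1 : (avg fun y => Real.cosh (te * κ y)) ^ N ≤ Real.exp (a * n / 16) := by
    have e1 : (avg fun y => Real.cosh (te * κ y)) =
        1 + avg (fun y => Real.cosh (te * κ y) - 1) := by
      rw [avg_sub_one]; ring
    rw [e1]
    refine pow_le N _ ?_ _ ?_
    · rw [← e1]
      unfold avg
      exact div_nonneg (Finset.sum_nonneg fun y _ => (Real.cosh_pos _).le) (by positivity)
    · have e2 : (N : ℝ) * avg (fun y => Real.cosh (te * κ y) - 1) ≤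
          (2 ^ n * Ln d n / (A ^ 2 * n)) *
            (C1 * (a * n) ^ 2 * (((2 : ℝ) ^ n)⁻¹ * (Ln d n : ℝ)⁻¹)) := by
        apply mul_le_mul hNup hkE
        · unfold avg
          refine div_nonneg (Finset.sum_nonneg fun y _ => ?_) (by positivity)
          have := Real.one_le_cosh (te * κ y)
          linarith
        · positivity
      refine e2.trans ?_
      have e3 : (2 ^ n * Ln d n / (A ^ 2 * n)) *
            (C1 * (a * n) ^ 2 * (((2 : ℝ) ^ n)⁻¹ * (Ln d n : ℝ)⁻¹)) =
            C1 * a ^ 2 * n / A ^ 2 := by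
        field_simp
      rw [e3, div_le_div_iff₀ (by positivity) (by norm_num)]
      have : 16 * C1 * a * (a * n) ≤ A ^ 2 * (a * n) :=
        mul_le_mul_of_nonneg_right hA2 (by positivity)
      nlinarith
  have hE0 : 0 ≤ (avg fun y => Real.cosh (te * κ y)) ^ N := by
    apply pow_nonneg
    unfold avg
    exact div_nonneg (Finset.sum_nonneg fun y _ => (Real.cosh_pos _).le) (by positivity)
  set τ : ℝ := 2 * Real.exp (-(3 * (a * n) / 16)) with hτ
  have hτ1 : 2 * Real.exp (-(te * (P / 4))) * (avg fun y => Real.cosh (te * κ y)) ^ N ≤ τ := by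
    have e1 : te * (P / 4) = a * n / 4 := by
      rw [← hteP]; ring
    rw [e1, hτ, mul_assoc]
    apply mul_le_mul_of_nonneg_left _ (by norm_num)
    calc Real.exp (-(a * n / 4)) * (avg fun y => Real.cosh (te * κ y)) ^ N
        ≤ Real.exp (-(a * n / 4)) * Real.exp (a * n / 16) :=
          mul_le_mul_of_nonneg_left hE1 (Real.exp_pos _).le
      _ = Real.exp (-(3 * (a * n) / 16)) := by
          rw [← Real.exp_add]; congr 1; ring
  have hτ2 : τ ≤ 1 / 32 := by
    have e1 : Real.exp (-(3 * (a * n) / 16)) ≤ Real.exp (-(6 * Real.log 2)) := by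
      apply Real.exp_le_exp.2
      nlinarith
    have e2 : Real.exp (-(6 * Real.log 2)) = 1 / 64 := by
      rw [← hl64, Real.exp_neg, Real.exp_log (by norm_num)]; norm_num
    rw [hτ]
    linarith
  have hcardR : (Fintype.card (Fin d → ZMod M) : ℝ) ≤ Real.exp (d * (6 + p) * n * Real.log 2) := by
    have e0 : Fintype.card (Fin d → ZMod M) = M ^ d := by
      simp [ZMod.card]
    have e1 : ((M ^ d : ℕ) : ℝ) = (2 : ℝ) ^ ((n + J + 4 + p) * d) := by
      rw [hMdef]; push_cast; rw [← pow_mul]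
    rw [e0, e1]
    have e2 : (n + J + 4 + p) * d ≤ d * (6 + p) * n := by
      have : n + J + 4 + p ≤ (6 + p) * n := by nlinarith
      calc (n + J + 4 + p) * d ≤ ((6 + p) * n) * d := Nat.mul_le_mul_right _ this
        _ = d * (6 + p) * n := by ring
    calc (2 : ℝ) ^ ((n + J + 4 + p) * d) ≤ (2 : ℝ) ^ (d * (6 + p) * n) :=
          pow_le_pow_right₀ (by norm_num) e2
      _ = Real.exp (d * (6 + p) * n * Real.log 2) := by
          rw [← Real.rpow_natCast, Real.rpow_def_of_pos (by norm_num)]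
          congr 1
          push_cast
          ring
  have hcard : (Fintype.card (Fin d → ZMod M) : ℝ) *
      (2 * Real.exp (-(te * (B0 * P))) * (avg fun y => Real.cosh (te * κ y)) ^ N) ≤ 1 / 8 := by
    have e1 : te * (B0 * P) = n * (a * B0) := by
      have : te * (B0 * P) = (te * P) * B0 := by ring
      rw [this, hteP]; ring
    rw [e1, haB]
    have e2 : 2 * Real.exp (-(n * (d * (6 + p) * Real.log 2 + a / 16 + Real.log 16))) *
        (avg fun y => Real.cosh (te * κ y)) ^ N ≤
        2 * Real.exp (-(n * (d * (6 + p) * Real.log 2 + a / 16 + Real.log 16))) *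
          Real.exp (a * n / 16) :=
      mul_le_mul_of_nonneg_left hE1 (by positivity)
    have e3 : Real.exp (d * (6 + p) * n * Real.log 2) *
        (2 * Real.exp (-(n * (d * (6 + p) * Real.log 2 + a / 16 + Real.log 16))) *
          Real.exp (a * n / 16)) = 2 * Real.exp (-(n * Real.log 16)) := by
      have : Real.exp (d * (6 + p) * n * Real.log 2) *
        (2 * Real.exp (-(n * (d * (6 + p) * Real.log 2 + a / 16 + Real.log 16))) *
          Real.exp (a * n / 16)) = 2 * (Real.exp (d * (6 + p) * n * Real.log 2) *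
          Real.exp (-(n * (d * (6 + p) * Real.log 2 + a / 16 + Real.log 16))) *
          Real.exp (a * n / 16)) := by ring
      rw [this, ← Real.exp_add, ← Real.exp_add]
      congr 2
      ring
    have e4 : Real.exp (-(n * Real.log 16)) ≤ 1 / 16 := by
      have : Real.exp (-(n * Real.log 16)) ≤ Real.exp (-(Real.log 16)) := by
        apply Real.exp_le_exp.2
        have : 0 < Real.log 16 := Real.log_pos (by norm_num)
        nlinarith
      refine this.trans ?_
      rw [Real.exp_neg, Real.exp_log (by norm_num)]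
      norm_num
    calc (Fintype.card (Fin d → ZMod M) : ℝ) *
        (2 * Real.exp (-(n * (d * (6 + p) * Real.log 2 + a / 16 + Real.log 16))) *
          (avg fun y => Real.cosh (te * κ y)) ^ N)
        ≤ Real.exp (d * (6 + p) * n * Real.log 2) *
        (2 * Real.exp (-(n * (d * (6 + p) * Real.log 2 + a / 16 + Real.log 16))) *
          Real.exp (a * n / 16)) :=
          mul_le_mul hcardR e2 (by positivity) (Real.exp_pos _).le
      _ = 2 * Real.exp (-(n * Real.log 16)) := e3
      _ ≤ 1 / 8 := by linarith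
  have hm : ∀ x : Fin d → ZMod M,
      avg (fun ω : Fin N → (Fin d → ZMod M) × Bool => RS Ψ ω x ^ (2 * p)) ≤ Q1 := by
    intro x
    exact hmom (Fin d → ZMod M) N Ψ Q0 hQ0 (fun k hk1 hk2 => hmomK θ M hM3 k hk1 hk2) x
  obtain ⟨F, hF1, hF2, hF3, hF4⟩ := h5 (Fin d → ZMod M) N p κ Ψ P te B0 τ Q1 hN1 hP0 hκ0 hte0
    hQ1p hτ1 hτ2 hcard hm
  have hτpos : 0 < τ := by positivity
  -- the cardinality
  have hFc : Real.exp (a * n * N / 8) ≤ F.card := by
    have e1 : (8 * τ) ^ (3 * (N : ℝ) / 4) =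
        Real.exp ((Real.log 16 - 3 * (a * n) / 16) * (3 * (N : ℝ) / 4)) := by
      have : 8 * τ = Real.exp (Real.log 16 - 3 * (a * n) / 16) := by
        rw [Real.exp_sub, Real.exp_log (by norm_num), hτ, Real.exp_neg]
        field_simp
        norm_num
      rw [this, ← Real.exp_mul]
    have e2 : (2 : ℝ) ^ N = Real.exp (N * Real.log 2) := by
      rw [← Real.rpow_natCast, Real.rpow_def_of_pos (by norm_num)]
      congr 1; ring
    have e3 : (1 : ℝ) / 2 = Real.exp (-Real.log 2) := by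
      rw [Real.exp_neg, Real.exp_log (by norm_num)]; norm_num
    rw [e1, e2, e3, ← Real.exp_add] at hF1
    have e4 : Real.exp (-Real.log 2 - (N * Real.log 2 +
        (Real.log 16 - 3 * (a * n) / 16) * (3 * (N : ℝ) / 4))) ≤ F.card := by
      rw [Real.exp_sub, div_le_iff₀ (Real.exp_pos _)]
      exact hF1
    refine le_trans (Real.exp_le_exp.2 ?_) e4
    rw [hl16]
    have e5 : (N : ℝ) * (320 * Real.log 2) ≤ N * (a * n) :=
      mul_le_mul_of_nonneg_left han (by linarith)
    have e6 : Real.log 2 ≤ N * Real.log 2 := by nlinarith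
    nlinarith
  refine ⟨n + J, M, N, hNZ, b, P / 2, F, ?_, ?_, by positivity, ?_, ?_, ?_, ?_, ?_⟩
  · rw [hMdef]
    calc 4 * 2 ^ (n + J + 2) = 2 ^ (n + J + 4) := by ring
      _ ≤ 2 ^ (n + J + 4 + p) := Nat.pow_le_pow_right (by norm_num) (by omega)
  · rw [hMdef]
    have : p < 2 ^ p := Nat.lt_two_pow_self
    calc 2 * p * 2 ^ (n + J + 2) < 2 * 2 ^ p * 2 ^ (n + J + 2) := by
          apply Nat.mul_lt_mul_of_pos_right _ (by positivity)
          omega
      _ = 2 ^ (n + J + 3 + p) := by ring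
      _ ≤ 2 ^ (n + J + 4 + p) := Nat.pow_le_pow_right (by norm_num) (by omega)
  · have := min_le_left (cL / 2) (a * cL / 8)
    calc min (cL / 2) (a * cL / 8) * Th d r n ≤ cL / 2 * Th d r n :=
          mul_le_mul_of_nonneg_right this hTh.le
      _ = (cL * Th d r n) / 2 := by ring
      _ ≤ P / 2 := by linarith
  · refine le_trans (Real.exp_le_exp.2 ?_) hFc
    have := min_le_right (cL / 2) (a * cL / 8)
    calc min (cL / 2) (a * cL / 8) * ((2 : ℝ) ^ n * Ln d n)
        ≤ a * cL / 8 * ((2 : ℝ) ^ n * Ln d n) :=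
          mul_le_mul_of_nonneg_right this (by positivity)
      _ = a / 8 * (cL * ((2 : ℝ) ^ n * Ln d n)) := by ring
      _ ≤ a / 8 * (n * N) := mul_le_mul_of_nonneg_left hNlow (by positivity)
      _ = a * n * N / 8 := by ring
  · intro ω hω x
    have := hF2 ω hω x
    calc |RS κ ω x| ≤ B0 * P := this
      _ = 2 * B0 * (P / 2) := by ring
  · intro ω hω
    refine (hF3 ω hω).trans ?_
    have e1 : 1 ≤ 1 + 8 * Q1 := by linarith
    calc 8 * Q1 ≤ 1 + 8 * Q1 := by linarith
      _ = (1 + 8 * Q1) ^ 1 := by ring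
      _ ≤ (1 + 8 * Q1) ^ (2 * p) := pow_le_pow_right₀ e1 (by omega)
  · intro ω hω ω' hω' hne
    exact hF4 ω hω ω' hω' hne

end Pool.Agent.KW
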