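import Pool.Agent.KW.Stmts

set_option autoImplicit false

/-!
# KW, module LOWK: the lower bound of the width
-/

open MeasureTheory
open scoped BigOperators ENNReal

namespace Pool.Agent.KW

namespace LOWK_

theorem toL_sub {d : ℕ} (f g : C(Tor d, ℝ)) : toL f - toL g = toL (f - g) := by
  unfold toL
  rw [map_sub]

theorem Th_nonneg (d : ℕ) (r : ℝ) (n : ℕ) : 0 ≤ Th d r n := by
  unfold Th
  positivity

/-- if the width is small then a separated family is small -/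
theorem card_le (hP : Stmt_Pack) (hS : Stmt_SupN) {d m : ℕ} {q : ℝ≥0∞} {r α P B ε : ℝ}
    (hPpos : 0 < P) (hB : 0 < B) (hε : ε ≤ P / 8)
    (F : Finset C(Tor d, ℝ)) (h1 : ∀ f ∈ F, ‖f‖ ≤ B * P)
    (h2 : ∀ f ∈ F, ∀ g ∈ F, f ≠ g → P ≤ ‖f - g‖) (h3 : ∀ f ∈ F, toL f ∈ W d q r α)
    (hk : kol ℝ (W d q r α) m < ENNReal.ofReal ε) :
    (F.card : ℝ) ≤ (1 + 2 * (B * P + P / 8) / (3 * P / 4)) ^ m := by
  classical
  unfold kol at hk
  rw [iInf_lt_iff] at hk
  obtain ⟨⟨U, hU1, hU2⟩, hU⟩ := hk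
  simp only at hU
  have h4 : ∀ f : {f // f ∈ F}, ∃ u ∈ U, ‖toL f.1 - u‖ < P / 8 := by
    intro f
    have h5 : Metric.infEDist (toL f.1) (U : Set (Lp ℝ ⊤ (mu d))) < ENNReal.ofReal ε := by
      refine lt_of_le_of_lt ?_ hU
      exact le_iSup₂ (f := fun (g : Lp ℝ ⊤ (mu d)) (_ : g ∈ W d q r α) =>
        Metric.infEDist g (U : Set (Lp ℝ ⊤ (mu d)))) (toL f.1) (h3 f.1 f.2)
    rw [Metric.infEDist_lt_iff] at h5
    obtain ⟨u, hu, h6⟩ := h5
    refine ⟨u, hu, ?_⟩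
    rw [edist_dist, ENNReal.ofReal_lt_ofReal_iff_of_nonneg dist_nonneg, dist_eq_norm] at h6
    linarith
  choose u hu1 hu2 using h4
  have h7 := hP (Lp ℝ ⊤ (mu d)) U m {f // f ∈ F} u (B * P + P / 8) (3 * P / 4) hU1 hU2 hu1
    (by positivity) (by positivity) (fun f => ?_) (fun f g hfg => ?_)
  · rwa [Fintype.card_coe] at h7
  · have e1 : ‖toL f.1‖ ≤ B * P := by rw [hS]; exact h1 f.1 f.2
    have e2 := hu2 f
    have e3 : ‖u f‖ ≤ ‖toL f.1‖ + ‖toL f.1 - u f‖ := by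
      have := norm_sub_le (toL f.1) (toL f.1 - u f)
      rwa [sub_sub_cancel] at this
    linarith
  · have e1 : P ≤ ‖toL f.1 - toL g.1‖ := by
      rw [toL_sub, hS]
      exact h2 f.1 f.2 g.1 g.2 fun h => hfg (Subtype.ext h)
    have e2 := hu2 f
    have e3 := hu2 g
    have e4 : toL f.1 - toL g.1 = (toL f.1 - u f) + (u f - u g) - (toL g.1 - u g) := by abel
    have e5 : ‖toL f.1 - toL g.1‖ ≤ ‖toL f.1 - u f‖ + ‖u f - u g‖ + ‖toL g.1 - u g‖ := by
      rw [e4]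
      exact (norm_sub_le _ _).trans (add_le_add (norm_add_le _ _) le_rfl)
    linarith

end LOWK_

open LOWK_ in
theorem lowk_proof (h1 : Stmt_LowF) (h2 : Stmt_Pack) (h3 : Stmt_SupN) (h4 : Stmt_Card) :
    Stmt_LowK := by
  intro d p r α hd hp hr
  obtain ⟨c, B, n₀, hc, hB, hF⟩ := h1 d p r α hd hp hr
  set K : ℝ := 1 + 2 * (B + 1 / 8) / (3 / 4) with hK
  have hK1 : 1 < K := by
    rw [hK]
    have : 0 < 2 * (B + 1 / 8) / (3 / 4) := by positivity
    linarith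
  have hlog : 0 < Real.log K := Real.log_pos hK1
  have hfac : (0 : ℝ) < (Nat.factorial (d - 1) : ℝ) := by exact_mod_cast Nat.factorial_pos _
  refine ⟨min (c / 8) (c / (2 * (Nat.factorial (d - 1) : ℝ) * Real.log K)), n₀, ?_, ?_⟩
  · exact lt_min (by positivity) (by positivity)
  intro n hn m hm
  set c' := min (c / 8) (c / (2 * (Nat.factorial (d - 1) : ℝ) * Real.log K)) with hc'
  obtain ⟨P, F, hP, hcP, hcard, hb, hsep, hW⟩ := hF n hn
  by_contra hcon
  push Not at hcon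
  have hε : c' * Th d r n ≤ P / 8 := by
    have e1 : c' * Th d r n ≤ c / 8 * Th d r n :=
      mul_le_mul_of_nonneg_right (min_le_left _ _) (Th_nonneg d r n)
    linarith
  have h5 := card_le h2 h3 hP hB hε F hb hsep hW hcon
  have e1 : 1 + 2 * (B * P + P / 8) / (3 * P / 4) = K := by
    rw [hK]
    field_simp
  rw [e1] at h5
  have h6 : Real.exp (c * ((2 : ℝ) ^ n * Ln d n)) ≤ K ^ m := hcard.trans h5
  have h7 : c * ((2 : ℝ) ^ n * Ln d n) ≤ m * Real.log K := by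
    have := Real.log_le_log (Real.exp_pos _) h6
    rwa [Real.log_exp, Real.log_pow] at this
  obtain ⟨hC1, -, -⟩ := h4 d n (by omega)
  have hL : (0 : ℝ) < (Ln d n : ℝ) := by
    have e2 : (0 : ℝ) < ((n : ℝ) + 1) ^ (d - 1) := by positivity
    have e3 := e2.trans_le hC1
    exact pos_of_mul_pos_right e3 hfac.le
  have hn1 : (n : ℝ) ^ (d - 1) ≤ (Nat.factorial (d - 1) : ℝ) * Ln d n := by
    refine le_trans ?_ hC1
    exact pow_le_pow_left₀ (Nat.cast_nonneg _) (by linarith) _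
  have h2n : (0 : ℝ) < (2 : ℝ) ^ n := by positivity
  have h8 : (m : ℝ) ≤ c / (2 * (Nat.factorial (d - 1) : ℝ) * Real.log K) *
      ((2 : ℝ) ^ n * ((Nat.factorial (d - 1) : ℝ) * Ln d n)) := by
    refine hm.trans ?_
    refine mul_le_mul (min_le_right _ _) ?_ (by positivity) (by positivity)
    exact mul_le_mul_of_nonneg_left hn1 h2n.le
  have h9 : c / (2 * (Nat.factorial (d - 1) : ℝ) * Real.log K) *
      ((2 : ℝ) ^ n * ((Nat.factorial (d - 1) : ℝ) * Ln d n)) * Real.log K =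
      c * ((2 : ℝ) ^ n * Ln d n) / 2 := by
    field_simp
  have h10 : (m : ℝ) * Real.log K ≤ c * ((2 : ℝ) ^ n * Ln d n) / 2 := by
    rw [← h9]
    exact mul_le_mul_of_nonneg_right h8 hlog.le
  have h11 : 0 < c * ((2 : ℝ) ^ n * Ln d n) := by positivity
  linarith

end Pool.Agent.KW
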