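import Pool.Agent.KW.Stmts

set_option autoImplicit false

open MeasureTheory
open scoped BigOperators ENNReal

namespace Pool.Agent.KW

namespace LOWM_

theorem wt_nonneg (d : ℕ) (r A : ℝ) (n J l : ℕ) (hA : 1 ≤ A) : 0 ≤ wt d r A n J l := by
  unfold wt
  split_ifs
  · positivity
  · exact le_refl 0

theorem wt_zero (d : ℕ) (r A : ℝ) (n J l : ℕ) (hl : l < n) : wt d r A n J l = 0 := by
  unfold wt
  rw [if_neg]
  intro h
  omega

theorem Ln_pos (h : Stmt_Card) (d l : ℕ) (hd : 1 ≤ d) : (0 : ℝ) < (Ln d l : ℝ) := by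
  have h1 := (h d l hd).1
  have h2 : (0 : ℝ) < ((l : ℝ) + 1) ^ (d - 1) := by positivity
  have h3 : (0 : ℝ) < (Nat.factorial (d - 1) : ℝ) := by positivity
  have h4 : (0 : ℝ) < (Nat.factorial (d - 1) : ℝ) * (Ln d l : ℝ) := lt_of_lt_of_le h2 h1
  exact (pos_iff_pos_of_mul_pos h4).1 h3

theorem two_pow_large (A : ℝ) (hA : 1 ≤ A) : ∃ n₁ : ℕ, ∀ n ≥ n₁, A ^ 2 * (n : ℝ) ≤ (2 : ℝ) ^ n := by
  have ht : Filter.Tendsto (fun n : ℕ => ((n : ℝ)) ^ 1 / (2 : ℝ) ^ n) Filter.atTop (nhds 0) :=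
    tendsto_pow_const_div_const_pow_of_one_lt 1 (by norm_num)
  have hpos : (0 : ℝ) < 1 / A ^ 2 := by positivity
  have he := ht.eventually (gt_mem_nhds hpos)
  obtain ⟨n₁, hn₁⟩ := Filter.eventually_atTop.1 he
  refine ⟨n₁, fun n hn => ?_⟩
  have h := hn₁ n hn
  have h2 : (0 : ℝ) < (2 : ℝ) ^ n := by positivity
  have hA2 : (0 : ℝ) < A ^ 2 := by positivity
  rw [pow_one, div_lt_div_iff₀ h2 hA2] at h
  nlinarith

end LOWM_

open LOWM_ in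
theorem lowm_proof (hLowA : Stmt_LowA) (hLowB : Stmt_LowB) (hLowC : Stmt_LowC)
    (hPsiTwo : Stmt_PsiTwo) (hPsiK : Stmt_PsiK) (hCard : Stmt_Card) : Stmt_LowM := by
  intro d p r hd hp hr
  obtain ⟨CA, hCA, hA'⟩ := hLowA d r hd hr
  obtain ⟨C2, hC2, h2'⟩ := hPsiTwo d (by omega) r
  have hB : ∀ k : ℕ, ∃ C : ℝ, 0 < C ∧ (2 ≤ k → ∀ (A : ℝ) (n J : ℕ), 1 ≤ A → 1 ≤ n → J ≤ n →
      A ^ 2 * n * (2 : ℝ) ^ J ≤ (Ln d n : ℝ) ^ 2 →
      ∀ (θ : ℝ) (M : ℕ) [NeZero M], 2 ^ (n + J + 3) ≤ M →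
      avg (fun x : Fin d → ZMod M =>
        (kap d (fun l => wt d r A n J l * (2 : ℝ) ^ (r * l)) (n + J) r θ (grd M x)) ^ (2 * k)) ≤
        C * (A ^ 2 * n / ((2 : ℝ) ^ n * Ln d n))) := by
    intro k
    by_cases hk : 2 ≤ k
    · obtain ⟨CB, hCB, hB'⟩ := hLowB d k r hd hk hr
      obtain ⟨CK, hCK, hK'⟩ := hPsiK d k (by omega) (by omega) r
      refine ⟨CK * CB, by positivity, fun _ A n J h1 h2 h3 h4 θ M _ hM => ?_⟩
      refine (hK' θ (fun l => wt d r A n J l * (2 : ℝ) ^ (r * l)) (n + J) M hM).trans ?_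
      rw [mul_assoc]
      exact mul_le_mul_of_nonneg_left (hB' A n J h1 h2 h3 h4) hCK.le
    · exact ⟨1, one_pos, fun h => absurd h hk⟩
  choose CB hCB hB' using hB
  have hsum : 0 ≤ ∑ k ∈ Finset.range (p + 1), CB k :=
    Finset.sum_nonneg fun k _ => (hCB k).le
  refine ⟨1 + C2 * CA + ∑ k ∈ Finset.range (p + 1), CB k, ?_, ?_⟩
  · have := mul_pos hC2 hCA
    linarith
  intro A hA
  obtain ⟨c0, n0, hc0, hC'⟩ := hLowC d r A hd hr hA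
  obtain ⟨n1, hn1⟩ := two_pow_large A hA
  have hA2 : (0 : ℝ) < A ^ 2 := by positivity
  refine ⟨min c0 (1 / (2 * A ^ 2)), max n0 (max n1 1), lt_min hc0 (by positivity), ?_⟩
  intro n hn
  have hnn0 : n0 ≤ n := le_trans (le_max_left _ _) hn
  have hnn1 : n1 ≤ n := le_trans (le_trans (le_max_left _ _) (le_max_right _ _)) hn
  have hn1' : 1 ≤ n := le_trans (le_trans (le_max_right _ _) (le_max_right _ _)) hn
  obtain ⟨J, hJ, hJ2, hJ3, hJ4⟩ := hC' n hnn0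
  have hLn : (0 : ℝ) < (Ln d n : ℝ) := Ln_pos hCard d n (by omega)
  have hLn1 : (1 : ℝ) ≤ (Ln d n : ℝ) := by
    have : 0 < Ln d n := by exact_mod_cast hLn
    exact_mod_cast this
  have hnpos : (0 : ℝ) < (n : ℝ) := by exact_mod_cast hn1'
  have hx1 : 1 ≤ (2 : ℝ) ^ n * Ln d n / (A ^ 2 * n) := by
    rw [one_le_div (by positivity)]
    calc A ^ 2 * (n : ℝ) ≤ (2 : ℝ) ^ n := hn1 n hnn1
      _ = (2 : ℝ) ^ n * 1 := (mul_one _).symm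
      _ ≤ (2 : ℝ) ^ n * Ln d n := mul_le_mul_of_nonneg_left hLn1 (by positivity)
  have hN1 : 1 ≤ ⌊(2 : ℝ) ^ n * Ln d n / (A ^ 2 * n)⌋₊ := by
    rw [Nat.one_le_floor_iff]
    exact hx1
  have hNle : (⌊(2 : ℝ) ^ n * Ln d n / (A ^ 2 * n)⌋₊ : ℝ) ≤ (2 : ℝ) ^ n * Ln d n / (A ^ 2 * n) :=
    Nat.floor_le (by linarith)
  have hNge : (2 : ℝ) ^ n * Ln d n / (A ^ 2 * n) <
      (⌊(2 : ℝ) ^ n * Ln d n / (A ^ 2 * n)⌋₊ : ℝ) + 1 := Nat.lt_floor_add_one _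
  refine ⟨J, ⌊(2 : ℝ) ^ n * Ln d n / (A ^ 2 * n)⌋₊, wt d r A n J, _, hJ, hN1,
    fun l => wt_nonneg d r A n J l hA, fun l hl => wt_zero d r A n J l hl, rfl, ?_, hNle, ?_, ?_⟩
  · refine le_trans ?_ hJ4
    refine mul_le_mul_of_nonneg_right (min_le_left _ _) ?_
    unfold Th
    positivity
  · have h1 : (1 : ℝ) ≤ (⌊(2 : ℝ) ^ n * Ln d n / (A ^ 2 * n)⌋₊ : ℝ) := by exact_mod_cast hN1
    have h2 : (2 : ℝ) ^ n * Ln d n / (A ^ 2 * n) ≤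
        2 * (⌊(2 : ℝ) ^ n * Ln d n / (A ^ 2 * n)⌋₊ : ℝ) := by linarith
    calc min c0 (1 / (2 * A ^ 2)) * ((2 : ℝ) ^ n * Ln d n)
        ≤ (1 / (2 * A ^ 2)) * ((2 : ℝ) ^ n * Ln d n) :=
          mul_le_mul_of_nonneg_right (min_le_right _ _) (by positivity)
      _ = (n : ℝ) * (((2 : ℝ) ^ n * Ln d n / (A ^ 2 * n)) / 2) := by
          field_simp
      _ ≤ (n : ℝ) * (⌊(2 : ℝ) ^ n * Ln d n / (A ^ 2 * n)⌋₊ : ℝ) :=
          mul_le_mul_of_nonneg_left (by linarith) hnpos.le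
  · intro θ M _ hM k hk1 hkp
    have hNnn : (0 : ℝ) ≤ (⌊(2 : ℝ) ^ n * Ln d n / (A ^ 2 * n)⌋₊ : ℝ) := Nat.cast_nonneg _
    have hpn : (0 : ℝ) ≤ A ^ 2 * n / ((2 : ℝ) ^ n * Ln d n) := by positivity
    have hprod : ∀ C : ℝ, 0 ≤ C → (⌊(2 : ℝ) ^ n * Ln d n / (A ^ 2 * n)⌋₊ : ℝ) *
        (C * (A ^ 2 * n / ((2 : ℝ) ^ n * Ln d n))) ≤ C := by
      intro C hC
      calc (⌊(2 : ℝ) ^ n * Ln d n / (A ^ 2 * n)⌋₊ : ℝ) *
          (C * (A ^ 2 * n / ((2 : ℝ) ^ n * Ln d n)))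
          ≤ ((2 : ℝ) ^ n * Ln d n / (A ^ 2 * n)) *
            (C * (A ^ 2 * n / ((2 : ℝ) ^ n * Ln d n))) :=
            mul_le_mul_of_nonneg_right hNle (mul_nonneg hC hpn)
        _ = C := by field_simp
    by_cases hk2 : 2 ≤ k
    · have h1 := hB' k hk2 A n J hA hn1' hJ hJ2 θ M hM
      refine (mul_le_mul_of_nonneg_left h1 hNnn).trans ?_
      refine (hprod _ (hCB k).le).trans ?_
      have h2 : CB k ≤ ∑ k ∈ Finset.range (p + 1), CB k :=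
        Finset.single_le_sum (f := CB) (fun i _ => (hCB i).le) (Finset.mem_range.2 (by omega))
      have := mul_pos hC2 hCA
      linarith
    · have hk : k = 1 := by omega
      subst hk
      have h1 := h2' θ (fun l => wt d r A n J l * (2 : ℝ) ^ (r * l)) (n + J) M hM
      have h2 : C2 * ∑ l ∈ Finset.range (n + J + 1),
          (wt d r A n J l * (2 : ℝ) ^ (r * l)) ^ 2 * (Ln d l * ((2 : ℝ) ^ l)⁻¹) ≤
          (C2 * CA) * (A ^ 2 * n / ((2 : ℝ) ^ n * Ln d n)) := by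
        rw [mul_assoc]
        exact mul_le_mul_of_nonneg_left (hA' A n J hA hn1' hJ) hC2.le
      rw [mul_one]
      refine (mul_le_mul_of_nonneg_left (h1.trans h2) hNnn).trans ?_
      refine (hprod _ (mul_pos hC2 hCA).le).trans ?_
      linarith

end Pool.Agent.KW
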