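import Pool.Agent.KW.Stmts

set_option autoImplicit false

/-!
# KW, module MAIN: the order of the widths, real scalars
-/

open MeasureTheory
open scoped BigOperators ENNReal

namespace Pool.Agent.KW

namespace MAIN_

/-- The finite exponent used for the upper bound. -/
theorem exists_q0 (q : ℝ≥0∞) (r : ℝ) (hq : 2 ≤ q) (hr : (1 / q).toReal < r) :
    ∃ q₀ : ℝ, 2 ≤ q₀ ∧ 1 / q₀ < r ∧ ENNReal.ofReal q₀ ≤ q := by
  by_cases hT : q = ⊤
  · subst hT
    have hr0 : 0 < r := by simpa using hr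
    refine ⟨max 2 (2 / r), le_max_left _ _, ?_, le_top⟩
    have h1 : 2 / r ≤ max 2 (2 / r) := le_max_right _ _
    have h2 : 0 < 2 / r := by positivity
    calc 1 / max 2 (2 / r) ≤ 1 / (2 / r) := one_div_le_one_div_of_le h2 h1
      _ = r / 2 := by field_simp
      _ < r := by linarith
  · refine ⟨q.toReal, ?_, ?_, ?_⟩
    · have := (ENNReal.toReal_le_toReal (by norm_num) hT).2 hq
      simpa using this
    · have : (1 / q).toReal = 1 / q.toReal := by
        rw [ENNReal.toReal_div]; simp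
      rwa [this] at hr
    · rw [ENNReal.ofReal_toReal hT]

theorem r_pos (q : ℝ≥0∞) (r : ℝ) (hr : (1 / q).toReal < r) : 0 < r :=
  lt_of_le_of_lt ENNReal.toReal_nonneg hr

theorem upper (h2 : Stmt_UpK) (h3 : Stmt_Mono) (h6 : Stmt_OrdU) (h8 : Stmt_Bdd) (d : ℕ)
    (q₀ r α : ℝ) (hd : 2 ≤ d) (hq : 2 ≤ q₀) (hr : 1 / q₀ < r) :
    ∃ c₂ : ℝ, 0 < c₂ ∧ ∀ m : ℕ, 2 ≤ m →
      kol ℝ (W d (ENNReal.ofReal q₀) r α) m ≤ ENNReal.ofReal (c₂ * psi d r m) := by
  obtain ⟨C, hC, hU⟩ := h2 d q₀ r α hd hq hr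
  have hr0 : 0 < r := lt_of_le_of_lt (by positivity) hr
  refine h6 d r C (fun m => kol ℝ (W d (ENNReal.ofReal q₀) r α) m) hd hr0 hC ?_ ?_ hU
  · intro m m' hm
    exact h3.2.2 d _ r α m m' hm
  · refine h8 d (ENNReal.ofReal q₀) r α (by omega) ?_ ?_
    · rw [← ENNReal.ofReal_one]
      exact ENNReal.ofReal_le_ofReal (by linarith)
    · have : (1 / ENNReal.ofReal q₀).toReal = 1 / q₀ := by
        rw [ENNReal.toReal_div, ENNReal.toReal_ofReal (by linarith)]; simp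
      rwa [this]

theorem lower (h1 : Stmt_LowK) (h3 : Stmt_Mono) (h5 : Stmt_OrdL) (d p : ℕ) (r α : ℝ)
    (hd : 2 ≤ d) (hp : 1 ≤ p) (hr : 0 < r) :
    ∃ c₁ : ℝ, 0 < c₁ ∧ ∀ m : ℕ, 2 ≤ m →
      ENNReal.ofReal (c₁ * psi d r m) ≤ kol ℝ (W d (2 * p : ℕ) r α) m := by
  obtain ⟨c, n₀, hc, hL⟩ := h1 d p r α hd hp hr
  refine h5 d r c n₀ (fun m => kol ℝ (W d (2 * p : ℕ) r α) m) hd hr hc ?_ hL
  intro m m' hm
  exact h3.2.2 d _ r α m m' hm

/-- The cancellation in `ℝ≥0∞`. -/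
theorem cancel (x y lam : ℝ) (D : ℝ≥0∞) (hx : 0 ≤ x) (hlam : 0 < lam) (hy : y ≤ x / 2)
    (h : ENNReal.ofReal x ≤ ENNReal.ofReal lam * D + ENNReal.ofReal y) :
    ENNReal.ofReal (x / 2 / lam) ≤ D := by
  have h1 : ENNReal.ofReal (x / 2) + ENNReal.ofReal (x / 2) ≤
      ENNReal.ofReal lam * D + ENNReal.ofReal (x / 2) := by
    rw [← ENNReal.ofReal_add (by linarith) (by linarith)]
    have : x / 2 + x / 2 = x := by ring
    rw [this]
    exact h.trans (add_le_add le_rfl (ENNReal.ofReal_le_ofReal hy))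
  have h2 : ENNReal.ofReal (x / 2) ≤ ENNReal.ofReal lam * D :=
    (ENNReal.add_le_add_iff_right ENNReal.ofReal_ne_top).1 h1
  rw [ENNReal.ofReal_div_of_pos hlam]
  refine ENNReal.div_le_of_le_mul ?_
  rw [mul_comm]
  exact h2

end MAIN_

open MAIN_ in
theorem main_proof (h1 : Stmt_LowK) (h2 : Stmt_UpK) (h3 : Stmt_Mono) (h4 : Stmt_Intp)
    (h5 : Stmt_OrdL) (h6 : Stmt_OrdU) (h7 : Stmt_PsiD) (h8 : Stmt_Bdd) : Stmt_Main := by
  intro d q r α hd hq hr
  have hr0 := r_pos q r hr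
  obtain ⟨q₀, hq0, hr1, hq1⟩ := exists_q0 q r hq hr
  have h1q0 : (1 : ℝ≥0∞) ≤ ENNReal.ofReal q₀ := by
    rw [← ENNReal.ofReal_one]
    exact ENNReal.ofReal_le_ofReal (by linarith)
  obtain ⟨c₂, hc₂, hU⟩ := upper h2 h3 h6 h8 d q₀ r α hd hq0 hr1
  have hUq : ∀ m : ℕ, 2 ≤ m → kol ℝ (W d q r α) m ≤ ENNReal.ofReal (c₂ * psi d r m) :=
    fun m hm => (h3.2.1 d _ _ r α m h1q0 hq1).trans (hU m hm)
  by_cases hT : q = ⊤
  · subst hT
    obtain ⟨p, hp⟩ := exists_nat_gt q₀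
    have hp1 : 1 ≤ p := by
      have : (1 : ℝ) < p := by linarith
      exact_mod_cast this.le
    obtain ⟨ca, hca, hL⟩ := lower h1 h3 h5 d p r α hd hp1 hr0
    obtain ⟨c, hc, hψ⟩ := h7 d r hd hr0
    set q₁ : ℝ := ((2 * p : ℕ) : ℝ) with hq1def
    have hq01 : q₀ < q₁ := by
      rw [hq1def]; push_cast
      have : (0 : ℝ) ≤ p := by positivity
      linarith
    have hofq : ENNReal.ofReal q₁ = ((2 * p : ℕ) : ℝ≥0∞) := by
      rw [hq1def, ENNReal.ofReal_natCast]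
    have hq0p : 0 < q₀ := by linarith
    have he : 0 < q₁ / q₀ - 1 := by
      rw [sub_pos, lt_div_iff₀ hq0p]; linarith
    -- the choice of lam
    have hlim := tendsto_rpow_neg_atTop he
    have hε : 0 < ca * c / (2 * c₂) := by positivity
    obtain ⟨lam, hlam1, hlam2⟩ := ((Filter.eventually_ge_atTop (1 : ℝ)).and
      (hlim.eventually (gt_mem_nhds hε))).exists
    have hlam0 : 0 < lam := by linarith
    have hlame : lam ^ (1 - q₁ / q₀) < ca * c / (2 * c₂) := by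
      have : (1 - q₁ / q₀) = -(q₁ / q₀ - 1) := by ring
      rw [this]; exact hlam2
    refine ⟨ca * c / 2 / lam, c₂, by positivity, hc₂, fun m hm => ⟨?_, hUq m hm⟩⟩
    have hI := h4 d q₀ q₁ r α lam m (by omega) (by linarith) hq01 hr1 hlam1
    rw [hofq] at hI
    have hψm := hψ m hm
    have h2m : 2 ≤ 2 * m := by omega
    have e1 : ENNReal.ofReal (ca * c * psi d r m) ≤
        ENNReal.ofReal lam * kol ℝ (W d ⊤ r α) m +
          ENNReal.ofReal (lam ^ (1 - q₁ / q₀) * (c₂ * psi d r m)) := by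
      calc ENNReal.ofReal (ca * c * psi d r m) ≤ ENNReal.ofReal (ca * psi d r (2 * m)) := by
            apply ENNReal.ofReal_le_ofReal
            rw [mul_assoc]
            exact mul_le_mul_of_nonneg_left hψm.2 hca.le
        _ ≤ kol ℝ (W d (2 * p : ℕ) r α) (2 * m) := hL (2 * m) h2m
        _ ≤ _ := hI
        _ ≤ _ := by
            refine add_le_add le_rfl ?_
            rw [ENNReal.ofReal_mul (by positivity)]
            exact mul_le_mul_right (hU m hm) _
    have e2 := cancel (ca * c * psi d r m) (lam ^ (1 - q₁ / q₀) * (c₂ * psi d r m)) lam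
      (kol ℝ (W d ⊤ r α) m) (by have := hψm.1; positivity) hlam0 (by
        have h1 : lam ^ (1 - q₁ / q₀) * (c₂ * psi d r m) ≤
            ca * c / (2 * c₂) * (c₂ * psi d r m) :=
          mul_le_mul_of_nonneg_right hlame.le (by have := hψm.1; positivity)
        refine h1.trans (le_of_eq ?_)
        field_simp) e1
    refine le_trans (le_of_eq ?_) e2
    congr 1
    field_simp
  · obtain ⟨p, hp⟩ := exists_nat_ge q.toReal
    have hq2 : 2 ≤ q.toReal := by
      have := (ENNReal.toReal_le_toReal (by norm_num) hT).2 hq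
      simpa using this
    have hp1 : 1 ≤ p := by
      have : (1 : ℝ) ≤ p := by linarith
      exact_mod_cast this
    obtain ⟨ca, hca, hL⟩ := lower h1 h3 h5 d p r α hd hp1 hr0
    refine ⟨ca, c₂, hca, hc₂, fun m hm => ⟨(hL m hm).trans ?_, hUq m hm⟩⟩
    refine h3.2.1 d q _ r α m (le_trans (by norm_num) hq) ?_
    rw [← ENNReal.ofReal_toReal hT, ← ENNReal.ofReal_natCast]
    apply ENNReal.ofReal_le_ofReal
    push_cast
    have : (0 : ℝ) ≤ p := by positivity
    linarith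

end Pool.Agent.KW
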