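import Pool.Agent.KW.Stmts

set_option autoImplicit false

open scoped BigOperators

namespace Pool.Agent.KW

namespace MAUR_

theorem exists_le {Y : Type} [Fintype Y] (q F : Y → ℝ) (A : ℝ) (hq0 : ∀ y, 0 ≤ q y)
    (hq1 : ∑ y, q y = 1) (h : ∑ y, q y * F y ≤ A) : ∃ y, F y ≤ A := by
  by_contra hc
  push Not at hc
  have hpos : ∃ y, 0 < q y := by
    by_contra h0
    push Not at h0
    have : ∑ y, q y ≤ 0 := Finset.sum_nonpos fun y _ => h0 y
    linarith
  obtain ⟨y0, hy0⟩ := hpos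
  have h1 : ∑ y, q y * A < ∑ y, q y * F y :=
    Finset.sum_lt_sum (fun y _ => mul_le_mul_of_nonneg_left (hc y).le (hq0 y))
      ⟨y0, Finset.mem_univ _, mul_lt_mul_of_pos_left (hc y0) hy0⟩
  rw [← Finset.sum_mul, hq1, one_mul] at h1
  linarith

theorem key {Y ι : Type} [Fintype Y] [Fintype ι] (w : Y → ι → ℝ) (q : Y → ℝ) (u : ι → ℝ)
    (R : ℝ) (hq0 : ∀ y, 0 ≤ q y) (hq1 : ∑ y, q y = 1) (hu : ∀ i, ∑ y, q y * w y i = u i)
    (hR : ∀ y, ∑ i, w y i ^ 2 ≤ R ^ 2) :
    ∀ k : ℕ, ∃ σ : Fin k → Y, ∑ i, ((k : ℝ) * u i - ∑ j, w (σ j) i) ^ 2 ≤ k * R ^ 2 := by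
  intro k
  induction k with
  | zero => exact ⟨Fin.elim0, by simp⟩
  | succ k ih =>
    obtain ⟨σ, hσ⟩ := ih
    have hav : ∑ y, q y * ∑ i, ((k : ℝ) * u i - ∑ j, w (σ j) i + u i - w y i) ^ 2 ≤
        (k : ℝ) * R ^ 2 + R ^ 2 := by
      have h1 : ∑ y, q y * ∑ i, ((k : ℝ) * u i - ∑ j, w (σ j) i + u i - w y i) ^ 2 =
          ∑ i, ((k : ℝ) * u i - ∑ j, w (σ j) i) ^ 2 - ∑ i, u i ^ 2 +
            ∑ y, q y * ∑ i, w y i ^ 2 := by
        have h2 : ∀ y, q y * ∑ i, ((k : ℝ) * u i - ∑ j, w (σ j) i + u i - w y i) ^ 2 =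
            ∑ i, (q y * (((k : ℝ) * u i - ∑ j, w (σ j) i + u i) ^ 2) -
              2 * ((k : ℝ) * u i - ∑ j, w (σ j) i + u i) * (q y * w y i)) +
              q y * ∑ i, w y i ^ 2 := by
          intro y
          rw [Finset.mul_sum, Finset.mul_sum, ← Finset.sum_add_distrib]
          refine Finset.sum_congr rfl fun i _ => ?_
          ring
        rw [Finset.sum_congr rfl fun y _ => h2 y, Finset.sum_add_distrib, Finset.sum_comm,
          ← Finset.sum_sub_distrib]
        congr 1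
        refine Finset.sum_congr rfl fun i _ => ?_
        rw [Finset.sum_sub_distrib, ← Finset.sum_mul, ← Finset.mul_sum, hq1, hu i]
        ring
      have h3 : ∑ y, q y * ∑ i, w y i ^ 2 ≤ R ^ 2 := by
        calc ∑ y, q y * ∑ i, w y i ^ 2 ≤ ∑ y, q y * R ^ 2 :=
              Finset.sum_le_sum fun y _ => mul_le_mul_of_nonneg_left (hR y) (hq0 y)
          _ = R ^ 2 := by rw [← Finset.sum_mul, hq1, one_mul]
      have h4 : 0 ≤ ∑ i, u i ^ 2 := Finset.sum_nonneg fun i _ => sq_nonneg _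
      rw [h1]
      linarith
    obtain ⟨y, hy⟩ := exists_le q _ _ hq0 hq1 hav
    refine ⟨Fin.snoc σ y, ?_⟩
    have h5 : ∀ i, ((k + 1 : ℕ) : ℝ) * u i - ∑ j, w (Fin.snoc (α := fun _ => Y) σ y j) i =
        (k : ℝ) * u i - ∑ j, w (σ j) i + u i - w y i := by
      intro i
      rw [Fin.sum_univ_castSucc]
      simp only [Fin.snoc_castSucc, Fin.snoc_last]
      push_cast
      ring
    rw [Finset.sum_congr rfl fun i _ => by rw [h5 i]]
    push_cast
    linarith

end MAUR_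

open MAUR_

theorem maur_proof : Stmt_Maur := by
  intro X ι _ _ v R c k hv hc hk hX
  classical
  obtain ⟨x0⟩ := hX
  set δ : ℝ := (1 - ∑ x, |c x|) / 2 with hδ
  have hδ0 : 0 ≤ δ := by rw [hδ]; linarith
  let q : X × Bool → ℝ := fun y =>
    (if y.2 then max (c y.1) 0 else max (-(c y.1)) 0) + if y.1 = x0 then δ else 0
  have hq0 : ∀ y, 0 ≤ q y := by
    intro y
    refine add_nonneg ?_ ?_
    · split_ifs
      · exact le_max_right _ _
      · exact le_max_right _ _
    · split_ifs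
      · exact hδ0
      · exact le_rfl
  have habs : ∀ t : ℝ, max t 0 + max (-t) 0 = |t| := by
    intro t
    rcases le_total 0 t with h | h
    · rw [max_eq_left h, max_eq_right (by linarith), abs_of_nonneg h, add_zero]
    · rw [max_eq_right h, max_eq_left (by linarith), abs_of_nonpos h, zero_add]
  have hsub : ∀ t : ℝ, max t 0 - max (-t) 0 = t := by
    intro t
    rcases le_total 0 t with h | h
    · rw [max_eq_left h, max_eq_right (by linarith), sub_zero]
    · rw [max_eq_right h, max_eq_left (by linarith)]; ring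
  have hq1 : ∑ y, q y = 1 := by
    rw [Fintype.sum_prod_type]
    have h1 : ∀ x, ∑ b : Bool, q (x, b) = |c x| + if x = x0 then 2 * δ else 0 := by
      intro x
      rw [Fintype.sum_bool]
      simp only [q, if_true, Bool.false_eq_true, if_false]
      rw [← habs (c x)]
      split_ifs <;> ring
    rw [Finset.sum_congr rfl fun x _ => h1 x, Finset.sum_add_distrib, Finset.sum_ite_eq' ]
    simp only [Finset.mem_univ, if_true]
    rw [hδ]; ring
  have hu : ∀ i, ∑ y, q y * (sgn y.2 * v y.1 i) = ∑ x, c x * v x i := by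
    intro i
    rw [Fintype.sum_prod_type]
    refine Finset.sum_congr rfl fun x _ => ?_
    rw [Fintype.sum_bool]
    simp only [q, sgn, if_true, Bool.false_eq_true, if_false]
    have := hsub (c x)
    linear_combination (v x i) * this
  have hR : ∀ y : X × Bool, ∑ i, (sgn y.2 * v y.1 i) ^ 2 ≤ R ^ 2 := by
    intro y
    refine le_trans (le_of_eq ?_) (hv y.1)
    refine Finset.sum_congr rfl fun i _ => ?_
    cases hb : y.2
    · simp [sgn]
    · simp [sgn]
  obtain ⟨σ, hσ⟩ := key (fun y i => sgn y.2 * v y.1 i) q (fun i => ∑ x, c x * v x i) R hq0 hq1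
    hu hR k
  refine ⟨σ, ?_⟩
  have hk0 : (0 : ℝ) < k := by exact_mod_cast hk
  have h1 : ∀ i, (∑ x, c x * v x i - (∑ j, sgn (σ j).2 * v (σ j).1 i) / k) ^ 2 =
      ((k : ℝ) * ∑ x, c x * v x i - ∑ j, sgn (σ j).2 * v (σ j).1 i) ^ 2 / (k : ℝ) ^ 2 := by
    intro i
    field_simp
  rw [Finset.sum_congr rfl fun i _ => h1 i, ← Finset.sum_div, div_le_div_iff₀ (by positivity) hk0]
  calc _ ≤ ((k : ℝ) * R ^ 2) * k := mul_le_mul_of_nonneg_right hσ hk0.le
    _ = R ^ 2 * (k : ℝ) ^ 2 := by ring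

end Pool.Agent.KW
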