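import Pool.Agent.KW.Stmts

set_option autoImplicit false

/-!
# KW: module MGF
-/

open MeasureTheory
open scoped BigOperators ENNReal

namespace Pool.Agent.KW

namespace MGF_

theorem sum_bool (t : ℝ) : ∑ b : Bool, Real.exp (sgn b * t) = 2 * Real.cosh t := by
  rw [Fintype.sum_bool, Real.cosh_eq]
  unfold sgn
  simp only [if_true, Bool.false_eq_true, if_false, one_mul, neg_mul]
  ring

theorem sum_exp {Ω : Type} [AddCommGroup Ω] [Fintype Ω] (N : ℕ) (κ : Ω → ℝ) (x : Ω) (θ : ℝ) :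
    ∑ ω : Fin N → Ω × Bool, Real.exp (θ * RS κ ω x) =
      (2 * ∑ y, Real.cosh (θ * κ y)) ^ N := by
  have h1 : ∀ ω : Fin N → Ω × Bool, Real.exp (θ * RS κ ω x) =
      ∏ i, Real.exp (sgn (ω i).2 * (θ * κ (x - (ω i).1))) := by
    intro ω
    rw [← Real.exp_sum]
    unfold RS
    rw [Finset.mul_sum]
    refine congrArg Real.exp (Finset.sum_congr rfl fun i _ => ?_)
    ring
  simp_rw [h1]
  have h2 := Finset.prod_univ_sum (fun _ : Fin N => (Finset.univ : Finset (Ω × Bool)))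
    (fun _ p => Real.exp (sgn p.2 * (θ * κ (x - p.1))))
  rw [Fintype.piFinset_univ] at h2
  rw [← h2, Finset.prod_const, Finset.card_univ, Fintype.card_fin]
  congr 1
  rw [Fintype.sum_prod_type]
  simp only [sum_bool]
  rw [← Finset.mul_sum]
  congr 1
  exact (Equiv.subLeft x).sum_comp fun y => Real.cosh (θ * κ y)

theorem avg_exp {Ω : Type} [AddCommGroup Ω] [Fintype Ω] (N : ℕ) (κ : Ω → ℝ) (x : Ω) (θ : ℝ) :
    avg (fun ω : Fin N → Ω × Bool => Real.exp (θ * RS κ ω x)) =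
      (avg fun y => Real.cosh (θ * κ y)) ^ N := by
  unfold avg
  rw [sum_exp, Fintype.card_fun, Fintype.card_prod, Fintype.card_bool, Fintype.card_fin]
  push_cast
  rw [← div_pow]
  congr 1
  have hc : (Fintype.card Ω : ℝ) ≠ 0 := by
    have : 0 < Fintype.card Ω := Fintype.card_pos_iff.mpr ⟨0⟩
    positivity
  field_simp

theorem avg_cosh {Ω : Type} [AddCommGroup Ω] [Fintype Ω] (N : ℕ) (κ : Ω → ℝ) (x : Ω) (θ : ℝ) :
    avg (fun ω : Fin N → Ω × Bool => Real.cosh (θ * RS κ ω x)) =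
      (avg fun y => Real.cosh (θ * κ y)) ^ N := by
  have h1 := avg_exp N κ x θ
  have h2 := avg_exp N κ x (-θ)
  have h3 : (avg fun y => Real.cosh (-θ * κ y)) = avg fun y => Real.cosh (θ * κ y) := by
    unfold avg
    simp_rw [neg_mul, Real.cosh_neg]
  rw [h3] at h2
  have h4 : avg (fun ω : Fin N → Ω × Bool => Real.cosh (θ * RS κ ω x)) =
      (avg (fun ω : Fin N → Ω × Bool => Real.exp (θ * RS κ ω x)) +
        avg (fun ω : Fin N → Ω × Bool => Real.exp (-θ * RS κ ω x))) / 2 := by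
    unfold avg
    simp_rw [Real.cosh_eq, neg_mul]
    rw [← add_div, ← Finset.sum_add_distrib, ← Finset.sum_div, div_right_comm]
  rw [h4, h1, h2]
  ring

theorem ind_le (θ a R : ℝ) (hθ : 0 ≤ θ) :
    (if a ≤ |R| then (1 : ℝ) else 0) ≤ 2 * Real.exp (-(θ * a)) * Real.cosh (θ * R) := by
  split_ifs with h
  · have h1 : Real.cosh (θ * R) = Real.cosh (θ * |R|) := by
      rw [← Real.cosh_abs (θ * R), abs_mul, abs_of_nonneg hθ]
    rw [h1]
    have h2 : Real.exp (θ * |R|) ≤ 2 * Real.cosh (θ * |R|) := by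
      rw [Real.cosh_eq]
      have := Real.exp_pos (-(θ * |R|))
      linarith
    have h3 : (1 : ℝ) ≤ Real.exp (-(θ * a)) * Real.exp (θ * |R|) := by
      rw [← Real.exp_add]
      refine Real.one_le_exp ?_
      have := mul_le_mul_of_nonneg_left h hθ
      linarith
    calc (1 : ℝ) ≤ Real.exp (-(θ * a)) * Real.exp (θ * |R|) := h3
      _ ≤ Real.exp (-(θ * a)) * (2 * Real.cosh (θ * |R|)) :=
        mul_le_mul_of_nonneg_left h2 (Real.exp_pos _).le
      _ = 2 * Real.exp (-(θ * a)) * Real.cosh (θ * |R|) := by ring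
  · have h1 := Real.cosh_pos (θ * R)
    have h2 := Real.exp_pos (-(θ * a))
    positivity

end MGF_

open MGF_ in
theorem mgf_proof : Stmt_Mgf := by
  intro Ω _ _ N κ x
  refine ⟨fun θ => avg_cosh N κ x θ, fun θ a hθ => ?_⟩
  rw [← avg_cosh N κ x θ]
  unfold avg
  rw [← mul_div_assoc, Finset.mul_sum]
  refine div_le_div_of_nonneg_right (Finset.sum_le_sum fun ω _ => ind_le θ a _ hθ) ?_
  positivity

end Pool.Agent.KW
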