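import Pool.Agent.KW.Stmts

set_option autoImplicit false

/-!
# KW, module MOMG: all moments of the hyperbolic sums on the grid
-/

open scoped BigOperators

namespace Pool.Agent.KW

namespace MOMG_

/-- the average of a product over a finite power is the product of the averages -/
theorem avg_prod {d : ℕ} {κ : Type} [Fintype κ] (h : Fin d → κ → ℝ) :
    avg (fun x : Fin d → κ => ∏ i, h i (x i)) = ∏ i, avg (h i) := by
  unfold avg
  rw [Finset.prod_div_distrib, Finset.prod_const, Finset.card_univ, Fintype.card_fin]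
  congr 1
  · rw [Finset.prod_univ_sum, Fintype.piFinset_univ]
  · rw [Fintype.card_fun, Fintype.card_fin]; push_cast; rfl

theorem le_of_mem {d l : ℕ} {s : Fin d → ℕ} (hs : s ∈ Sh d l) (i : Fin d) : s i ≤ l := by
  unfold Sh at hs
  rw [Finset.mem_piAntidiag] at hs
  rw [← hs.1]
  exact Finset.single_le_sum (f := s) (fun _ _ => Nat.zero_le _) (Finset.mem_univ i)

theorem prod_le_sup {l M : ℕ} [NeZero M] {C : ℝ} {g : ℕ → ZMod M → ℝ} (hg : GHyp C l M g)
    {p : ℕ} (hp : 1 ≤ p) (t : Fin p → ℕ) (ht : ∀ j, t j ≤ l) (y : ZMod M) :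
    ∏ j, g (t j) y ≤ g (Finset.univ.sup t) y := by
  have : Nonempty (Fin p) := ⟨⟨0, hp⟩⟩
  obtain ⟨j0, -, hj0⟩ := Finset.exists_mem_eq_sup (Finset.univ : Finset (Fin p))
    Finset.univ_nonempty t
  rw [hj0, ← Finset.mul_prod_erase Finset.univ (fun j => g (t j) y) (Finset.mem_univ j0)]
  have h0 := (hg.1 (t j0) (ht j0) y).1
  have h1 : ∏ j ∈ Finset.univ.erase j0, g (t j) y ≤ 1 :=
    Finset.prod_le_one (fun j _ => (hg.1 (t j) (ht j) y).1) (fun j _ => (hg.1 (t j) (ht j) y).2)
  nlinarith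

theorem sup_le {l p : ℕ} (t : Fin p → ℕ) (ht : ∀ j, t j ≤ l) : Finset.univ.sup t ≤ l :=
  Finset.sup_le fun j _ => ht j

end MOMG_

open MOMG_ in
theorem momg_proof (h1 : Stmt_Join) : Stmt_MomG := by
  intro d hd C hC l M _ g hg p hp
  have hJ := h1 d l p hd hp
  have hstep : avg (fun x : Fin d → ZMod M => Gs g l x ^ p) ≤
      ∑ t ∈ Fintype.piFinset (fun _ : Fin p => Sh d l),
        C ^ d * ∏ i : Fin d, ((2 : ℝ) ^ (Finset.univ.sup fun j : Fin p => t j i))⁻¹ := by
    have e1 : avg (fun x : Fin d → ZMod M => Gs g l x ^ p) =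
        ∑ t ∈ Fintype.piFinset (fun _ : Fin p => Sh d l),
          avg (fun x : Fin d → ZMod M => ∏ j : Fin p, ∏ i, g (t j i) (x i)) := by
      unfold avg
      rw [← Finset.sum_div, Finset.sum_comm]
      congr 1
      refine Finset.sum_congr rfl fun x _ => ?_
      unfold Gs
      exact Finset.sum_pow' _ _ _
    rw [e1]
    refine Finset.sum_le_sum fun t ht => ?_
    have ht' : ∀ j i, t j i ≤ l := fun j i => le_of_mem (Fintype.mem_piFinset.1 ht j) i
    have hcard : (0 : ℝ) < (Fintype.card (Fin d → ZMod M) : ℝ) := by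
      exact_mod_cast Fintype.card_pos
    have e2 : avg (fun x : Fin d → ZMod M => ∏ j : Fin p, ∏ i, g (t j i) (x i)) ≤
        avg (fun x : Fin d → ZMod M => ∏ i, g (Finset.univ.sup fun j : Fin p => t j i) (x i)) := by
      unfold avg
      refine div_le_div_of_nonneg_right ?_ hcard.le
      refine Finset.sum_le_sum fun x _ => ?_
      rw [Finset.prod_comm]
      refine Finset.prod_le_prod (fun i _ => Finset.prod_nonneg fun j _ =>
        (hg.1 _ (ht' j i) _).1) fun i _ => ?_
      exact prod_le_sup hg hp (fun j => t j i) (fun j => ht' j i) (x i)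
    refine e2.trans ?_
    have e3 := avg_prod (d := d) (fun i y => g (Finset.univ.sup fun j : Fin p => t j i) y)
    rw [e3]
    have e4 : C ^ d * ∏ i : Fin d, ((2 : ℝ) ^ (Finset.univ.sup fun j : Fin p => t j i))⁻¹ =
        ∏ i : Fin d, (C * ((2 : ℝ) ^ (Finset.univ.sup fun j : Fin p => t j i))⁻¹) := by
      rw [Finset.prod_mul_distrib, Finset.prod_const, Finset.card_univ, Fintype.card_fin]
    rw [e4]
    refine Finset.prod_le_prod (fun i _ => ?_) fun i _ => ?_
    · unfold avg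
      refine div_nonneg (Finset.sum_nonneg fun y _ => ?_) (Nat.cast_nonneg _)
      exact (hg.1 _ (sup_le _ fun j => ht' j i) y).1
    · exact hg.2 _ (sup_le _ fun j => ht' j i)
  refine hstep.trans ?_
  rw [← Finset.mul_sum]
  have hCd : (0 : ℝ) ≤ C ^ d := by positivity
  calc C ^ d * ∑ t ∈ Fintype.piFinset (fun _ : Fin p => Sh d l),
        ∏ i : Fin d, ((2 : ℝ) ^ (Finset.univ.sup fun j : Fin p => t j i))⁻¹
      ≤ C ^ d * (Ln d l * ((2 : ℝ) ^ l)⁻¹ *
        ∑ k ∈ Finset.range (d * l + 1), ((2 : ℝ) ^ k)⁻¹ * ((k : ℝ) + 1) ^ (d - 1) *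
          (min (((k : ℝ) + 1) ^ (d - 1)) (Ln d l)) ^ (p - 1)) :=
        mul_le_mul_of_nonneg_left hJ hCd
    _ = _ := by ring

end Pool.Agent.KW
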