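import Pool.Agent.KW.Stmts

set_option autoImplicit false

/-!
# KW, module MOMP: even moments of random sums
-/

open MeasureTheory
open scoped BigOperators ENNReal

namespace Pool.Agent.KW

noncomputable section

theorem MOMP_.even_odd (f : ℕ → ℝ) (n : ℕ) : ∑ i ∈ Finset.range (2 * n + 1), f i =
    ∑ j ∈ Finset.range (n + 1), f (2 * j) + ∑ j ∈ Finset.range n, f (2 * j + 1) := by
  induction n with
  | zero => simp
  | succ n ih =>
    have h1 : 2 * (n + 1) + 1 = 2 * n + 1 + 1 + 1 := by ring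
    rw [h1, Finset.sum_range_succ, Finset.sum_range_succ, ih, Finset.sum_range_succ _ (n + 1),
      Finset.sum_range_succ _ n]
    have h2 : 2 * n + 1 + 1 = 2 * (n + 1) := by ring
    rw [h2, Finset.sum_range_succ (fun j => f (2 * j + 1)) n]
    ring

theorem MOMP_.binom (a b : ℝ) (p : ℕ) : (a + b) ^ (2 * p) + (-a + b) ^ (2 * p) =
    2 * ∑ j ∈ Finset.range (p + 1), ((2 * p).choose (2 * j) : ℝ) * a ^ (2 * j) *
      b ^ (2 * (p - j)) := by
  rw [add_pow, add_pow, ← Finset.sum_add_distrib, MOMP_.even_odd]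
  have h1 : ∑ j ∈ Finset.range p, (a ^ (2 * j + 1) * b ^ (2 * p - (2 * j + 1)) *
      ((2 * p).choose (2 * j + 1) : ℝ) + (-a) ^ (2 * j + 1) * b ^ (2 * p - (2 * j + 1)) *
      ((2 * p).choose (2 * j + 1) : ℝ)) = 0 := by
    refine Finset.sum_eq_zero fun j _ => ?_
    rw [Odd.neg_pow ⟨j, rfl⟩]
    ring
  rw [h1, add_zero, Finset.mul_sum]
  refine Finset.sum_congr rfl fun j _ => ?_
  rw [Even.neg_pow ⟨j, by ring⟩]
  have h2 : 2 * p - 2 * j = 2 * (p - j) := by omega
  rw [h2]
  ring

/-- The moments. -/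
def MOMP_.M {Ω : Type} [AddCommGroup Ω] [Fintype Ω] (Ψ : Ω → ℝ) (x : Ω) (N p : ℕ) : ℝ :=
  avg (fun ω : Fin N → Ω × Bool => RS Ψ ω x ^ (2 * p))

theorem MOMP_.M_nonneg {Ω : Type} [AddCommGroup Ω] [Fintype Ω] (Ψ : Ω → ℝ) (x : Ω) (N p : ℕ) :
    0 ≤ MOMP_.M Ψ x N p := by
  unfold MOMP_.M avg
  refine div_nonneg (Finset.sum_nonneg fun ω _ => ?_) (by positivity)
  exact Even.pow_nonneg ⟨p, by ring⟩ _

theorem MOMP_.M_zero {Ω : Type} [AddCommGroup Ω] [Fintype Ω] (Ψ : Ω → ℝ) (x : Ω) (N : ℕ) :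
    MOMP_.M Ψ x N 0 = 1 := by
  unfold MOMP_.M avg
  simp only [mul_zero, pow_zero, Finset.sum_const, Finset.card_univ, nsmul_eq_mul, mul_one]
  have : (Fintype.card (Fin N → Ω × Bool) : ℝ) ≠ 0 := by
    exact_mod_cast Fintype.card_ne_zero
  exact div_self this

theorem MOMP_.zero_M {Ω : Type} [AddCommGroup Ω] [Fintype Ω] (Ψ : Ω → ℝ) (x : Ω) (p : ℕ)
    (hp : 1 ≤ p) : MOMP_.M Ψ x 0 p = 0 := by
  unfold MOMP_.M avg RS
  have : 2 * p ≠ 0 := by omega
  simp [this]

theorem MOMP_.step {Ω : Type} [AddCommGroup Ω] [Fintype Ω] (Ψ : Ω → ℝ) (x : Ω) (N p : ℕ) :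
    MOMP_.M Ψ x (N + 1) p = ∑ j ∈ Finset.range (p + 1), ((2 * p).choose (2 * j) : ℝ) *
      avg (fun y => Ψ y ^ (2 * j)) * MOMP_.M Ψ x N (p - j) := by
  have hRS : ∀ (a : Ω × Bool) (ω : Fin N → Ω × Bool),
      RS Ψ (Fin.cons a ω : Fin (N + 1) → Ω × Bool) x = sgn a.2 * Ψ (x - a.1) + RS Ψ ω x := by
    intro a ω
    unfold RS
    rw [Fin.sum_univ_succ]
    simp
  have hsum : ∑ ω : Fin (N + 1) → Ω × Bool, RS Ψ ω x ^ (2 * p) =
      2 * ∑ j ∈ Finset.range (p + 1), ((2 * p).choose (2 * j) : ℝ) *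
        (∑ y, Ψ y ^ (2 * j)) * ∑ ω : Fin N → Ω × Bool, RS Ψ ω x ^ (2 * (p - j)) := by
    rw [← (Fin.consEquiv (fun _ : Fin (N + 1) => Ω × Bool)).sum_comp, Fintype.sum_prod_type,
      Fintype.sum_prod_type]
    have e1 : ∀ y : Ω, ∑ b : Bool, ∑ ω : Fin N → Ω × Bool,
        RS Ψ ((Fin.consEquiv (fun _ : Fin (N + 1) => Ω × Bool)) ((y, b), ω)) x ^ (2 * p) =
        2 * ∑ j ∈ Finset.range (p + 1), ((2 * p).choose (2 * j) : ℝ) *
          Ψ (x - y) ^ (2 * j) * ∑ ω : Fin N → Ω × Bool, RS Ψ ω x ^ (2 * (p - j)) := by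
      intro y
      rw [Fintype.sum_bool, ← Finset.sum_add_distrib]
      have e2 : ∀ ω : Fin N → Ω × Bool,
          RS Ψ ((Fin.consEquiv (fun _ : Fin (N + 1) => Ω × Bool)) ((y, true), ω)) x ^ (2 * p) +
          RS Ψ ((Fin.consEquiv (fun _ : Fin (N + 1) => Ω × Bool)) ((y, false), ω)) x ^ (2 * p) =
          2 * ∑ j ∈ Finset.range (p + 1), ((2 * p).choose (2 * j) : ℝ) * Ψ (x - y) ^ (2 * j) *
            RS Ψ ω x ^ (2 * (p - j)) := by
        intro ω
        have e3 := hRS (y, true) ω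
        have e4 := hRS (y, false) ω
        have e5 : (Fin.consEquiv (fun _ : Fin (N + 1) => Ω × Bool)) ((y, true), ω) =
          (Fin.cons (y, true) ω : Fin (N + 1) → Ω × Bool) := rfl
        have e6 : (Fin.consEquiv (fun _ : Fin (N + 1) => Ω × Bool)) ((y, false), ω) =
          (Fin.cons (y, false) ω : Fin (N + 1) → Ω × Bool) := rfl
        rw [e5, e6, e3, e4, ← MOMP_.binom]
        simp [sgn]
      rw [Finset.sum_congr rfl fun ω _ => e2 ω, ← Finset.mul_sum, Finset.sum_comm]
      congr 1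
      refine Finset.sum_congr rfl fun j _ => ?_
      rw [Finset.mul_sum]
    rw [Finset.sum_congr rfl fun y _ => e1 y, ← Finset.mul_sum, Finset.sum_comm]
    congr 1
    refine Finset.sum_congr rfl fun j _ => ?_
    rw [← Finset.sum_mul, ← Finset.mul_sum]
    congr 2
    exact (Equiv.subLeft x).sum_comp (fun y => Ψ y ^ (2 * j))
  have hc0 : (Fintype.card Ω : ℝ) ≠ 0 := by exact_mod_cast Fintype.card_ne_zero
  have hc1 : (Fintype.card (Fin N → Ω × Bool) : ℝ) ≠ 0 := by exact_mod_cast Fintype.card_ne_zero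
  have hc2 : (Fintype.card (Fin (N + 1) → Ω × Bool) : ℝ) =
      (Fintype.card (Fin N → Ω × Bool) : ℝ) * ((Fintype.card Ω : ℝ) * 2) := by
    have : Fintype.card (Fin (N + 1) → Ω × Bool) =
        Fintype.card (Fin N → Ω × Bool) * (Fintype.card Ω * 2) := by
      simp [pow_succ]
    rw [this]
    push_cast
    ring
  unfold MOMP_.M avg
  rw [hsum, hc2, Finset.mul_sum, Finset.sum_div]
  refine Finset.sum_congr rfl fun j _ => ?_
  field_simp

theorem momp_proof : Stmt_MomP := by
  have key : ∀ p : ℕ, ∃ C : ℝ, 0 < C ∧ ∀ (Ω : Type) [AddCommGroup Ω] [Fintype Ω]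
      (N : ℕ) (Ψ : Ω → ℝ) (Q : ℝ), 1 ≤ Q →
      (∀ k, 1 ≤ k → k ≤ p → (N : ℝ) * avg (fun y => Ψ y ^ (2 * k)) ≤ Q) →
      ∀ x : Ω, ∀ N' ≤ N, MOMP_.M Ψ x N' p ≤ C * Q ^ p := by
    intro p
    induction p using Nat.strong_induction_on with
    | _ p ih =>
      rcases Nat.eq_zero_or_pos p with rfl | hp
      · refine ⟨1, one_pos, ?_⟩
        intro Ω _ _ N Ψ Q hQ _ x N' _
        rw [MOMP_.M_zero]
        simp
      · have ih' : ∀ q : ℕ, ∃ C : ℝ, 0 < C ∧ (q < p → ∀ (Ω : Type) [AddCommGroup Ω] [Fintype Ω]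
            (N : ℕ) (Ψ : Ω → ℝ) (Q : ℝ), 1 ≤ Q →
            (∀ k, 1 ≤ k → k ≤ q → (N : ℝ) * avg (fun y => Ψ y ^ (2 * k)) ≤ Q) →
            ∀ x : Ω, ∀ N' ≤ N, MOMP_.M Ψ x N' q ≤ C * Q ^ q) := by
          intro q
          by_cases hq : q < p
          · obtain ⟨C, hC, h⟩ := ih q hq
            exact ⟨C, hC, fun _ => h⟩
          · exact ⟨1, one_pos, fun h => absurd h hq⟩
        choose Cf hCf hb using ih'
        set K : ℝ := ∑ j ∈ Finset.range p, ((2 * p).choose (2 * (j + 1)) : ℝ) *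
          Cf (p - (j + 1)) + 1 with hK
        have hK0 : 0 < K := by
          have : 0 ≤ ∑ j ∈ Finset.range p, ((2 * p).choose (2 * (j + 1)) : ℝ) *
            Cf (p - (j + 1)) := Finset.sum_nonneg fun j _ => mul_nonneg (by positivity) (hCf _).le
          linarith
        refine ⟨K, hK0, ?_⟩
        intro Ω _ _ N Ψ Q hQ hm x
        have hQ0 : 0 < Q := by linarith
        have hind : ∀ N' : ℕ, N' ≤ N → MOMP_.M Ψ x N' p ≤ (N' : ℝ) / N * (K * Q ^ p) := by
          intro N'
          induction N' with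
          | zero =>
            intro _
            rw [MOMP_.zero_M Ψ x p hp]
            simp
          | succ N' ih2 =>
            intro hN
            have hNpos : (0 : ℝ) < N := by
              have : 0 < N := by omega
              exact_mod_cast this
            rw [MOMP_.step, Finset.sum_range_succ']
            have h0 : ((2 * p).choose (2 * 0) : ℝ) * avg (fun y => Ψ y ^ (2 * 0)) *
                MOMP_.M Ψ x N' (p - 0) = MOMP_.M Ψ x N' p := by
              have hc0 : (Fintype.card Ω : ℝ) ≠ 0 := by exact_mod_cast Fintype.card_ne_zero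
              have h1 : avg (fun y => Ψ y ^ (2 * 0)) = 1 := by
                unfold avg
                simp [hc0]
              rw [h1]
              simp
            rw [h0]
            have h2 := ih2 (by omega)
            have h3 : ∀ j ∈ Finset.range p, ((2 * p).choose (2 * (j + 1)) : ℝ) *
                avg (fun y => Ψ y ^ (2 * (j + 1))) * MOMP_.M Ψ x N' (p - (j + 1)) ≤
                ((2 * p).choose (2 * (j + 1)) : ℝ) * Cf (p - (j + 1)) * (Q ^ p / N) := by
              intro j hj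
              have hj' : j < p := Finset.mem_range.1 hj
              have a1 : avg (fun y => Ψ y ^ (2 * (j + 1))) ≤ Q / N := by
                rw [le_div_iff₀ hNpos, mul_comm]
                exact hm (j + 1) (by omega) (by omega)
              have a2 : MOMP_.M Ψ x N' (p - (j + 1)) ≤ Cf (p - (j + 1)) * Q ^ (p - (j + 1)) :=
                hb (p - (j + 1)) (by omega) Ω N Ψ Q hQ
                  (fun k hk1 hk2 => hm k hk1 (by omega)) x N' (by omega)
              have a3 : avg (fun y => Ψ y ^ (2 * (j + 1))) * MOMP_.M Ψ x N' (p - (j + 1)) ≤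
                  Q / N * (Cf (p - (j + 1)) * Q ^ (p - (j + 1))) :=
                mul_le_mul a1 a2 (MOMP_.M_nonneg _ _ _ _) (by positivity)
              have a4 : Q * Q ^ (p - (j + 1)) ≤ Q ^ p := by
                rw [← pow_succ']
                exact pow_le_pow_right₀ hQ (by omega)
              have a5 : Q / N * (Cf (p - (j + 1)) * Q ^ (p - (j + 1))) ≤
                  Cf (p - (j + 1)) * (Q ^ p / N) := by
                have : Q / N * (Cf (p - (j + 1)) * Q ^ (p - (j + 1))) =
                    Cf (p - (j + 1)) * ((Q * Q ^ (p - (j + 1))) / N) := by ring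
                rw [this]
                exact mul_le_mul_of_nonneg_left (div_le_div_of_nonneg_right a4 hNpos.le)
                  (hCf _).le
              calc ((2 * p).choose (2 * (j + 1)) : ℝ) *
                  avg (fun y => Ψ y ^ (2 * (j + 1))) * MOMP_.M Ψ x N' (p - (j + 1)) =
                  ((2 * p).choose (2 * (j + 1)) : ℝ) *
                  (avg (fun y => Ψ y ^ (2 * (j + 1))) * MOMP_.M Ψ x N' (p - (j + 1))) := by ring
                _ ≤ ((2 * p).choose (2 * (j + 1)) : ℝ) * (Cf (p - (j + 1)) * (Q ^ p / N)) :=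
                    mul_le_mul_of_nonneg_left (a3.trans a5) (by positivity)
                _ = _ := by ring
            have h4 := Finset.sum_le_sum h3
            rw [← Finset.sum_mul] at h4
            have h5 : (∑ j ∈ Finset.range p, ((2 * p).choose (2 * (j + 1)) : ℝ) *
                Cf (p - (j + 1))) * (Q ^ p / N) ≤ K * (Q ^ p / N) :=
              mul_le_mul_of_nonneg_right (by linarith) (by positivity)
            have h6 : ((N' + 1 : ℕ) : ℝ) / N * (K * Q ^ p) =
                K * (Q ^ p / N) + (N' : ℝ) / N * (K * Q ^ p) := by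
              push_cast
              ring
            rw [h6]
            linarith
        intro N' hN'
        rcases Nat.eq_zero_or_pos N with hN0 | hN0
        · have : N' = 0 := by omega
          subst this
          rw [MOMP_.zero_M Ψ x p hp]
          positivity
        · refine (hind N' hN').trans ?_
          have h7 : (N' : ℝ) / N ≤ 1 := by
            rw [div_le_one (by exact_mod_cast hN0)]
            exact_mod_cast hN'
          have h8 : 0 ≤ K * Q ^ p := by positivity
          nlinarith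
  intro p
  obtain ⟨C, hC, h⟩ := key p
  exact ⟨C, hC, fun Ω _ _ N Ψ Q hQ hm x => h Ω N Ψ Q hQ hm x N le_rfl⟩

end

end Pool.Agent.KW
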