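import Pool.Agent.KW.Stmts

set_option autoImplicit false

/-!
# KW, module MONO: monotonicity of the classes and of the widths
-/

open MeasureTheory
open scoped BigOperators ENNReal

namespace Pool.Agent.KW

noncomputable section

namespace MONO_

theorem W_sub (d : ℕ) (q q' : ℝ≥0∞) (r α : ℝ) (h : q ≤ q') : W d q' r α ⊆ W d q r α := by
  rintro f ⟨φ, h1, h2, h3⟩
  exact ⟨φ, h1.mono_exponent h,
    (eLpNorm_le_eLpNorm_of_exponent_le h h1.aestronglyMeasurable).trans h2, h3⟩

end MONO_

open MONO_ in
theorem mono_proof : Stmt_Mono := by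
  refine ⟨fun d q q' r α _ h => W_sub d q q' r α h, fun d q q' r α m _ h => ?_,
    fun d q r α m m' h => ?_⟩
  · unfold kol
    exact iInf_mono fun U => iSup₂_le fun f hf =>
      le_iSup₂_of_le f (W_sub d q q' r α h hf) le_rfl
  · unfold kol
    exact le_iInf fun U => iInf_le_of_le ⟨U.1, U.2.1, U.2.2.trans h⟩ le_rfl

end

end Pool.Agent.KW
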