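import Pool.Agent.KW.Stmts

set_option autoImplicit false

/-!
# KW, module ORDL: from the index `n` to the number `m`, lower bound
-/

open scoped BigOperators ENNReal

namespace Pool.Agent.KW

namespace ORDL_

lemma ssq_ge_one (r : ℝ) (J : ℕ) : 1 ≤ Ssq r J := by
  have h0 : (2 : ℝ) ^ ((1 - 2 * r) * ((0 : ℕ) : ℝ)) = 1 := by simp
  have h1 := Finset.single_le_sum (f := fun j : ℕ => (2 : ℝ) ^ ((1 - 2 * r) * (j : ℝ)))
    (s := Finset.range (J + 1)) (a := 0) (fun i _ => by positivity) (by simp)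
  unfold Ssq
  linarith [h1, h0]

lemma ssq_ge_last (r : ℝ) (J : ℕ) : (2 : ℝ) ^ ((1 - 2 * r) * (J : ℝ)) ≤ Ssq r J := by
  unfold Ssq
  exact Finset.single_le_sum (f := fun j : ℕ => (2 : ℝ) ^ ((1 - 2 * r) * (j : ℝ)))
    (fun i _ => by positivity) (by simp)

lemma ssq_half (J : ℕ) : Ssq (1 / 2) J = (J : ℝ) + 1 := by
  unfold Ssq
  simp

/-- The logarithm of `m`. -/
lemma logb (d : ℕ) (c : ℝ) (hc : 0 < c) : ∃ C : ℝ, 1 ≤ C ∧ ∀ n : ℕ, 2 ≤ n →
    ∀ m : ℕ, 2 ≤ m → (m : ℝ) ≤ c * ((2 : ℝ) ^ n * (n : ℝ) ^ (d - 1)) →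
      Real.log m ≤ C * n := by
  refine ⟨|Real.log c| + 1 + ((d - 1 : ℕ) : ℝ), ?_, ?_⟩
  · have := abs_nonneg (Real.log c)
    have h2 : (0 : ℝ) ≤ ((d - 1 : ℕ) : ℝ) := Nat.cast_nonneg _
    linarith
  · intro n hn m hm hle
    have hn1 : (1 : ℝ) ≤ n := by exact_mod_cast (by omega : 1 ≤ n)
    have hn0 : (0 : ℝ) < n := by linarith
    have hm0 : (0 : ℝ) < m := by exact_mod_cast (by omega : 0 < m)
    have h1 : Real.log m ≤ Real.log (c * ((2 : ℝ) ^ n * (n : ℝ) ^ (d - 1))) :=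
      Real.log_le_log hm0 hle
    have h2 : Real.log (c * ((2 : ℝ) ^ n * (n : ℝ) ^ (d - 1))) =
        Real.log c + (n * Real.log 2 + ((d - 1 : ℕ) : ℝ) * Real.log n) := by
      rw [Real.log_mul hc.ne' (by positivity), Real.log_mul (by positivity) (by positivity),
        Real.log_pow, Real.log_pow]
    have h3 : Real.log 2 ≤ 1 := by
      have := Real.log_two_lt_d9
      linarith
    have h4 : Real.log n ≤ n := by
      have := Real.log_le_sub_one_of_pos hn0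
      linarith
    have h5 : Real.log c ≤ |Real.log c| * n := by
      have h6 := le_abs_self (Real.log c)
      have h7 := abs_nonneg (Real.log c)
      nlinarith
    have h8 : ((d - 1 : ℕ) : ℝ) * Real.log n ≤ ((d - 1 : ℕ) : ℝ) * n :=
      mul_le_mul_of_nonneg_left h4 (Nat.cast_nonneg _)
    have h9 : (n : ℝ) * Real.log 2 ≤ n := by nlinarith
    rw [h2] at h1
    nlinarith

/-- The common factor. -/
lemma base (d : ℕ) (r κ c a : ℝ) (hd : 2 ≤ d) (hr : 0 < r) (hκ : 0 < κ) (hc : 0 < c)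
    (ha : 0 ≤ a) : ∃ C : ℝ, 0 < C ∧ ∀ n : ℕ, 2 ≤ n → ∀ m : ℕ, 2 ≤ m →
    κ * ((2 : ℝ) ^ n * (n : ℝ) ^ (d - 1)) ≤ m → (m : ℝ) ≤ c * ((2 : ℝ) ^ n * (n : ℝ) ^ (d - 1)) →
      (m : ℝ) ^ (-r) * (Real.log m) ^ a ≤
        C * ((2 : ℝ) ^ (-(r * (n : ℝ))) * (n : ℝ) ^ (a - ((d : ℝ) - 1) * r)) := by
  obtain ⟨C, hC1, hC⟩ := logb d c hc
  refine ⟨κ ^ (-r) * C ^ a, by positivity, ?_⟩
  intro n hn m hm hlo hhi
  have hn0 : (0 : ℝ) < n := by exact_mod_cast (by omega : 0 < n)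
  have hm1 : (1 : ℝ) ≤ m := by exact_mod_cast (by omega : 1 ≤ m)
  have hm0 : (0 : ℝ) < m := by linarith
  have hlog0 : 0 ≤ Real.log m := Real.log_nonneg hm1
  have h1 : (Real.log m) ^ a ≤ (C * n) ^ a := Real.rpow_le_rpow hlog0 (hC n hn m hm hhi) ha
  have h2 : (m : ℝ) ^ (-r) ≤ (κ * ((2 : ℝ) ^ n * (n : ℝ) ^ (d - 1))) ^ (-r) :=
    Real.rpow_le_rpow_of_nonpos (by positivity) hlo (by linarith)
  have h3 : (κ * ((2 : ℝ) ^ n * (n : ℝ) ^ (d - 1))) ^ (-r) =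
      κ ^ (-r) * ((2 : ℝ) ^ (-(r * (n : ℝ))) * (n : ℝ) ^ (-(((d : ℝ) - 1) * r))) := by
    rw [Real.mul_rpow hκ.le (by positivity), Real.mul_rpow (by positivity) (by positivity)]
    congr 2
    · rw [← Real.rpow_natCast, ← Real.rpow_mul (by norm_num)]
      congr 1
      ring
    · rw [← Real.rpow_natCast, ← Real.rpow_mul hn0.le]
      congr 1
      rw [Nat.cast_sub (by omega : 1 ≤ d)]
      push_cast
      ring
  have h4 : (C * (n : ℝ)) ^ a = C ^ a * (n : ℝ) ^ a :=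
    Real.mul_rpow (by linarith) hn0.le
  have h5 : (n : ℝ) ^ (a - ((d : ℝ) - 1) * r) =
      (n : ℝ) ^ a * (n : ℝ) ^ (-(((d : ℝ) - 1) * r)) := by
    rw [← Real.rpow_add hn0]
    congr 1
  calc (m : ℝ) ^ (-r) * (Real.log m) ^ a
      ≤ (κ ^ (-r) * ((2 : ℝ) ^ (-(r * (n : ℝ))) * (n : ℝ) ^ (-(((d : ℝ) - 1) * r)))) *
        (C ^ a * (n : ℝ) ^ a) := by
        rw [← h3, ← h4]
        exact mul_le_mul h2 h1 (by positivity) (by positivity)
    _ = κ ^ (-r) * C ^ a * ((2 : ℝ) ^ (-(r * (n : ℝ))) * (n : ℝ) ^ (a - ((d : ℝ) - 1) * r)) := by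
        rw [h5]
        ring

/-- `log (3 + log m)` is at most a constant times `Jn d n + 1`. -/
lemma loglog (d : ℕ) (c : ℝ) (hd : 2 ≤ d) (hc : 0 < c) : ∃ C : ℝ, 0 < C ∧ ∀ n : ℕ, 2 ≤ n →
    ∀ m : ℕ, 2 ≤ m → (m : ℝ) ≤ c * ((2 : ℝ) ^ n * (n : ℝ) ^ (d - 1)) →
      Real.log (3 + Real.log m) ≤ C * ((Jn d n : ℝ) + 1) := by
  obtain ⟨C, hC1, hC⟩ := logb d c hc
  refine ⟨Real.log (3 + C) + 1, ?_, ?_⟩
  · have : 0 ≤ Real.log (3 + C) := Real.log_nonneg (by linarith)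
    linarith
  · intro n hn m hm hhi
    have hn1 : (1 : ℝ) ≤ n := by exact_mod_cast (by omega : 1 ≤ n)
    have hn0 : (0 : ℝ) < n := by linarith
    have hm1 : (1 : ℝ) ≤ m := by exact_mod_cast (by omega : 1 ≤ m)
    have hlog0 : 0 ≤ Real.log m := Real.log_nonneg hm1
    have h1 : 3 + Real.log m ≤ (3 + C) * n := by
      have := hC n hn m hm hhi
      nlinarith
    have h2 : Real.log (3 + Real.log m) ≤ Real.log (3 + C) + Real.log n := by
      rw [← Real.log_mul (by linarith) hn0.ne']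
      exact Real.log_le_log (by linarith) h1
    have h3 : Real.log n ≤ (Nat.log 2 n : ℝ) + 1 := by
      have h4 : (n : ℝ) ≤ (2 : ℝ) ^ (Nat.log 2 n + 1) := by
        exact_mod_cast (Nat.lt_pow_succ_log_self (by norm_num) n).le
      have h5 : Real.log n ≤ ((Nat.log 2 n + 1 : ℕ) : ℝ) * Real.log 2 := by
        rw [← Real.log_pow]
        exact Real.log_le_log hn0 h4
      have h6 : Real.log 2 ≤ 1 := by
        have := Real.log_two_lt_d9
        linarith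
      have h7 : ((Nat.log 2 n + 1 : ℕ) : ℝ) * Real.log 2 ≤ ((Nat.log 2 n + 1 : ℕ) : ℝ) * 1 :=
        mul_le_mul_of_nonneg_left h6 (Nat.cast_nonneg _)
      push_cast at h5 h7
      linarith
    have h8 : (Nat.log 2 n : ℝ) ≤ (Jn d n : ℝ) := by
      unfold Jn
      have : Nat.log 2 n ≤ (2 * d - 3) * Nat.log 2 n :=
        Nat.le_mul_of_pos_left _ (by omega)
      exact_mod_cast this
    have h9 : 0 ≤ Real.log (3 + C) := Real.log_nonneg (by linarith)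
    have h10 : (0 : ℝ) ≤ (Jn d n : ℝ) := Nat.cast_nonneg _
    nlinarith

/-- A power of `n` is dominated by the sum `Ssq`. -/
lemma ssq_small (d : ℕ) (r : ℝ) (hd : 2 ≤ d) (hr : r < 1 / 2) : ∃ C : ℝ, 0 < C ∧
    ∀ n : ℕ, 2 ≤ n → (n : ℝ) ^ ((1 - 2 * r) * (2 * (d : ℝ) - 3)) ≤ C * Ssq r (Jn d n) := by
  refine ⟨(2 : ℝ) ^ ((1 - 2 * r) * (2 * (d : ℝ) - 3)), by positivity, ?_⟩
  intro n hn
  have hn0 : (0 : ℝ) < n := by exact_mod_cast (by omega : 0 < n)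
  have hd3 : (0 : ℝ) ≤ 2 * (d : ℝ) - 3 := by
    have : (2 : ℝ) ≤ d := by exact_mod_cast hd
    linarith
  have he : 0 ≤ (1 - 2 * r) * (2 * (d : ℝ) - 3) := mul_nonneg (by linarith) hd3
  have h4 : (n : ℝ) ≤ (2 : ℝ) * (2 : ℝ) ^ (Nat.log 2 n : ℝ) := by
    have h5 : (n : ℝ) ≤ (2 : ℝ) ^ (Nat.log 2 n + 1) := by
      exact_mod_cast (Nat.lt_pow_succ_log_self (by norm_num) n).le
    rw [Real.rpow_natCast]
    calc (n : ℝ) ≤ (2 : ℝ) ^ (Nat.log 2 n + 1) := h5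
      _ = 2 * 2 ^ Nat.log 2 n := by ring
  calc (n : ℝ) ^ ((1 - 2 * r) * (2 * (d : ℝ) - 3))
      ≤ ((2 : ℝ) * (2 : ℝ) ^ (Nat.log 2 n : ℝ)) ^ ((1 - 2 * r) * (2 * (d : ℝ) - 3)) :=
        Real.rpow_le_rpow hn0.le h4 he
    _ = (2 : ℝ) ^ ((1 - 2 * r) * (2 * (d : ℝ) - 3)) *
        (2 : ℝ) ^ ((1 - 2 * r) * (Jn d n : ℝ)) := by
        rw [Real.mul_rpow (by norm_num) (by positivity), ← Real.rpow_mul (by norm_num)]
        congr 2
        unfold Jn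
        rw [Nat.cast_mul, Nat.cast_sub (by omega : 3 ≤ 2 * d)]
        push_cast
        ring
    _ ≤ (2 : ℝ) ^ ((1 - 2 * r) * (2 * (d : ℝ) - 3)) * Ssq r (Jn d n) :=
        mul_le_mul_of_nonneg_left (ssq_ge_last r _) (by positivity)

/-- The key comparison. -/
lemma key (d : ℕ) (r κ c : ℝ) (hd : 2 ≤ d) (hr : 0 < r) (hκ : 0 < κ) (hc : 0 < c) :
    ∃ C : ℝ, 0 < C ∧ ∀ n : ℕ, 2 ≤ n → ∀ m : ℕ, 2 ≤ m →
    κ * ((2 : ℝ) ^ n * (n : ℝ) ^ (d - 1)) ≤ m → (m : ℝ) ≤ c * ((2 : ℝ) ^ n * (n : ℝ) ^ (d - 1)) →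
      psi d r m ≤ C * Th d r n := by
  have hd2 : (2 : ℝ) ≤ d := by exact_mod_cast hd
  rcases lt_trichotomy r (1 / 2) with h | h | h
  · -- small smoothness
    obtain ⟨C, hC0, hC⟩ := base d r κ c (((d : ℝ) - 1) * (1 - r) + r) hd hr hκ hc
      (by nlinarith)
    obtain ⟨C', hC0', hC'⟩ := ssq_small d r hd h
    refine ⟨C * Real.sqrt C', by positivity, ?_⟩
    intro n hn m hm hlo hhi
    have hn0 : (0 : ℝ) < n := by exact_mod_cast (by omega : 0 < n)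
    have h1 := hC n hn m hm hlo hhi
    unfold psi
    rw [if_neg (by linarith), if_neg (by linarith)]
    refine h1.trans ?_
    unfold Th
    have h2 : (n : ℝ) ^ (((d : ℝ) - 1) * (1 - r) + r - ((d : ℝ) - 1) * r) =
        Real.sqrt n * Real.sqrt ((n : ℝ) ^ ((1 - 2 * r) * (2 * (d : ℝ) - 3))) := by
      rw [Real.sqrt_eq_rpow, Real.sqrt_eq_rpow, ← Real.rpow_mul hn0.le, ← Real.rpow_add hn0]
      congr 1
      ring
    rw [h2]
    have h3 : Real.sqrt ((n : ℝ) ^ ((1 - 2 * r) * (2 * (d : ℝ) - 3))) ≤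
        Real.sqrt C' * Real.sqrt (Ssq r (Jn d n)) := by
      rw [← Real.sqrt_mul hC0'.le]
      exact Real.sqrt_le_sqrt (hC' n hn)
    calc C * ((2 : ℝ) ^ (-(r * (n : ℝ))) *
          (Real.sqrt n * Real.sqrt ((n : ℝ) ^ ((1 - 2 * r) * (2 * (d : ℝ) - 3)))))
        ≤ C * ((2 : ℝ) ^ (-(r * (n : ℝ))) *
          (Real.sqrt n * (Real.sqrt C' * Real.sqrt (Ssq r (Jn d n))))) := by gcongr
      _ = C * Real.sqrt C' * ((2 : ℝ) ^ (-(r * (n : ℝ))) * Real.sqrt n *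
          Real.sqrt (Ssq r (Jn d n))) := by ring
  · -- the critical case
    obtain ⟨C, hC0, hC⟩ := base d r κ c ((d : ℝ) / 2) hd hr hκ hc (by linarith)
    obtain ⟨C', hC0', hC'⟩ := loglog d c hd hc
    refine ⟨C * Real.sqrt C', by positivity, ?_⟩
    intro n hn m hm hlo hhi
    have hn0 : (0 : ℝ) < n := by exact_mod_cast (by omega : 0 < n)
    have h1 := hC n hn m hm hlo hhi
    have h3 : Real.sqrt (Real.log (3 + Real.log m)) ≤
        Real.sqrt C' * Real.sqrt (Ssq r (Jn d n)) := by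
      rw [← Real.sqrt_mul hC0'.le, h, ssq_half]
      exact Real.sqrt_le_sqrt (hC' n hn m hm hhi)
    unfold psi
    rw [if_neg (by linarith), if_pos h]
    unfold Th
    have h2 : (n : ℝ) ^ ((d : ℝ) / 2 - ((d : ℝ) - 1) * r) = Real.sqrt n := by
      rw [Real.sqrt_eq_rpow, h]
      congr 1
      ring
    rw [h2] at h1
    calc (m : ℝ) ^ (-r) * (Real.log m) ^ ((d : ℝ) / 2) * Real.sqrt (Real.log (3 + Real.log m))
        ≤ (C * ((2 : ℝ) ^ (-(r * (n : ℝ))) * Real.sqrt n)) *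
          (Real.sqrt C' * Real.sqrt (Ssq r (Jn d n))) :=
          mul_le_mul h1 h3 (Real.sqrt_nonneg _) (by positivity)
      _ = C * Real.sqrt C' * ((2 : ℝ) ^ (-(r * (n : ℝ))) * Real.sqrt n *
          Real.sqrt (Ssq r (Jn d n))) := by ring
  · -- large smoothness
    obtain ⟨C, hC0, hC⟩ := base d r κ c (((d : ℝ) - 1) * r + 1 / 2) hd hr hκ hc
      (by nlinarith)
    refine ⟨C, hC0, ?_⟩
    intro n hn m hm hlo hhi
    have hn0 : (0 : ℝ) < n := by exact_mod_cast (by omega : 0 < n)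
    have h1 := hC n hn m hm hlo hhi
    unfold psi
    rw [if_pos h]
    refine h1.trans ?_
    unfold Th
    have h2 : (n : ℝ) ^ (((d : ℝ) - 1) * r + 1 / 2 - ((d : ℝ) - 1) * r) = Real.sqrt n := by
      rw [Real.sqrt_eq_rpow]
      congr 1
      ring
    rw [h2]
    have h3 : (1 : ℝ) ≤ Real.sqrt (Ssq r (Jn d n)) := by
      rw [Real.one_le_sqrt]
      exact ssq_ge_one r _
    have h4 : (2 : ℝ) ^ (-(r * (n : ℝ))) * Real.sqrt n ≤
        (2 : ℝ) ^ (-(r * (n : ℝ))) * Real.sqrt n * Real.sqrt (Ssq r (Jn d n)) :=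
      le_mul_of_one_le_right (by positivity) h3
    exact mul_le_mul_of_nonneg_left h4 hC0.le

end ORDL_

theorem ordl_proof : Stmt_OrdL := by
  intro d r c n₀ D hd hr hc hD hlow
  -- the threshold
  set N₁ : ℕ := max n₀ 2 with hN₁
  set κ : ℝ := min (c / 2 ^ d) (2 / ((2 : ℝ) ^ N₁ * (N₁ : ℝ) ^ (d - 1))) with hκdef
  have hN2 : 2 ≤ N₁ := le_max_right _ _
  have hN0 : (0 : ℝ) < N₁ := by exact_mod_cast (by omega : 0 < N₁)
  have hκ : 0 < κ := by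
    rw [hκdef]
    exact lt_min (by positivity) (by positivity)
  obtain ⟨C, hC0, hC⟩ := ORDL_.key d r κ c hd hr hκ hc
  refine ⟨c / C, by positivity, ?_⟩
  intro m hm
  have hm0 : (0 : ℝ) < m := by exact_mod_cast (by omega : 0 < m)
  -- an index exists
  have hex : ∃ n : ℕ, N₁ ≤ n ∧ (m : ℝ) ≤ c * ((2 : ℝ) ^ n * (n : ℝ) ^ (d - 1)) := by
    obtain ⟨k, hk⟩ := pow_unbounded_of_one_lt ((m : ℝ) / c) (by norm_num : (1 : ℝ) < 2)
    refine ⟨max k N₁, le_max_right _ _, ?_⟩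
    have h1 : (1 : ℝ) ≤ ((max k N₁ : ℕ) : ℝ) := by
      exact_mod_cast (by omega : 1 ≤ max k N₁)
    have h2 : (1 : ℝ) ≤ ((max k N₁ : ℕ) : ℝ) ^ (d - 1) := one_le_pow₀ h1
    have h3 : (2 : ℝ) ^ k ≤ (2 : ℝ) ^ (max k N₁) :=
      pow_le_pow_right₀ (by norm_num) (le_max_left _ _)
    have h4 : (m : ℝ) < (2 : ℝ) ^ k * c := by
      rwa [div_lt_iff₀ hc] at hk
    have h5 : (2 : ℝ) ^ k ≤ (2 : ℝ) ^ (max k N₁) * ((max k N₁ : ℕ) : ℝ) ^ (d - 1) :=
      h3.trans (le_mul_of_one_le_right (by positivity) h2)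
    nlinarith
  classical
  set n := Nat.find hex with hn
  have hn1 : N₁ ≤ n := (Nat.find_spec hex).1
  have hn2 : (m : ℝ) ≤ c * ((2 : ℝ) ^ n * (n : ℝ) ^ (d - 1)) := (Nat.find_spec hex).2
  have hlo : κ * ((2 : ℝ) ^ n * (n : ℝ) ^ (d - 1)) ≤ m := by
    rcases Nat.lt_or_ge N₁ n with h | h
    · -- the previous index does not work
      have hprev := Nat.find_min hex (m := n - 1) (by omega)
      have h1 : c * ((2 : ℝ) ^ (n - 1) * ((n - 1 : ℕ) : ℝ) ^ (d - 1)) < m := by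
        by_contra hcon
        exact hprev ⟨by omega, not_lt.mp hcon⟩
      have h2 : (n : ℝ) ≤ 2 * ((n - 1 : ℕ) : ℝ) := by
        exact_mod_cast (by omega : n ≤ 2 * (n - 1))
      have h3 : (n : ℝ) ^ (d - 1) ≤ 2 ^ (d - 1) * ((n - 1 : ℕ) : ℝ) ^ (d - 1) := by
        rw [← mul_pow]
        exact pow_le_pow_left₀ (Nat.cast_nonneg _) h2 _
      have h4 : (2 : ℝ) ^ n = 2 * 2 ^ (n - 1) := by
        rw [← pow_succ']
        congr 1
        omega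
      have h5 : (2 : ℝ) ^ d = 2 * 2 ^ (d - 1) := by
        rw [← pow_succ']
        congr 1
        omega
      have h6 : κ ≤ c / 2 ^ d := min_le_left _ _
      calc κ * ((2 : ℝ) ^ n * (n : ℝ) ^ (d - 1))
          ≤ c / 2 ^ d * (2 * 2 ^ (n - 1) * (2 ^ (d - 1) * ((n - 1 : ℕ) : ℝ) ^ (d - 1))) := by
            rw [h4]
            gcongr
        _ = c * ((2 : ℝ) ^ (n - 1) * ((n - 1 : ℕ) : ℝ) ^ (d - 1)) := by
            rw [h5]
            field_simp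
        _ ≤ m := h1.le
    · have h7 : n = N₁ := le_antisymm h hn1
      have h8 : κ ≤ 2 / ((2 : ℝ) ^ N₁ * (N₁ : ℝ) ^ (d - 1)) := min_le_right _ _
      rw [h7]
      calc κ * ((2 : ℝ) ^ N₁ * (N₁ : ℝ) ^ (d - 1))
          ≤ 2 / ((2 : ℝ) ^ N₁ * (N₁ : ℝ) ^ (d - 1)) * ((2 : ℝ) ^ N₁ * (N₁ : ℝ) ^ (d - 1)) := by
            gcongr
        _ = 2 := by field_simp
        _ ≤ m := by exact_mod_cast hm
  have hfin := hC n (hN2.trans hn1) m hm hlo hn2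
  have hlow' := hlow n ((le_max_left _ _).trans hn1) m hn2
  refine le_trans (ENNReal.ofReal_le_ofReal ?_) hlow'
  calc c / C * psi d r m ≤ c / C * (C * Th d r n) := by gcongr
    _ = c * Th d r n := by field_simp

end Pool.Agent.KW
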