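import Pool.Agent.KW.Stmts

set_option autoImplicit false

/-!
# ORDU: from the index `n` to the number `m`, upper bound
-/

open MeasureTheory
open scoped BigOperators ENNReal

namespace Pool.Agent.KW

noncomputable section

namespace ORDU_

theorem exists_n (C : ℝ) (hC : 0 < C) (e : ℕ) : ∃ m₀ : ℕ, ∀ m : ℕ, m₀ ≤ m → ∃ n : ℕ, 2 ≤ n ∧
    C * ((2 : ℝ) ^ n * (n : ℝ) ^ e) ≤ m ∧ (m : ℝ) ≤ C * ((2 : ℝ) ^ (n + 1) * ((n : ℝ) + 1) ^ e) := by
  refine ⟨⌈C * ((2 : ℝ) ^ 2 * (2 : ℝ) ^ e)⌉₊, fun m hm => ?_⟩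
  have h2 : C * ((2 : ℝ) ^ 2 * (2 : ℝ) ^ e) ≤ m := le_trans (Nat.le_ceil _) (by exact_mod_cast hm)
  have hex : ∃ k : ℕ, (m : ℝ) < C * ((2 : ℝ) ^ (k + 3) * ((k : ℝ) + 3) ^ e) := by
    obtain ⟨k, hk⟩ := pow_unbounded_of_one_lt ((m : ℝ) / C) (by norm_num : (1 : ℝ) < 2)
    refine ⟨k, ?_⟩
    have h3 : (m : ℝ) < C * 2 ^ k := by
      rw [div_lt_iff₀ hC] at hk
      linarith
    have h4 : (1 : ℝ) ≤ ((k : ℝ) + 3) ^ e := by
      apply one_le_pow₀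
      have : (0 : ℝ) ≤ (k : ℝ) := Nat.cast_nonneg k
      linarith
    have h5 : (2 : ℝ) ^ k ≤ (2 : ℝ) ^ (k + 3) := pow_le_pow_right₀ (by norm_num) (by omega)
    calc (m : ℝ) < C * 2 ^ k := h3
      _ ≤ C * ((2 : ℝ) ^ (k + 3) * ((k : ℝ) + 3) ^ e) := by
        apply mul_le_mul_of_nonneg_left _ hC.le
        calc (2 : ℝ) ^ k = 2 ^ k * 1 := by ring
          _ ≤ _ := mul_le_mul h5 h4 (by norm_num) (by positivity)
  classical
  obtain ⟨k, hk1, hk2⟩ : ∃ k : ℕ, (m : ℝ) < C * ((2 : ℝ) ^ (k + 3) * ((k : ℝ) + 3) ^ e) ∧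
      ∀ j < k, ¬ ((m : ℝ) < C * ((2 : ℝ) ^ (j + 3) * ((j : ℝ) + 3) ^ e)) :=
    ⟨Nat.find hex, Nat.find_spec hex, fun j hj => Nat.find_min hex hj⟩
  refine ⟨k + 2, by omega, ?_, ?_⟩
  · rcases Nat.eq_zero_or_pos k with h0 | h0
    · subst h0
      simpa using h2
    · have h6 := hk2 (k - 1) (by omega)
      rw [not_lt] at h6
      have e1 : k - 1 + 3 = k + 2 := by omega
      have e2 : ((k - 1 : ℕ) : ℝ) + 3 = ((k + 2 : ℕ) : ℝ) := by
        rw [Nat.cast_sub h0]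
        push_cast
        ring
      rw [e1, e2] at h6
      exact h6
  · have e3 : (((k + 2 : ℕ) : ℝ) + 1) = (k : ℝ) + 3 := by
      push_cast
      ring
    rw [e3]
    exact hk1.le

theorem pow_pow {r : ℝ} (j : ℕ) : (2 : ℝ) ^ ((1 - 2 * r) * (j : ℝ)) = ((2 : ℝ) ^ (1 - 2 * r)) ^ j := by
  rw [Real.rpow_mul (by norm_num), Real.rpow_natCast]

theorem ssq_gt {r : ℝ} (hr : 1 / 2 < r) (J : ℕ) : Ssq r J ≤ (1 - (2 : ℝ) ^ (1 - 2 * r))⁻¹ := by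
  unfold Ssq
  simp_rw [pow_pow]
  have h0 : 0 ≤ (2 : ℝ) ^ (1 - 2 * r) := by positivity
  have h2 : (2 : ℝ) ^ (1 - 2 * r) < 1 :=
    Real.rpow_lt_one_of_one_lt_of_neg (by norm_num) (by linarith)
  rw [← tsum_geometric_of_lt_one h0 h2]
  exact (summable_geometric_of_lt_one h0 h2).sum_le_tsum _ (fun i _ => by positivity)

theorem ssq_lt {r : ℝ} (hr : r < 1 / 2) (J : ℕ) : Ssq r J ≤
    (2 : ℝ) ^ (1 - 2 * r) / ((2 : ℝ) ^ (1 - 2 * r) - 1) * (2 : ℝ) ^ ((1 - 2 * r) * (J : ℝ)) := by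
  unfold Ssq
  simp_rw [pow_pow]
  have h2 : 1 < (2 : ℝ) ^ (1 - 2 * r) :=
    Real.one_lt_rpow (by norm_num) (by linarith)
  generalize (2 : ℝ) ^ (1 - 2 * r) = x at h2
  rw [geom_sum_eq h2.ne']
  have h3 : 0 < x - 1 := by linarith
  rw [div_mul_eq_mul_div]
  apply div_le_div_of_nonneg_right _ h3.le
  rw [pow_succ]
  linarith

theorem ssq_eq (J : ℕ) : Ssq (1 / 2) J = (J : ℝ) + 1 := by
  unfold Ssq
  norm_num

theorem n_le_log (C : ℝ) (hC : 0 < C) (e n m : ℕ) (hm : 2 ≤ m) (hn : 1 ≤ n)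
    (h : C * ((2 : ℝ) ^ n * (n : ℝ) ^ e) ≤ m) :
    (n : ℝ) ≤ (1 + |Real.log C| / Real.log 2) / Real.log 2 * Real.log m := by
  have hn' : (1 : ℝ) ≤ (n : ℝ) := by exact_mod_cast hn
  have hm' : (2 : ℝ) ≤ (m : ℝ) := by exact_mod_cast hm
  have h1 : C * (2 : ℝ) ^ n ≤ m := by
    refine le_trans ?_ h
    apply mul_le_mul_of_nonneg_left _ hC.le
    calc (2 : ℝ) ^ n = 2 ^ n * 1 := by ring
      _ ≤ _ := mul_le_mul_of_nonneg_left (one_le_pow₀ hn') (by positivity)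
  have h2 : Real.log C + n * Real.log 2 ≤ Real.log m := by
    have := Real.log_le_log (by positivity) h1
    rwa [Real.log_mul hC.ne' (by positivity), Real.log_pow] at this
  have hl2 : 0 < Real.log 2 := Real.log_pos (by norm_num)
  have hlm : Real.log 2 ≤ Real.log m := Real.log_le_log (by norm_num) hm'
  have h3 : n * Real.log 2 ≤ (1 + |Real.log C| / Real.log 2) * Real.log m := by
    have h4 : |Real.log C| ≤ |Real.log C| / Real.log 2 * Real.log m := by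
      rw [div_mul_eq_mul_div, le_div_iff₀ hl2]
      exact mul_le_mul_of_nonneg_left hlm (abs_nonneg _)
    have h5 := neg_abs_le (Real.log C)
    linarith
  rw [div_mul_eq_mul_div, le_div_iff₀ hl2]
  exact h3

theorem two_pow_le (C r : ℝ) (hC : 0 < C) (hr : 0 < r) (e n m : ℕ) (hm : 1 ≤ m) (hn : 1 ≤ n)
    (h : (m : ℝ) ≤ C * ((2 : ℝ) ^ (n + 1) * ((n : ℝ) + 1) ^ e)) :
    (2 : ℝ) ^ (-(r * (n : ℝ))) ≤ (C * 2 * 2 ^ e) ^ r * ((m : ℝ) ^ (-r) * (n : ℝ) ^ ((e : ℝ) * r)) := by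
  have hn' : (1 : ℝ) ≤ (n : ℝ) := by exact_mod_cast hn
  have hm' : (0 : ℝ) < (m : ℝ) := by exact_mod_cast hm
  have h1 : (m : ℝ) ≤ (C * 2 * 2 ^ e) * ((2 : ℝ) ^ n * (n : ℝ) ^ e) := by
    refine le_trans h ?_
    have h2 : ((n : ℝ) + 1) ^ e ≤ (2 * (n : ℝ)) ^ e := pow_le_pow_left₀ (by positivity) (by linarith) e
    rw [mul_pow] at h2
    calc C * ((2 : ℝ) ^ (n + 1) * ((n : ℝ) + 1) ^ e) ≤ C * ((2 : ℝ) ^ (n + 1) * (2 ^ e * (n : ℝ) ^ e)) :=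
          mul_le_mul_of_nonneg_left (mul_le_mul_of_nonneg_left h2 (by positivity)) hC.le
      _ = _ := by ring
  have h2 : (m : ℝ) ^ r ≤ (C * 2 * 2 ^ e) ^ r * ((2 : ℝ) ^ (r * (n : ℝ)) * (n : ℝ) ^ ((e : ℝ) * r)) := by
    have h3 := Real.rpow_le_rpow hm'.le h1 hr.le
    rw [Real.mul_rpow (x := C * 2 * 2 ^ e) (by positivity) (by positivity),
      Real.mul_rpow (x := (2 : ℝ) ^ n) (by positivity) (by positivity)] at h3
    have e1 : ((2 : ℝ) ^ n) ^ r = (2 : ℝ) ^ (r * (n : ℝ)) := by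
      rw [← Real.rpow_natCast, ← Real.rpow_mul (by norm_num), mul_comm]
    have e2 : ((n : ℝ) ^ e) ^ r = (n : ℝ) ^ ((e : ℝ) * r) := by
      rw [← Real.rpow_natCast, ← Real.rpow_mul (by positivity)]
    rwa [e1, e2] at h3
  have h4 : 0 < (2 : ℝ) ^ (r * (n : ℝ)) := by positivity
  have h5 : 0 < (m : ℝ) ^ r := by positivity
  rw [Real.rpow_neg (by norm_num), Real.rpow_neg hm'.le]
  rw [inv_le_iff_one_le_mul₀ h4]
  calc (1 : ℝ) = (m : ℝ) ^ r * ((m : ℝ) ^ r)⁻¹ := (mul_inv_cancel₀ h5.ne').symm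
    _ ≤ (C * 2 * 2 ^ e) ^ r * ((2 : ℝ) ^ (r * (n : ℝ)) * (n : ℝ) ^ ((e : ℝ) * r)) *
        ((m : ℝ) ^ r)⁻¹ := mul_le_mul_of_nonneg_right h2 (inv_pos.2 h5).le
    _ = _ := by ring

theorem pow_le (s c x n : ℝ) (hs : 0 ≤ s) (hn : 0 ≤ n) (hc : 0 ≤ c) (hx : 0 ≤ x)
    (h : n ≤ c * x) : n ^ s ≤ c ^ s * x ^ s := by
  rw [← Real.mul_rpow hc hx]
  exact Real.rpow_le_rpow hn h hs

/-- The common part of the three cases. -/
theorem Th_le (d : ℕ) (r C : ℝ) (hd : 2 ≤ d) (hC : 0 < C) (hr : 0 < r) :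
    ∃ c K : ℝ, 0 < c ∧ 0 < K ∧ ∀ m n : ℕ, 2 ≤ m → 2 ≤ n →
      C * ((2 : ℝ) ^ n * (n : ℝ) ^ (d - 1)) ≤ m →
      (m : ℝ) ≤ C * ((2 : ℝ) ^ (n + 1) * ((n : ℝ) + 1) ^ (d - 1)) →
      (n : ℝ) ≤ c * Real.log m ∧
      Th d r n ≤ K * ((m : ℝ) ^ (-r) * (n : ℝ) ^ (((d : ℝ) - 1) * r + 1 / 2)) *
        Real.sqrt (Ssq r (Jn d n)) := by
  have hl2 : 0 < Real.log 2 := Real.log_pos (by norm_num)
  refine ⟨(1 + |Real.log C| / Real.log 2) / Real.log 2, (C * 2 * 2 ^ (d - 1)) ^ r, by positivity,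
    by positivity, ?_⟩
  intro m n hm hn h1 h2
  refine ⟨n_le_log C hC (d - 1) n m hm (by omega) h1, ?_⟩
  have h3 := two_pow_le C r hC hr (d - 1) n m (by omega) (by omega) h2
  have hn' : (0 : ℝ) < (n : ℝ) := by
    have : 0 < n := by omega
    exact_mod_cast this
  unfold Th
  apply mul_le_mul_of_nonneg_right _ (Real.sqrt_nonneg _)
  have e1 : ((d - 1 : ℕ) : ℝ) = (d : ℝ) - 1 := by
    rw [Nat.cast_sub (by omega)]
    simp
  rw [e1] at h3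
  have e2 : (n : ℝ) ^ (((d : ℝ) - 1) * r + 1 / 2) = (n : ℝ) ^ (((d : ℝ) - 1) * r) * Real.sqrt n := by
    rw [Real.rpow_add hn', ← Real.sqrt_eq_rpow]
  rw [e2]
  calc (2 : ℝ) ^ (-(r * (n : ℝ))) * Real.sqrt n ≤ ((C * 2 * 2 ^ (d - 1)) ^ r *
        ((m : ℝ) ^ (-r) * (n : ℝ) ^ (((d : ℝ) - 1) * r))) * Real.sqrt n :=
        mul_le_mul_of_nonneg_right h3 (Real.sqrt_nonneg _)
    _ = _ := by ring

theorem sqrt_ssq_lt (d n : ℕ) (r : ℝ) (hd : 2 ≤ d) (hn : 1 ≤ n) (hr : r < 1 / 2) :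
    Real.sqrt (Ssq r (Jn d n)) ≤
      Real.sqrt ((2 : ℝ) ^ (1 - 2 * r) / ((2 : ℝ) ^ (1 - 2 * r) - 1)) *
        (n : ℝ) ^ ((2 * (d : ℝ) - 3) * (1 / 2 - r)) := by
  have h2 : 1 < (2 : ℝ) ^ (1 - 2 * r) :=
    Real.one_lt_rpow (by norm_num) (by linarith)
  have h3 : 0 ≤ (2 : ℝ) ^ (1 - 2 * r) / ((2 : ℝ) ^ (1 - 2 * r) - 1) :=
    div_nonneg (by positivity) (by linarith)
  have h1 := ssq_lt hr (Jn d n)
  have hn0 : (0 : ℝ) ≤ (n : ℝ) := Nat.cast_nonneg n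
  have e1 : ((2 * d - 3 : ℕ) : ℝ) = 2 * (d : ℝ) - 3 := by
    rw [Nat.cast_sub (by omega)]
    push_cast
    ring
  have hd' : (0 : ℝ) ≤ 2 * (d : ℝ) - 3 := by
    rw [← e1]
    exact Nat.cast_nonneg _
  have h4 : (2 : ℝ) ^ ((1 - 2 * r) * (Jn d n : ℝ)) ≤ ((n : ℝ) ^ ((2 * (d : ℝ) - 3) * (1 / 2 - r))) ^ 2 := by
    have h5 : ((2 : ℝ) ^ (Nat.log 2 n)) ≤ (n : ℝ) := by
      exact_mod_cast Nat.pow_log_le_self 2 (by omega)
    have h6 := Real.rpow_le_rpow (by positivity) h5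
      (show 0 ≤ (1 - 2 * r) * (2 * (d : ℝ) - 3) from mul_nonneg (by linarith) hd')
    have e2 : ((2 : ℝ) ^ (Nat.log 2 n)) ^ ((1 - 2 * r) * (2 * (d : ℝ) - 3)) =
        (2 : ℝ) ^ ((1 - 2 * r) * (Jn d n : ℝ)) := by
      rw [← Real.rpow_natCast, ← Real.rpow_mul (by norm_num)]
      congr 1
      unfold Jn
      push_cast
      rw [e1]
      ring
    have e3 : (n : ℝ) ^ ((1 - 2 * r) * (2 * (d : ℝ) - 3)) =
        ((n : ℝ) ^ ((2 * (d : ℝ) - 3) * (1 / 2 - r))) ^ 2 := by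
      rw [← Real.rpow_natCast, ← Real.rpow_mul hn0]
      congr 1
      push_cast
      ring
    rw [e2, e3] at h6
    exact h6
  calc Real.sqrt (Ssq r (Jn d n)) ≤ Real.sqrt ((2 : ℝ) ^ (1 - 2 * r) / ((2 : ℝ) ^ (1 - 2 * r) - 1) *
        ((n : ℝ) ^ ((2 * (d : ℝ) - 3) * (1 / 2 - r))) ^ 2) :=
        Real.sqrt_le_sqrt (h1.trans (mul_le_mul_of_nonneg_left h4 h3))
    _ = _ := by
      rw [Real.sqrt_mul h3, Real.sqrt_sq (by positivity)]

theorem sqrt_ssq_eq (d n : ℕ) (c x : ℝ) (hc : 0 < c) (hx : 0 < x) (hn : 1 ≤ n)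
    (h : (n : ℝ) ≤ c * x) :
    Real.sqrt (Ssq (1 / 2) (Jn d n)) ≤
      Real.sqrt (((2 * d - 3 : ℕ) : ℝ) * (Real.log (1 + c) + 1) / Real.log 2 + 1) *
        Real.sqrt (Real.log (3 + x)) := by
  have hl2 : 0 < Real.log 2 := Real.log_pos (by norm_num)
  have hc1 : 0 ≤ Real.log (1 + c) := Real.log_nonneg (by linarith)
  rw [ssq_eq, ← Real.sqrt_mul (by positivity)]
  apply Real.sqrt_le_sqrt
  have hl3 : 1 ≤ Real.log (3 + x) := by
    rw [Real.le_log_iff_exp_le (by linarith)]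
    have := Real.exp_one_lt_d9
    linarith
  have hn0 : (0 : ℝ) < (n : ℝ) := by exact_mod_cast hn
  have h1 : Real.log n ≤ (Real.log (1 + c) + 1) * Real.log (3 + x) := by
    have h2 : (n : ℝ) ≤ (1 + c) * (3 + x) := by
      have h7 : 0 ≤ c * 3 + 1 * 3 + x := by positivity
      have h8 : (1 + c) * (3 + x) = c * x + (c * 3 + 1 * 3 + x) := by ring
      linarith
    have h3 := Real.log_le_log hn0 h2
    rw [Real.log_mul (by positivity) (by positivity)] at h3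
    have h4 : 0 ≤ Real.log (1 + c) := Real.log_nonneg (by linarith)
    have h5 : Real.log (1 + c) * 1 ≤ Real.log (1 + c) * Real.log (3 + x) :=
      mul_le_mul_of_nonneg_left hl3 h4
    linarith
  have h2 : (Nat.log 2 n : ℝ) ≤ Real.log n / Real.log 2 := by
    rw [le_div_iff₀ hl2, ← Real.log_pow]
    apply Real.log_le_log (by positivity)
    exact_mod_cast Nat.pow_log_le_self 2 (by omega)
  have h3 : (Jn d n : ℝ) ≤ ((2 * d - 3 : ℕ) : ℝ) * ((Real.log (1 + c) + 1) * Real.log (3 + x) /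
      Real.log 2) := by
    unfold Jn
    rw [Nat.cast_mul]
    apply mul_le_mul_of_nonneg_left _ (Nat.cast_nonneg _)
    exact h2.trans (div_le_div_of_nonneg_right h1 hl2.le)
  calc (Jn d n : ℝ) + 1 ≤ ((2 * d - 3 : ℕ) : ℝ) * ((Real.log (1 + c) + 1) * Real.log (3 + x) /
      Real.log 2) + 1 * Real.log (3 + x) := by linarith
    _ = _ := by ring

/-- `Th` is bounded by `psi`. -/
theorem Th_psi (d : ℕ) (r C : ℝ) (hd : 2 ≤ d) (hC : 0 < C) (hr : 0 < r) :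
    ∃ K : ℝ, 0 < K ∧ ∀ m n : ℕ, 2 ≤ m → 2 ≤ n →
      C * ((2 : ℝ) ^ n * (n : ℝ) ^ (d - 1)) ≤ m →
      (m : ℝ) ≤ C * ((2 : ℝ) ^ (n + 1) * ((n : ℝ) + 1) ^ (d - 1)) →
      Th d r n ≤ K * psi d r m := by
  obtain ⟨c, K, hc, hK, h⟩ := Th_le d r C hd hC hr
  have hd' : (0 : ℝ) ≤ (d : ℝ) - 1 := by
    have : (2 : ℝ) ≤ (d : ℝ) := by exact_mod_cast hd
    linarith
  have hlog : ∀ m : ℕ, 2 ≤ m → 0 < Real.log m := by
    intro m hm
    apply Real.log_pos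
    have : (2 : ℝ) ≤ (m : ℝ) := by exact_mod_cast hm
    linarith
  rcases lt_trichotomy r (1 / 2) with hr2 | hr2 | hr2
  · -- r < 1/2
    have h2 : 1 < (2 : ℝ) ^ (1 - 2 * r) :=
      Real.one_lt_rpow (by norm_num) (by linarith)
    have hS : 0 < (2 : ℝ) ^ (1 - 2 * r) / ((2 : ℝ) ^ (1 - 2 * r) - 1) :=
      div_pos (by positivity) (by linarith)
    refine ⟨K * Real.sqrt ((2 : ℝ) ^ (1 - 2 * r) / ((2 : ℝ) ^ (1 - 2 * r) - 1)) *
      c ^ (((d : ℝ) - 1) * (1 - r) + r), by positivity, ?_⟩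
    intro m n hm hn h3 h4
    obtain ⟨h5, h6⟩ := h m n hm hn h3 h4
    have hx := hlog m hm
    have hn' : (0 : ℝ) < (n : ℝ) := by
      have : 0 < n := by omega
      exact_mod_cast this
    have h7 := sqrt_ssq_lt d n r hd (by omega) hr2
    have hs : 0 ≤ ((d : ℝ) - 1) * (1 - r) + r := by
      have := mul_nonneg hd' (show 0 ≤ 1 - r by linarith)
      linarith
    have h8 := pow_le (((d : ℝ) - 1) * (1 - r) + r) c (Real.log m) n hs hn'.le hc.le hx.le h5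
    have e1 : (n : ℝ) ^ (((d : ℝ) - 1) * r + 1 / 2) * (n : ℝ) ^ ((2 * (d : ℝ) - 3) * (1 / 2 - r)) =
        (n : ℝ) ^ (((d : ℝ) - 1) * (1 - r) + r) := by
      rw [← Real.rpow_add hn']
      congr 1
      ring
    have e2 : psi d r m = (m : ℝ) ^ (-r) * (Real.log m) ^ (((d : ℝ) - 1) * (1 - r) + r) := by
      unfold psi
      rw [if_neg (by linarith), if_neg (by linarith)]
    rw [e2]
    calc Th d r n ≤ K * ((m : ℝ) ^ (-r) * (n : ℝ) ^ (((d : ℝ) - 1) * r + 1 / 2)) *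
          Real.sqrt (Ssq r (Jn d n)) := h6
      _ ≤ K * ((m : ℝ) ^ (-r) * (n : ℝ) ^ (((d : ℝ) - 1) * r + 1 / 2)) *
          (Real.sqrt ((2 : ℝ) ^ (1 - 2 * r) / ((2 : ℝ) ^ (1 - 2 * r) - 1)) *
        (n : ℝ) ^ ((2 * (d : ℝ) - 3) * (1 / 2 - r))) :=
          mul_le_mul_of_nonneg_left h7 (by positivity)
      _ = K * Real.sqrt ((2 : ℝ) ^ (1 - 2 * r) / ((2 : ℝ) ^ (1 - 2 * r) - 1)) * (m : ℝ) ^ (-r) *
          ((n : ℝ) ^ (((d : ℝ) - 1) * r + 1 / 2) *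
            (n : ℝ) ^ ((2 * (d : ℝ) - 3) * (1 / 2 - r))) := by ring
      _ ≤ K * Real.sqrt ((2 : ℝ) ^ (1 - 2 * r) / ((2 : ℝ) ^ (1 - 2 * r) - 1)) * (m : ℝ) ^ (-r) *
          (c ^ (((d : ℝ) - 1) * (1 - r) + r) * (Real.log m) ^ (((d : ℝ) - 1) * (1 - r) + r)) := by
          rw [e1]
          exact mul_le_mul_of_nonneg_left h8 (by positivity)
      _ = _ := by ring
  · -- r = 1/2
    have hl2 : 0 < Real.log 2 := Real.log_pos (by norm_num)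
    have hc1 : 0 ≤ Real.log (1 + c) := Real.log_nonneg (by linarith)
    refine ⟨K * Real.sqrt (((2 * d - 3 : ℕ) : ℝ) * (Real.log (1 + c) + 1) / Real.log 2 + 1) *
      c ^ ((d : ℝ) / 2), by positivity, ?_⟩
    intro m n hm hn h3 h4
    obtain ⟨h5, h6⟩ := h m n hm hn h3 h4
    have hx := hlog m hm
    have hn' : (0 : ℝ) < (n : ℝ) := by
      have : 0 < n := by omega
      exact_mod_cast this
    have h7 := sqrt_ssq_eq d n c (Real.log m) hc hx (by omega) h5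
    have h8 := pow_le ((d : ℝ) / 2) c (Real.log m) n (by positivity) hn'.le hc.le hx.le h5
    have e1 : ((d : ℝ) - 1) * r + 1 / 2 = (d : ℝ) / 2 := by
      rw [hr2]
      ring
    have e2 : psi d r m = (m : ℝ) ^ (-r) * (Real.log m) ^ ((d : ℝ) / 2) *
        Real.sqrt (Real.log (3 + Real.log m)) := by
      unfold psi
      rw [if_neg (by linarith), if_pos hr2]
    rw [e2]
    rw [← hr2] at h7
    rw [e1] at h6
    calc Th d r n ≤ K * ((m : ℝ) ^ (-r) * (n : ℝ) ^ ((d : ℝ) / 2)) *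
          Real.sqrt (Ssq r (Jn d n)) := h6
      _ ≤ K * ((m : ℝ) ^ (-r) * (n : ℝ) ^ ((d : ℝ) / 2)) *
          (Real.sqrt (((2 * d - 3 : ℕ) : ℝ) * (Real.log (1 + c) + 1) / Real.log 2 + 1) *
        Real.sqrt (Real.log (3 + Real.log m))) :=
          mul_le_mul_of_nonneg_left h7 (by positivity)
      _ = K * Real.sqrt (((2 * d - 3 : ℕ) : ℝ) * (Real.log (1 + c) + 1) / Real.log 2 + 1) *
          (m : ℝ) ^ (-r) * Real.sqrt (Real.log (3 + Real.log m)) * (n : ℝ) ^ ((d : ℝ) / 2) := by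
          ring
      _ ≤ K * Real.sqrt (((2 * d - 3 : ℕ) : ℝ) * (Real.log (1 + c) + 1) / Real.log 2 + 1) *
          (m : ℝ) ^ (-r) * Real.sqrt (Real.log (3 + Real.log m)) *
          (c ^ ((d : ℝ) / 2) * (Real.log m) ^ ((d : ℝ) / 2)) :=
          mul_le_mul_of_nonneg_left h8 (by positivity)
      _ = _ := by ring
  · -- r > 1/2
    have h2 : (2 : ℝ) ^ (1 - 2 * r) < 1 :=
      Real.rpow_lt_one_of_one_lt_of_neg (by norm_num) (by linarith)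
    have hS : 0 < (1 - (2 : ℝ) ^ (1 - 2 * r))⁻¹ := inv_pos.2 (by linarith)
    refine ⟨K * Real.sqrt ((1 - (2 : ℝ) ^ (1 - 2 * r))⁻¹) *
      c ^ (((d : ℝ) - 1) * r + 1 / 2), by positivity, ?_⟩
    intro m n hm hn h3 h4
    obtain ⟨h5, h6⟩ := h m n hm hn h3 h4
    have hx := hlog m hm
    have hn' : (0 : ℝ) < (n : ℝ) := by
      have : 0 < n := by omega
      exact_mod_cast this
    have h7 := Real.sqrt_le_sqrt (ssq_gt hr2 (Jn d n))
    have hs : 0 ≤ ((d : ℝ) - 1) * r + 1 / 2 := by positivity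
    have h8 := pow_le (((d : ℝ) - 1) * r + 1 / 2) c (Real.log m) n hs hn'.le hc.le hx.le h5
    have e2 : psi d r m = (m : ℝ) ^ (-r) * (Real.log m) ^ (((d : ℝ) - 1) * r + 1 / 2) := by
      unfold psi
      rw [if_pos hr2]
    rw [e2]
    calc Th d r n ≤ K * ((m : ℝ) ^ (-r) * (n : ℝ) ^ (((d : ℝ) - 1) * r + 1 / 2)) *
          Real.sqrt (Ssq r (Jn d n)) := h6
      _ ≤ K * ((m : ℝ) ^ (-r) * (n : ℝ) ^ (((d : ℝ) - 1) * r + 1 / 2)) *
          Real.sqrt ((1 - (2 : ℝ) ^ (1 - 2 * r))⁻¹) :=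
          mul_le_mul_of_nonneg_left h7 (by positivity)
      _ = K * Real.sqrt ((1 - (2 : ℝ) ^ (1 - 2 * r))⁻¹) * (m : ℝ) ^ (-r) *
          (n : ℝ) ^ (((d : ℝ) - 1) * r + 1 / 2) := by ring
      _ ≤ K * Real.sqrt ((1 - (2 : ℝ) ^ (1 - 2 * r))⁻¹) * (m : ℝ) ^ (-r) *
          (c ^ (((d : ℝ) - 1) * r + 1 / 2) * (Real.log m) ^ (((d : ℝ) - 1) * r + 1 / 2)) :=
          mul_le_mul_of_nonneg_left h8 (by positivity)
      _ = _ := by ring

theorem psi_pos (d : ℕ) (r : ℝ) (m : ℕ) (hm : 2 ≤ m) : 0 < psi d r m := by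
  have hm' : (2 : ℝ) ≤ (m : ℝ) := by exact_mod_cast hm
  have h1 : 0 < Real.log m := Real.log_pos (by linarith)
  have h2 : 0 < Real.log (3 + Real.log m) := Real.log_pos (by linarith)
  unfold psi
  split_ifs <;> positivity

end ORDU_

open ORDU_

theorem ordu_proof : Stmt_OrdU := by
  intro d r C D hd hr hC hD hD0 h
  obtain ⟨m₀, hm₀⟩ := exists_n C hC (d - 1)
  obtain ⟨K, hK, hKm⟩ := Th_psi d r C hd hC hr
  have hDt : ∀ m, D m ≠ ⊤ := fun m => ne_top_of_le_ne_top hD0 (hD (Nat.zero_le m))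
  have hpos : ∀ m, 0 ≤ (D m).toReal / |psi d r m| := fun m => by positivity
  refine ⟨C * K + ∑ m ∈ Finset.range (m₀ + 1), (D m).toReal / |psi d r m|, ?_, ?_⟩
  · have := Finset.sum_nonneg (fun m (_ : m ∈ Finset.range (m₀ + 1)) => hpos m)
    positivity
  · intro m hm
    have hψ := psi_pos d r m hm
    by_cases hmm : m₀ ≤ m
    · obtain ⟨n, hn, h1, h2⟩ := hm₀ m hmm
      refine (h n hn m h1).trans (ENNReal.ofReal_le_ofReal ?_)
      have h3 := hKm m n hm hn h1 h2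
      have h4 := Finset.sum_nonneg (fun m (_ : m ∈ Finset.range (m₀ + 1)) => hpos m)
      calc C * Th d r n ≤ C * (K * psi d r m) := mul_le_mul_of_nonneg_left h3 hC.le
        _ = (C * K) * psi d r m := by ring
        _ ≤ _ := mul_le_mul_of_nonneg_right (by linarith) hψ.le
    · rw [← ENNReal.ofReal_toReal (hDt m)]
      apply ENNReal.ofReal_le_ofReal
      have h5 : (D m).toReal / |psi d r m| ≤ ∑ m ∈ Finset.range (m₀ + 1),
          (D m).toReal / |psi d r m| :=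
        Finset.single_le_sum (f := fun m => (D m).toReal / |psi d r m|) (fun m _ => hpos m)
          (Finset.mem_range.2 (by omega))
      rw [abs_of_pos hψ] at h5
      have h6 : (D m).toReal = (D m).toReal / psi d r m * psi d r m := by
        field_simp
      rw [h6]
      apply mul_le_mul_of_nonneg_right _ hψ.le
      have : 0 < C * K := by positivity
      linarith

end

end Pool.Agent.KW
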