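import Pool.Agent.KW.Stmts

set_option autoImplicit false

/-!
# KW: module ORTH (orthogonality on the grid, and the value at zero)
-/

open MeasureTheory
open scoped BigOperators ENNReal ComplexConjugate

namespace Pool.Agent.KW.ORTH_

noncomputable section

/-! ## The value at zero -/

theorem sum_tent (n : ℕ) :
    ∑ k ∈ Finset.Ioo (-(n : ℤ)) n, ((n : ℝ) - |(k : ℝ)|) = (n : ℝ) ^ 2 := by
  induction n with
  | zero => simp
  | succ n ih =>
    have h1 : Finset.Ioo (-((n + 1 : ℕ) : ℤ)) ((n + 1 : ℕ) : ℤ) = Finset.Icc (-(n : ℤ)) n := by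
      ext k
      simp only [Finset.mem_Ioo, Finset.mem_Icc]
      push_cast
      omega
    have h2 : ∑ k ∈ Finset.Ioo (-(n : ℤ)) n, ((n : ℝ) - |(k : ℝ)|) =
        ∑ k ∈ Finset.Icc (-(n : ℤ)) n, ((n : ℝ) - |(k : ℝ)|) := by
      refine Finset.sum_subset Finset.Ioo_subset_Icc_self ?_
      intro k hk hk'
      simp only [Finset.mem_Ioo, Finset.mem_Icc, not_and, not_lt] at hk hk'
      have h3 : k = -n ∨ k = n := by
        by_cases h : -(n : ℤ) < k
        · right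
          have := hk' h
          omega
        · left
          omega
      rcases h3 with h3 | h3
      · subst h3
        push_cast
        rw [abs_neg, abs_of_nonneg (Nat.cast_nonneg n)]
        ring
      · subst h3
        push_cast
        rw [abs_of_nonneg (Nat.cast_nonneg n)]
        ring
    rw [h1]
    have h4 : ∑ k ∈ Finset.Icc (-(n : ℤ)) n, (((n + 1 : ℕ) : ℝ) - |(k : ℝ)|) =
        ∑ k ∈ Finset.Icc (-(n : ℤ)) n, (((n : ℝ) - |(k : ℝ)|) + 1) := by
      refine Finset.sum_congr rfl fun k _ => ?_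
      push_cast
      ring
    rw [h4, Finset.sum_add_distrib, ← h2, ih, Finset.sum_const, Int.card_Icc, nsmul_eq_mul]
    have h5 : ((n : ℤ) + 1 - -(n : ℤ)).toNat = 2 * n + 1 := by omega
    rw [h5]
    push_cast
    ring

theorem ker_zero (s : ℕ) : ker 0 0 s 0 = 1 := by
  unfold ker
  have h1 : (∑ k ∈ Finset.Ioo ((2 : ℤ) ^ (s + 1)) (2 ^ (s + 2)),
      ((kc 0 s k : ℝ) : ℂ) * Complex.exp ((0 : ℝ) * Complex.I) *
        fourier k (0 : UnitAddCircle)) =
      ((∑ k ∈ Finset.Ioo ((2 : ℤ) ^ (s + 1)) (2 ^ (s + 2)), kc 0 s k : ℝ) : ℂ) := by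
    push_cast
    refine Finset.sum_congr rfl fun k _ => ?_
    rw [fourier_eval_zero]
    simp
  rw [h1, Complex.ofReal_re]
  have hn : (0 : ℝ) < ((2 ^ s : ℕ) : ℝ) := by positivity
  have h2 : ∑ k ∈ Finset.Ioo ((2 : ℤ) ^ (s + 1)) (2 ^ (s + 2)), kc 0 s k =
      ∑ j ∈ Finset.Ioo (-((2 ^ s : ℕ) : ℤ)) ((2 ^ s : ℕ) : ℤ),
        ((((2 ^ s : ℕ) : ℝ) ^ 2)⁻¹ * ((((2 ^ s : ℕ) : ℝ)) - |(j : ℝ)|)) := by
    refine Finset.sum_nbij' (fun k => k - 3 * 2 ^ s) (fun j => j + 3 * 2 ^ s) ?_ ?_ ?_ ?_ ?_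
    · intro k hk
      simp only [Finset.mem_Ioo, pow_succ] at hk ⊢
      push_cast
      constructor <;> linarith [hk.1, hk.2]
    · intro k hk
      simp only [Finset.mem_Ioo, pow_succ] at hk ⊢
      push_cast at hk
      constructor <;> linarith [hk.1, hk.2]
    · intro k _
      ring
    · intro k _
      ring
    · intro k hk
      simp only [Finset.mem_Ioo, pow_succ] at hk
      have hk1 : (2 : ℝ) ^ s * 2 < (k : ℝ) := by exact_mod_cast hk.1
      have hk2 : (k : ℝ) < (2 : ℝ) ^ s * 2 * 2 := by exact_mod_cast hk.2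
      have hn' : (0 : ℝ) < (2 : ℝ) ^ s := by positivity
      unfold kc tent
      push_cast
      rw [Real.rpow_zero, mul_one]
      have h5 : (k : ℝ) / 2 ^ s - 3 = ((k : ℝ) - 3 * 2 ^ s) / 2 ^ s := by
        field_simp
      rw [h5, abs_div, abs_of_pos hn']
      have h6 : |(k : ℝ) - 3 * 2 ^ s| < 2 ^ s := by
        rw [abs_lt]
        constructor <;> linarith
      have h7 : |(k : ℝ) - 3 * 2 ^ s| / 2 ^ s ≤ 1 := by
        rw [div_le_one hn']
        exact h6.le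
      rw [max_eq_right (by linarith)]
      field_simp
  rw [h2, ← Finset.mul_sum, sum_tent]
  have h8 : (((2 ^ s : ℕ) : ℝ) ^ 2) ≠ 0 := by positivity
  exact inv_mul_cancel₀ h8

/-! ## Orthogonality -/

theorem fourier_gr_one (M : ℕ) [NeZero M] (k : ℤ) :
    (fourier k (gr M 1) : ℂ) = Complex.exp (2 * Real.pi * Complex.I * k / M) := by
  have h1 : gr M 1 = (((1 / M : ℝ) : ℝ) : UnitAddCircle) := by
    unfold gr
    have h2 : ZMod.toAddCircle ((1 : ℕ) : ZMod M) = (((1 : ℕ) / M : ℝ) : UnitAddCircle) :=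
      ZMod.toAddCircle_natCast 1
    rw [Nat.cast_one] at h2
    rw [h2]
    norm_num
  rw [h1, fourier_coe_apply]
  congr 1
  push_cast
  ring

theorem sum_fourier (M : ℕ) [NeZero M] (k : ℤ) (hk : ¬ (M : ℤ) ∣ k) :
    ∑ y : ZMod M, (fourier k (gr M y) : ℂ) = 0 := by
  have h1 : (fourier k (gr M 1) : ℂ) ≠ 1 := by
    rw [fourier_gr_one]
    intro h
    rw [Complex.exp_eq_one_iff] at h
    obtain ⟨n, hn⟩ := h
    apply hk
    refine ⟨n, ?_⟩
    have hM : (M : ℂ) ≠ 0 := by exact_mod_cast NeZero.ne M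
    have hpi : (2 * (Real.pi : ℂ) * Complex.I) ≠ 0 := Complex.two_pi_I_ne_zero
    have h3 : (2 * (Real.pi : ℂ) * Complex.I) * (k : ℂ) =
        (2 * (Real.pi : ℂ) * Complex.I) * ((M : ℂ) * (n : ℂ)) := by
      have h4 : 2 * (Real.pi : ℂ) * Complex.I * k =
          (2 * (Real.pi : ℂ) * Complex.I * k / M) * M := by
        field_simp
      rw [h4, hn]
      ring
    have h5 := mul_left_cancel₀ hpi h3
    exact_mod_cast h5
  have h2 : ∑ y : ZMod M, (fourier k (gr M y) : ℂ) =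
      (fourier k (gr M 1) : ℂ) * ∑ y : ZMod M, (fourier k (gr M y) : ℂ) := by
    rw [Finset.mul_sum]
    have h3 : ∀ y : ZMod M, (fourier k (gr M (y + 1)) : ℂ) =
        (fourier k (gr M 1) : ℂ) * (fourier k (gr M y) : ℂ) := by
      intro y
      unfold gr
      rw [map_add, fourier_apply, fourier_apply, fourier_apply, zsmul_add,
        AddCircle.toCircle_add, Circle.coe_mul, mul_comm]
    rw [← Finset.sum_congr rfl fun y _ => h3 y]
    exact (Equiv.sum_comp (Equiv.addRight (1 : ZMod M))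
      (fun y => (fourier k (gr M y) : ℂ))).symm
  have h3 : (1 - (fourier k (gr M 1) : ℂ)) * ∑ y : ZMod M, (fourier k (gr M y) : ℂ) = 0 := by
    rw [sub_mul, one_mul, ← h2, sub_self]
  rcases mul_eq_zero.mp h3 with h4 | h4
  · exact absurd (sub_eq_zero.mp h4).symm h1
  · exact h4

/-- Product of real parts. -/
theorem re_mul_re (z w : ℂ) : z.re * w.re = ((z * w + z * conj w) / 2).re := by
  simp only [Complex.add_re, Complex.mul_re, Complex.conj_re, Complex.conj_im,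
    Complex.div_ofNat_re]
  ring

theorem orth (M : ℕ) [NeZero M] (A B : Finset ℤ) (a b : ℤ → ℂ)
    (h1 : ∀ k ∈ A, ∀ l ∈ B, ¬ (M : ℤ) ∣ k + l) (h2 : ∀ k ∈ A, ∀ l ∈ B, ¬ (M : ℤ) ∣ k - l) :
    ∑ y : ZMod M, (∑ k ∈ A, a k * (fourier k (gr M y) : ℂ)).re *
      (∑ l ∈ B, b l * (fourier l (gr M y) : ℂ)).re = 0 := by
  have h3 : ∀ y : ZMod M, (∑ k ∈ A, a k * (fourier k (gr M y) : ℂ)).re *
      (∑ l ∈ B, b l * (fourier l (gr M y) : ℂ)).re =
      ((∑ k ∈ A, ∑ l ∈ B, (a k * b l / 2 * (fourier (k + l) (gr M y) : ℂ) +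
        a k * conj (b l) / 2 * (fourier (k - l) (gr M y) : ℂ)))).re := by
    intro y
    rw [re_mul_re]
    congr 1
    rw [map_sum, Finset.sum_mul_sum, Finset.sum_mul_sum, ← Finset.sum_add_distrib,
      Finset.sum_div]
    refine Finset.sum_congr rfl fun k _ => ?_
    rw [← Finset.sum_add_distrib, Finset.sum_div]
    refine Finset.sum_congr rfl fun l _ => ?_
    rw [sub_eq_add_neg, fourier_add, fourier_add, fourier_neg, map_mul]
    ring
  rw [Finset.sum_congr rfl fun y _ => h3 y, ← Complex.re_sum, Finset.sum_comm]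
  have h4 : ∑ k ∈ A, ∑ y : ZMod M, ∑ l ∈ B,
      (a k * b l / 2 * (fourier (k + l) (gr M y) : ℂ) +
        a k * conj (b l) / 2 * (fourier (k - l) (gr M y) : ℂ)) = 0 := by
    refine Finset.sum_eq_zero fun k hk => ?_
    rw [Finset.sum_comm]
    refine Finset.sum_eq_zero fun l hl => ?_
    rw [Finset.sum_add_distrib, ← Finset.mul_sum, ← Finset.mul_sum,
      sum_fourier M _ (h1 k hk l hl), sum_fourier M _ (h2 k hk l hl)]
    ring
  rw [h4, Complex.zero_re]

theorem not_dvd_of {M : ℕ} {k : ℤ} (h0 : k ≠ 0) (h1 : |k| < M) : ¬ (M : ℤ) ∣ k := by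
  intro h
  exact h0 (Int.eq_zero_of_abs_lt_dvd h h1)

end

end Pool.Agent.KW.ORTH_

namespace Pool.Agent.KW

open ORTH_ in
/-- ORTH. -/
theorem orth_proof : Stmt_Orth := by
  refine ⟨ker_zero, ?_⟩
  intro ρ θ s s' M _ hs hM hM'
  unfold ker
  have key : ∀ k ∈ Finset.Ioo ((2 : ℤ) ^ (s + 1)) (2 ^ (s + 2)),
      ∀ l ∈ Finset.Ioo ((2 : ℤ) ^ (s' + 1)) (2 ^ (s' + 2)),
      0 < k ∧ 0 < l ∧ k + l < M ∧ k ≠ l := by
    intro k hk l hl
    rw [Finset.mem_Ioo] at hk hl
    have hMz : (2 : ℤ) ^ (s + 3) ≤ M := by exact_mod_cast hM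
    have hMz' : (2 : ℤ) ^ (s' + 3) ≤ M := by exact_mod_cast hM'
    have e1 : (2 : ℤ) ^ (s + 3) = 2 * 2 ^ (s + 2) := by ring
    have e2 : (2 : ℤ) ^ (s' + 3) = 2 * 2 ^ (s' + 2) := by ring
    have p1 : (0 : ℤ) < 2 ^ (s + 1) := by positivity
    have p2 : (0 : ℤ) < 2 ^ (s' + 1) := by positivity
    refine ⟨by linarith [hk.1], by linarith [hl.1], by linarith [hk.2, hl.2], ?_⟩
    intro hkl
    subst hkl
    rcases lt_or_gt_of_ne hs with h | h
    · have h1 : (2 : ℤ) ^ (s + 2) ≤ 2 ^ (s' + 1) :=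
        pow_le_pow_right₀ (by norm_num) (by omega)
      linarith [hk.2, hl.1]
    · have h1 : (2 : ℤ) ^ (s' + 2) ≤ 2 ^ (s + 1) :=
        pow_le_pow_right₀ (by norm_num) (by omega)
      linarith [hl.2, hk.1]
  refine orth M _ _ (fun k => ((kc ρ s k : ℝ) : ℂ) * Complex.exp (θ * Complex.I))
    (fun k => ((kc ρ s' k : ℝ) : ℂ) * Complex.exp (θ * Complex.I)) ?_ ?_
  · intro k hk l hl
    obtain ⟨a1, a2, a3, a4⟩ := key k hk l hl
    refine not_dvd_of (by omega) ?_
    rw [abs_lt]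
    constructor <;> omega
  · intro k hk l hl
    obtain ⟨a1, a2, a3, a4⟩ := key k hk l hl
    refine not_dvd_of (by omega) ?_
    rw [abs_lt]
    constructor <;> omega

end Pool.Agent.KW
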