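import Pool.Agent.KW.Stmts

set_option autoImplicit false

/-!
# KW: module PACK (packing in a finite-dimensional space)
-/

open MeasureTheory
open scoped BigOperators ENNReal

namespace Pool.Agent.KW.PACK_

noncomputable section

/-- The volume argument. -/
theorem card_le (E : Type) [NormedAddCommGroup E] [NormedSpace ℝ E] [FiniteDimensional ℝ E]
    (ι : Type) [Fintype ι] (v : ι → E) (R δ : ℝ) (hR : 0 ≤ R) (hδ : 0 < δ)
    (hv : ∀ i, ‖v i‖ ≤ R) (h : ∀ i j, i ≠ j → δ ≤ ‖v i - v j‖) :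
    (Fintype.card ι : ℝ) ≤ (1 + 2 * R / δ) ^ (Module.finrank ℝ E) := by
  borelize E
  let μ : Measure E := Measure.addHaar
  have hδ2 : 0 < δ / 2 := by positivity
  have hρ : 0 < R + δ / 2 := by positivity
  have D : Set.Pairwise ((Finset.univ : Finset ι) : Set ι)
      (Function.onFun Disjoint fun i => Metric.ball (v i) (δ / 2)) := by
    intro i _ j _ hij
    apply Metric.ball_disjoint_ball
    rw [dist_eq_norm]
    linarith [h i j hij]
  have hsub : (⋃ i ∈ (Finset.univ : Finset ι), Metric.ball (v i) (δ / 2)) ⊆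
      Metric.ball (0 : E) (R + δ / 2) := by
    refine Set.iUnion₂_subset fun i _ => ?_
    apply Metric.ball_subset_ball'
    rw [dist_zero_right]
    linarith [hv i]
  have I : ((Fintype.card ι : ℕ) : ℝ≥0∞) * ENNReal.ofReal ((δ / 2) ^ Module.finrank ℝ E) *
      μ (Metric.ball 0 1) ≤
      ENNReal.ofReal ((R + δ / 2) ^ Module.finrank ℝ E) * μ (Metric.ball 0 1) := by
    calc ((Fintype.card ι : ℕ) : ℝ≥0∞) * ENNReal.ofReal ((δ / 2) ^ Module.finrank ℝ E) *
        μ (Metric.ball 0 1) = μ (⋃ i ∈ (Finset.univ : Finset ι), Metric.ball (v i) (δ / 2)) := by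
          rw [measure_biUnion_finset D fun c _ => measurableSet_ball,
            Finset.sum_congr rfl fun i _ => μ.addHaar_ball_of_pos (v i) hδ2,
            Finset.sum_const, nsmul_eq_mul, Finset.card_univ, mul_assoc]
      _ ≤ μ (Metric.ball (0 : E) (R + δ / 2)) := measure_mono hsub
      _ = ENNReal.ofReal ((R + δ / 2) ^ Module.finrank ℝ E) * μ (Metric.ball 0 1) :=
          μ.addHaar_ball_of_pos _ hρ
  have J : ((Fintype.card ι : ℕ) : ℝ≥0∞) * ENNReal.ofReal ((δ / 2) ^ Module.finrank ℝ E) ≤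
      ENNReal.ofReal ((R + δ / 2) ^ Module.finrank ℝ E) :=
    (ENNReal.mul_le_mul_iff_left (Metric.measure_ball_pos _ _ zero_lt_one).ne'
      measure_ball_lt_top.ne).1 I
  have K := ENNReal.toReal_le_of_le_ofReal (pow_nonneg hρ.le _) J
  rw [ENNReal.toReal_mul, ENNReal.toReal_natCast,
    ENNReal.toReal_ofReal (pow_nonneg hδ2.le _)] at K
  have h1 : (1 + 2 * R / δ) = (R + δ / 2) / (δ / 2) := by
    field_simp
    ring
  rw [h1, div_pow, le_div_iff₀ (pow_pos hδ2 _)]
  exact K

end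

end Pool.Agent.KW.PACK_

namespace Pool.Agent.KW

/-- PACK. -/
theorem pack_proof : Stmt_Pack := by
  intro X _ _ U m ι _ u R δ hU hm hu hR hδ hn hs
  have h1 := PACK_.card_le U ι (fun i => ⟨u i, hu i⟩) R δ hR hδ (fun i => hn i)
    (fun i j hij => hs i j hij)
  have h2 : (1 : ℝ) ≤ 1 + 2 * R / δ := by
    have : 0 ≤ 2 * R / δ := by positivity
    linarith
  exact h1.trans (pow_le_pow_right₀ h2 hm)

end Pool.Agent.KW
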