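import Pool.Agent.KW.Stmts

set_option autoImplicit false

open MeasureTheory
open scoped BigOperators ENNReal

namespace Pool.Agent.KW

namespace POWG_

theorem summ (m : ℕ) : Summable (fun k : ℕ => ((2 : ℝ) ^ k)⁻¹ * ((k : ℝ) + 1) ^ m) := by
  have h := summable_pow_mul_geometric_of_norm_lt_one (R := ℝ) m (r := 1 / 2)
    (by rw [Real.norm_eq_abs, abs_of_pos] <;> norm_num)
  have h2 := (summable_nat_add_iff 1).mpr h
  refine (h2.mul_left 2).congr fun k => ?_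
  push_cast
  rw [pow_succ, one_div, inv_pow]
  ring

end POWG_

theorem powg_proof (h1 : Stmt_MomG) : Stmt_PowG := by
  intro d p hd hp C hC
  set m := (d - 1) + (d - 1) * (p - 1) with hm
  set S := ∑' k : ℕ, ((2 : ℝ) ^ k)⁻¹ * ((k : ℝ) + 1) ^ m with hS
  have hterm : ∀ k : ℕ, 0 ≤ ((2 : ℝ) ^ k)⁻¹ * ((k : ℝ) + 1) ^ m := fun k => by positivity
  have hS0 : 0 ≤ S := tsum_nonneg hterm
  refine ⟨C ^ d * (S + 1), by positivity, fun l M _ g hg => ?_⟩
  refine le_trans (h1 d hd C hC l M g hg p hp) ?_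
  have hsum : ∑ k ∈ Finset.range (d * l + 1), ((2 : ℝ) ^ k)⁻¹ * ((k : ℝ) + 1) ^ (d - 1) *
        (min (((k : ℝ) + 1) ^ (d - 1)) (Ln d l)) ^ (p - 1) ≤ S := by
    refine le_trans (Finset.sum_le_sum fun k _ => ?_)
      ((POWG_.summ m).sum_le_tsum (Finset.range (d * l + 1)) fun k _ => hterm k)
    rw [hm, pow_add, mul_assoc]
    refine mul_le_mul_of_nonneg_left ?_ (by positivity)
    refine mul_le_mul_of_nonneg_left ?_ (by positivity)
    rw [pow_mul]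
    exact pow_le_pow_left₀ (le_min (by positivity) (Nat.cast_nonneg _)) (min_le_left _ _) _
  have hnn : 0 ≤ C ^ d * (Ln d l : ℝ) * ((2 : ℝ) ^ l)⁻¹ := by positivity
  calc C ^ d * (Ln d l : ℝ) * ((2 : ℝ) ^ l)⁻¹ * _ ≤
      C ^ d * (Ln d l : ℝ) * ((2 : ℝ) ^ l)⁻¹ * (S + 1) :=
        mul_le_mul_of_nonneg_left (by linarith) hnn
    _ = C ^ d * (S + 1) * ((Ln d l : ℝ) * ((2 : ℝ) ^ l)⁻¹) := by ring

end Pool.Agent.KW
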