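import Pool.Agent.KW.Stmts

set_option autoImplicit false

/-!
# KW.PSIK: the moment of order `2 k` of the combined kernel
-/

open MeasureTheory
open scoped BigOperators ENNReal

namespace Pool.Agent.KW

noncomputable section

namespace PSIK_

theorem avg_mono {ι : Type*} [Fintype ι] {F G : ι → ℝ} (h : ∀ i, F i ≤ G i) : avg F ≤ avg G := by
  unfold avg
  exact div_le_div_of_nonneg_right (Finset.sum_le_sum fun i _ => h i) (Nat.cast_nonneg _)

theorem avg_const_mul {ι : Type*} [Fintype ι] (c : ℝ) (F : ι → ℝ) :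
    avg (fun i => c * F i) = c * avg F := by
  unfold avg
  rw [← Finset.mul_sum, mul_div_assoc]

theorem avg_sum {ι κ : Type*} [Fintype ι] (s : Finset κ) (F : κ → ι → ℝ) :
    avg (fun i => ∑ l ∈ s, F l i) = ∑ l ∈ s, avg (F l) := by
  unfold avg
  rw [Finset.sum_comm, Finset.sum_div]

theorem avg_zero {ι : Type*} [Fintype ι] : avg (fun _ : ι => (0 : ℝ)) = 0 := by
  unfold avg
  simp

end PSIK_

open PSIK_ in
theorem psik_proof (h1 : Stmt_Ker) (h2 : Stmt_PowG) : Stmt_PsiK := by
  intro d k hd hk ρ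
  obtain ⟨C1, hC1, hker⟩ := h1 ρ
  have hC1p : 0 < C1 := lt_of_lt_of_le one_pos hC1
  obtain ⟨C', hC', hpow⟩ := h2 d (2 * k) hd (by omega) 1 le_rfl
  refine ⟨(C1 ^ d) ^ (2 * k) * C', by positivity, ?_⟩
  intro θ b h M _ hM
  set A : ℝ := (C1 ^ d) ^ (2 * k) * C' with hA
  have hApos : 0 < A := by rw [hA]; positivity
  set g : ℕ → ZMod M → ℝ := fun s y => |ker ρ θ s (gr M y)| / C1 with hg
  set K : ℕ → (Fin d → ZMod M) → ℝ := fun l x =>
    ∑ s ∈ Sh d l, ∏ i, ker ρ θ (s i) (grd M x i) with hK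
  set τ : ℕ → ℝ := fun l => ((Ln d l : ℝ) * ((2 : ℝ) ^ l)⁻¹) ^ (1 / (2 * (k : ℝ))) with hτ
  have hτnn : ∀ l, 0 ≤ τ l := by
    intro l
    simp only [hτ]
    positivity
  have hτpow : ∀ l, τ l ^ (2 * k) = (Ln d l : ℝ) * ((2 : ℝ) ^ l)⁻¹ := by
    intro l
    simp only [hτ]
    have hx : 0 ≤ (Ln d l : ℝ) * ((2 : ℝ) ^ l)⁻¹ := by positivity
    have hk2 : (2 * k : ℕ) ≠ 0 := by omega
    have h3 := Real.rpow_inv_natCast_pow hx hk2
    have h4 : (1 / (2 * (k : ℝ))) = ((2 * k : ℕ) : ℝ)⁻¹ := by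
      push_cast
      rw [one_div]
    rw [h4]
    exact h3
  -- if `τ l = 0` then `K l = 0`
  have hKzero : ∀ l, τ l = 0 → ∀ x, K l x = 0 := by
    intro l hl x
    have h3 := hτpow l
    rw [hl, zero_pow (by omega : 2 * k ≠ 0)] at h3
    have h4 : (Ln d l : ℝ) = 0 := by
      have h5 : ((2 : ℝ) ^ l)⁻¹ ≠ 0 := by positivity
      rcases mul_eq_zero.mp h3.symm with h6 | h6
      · exact h6
      · exact absurd h6 h5
    have h5 : Ln d l = 0 := by exact_mod_cast h4
    unfold Ln at h5
    have h6 : Sh d l = ∅ := Finset.card_eq_zero.mp h5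
    simp only [hK]
    rw [h6, Finset.sum_empty]
  have hKeq : ∀ l x, τ l * (|K l x| / τ l) = |K l x| := by
    intro l x
    rcases eq_or_ne (τ l) 0 with h0 | h0
    · rw [h0, hKzero l h0 x]; simp
    · field_simp
  -- pointwise bound of `K l`
  have hKabs : ∀ l x, |K l x| ≤ C1 ^ d * Gs g l x := by
    intro l x
    simp only [hK]
    unfold Gs
    rw [Finset.mul_sum]
    refine (Finset.abs_sum_le_sum_abs _ _).trans (Finset.sum_le_sum fun s _ => ?_)
    rw [Finset.abs_prod]
    have h3 : ∏ i : Fin d, |ker ρ θ (s i) (grd M x i)| =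
        C1 ^ d * ∏ i : Fin d, g (s i) (x i) := by
      have h4 : ∀ i : Fin d, |ker ρ θ (s i) (grd M x i)| = C1 * g (s i) (x i) := by
        intro i
        simp only [hg]
        unfold grd
        field_simp
      rw [Finset.prod_congr rfl fun i _ => h4 i, Finset.prod_mul_distrib, Finset.prod_const,
        Finset.card_univ, Fintype.card_fin]
    exact le_of_eq h3
  have hGH : ∀ l, l ≤ h → GHyp 1 l M g := by
    intro l hl
    refine ⟨?_, ?_⟩
    · intro s _ y
      simp only [hg]
      refine ⟨div_nonneg (abs_nonneg _) hC1p.le, ?_⟩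
      rw [div_le_one hC1p]
      exact (hker θ s).1 _
    · intro s hs
      have h3 : 2 ^ (s + 2) ≤ M := by
        refine le_trans ?_ hM
        exact Nat.pow_le_pow_right (by norm_num) (by omega)
      have h4 := (hker θ s).2 M h3
      have h5 : avg (g s) = C1⁻¹ * avg (fun y : ZMod M => |ker ρ θ s (gr M y)|) := by
        rw [← avg_const_mul]
        congr 1
        funext y
        simp only [hg]
        rw [div_eq_inv_mul]
      rw [h5, one_mul]
      calc C1⁻¹ * avg (fun y : ZMod M => |ker ρ θ s (gr M y)|)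
          ≤ C1⁻¹ * (C1 * ((2 : ℝ) ^ s)⁻¹) :=
            mul_le_mul_of_nonneg_left h4 (by positivity)
        _ = ((2 : ℝ) ^ s)⁻¹ := by field_simp
  -- moment of `K l`
  have hKmom : ∀ l, l ≤ h → avg (fun x : Fin d → ZMod M => |K l x| ^ (2 * k)) ≤
      A * τ l ^ (2 * k) := by
    intro l hl
    have h3 := hpow l M g (hGH l hl)
    have h4 : avg (fun x : Fin d → ZMod M => |K l x| ^ (2 * k)) ≤
        avg (fun x : Fin d → ZMod M => (C1 ^ d) ^ (2 * k) * Gs g l x ^ (2 * k)) := by
      refine avg_mono fun x => ?_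
      rw [← mul_pow]
      exact pow_le_pow_left₀ (abs_nonneg _) (hKabs l x) _
    refine h4.trans ?_
    rw [avg_const_mul, hτpow, hA, mul_assoc]
    exact mul_le_mul_of_nonneg_left h3 (by positivity)
  have hKmom' : ∀ l, l ≤ h → avg (fun x : Fin d → ZMod M => (|K l x| / τ l) ^ (2 * k)) ≤ A := by
    intro l hl
    rcases eq_or_ne (τ l) 0 with h0 | h0
    · have h3 : (fun x : Fin d → ZMod M => (|K l x| / τ l) ^ (2 * k)) = fun _ => (0 : ℝ) := by
        funext x
        rw [h0, div_zero, zero_pow (by omega : 2 * k ≠ 0)]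
      rw [h3, avg_zero]
      exact hApos.le
    · have hpos : 0 < τ l := lt_of_le_of_ne (hτnn l) (Ne.symm h0)
      have h3 : (fun x : Fin d → ZMod M => (|K l x| / τ l) ^ (2 * k)) =
          fun x => (τ l ^ (2 * k))⁻¹ * |K l x| ^ (2 * k) := by
        funext x
        rw [div_pow, div_eq_inv_mul]
      rw [h3, avg_const_mul]
      have hp : 0 < τ l ^ (2 * k) := by positivity
      calc (τ l ^ (2 * k))⁻¹ * avg (fun x : Fin d → ZMod M => |K l x| ^ (2 * k))
          ≤ (τ l ^ (2 * k))⁻¹ * (A * τ l ^ (2 * k)) :=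
            mul_le_mul_of_nonneg_left (hKmom l hl) (by positivity)
        _ = A := by field_simp
  set T : ℝ := ∑ l ∈ Finset.range (h + 1), |b l| * τ l with hT
  have hTnn : 0 ≤ T := Finset.sum_nonneg fun l _ => mul_nonneg (abs_nonneg _) (hτnn l)
  have hkapabs : ∀ x : Fin d → ZMod M, |kap d b h ρ θ (grd M x)| ≤
      ∑ l ∈ Finset.range (h + 1), (|b l| * τ l) * (|K l x| / τ l) := by
    intro x
    unfold kap
    refine (Finset.abs_sum_le_sum_abs _ _).trans (Finset.sum_le_sum fun l _ => ?_)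
    rw [abs_mul, mul_assoc, hKeq l x]
  -- the goal
  change avg (fun x : Fin d → ZMod M => (kap d b h ρ θ (grd M x)) ^ (2 * k)) ≤ A * T ^ (2 * k)
  rcases eq_or_lt_of_le hTnn with hT0 | hTpos
  · have h3 : ∀ l ∈ Finset.range (h + 1), |b l| * τ l = 0 := by
      have h4 := (Finset.sum_eq_zero_iff_of_nonneg
        (fun l (_ : l ∈ Finset.range (h + 1)) => mul_nonneg (abs_nonneg (b l)) (hτnn l))).mp
        (hT ▸ hT0.symm : ∑ l ∈ Finset.range (h + 1), |b l| * τ l = 0)
      exact h4
    have h5 : (fun x : Fin d → ZMod M => (kap d b h ρ θ (grd M x)) ^ (2 * k)) =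
        fun _ => (0 : ℝ) := by
      funext x
      have h6 : |kap d b h ρ θ (grd M x)| ≤ 0 := by
        refine (hkapabs x).trans (le_of_eq ?_)
        refine Finset.sum_eq_zero fun l hl => ?_
        rw [h3 l hl, zero_mul]
      have h7 : kap d b h ρ θ (grd M x) = 0 := abs_nonpos_iff.mp h6
      rw [h7, zero_pow (by omega : 2 * k ≠ 0)]
    rw [h5, avg_zero]
    positivity
  · have hpt : ∀ x : Fin d → ZMod M, (kap d b h ρ θ (grd M x)) ^ (2 * k) ≤
        ∑ l ∈ Finset.range (h + 1), (T ^ (2 * k) * ((|b l| * τ l) / T)) *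
          (|K l x| / τ l) ^ (2 * k) := by
      intro x
      have h3 : (kap d b h ρ θ (grd M x)) ^ (2 * k) = |kap d b h ρ θ (grd M x)| ^ (2 * k) := by
        rw [← abs_pow, abs_of_nonneg]
        exact (even_two_mul k).pow_nonneg _
      have h4 := Real.pow_arith_mean_le_arith_mean_pow (Finset.range (h + 1))
        (fun l => (|b l| * τ l) / T) (fun l => |K l x| / τ l)
        (fun l _ => div_nonneg (mul_nonneg (abs_nonneg _) (hτnn l)) hTnn)
        (by rw [← Finset.sum_div]; exact div_self hTpos.ne')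
        (fun l _ => div_nonneg (abs_nonneg _) (hτnn l)) (2 * k)
      have h5 : ∑ l ∈ Finset.range (h + 1), (|b l| * τ l) * (|K l x| / τ l) =
          T * ∑ l ∈ Finset.range (h + 1), (|b l| * τ l) / T * (|K l x| / τ l) := by
        rw [Finset.mul_sum]
        refine Finset.sum_congr rfl fun l _ => ?_
        field_simp
      rw [h3]
      calc |kap d b h ρ θ (grd M x)| ^ (2 * k)
          ≤ (T * ∑ l ∈ Finset.range (h + 1), (|b l| * τ l) / T * (|K l x| / τ l)) ^ (2 * k) := by
            refine pow_le_pow_left₀ (abs_nonneg _) ?_ _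
            rw [← h5]
            exact hkapabs x
        _ = T ^ (2 * k) * (∑ l ∈ Finset.range (h + 1),
              (|b l| * τ l) / T * (|K l x| / τ l)) ^ (2 * k) := mul_pow _ _ _
        _ ≤ T ^ (2 * k) * ∑ l ∈ Finset.range (h + 1),
              (|b l| * τ l) / T * (|K l x| / τ l) ^ (2 * k) :=
            mul_le_mul_of_nonneg_left h4 (by positivity)
        _ = ∑ l ∈ Finset.range (h + 1), (T ^ (2 * k) * ((|b l| * τ l) / T)) *
              (|K l x| / τ l) ^ (2 * k) := by
            rw [Finset.mul_sum]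
            refine Finset.sum_congr rfl fun l _ => ?_
            ring
    refine (avg_mono hpt).trans ?_
    rw [avg_sum]
    calc ∑ l ∈ Finset.range (h + 1), avg (fun x : Fin d → ZMod M =>
          (T ^ (2 * k) * ((|b l| * τ l) / T)) * (|K l x| / τ l) ^ (2 * k))
        ≤ ∑ l ∈ Finset.range (h + 1), (T ^ (2 * k) * ((|b l| * τ l) / T)) * A := by
          refine Finset.sum_le_sum fun l hl => ?_
          rw [avg_const_mul]
          refine mul_le_mul_of_nonneg_left (hKmom' l ?_) ?_
          · exact Nat.lt_succ_iff.mp (Finset.mem_range.mp hl)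
          · exact mul_nonneg (by positivity)
              (div_nonneg (mul_nonneg (abs_nonneg _) (hτnn l)) hTnn)
      _ = A * T ^ (2 * k) := by
          rw [← Finset.sum_mul, ← Finset.mul_sum, ← Finset.sum_div]
          have h6 : (∑ l ∈ Finset.range (h + 1), |b l| * τ l) / T = 1 := div_self hTpos.ne'
          rw [h6]
          ring

end

end Pool.Agent.KW
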