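import Pool.Agent.KW.Stmts

/-!
# PSITWO: second moment of the combined kernel on the grid
-/

set_option autoImplicit false

open MeasureTheory
open scoped BigOperators ENNReal

namespace Pool.Agent.KW

noncomputable section

namespace PSITWO_

/-- the average of a tensor product over the grid -/
theorem avg_prod {d M : ℕ} [NeZero M] (f : Fin d → ZMod M → ℝ) :
    avg (fun x : Fin d → ZMod M => ∏ i, f i (x i)) = ∏ i, avg (f i) := by
  unfold avg
  rw [Finset.prod_div_distrib, Finset.prod_univ_sum, Fintype.piFinset_univ]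
  congr 1
  simp [Fintype.card_pi]

theorem avg_sum {ι κ : Type*} [Fintype ι] (s : Finset κ) (f : κ → ι → ℝ) :
    avg (fun x => ∑ k ∈ s, f k x) = ∑ k ∈ s, avg (f k) := by
  unfold avg
  rw [Finset.sum_comm, Finset.sum_div]

theorem avg_const_mul {ι : Type*} [Fintype ι] (c : ℝ) (f : ι → ℝ) :
    avg (fun x => c * f x) = c * avg f := by
  unfold avg
  rw [← Finset.mul_sum, mul_div_assoc]

theorem avg_le {ι : Type*} [Fintype ι] {f g : ι → ℝ} (h : ∀ x, f x ≤ g x) : avg f ≤ avg g := by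
  unfold avg
  exact div_le_div_of_nonneg_right (Finset.sum_le_sum fun x _ => h x) (Nat.cast_nonneg _)

theorem avg_nonneg {ι : Type*} [Fintype ι] {f : ι → ℝ} (h : ∀ x, 0 ≤ f x) : 0 ≤ avg f := by
  unfold avg
  exact div_nonneg (Finset.sum_nonneg fun x _ => h x) (Nat.cast_nonneg _)

theorem le_of_mem_Sh {d l : ℕ} {s : Fin d → ℕ} (hs : s ∈ Sh d l) (i : Fin d) : s i ≤ l := by
  unfold Sh at hs
  rw [Finset.mem_piAntidiag] at hs
  rw [← hs.1]
  exact Finset.single_le_sum (f := s) (fun _ _ => Nat.zero_le _) (Finset.mem_univ i)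

theorem sum_of_mem_Sh {d l : ℕ} {s : Fin d → ℕ} (hs : s ∈ Sh d l) : ∑ i, s i = l := by
  unfold Sh at hs
  rw [Finset.mem_piAntidiag] at hs
  exact hs.1

end PSITWO_

open PSITWO_ in
theorem psitwo_proof (hker : Stmt_Ker) (horth : Stmt_Orth) : Stmt_PsiTwo := by
  intro d _ ρ
  obtain ⟨C, hC1, hC⟩ := hker ρ
  have hC0 : 0 < C := lt_of_lt_of_le one_pos hC1
  refine ⟨(C * C) ^ d, by positivity, ?_⟩
  intro θ b h M _ hM
  set K : (Fin d → ℕ) → (Fin d → ZMod M) → ℝ :=
    fun s x => ∏ i, ker ρ θ (s i) (gr M (x i)) with hK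
  set T : Finset (Σ _ : ℕ, Fin d → ℕ) := (Finset.range (h + 1)).sigma fun l => Sh d l with hT
  have hkap : ∀ x : Fin d → ZMod M, kap d b h ρ θ (grd M x) = ∑ t ∈ T, b t.1 * K t.2 x := by
    intro x
    unfold kap
    rw [hT, Finset.sum_sigma]
    refine Finset.sum_congr rfl fun l _ => ?_
    rw [Finset.mul_sum]
    rfl
  -- products of two kernels
  have hKK : ∀ s s' : Fin d → ℕ, avg (fun x => K s x * K s' x) =
      ∏ i, avg (fun y : ZMod M => ker ρ θ (s i) (gr M y) * ker ρ θ (s' i) (gr M y)) := by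
    intro s s'
    rw [← avg_prod]
    congr 1
    funext x
    rw [hK]
    simp only
    rw [← Finset.prod_mul_distrib]
  have hpow : ∀ s : ℕ, s ≤ h → 2 ^ (s + 3) ≤ M := fun s hs =>
    le_trans (Nat.pow_le_pow_right (by norm_num) (by omega)) hM
  have hoff : ∀ t ∈ T, ∀ t' ∈ T, t ≠ t' → avg (fun x => K t.2 x * K t'.2 x) = 0 := by
    intro t ht t' ht' hne
    rw [hT, Finset.mem_sigma] at ht ht'
    have hs : t.2 ≠ t'.2 := by
      intro heq
      apply hne
      have h1 := sum_of_mem_Sh ht.2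
      have h2 := sum_of_mem_Sh ht'.2
      obtain ⟨l, s⟩ := t
      obtain ⟨l', s'⟩ := t'
      simp only at heq h1 h2
      subst heq
      have : l = l' := by rw [← h1, ← h2]
      subst this
      rfl
    obtain ⟨i, hi⟩ := Function.ne_iff.1 hs
    rw [hKK]
    refine Finset.prod_eq_zero (Finset.mem_univ i) ?_
    unfold avg
    have hl := Finset.mem_range.1 ht.1
    have hl' := Finset.mem_range.1 ht'.1
    rw [horth.2 ρ θ (t.2 i) (t'.2 i) M hi
      (hpow _ (le_trans (le_of_mem_Sh ht.2 i) (by omega)))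
      (hpow _ (le_trans (le_of_mem_Sh ht'.2 i) (by omega))), zero_div]
  have hdiag : ∀ t ∈ T, avg (fun x => K t.2 x * K t.2 x) ≤ (C * C) ^ d * ((2 : ℝ) ^ t.1)⁻¹ := by
    intro t ht
    rw [hT, Finset.mem_sigma] at ht
    have hl := Finset.mem_range.1 ht.1
    rw [hKK]
    have h1 : ∀ i : Fin d, avg (fun y : ZMod M => ker ρ θ (t.2 i) (gr M y) *
        ker ρ θ (t.2 i) (gr M y)) ≤ C * C * ((2 : ℝ) ^ (t.2 i))⁻¹ := by
      intro i
      obtain ⟨hsup, hav⟩ := hC θ (t.2 i)
      have hM2 : 2 ^ (t.2 i + 2) ≤ M :=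
        le_trans (Nat.pow_le_pow_right (by norm_num) (by omega))
          (hpow (t.2 i) (le_trans (le_of_mem_Sh ht.2 i) (by omega)))
      calc avg (fun y : ZMod M => ker ρ θ (t.2 i) (gr M y) * ker ρ θ (t.2 i) (gr M y))
          ≤ avg (fun y : ZMod M => C * |ker ρ θ (t.2 i) (gr M y)|) := by
            refine avg_le fun y => ?_
            rw [← abs_mul_abs_self]
            exact mul_le_mul_of_nonneg_right (hsup _) (abs_nonneg _)
        _ = C * avg (fun y : ZMod M => |ker ρ θ (t.2 i) (gr M y)|) := avg_const_mul _ _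
        _ ≤ C * (C * ((2 : ℝ) ^ (t.2 i))⁻¹) :=
            mul_le_mul_of_nonneg_left (hav M hM2) hC0.le
        _ = C * C * ((2 : ℝ) ^ (t.2 i))⁻¹ := by ring
    calc ∏ i, avg (fun y : ZMod M => ker ρ θ (t.2 i) (gr M y) * ker ρ θ (t.2 i) (gr M y))
        ≤ ∏ i : Fin d, C * C * ((2 : ℝ) ^ (t.2 i))⁻¹ := by
          refine Finset.prod_le_prod (fun i _ => ?_) fun i _ => h1 i
          exact avg_nonneg fun y => mul_self_nonneg _
      _ = (C * C) ^ d * ((2 : ℝ) ^ t.1)⁻¹ := by
          rw [Finset.prod_mul_distrib, Finset.prod_const, Finset.card_univ, Fintype.card_fin,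
            Finset.prod_inv_distrib, Finset.prod_pow_eq_pow_sum, sum_of_mem_Sh ht.2]
  calc avg (fun x : Fin d → ZMod M => (kap d b h ρ θ (grd M x)) ^ 2)
      = avg (fun x : Fin d → ZMod M => ∑ t ∈ T, ∑ t' ∈ T,
          (b t.1 * b t'.1) * (K t.2 x * K t'.2 x)) := by
        congr 1
        funext x
        rw [hkap, pow_two, Finset.sum_mul_sum]
        refine Finset.sum_congr rfl fun t _ => Finset.sum_congr rfl fun t' _ => ?_
        ring
    _ = ∑ t ∈ T, ∑ t' ∈ T, (b t.1 * b t'.1) * avg (fun x => K t.2 x * K t'.2 x) := by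
        rw [avg_sum]
        refine Finset.sum_congr rfl fun t _ => ?_
        rw [avg_sum]
        refine Finset.sum_congr rfl fun t' _ => ?_
        rw [avg_const_mul]
    _ = ∑ t ∈ T, (b t.1 * b t.1) * avg (fun x => K t.2 x * K t.2 x) := by
        refine Finset.sum_congr rfl fun t ht => ?_
        refine Finset.sum_eq_single_of_mem t ht fun t' ht' hne => ?_
        rw [hoff t ht t' ht' hne.symm, mul_zero]
    _ ≤ ∑ t ∈ T, (b t.1 * b t.1) * ((C * C) ^ d * ((2 : ℝ) ^ t.1)⁻¹) :=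
        Finset.sum_le_sum fun t ht => mul_le_mul_of_nonneg_left (hdiag t ht) (mul_self_nonneg _)
    _ = (C * C) ^ d * ∑ l ∈ Finset.range (h + 1), (b l) ^ 2 * (Ln d l * ((2 : ℝ) ^ l)⁻¹) := by
        rw [hT, Finset.sum_sigma, Finset.mul_sum]
        refine Finset.sum_congr rfl fun l _ => ?_
        simp only [Finset.sum_const, nsmul_eq_mul]
        unfold Ln
        ring

end

end Pool.Agent.KW
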