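import Pool.Agent.KW.Stmts

set_option autoImplicit false

/-!
# QUAD: exactness of the grid quadrature
-/

open MeasureTheory
open scoped BigOperators ENNReal

namespace Pool.Agent.KW

noncomputable section

namespace QUAD_

theorem int_fourier (k : ℤ) : ∫ x : UnitAddCircle, fourier k x ∂AddCircle.haarAddCircle =
    if k = 0 then 1 else 0 := by
  split_ifs with hk
  · subst hk
    have h : (fun x : UnitAddCircle => (fourier 0 x : ℂ)) = fun _ => (1 : ℂ) := by
      funext x
      exact fourier_zero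
    rw [h, integral_const, probReal_univ, one_smul]
  · exact integral_eq_zero_of_add_right_eq_neg (μ := AddCircle.haarAddCircle)
      (fourier_add_half_inv_index hk (zero_lt_one))

theorem sum_fourier (M : ℕ) [NeZero M] (k : ℤ) (hk : |k| < M) :
    ∑ y : ZMod M, (fourier k (gr M y) : ℂ) = if k = 0 then (M : ℂ) else 0 := by
  have hM : (M : ℂ) ≠ 0 := Nat.cast_ne_zero.2 (NeZero.ne M)
  split_ifs with h0
  · subst h0
    simp [ZMod.card]
  · set S := ∑ y : ZMod M, (fourier k (gr M y) : ℂ) with hS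
    have hadd : ∀ y : ZMod M, (fourier k (gr M (y + 1)) : ℂ) =
        fourier k (gr M y) * fourier k (gr M 1) := by
      intro y
      unfold gr
      rw [map_add, fourier_apply, fourier_apply, fourier_apply, smul_add, AddCircle.toCircle_add,
        Circle.coe_mul]
    have h1 : S = S * fourier k (gr M 1) := by
      conv_lhs => rw [hS]
      rw [← Equiv.sum_comp (Equiv.addRight (1 : ZMod M))]
      simp only [Equiv.coe_addRight, hadd]
      rw [← Finset.sum_mul]
    have h2 : (fourier k (gr M 1) : ℂ) ≠ 1 := by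
      intro h
      have h3 : gr M 1 = (((1 : ℤ) / (M : ℝ) : ℝ) : UnitAddCircle) := by
        unfold gr
        have := ZMod.toAddCircle_intCast (N := M) 1
        simpa using this
      rw [h3, fourier_coe_apply, Complex.exp_eq_one_iff] at h
      obtain ⟨n, hn⟩ := h
      have hpi : (2 * (Real.pi : ℂ) * Complex.I) ≠ 0 := Complex.two_pi_I_ne_zero
      have h4 : (k : ℂ) = n * M := by
        have h5 : (2 * (Real.pi : ℂ) * Complex.I) * ((k : ℂ) / M) =
            (2 * (Real.pi : ℂ) * Complex.I) * n := by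
          rw [mul_comm _ (n : ℂ), ← hn]
          push_cast
          field_simp
        have h6 := mul_left_cancel₀ hpi h5
        field_simp at h6
        rw [h6, mul_comm]
      have h5 : k = n * M := by exact_mod_cast h4
      have h6 : n ≠ 0 := by
        rintro rfl
        apply h0
        rw [h5, zero_mul]
      have h7 : (M : ℤ) ≤ |k| := by
        rw [h5, abs_mul, Nat.abs_cast]
        have h8 : 1 ≤ |n| := Int.one_le_abs h6
        nlinarith [Int.natCast_nonneg M]
      omega
    have h3 : S * (1 - fourier k (gr M 1)) = 0 := by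
      rw [mul_sub, mul_one, ← h1, sub_self]
    rcases mul_eq_zero.1 h3 with h4 | h4
    · exact h4
    · exact absurd (sub_eq_zero.1 h4).symm h2

theorem int_ch {d : ℕ} (n : Fin d → ℤ) : ∫ x, ch n x ∂(mu d) = if n = 0 then 1 else 0 := by
  unfold ch mu
  rw [integral_fintype_prod_eq_prod (f := fun i x => (fourier (n i) x : ℂ))]
  simp only [int_fourier]
  split_ifs with h
  · subst h
    simp
  · have h1 : ∃ i, n i ≠ 0 := by
      by_contra hc
      push Not at hc
      exact h (funext hc)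
    obtain ⟨i, hi⟩ := h1
    exact Finset.prod_eq_zero (Finset.mem_univ i) (by simp [hi])

theorem sum_ch {d M : ℕ} [NeZero M] (n : Fin d → ℤ) (hn : ∀ i, |n i| < M) :
    ∑ y : Fin d → ZMod M, ch n (grd M y) = if n = 0 then (M : ℂ) ^ d else 0 := by
  unfold ch grd
  have h1 := Finset.prod_univ_sum (fun _ : Fin d => (Finset.univ : Finset (ZMod M)))
    (fun i y => (fourier (n i) (gr M y) : ℂ))
  rw [Fintype.piFinset_univ] at h1
  rw [← h1]
  have h2 : ∀ i, ∑ y : ZMod M, (fourier (n i) (gr M y) : ℂ) = if n i = 0 then (M : ℂ) else 0 :=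
    fun i => sum_fourier M (n i) (hn i)
  simp only [h2]
  split_ifs with h
  · subst h
    simp
  · have h3 : ∃ i, n i ≠ 0 := by
      by_contra hc
      push Not at hc
      exact h (funext hc)
    obtain ⟨i, hi⟩ := h3
    exact Finset.prod_eq_zero (Finset.mem_univ i) (by simp [hi])

theorem quad {d D M : ℕ} [NeZero M] (hDM : D < M) (f : Tor d → ℂ) (hf : f ∈ Trig d D) :
    Integrable f (mu d) ∧
      ∫ x, f x ∂(mu d) = (∑ y : Fin d → ZMod M, f (grd M y)) / (M : ℂ) ^ d := by
  have hM : (M : ℂ) ^ d ≠ 0 := pow_ne_zero _ (Nat.cast_ne_zero.2 (NeZero.ne M))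
  unfold Trig at hf
  induction hf using Submodule.span_induction with
  | mem x hx =>
    obtain ⟨n, hn, rfl⟩ := hx
    refine ⟨(ch_continuous n).integrable_of_hasCompactSupport
      (HasCompactSupport.of_compactSpace _), ?_⟩
    rw [int_ch, sum_ch n (fun i => lt_of_le_of_lt (hn i) (by exact_mod_cast hDM))]
    split_ifs
    · rw [div_self hM]
    · rw [zero_div]
  | zero =>
    refine ⟨integrable_zero _ _ _, ?_⟩
    simp
  | add x y _ _ hx hy =>
    refine ⟨hx.1.add hy.1, ?_⟩
    simp only [Pi.add_apply]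
    rw [integral_add hx.1 hy.1, hx.2, hy.2, Finset.sum_add_distrib, add_div]
  | smul a x _ hx =>
    refine ⟨hx.1.smul a, ?_⟩
    simp only [Pi.smul_apply, smul_eq_mul]
    rw [integral_const_mul, hx.2, ← Finset.mul_sum, mul_div_assoc]

theorem one_mem (d : ℕ) : (fun _ : Tor d => (1 : ℂ)) ∈ Trig d 0 := by
  apply Submodule.subset_span
  refine ⟨0, fun i => by simp, ?_⟩
  funext x
  unfold ch
  simp

end QUAD_

open QUAD_ in
/-- Module QUAD. -/
theorem quad_proof (h : Stmt_Trig) : Stmt_Quad := by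
  refine ⟨fun d D M _ hDM f hf => (quad hDM f hf).2, ?_⟩
  intro d D M p _ f Q hp hpD hf hQ havg
  obtain ⟨hmul, hcont, -, -, -⟩ := h
  -- powers
  have hpow : ∀ k : ℕ, (fun x => ((f x : ℝ) : ℂ) ^ k) ∈ Trig d (k * D) := by
    intro k
    induction k with
    | zero =>
      simp only [pow_zero, zero_mul]
      exact one_mem d
    | succ k ih =>
      have h1 := hmul d (k * D) D _ _ ih hf
      have h2 : (fun x => ((f x : ℝ) : ℂ) ^ k) * (fun x => ((f x : ℝ) : ℂ)) =
          fun x => ((f x : ℝ) : ℂ) ^ (k + 1) := by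
        funext x
        rw [Pi.mul_apply, pow_succ]
      rw [h2] at h1
      rw [Nat.succ_mul]
      exact h1
  have h1 := (quad hpD _ (hpow (2 * p))).2
  have hfc : Continuous f := by
    have h2 := hcont d D _ hf
    have h3 := Complex.continuous_re.comp h2
    exact h3
  have hmem : MemLp f ((2 * p : ℕ) : ℝ≥0∞) (mu d) :=
    hfc.memLp_of_hasCompactSupport (HasCompactSupport.of_compactSpace _)
  have hint : ∫ x, f x ^ (2 * p) ∂(mu d) = avg (fun y : Fin d → ZMod M => f (grd M y) ^ (2 * p)) := by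
    have h3 : ((∫ x, f x ^ (2 * p) ∂(mu d) : ℝ) : ℂ) = ∫ x, ((f x : ℝ) : ℂ) ^ (2 * p) ∂(mu d) := by
      have h4 := integral_ofReal (𝕜 := ℂ) (μ := mu d) (f := fun x => f x ^ (2 * p))
      refine Eq.trans h4.symm ?_
      refine integral_congr_ae (Filter.Eventually.of_forall fun x => ?_)
      exact Complex.ofReal_pow _ _
    have h5 : ((avg (fun y : Fin d → ZMod M => f (grd M y) ^ (2 * p)) : ℝ) : ℂ) =
        (∑ y : Fin d → ZMod M, ((f (grd M y) : ℝ) : ℂ) ^ (2 * p)) / (M : ℂ) ^ d := by
      unfold avg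
      rw [Fintype.card_fun, ZMod.card, Fintype.card_fin]
      push_cast
      rfl
    have h6 : ((∫ x, f x ^ (2 * p) ∂(mu d) : ℝ) : ℂ) =
        ((avg (fun y : Fin d → ZMod M => f (grd M y) ^ (2 * p)) : ℝ) : ℂ) := by
      rw [h3, h1, h5]
    exact_mod_cast h6
  have hp0 : ((2 * p : ℕ) : ℝ≥0∞) ≠ 0 := by
    rw [Nat.cast_ne_zero]
    omega
  rw [MemLp.eLpNorm_eq_integral_rpow_norm hp0 (ENNReal.natCast_ne_top _) hmem]
  apply ENNReal.ofReal_le_ofReal
  have hpr : (0 : ℝ) < ((2 * p : ℕ) : ℝ) := by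
    rw [Nat.cast_pos]
    omega
  have h7 : ((2 * p : ℕ) : ℝ≥0∞).toReal = ((2 * p : ℕ) : ℝ) := ENNReal.toReal_natCast _
  rw [h7]
  have h8 : ∀ x, ‖f x‖ ^ (((2 * p : ℕ) : ℝ)) = f x ^ (2 * p) := by
    intro x
    rw [Real.rpow_natCast, Real.norm_eq_abs, pow_mul, sq_abs, ← pow_mul]
  simp only [h8]
  rw [hint]
  have h9 : 0 ≤ avg (fun y : Fin d → ZMod M => f (grd M y) ^ (2 * p)) := by
    rw [← hint]
    refine integral_nonneg fun x => ?_
    simp only [Pi.zero_apply]
    rw [pow_mul]
    positivity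
  calc avg (fun y : Fin d → ZMod M => f (grd M y) ^ (2 * p)) ^ (((2 * p : ℕ) : ℝ)⁻¹)
      ≤ (Q ^ (2 * p)) ^ (((2 * p : ℕ) : ℝ)⁻¹) := Real.rpow_le_rpow h9 havg (by positivity)
    _ = Q := by
      rw [← Real.rpow_natCast, ← Real.rpow_mul hQ, mul_inv_cancel₀ hpr.ne', Real.rpow_one]

end

end Pool.Agent.KW
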