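import Pool.Agent.KW.Stmts

set_option autoImplicit false

open MeasureTheory
open scoped BigOperators ENNReal ComplexConjugate

namespace Pool.Agent.KW

namespace RHOB_

theorem sgn_neg (k : ℤ) : ((SignType.sign (-k) : ℤ)) = -((SignType.sign k : ℤ)) := by
  have h : SignType.sign (-k) = -SignType.sign k := by
    exact Left.sign_neg k
  rw [h]
  push_cast
  rfl

theorem norm_rho (r α : ℝ) (k : ℤ) (hk : k ≠ 0) : ‖rho r α k‖ = |(k : ℝ)| ^ (-r) := by
  unfold rho
  rw [if_neg hk, norm_mul]
  generalize ((SignType.sign k : ℤ)) = z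
  have h1 : ‖Complex.exp (-((z : ℂ) * (α : ℂ) * (Real.pi : ℂ) / 2 *
      Complex.I))‖ = 1 := by
    have : -((z : ℂ) * (α : ℂ) * (Real.pi : ℂ) / 2 * Complex.I) =
        ((-((z : ℝ) * α * Real.pi / 2) : ℝ) : ℂ) * Complex.I := by
      push_cast; ring
    rw [this, Complex.norm_exp_ofReal_mul_I]
  rw [h1, mul_one, Complex.norm_real, Real.norm_eq_abs, abs_of_nonneg]
  positivity

theorem rho_neg (r α : ℝ) (k : ℤ) : rho r α (-k) = (starRingEnd ℂ) (rho r α k) := by
  unfold rho
  by_cases hk : k = 0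
  · simp [hk]
  · rw [if_neg hk, if_neg (by simpa using hk), map_mul, Complex.conj_ofReal, ← Complex.exp_conj]
    rw [sgn_neg]
    generalize ((SignType.sign k : ℤ)) = z
    congr 1
    · push_cast
      rw [abs_neg]
    · congr 1
      push_cast
      simp only [map_neg, map_mul, map_div₀, Complex.conj_ofReal, Complex.conj_I, map_ofNat,
        map_intCast]
      ring

theorem bet_neg (s : ℕ) (k : ℤ) : bet s (-k) = bet s k := by
  unfold bet
  split_ifs with h1 h2 h3 h3 <;> simp_all

end RHOB_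

theorem rhob_proof : Stmt_RhoB := by
  intro r α
  refine ⟨RHOB_.norm_rho r α, RHOB_.rho_neg r α, ?_⟩
  intro s x
  unfold blk
  set S : ℂ := ∑ k ∈ Finset.Icc (-(2 : ℤ) ^ (s + 1)) (2 ^ (s + 1)), ((bet s k : ℝ) : ℂ) *
    rho r α k * fourier k x with hS
  have hconj : (starRingEnd ℂ) S = S := by
    rw [hS, map_sum]
    refine Finset.sum_nbij' (fun k => -k) (fun k => -k) ?_ ?_ ?_ ?_ ?_
    · intro k hk
      rw [Finset.mem_Icc] at hk ⊢
      constructor <;> omega
    · intro k hk
      rw [Finset.mem_Icc] at hk ⊢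
      constructor <;> omega
    · intro k _; simp
    · intro k _; simp
    · intro k _
      rw [map_mul, map_mul, Complex.conj_ofReal, RHOB_.bet_neg, RHOB_.rho_neg, fourier_neg]
  exact Complex.conj_eq_iff_re.mp hconj

end Pool.Agent.KW
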