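import Pool.Agent.KW.Stmts

set_option autoImplicit false

/-!
# KW, module SEPF: maximal separated families
-/

open scoped BigOperators

namespace Pool.Agent.KW

noncomputable section

theorem sepf_proof : Stmt_SepF := by
  classical
  intro E _ G near K hsymm hrefl hS
  choose! S hS1 hS2 using hS
  let P : Finset (Finset E) := G.powerset.filter fun F =>
    ∀ a ∈ F, ∀ b ∈ F, a ≠ b → ¬ near a b
  have hP : P.Nonempty := ⟨∅, by
    rw [Finset.mem_filter]
    exact ⟨Finset.mem_powerset.2 (Finset.empty_subset G), fun a ha => by simp at ha⟩⟩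
  obtain ⟨F, hF, hmax⟩ := P.exists_max_image Finset.card hP
  rw [Finset.mem_filter, Finset.mem_powerset] at hF
  refine ⟨F, hF.1, ?_, hF.2⟩
  have hcov : G ⊆ F.biUnion S := by
    intro a ha
    rw [Finset.mem_biUnion]
    by_cases haF : a ∈ F
    · exact ⟨a, haF, hS1 a ha a ha (hrefl a ha)⟩
    · by_contra hcon
      have hno : ∀ b ∈ F, ¬ near a b := fun b hb hab =>
        hcon ⟨b, hb, hS1 b (hF.1 hb) a ha hab⟩
      have hins : insert a F ∈ P := by
        rw [Finset.mem_filter, Finset.mem_powerset]
        refine ⟨Finset.insert_subset ha hF.1, fun x hx y hy hxy hnear => ?_⟩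
        rw [Finset.mem_insert] at hx hy
        rcases hx with rfl | hx
        · rcases hy with rfl | hy
          · exact hxy rfl
          · exact hno y hy hnear
        · rcases hy with rfl | hy
          · exact hno x hx (hsymm _ _ hnear)
          · exact hF.2 x hx y hy hxy hnear
      have h1 := hmax _ hins
      rw [Finset.card_insert_of_notMem haF] at h1
      omega
  have h1 : G.card ≤ ∑ b ∈ F, (S b).card :=
    (Finset.card_le_card hcov).trans Finset.card_biUnion_le
  calc (G.card : ℝ) ≤ ((∑ b ∈ F, (S b).card : ℕ) : ℝ) := by exact_mod_cast h1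
    _ = ∑ b ∈ F, ((S b).card : ℝ) := by push_cast; rfl
    _ ≤ ∑ _b ∈ F, K := Finset.sum_le_sum fun b hb => hS2 b (hF.1 hb)
    _ = F.card * K := by rw [Finset.sum_const, nsmul_eq_mul]

end

end Pool.Agent.KW
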