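import Pool.Agent.KW.Stmts

set_option autoImplicit false
set_option linter.unusedSectionVars false

/-!
# KW, module SGNM: exponential moments of the square of a sum of random signs
-/

open MeasureTheory
open scoped BigOperators

namespace Pool.Agent.KW

noncomputable section

namespace SGNM_

variable {ι : Type} [Fintype ι] [DecidableEq ι]

/-- flip the sign with index `a` -/
def flip (a : ι) : (ι → Bool) ≃ (ι → Bool) where
  toFun ε := Function.update ε a (!(ε a))
  invFun ε := Function.update ε a (!(ε a))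
  left_inv ε := by
    funext i
    by_cases h : i = a
    · subst h; simp
    · simp [h]
  right_inv ε := by
    funext i
    by_cases h : i = a
    · subst h; simp
    · simp [h]

theorem sgn_not (b : Bool) : sgn (!b) = -sgn b := by
  cases b <;> simp [sgn]

theorem sgn_sq (b : Bool) : sgn b ^ 2 = 1 := by
  cases b <;> simp [sgn]

theorem flip_self (a : ι) (ε : ι → Bool) : flip a ε a = !(ε a) := by
  simp [flip]

theorem flip_ne (a : ι) (ε : ι → Bool) {i : ι} (h : i ≠ a) : flip a ε i = ε i := by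
  simp [flip, h]

theorem sum_sgn_mul (a : ι) (g : (ι → Bool) → ℝ) (hg : ∀ ε, g (flip a ε) = g ε) :
    ∑ ε : ι → Bool, sgn (ε a) * g ε = 0 := by
  have h := Equiv.sum_comp (flip a) (fun ε => sgn (ε a) * g ε)
  simp only [hg, flip_self, sgn_not, neg_mul, Finset.sum_neg_distrib] at h
  linarith

/-- the partial sum -/
def PS (w : ι → ℝ) (s : Finset ι) (ε : ι → Bool) : ℝ := ∑ i ∈ s, sgn (ε i) * w i

theorem PS_flip (w : ι → ℝ) (s : Finset ι) {a : ι} (ha : a ∉ s) (ε : ι → Bool) :
    PS w s (flip a ε) = PS w s ε := by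
  refine Finset.sum_congr rfl fun i hi => ?_
  rw [flip_ne a ε (fun h => ha (h ▸ hi))]

theorem PS_insert (w : ι → ℝ) (s : Finset ι) {a : ι} (ha : a ∉ s) (ε : ι → Bool) :
    PS w (insert a s) ε = sgn (ε a) * w a + PS w s ε := by
  unfold PS
  rw [Finset.sum_insert ha]

theorem m2 (w : ι → ℝ) (s : Finset ι) :
    ∑ ε : ι → Bool, PS w s ε ^ 2 = (Fintype.card (ι → Bool) : ℝ) * ∑ i ∈ s, w i ^ 2 := by
  induction s using Finset.induction_on with
  | empty => simp [PS]
  | insert a s ha ih =>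
    have h : ∀ ε : ι → Bool, PS w (insert a s) ε ^ 2 =
        w a ^ 2 + 2 * w a * (sgn (ε a) * PS w s ε) + PS w s ε ^ 2 := by
      intro ε
      rw [PS_insert w s ha]
      linear_combination (w a ^ 2) * sgn_sq (ε a)
    simp only [h, Finset.sum_add_distrib, ← Finset.mul_sum]
    rw [sum_sgn_mul a _ (PS_flip w s ha), ih, Finset.sum_insert ha]
    simp only [Finset.sum_const, Finset.card_univ, nsmul_eq_mul]
    ring

theorem m4 (w : ι → ℝ) (s : Finset ι) :
    ∑ ε : ι → Bool, PS w s ε ^ 4 ≤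
      (Fintype.card (ι → Bool) : ℝ) * (3 * (∑ i ∈ s, w i ^ 2) ^ 2) := by
  induction s using Finset.induction_on with
  | empty => simp [PS]
  | insert a s ha ih =>
    have h : ∀ ε : ι → Bool, PS w (insert a s) ε ^ 4 =
        w a ^ 4 + 4 * w a ^ 3 * (sgn (ε a) * PS w s ε) + 6 * w a ^ 2 * PS w s ε ^ 2 +
        4 * w a * (sgn (ε a) * PS w s ε ^ 3) + PS w s ε ^ 4 := by
      intro ε
      rw [PS_insert w s ha]
      linear_combination (w a ^ 4 * (sgn (ε a) ^ 2 + 1) + 4 * w a ^ 3 * sgn (ε a) * PS w s ε +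
        6 * w a ^ 2 * PS w s ε ^ 2) * sgn_sq (ε a)
    simp only [h, Finset.sum_add_distrib, ← Finset.mul_sum]
    rw [sum_sgn_mul a _ (PS_flip w s ha),
      sum_sgn_mul a (fun ε => PS w s ε ^ 3) (fun ε => by rw [PS_flip w s ha]), m2,
      Finset.sum_insert ha]
    simp only [Finset.sum_const, Finset.card_univ, nsmul_eq_mul]
    have hN : (0 : ℝ) ≤ (Fintype.card (ι → Bool) : ℝ) := Nat.cast_nonneg _
    nlinarith [mul_nonneg hN (sq_nonneg (w a ^ 2)), ih]

theorem exp_low (y : ℝ) (hy : 0 ≤ y) : Real.exp (-y) ≤ 1 - y + y ^ 2 / 2 := by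
  have h1 := Real.quadratic_le_exp_of_nonneg hy
  have h2 : 0 < 1 + y + y ^ 2 / 2 := by positivity
  rw [Real.exp_neg, inv_le_comm₀ (Real.exp_pos y) (by nlinarith [sq_nonneg (y - 1)])]
  refine le_trans ?_ h1
  rw [inv_le_comm₀ (by nlinarith [sq_nonneg (y - 1)]) h2]
  rw [inv_le_iff_one_le_mul₀ h2]
  nlinarith [sq_nonneg y, sq_nonneg (y ^ 2)]

/-- the exponential moment -/
theorem mexp (w : ι → ℝ) (hw : ∑ i, w i ^ 2 = 1) (x : ℝ) :
    ∑ ε : ι → Bool, Real.exp (x * ∑ i, sgn (ε i) * w i) ≤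
      (Fintype.card (ι → Bool) : ℝ) * Real.exp (x ^ 2 / 2) := by
  have h1 : ∑ ε : ι → Bool, Real.exp (x * ∑ i, sgn (ε i) * w i) =
      ∏ i : ι, ∑ b : Bool, Real.exp (x * (sgn b * w i)) := by
    rw [Finset.prod_univ_sum, Fintype.piFinset_univ]
    refine Finset.sum_congr rfl fun ε _ => ?_
    rw [Finset.mul_sum, Real.exp_sum]
  have h2 : ∀ i : ι, ∑ b : Bool, Real.exp (x * (sgn b * w i)) ≤
      2 * Real.exp (x ^ 2 / 2 * w i ^ 2) := by
    intro i
    have h3 := Real.cosh_le_exp_half_sq (x * w i)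
    rw [Real.cosh_eq] at h3
    have h4 : ∑ b : Bool, Real.exp (x * (sgn b * w i)) =
        Real.exp (x * w i) + Real.exp (-(x * w i)) := by
      rw [Fintype.sum_bool]
      simp [sgn]
    rw [h4]
    have h5 : (x * w i) ^ 2 / 2 = x ^ 2 / 2 * w i ^ 2 := by ring
    rw [h5] at h3
    linarith
  rw [h1]
  refine (Finset.prod_le_prod (fun i _ => Finset.sum_nonneg fun b _ => (Real.exp_pos _).le)
    (fun i _ => h2 i)).trans (le_of_eq ?_)
  rw [Finset.prod_mul_distrib, ← Real.exp_sum, ← Finset.mul_sum, hw, mul_one]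
  simp

theorem gauss (S : ℝ) : Integrable (fun x : ℝ => Real.exp (-x ^ 2) * Real.exp (x * S)) ∧
    ∫ x : ℝ, Real.exp (-x ^ 2) * Real.exp (x * S) = Real.sqrt Real.pi * Real.exp (S ^ 2 / 4) := by
  have h0 : ∀ x : ℝ, Real.exp (-x ^ 2) * Real.exp (x * S) =
      Real.exp (S ^ 2 / 4) * Real.exp (-1 * (x - S / 2) ^ 2) := by
    intro x
    rw [← Real.exp_add, ← Real.exp_add]
    congr 1
    ring
  have hi := (integrable_exp_neg_mul_sq (b := 1) one_pos).comp_sub_right (S / 2)
  have hg := integral_gaussian 1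
  rw [div_one] at hg
  constructor
  · simp only [h0]
    exact hi.const_mul _
  · simp only [h0]
    rw [integral_const_mul,
      integral_sub_right_eq_self (fun x : ℝ => Real.exp (-1 * x ^ 2)) (S / 2), hg, mul_comm]

end SGNM_

open SGNM_ in
theorem sgnm_proof : Stmt_SgnM := by
  intro ι _ _ w hw
  have hN : (0 : ℝ) < (Fintype.card (ι → Bool) : ℝ) := by
    exact_mod_cast Fintype.card_pos
  constructor
  · unfold avg
    rw [div_le_iff₀ hN]
    have h2 := m2 w Finset.univ
    have h4 := m4 w Finset.univ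
    rw [hw] at h2 h4
    have h5 : ∀ ε : ι → Bool, Real.exp (-((∑ i, sgn (ε i) * w i) ^ 2 / 4)) ≤
        1 - PS w Finset.univ ε ^ 2 / 4 + PS w Finset.univ ε ^ 4 / 32 := by
      intro ε
      have h6 := exp_low (PS w Finset.univ ε ^ 2 / 4) (by positivity)
      refine h6.trans (le_of_eq ?_)
      ring
    refine (Finset.sum_le_sum fun ε _ => h5 ε).trans ?_
    rw [Finset.sum_add_distrib, Finset.sum_sub_distrib, ← Finset.sum_div, ← Finset.sum_div, h2]
    simp only [Finset.sum_const, Finset.card_univ, nsmul_eq_mul]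
    linarith
  · unfold avg
    rw [div_le_iff₀ hN]
    have hpi : 0 < Real.sqrt Real.pi := Real.sqrt_pos.2 Real.pi_pos
    have e1 : Real.sqrt Real.pi * ∑ ε : ι → Bool, Real.exp ((∑ i, sgn (ε i) * w i) ^ 2 / 4) =
        ∫ x : ℝ, ∑ ε : ι → Bool, Real.exp (-x ^ 2) * Real.exp (x * ∑ i, sgn (ε i) * w i) := by
      rw [integral_finsetSum _ fun ε _ => (gauss _).1, Finset.mul_sum]
      exact Finset.sum_congr rfl fun ε _ => (gauss _).2.symm
    have hint : Integrable (fun x : ℝ => (Fintype.card (ι → Bool) : ℝ) *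
        Real.exp (-(1 / 2) * x ^ 2)) :=
      (integrable_exp_neg_mul_sq (by norm_num : (0 : ℝ) < 1 / 2)).const_mul _
    have e2 : ∫ x : ℝ, ∑ ε : ι → Bool, Real.exp (-x ^ 2) * Real.exp (x * ∑ i, sgn (ε i) * w i) ≤
        ∫ x : ℝ, (Fintype.card (ι → Bool) : ℝ) * Real.exp (-(1 / 2) * x ^ 2) := by
      refine integral_mono (integrable_finsetSum _ fun ε _ => (gauss _).1) hint fun x => ?_
      show ∑ ε : ι → Bool, Real.exp (-x ^ 2) * Real.exp (x * ∑ i, sgn (ε i) * w i) ≤
        (Fintype.card (ι → Bool) : ℝ) * Real.exp (-(1 / 2) * x ^ 2)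
      rw [← Finset.mul_sum]
      refine (mul_le_mul_of_nonneg_left (mexp w hw x) (Real.exp_pos _).le).trans (le_of_eq ?_)
      rw [mul_left_comm, ← Real.exp_add]
      congr 2
      ring
    have e3 : ∫ x : ℝ, (Fintype.card (ι → Bool) : ℝ) * Real.exp (-(1 / 2) * x ^ 2) =
        (Fintype.card (ι → Bool) : ℝ) * (Real.sqrt 2 * Real.sqrt Real.pi) := by
      rw [integral_const_mul, integral_gaussian, ← Real.sqrt_mul (by norm_num)]
      congr 2
      ring
    rw [← e1, e3] at e2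
    have h2 : Real.sqrt 2 ≤ 2 := by
      rw [Real.sqrt_le_left (by norm_num)]
      norm_num
    have h6 : Real.sqrt Real.pi * ∑ ε : ι → Bool, Real.exp ((∑ i, sgn (ε i) * w i) ^ 2 / 4) ≤
        Real.sqrt Real.pi * (2 * (Fintype.card (ι → Bool) : ℝ)) := by
      refine e2.trans ?_
      nlinarith [mul_nonneg hN.le hpi.le, mul_le_mul_of_nonneg_left h2 (mul_nonneg hN.le hpi.le)]
    exact le_of_mul_le_mul_left h6 hpi

end

end Pool.Agent.KW
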