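import Pool.Agent.KW.Stmts

set_option autoImplicit false

/-!
# KW, module SUPN: the norm in `L_∞` of a continuous function is the sup norm
-/

open MeasureTheory
open scoped BigOperators ENNReal

namespace Pool.Agent.KW

noncomputable section

theorem supn_proof : Stmt_SupN := by
  intro d f
  have hcoe : (toL f : Tor d → ℝ) =ᵐ[mu d] f := ContinuousMap.coeFn_toLp (mu d) f
  haveI : (mu d).IsOpenPosMeasure := by unfold mu; infer_instance
  refine le_antisymm ?_ ?_
  · have h1 := Lp.norm_le_of_ae_bound (μ := mu d) (p := ⊤) (f := toL f) (norm_nonneg f) (by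
      filter_upwards [hcoe] with x hx
      rw [hx]; exact f.norm_coe_le_norm x)
    simpa using h1
  · rw [ContinuousMap.norm_le _ (norm_nonneg _)]
    have h2 : ∀ᵐ x ∂(mu d), ‖(toL f : Tor d → ℝ) x‖ ≤ ‖toL f‖ := by
      have h3 := ae_le_eLpNormEssSup (f := (toL f : Tor d → ℝ)) (μ := mu d)
      filter_upwards [h3] with x hx
      rw [Lp.norm_def, eLpNorm_exponent_top]
      have h4 : eLpNormEssSup (toL f : Tor d → ℝ) (mu d) ≠ ⊤ := by
        rw [← eLpNorm_exponent_top]; exact Lp.eLpNorm_ne_top _
      have h5 := ENNReal.toReal_mono h4 hx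
      simpa using h5
    have h6 : (mu d) {x | ‖toL f‖ < ‖f x‖} = 0 := by
      have h7 : ∀ᵐ x ∂(mu d), ‖f x‖ ≤ ‖toL f‖ := by
        filter_upwards [h2, hcoe] with x h1 h2
        rw [← h2]; exact h1
      have h8 := ae_iff.mp h7
      simpa only [not_le] using h8
    have hopen : IsOpen {x | ‖toL f‖ < ‖f x‖} :=
      isOpen_lt continuous_const f.continuous.norm
    rw [hopen.measure_eq_zero_iff (μ := mu d)] at h6
    intro x
    by_contra hx
    have : x ∈ ({x | ‖toL f‖ < ‖f x‖} : Set (Tor d)) := not_le.mp hx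
    rw [h6] at this
    exact this

end

end Pool.Agent.KW
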