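import Pool.Agent.KW.Stmts

set_option autoImplicit false

/-!
# KW, module UNIQ: uniqueness of the Fourier coefficients
-/

open MeasureTheory
open scoped BigOperators ENNReal Topology

namespace Pool.Agent.KW

noncomputable section

namespace UNIQ_

variable {d : ℕ}

theorem int_mul {h : Tor d → ℝ} (hh : Integrable h (mu d)) (F : C(Tor d, ℂ)) :
    Integrable (fun x => F x * (h x : ℂ)) (mu d) := by
  refine (hh.ofReal (𝕜 := ℂ)).bdd_mul (c := ‖F‖) F.continuous.aestronglyMeasurable ?_
  exact Filter.Eventually.of_forall fun x => F.norm_coe_le_norm x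

/-- Integration against `h`. -/
def Lam (h : Tor d → ℝ) (hh : Integrable h (mu d)) : C(Tor d, ℂ) →L[ℂ] ℂ :=
  LinearMap.mkContinuous
    { toFun := fun F => ∫ x, F x * (h x : ℂ) ∂(mu d)
      map_add' := by
        intro F G
        rw [← integral_add (int_mul hh F) (int_mul hh G)]
        congr 1
        funext x
        rw [ContinuousMap.add_apply]
        ring
      map_smul' := by
        intro c F
        rw [RingHom.id_apply, smul_eq_mul, ← integral_const_mul]
        congr 1
        funext x
        rw [ContinuousMap.smul_apply, smul_eq_mul]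
        ring } (∫ x, ‖h x‖ ∂(mu d)) (by
    intro F
    change ‖∫ x, F x * (h x : ℂ) ∂(mu d)‖ ≤ (∫ x, ‖h x‖ ∂(mu d)) * ‖F‖
    refine (norm_integral_le_integral_norm _).trans ?_
    rw [← integral_mul_const]
    refine integral_mono (int_mul hh F).norm (hh.norm.mul_const _) ?_
    intro x
    change ‖F x * (h x : ℂ)‖ ≤ ‖h x‖ * ‖F‖
    rw [norm_mul, Complex.norm_real, mul_comm]
    exact mul_le_mul_of_nonneg_left (F.norm_coe_le_norm x) (norm_nonneg _))

theorem Lam_apply (h : Tor d → ℝ) (hh : Integrable h (mu d)) (F : C(Tor d, ℂ)) :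
    Lam h hh F = ∫ x, F x * (h x : ℂ) ∂(mu d) := rfl

theorem Lam_zero {h : Tor d → ℝ} (hh : Integrable h (mu d))
    (h0 : ∀ n : Fin d → ℤ, ∫ x, ch n x * (h x : ℂ) ∂(mu d) = 0) (F : C(Tor d, ℂ)) :
    Lam h hh F = 0 := by
  have h1 : (Submodule.span ℂ (Set.range (UnitAddTorus.mFourier (d := Fin d)))) ≤
      (Lam h hh).toLinearMap.ker := by
    rw [Submodule.span_le]
    rintro _ ⟨n, rfl⟩
    exact h0 n
  have h2 : F ∈ (Submodule.span ℂ
      (Set.range (UnitAddTorus.mFourier (d := Fin d)))).topologicalClosure := by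
    rw [UnitAddTorus.span_mFourier_closure_eq_top]
    exact Submodule.mem_top
  have h3 := Submodule.topologicalClosure_minimal _ h1 (Lam h hh).isClosed_ker
  exact h3 h2

theorem closed_zero {h : Tor d → ℝ} (hh : Integrable h (mu d))
    (h0 : ∀ n : Fin d → ℤ, ∫ x, ch n x * (h x : ℂ) ∂(mu d) = 0) (A : Set (Tor d))
    (hA : IsClosed A) : ∫ x in A, h x ∂(mu d) = 0 := by
  have hδ : ∀ n : ℕ, (0 : ℝ) < 1 / ((n : ℝ) + 1) := fun n => by positivity
  have hlim := tendsto_one_div_add_atTop_nhds_zero_nat (𝕜 := ℝ)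
  have key := thickenedIndicator_tendsto_indicator_closure hδ hlim A
  rw [tendsto_pi_nhds, hA.closure_eq] at key
  have hz : ∀ n : ℕ, ∫ x, ((thickenedIndicator (hδ n) A x : NNReal) : ℝ) * h x ∂(mu d) = 0 := by
    intro n
    have h1 := Lam_zero hh h0
      ⟨fun x => (((thickenedIndicator (hδ n) A x : NNReal) : ℝ) : ℂ), by
        exact Complex.continuous_ofReal.comp (NNReal.continuous_coe.comp
          (thickenedIndicator (hδ n) A).continuous)⟩
    rw [Lam_apply] at h1
    have h2 : ∫ x, ((((thickenedIndicator (hδ n) A x : NNReal) : ℝ) * h x : ℝ) : ℂ) ∂(mu d) =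
        0 := by
      rw [← h1]
      congr 1
      funext x
      rw [Complex.ofReal_mul]
      rfl
    rw [integral_complex_ofReal] at h2
    exact_mod_cast h2
  have ht : Filter.Tendsto
      (fun n : ℕ => ∫ x, ((thickenedIndicator (hδ n) A x : NNReal) : ℝ) * h x ∂(mu d))
      Filter.atTop (𝓝 (∫ x, A.indicator (fun _ => (1 : ℝ)) x * h x ∂(mu d))) := by
    refine tendsto_integral_of_dominated_convergence (fun x => ‖h x‖) ?_ hh.norm ?_ ?_
    · intro n
      exact (NNReal.continuous_coe.comp
        (thickenedIndicator (hδ n) A).continuous).aestronglyMeasurable.mul hh.1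
    · intro n
      refine Filter.Eventually.of_forall fun x => ?_
      rw [norm_mul, Real.norm_eq_abs, abs_of_nonneg (NNReal.coe_nonneg _)]
      have h1 : ((thickenedIndicator (hδ n) A x : NNReal) : ℝ) ≤ 1 :=
        NNReal.coe_le_one.2 (thickenedIndicator_le_one (hδ n) A x)
      exact (mul_le_mul_of_nonneg_right h1 (norm_nonneg _)).trans_eq (one_mul _)
    · refine Filter.Eventually.of_forall fun x => ?_
      refine Filter.Tendsto.mul_const _ ?_
      have h1 := (NNReal.continuous_coe.tendsto _).comp (key x)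
      have h2 : ((A.indicator (fun _ => (1 : NNReal)) x : NNReal) : ℝ) =
          A.indicator (fun _ => (1 : ℝ)) x := by
        by_cases hx : x ∈ A
        · rw [Set.indicator_of_mem hx, Set.indicator_of_mem hx]
          rfl
        · rw [Set.indicator_of_notMem hx, Set.indicator_of_notMem hx]
          rfl
      rw [← h2]
      exact h1
  simp only [hz] at ht
  have h3 := tendsto_nhds_unique ht tendsto_const_nhds
  rw [← integral_indicator hA.measurableSet, ← h3]
  congr 1
  funext x
  by_cases hx : x ∈ A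
  · rw [Set.indicator_of_mem hx, Set.indicator_of_mem hx, one_mul]
  · rw [Set.indicator_of_notMem hx, Set.indicator_of_notMem hx, zero_mul]

end UNIQ_

open UNIQ_ in
theorem uniq_proof : Stmt_Uniq := by
  intro d f g hf hg hfg
  have hh : Integrable (fun x => f x - g x) (mu d) := hf.sub hg
  have h0 : ∀ n : Fin d → ℤ, ∫ x, ch n x * ((f x - g x : ℝ) : ℂ) ∂(mu d) = 0 := by
    intro n
    have h1 := hfg (-n)
    unfold coef at h1
    rw [neg_neg] at h1
    have i1 : Integrable (fun x => ch n x * (f x : ℂ)) (mu d) :=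
      int_mul hf (UnitAddTorus.mFourier n)
    have i2 : Integrable (fun x => ch n x * (g x : ℂ)) (mu d) :=
      int_mul hg (UnitAddTorus.mFourier n)
    rw [← sub_eq_zero, ← integral_sub i1 i2] at h1
    rw [← h1]
    congr 1
    funext x
    rw [Complex.ofReal_sub]
    ring
  have h2 := ae_eq_zero_of_forall_setIntegral_isClosed_eq_zero hh (closed_zero hh h0)
  filter_upwards [h2] with x hx
  have : f x - g x = 0 := hx
  linarith

end

end Pool.Agent.KW
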