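import Pool.Agent.KW.Stmts

set_option autoImplicit false

/-! # KW, module UPA: the layers up to n + J -/

open MeasureTheory
open scoped BigOperators ENNReal

namespace Pool.Agent.KW

noncomputable section

namespace UPA_

/-- The real part of a character. -/
def reCh {d : ℕ} (k : Fin d → ℤ) : C(Tor d, ℝ) :=
  ⟨fun x => (ch k x).re, Complex.continuous_re.comp (ch_continuous k)⟩

/-- The imaginary part of a character. -/
def imCh {d : ℕ} (k : Fin d → ℤ) : C(Tor d, ℝ) :=
  ⟨fun x => (ch k x).im, Complex.continuous_im.comp (ch_continuous k)⟩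

/-- The span of the real and imaginary parts. -/
theorem exists_span {d : ℕ} (T : Finset (Fin d → ℤ)) :
    ∃ U : Submodule ℝ C(Tor d, ℝ), FiniteDimensional ℝ U ∧ Module.finrank ℝ U ≤ 2 * T.card ∧
      (∀ k ∈ T, reCh k ∈ U) ∧ ∀ k ∈ T, imCh k ∈ U := by
  classical
  refine ⟨Submodule.span ℝ ((T.image reCh ∪ T.image imCh : Finset C(Tor d, ℝ)) :
    Set C(Tor d, ℝ)), FiniteDimensional.span_finset ℝ _, ?_, fun k hk => ?_, fun k hk => ?_⟩
  · refine (finrank_span_finset_le_card _).trans ((Finset.card_union_le _ _).trans ?_)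
    have h1 : (T.image reCh : Finset C(Tor d, ℝ)).card ≤ T.card := Finset.card_image_le
    have h2 : (T.image imCh : Finset C(Tor d, ℝ)).card ≤ T.card := Finset.card_image_le
    omega
  · refine Submodule.subset_span ?_
    rw [Finset.mem_coe, Finset.mem_union]
    exact Or.inl (Finset.mem_image_of_mem _ hk)
  · refine Submodule.subset_span ?_
    rw [Finset.mem_coe, Finset.mem_union]
    exact Or.inr (Finset.mem_image_of_mem _ hk)

/-- A layer as a combination of real and imaginary parts. -/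
theorem pl_eq {d : ℕ} (r α : ℝ) (l : ℕ) (φ : Tor d → ℝ) :
    pl d r α l φ = ∑ k ∈ Box d (2 ^ (l + 1)),
      ((lm d r α l k * coef (fun x => (φ x : ℂ)) k).re • reCh k -
        (lm d r α l k * coef (fun x => (φ x : ℂ)) k).im • imCh k) := by
  ext x
  rw [ContinuousMap.sum_apply]
  change (∑ n ∈ Box d (2 ^ (l + 1)), lm d r α l n * coef (fun x => (φ x : ℂ)) n * ch n x).re = _
  rw [Complex.re_sum]
  refine Finset.sum_congr rfl fun k _ => ?_
  rw [Complex.mul_re]
  rfl

theorem pl_mem {d : ℕ} (r α : ℝ) (l : ℕ) (φ : Tor d → ℝ) (T : Finset (Fin d → ℤ))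
    (U : Submodule ℝ C(Tor d, ℝ)) (hre : ∀ k ∈ T, reCh k ∈ U) (him : ∀ k ∈ T, imCh k ∈ U)
    (hT : ∀ k, lm d r α l k ≠ 0 → k ∈ T) : pl d r α l φ ∈ U := by
  rw [pl_eq]
  refine Submodule.sum_mem _ fun k _ => ?_
  by_cases h : lm d r α l k = 0
  · rw [h, zero_mul]
    simp only [Complex.zero_re, Complex.zero_im, zero_smul, sub_zero]
    exact U.zero_mem
  · have hk := hT k h
    exact U.sub_mem (U.smul_mem _ (hre k hk)) (U.smul_mem _ (him k hk))

theorem box_mono {d D D' : ℕ} (h : D ≤ D') : Box d D ⊆ Box d D' := by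
  intro k hk
  unfold Box at *
  rw [Fintype.mem_piFinset] at *
  intro i
  have := hk i
  rw [Finset.mem_Icc] at *
  have h' : (D : ℤ) ≤ D' := by exact_mod_cast h
  exact ⟨by linarith [this.1], by linarith [this.2]⟩

/-- The sum of the upper layers. -/
theorem sum_pl (hA : Stmt_LmA) {d : ℕ} (r α : ℝ) (n h : ℕ) (φ : Tor d → ℝ) (x : Tor d) :
    (∑ l ∈ Finset.Ico n h, pl d r α l φ) x =
      (∑ k ∈ Box d (2 ^ h), (∑ l ∈ Finset.Ico n h, lm d r α l k) *
        coef (fun x => (φ x : ℂ)) k * ch k x).re := by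
  rw [ContinuousMap.sum_apply]
  have h1 : ∀ l ∈ Finset.Ico n h, pl d r α l φ x =
      (∑ k ∈ Box d (2 ^ h), lm d r α l k * coef (fun x => (φ x : ℂ)) k * ch k x).re := by
    intro l hl
    rw [Finset.mem_Ico] at hl
    change (∑ n ∈ Box d (2 ^ (l + 1)), lm d r α l n * coef (fun x => (φ x : ℂ)) n * ch n x).re = _
    congr 1
    refine Finset.sum_subset (box_mono (Nat.pow_le_pow_right (by norm_num) hl.2)) ?_
    intro k _ hk
    have h2 : lm d r α l k = 0 := by
      by_contra hne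
      exact hk (hA.2 d r α l k hne)
    rw [h2, zero_mul, zero_mul]
  rw [Finset.sum_congr rfl h1, ← Complex.re_sum, Finset.sum_comm]
  congr 1
  refine Finset.sum_congr rfl fun k _ => ?_
  rw [Finset.sum_mul, Finset.sum_mul]

theorem Jn_le (d n : ℕ) : Jn d n ≤ (2 * d - 3) * n := by
  unfold Jn
  exact Nat.mul_le_mul le_rfl (Nat.log_le_self 2 n)

/-- The number of shapes grows slowly. -/
theorem Ln_le (hC : Stmt_Card) {d n j : ℕ} (hd : 2 ≤ d) (hj : j ≤ Jn d n) :
    (Ln d (n + j) : ℝ) ≤ (2 * (d : ℝ)) ^ (d - 1) * (Nat.factorial (d - 1) : ℝ) * Ln d n := by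
  have h1 := (hC d (n + j) (by omega)).2.1
  have h2 := (hC d n (by omega)).1
  have h3 : (((n + j : ℕ) : ℝ) + 1) ≤ 2 * (d : ℝ) * ((n : ℝ) + 1) := by
    have h4 := Jn_le d n
    have h5 : n + j + 1 ≤ 2 * d * (n + 1) := by
      have h6 : (2 * d - 3) * n ≤ 2 * d * n - n := by
        have : (2 * d - 3) * n ≤ (2 * d - 1) * n := Nat.mul_le_mul (by omega) le_rfl
        rw [Nat.sub_mul, Nat.sub_mul] at *
        omega
      have h7 : n ≤ 2 * d * n := by nlinarith
      have h8 : 2 * d * (n + 1) = 2 * d * n + 2 * d := by ring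
      omega
    have := (Nat.cast_le (α := ℝ)).2 h5
    push_cast at this ⊢
    linarith
  refine h1.trans ?_
  calc (((n + j : ℕ) : ℝ) + 1) ^ (d - 1) ≤ (2 * (d : ℝ) * ((n : ℝ) + 1)) ^ (d - 1) := by
        exact pow_le_pow_left₀ (by positivity) h3 _
    _ = (2 * (d : ℝ)) ^ (d - 1) * ((n : ℝ) + 1) ^ (d - 1) := mul_pow _ _ _
    _ ≤ (2 * (d : ℝ)) ^ (d - 1) * ((Nat.factorial (d - 1) : ℝ) * Ln d n) := by
        exact mul_le_mul_of_nonneg_left h2 (by positivity)
    _ = _ := by ring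

end UPA_

open UPA_ in
theorem upa_proof (h1 : Stmt_WidT) (h2 : Stmt_LmA) (h3 : Stmt_LmB) (h4 : Stmt_LmC)
    (h5 : Stmt_Card) : Stmt_UpA := by
  intro d r α hd hr
  obtain ⟨CW, hCW, hW⟩ := h1 d
  obtain ⟨CB, hCB, hB⟩ := h3 d r α
  obtain ⟨CC, hCC, hC⟩ := h4 d (by omega)
  set C3 : ℝ := (2 * (d : ℝ)) ^ (d - 1) * (Nat.factorial (d - 1) : ℝ) with hC3
  have hd0 : (2 : ℝ) ≤ d := by exact_mod_cast hd
  have hC3pos : 0 < C3 := by
    rw [hC3]
    have : 0 < (Nat.factorial (d - 1) : ℝ) := by exact_mod_cast Nat.factorial_pos _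
    have h' : 0 < 2 * (d : ℝ) := by linarith
    positivity
  set K : ℝ := (2 * (d : ℝ)) * (CB * C3) with hK
  have hKpos : 0 < K := by
    rw [hK]
    have h' : 0 < 2 * (d : ℝ) := by linarith
    positivity
  refine ⟨2 * CC + 1 + CW * Real.sqrt K, by positivity, fun n hn m hm => ?_⟩
  obtain ⟨T, hTc, hT⟩ := hC n
  obtain ⟨U₁, hU₁f, hU₁r, hre, him⟩ := exists_span T
  obtain ⟨U₂, hU₂f, hU₂r, hU₂⟩ := hW (n + Jn d n + 1)
    (fun k => ∑ l ∈ Finset.Ico n (n + Jn d n + 1), lm d r α l k) (2 ^ n * Ln d n)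
  have hLn : 1 ≤ (Ln d n : ℝ) := by
    have hc := (h5 d n (by omega)).1
    have h0 : Ln d n ≠ 0 := by
      intro h0
      rw [h0] at hc
      have : 0 < ((n : ℝ) + 1) ^ (d - 1) := by positivity
      simp only [Nat.cast_zero, mul_zero] at hc
      linarith
    exact_mod_cast Nat.one_le_iff_ne_zero.2 h0
  have hX : 0 < (2 : ℝ) ^ n * Ln d n := by positivity
  refine ⟨U₁ ⊔ U₂, Submodule.finiteDimensional_sup U₁ U₂, ?_, fun φ hφ hφ1 => ?_⟩
  · have e1 := Submodule.finrank_add_le_finrank_add_finrank U₁ U₂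
    have e2 : ((2 * T.card + 2 ^ n * Ln d n : ℕ) : ℝ) ≤ m := by
      push_cast
      have : 0 ≤ CW * Real.sqrt K * ((2 : ℝ) ^ n * Ln d n) := by positivity
      nlinarith
    have e3 : 2 * T.card + 2 ^ n * Ln d n ≤ m := by exact_mod_cast e2
    omega
  · obtain ⟨u₂, hu₂, hu₂x⟩ := hU₂ φ hφ hφ1
    refine ⟨∑ l ∈ Finset.range n, pl d r α l φ + u₂, ?_, ?_⟩
    · refine Submodule.add_mem_sup ?_ hu₂
      refine Submodule.sum_mem _ fun l hl => ?_
      exact pl_mem r α l φ T U₁ hre him (fun k hk => hT r α l k (Finset.mem_range.1 hl) hk)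
    · have hTh : 0 ≤ Th d r n := by
        unfold Th
        positivity
      have hsplit : ∑ l ∈ Finset.range (n + Jn d n + 1), pl d r α l φ =
          ∑ l ∈ Finset.range n, pl d r α l φ +
            ∑ l ∈ Finset.Ico n (n + Jn d n + 1), pl d r α l φ :=
        (Finset.sum_range_add_sum_Ico _ (by omega)).symm
      rw [hsplit, add_sub_add_left_eq_sub, ContinuousMap.norm_le _ (by positivity)]
      intro x
      rw [ContinuousMap.sub_apply, sum_pl h2, Real.norm_eq_abs]
      refine (hu₂x x).trans ?_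
      -- the square sum
      have hsq : ∑ k ∈ Box d (2 ^ (n + Jn d n + 1)),
          ‖∑ l ∈ Finset.Ico n (n + Jn d n + 1), lm d r α l k‖ ^ 2 ≤
          CB * C3 * ((2 : ℝ) ^ ((1 - 2 * r) * (n : ℝ)) * Ln d n * Ssq r (Jn d n)) := by
        refine (hB _ _).trans ?_
        rw [mul_assoc]
        refine mul_le_mul_of_nonneg_left ?_ hCB.le
        rw [Finset.sum_Ico_eq_sum_range]
        have e0 : n + Jn d n + 1 - n = Jn d n + 1 := by omega
        rw [e0]
        have e1 : C3 * ((2 : ℝ) ^ ((1 - 2 * r) * (n : ℝ)) * Ln d n * Ssq r (Jn d n)) =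
            ∑ j ∈ Finset.range (Jn d n + 1), (2 : ℝ) ^ ((1 - 2 * r) * (n : ℝ)) *
              (2 : ℝ) ^ ((1 - 2 * r) * (j : ℝ)) * (C3 * Ln d n) := by
          unfold Ssq
          rw [Finset.mul_sum, Finset.mul_sum]
          refine Finset.sum_congr rfl fun j _ => ?_
          ring
        rw [e1]
        refine Finset.sum_le_sum fun j hj => ?_
        rw [Finset.mem_range] at hj
        have e2 : (2 : ℝ) ^ ((1 - 2 * r) * ((n + j : ℕ) : ℝ)) =
            (2 : ℝ) ^ ((1 - 2 * r) * (n : ℝ)) * (2 : ℝ) ^ ((1 - 2 * r) * (j : ℝ)) := by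
          rw [← Real.rpow_add (by norm_num)]
          congr 1
          push_cast
          ring
        rw [e2]
        refine mul_le_mul_of_nonneg_left ?_ (by positivity)
        exact Ln_le h5 hd (by omega)
      -- the factor with the dimension
      have hh : (((n + Jn d n + 1 : ℕ) : ℝ) + 1) ≤ 2 * (d : ℝ) * n := by
        have e1 := Jn_le d n
        have e2 : n + Jn d n + 1 + 1 ≤ 2 * d * n := by
          have e3 : (2 * d - 3) * n + 3 * n = 2 * d * n := by
            rw [← Nat.add_mul]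
            congr 1
            omega
          omega
        have := (Nat.cast_le (α := ℝ)).2 e2
        push_cast at this ⊢
        linarith
      have hS0 : 0 ≤ Ssq r (Jn d n) := by
        unfold Ssq
        positivity
      have hfin : Real.sqrt ((((n + Jn d n + 1 : ℕ) : ℝ) + 1) / (((2 ^ n * Ln d n : ℕ) : ℝ) + 1)) *
          Real.sqrt (∑ k ∈ Box d (2 ^ (n + Jn d n + 1)),
            ‖∑ l ∈ Finset.Ico n (n + Jn d n + 1), lm d r α l k‖ ^ 2) ≤
          Real.sqrt K * Th d r n := by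
        have e1 : (((n + Jn d n + 1 : ℕ) : ℝ) + 1) / (((2 ^ n * Ln d n : ℕ) : ℝ) + 1) ≤
            2 * (d : ℝ) * n / ((2 : ℝ) ^ n * Ln d n) := by
          push_cast
          push_cast at hh
          refine div_le_div₀ (by positivity) hh hX (by linarith)
        have e2 : Th d r n = Real.sqrt (((2 : ℝ) ^ (-(r * (n : ℝ)))) ^ 2 * n *
            Ssq r (Jn d n)) := by
          unfold Th
          rw [Real.sqrt_mul (by positivity), Real.sqrt_mul (by positivity),
            Real.sqrt_sq (by positivity)]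
        rw [← Real.sqrt_mul (by positivity), e2, ← Real.sqrt_mul hKpos.le]
        refine Real.sqrt_le_sqrt ?_
        refine (mul_le_mul e1 hsq (by positivity) (by positivity)).trans (le_of_eq ?_)
        have e3 : (2 : ℝ) ^ ((1 - 2 * r) * (n : ℝ)) =
            (2 : ℝ) ^ n * ((2 : ℝ) ^ (-(r * (n : ℝ)))) ^ 2 := by
          rw [← Real.rpow_natCast 2 n, ← Real.rpow_natCast _ 2, ← Real.rpow_mul (by norm_num),
            ← Real.rpow_add (by norm_num)]
          congr 1
          push_cast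
          ring
        rw [e3, hK]
        field_simp
      have hCWf : CW * Real.sqrt ((((n + Jn d n + 1 : ℕ) : ℝ) + 1) /
          (((2 ^ n * Ln d n : ℕ) : ℝ) + 1)) *
          Real.sqrt (∑ k ∈ Box d (2 ^ (n + Jn d n + 1)),
            ‖∑ l ∈ Finset.Ico n (n + Jn d n + 1), lm d r α l k‖ ^ 2) ≤
          CW * Real.sqrt K * Th d r n := by
        rw [mul_assoc, mul_assoc]
        exact mul_le_mul_of_nonneg_left hfin hCW.le
      refine hCWf.trans ?_
      have : 0 ≤ (2 * CC + 1) * Th d r n := by positivity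
      linarith

end

end Pool.Agent.KW
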