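import Pool.Agent.KW.Stmts

set_option autoImplicit false

/-!
# KW, module UPB: one layer with truncation
-/

open MeasureTheory
open scoped BigOperators ENNReal

namespace Pool.Agent.KW

noncomputable section

namespace UPB_

theorem norm_ch {d : ℕ} (n : Fin d → ℤ) (x : Tor d) : ‖ch n x‖ = 1 := by
  unfold ch
  rw [norm_prod]
  apply Finset.prod_eq_one
  intro i _
  rw [fourier_apply]; exact Circle.norm_coe _

theorem int_mul {d : ℕ} (n : Fin d → ℤ) (φ : Tor d → ℝ) (h : Integrable φ (mu d)) :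
    Integrable (fun x => ch n x * (φ x : ℂ)) (mu d) := by
  apply h.ofReal.bdd_mul (c := 1)
  · exact (ch_continuous n).aestronglyMeasurable
  · exact Filter.Eventually.of_forall fun x => (norm_ch n x).le

theorem coef_add {d : ℕ} (φ₁ φ₂ : Tor d → ℝ) (h₁ : Integrable φ₁ (mu d))
    (h₂ : Integrable φ₂ (mu d)) (c : ℝ) (n : Fin d → ℤ) :
    coef (fun x => ((φ₁ x + c * φ₂ x : ℝ) : ℂ)) n =
      coef (fun x => (φ₁ x : ℂ)) n + c * coef (fun x => (φ₂ x : ℂ)) n := by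
  unfold coef
  rw [← integral_const_mul, ← integral_add (int_mul _ _ h₁) ((int_mul _ _ h₂).const_mul _)]
  congr 1
  funext x
  push_cast
  ring

theorem pl_add {d : ℕ} (r α : ℝ) (l : ℕ) (φ φ₁ φ₂ : Tor d → ℝ) (h₁ : Integrable φ₁ (mu d))
    (h₂ : Integrable φ₂ (mu d)) (c : ℝ) (h : ∀ x, φ x = φ₁ x + c * φ₂ x) (x : Tor d) :
    pl d r α l φ x = pl d r α l φ₁ x + c * pl d r α l φ₂ x := by
  have h' : φ = fun x => φ₁ x + c * φ₂ x := funext h
  subst h'
  show (∑ n ∈ Box d (2 ^ (l + 1)), lm d r α l n *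
      coef (fun x => ((φ₁ x + c * φ₂ x : ℝ) : ℂ)) n * ch n x).re =
    (∑ n ∈ Box d (2 ^ (l + 1)), lm d r α l n * coef (fun x => (φ₁ x : ℂ)) n * ch n x).re +
      c * (∑ n ∈ Box d (2 ^ (l + 1)), lm d r α l n * coef (fun x => (φ₂ x : ℂ)) n * ch n x).re
  rw [← Complex.re_ofReal_mul, ← Complex.add_re, Finset.mul_sum, ← Finset.sum_add_distrib]
  congr 1
  refine Finset.sum_congr rfl fun n _ => ?_
  rw [coef_add φ₁ φ₂ h₁ h₂ c n]
  ring

/-- The truncation. -/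
def tr (lam t : ℝ) : ℝ := if |t| ≤ lam then t else 0

theorem tr_meas (lam : ℝ) : Measurable (tr lam) := by
  unfold tr
  exact Measurable.ite (measurableSet_le (by fun_prop) measurable_const) measurable_id
    measurable_const

theorem tr_le (lam t : ℝ) (h : 0 ≤ lam) : |tr lam t| ≤ lam := by
  unfold tr
  split_ifs with h1
  · exact h1
  · simpa using h

theorem rest_sq (lam q t : ℝ) (h : 1 ≤ lam) (hq : 2 ≤ q) :
    |t - tr lam t| ^ (2 : ℝ) ≤ lam ^ (2 - q) * |t| ^ q := by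
  have hl : 0 < lam := by linarith
  unfold tr
  split_ifs with h1
  · rw [sub_self, abs_zero, Real.zero_rpow (by norm_num)]
    exact mul_nonneg (Real.rpow_nonneg hl.le _) (Real.rpow_nonneg (abs_nonneg _) _)
  · rw [sub_zero]
    rw [not_le] at h1
    have ht : 0 < |t| := by linarith
    have e1 : |t| ^ (2 : ℝ) = |t| ^ (2 - q) * |t| ^ q := by
      rw [← Real.rpow_add ht]; congr 1; ring
    rw [e1]
    apply mul_le_mul_of_nonneg_right _ (Real.rpow_nonneg (abs_nonneg _) _)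
    exact Real.rpow_le_rpow_of_nonpos hl h1.le (by linarith)

theorem rest_norm {d : ℕ} (q lam : ℝ) (hq : 2 ≤ q) (hl : 1 ≤ lam) (φ : Tor d → ℝ)
    (hφ : eLpNorm φ (ENNReal.ofReal q) (mu d) ≤ 1) :
    eLpNorm (fun x => φ x - tr lam (φ x)) 2 (mu d) ≤ ENNReal.ofReal (lam ^ (1 - q / 2)) := by
  have hl0 : 0 < lam := by linarith
  have hq0 : 0 < q := by linarith
  have e1 : eLpNorm φ (ENNReal.ofReal q) (mu d) =
      (∫⁻ x, ‖φ x‖ₑ ^ q ∂(mu d)) ^ (1 / q) := by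
    rw [eLpNorm_eq_lintegral_rpow_enorm_toReal (by simpa using hq0) ENNReal.ofReal_ne_top,
      ENNReal.toReal_ofReal hq0.le]
  have e2 : ∫⁻ x, ‖φ x‖ₑ ^ q ∂(mu d) ≤ 1 := by
    rw [e1] at hφ
    have := ENNReal.rpow_le_rpow hφ hq0.le
    rwa [← ENNReal.rpow_mul, one_div, inv_mul_cancel₀ hq0.ne', ENNReal.rpow_one,
      ENNReal.one_rpow] at this
  have e3 : ∀ x, ‖φ x - tr lam (φ x)‖ₑ ^ (2 : ℝ) ≤
      ENNReal.ofReal (lam ^ (2 - q)) * ‖φ x‖ₑ ^ q := by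
    intro x
    rw [Real.enorm_eq_ofReal_abs, Real.enorm_eq_ofReal_abs,
      ENNReal.ofReal_rpow_of_nonneg (abs_nonneg _) (by norm_num),
      ENNReal.ofReal_rpow_of_nonneg (abs_nonneg _) hq0.le,
      ← ENNReal.ofReal_mul (Real.rpow_nonneg hl0.le _)]
    exact ENNReal.ofReal_le_ofReal (rest_sq lam q (φ x) hl hq)
  have e4 : ∫⁻ x, ‖φ x - tr lam (φ x)‖ₑ ^ (2 : ℝ) ∂(mu d) ≤ ENNReal.ofReal (lam ^ (2 - q)) := by
    refine (lintegral_mono e3).trans ?_
    rw [lintegral_const_mul' _ _ ENNReal.ofReal_ne_top]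
    exact (mul_le_mul_right e2 _).trans (by rw [mul_one])
  rw [eLpNorm_eq_lintegral_rpow_enorm_toReal (by norm_num) (by norm_num), ENNReal.toReal_ofNat]
  refine (ENNReal.rpow_le_rpow e4 (by norm_num)).trans ?_
  rw [ENNReal.ofReal_rpow_of_nonneg (Real.rpow_nonneg hl0.le _) (by norm_num),
    ← Real.rpow_mul hl0.le]
  apply le_of_eq
  congr 2
  ring

end UPB_

open UPB_ in
theorem upb_proof (h1 : Stmt_WidT) (h2 : Stmt_Cnv) (h3 : Stmt_LayB) (h4 : Stmt_CRep)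
    (h5 : Stmt_LmB) : Stmt_UpB := by
  intro d q r α hd hq hr
  obtain ⟨CW, hCW, hW⟩ := h1 d
  obtain ⟨CB, hCB, hB⟩ := h3 d r α
  obtain ⟨CM, hCM, hM⟩ := h5 d r α
  refine ⟨CB + CW * Real.sqrt (2 * CM), by positivity, fun l m lam hlam => ?_⟩
  obtain ⟨U, hU1, hU2, hU3⟩ := hW (l + 1) (lm d r α l) m
  refine ⟨U, hU1, hU2, fun φ hφ hφ1 => ?_⟩
  have hlam0 : 0 < lam := by linarith
  have hν : 0 < lam ^ (1 - q / 2) := Real.rpow_pos_of_pos hlam0 _
  set ν : ℝ := lam ^ (1 - q / 2) with hνdef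
  have hq1 : (1 : ℝ≥0∞) ≤ ENNReal.ofReal q := by
    rw [← ENNReal.ofReal_one]; exact ENNReal.ofReal_le_ofReal (by linarith)
  have hφi : Integrable φ (mu d) := hφ.integrable hq1
  -- the truncated part
  have m1 : AEStronglyMeasurable (fun x => tr lam (φ x)) (mu d) :=
    ((tr_meas lam).comp_aemeasurable hφ.1.aemeasurable).aestronglyMeasurable
  have b1 : ∀ x, |tr lam (φ x)| ≤ lam := fun x => tr_le lam _ hlam0.le
  have i1 : Integrable (fun x => tr lam (φ x)) (mu d) :=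
    Integrable.of_bound m1 lam (Filter.Eventually.of_forall b1)
  -- the rest
  have m2 : AEStronglyMeasurable (fun x => φ x - tr lam (φ x)) (mu d) := hφ.1.sub m1
  have n2 := rest_norm q lam hq hlam φ hφ1
  have i2 : Integrable (fun x => φ x - tr lam (φ x)) (mu d) := hφi.sub i1
  have m3 : AEStronglyMeasurable (fun x => ν⁻¹ * (φ x - tr lam (φ x))) (mu d) :=
    m2.const_mul _
  have n3 : eLpNorm (fun x => ν⁻¹ * (φ x - tr lam (φ x))) 2 (mu d) ≤ 1 := by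
    have e1 : (fun x => ν⁻¹ * (φ x - tr lam (φ x))) = ν⁻¹ • fun x => φ x - tr lam (φ x) := by
      funext x; simp
    rw [e1, eLpNorm_const_smul]
    calc ‖ν⁻¹‖ₑ * eLpNorm (fun x => φ x - tr lam (φ x)) 2 (mu d)
        ≤ ‖ν⁻¹‖ₑ * ENNReal.ofReal ν := mul_le_mul_right n2 _
      _ = 1 := by
        rw [Real.enorm_eq_ofReal_abs, abs_of_pos (inv_pos.2 hν),
          ← ENNReal.ofReal_mul (inv_pos.2 hν).le, inv_mul_cancel₀ hν.ne', ENNReal.ofReal_one]
  have l3 : MemLp (fun x => ν⁻¹ * (φ x - tr lam (φ x))) 2 (mu d) :=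
    ⟨m3, n3.trans_lt ENNReal.one_lt_top⟩
  obtain ⟨u, hu, hux⟩ := hU3 _ l3 n3
  refine ⟨ν • u, U.smul_mem ν hu, ?_⟩
  obtain ⟨c1, c2, c3⟩ := hB l
  have hR : 0 ≤ (CB + CW * Real.sqrt (2 * CM)) * ((2 : ℝ) ^ (-(r * l)) * Ln d l * lam +
      (2 : ℝ) ^ ((1 / 2 - r) * l) * Real.sqrt (Ln d l * ((l : ℝ) + 1) / (m + 1)) *
        lam ^ (1 - q / 2)) := by positivity
  rw [ContinuousMap.norm_le _ hR]
  intro x
  have p1 : pl d r α l φ x = pl d r α l (fun x => tr lam (φ x)) x +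
      ν * pl d r α l (fun x => ν⁻¹ * (φ x - tr lam (φ x))) x := by
    apply pl_add r α l φ _ _ i1 (i2.const_mul _)
    intro x
    rw [← mul_assoc, mul_inv_cancel₀ hν.ne']
    ring
  have p2 : |pl d r α l (fun x => tr lam (φ x)) x| ≤
      CB * Ln d l * (2 : ℝ) ^ (-(r * l)) * lam := by
    rw [← (h4 d r α l _ i1).1 x]
    exact (h2 d (Lay d r α l) (fun x => tr lam (φ x)) _ _ c1 (by positivity) c2 c3).1 lam
      hlam0.le m1 (Filter.Eventually.of_forall b1) x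
  have p3 : |pl d r α l (fun x => ν⁻¹ * (φ x - tr lam (φ x))) x - u x| ≤
      CW * Real.sqrt ((((l + 1 : ℕ) : ℝ) + 1) / (m + 1)) *
        Real.sqrt (∑ n ∈ Box d (2 ^ (l + 1)), ‖lm d r α l n‖ ^ 2) := hux x
  have p4 := hM {l} (l + 1)
  simp only [Finset.sum_singleton] at p4
  have p5 : Real.sqrt ((((l + 1 : ℕ) : ℝ) + 1) / (m + 1)) *
        Real.sqrt (∑ n ∈ Box d (2 ^ (l + 1)), ‖lm d r α l n‖ ^ 2) ≤
      Real.sqrt (2 * CM) * ((2 : ℝ) ^ ((1 / 2 - r) * l) *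
        Real.sqrt (Ln d l * ((l : ℝ) + 1) / (m + 1))) := by
    have e1 : (2 : ℝ) ^ ((1 / 2 - r) * l) = Real.sqrt ((2 : ℝ) ^ ((1 - 2 * r) * l)) := by
      rw [Real.sqrt_eq_rpow, ← Real.rpow_mul (by norm_num)]
      congr 1; ring
    rw [e1, ← Real.sqrt_mul (by positivity), ← Real.sqrt_mul (by positivity),
      ← Real.sqrt_mul (by positivity)]
    apply Real.sqrt_le_sqrt
    have hm : (0 : ℝ) < (m : ℝ) + 1 := by positivity
    calc (((l + 1 : ℕ) : ℝ) + 1) / (m + 1) * (∑ n ∈ Box d (2 ^ (l + 1)), ‖lm d r α l n‖ ^ 2)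
        ≤ (2 * ((l : ℝ) + 1)) / (m + 1) * (CM * ((2 : ℝ) ^ ((1 - 2 * r) * l) * Ln d l)) := by
          apply mul_le_mul _ p4 (Finset.sum_nonneg fun _ _ => by positivity) (by positivity)
          apply div_le_div_of_nonneg_right _ hm.le
          push_cast
          have : (0 : ℝ) ≤ l := by positivity
          linarith
      _ = 2 * CM * ((2 : ℝ) ^ ((1 - 2 * r) * l) * (Ln d l * ((l : ℝ) + 1) / (m + 1))) := by
          field_simp
  have p6 : (pl d r α l φ - ν • u) x = pl d r α l (fun x => tr lam (φ x)) x +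
      ν * (pl d r α l (fun x => ν⁻¹ * (φ x - tr lam (φ x))) x - u x) := by
    rw [ContinuousMap.sub_apply, p1, ContinuousMap.smul_apply, smul_eq_mul]
    ring
  rw [p6, Real.norm_eq_abs]
  refine (abs_add_le _ _).trans ?_
  rw [abs_mul, abs_of_pos hν]
  have p7 : ν * |pl d r α l (fun x => ν⁻¹ * (φ x - tr lam (φ x))) x - u x| ≤
      ν * (CW * (Real.sqrt (2 * CM) * ((2 : ℝ) ^ ((1 / 2 - r) * l) *
        Real.sqrt (Ln d l * ((l : ℝ) + 1) / (m + 1))))) := by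
    apply mul_le_mul_of_nonneg_left _ hν.le
    refine p3.trans ?_
    rw [mul_assoc]
    exact mul_le_mul_of_nonneg_left p5 hCW.le
  have q1 : 0 ≤ (2 : ℝ) ^ (-(r * l)) * Ln d l * lam := by positivity
  have q2 : 0 ≤ (2 : ℝ) ^ ((1 / 2 - r) * l) * Real.sqrt (Ln d l * ((l : ℝ) + 1) / (m + 1)) *
        ν := by positivity
  have q3 : 0 ≤ CW * Real.sqrt (2 * CM) := by positivity
  nlinarith [mul_nonneg q3 q1, mul_nonneg hCB.le q2]

end

end Pool.Agent.KW
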