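import Pool.Agent.KW.Stmts

set_option autoImplicit false

/-!
# KW, module UPK: the upper bound of the width
-/

open MeasureTheory
open scoped BigOperators ENNReal

namespace Pool.Agent.KW

namespace UPK_

noncomputable section

lemma sup_fd {E : Type*} [AddCommGroup E] [Module ℝ E] (U : ℕ → Submodule ℝ E) (mm : ℕ → ℕ)
    (hf : ∀ i, FiniteDimensional ℝ (U i)) (hm : ∀ i, Module.finrank ℝ (U i) ≤ mm i) (I : ℕ) :
    FiniteDimensional ℝ ((Finset.range I).sup U : Submodule ℝ E) ∧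
      Module.finrank ℝ ((Finset.range I).sup U : Submodule ℝ E) ≤ ∑ i ∈ Finset.range I, mm i := by
  induction I with
  | zero =>
    rw [Finset.range_zero, Finset.sup_empty, Finset.sum_empty]
    constructor
    · infer_instance
    · simp
  | succ I ih =>
    rw [Finset.range_add_one, Finset.sup_insert, Finset.sum_insert Finset.notMem_range_self]
    haveI := ih.1
    haveI := hf I
    constructor
    · infer_instance
    · refine le_trans (Submodule.finrank_add_le_finrank_add_finrank _ _) ?_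
      exact Nat.add_le_add (hm I) ih.2

lemma Ssq_pos (r : ℝ) (J : ℕ) : 0 < Ssq r J := by
  unfold Ssq
  refine Finset.sum_pos (fun j _ => by positivity) ⟨0, by simp⟩

lemma Th_pos (d : ℕ) (r : ℝ) (n : ℕ) (hn : 2 ≤ n) : 0 < Th d r n := by
  unfold Th
  have h1 : (0 : ℝ) < n := by
    have : 0 < n := by omega
    exact_mod_cast this
  have := Real.sqrt_pos.2 (Ssq_pos r (Jn d n))
  positivity

end

end UPK_

open UPK_ in
theorem upk_proof (h1 : Stmt_UpA) (h2 : Stmt_UpB) (h3 : Stmt_UpS) (h4 : Stmt_Deco)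
    (h5 : Stmt_Card) (h6 : Stmt_SupN) (h7 : Stmt_Uniq) : Stmt_UpK := by
  intro d q r α hd hq hr
  have hr0 : 0 < r := lt_trans (by positivity) hr
  obtain ⟨CA, hCA, hA⟩ := h1 d r α hd hr0
  obtain ⟨CB, hCB, hB⟩ := h2 d q r α hd hq hr0
  obtain ⟨CS, hCS, hS⟩ := h3 d q r hd hq hr
  obtain ⟨CD, η, hCD, hη, hD⟩ := h4 d q r α (by omega) (by linarith) hr
  refine ⟨(CA + CS + 1) * 2 ^ (d - 1) + (CA + CB * CS + 1), by positivity, ?_⟩
  intro n hn m hm
  -- the size of the subspaces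
  obtain ⟨X, hX⟩ : ∃ X : ℝ, X = (2 : ℝ) ^ n * Ln d n := ⟨_, rfl⟩
  have hn1 : (1 : ℝ) ≤ n := by
    have : 1 ≤ n := by omega
    exact_mod_cast this
  have hX1 : 1 ≤ X := by
    have h8 : 0 < Ln d n := by
      by_contra h
      have h9 : Ln d n = 0 := by omega
      have h10 := (h5 d n (by omega)).1
      rw [h9, Nat.cast_zero, mul_zero] at h10
      have : (0 : ℝ) < ((n : ℝ) + 1) ^ (d - 1) := by positivity
      linarith
    have h9 : (1 : ℝ) ≤ Ln d n := by exact_mod_cast h8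
    have h10 : (1 : ℝ) ≤ 2 ^ n := one_le_pow₀ (by norm_num)
    rw [hX]
    nlinarith
  have hXu : X ≤ 2 ^ (d - 1) * ((2 : ℝ) ^ n * (n : ℝ) ^ (d - 1)) := by
    have h8 := (h5 d n (by omega)).2.1
    have h9 : ((n : ℝ) + 1) ^ (d - 1) ≤ (2 * (n : ℝ)) ^ (d - 1) :=
      pow_le_pow_left₀ (by positivity) (by linarith) _
    rw [mul_pow] at h9
    rw [hX]
    calc (2 : ℝ) ^ n * Ln d n ≤ 2 ^ n * (2 ^ (d - 1) * (n : ℝ) ^ (d - 1)) :=
          mul_le_mul_of_nonneg_left (h8.trans h9) (by positivity)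
      _ = _ := by ring
  obtain ⟨mA, hmA⟩ : ∃ mA : ℕ, mA = ⌈CA * X⌉₊ := ⟨_, rfl⟩
  have hmA1 : CA * X ≤ mA := by rw [hmA]; exact Nat.le_ceil _
  have hmA2 : (mA : ℝ) ≤ CA * X + 1 := by
    rw [hmA]
    exact (Nat.ceil_lt_add_one (by positivity)).le
  obtain ⟨UA, hUA1, hUA2, hUA3⟩ := hA n hn mA (by rw [hX] at hmA1; exact hmA1)
  obtain ⟨mm, lam, I, hl1, hmm0, hmms, hsum⟩ := hS n hn
  have hBi : ∀ i : ℕ, ∃ U : Submodule ℝ C(Tor d, ℝ), FiniteDimensional ℝ U ∧
      Module.finrank ℝ U ≤ mm i ∧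
      ∀ φ : Tor d → ℝ, MemLp φ (ENNReal.ofReal q) (mu d) →
      eLpNorm φ (ENNReal.ofReal q) (mu d) ≤ 1 → ∃ u ∈ U,
      ‖pl d r α (n + Jn d n + 1 + i) φ - u‖ ≤
        CB * ((2 : ℝ) ^ (-(r * ((n + Jn d n + 1 + i : ℕ) : ℝ))) * Ln d (n + Jn d n + 1 + i) * lam i +
        (2 : ℝ) ^ ((1 / 2 - r) * ((n + Jn d n + 1 + i : ℕ) : ℝ)) *
          Real.sqrt (Ln d (n + Jn d n + 1 + i) * (((n + Jn d n + 1 + i : ℕ) : ℝ) + 1) /
            (mm i + 1)) * lam i ^ (1 - q / 2)) :=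
    fun i => hB (n + Jn d n + 1 + i) (mm i) (lam i) (hl1 i)
  choose U hU1 hU2 hU3 using hBi
  obtain ⟨hV1, hV2⟩ := sup_fd U mm hU1 hU2 I
  obtain ⟨V, hV⟩ : ∃ V : Submodule ℝ C(Tor d, ℝ), V = UA ⊔ (Finset.range I).sup U := ⟨_, rfl⟩
  have hVf : FiniteDimensional ℝ V := by rw [hV]; infer_instance
  have hVm : Module.finrank ℝ V ≤ m := by
    have h8 : Module.finrank ℝ V ≤ mA + ∑ i ∈ Finset.range I, mm i := by
      rw [hV]
      exact le_trans (Submodule.finrank_add_le_finrank_add_finrank _ _) (Nat.add_le_add hUA2 hV2)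
    have h9 : ((mA + ∑ i ∈ Finset.range I, mm i : ℕ) : ℝ) ≤ m := by
      push_cast
      rw [← hX] at hmms
      have h10 : (CA + CS + 1) * X ≤ (CA + CS + 1) *
          (2 ^ (d - 1) * ((2 : ℝ) ^ n * (n : ℝ) ^ (d - 1))) :=
        mul_le_mul_of_nonneg_left hXu (by positivity)
      have h11 : (0 : ℝ) ≤ (CA + CB * CS + 1) * ((2 : ℝ) ^ n * (n : ℝ) ^ (d - 1)) := by positivity
      have h12 : ((CA + CS + 1) * 2 ^ (d - 1) + (CA + CB * CS + 1)) *
          ((2 : ℝ) ^ n * (n : ℝ) ^ (d - 1)) = (CA + CS + 1) *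
          (2 ^ (d - 1) * ((2 : ℝ) ^ n * (n : ℝ) ^ (d - 1))) +
          (CA + CB * CS + 1) * ((2 : ℝ) ^ n * (n : ℝ) ^ (d - 1)) := by ring
      rw [h12] at hm
      have h13 : (mA : ℝ) + ∑ i ∈ Finset.range I, (mm i : ℝ) ≤ (CA + CS + 1) * X := by
        have : (CA + CS + 1) * X = CA * X + CS * X + X := by ring
        rw [this]
        linarith
      linarith
    exact h8.trans (by exact_mod_cast h9)
  -- the subspace of `L_∞`
  obtain ⟨T, hT⟩ : ∃ T : C(Tor d, ℝ) →ₗ[ℝ] Lp ℝ ⊤ (mu d),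
    T = (ContinuousMap.toLp ⊤ (mu d) ℝ : C(Tor d, ℝ) →L[ℝ] Lp ℝ ⊤ (mu d)).toLinearMap := ⟨_, rfl⟩
  have hTt : ∀ g, T g = toL g := fun g => by rw [hT]; rfl
  have hWf : FiniteDimensional ℝ (V.map T) := inferInstance
  have hWm : Module.finrank ℝ (V.map T) ≤ m := le_trans (Submodule.finrank_map_le T V) hVm
  have hThp := Th_pos d r n hn
  unfold kol
  refine iInf_le_of_le ⟨V.map T, hWf, hWm⟩ ?_
  refine iSup₂_le fun f hf => ?_
  obtain ⟨φ, hφ1, hφ2, hφ3⟩ := hf
  obtain ⟨f', hf1, hf2⟩ := hD φ hφ1 hφ2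
  have hff : f = f' := by
    refine Lp.ext (h7 d f f' ?_ ?_ fun k => ?_)
    · exact (Lp.memLp f).integrable le_top
    · exact (Lp.memLp f').integrable le_top
    · rw [hφ3 k, hf1 k]
  subst hff
  have h2q : (2 : ℝ≥0∞) ≤ ENNReal.ofReal q := by
    have : (2 : ℝ≥0∞) = ENNReal.ofReal 2 := by norm_num
    rw [this]
    exact ENNReal.ofReal_le_ofReal hq
  have hφ4 : MemLp φ 2 (mu d) := hφ1.mono_exponent h2q
  have hφ5 : eLpNorm φ 2 (mu d) ≤ 1 :=
    le_trans (eLpNorm_le_eLpNorm_of_exponent_le h2q hφ1.1) hφ2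
  obtain ⟨uA, huA1, huA2⟩ := hUA3 φ hφ4 hφ5
  choose u hu1 hu2 using fun i => hU3 i φ hφ1 hφ2
  -- the number of layers
  obtain ⟨K, hK⟩ : ∃ K : ℕ, CD * (2 : ℝ) ^ (-(η * (K : ℝ))) ≤ Th d r n := by
    have h8 : Filter.Tendsto (fun K : ℕ => CD * (2 : ℝ) ^ (-(η * (K : ℝ)))) Filter.atTop
        (nhds (CD * 0)) := by
      refine Filter.Tendsto.const_mul _ ?_
      have h9 : Filter.Tendsto (fun x : ℝ => (2 : ℝ) ^ (-x)) Filter.atTop (nhds 0) := by
        have h10 := tendsto_rpow_atBot_of_base_gt_one (b := 2) (by norm_num)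
        exact h10.comp Filter.tendsto_neg_atTop_atBot
      exact h9.comp (Filter.Tendsto.const_mul_atTop hη tendsto_natCast_atTop_atTop)
    rw [mul_zero] at h8
    exact ((h8.eventually (Iio_mem_nhds hThp)).exists).imp fun K hK => le_of_lt hK
  have hN : CD * (2 : ℝ) ^ (-(η * ((n + Jn d n + 1 + K : ℕ) : ℝ))) ≤ Th d r n := by
    refine le_trans (mul_le_mul_of_nonneg_left ?_ hCD.le) hK
    refine Real.rpow_le_rpow_of_exponent_le (by norm_num) (neg_le_neg ?_)
    refine mul_le_mul_of_nonneg_left ?_ hη.le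
    exact_mod_cast (by omega : K ≤ n + Jn d n + 1 + K)
  obtain ⟨w, hw⟩ : ∃ w : C(Tor d, ℝ), w = uA + ∑ i ∈ Finset.range K, u i := ⟨_, rfl⟩
  have hwV : w ∈ V := by
    rw [hw, hV]
    refine Submodule.add_mem _ (Submodule.mem_sup_left huA1) (Submodule.sum_mem _ fun i _ => ?_)
    by_cases hi : i < I
    · exact Submodule.mem_sup_right (Finset.le_sup (f := U) (Finset.mem_range.2 hi) (hu1 i))
    · have h8 : Module.finrank ℝ (U i) = 0 := by
        have h9 := hU2 i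
        rw [hmm0 i (by omega)] at h9
        omega
      haveI := hU1 i
      have h9 : U i = ⊥ := Submodule.finrank_eq_zero.1 h8
      have h10 := hu1 i
      rw [h9, Submodule.mem_bot] at h10
      rw [h10]
      exact Submodule.zero_mem _
  have hest : ‖∑ l ∈ Finset.range (n + Jn d n + 1 + K), pl d r α l φ - w‖ ≤
      CA * Th d r n + CB * (CS * Th d r n) := by
    have h8 : ∑ l ∈ Finset.range (n + Jn d n + 1 + K), pl d r α l φ - w =
        (∑ l ∈ Finset.range (n + Jn d n + 1), pl d r α l φ - uA) +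
        ∑ i ∈ Finset.range K, (pl d r α (n + Jn d n + 1 + i) φ - u i) := by
      rw [Finset.sum_range_add, hw, Finset.sum_sub_distrib]
      abel
    rw [h8]
    refine le_trans (norm_add_le _ _) (add_le_add huA2 ?_)
    refine le_trans (norm_sum_le _ _) (le_trans (Finset.sum_le_sum fun i _ => hu2 i) ?_)
    rw [← Finset.mul_sum]
    exact mul_le_mul_of_nonneg_left (hsum K) hCB.le
  have hfin : ‖f - toL w‖ ≤ (CA + CB * CS + 1) * Th d r n := by
    have h8 := hf2 (n + Jn d n + 1 + K)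
    have h9 : f - toL w = (f - ∑ l ∈ Finset.range (n + Jn d n + 1 + K), toL (pl d r α l φ)) +
        toL (∑ l ∈ Finset.range (n + Jn d n + 1 + K), pl d r α l φ - w) := by
      rw [← hTt w, ← hTt (_ - w), map_sub, map_sum]
      simp only [hTt]
      abel
    rw [h9]
    refine le_trans (norm_add_le _ _) ?_
    rw [h6]
    have h10 := h8.trans hN
    calc _ ≤ Th d r n + (CA * Th d r n + CB * (CS * Th d r n)) := add_le_add h10 hest
      _ = _ := by ring
  refine le_trans (Metric.infEDist_le_edist_of_mem (Submodule.mem_map_of_mem hwV)) ?_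
  rw [hTt, edist_dist, dist_eq_norm]
  refine ENNReal.ofReal_le_ofReal (hfin.trans ?_)
  refine mul_le_mul_of_nonneg_right ?_ hThp.le
  have : (0 : ℝ) ≤ (CA + CS + 1) * 2 ^ (d - 1) := by positivity
  linarith

end Pool.Agent.KW
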