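import Pool.Agent.KW.Stmts

set_option autoImplicit false

open MeasureTheory
open scoped BigOperators ENNReal

namespace Pool.Agent.KW

namespace UPS_

theorem sum_bound (m : ℕ) (ρ : ℝ) (hρ : 0 < ρ) : ∃ C : ℝ, 0 < C ∧ ∀ K : ℕ,
    ∑ i ∈ Finset.range K, ((i : ℝ) + 1) ^ m * (2 : ℝ) ^ (-(ρ * (i : ℝ))) ≤ C := by
  have hx0 : 0 < (2 : ℝ) ^ (-ρ) := Real.rpow_pos_of_pos (by norm_num) _
  have hx1 : (2 : ℝ) ^ (-ρ) < 1 := by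
    apply Real.rpow_lt_one_of_one_lt_of_neg (by norm_num); linarith only [hρ]
  have hs : Summable (fun i : ℕ => ((i : ℝ)) ^ m * ((2 : ℝ) ^ (-ρ)) ^ i) := by
    apply summable_pow_mul_geometric_of_norm_lt_one
    rw [Real.norm_eq_abs, abs_of_pos hx0]; exact hx1
  have hs2 : Summable (fun i : ℕ => (((i + 1 : ℕ) : ℝ)) ^ m * ((2 : ℝ) ^ (-ρ)) ^ (i + 1)) :=
    (summable_nat_add_iff 1).2 hs
  have hs3 : Summable (fun i : ℕ => ((i : ℝ) + 1) ^ m * (2 : ℝ) ^ (-(ρ * (i : ℝ)))) := by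
    have h := hs2.mul_left (((2 : ℝ) ^ (-ρ))⁻¹)
    refine h.congr fun i => ?_
    have e : ((2 : ℝ) ^ (-ρ)) ^ i = (2 : ℝ) ^ (-(ρ * (i : ℝ))) := by
      rw [← Real.rpow_natCast, ← Real.rpow_mul (by norm_num)]
      congr 1; ring
    rw [pow_succ, e]
    push_cast
    field_simp
  have hnn : ∀ i : ℕ, 0 ≤ ((i : ℝ) + 1) ^ m * (2 : ℝ) ^ (-(ρ * (i : ℝ))) := fun i => by positivity
  refine ⟨(∑' i : ℕ, ((i : ℝ) + 1) ^ m * (2 : ℝ) ^ (-(ρ * (i : ℝ)))) + 1, ?_, fun K => ?_⟩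
  · have h0 : (0 : ℝ) ≤ ∑' i : ℕ, ((i : ℝ) + 1) ^ m * (2 : ℝ) ^ (-(ρ * (i : ℝ))) := tsum_nonneg hnn
    linarith only [h0]
  · have := hs3.sum_le_tsum (Finset.range K) (fun i _ => hnn i)
    linarith only [this]

theorem floor_sum (κ X : ℝ) (hκ : 0 < κ) (hX : 0 < X) : ∃ I : ℕ,
    ∀ i ≥ I, ⌊X * (2 : ℝ) ^ (-(κ * (i : ℝ)))⌋₊ = 0 := by
  have hx0 : 0 < (2 : ℝ) ^ (-κ) := Real.rpow_pos_of_pos (by norm_num) _
  have hx1 : (2 : ℝ) ^ (-κ) < 1 := by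
    apply Real.rpow_lt_one_of_one_lt_of_neg (by norm_num); linarith only [hκ]
  obtain ⟨I, hI⟩ := exists_pow_lt_of_lt_one (show (0 : ℝ) < X⁻¹ by positivity) hx1
  refine ⟨I, fun i hi => ?_⟩
  rw [Nat.floor_eq_zero]
  have e : (2 : ℝ) ^ (-(κ * (i : ℝ))) = ((2 : ℝ) ^ (-κ)) ^ i := by
    rw [← Real.rpow_natCast, ← Real.rpow_mul (by norm_num)]
    congr 1; ring
  rw [e]
  have h1 : ((2 : ℝ) ^ (-κ)) ^ i ≤ ((2 : ℝ) ^ (-κ)) ^ I :=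
    pow_le_pow_of_le_one hx0.le hx1.le hi
  calc X * ((2 : ℝ) ^ (-κ)) ^ i ≤ X * ((2 : ℝ) ^ (-κ)) ^ I := by gcongr
    _ < X * X⁻¹ := by gcongr
    _ = 1 := mul_inv_cancel₀ hX.ne'

theorem len_bound (d n i : ℕ) (hd : 2 ≤ d) :
    ((n + Jn d n + 1 + i : ℕ) : ℝ) + 1 ≤ (2 * (d : ℝ)) * ((n : ℝ) + 1) * ((i : ℝ) + 1) := by
  have h1 : Nat.log 2 n ≤ n := Nat.log_le_self 2 n
  have h2 : Jn d n ≤ (2 * d - 3) * (n + 1) := by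
    unfold Jn; exact Nat.mul_le_mul_left _ (by omega)
  have h3 : ((2 * d - 3 : ℕ) : ℝ) = 2 * (d : ℝ) - 3 := by
    rw [Nat.cast_sub (by omega)]; push_cast; ring
  have h4 : (Jn d n : ℝ) ≤ (2 * (d : ℝ) - 3) * ((n : ℝ) + 1) := by
    rw [← h3]; exact_mod_cast h2
  have hd' : (2 : ℝ) ≤ d := by exact_mod_cast hd
  have hn : (0 : ℝ) ≤ n := Nat.cast_nonneg n
  have hi : (0 : ℝ) ≤ i := Nat.cast_nonneg i
  push_cast
  have h5 : (n : ℝ) + Jn d n + 1 + i + 1 ≤ (2 * (d : ℝ) - 2) * ((n : ℝ) + 1) + (i + 1) := by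
    nlinarith only [h4]
  have h6 : (2 * (d : ℝ) - 2) * ((n : ℝ) + 1) ≤ (2 * (d : ℝ) - 2) * ((n : ℝ) + 1) * (i + 1) := by
    have : 0 ≤ (2 * (d : ℝ) - 2) * ((n : ℝ) + 1) := by
      apply mul_nonneg <;> linarith only [hd', hn]
    nlinarith only [this, hi]
  have h7 : (i : ℝ) + 1 ≤ ((n : ℝ) + 1) * (i + 1) := by nlinarith only [hn, hi]
  have h8 : 0 ≤ ((n : ℝ) + 1) * (i + 1) := by positivity
  nlinarith only [h5, h6, h7, h8]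

theorem pow_bound (d n : ℕ) (hd : 2 ≤ d) (hn : 2 ≤ n) :
    ((n : ℝ) + 1) ^ (d - 1) ≤ (2 : ℝ) ^ (d - 1) * (Real.sqrt n * Real.sqrt ((2 : ℝ) ^ (Jn d n))) := by
  have h1 : n + 1 ≤ 2 * 2 ^ (Nat.log 2 n) := by
    have := Nat.lt_pow_succ_log_self (b := 2) (by norm_num) n
    rw [pow_succ] at this
    omega
  have h2 : (n + 1) ^ (2 * d - 3) ≤ 2 ^ (2 * d - 3) * 2 ^ (Jn d n) := by
    calc (n + 1) ^ (2 * d - 3) ≤ (2 * 2 ^ (Nat.log 2 n)) ^ (2 * d - 3) := Nat.pow_le_pow_left h1 _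
      _ = 2 ^ (2 * d - 3) * 2 ^ (Jn d n) := by
        unfold Jn
        rw [mul_pow, ← pow_mul, mul_comm (2 * d - 3) (Nat.log 2 n)]
  have h3 : ((n + 1) ^ (d - 1)) ^ 2 ≤ (2 ^ (d - 1)) ^ 2 * (n * 2 ^ (Jn d n)) := by
    have e : (n + 1) ^ (d - 1) ^ 1 = (n + 1) ^ (d - 1) := by simp
    have e1 : ((n + 1) ^ (d - 1)) ^ 2 = (n + 1) * (n + 1) ^ (2 * d - 3) := by
      rw [← pow_mul, ← pow_succ']
      congr 1; omega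
    have e2 : ((2 : ℕ) ^ (d - 1)) ^ 2 = 2 * 2 ^ (2 * d - 3) := by
      rw [← pow_mul, ← pow_succ']
      congr 1; omega
    rw [e1, e2]
    calc (n + 1) * (n + 1) ^ (2 * d - 3) ≤ (2 * n) * (2 ^ (2 * d - 3) * 2 ^ (Jn d n)) :=
          Nat.mul_le_mul (by omega) h2
      _ = 2 * 2 ^ (2 * d - 3) * (n * 2 ^ (Jn d n)) := by ring
  have h4 : (((n : ℝ) + 1) ^ (d - 1)) ^ 2 ≤ ((2 : ℝ) ^ (d - 1)) ^ 2 * (n * (2 : ℝ) ^ (Jn d n)) := by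
    exact_mod_cast h3
  have h5 : 0 ≤ (2 : ℝ) ^ (d - 1) * (Real.sqrt n * Real.sqrt ((2 : ℝ) ^ (Jn d n))) := by positivity
  refine le_of_sq_le_sq ?_ h5
  rw [mul_pow, mul_pow, Real.sq_sqrt (by positivity), Real.sq_sqrt (by positivity)]
  exact h4

theorem sqrt_two_pow (J : ℕ) : Real.sqrt ((2 : ℝ) ^ J) = (2 : ℝ) ^ ((1 / 2 : ℝ) * (J : ℝ)) := by
  rw [Real.sqrt_eq_rpow, ← Real.rpow_natCast, ← Real.rpow_mul (by norm_num)]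
  congr 1; ring

theorem th_bound (d : ℕ) (r : ℝ) (n : ℕ) :
    (2 : ℝ) ^ (-(r * (n : ℝ))) * Real.sqrt n * (2 : ℝ) ^ ((1 / 2 - r) * (Jn d n : ℝ)) ≤ Th d r n := by
  unfold Th
  refine mul_le_mul_of_nonneg_left ?_ (by positivity)
  apply Real.le_sqrt_of_sq_le
  have e : ((2 : ℝ) ^ ((1 / 2 - r) * (Jn d n : ℝ))) ^ 2 =
      (2 : ℝ) ^ ((1 - 2 * r) * ((Jn d n : ℕ) : ℝ)) := by
    rw [← Real.rpow_natCast, ← Real.rpow_mul (by norm_num)]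
    congr 1; push_cast; ring
  rw [e]
  unfold Ssq
  exact Finset.single_le_sum (f := fun j : ℕ => (2 : ℝ) ^ ((1 - 2 * r) * (j : ℝ)))
    (fun j _ => by positivity) (Finset.mem_range.2 (Nat.lt_succ_self _))

/-- one term of the first sum -/
theorem termA (d : ℕ) (r γ : ℝ) (n i : ℕ) (hcard : Stmt_Card) (hd : 2 ≤ d) (hn : 2 ≤ n) :
    (2 : ℝ) ^ (-(r * ((n + Jn d n + 1 + i : ℕ) : ℝ))) * Ln d (n + Jn d n + 1 + i) *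
      (2 : ℝ) ^ (γ * (i : ℝ)) ≤
    ((2 * (d : ℝ)) ^ (d - 1) * (2 : ℝ) ^ (d - 1) * (2 : ℝ) ^ (-r)) *
      ((2 : ℝ) ^ (-(r * (n : ℝ))) * Real.sqrt n * (2 : ℝ) ^ ((1 / 2 - r) * (Jn d n : ℝ))) *
      (((i : ℝ) + 1) ^ (d - 1) * (2 : ℝ) ^ (-((r - γ) * (i : ℝ)))) := by
  have hL : (Ln d (n + Jn d n + 1 + i) : ℝ) ≤
      ((2 * (d : ℝ)) * ((n : ℝ) + 1) * ((i : ℝ) + 1)) ^ (d - 1) :=
    (hcard d (n + Jn d n + 1 + i) (by omega)).2.1.trans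
      (pow_le_pow_left₀ (by positivity) (len_bound d n i hd) _)
  have hP := pow_bound d n hd hn
  have e1 : (2 : ℝ) ^ (-(r * ((n + Jn d n + 1 + i : ℕ) : ℝ))) =
      (2 : ℝ) ^ (-(r * (n : ℝ))) * (2 : ℝ) ^ (-(r * (Jn d n : ℝ))) * (2 : ℝ) ^ (-r) *
        (2 : ℝ) ^ (-(r * (i : ℝ))) := by
    rw [← Real.rpow_add (by norm_num), ← Real.rpow_add (by norm_num),
      ← Real.rpow_add (by norm_num)]
    congr 1; push_cast; ring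
  have e2 : (2 : ℝ) ^ (-((r - γ) * (i : ℝ))) =
      (2 : ℝ) ^ (-(r * (i : ℝ))) * (2 : ℝ) ^ (γ * (i : ℝ)) := by
    rw [← Real.rpow_add (by norm_num)]
    congr 1; ring
  have e3 : (2 : ℝ) ^ ((1 / 2 - r) * (Jn d n : ℝ)) =
      Real.sqrt ((2 : ℝ) ^ (Jn d n)) * (2 : ℝ) ^ (-(r * (Jn d n : ℝ))) := by
    rw [sqrt_two_pow, ← Real.rpow_add (by norm_num)]
    congr 1; ring
  rw [e1, e2, e3]
  calc (2 : ℝ) ^ (-(r * (n : ℝ))) * (2 : ℝ) ^ (-(r * (Jn d n : ℝ))) * (2 : ℝ) ^ (-r) *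
        (2 : ℝ) ^ (-(r * (i : ℝ))) * Ln d (n + Jn d n + 1 + i) * (2 : ℝ) ^ (γ * (i : ℝ))
      ≤ (2 : ℝ) ^ (-(r * (n : ℝ))) * (2 : ℝ) ^ (-(r * (Jn d n : ℝ))) * (2 : ℝ) ^ (-r) *
        (2 : ℝ) ^ (-(r * (i : ℝ))) * ((2 * (d : ℝ)) * ((n : ℝ) + 1) * ((i : ℝ) + 1)) ^ (d - 1) *
        (2 : ℝ) ^ (γ * (i : ℝ)) := by gcongr
    _ = (2 : ℝ) ^ (-(r * (n : ℝ))) * (2 : ℝ) ^ (-(r * (Jn d n : ℝ))) * (2 : ℝ) ^ (-r) *
        (2 : ℝ) ^ (-(r * (i : ℝ))) * (2 * (d : ℝ)) ^ (d - 1) * ((i : ℝ) + 1) ^ (d - 1) *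
        (2 : ℝ) ^ (γ * (i : ℝ)) * ((n : ℝ) + 1) ^ (d - 1) := by rw [mul_pow, mul_pow]; ring
    _ ≤ (2 : ℝ) ^ (-(r * (n : ℝ))) * (2 : ℝ) ^ (-(r * (Jn d n : ℝ))) * (2 : ℝ) ^ (-r) *
        (2 : ℝ) ^ (-(r * (i : ℝ))) * (2 * (d : ℝ)) ^ (d - 1) * ((i : ℝ) + 1) ^ (d - 1) *
        (2 : ℝ) ^ (γ * (i : ℝ)) *
          ((2 : ℝ) ^ (d - 1) * (Real.sqrt n * Real.sqrt ((2 : ℝ) ^ (Jn d n)))) := by gcongr
    _ = _ := by ring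

/-- one term of the second sum -/
theorem termB (d : ℕ) (q r γ κ : ℝ) (n i : ℕ) (hcard : Stmt_Card) (hd : 2 ≤ d) (hn : 2 ≤ n) :
    (2 : ℝ) ^ ((1 / 2 - r) * ((n + Jn d n + 1 + i : ℕ) : ℝ)) *
      Real.sqrt (Ln d (n + Jn d n + 1 + i) * (((n + Jn d n + 1 + i : ℕ) : ℝ) + 1) /
        ((⌊(2 : ℝ) ^ n * Ln d n * (2 : ℝ) ^ (-(κ * (i : ℝ)))⌋₊ : ℝ) + 1)) *
        ((2 : ℝ) ^ (γ * (i : ℝ))) ^ (1 - q / 2) ≤
    (Real.sqrt (2 * (2 * (d : ℝ)) ^ d * (Nat.factorial (d - 1) : ℝ)) * (2 : ℝ) ^ (1 / 2 - r)) *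
      ((2 : ℝ) ^ (-(r * (n : ℝ))) * Real.sqrt n * (2 : ℝ) ^ ((1 / 2 - r) * (Jn d n : ℝ))) *
      (((i : ℝ) + 1) ^ d *
        (2 : ℝ) ^ (-((r - 1 / 2 - κ / 2 + γ * (q / 2 - 1)) * (i : ℝ)))) := by
  have hl := len_bound d n i hd
  have hL : (Ln d (n + Jn d n + 1 + i) : ℝ) ≤
      ((2 * (d : ℝ)) * ((n : ℝ) + 1) * ((i : ℝ) + 1)) ^ (d - 1) :=
    (hcard d (n + Jn d n + 1 + i) (by omega)).2.1.trans
      (pow_le_pow_left₀ (by positivity) hl _)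
  have hLn := (hcard d n (by omega)).1
  have hLpos : 0 < (Ln d n : ℝ) := by
    have h1 : (0 : ℝ) < ((n : ℝ) + 1) ^ (d - 1) := by positivity
    have h2 := lt_of_lt_of_le h1 hLn
    exact (pos_iff_pos_of_mul_pos h2).1 (by positivity)
  have hfl : (2 : ℝ) ^ n * Ln d n * (2 : ℝ) ^ (-(κ * (i : ℝ))) ≤
      (⌊(2 : ℝ) ^ n * Ln d n * (2 : ℝ) ^ (-(κ * (i : ℝ)))⌋₊ : ℝ) + 1 := (Nat.lt_floor_add_one _).le
  have hfac : (0 : ℝ) < (Nat.factorial (d - 1) : ℝ) := by exact_mod_cast Nat.factorial_pos _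
  have hn0 : (0 : ℝ) < n := by exact_mod_cast (by omega : 0 < n)
  have hn2 : (n : ℝ) + 1 ≤ 2 * n := by
    have : (2 : ℝ) ≤ n := by exact_mod_cast hn
    linarith only [this]
  have hi0 : (0 : ℝ) ≤ i := Nat.cast_nonneg i
  -- the quotient
  have hq : Ln d (n + Jn d n + 1 + i) * (((n + Jn d n + 1 + i : ℕ) : ℝ) + 1) /
        ((⌊(2 : ℝ) ^ n * Ln d n * (2 : ℝ) ^ (-(κ * (i : ℝ)))⌋₊ : ℝ) + 1) ≤
      (2 * (2 * (d : ℝ)) ^ d * (Nat.factorial (d - 1) : ℝ)) * (n : ℝ) * (((i : ℝ) + 1) ^ d) ^ 2 *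
        (((2 : ℝ) ^ (-(1 / 2 * (n : ℝ)))) ^ 2 * ((2 : ℝ) ^ (κ / 2 * (i : ℝ))) ^ 2) := by
    have e4 : ((2 : ℝ) ^ (-(1 / 2 * (n : ℝ)))) ^ 2 = ((2 : ℝ) ^ n)⁻¹ := by
      rw [← Real.rpow_natCast, ← Real.rpow_mul (by norm_num), ← Real.rpow_natCast,
        ← Real.rpow_neg (by norm_num)]
      congr 1; push_cast; ring
    have e5 : ((2 : ℝ) ^ (κ / 2 * (i : ℝ))) ^ 2 = ((2 : ℝ) ^ (-(κ * (i : ℝ))))⁻¹ := by
      rw [← Real.rpow_natCast, ← Real.rpow_mul (by norm_num), ← Real.rpow_neg (by norm_num)]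
      congr 1; push_cast; ring
    rw [e4, e5]
    have hnum : Ln d (n + Jn d n + 1 + i) * (((n + Jn d n + 1 + i : ℕ) : ℝ) + 1) ≤
        ((2 * (d : ℝ)) * ((n : ℝ) + 1) * ((i : ℝ) + 1)) ^ d := by
      have e6 : ((2 * (d : ℝ)) * ((n : ℝ) + 1) * ((i : ℝ) + 1)) ^ d =
          ((2 * (d : ℝ)) * ((n : ℝ) + 1) * ((i : ℝ) + 1)) ^ (d - 1) *
            ((2 * (d : ℝ)) * ((n : ℝ) + 1) * ((i : ℝ) + 1)) := by
        rw [← pow_succ]; congr 1; omega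
      rw [e6]
      exact mul_le_mul hL hl (by positivity) (by positivity)
    have hden0 : 0 < (2 : ℝ) ^ n * Ln d n * (2 : ℝ) ^ (-(κ * (i : ℝ))) := by positivity
    calc _ ≤ ((2 * (d : ℝ)) * ((n : ℝ) + 1) * ((i : ℝ) + 1)) ^ d /
          ((2 : ℝ) ^ n * Ln d n * (2 : ℝ) ^ (-(κ * (i : ℝ)))) := by
          apply div_le_div₀ (by positivity) hnum hden0 hfl
      _ = ((2 * (d : ℝ)) ^ d * ((i : ℝ) + 1) ^ d * (((2 : ℝ) ^ n)⁻¹ *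
          ((2 : ℝ) ^ (-(κ * (i : ℝ))))⁻¹)) * (((n : ℝ) + 1) ^ d / Ln d n) := by
          rw [mul_pow, mul_pow]; field_simp
      _ ≤ ((2 * (d : ℝ)) ^ d * ((i : ℝ) + 1) ^ d * (((2 : ℝ) ^ n)⁻¹ *
          ((2 : ℝ) ^ (-(κ * (i : ℝ))))⁻¹)) * (2 * n * (Nat.factorial (d - 1) : ℝ)) := by
          refine mul_le_mul_of_nonneg_left ?_ (by positivity)
          rw [div_le_iff₀ hLpos]
          have e7 : ((n : ℝ) + 1) ^ d = ((n : ℝ) + 1) ^ (d - 1) * ((n : ℝ) + 1) := by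
            rw [← pow_succ]; congr 1; omega
          rw [e7]
          calc ((n : ℝ) + 1) ^ (d - 1) * ((n : ℝ) + 1) ≤
              ((Nat.factorial (d - 1) : ℝ) * (Ln d n : ℝ)) * (2 * n) :=
                mul_le_mul hLn hn2 (by positivity) (by positivity)
            _ = _ := by ring
      _ ≤ _ := by
          have h1 : (1 : ℝ) ≤ ((i : ℝ) + 1) ^ d := one_le_pow₀ (by linarith only [hi0])
          have h2 : ((i : ℝ) + 1) ^ d ≤ (((i : ℝ) + 1) ^ d) ^ 2 := by nlinarith only [h1]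
          calc _ = (2 * (2 * (d : ℝ)) ^ d * (Nat.factorial (d - 1) : ℝ)) * (n : ℝ) *
              ((i : ℝ) + 1) ^ d * (((2 : ℝ) ^ n)⁻¹ * ((2 : ℝ) ^ (-(κ * (i : ℝ))))⁻¹) := by ring
            _ ≤ _ := by gcongr
  have hsq : Real.sqrt (Ln d (n + Jn d n + 1 + i) * (((n + Jn d n + 1 + i : ℕ) : ℝ) + 1) /
        ((⌊(2 : ℝ) ^ n * Ln d n * (2 : ℝ) ^ (-(κ * (i : ℝ)))⌋₊ : ℝ) + 1)) ≤
      Real.sqrt (2 * (2 * (d : ℝ)) ^ d * (Nat.factorial (d - 1) : ℝ)) * Real.sqrt n *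
        ((i : ℝ) + 1) ^ d * ((2 : ℝ) ^ (-(1 / 2 * (n : ℝ))) * (2 : ℝ) ^ (κ / 2 * (i : ℝ))) := by
    refine (Real.sqrt_le_sqrt hq).trans ?_
    rw [← mul_pow, Real.sqrt_mul (by positivity), Real.sqrt_mul (by positivity),
      Real.sqrt_mul (by positivity), Real.sqrt_sq (by positivity), Real.sqrt_sq (by positivity)]
  have e1 : (2 : ℝ) ^ ((1 / 2 - r) * ((n + Jn d n + 1 + i : ℕ) : ℝ)) =
      (2 : ℝ) ^ ((1 / 2 - r) * (n : ℝ)) * (2 : ℝ) ^ ((1 / 2 - r) * (Jn d n : ℝ)) *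
        (2 : ℝ) ^ (1 / 2 - r) * (2 : ℝ) ^ ((1 / 2 - r) * (i : ℝ)) := by
    rw [← Real.rpow_add (by norm_num), ← Real.rpow_add (by norm_num),
      ← Real.rpow_add (by norm_num)]
    congr 1; push_cast; ring
  have e2 : (2 : ℝ) ^ (-(r * (n : ℝ))) =
      (2 : ℝ) ^ ((1 / 2 - r) * (n : ℝ)) * (2 : ℝ) ^ (-(1 / 2 * (n : ℝ))) := by
    rw [← Real.rpow_add (by norm_num)]
    congr 1; ring
  have e3 : (2 : ℝ) ^ (-((r - 1 / 2 - κ / 2 + γ * (q / 2 - 1)) * (i : ℝ))) =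
      (2 : ℝ) ^ ((1 / 2 - r) * (i : ℝ)) * (2 : ℝ) ^ (κ / 2 * (i : ℝ)) *
        ((2 : ℝ) ^ (γ * (i : ℝ))) ^ (1 - q / 2) := by
    rw [← Real.rpow_mul (by norm_num), ← Real.rpow_add (by norm_num),
      ← Real.rpow_add (by norm_num)]
    congr 1; ring
  rw [e1, e2, e3]
  calc _ ≤ (2 : ℝ) ^ ((1 / 2 - r) * (n : ℝ)) * (2 : ℝ) ^ ((1 / 2 - r) * (Jn d n : ℝ)) *
        (2 : ℝ) ^ (1 / 2 - r) * (2 : ℝ) ^ ((1 / 2 - r) * (i : ℝ)) *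
      (Real.sqrt (2 * (2 * (d : ℝ)) ^ d * (Nat.factorial (d - 1) : ℝ)) * Real.sqrt n *
        ((i : ℝ) + 1) ^ d * ((2 : ℝ) ^ (-(1 / 2 * (n : ℝ))) * (2 : ℝ) ^ (κ / 2 * (i : ℝ)))) *
        ((2 : ℝ) ^ (γ * (i : ℝ))) ^ (1 - q / 2) := by
        gcongr
    _ = _ := by ring

end UPS_

open UPS_

theorem ups_proof (hcard : Stmt_Card) : Stmt_UpS := by
  intro d q r hd hq hr
  have hq0 : 0 < q := by linarith only [hq]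
  have hrq : 1 < r * q := by
    rw [div_lt_iff₀ hq0] at hr
    exact hr
  obtain ⟨δ, hδ⟩ : ∃ δ : ℝ, δ = (r * q - 1) / 2 := ⟨_, rfl⟩
  have hδ0 : 0 < δ := by rw [hδ]; linarith only [hrq]
  have hr0 : 0 < r := lt_trans (by positivity) hr
  obtain ⟨γ, hγ⟩ : ∃ γ : ℝ, γ = r - δ / q := ⟨_, rfl⟩
  have hδq : δ / q < r := by
    rw [div_lt_iff₀ hq0, hδ]; linarith only [hrq]
  have hγ0 : 0 ≤ γ := by rw [hγ]; linarith only [hδq]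
  have hρ1 : 0 < r - γ := by
    have : 0 < δ / q := by positivity
    rw [hγ]; linarith only [this]
  have hρ2 : 0 < r - 1 / 2 - δ / 2 / 2 + γ * (q / 2 - 1) := by
    have e : r - 1 / 2 - δ / 2 / 2 + γ * (q / 2 - 1) = δ / 4 + δ / q := by
      rw [hγ]
      have : δ / q * q = δ := div_mul_cancel₀ _ hq0.ne'
      have h2 : (r - δ / q) * (q / 2 - 1) = r * q / 2 - r - (δ / q * q) / 2 + δ / q := by ring
      rw [h2, this, hδ]; ring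
    rw [e]; positivity
  obtain ⟨C0, hC0, hS0⟩ := sum_bound 0 (δ / 2) (by positivity)
  obtain ⟨C1, hC1, hS1⟩ := sum_bound (d - 1) (r - γ) hρ1
  obtain ⟨C2, hC2, hS2⟩ := sum_bound d (r - 1 / 2 - δ / 2 / 2 + γ * (q / 2 - 1)) hρ2
  obtain ⟨cA, hcA⟩ : ∃ cA : ℝ, cA = (2 * (d : ℝ)) ^ (d - 1) * (2 : ℝ) ^ (d - 1) * (2 : ℝ) ^ (-r) :=
    ⟨_, rfl⟩
  obtain ⟨cB, hcB⟩ : ∃ cB : ℝ, cB = Real.sqrt (2 * (2 * (d : ℝ)) ^ d *
    (Nat.factorial (d - 1) : ℝ)) * (2 : ℝ) ^ (1 / 2 - r) := ⟨_, rfl⟩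
  have hcA0 : 0 ≤ cA := by rw [hcA]; positivity
  have hcB0 : 0 ≤ cB := by rw [hcB]; positivity
  refine ⟨C0 + cA * C1 + cB * C2, by positivity, fun n hn => ?_⟩
  have hLpos : 0 < (Ln d n : ℝ) := by
    have h1 : (0 : ℝ) < ((n : ℝ) + 1) ^ (d - 1) := by positivity
    have h2 := lt_of_lt_of_le h1 (hcard d n (by omega)).1
    exact (pos_iff_pos_of_mul_pos h2).1 (by exact_mod_cast Nat.factorial_pos _)
  have hX : 0 < (2 : ℝ) ^ n * Ln d n := by positivity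
  obtain ⟨I, hI⟩ := floor_sum (δ / 2) ((2 : ℝ) ^ n * Ln d n) (by positivity) hX
  refine ⟨fun i => ⌊(2 : ℝ) ^ n * Ln d n * (2 : ℝ) ^ (-(δ / 2 * (i : ℝ)))⌋₊,
    fun i => (2 : ℝ) ^ (γ * (i : ℝ)), I, fun i => ?_, fun i hi => hI i hi, ?_, fun K => ?_⟩
  · exact Real.one_le_rpow (by norm_num) (by positivity)
  · calc ∑ i ∈ Finset.range I, ((⌊(2 : ℝ) ^ n * Ln d n *
          (2 : ℝ) ^ (-(δ / 2 * (i : ℝ)))⌋₊ : ℕ) : ℝ)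
        ≤ ∑ i ∈ Finset.range I, ((2 : ℝ) ^ n * Ln d n) *
          (((i : ℝ) + 1) ^ 0 * (2 : ℝ) ^ (-(δ / 2 * (i : ℝ)))) := by
          refine Finset.sum_le_sum fun i _ => ?_
          have := Nat.floor_le (show 0 ≤ (2 : ℝ) ^ n * Ln d n *
            (2 : ℝ) ^ (-(δ / 2 * (i : ℝ))) by positivity)
          simpa using this
      _ = ((2 : ℝ) ^ n * Ln d n) * ∑ i ∈ Finset.range I,
          (((i : ℝ) + 1) ^ 0 * (2 : ℝ) ^ (-(δ / 2 * (i : ℝ)))) := by rw [Finset.mul_sum]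
      _ ≤ ((2 : ℝ) ^ n * Ln d n) * C0 := mul_le_mul_of_nonneg_left (hS0 I) hX.le
      _ ≤ _ := by
          have h1 : 0 ≤ cA * C1 * ((2 : ℝ) ^ n * Ln d n) := by positivity
          have h2 : 0 ≤ cB * C2 * ((2 : ℝ) ^ n * Ln d n) := by positivity
          nlinarith only [h1, h2]
  · obtain ⟨TT, hTT⟩ : ∃ TT : ℝ, TT = (2 : ℝ) ^ (-(r * (n : ℝ))) * Real.sqrt n *
      (2 : ℝ) ^ ((1 / 2 - r) * (Jn d n : ℝ)) := ⟨_, rfl⟩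
    have hTT0 : 0 ≤ TT := by rw [hTT]; positivity
    have hTh : TT ≤ Th d r n := by rw [hTT]; exact th_bound d r n
    rw [Finset.sum_add_distrib]
    have hA : ∑ i ∈ Finset.range K, (2 : ℝ) ^ (-(r * ((n + Jn d n + 1 + i : ℕ) : ℝ))) *
        Ln d (n + Jn d n + 1 + i) * (2 : ℝ) ^ (γ * (i : ℝ)) ≤ cA * TT * C1 := by
      calc _ ≤ ∑ i ∈ Finset.range K, cA * TT *
            (((i : ℝ) + 1) ^ (d - 1) * (2 : ℝ) ^ (-((r - γ) * (i : ℝ)))) := by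
            refine Finset.sum_le_sum fun i _ => ?_
            rw [hcA, hTT]
            exact termA d r γ n i hcard hd hn
        _ = cA * TT * ∑ i ∈ Finset.range K,
            (((i : ℝ) + 1) ^ (d - 1) * (2 : ℝ) ^ (-((r - γ) * (i : ℝ)))) := by
            rw [Finset.mul_sum]
        _ ≤ _ := mul_le_mul_of_nonneg_left (hS1 K) (by positivity)
    have hB : ∑ i ∈ Finset.range K, (2 : ℝ) ^ ((1 / 2 - r) * ((n + Jn d n + 1 + i : ℕ) : ℝ)) *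
      Real.sqrt (Ln d (n + Jn d n + 1 + i) * (((n + Jn d n + 1 + i : ℕ) : ℝ) + 1) /
        ((⌊(2 : ℝ) ^ n * Ln d n * (2 : ℝ) ^ (-(δ / 2 * (i : ℝ)))⌋₊ : ℝ) + 1)) *
        ((2 : ℝ) ^ (γ * (i : ℝ))) ^ (1 - q / 2) ≤ cB * TT * C2 := by
      calc _ ≤ ∑ i ∈ Finset.range K, cB * TT * (((i : ℝ) + 1) ^ d *
            (2 : ℝ) ^ (-((r - 1 / 2 - δ / 2 / 2 + γ * (q / 2 - 1)) * (i : ℝ)))) := by
            refine Finset.sum_le_sum fun i _ => ?_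
            rw [hcB, hTT]
            exact termB d q r γ (δ / 2) n i hcard hd hn
        _ = cB * TT * ∑ i ∈ Finset.range K, (((i : ℝ) + 1) ^ d *
            (2 : ℝ) ^ (-((r - 1 / 2 - δ / 2 / 2 + γ * (q / 2 - 1)) * (i : ℝ)))) := by
            rw [Finset.mul_sum]
        _ ≤ _ := mul_le_mul_of_nonneg_left (hS2 K) (by positivity)
    have h3 : cA * TT * C1 + cB * TT * C2 ≤ (C0 + cA * C1 + cB * C2) * TT := by
      have : 0 ≤ C0 * TT := by positivity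
      nlinarith only [this]
    have h4 : (C0 + cA * C1 + cB * C2) * TT ≤ (C0 + cA * C1 + cB * C2) * Th d r n :=
      mul_le_mul_of_nonneg_left hTh (by positivity)
    exact (add_le_add hA hB).trans (h3.trans h4)

end Pool.Agent.KW
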