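import Pool.Agent.KW.Stmts

set_option autoImplicit false

/-!
# KW, module WID: the width of a ball in the sup norm over a finite set
-/

open MeasureTheory
open scoped BigOperators ENNReal

namespace Pool.Agent.KW

noncomputable section

namespace WID_

/-- Cauchy-Schwarz. -/
theorem cs {ι : Type} [Fintype ι] (a v : ι → ℝ) (R : ℝ) (hR : 0 ≤ R) (ha : ∑ i, a i ^ 2 ≤ 1)
    (hv : ∑ i, v i ^ 2 ≤ R ^ 2) : |∑ i, a i * v i| ≤ R := by
  have h := Finset.sum_mul_sq_le_sq_mul_sq Finset.univ a v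
  have h1 : (∑ i, a i ^ 2) * (∑ i, v i ^ 2) ≤ 1 * R ^ 2 :=
    mul_le_mul ha hv (Finset.sum_nonneg fun i _ => sq_nonneg _) zero_le_one
  rw [one_mul] at h1
  exact abs_le_of_sq_le_sq (h.trans h1) hR

/-- The double orthogonal complement. -/
theorem mem_span {ι : Type} [Fintype ι] {m : ℕ} (G : Fin m → ι → ℝ) (b : ι → ℝ)
    (h : ∀ w : ι → ℝ, (∀ j, ∑ i, G j i * w i = 0) → ∑ i, b i * w i = 0) :
    b ∈ Submodule.span ℝ (Set.range G) := by
  classical
  by_contra hb
  obtain ⟨f, hf, hf0⟩ := Submodule.exists_dual_map_eq_bot_of_notMem hb inferInstance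
  have hker : ∀ y ∈ Submodule.span ℝ (Set.range G), f y = 0 := by
    intro y hy
    have : f y ∈ (Submodule.span ℝ (Set.range G)).map f := Submodule.mem_map_of_mem hy
    rw [hf0] at this
    exact (Submodule.mem_bot ℝ).mp this
  have hsum : ∀ y : ι → ℝ, f y = ∑ i, y i * f (fun j => if i = j then 1 else 0) := by
    intro y
    rw [LinearMap.pi_apply_eq_sum_univ f y]
    rfl
  apply hf
  rw [hsum b]
  apply h
  intro j
  rw [← hsum (G j)]
  exact hker _ (Submodule.subset_span ⟨j, rfl⟩)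

theorem one_lt_log {N : ℕ} (hN : 1 ≤ N) : 1 < Real.log (2 * (N : ℝ) + 1) := by
  have h1 : (1 : ℝ) ≤ N := by exact_mod_cast hN
  rw [Real.lt_log_iff_exp_lt (by linarith)]
  have := Real.exp_one_lt_d9
  linarith

/-- The number of elements of the test set. -/
theorem card_bound (N k m : ℕ) (hN : 1 ≤ N) (hk : 1 ≤ k)
    (hkm : (k : ℝ) * Real.log (2 * (N : ℝ) + 1) ≤ m / 64) (c : ℝ)
    (hc : c ≤ (2 * (N : ℝ)) ^ k + N) : 2 * c ≤ Real.exp (m / 16) := by
  have hN1 : (1 : ℝ) ≤ N := by exact_mod_cast hN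
  set L := Real.log (2 * (N : ℝ) + 1) with hL
  have hL1 : 1 < L := one_lt_log hN
  have hpos : (0 : ℝ) < 2 * N + 1 := by linarith
  have h1 : (2 * (N : ℝ)) ^ k ≤ (2 * (N : ℝ) + 1) ^ k :=
    pow_le_pow_left₀ (by linarith) (by linarith) k
  have h2 : (N : ℝ) ≤ (2 * (N : ℝ) + 1) ^ k := by
    calc (N : ℝ) ≤ (2 * (N : ℝ) + 1) ^ 1 := by linarith
      _ ≤ (2 * (N : ℝ) + 1) ^ k := pow_le_pow_right₀ (by linarith) hk
  have h3 : 2 * c ≤ (2 * (N : ℝ) + 1) ^ (k + 2) := by
    have h4 : (9 : ℝ) ≤ (2 * (N : ℝ) + 1) ^ 2 := by nlinarith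
    have h5 : (0 : ℝ) < (2 * (N : ℝ) + 1) ^ k := by positivity
    rw [pow_add]
    nlinarith
  refine h3.trans ?_
  have h6 : (2 * (N : ℝ) + 1) ^ (k + 2) = Real.exp (((k + 2 : ℕ) : ℝ) * L) := by
    rw [Real.exp_nat_mul, hL, Real.exp_log hpos]
  rw [h6, Real.exp_le_exp]
  have hk1 : (1 : ℝ) ≤ k := by exact_mod_cast hk
  push_cast
  nlinarith

end WID_

theorem wid_proof (hJL : Stmt_JL) (hMaur : Stmt_Maur) (hDual : Stmt_Dual) : Stmt_Wid := by
  classical
  refine ⟨108, by norm_num, ?_⟩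
  intro X ι _ _ v R m hR hv
  by_cases hX : Nonempty X
  swap
  · refine ⟨⊥, by simp, fun a _ => ⟨0, Submodule.zero_mem _, fun x => absurd ⟨x⟩ hX⟩⟩
  set N := Fintype.card X with hN
  have hN1 : 1 ≤ N := Fintype.card_pos
  set L := Real.log (2 * (N : ℝ) + 1) with hL
  have hL1 : 1 < L := WID_.one_lt_log hN1
  have hm1 : (0 : ℝ) < (m : ℝ) + 1 := by positivity
  set k := ⌊(m : ℝ) / (64 * L)⌋₊ with hk
  have hkle : (k : ℝ) ≤ (m : ℝ) / (64 * L) := Nat.floor_le (by positivity)
  have hklt : (m : ℝ) / (64 * L) < k + 1 := Nat.lt_floor_add_one _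
  rcases Nat.eq_zero_or_pos k with hk0 | hkpos
  · refine ⟨⊥, by simp, fun a ha => ⟨0, Submodule.zero_mem _, fun x => ?_⟩⟩
    rw [hk0] at hklt
    have h1 : (m : ℝ) < 64 * L := by
      rw [div_lt_iff₀ (by positivity)] at hklt
      push_cast at hklt
      linarith
    have h2 : |∑ i, (a i - (0 : ι → ℝ) i) * v x i| ≤ R := by
      simp only [Pi.zero_apply, sub_zero]
      exact WID_.cs a (v x) R hR ha (hv x)
    refine h2.trans ?_
    have h3 : 1 ≤ 108 * Real.sqrt (L / (m + 1)) := by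
      have h4 : (1 / 108 : ℝ) ≤ Real.sqrt (L / (m + 1)) := by
        apply Real.le_sqrt_of_sq_le
        rw [le_div_iff₀ hm1]
        nlinarith
      linarith
    nlinarith
  · have hk1 : (1 : ℝ) ≤ k := by exact_mod_cast hkpos
    have hkL : (k : ℝ) * L ≤ m / 64 := by
      rw [le_div_iff₀ (by positivity)] at hkle
      linarith
    have hmpos : (1 : ℝ) ≤ m := by nlinarith
    -- the test set
    set S1 : Finset (ι → ℝ) := Finset.univ.image (fun σ : Fin k → X × Bool => fun i =>
      (∑ j, sgn (σ j).2 * v (σ j).1 i) / k) with hS1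
    set S2 : Finset (ι → ℝ) := Finset.univ.image v with hS2
    have hcard : (((S1 ∪ S2).card : ℕ) : ℝ) ≤ (2 * (N : ℝ)) ^ k + N := by
      have h1 : S1.card ≤ (N * 2) ^ k := by
        refine Finset.card_image_le.trans ?_
        simp [hN]
      have h2 : S2.card ≤ N := Finset.card_image_le
      have h3 : (S1 ∪ S2).card ≤ (N * 2) ^ k + N := (Finset.card_union_le _ _).trans (by omega)
      have h4 : (((S1 ∪ S2).card : ℕ) : ℝ) ≤ (((N * 2) ^ k + N : ℕ) : ℝ) := by exact_mod_cast h3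
      refine h4.trans (le_of_eq ?_)
      push_cast
      ring
    obtain ⟨G, hG⟩ := hJL ι m (S1 ∪ S2) (WID_.card_bound N k m hN1 hkpos hkL _ hcard)
    -- the kernel of `G`
    set V : Submodule ℝ (ι → ℝ) := LinearMap.ker (Matrix.mulVecLin (Matrix.of G)) with hV
    have hmemV : ∀ w : ι → ℝ, w ∈ V ↔ ∀ j, ∑ i, G j i * w i = 0 := by
      intro w
      rw [hV, LinearMap.mem_ker, Matrix.mulVecLin_apply, funext_iff]
      rfl
    set ε : ℝ := Real.sqrt (30 * R ^ 2 / k) with hε
    have hε2 : ε ^ 2 = 30 * R ^ 2 / k := Real.sq_sqrt (by positivity)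
    have hmain : ∀ c : X → ℝ, ∑ x, |c x| ≤ 1 → (fun i => ∑ x, c x * v x i) ∈ V →
        ∑ i, (∑ x, c x * v x i) ^ 2 ≤ ε ^ 2 := by
      intro c hc hcV
      rw [hmemV] at hcV
      have hsm : (0 : ℝ) < Real.sqrt m := Real.sqrt_pos.mpr (by linarith)
      have hsm2 : Real.sqrt m ^ 2 = m := Real.sq_sqrt (by linarith)
      obtain ⟨σ, hσ⟩ := hMaur X (ι ⊕ Fin m) (fun x => Sum.elim (v x)
        (fun j => (∑ i, G j i * v x i) / Real.sqrt m)) (Real.sqrt 5 * R) c k (by
          intro x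
          rw [Fintype.sum_sum_type]
          simp only [Sum.elim_inl, Sum.elim_inr]
          have h1 := (hG (v x) (Finset.mem_union_right _
            (Finset.mem_image_of_mem v (Finset.mem_univ x)))).2
          have h2 : ∑ j, ((∑ i, G j i * v x i) / Real.sqrt m) ^ 2 ≤ 4 * R ^ 2 := by
            simp_rw [div_pow, hsm2]
            rw [← Finset.sum_div, div_le_iff₀ (by linarith)]
            nlinarith [hv x]
          have h3 : (Real.sqrt 5 * R) ^ 2 = 5 * R ^ 2 := by
            rw [mul_pow, Real.sq_sqrt (by norm_num)]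
          rw [h3]
          linarith [hv x]) hc hkpos hX
      rw [Fintype.sum_sum_type] at hσ
      simp only [Sum.elim_inl, Sum.elim_inr] at hσ
      set w' : ι → ℝ := fun i => (∑ j, sgn (σ j).2 * v (σ j).1 i) / k with hw'
      have hw'S : w' ∈ S1 ∪ S2 := Finset.mem_union_left _
        (Finset.mem_image_of_mem (fun σ : Fin k → X × Bool => fun i =>
          (∑ j, sgn (σ j).2 * v (σ j).1 i) / k) (Finset.mem_univ σ))
      have hlow := (hG w' hw'S).1
      have e1 : ∀ j : Fin m, ∑ x, c x * ((∑ i, G j i * v x i) / Real.sqrt m) = 0 := by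
        intro j
        have : ∑ x, c x * ((∑ i, G j i * v x i) / Real.sqrt m) =
            (∑ i, G j i * ∑ x, c x * v x i) / Real.sqrt m := by
          simp_rw [← mul_div_assoc]
          rw [← Finset.sum_div]
          congr 1
          simp_rw [Finset.mul_sum]
          rw [Finset.sum_comm]
          refine Finset.sum_congr rfl fun i _ => Finset.sum_congr rfl fun x _ => ?_
          ring
        rw [this, hcV j, zero_div]
      have e2 : ∀ j : Fin m, (∑ t, sgn (σ t).2 * ((∑ i, G j i * v (σ t).1 i) / Real.sqrt m)) / k =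
          (∑ i, G j i * w' i) / Real.sqrt m := by
        intro j
        simp_rw [← mul_div_assoc]
        rw [← Finset.sum_div, div_right_comm]
        congr 1
        rw [hw']
        simp_rw [mul_div_assoc', ← Finset.sum_div]
        congr 1
        simp_rw [Finset.mul_sum]
        rw [Finset.sum_comm]
        refine Finset.sum_congr rfl fun i _ => Finset.sum_congr rfl fun x _ => ?_
        ring
      simp_rw [e1, e2, zero_sub, neg_sq, div_pow, hsm2, mul_pow,
        Real.sq_sqrt (show (0 : ℝ) ≤ 5 by norm_num)] at hσ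
      rw [← Finset.sum_div] at hσ
      set B := ∑ j, (∑ i, G j i * w' i) ^ 2 with hB
      set A := ∑ i, (∑ x, c x * v x i - w' i) ^ 2 with hA
      have hW : ∑ i, w' i ^ 2 ≤ 4 * (B / m) := by
        rw [← mul_div_assoc, le_div_iff₀ (by linarith)]
        linarith
      have hA0 : 0 ≤ A := Finset.sum_nonneg fun i _ => sq_nonneg _
      have hsum : ∑ i, (∑ x, c x * v x i) ^ 2 ≤ 3 * A + 3 / 2 * ∑ i, w' i ^ 2 := by
        rw [hA, Finset.mul_sum, Finset.mul_sum, ← Finset.sum_add_distrib]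
        refine Finset.sum_le_sum fun i _ => ?_
        nlinarith [sq_nonneg (2 * (∑ x, c x * v x i) - 3 * w' i)]
      rw [hε2]
      have h30 : 30 * R ^ 2 / (k : ℝ) = 6 * (5 * R ^ 2 / k) := by ring
      rw [h30]
      linarith
    refine ⟨Submodule.span ℝ (Set.range G), ?_, ?_⟩
    · have := finrank_range_le_card (R := ℝ) G
      simpa [Set.finrank] using this
    · intro a ha
      obtain ⟨b, hb, hb'⟩ := hDual X ι v V ε (Real.sqrt_nonneg _) hmain a ha
      refine ⟨b, WID_.mem_span G b fun w hw => hb w ((hmemV w).mpr hw), fun x => (hb' x).trans ?_⟩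
      have h1 : (m : ℝ) + 1 ≤ 256 * k * L := by
        rw [div_lt_iff₀ (by positivity)] at hklt
        nlinarith
      have h2 : ε ≤ Real.sqrt ((108 * R) ^ 2 * (L / (m + 1))) := by
        apply Real.sqrt_le_sqrt
        rw [div_le_iff₀ (by linarith), mul_div_assoc', div_mul_eq_mul_div, le_div_iff₀ hm1]
        have h3 : 0 ≤ R ^ 2 := sq_nonneg R
        have h4 : 30 * R ^ 2 * ((m : ℝ) + 1) ≤ 30 * R ^ 2 * (256 * k * L) :=
          mul_le_mul_of_nonneg_left h1 (by positivity)
        have h5 : 0 ≤ R ^ 2 * (k * L) := by positivity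
        nlinarith
      refine h2.trans (le_of_eq ?_)
      rw [Real.sqrt_mul (sq_nonneg _), Real.sqrt_sq (by positivity)]

end

end Pool.Agent.KW
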