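import Pool.Agent.KW.Stmts

set_option autoImplicit false

/-!
# KW, module WIDT: width of an ellipsoid of trigonometric polynomials in the sup norm
-/

open MeasureTheory
open scoped BigOperators ENNReal

namespace Pool.Agent.KW

noncomputable section

namespace WIDT_

theorem bessel {d : ℕ} (φ : Tor d → ℂ) (h : MemLp φ 2 (mu d)) (S : Finset (Fin d → ℤ)) :
    ∑ n ∈ S, ‖coef φ n‖ ^ 2 ≤ ∫ x, ‖φ x‖ ^ 2 ∂(mu d) := by
  have key := UnitAddTorus.hasSum_sq_mFourierCoeff (d := Fin d) (h.toLp φ)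
  have h1 : ∀ n, UnitAddTorus.mFourierCoeff (h.toLp φ : Tor d → ℂ) n = coef φ n := by
    intro n
    refine integral_congr_ae ?_
    filter_upwards [h.coeFn_toLp] with x hx
    rw [hx]
    rfl
  have h2 := sum_le_hasSum S (fun i _ => by positivity) key
  have h3 : ∫ x, ‖φ x‖ ^ 2 ∂(mu d) = ∫ x, ‖(h.toLp φ : Tor d → ℂ) x‖ ^ 2 ∂(mu d) := by
    refine integral_congr_ae ?_
    filter_upwards [h.coeFn_toLp] with x hx
    rw [hx]
  rw [h3]
  have h4 : ∑ n ∈ S, ‖coef φ n‖ ^ 2 =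
      ∑ n ∈ S, ‖UnitAddTorus.mFourierCoeff (h.toLp φ : Tor d → ℂ) n‖ ^ 2 :=
    Finset.sum_congr rfl fun n _ => by rw [← h1 n]
  rw [h4]
  exact h2

theorem integral_le_one {d : ℕ} (φ : Tor d → ℝ) (h : MemLp φ 2 (mu d))
    (h1 : eLpNorm φ 2 (mu d) ≤ 1) : ∫ x, ‖(φ x : ℂ)‖ ^ 2 ∂(mu d) ≤ 1 := by
  have h2 := h.eLpNorm_eq_integral_rpow_norm (by norm_num) (by norm_num)
  rw [h2] at h1
  have h3 : (∫ x, ‖φ x‖ ^ (2 : ℝ) ∂(mu d)) ^ ((2 : ℝ)⁻¹) ≤ 1 := by
    have := ENNReal.toReal_mono ENNReal.one_ne_top h1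
    rw [ENNReal.toReal_ofReal (by positivity)] at this
    simpa using this
  have h4 : 0 ≤ ∫ x, ‖φ x‖ ^ (2 : ℝ) ∂(mu d) := by positivity
  have h5 : ∫ x, ‖φ x‖ ^ (2 : ℝ) ∂(mu d) ≤ 1 := by
    by_contra hc
    push Not at hc
    have : 1 < (∫ x, ‖φ x‖ ^ (2 : ℝ) ∂(mu d)) ^ ((2 : ℝ)⁻¹) :=
      Real.one_lt_rpow hc (by norm_num)
    linarith
  refine le_trans (le_of_eq ?_) h5
  refine integral_congr_ae (Filter.Eventually.of_forall fun x => ?_)
  simp

theorem log_bound (d h : ℕ) (N : ℕ) (hN : N = (2 ^ (h + 2)) ^ d) :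
    Real.log (2 * (N : ℝ) + 1) ≤ (2 * (d : ℝ) + 2) * ((h : ℝ) + 1) := by
  have h1 : (2 * (N : ℝ) + 1) ≤ (2 : ℝ) ^ (2 + (h + 2) * d) := by
    have hN1 : (1 : ℝ) ≤ N := by
      rw [hN]; push_cast; exact one_le_pow₀ (one_le_pow₀ (by norm_num))
    have : (2 : ℝ) ^ (2 + (h + 2) * d) = 4 * N := by
      rw [hN, pow_add, pow_mul]; push_cast; ring
    rw [this]; linarith
  have h0 : (0 : ℝ) < 2 * (N : ℝ) + 1 := by positivity
  have h2 := Real.log_le_log h0 h1
  rw [Real.log_pow] at h2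
  have h3 : Real.log 2 ≤ 1 := by
    have := Real.log_two_lt_d9; linarith
  have h4 : ((2 + (h + 2) * d : ℕ) : ℝ) * Real.log 2 ≤ ((2 + (h + 2) * d : ℕ) : ℝ) * 1 :=
    mul_le_mul_of_nonneg_left h3 (by positivity)
  refine h2.trans (h4.trans ?_)
  push_cast
  have : (0 : ℝ) ≤ (d : ℝ) * h := by positivity
  have h5 : (0 : ℝ) ≤ (h : ℝ) := by positivity
  nlinarith

/-- The elements of the basis. -/
def wf {d : ℕ} (a : (Fin d → ℤ) → ℂ) (n : Fin d → ℤ) (e : Bool) : C(Tor d, ℝ) where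
  toFun x := if e then -(a n * ch n x).im else (a n * ch n x).re
  continuous_toFun := by
    have hc : Continuous fun x : Tor d => a n * ch n x := continuous_const.mul (ch_continuous n)
    cases e
    · exact Complex.continuous_re.comp hc
    · exact (Complex.continuous_im.comp hc).neg

theorem wf_false {d : ℕ} (a : (Fin d → ℤ) → ℂ) (n : Fin d → ℤ) (x : Tor d) :
    wf a n false x = (a n * ch n x).re := rfl

theorem wf_true {d : ℕ} (a : (Fin d → ℤ) → ℂ) (n : Fin d → ℤ) (x : Tor d) :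
    wf a n true x = -(a n * ch n x).im := rfl

theorem fourier_norm_ (k : ℤ) (x : UnitAddCircle) : ‖fourier k x‖ = 1 := by
  rw [fourier_apply]; exact Circle.norm_coe _

theorem ch_norm {d : ℕ} (n : Fin d → ℤ) (x : Tor d) : ‖ch n x‖ = 1 := by
  simp [ch, norm_prod, -fourier_apply, fourier_norm_]

theorem re_im (a c : ℂ) (p q : ℝ) :
    (((p : ℂ) + q * Complex.I) * a * c).re = p * (a * c).re + q * (-(a * c).im) := by
  simp [Complex.mul_re, Complex.mul_im]; ring

end WIDT_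

open WIDT_

theorem widt_proof (h1 : Stmt_Wid) (h2 : Stmt_Disc) (h3 : Stmt_Trig) : Stmt_WidT := by
  intro d
  obtain ⟨C, hC, hW⟩ := h1
  refine ⟨3 ^ d * C * Real.sqrt (2 * d + 2), by positivity, ?_⟩
  intro h a m
  have hM : NeZero (2 ^ (h + 2)) := ⟨by positivity⟩
  set M : ℕ := 2 ^ (h + 2) with hMdef
  set S := Box d (2 ^ h) with hS
  set R := Real.sqrt (∑ n ∈ S, ‖a n‖ ^ 2) with hR
  have hRsq : R ^ 2 = ∑ n ∈ S, ‖a n‖ ^ 2 := Real.sq_sqrt (by positivity)
  have hR0 : 0 ≤ R := Real.sqrt_nonneg _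
  obtain ⟨T, hT, hTa⟩ := hW (Fin d → ZMod M) (↥S × Bool)
    (fun y i => wf a i.1 i.2 (grd M y)) R m hR0 (by
      intro y
      rw [hRsq, Fintype.sum_prod_type]
      simp only [Fintype.sum_bool, wf_false, wf_true]
      rw [← Finset.sum_coe_sort S (fun n => ‖a n‖ ^ 2)]
      refine le_of_eq (Finset.sum_congr rfl fun n _ => ?_)
      have h5 : ‖a n * ch n (grd M y)‖ ^ 2 = ‖a n‖ ^ 2 := by
        rw [norm_mul, ch_norm, mul_one]
      rw [← h5, ← Complex.normSq_eq_norm_sq, Complex.normSq_apply]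
      ring)
  set L : (↥S × Bool → ℝ) →ₗ[ℝ] C(Tor d, ℝ) :=
    Fintype.linearCombination ℝ (fun i : ↥S × Bool => wf a i.1 i.2) with hL
  have hLapp : ∀ b x, L b x = ∑ i : ↥S × Bool, b i * wf a i.1 i.2 x := by
    intro b x
    rw [hL, Fintype.linearCombination_apply, ContinuousMap.sum_apply]
    rfl
  refine ⟨T.map L, inferInstance, (Submodule.finrank_map_le L T).trans hT, ?_⟩
  intro φ hφ hφ1
  set ψ : Tor d → ℂ := fun x => (φ x : ℂ) with hψ
  have hψm : MemLp ψ 2 (mu d) := hφ.ofReal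
  set c : ↥S × Bool → ℝ := fun i => if i.2 then (coef ψ i.1).im else (coef ψ i.1).re with hc
  have hcs : ∑ i, c i ^ 2 ≤ 1 := by
    rw [Fintype.sum_prod_type]
    simp only [Fintype.sum_bool, hc]
    have h5 := (bessel ψ hψm S).trans (integral_le_one φ hφ hφ1)
    rw [← Finset.sum_coe_sort S (fun n => ‖coef ψ n‖ ^ 2)] at h5
    refine le_trans (le_of_eq (Finset.sum_congr rfl fun n _ => ?_)) h5
    rw [← Complex.normSq_eq_norm_sq, Complex.normSq_apply]
    simp
    ring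
  obtain ⟨b, hbT, hb⟩ := hTa c hcs
  refine ⟨L b, Submodule.mem_map_of_mem hbT, ?_⟩
  -- the difference
  set z : (Fin d → ℤ) → ℂ := fun n => if hn : n ∈ S then
    (((c (⟨n, hn⟩, false) - b (⟨n, hn⟩, false) : ℝ) : ℂ) +
      ((c (⟨n, hn⟩, true) - b (⟨n, hn⟩, true) : ℝ) : ℂ) * Complex.I) * a n else 0 with hz
  have hzf : ∀ x, (∑ n ∈ S, z n * ch n x).re = ∑ i : ↥S × Bool, (c i - b i) * wf a i.1 i.2 x := by
    intro x
    rw [Complex.re_sum, ← Finset.sum_coe_sort S (fun n => (z n * ch n x).re),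
      Fintype.sum_prod_type]
    refine Finset.sum_congr rfl fun n _ => ?_
    have h5 : z n = (((c (n, false) - b (n, false) : ℝ) : ℂ) +
      ((c (n, true) - b (n, true) : ℝ) : ℂ) * Complex.I) * a n := by
      simp only [hz]
      rw [dif_pos n.2]
    rw [h5, re_im]
    simp only [Fintype.sum_bool, wf_false, wf_true]
    ring
  have hdiff : ∀ x, (∑ n ∈ S, a n * coef ψ n * ch n x).re - L b x =
      ∑ i : ↥S × Bool, (c i - b i) * wf a i.1 i.2 x := by
    intro x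
    have h5 : (∑ n ∈ S, a n * coef ψ n * ch n x).re =
        ∑ i : ↥S × Bool, c i * wf a i.1 i.2 x := by
      rw [Complex.re_sum, ← Finset.sum_coe_sort S (fun n => (a n * coef ψ n * ch n x).re),
        Fintype.sum_prod_type]
      refine Finset.sum_congr rfl fun n _ => ?_
      have h6 : a n * coef ψ n * ch n x =
          (((coef ψ n).re : ℂ) + ((coef ψ n).im : ℂ) * Complex.I) * a n * ch n x := by
        rw [Complex.re_add_im]; ring
      rw [h6, re_im]
      simp only [Fintype.sum_bool, wf_false, wf_true, hc]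
      simp
      ring
    rw [h5, hLapp, ← Finset.sum_sub_distrib]
    exact Finset.sum_congr rfl fun i _ => by ring
  have hM4 : 4 * 2 ^ h ≤ M := by rw [hMdef, pow_add]; omega
  set B := C * R * Real.sqrt (Real.log (2 * Fintype.card (Fin d → ZMod M) + 1) / (m + 1)) with hB
  have htr := h3.2.2.2.1 d (2 ^ h) z
  have hdisc := h2 d (2 ^ h) M Nat.one_le_two_pow hM4 _ htr B (by
    intro y
    have h5 := hb y
    rw [← hzf (grd M y)] at h5
    rw [Complex.norm_real, Real.norm_eq_abs]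
    exact h5)
  intro x
  have h6 := hdisc x
  rw [Complex.norm_real, Real.norm_eq_abs] at h6
  have h7 : (∑ n ∈ S, a n * coef ψ n * ch n x).re - L b x = (∑ n ∈ S, z n * ch n x).re := by
    rw [hdiff, hzf]
  rw [h7]
  refine h6.trans ?_
  have h8 : Real.log (2 * (Fintype.card (Fin d → ZMod M) : ℝ) + 1) ≤
      (2 * (d : ℝ) + 2) * ((h : ℝ) + 1) := by
    refine log_bound d h _ ?_
    rw [Fintype.card_fun, ZMod.card, Fintype.card_fin]
  have h9 : Real.sqrt (Real.log (2 * (Fintype.card (Fin d → ZMod M) : ℝ) + 1) / (m + 1)) ≤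
      Real.sqrt (2 * d + 2) * Real.sqrt (((h : ℝ) + 1) / (m + 1)) := by
    rw [← Real.sqrt_mul (by positivity)]
    refine Real.sqrt_le_sqrt ?_
    rw [← mul_div_assoc]
    exact div_le_div_of_nonneg_right h8 (by positivity)
  calc (3 : ℝ) ^ d * B ≤ 3 ^ d * (C * R * (Real.sqrt (2 * d + 2) *
        Real.sqrt (((h : ℝ) + 1) / (m + 1)))) := by
        refine mul_le_mul_of_nonneg_left ?_ (by positivity)
        rw [hB]
        exact mul_le_mul_of_nonneg_left h9 (by positivity)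
    _ = 3 ^ d * C * Real.sqrt (2 * d + 2) * Real.sqrt (((h : ℝ) + 1) / (m + 1)) * R := by ring

end

end Pool.Agent.KW
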