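import Pool.Agent.KW.CNV
import Pool.Agent.KW.LIP
import Pool.Agent.KW.LONE
import Pool.Agent.KW.LCIRC
import Pool.Agent.KW.BET
import Pool.Agent.KW.RHOB
import Pool.Agent.KW.BLK
import Pool.Agent.KW.LAYB
import Pool.Agent.KW.LMA
import Pool.Agent.KW.CREP
import Pool.Agent.KW.SUPN
import Pool.Agent.KW.CARD
import Pool.Agent.KW.DECO
import Pool.Agent.KW.MONO
import Pool.Agent.KW.UNIQ
import Pool.Agent.KW.BDD
import Pool.Agent.KW.CNT
import Pool.Agent.KW.MGF
import Pool.Agent.KW.SEPF
import Pool.Agent.KW.CORE
import Pool.Agent.KW.FRA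
import Pool.Agent.KW.FRK
import Pool.Agent.KW.CPLX
import Pool.Agent.KW.CPROD
import Pool.Agent.KW.DISC
import Pool.Agent.KW.DUAL
import Pool.Agent.KW.JOIN
import Pool.Agent.KW.MOMG
import Pool.Agent.KW.EXPG
import Pool.Agent.KW.LOWA
import Pool.Agent.KW.LOWB
import Pool.Agent.KW.LOWC
import Pool.Agent.KW.KER
import Pool.Agent.KW.ORTH
import Pool.Agent.KW.PSITWO
import Pool.Agent.KW.POWG
import Pool.Agent.KW.PSIK
import Pool.Agent.KW.LOWM
import Pool.Agent.KW.KAPE
import Pool.Agent.KW.MOMP
import Pool.Agent.KW.LOWG
import Pool.Agent.KW.TRIG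
import Pool.Agent.KW.QUAD
import Pool.Agent.KW.KCOEF
import Pool.Agent.KW.KAPC
import Pool.Agent.KW.LOWF
import Pool.Agent.KW.PACK
import Pool.Agent.KW.LOWK
import Pool.Agent.KW.SGNM
import Pool.Agent.KW.JL
import Pool.Agent.KW.MAUR
import Pool.Agent.KW.WID
import Pool.Agent.KW.WIDT
import Pool.Agent.KW.LMB
import Pool.Agent.KW.LMC
import Pool.Agent.KW.UPA
import Pool.Agent.KW.UPB
import Pool.Agent.KW.UPS
import Pool.Agent.KW.UPK
import Pool.Agent.KW.INTP
import Pool.Agent.KW.ORDL
import Pool.Agent.KW.ORDU
import Pool.Agent.KW.PSID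
import Pool.Agent.KW.MAIN
import Pool.Agent.KW.LITW
import Pool.Agent.KW.FINAL
import Pool.Agent.KW.INCL

set_option autoImplicit false

/-!
# KW: assembly
-/

namespace Pool.Agent.KW

theorem cnv_all : Stmt_Cnv := cnv_proof
theorem lip_all : Stmt_Lip := lip_proof
theorem lone_all : Stmt_LOne := lone_proof
theorem lcirc_all : Stmt_LCirc := lcirc_proof
theorem bet_all : Stmt_Bet := bet_proof
theorem rhob_all : Stmt_RhoB := rhob_proof
theorem blk_all : Stmt_Blk := blk_proof lip_all lone_all lcirc_all bet_all rhob_all
theorem layb_all : Stmt_LayB := layb_proof blk_all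
theorem lma_all : Stmt_LmA := lma_proof bet_all
theorem crep_all : Stmt_CRep := crep_proof rhob_all lma_all
theorem supn_all : Stmt_SupN := supn_proof
theorem card_all : Stmt_Card := card_proof
theorem deco_all : Stmt_Deco := deco_proof cnv_all layb_all crep_all lma_all supn_all card_all
theorem mono_all : Stmt_Mono := mono_proof
theorem uniq_all : Stmt_Uniq := uniq_proof
theorem bdd_all : Stmt_Bdd := bdd_proof deco_all mono_all uniq_all
theorem cnt_all : Stmt_Cnt := cnt_proof
theorem mgf_all : Stmt_Mgf := mgf_proof
theorem sepf_all : Stmt_SepF := sepf_proof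
theorem core_all : Stmt_Core := core_proof mgf_all cnt_all sepf_all
theorem fra_all : Stmt_FrA := fra_proof
theorem frk_all : Stmt_Frk := frk_proof fra_all rhob_all
theorem cplx_all : Stmt_Cplx := cplx_proof frk_all
theorem cprod_all : Stmt_CProd := cprod_proof
theorem disc_all : Stmt_Disc := disc_proof
theorem dual_all : Stmt_Dual := dual_proof
theorem join_all : Stmt_Join := join_proof
theorem momg_all : Stmt_MomG := momg_proof join_all
theorem expg_all : Stmt_ExpG := expg_proof momg_all card_all
theorem lowa_all : Stmt_LowA := lowa_proof card_all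
theorem lowb_all : Stmt_LowB := lowb_proof card_all
theorem lowc_all : Stmt_LowC := lowc_proof card_all
theorem ker_all : Stmt_Ker := ker_proof lip_all lone_all
theorem orth_all : Stmt_Orth := orth_proof
theorem psitwo_all : Stmt_PsiTwo := psitwo_proof ker_all orth_all
theorem powg_all : Stmt_PowG := powg_proof momg_all
theorem psik_all : Stmt_PsiK := psik_proof ker_all powg_all
theorem lowm_all : Stmt_LowM := lowm_proof lowa_all lowb_all lowc_all psitwo_all psik_all card_all
theorem kape_all : Stmt_KapE := kape_proof ker_all orth_all expg_all card_all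
theorem momp_all : Stmt_MomP := momp_proof
theorem lowg_all : Stmt_LowG := lowg_proof lowm_all kape_all mgf_all momp_all core_all card_all
theorem trig_all : Stmt_Trig := trig_proof
theorem quad_all : Stmt_Quad := quad_proof trig_all
theorem kcoef_all : Stmt_KCoef := kcoef_proof
theorem kapc_all : Stmt_KapC := kapc_proof kcoef_all cprod_all
theorem lowf_all : Stmt_LowF := lowf_proof lowg_all trig_all disc_all quad_all supn_all kapc_all
theorem pack_all : Stmt_Pack := pack_proof
theorem lowk_all : Stmt_LowK := lowk_proof lowf_all pack_all supn_all card_all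
theorem sgnm_all : Stmt_SgnM := sgnm_proof
theorem jl_all : Stmt_JL := jl_proof sgnm_all
theorem maur_all : Stmt_Maur := maur_proof
theorem wid_all : Stmt_Wid := wid_proof jl_all maur_all dual_all
theorem widt_all : Stmt_WidT := widt_proof wid_all disc_all trig_all
theorem lmb_all : Stmt_LmB := lmb_proof bet_all rhob_all
theorem lmc_all : Stmt_LmC := lmc_proof bet_all card_all
theorem upa_all : Stmt_UpA := upa_proof widt_all lma_all lmb_all lmc_all card_all
theorem upb_all : Stmt_UpB := upb_proof widt_all cnv_all layb_all crep_all lmb_all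
theorem ups_all : Stmt_UpS := ups_proof card_all
theorem upk_all : Stmt_UpK := upk_proof upa_all upb_all ups_all deco_all card_all supn_all uniq_all
theorem intp_all : Stmt_Intp := intp_proof deco_all mono_all
theorem ordl_all : Stmt_OrdL := ordl_proof
theorem ordu_all : Stmt_OrdU := ordu_proof
theorem psid_all : Stmt_PsiD := psid_proof
theorem main_all : Stmt_Main := main_proof lowk_all upk_all mono_all intp_all ordl_all ordu_all psid_all bdd_all
theorem litw_all : Stmt_LitW := litw_proof frk_all cprod_all uniq_all
theorem final_all : Stmt_Final := final_proof main_all litw_all cplx_all psid_all mono_all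

end Pool.Agent.KW
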