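import Pool.Agent.KW.Stmts

set_option autoImplicit false

/-!
# KW: module PSID
-/

open scoped BigOperators

namespace Pool.Agent.KW

theorem psid_proof : Stmt_PsiD := by
  intro d r hd hr
  refine ⟨(2 : ℝ) ^ (-r), Real.rpow_pos_of_pos two_pos _, fun m hm => ?_⟩
  have hm2 : (2 : ℝ) ≤ m := by exact_mod_cast hm
  have hm0 : (0 : ℝ) < m := by linarith
  have hlog : 0 < Real.log m := Real.log_pos (by linarith)
  have hcast : ((2 * m : ℕ) : ℝ) = 2 * (m : ℝ) := by push_cast; ring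
  have hlog2 : Real.log m ≤ Real.log (2 * (m : ℝ)) := Real.log_le_log hm0 (by linarith)
  have hmr : (0 : ℝ) < (m : ℝ) ^ (-r) := Real.rpow_pos_of_pos hm0 _
  have h2r : (0 : ℝ) < (2 : ℝ) ^ (-r) := Real.rpow_pos_of_pos two_pos _
  have hmul : (2 * (m : ℝ)) ^ (-r) = (2 : ℝ) ^ (-r) * (m : ℝ) ^ (-r) :=
    Real.mul_rpow two_pos.le hm0.le
  have hd' : (2 : ℝ) ≤ d := by exact_mod_cast hd
  have hpow : ∀ e : ℝ, 0 ≤ e → (Real.log m) ^ e ≤ (Real.log (2 * (m : ℝ))) ^ e :=
    fun e he => Real.rpow_le_rpow hlog.le hlog2 he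
  unfold psi
  rw [hcast]
  by_cases h1 : 1 / 2 < r
  · rw [if_pos h1, if_pos h1]
    have hp : 0 < (Real.log m) ^ (((d : ℝ) - 1) * r + 1 / 2) := Real.rpow_pos_of_pos hlog _
    refine ⟨mul_pos hmr hp, ?_⟩
    rw [hmul, mul_assoc]
    refine mul_le_mul_of_nonneg_left (mul_le_mul_of_nonneg_left (hpow _ ?_) hmr.le) h2r.le
    have : 0 ≤ ((d : ℝ) - 1) * r := mul_nonneg (by linarith) hr.le
    linarith
  · rw [if_neg h1, if_neg h1]
    by_cases h2 : r = 1 / 2
    · rw [if_pos h2, if_pos h2]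
      have hp : 0 < (Real.log m) ^ ((d : ℝ) / 2) := Real.rpow_pos_of_pos hlog _
      have hl3 : 0 < Real.log (3 + Real.log m) := Real.log_pos (by linarith)
      have hs : 0 < Real.sqrt (Real.log (3 + Real.log m)) := Real.sqrt_pos.2 hl3
      refine ⟨mul_pos (mul_pos hmr hp) hs, ?_⟩
      have hsq : Real.sqrt (Real.log (3 + Real.log m)) ≤
          Real.sqrt (Real.log (3 + Real.log (2 * (m : ℝ)))) :=
        Real.sqrt_le_sqrt (Real.log_le_log (by linarith) (by linarith))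
      have hpw := hpow ((d : ℝ) / 2) (by linarith)
      rw [hmul]
      calc (2 : ℝ) ^ (-r) * ((m : ℝ) ^ (-r) * (Real.log m) ^ ((d : ℝ) / 2) *
            Real.sqrt (Real.log (3 + Real.log m)))
          = ((2 : ℝ) ^ (-r) * (m : ℝ) ^ (-r)) * ((Real.log m) ^ ((d : ℝ) / 2) *
            Real.sqrt (Real.log (3 + Real.log m))) := by ring
        _ ≤ ((2 : ℝ) ^ (-r) * (m : ℝ) ^ (-r)) * ((Real.log (2 * (m : ℝ))) ^ ((d : ℝ) / 2) *
            Real.sqrt (Real.log (3 + Real.log (2 * (m : ℝ))))) := by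
          refine mul_le_mul_of_nonneg_left ?_ (mul_pos h2r hmr).le
          exact mul_le_mul hpw hsq hs.le (le_trans hp.le hpw)
        _ = _ := by ring
    · rw [if_neg h2, if_neg h2]
      have h3 : r < 1 / 2 := lt_of_le_of_ne (not_lt.1 h1) h2
      have hp : 0 < (Real.log m) ^ (((d : ℝ) - 1) * (1 - r) + r) := Real.rpow_pos_of_pos hlog _
      refine ⟨mul_pos hmr hp, ?_⟩
      rw [hmul, mul_assoc]
      refine mul_le_mul_of_nonneg_left (mul_le_mul_of_nonneg_left (hpow _ ?_) hmr.le) h2r.le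
      have : 0 ≤ ((d : ℝ) - 1) * (1 - r) := mul_nonneg (by linarith) (by linarith)
      linarith

end Pool.Agent.KW
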