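import Pool.Agent.KW.Defs

set_option autoImplicit false

/-!
# KW: exact statements of the modules
-/

open MeasureTheory
open scoped BigOperators ENNReal

namespace Pool.Agent.KW

noncomputable section

/-! ## Part A: counting and one-dimensional kernels -/

/-- CARD: the number of shapes. -/
def Stmt_Card : Prop := ∀ d l : ℕ, 1 ≤ d →
  ((l : ℝ) + 1) ^ (d - 1) ≤ (Nat.factorial (d - 1) : ℝ) * (Ln d l : ℝ) ∧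
    (Ln d l : ℝ) ≤ ((l : ℝ) + 1) ^ (d - 1) ∧ (∀ l' : ℕ, l ≤ l' → Ln d l ≤ Ln d l')

/-- LIP: windows times powers are Lipschitz. -/
def Stmt_Lip : Prop := ∀ ρ : ℝ, ∃ C : ℝ, 0 < C ∧ ∀ w : ℝ → ℝ, (∀ t, |w t| ≤ 1) →
  (∀ t, t < 1 / 2 ∨ 4 < t → w t = 0) → (∀ t u, |w t - w u| ≤ 2 * |t - u|) →
  (∀ t, |w t * t ^ ρ| ≤ C) ∧ ∀ t u, |w t * t ^ ρ - w u * u ^ ρ| ≤ C * |t - u|

/-- LONE: the `L_1` norm on the grid of a polynomial with Lipschitz coefficients. -/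
def Stmt_LOne : Prop := ∃ C : ℝ, 0 < C ∧ ∀ (n M : ℕ) [NeZero M] (a : ℤ) (c : ℤ → ℂ) (B : ℝ),
  1 ≤ n → 4 * n ≤ M → (∀ k : ℤ, k ≤ a ∨ a + 3 * n ≤ k → c k = 0) → (∀ k, ‖c k‖ ≤ B) →
  (∀ k, ‖c k - c (k - 1)‖ ≤ B / n) →
  avg (fun y : ZMod M => ‖∑ k ∈ Finset.Ioo a (a + 3 * n), c k * fourier k (gr M y)‖) ≤ C * B

/-- KER: bounds of the one-dimensional kernels of the lower bound. -/
def Stmt_Ker : Prop := ∀ ρ : ℝ, ∃ C : ℝ, 1 ≤ C ∧ ∀ (θ : ℝ) (s : ℕ),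
  (∀ x, |ker ρ θ s x| ≤ C) ∧
  ∀ (M : ℕ) [NeZero M], 2 ^ (s + 2) ≤ M →
    avg (fun y : ZMod M => |ker ρ θ s (gr M y)|) ≤ C * ((2 : ℝ) ^ s)⁻¹

/-- ORTH: orthogonality on the grid, and the value at zero. -/
def Stmt_Orth : Prop := (∀ s, ker 0 0 s 0 = 1) ∧
  ∀ (ρ θ : ℝ) (s s' M : ℕ) [NeZero M], s ≠ s' → 2 ^ (s + 3) ≤ M → 2 ^ (s' + 3) ≤ M →
    ∑ y : ZMod M, ker ρ θ s (gr M y) * ker ρ θ s' (gr M y) = 0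

/-- KCOEF: the kernels for `f` and `φ` are related by the multiplier `rho`. -/
def Stmt_KCoef : Prop := ∀ (r α : ℝ) (s : ℕ) (y : UnitAddCircle) (k : ℤ),
  ∫ x, fourier (-k) x * ((ker 0 0 s (x - y) : ℝ) : ℂ) ∂AddCircle.haarAddCircle =
    rho r α k * ∫ x, fourier (-k) x *
      (((2 : ℝ) ^ (r * s) * ker r (α * Real.pi / 2) s (x - y) : ℝ) : ℂ)
        ∂AddCircle.haarAddCircle

/-- CPROD: Fourier coefficients of tensor products. -/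
def Stmt_CProd : Prop := ∀ (d : ℕ) (v : Fin d → UnitAddCircle → ℝ), (∀ i, Continuous (v i)) →
  ∀ n : Fin d → ℤ, coef (fun x => ((∏ i, v i (x i) : ℝ) : ℂ)) n =
    ∏ i, ∫ x, fourier (-(n i)) x * ((v i x : ℝ) : ℂ) ∂AddCircle.haarAddCircle

/-- KAPC: the Fourier coefficients of the test functions. -/
def Stmt_KapC : Prop := ∀ (d : ℕ) (b : ℕ → ℝ) (h : ℕ) (r α : ℝ) (N M : ℕ) [NeZero M]
  (ω : Fin N → (Fin d → ZMod M) × Bool) (n : Fin d → ℤ),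
  coef (fun x => ((TS (kap d b h 0 0) ω x : ℝ) : ℂ)) n = (∏ i, rho r α (n i)) *
    coef (fun x => ((TS (kap d (fun l => b l * (2 : ℝ) ^ (r * l)) h r (α * Real.pi / 2)) ω x : ℝ)
      : ℂ)) n

/-! ## Part B: moments of the hyperbolic kernels on the grid -/

/-- The hypotheses on the one-dimensional functions. -/
def GHyp (C : ℝ) (l M : ℕ) [NeZero M] (g : ℕ → ZMod M → ℝ) : Prop :=
  (∀ s ≤ l, ∀ y, 0 ≤ g s y ∧ g s y ≤ 1) ∧ ∀ s ≤ l, avg (g s) ≤ C * ((2 : ℝ) ^ s)⁻¹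

/-- JOIN: the sum over all joins of `p` shapes. -/
def Stmt_Join : Prop := ∀ d l p : ℕ, 1 ≤ d → 1 ≤ p →
  ∑ t ∈ Fintype.piFinset (fun _ : Fin p => Sh d l),
      ∏ i : Fin d, ((2 : ℝ) ^ (Finset.univ.sup fun j : Fin p => t j i))⁻¹ ≤
    Ln d l * ((2 : ℝ) ^ l)⁻¹ *
      ∑ k ∈ Finset.range (d * l + 1), ((2 : ℝ) ^ k)⁻¹ * ((k : ℝ) + 1) ^ (d - 1) *
        (min (((k : ℝ) + 1) ^ (d - 1)) (Ln d l)) ^ (p - 1)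

/-- MOMG: all moments. -/
def Stmt_MomG : Prop := ∀ d : ℕ, 1 ≤ d → ∀ C : ℝ, 1 ≤ C → ∀ (l M : ℕ) [NeZero M]
  (g : ℕ → ZMod M → ℝ), GHyp C l M g → ∀ p : ℕ, 1 ≤ p →
  avg (fun x : Fin d → ZMod M => Gs g l x ^ p) ≤ C ^ d * Ln d l * ((2 : ℝ) ^ l)⁻¹ *
    ∑ k ∈ Finset.range (d * l + 1), ((2 : ℝ) ^ k)⁻¹ * ((k : ℝ) + 1) ^ (d - 1) *
      (min (((k : ℝ) + 1) ^ (d - 1)) (Ln d l)) ^ (p - 1)

/-- POWG: the moment of order `p`. -/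
def Stmt_PowG : Prop := ∀ (d p : ℕ), 1 ≤ d → 1 ≤ p → ∀ C : ℝ, 1 ≤ C → ∃ C' : ℝ, 0 < C' ∧
  ∀ (l M : ℕ) [NeZero M] (g : ℕ → ZMod M → ℝ), GHyp C l M g →
    avg (fun x : Fin d → ZMod M => Gs g l x ^ p) ≤ C' * (Ln d l * ((2 : ℝ) ^ l)⁻¹)

/-- EXPG: the exponential moment. -/
def Stmt_ExpG : Prop := ∀ d : ℕ, 2 ≤ d → ∀ C : ℝ, 1 ≤ C → ∃ c C' : ℝ, 0 < c ∧ 0 < C' ∧
  ∀ (l M : ℕ) [NeZero M] (g : ℕ → ZMod M → ℝ), GHyp C l M g → ∀ lam : ℝ, 0 ≤ lam →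
    lam * Ln d l ≤ c * (l + 1) →
    avg (fun x : Fin d → ZMod M => Real.cosh (lam * Gs g l x) - 1) ≤
      C' * lam ^ 2 * (Ln d l * ((2 : ℝ) ^ l)⁻¹)

/-- PSITWO: second moment of the combined kernel (orthogonality). -/
def Stmt_PsiTwo : Prop := ∀ d : ℕ, 1 ≤ d → ∀ ρ : ℝ, ∃ C : ℝ, 0 < C ∧
  ∀ (θ : ℝ) (b : ℕ → ℝ) (h M : ℕ) [NeZero M], 2 ^ (h + 3) ≤ M →
    avg (fun x : Fin d → ZMod M => (kap d b h ρ θ (grd M x)) ^ 2) ≤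
      C * ∑ l ∈ Finset.range (h + 1), (b l) ^ 2 * (Ln d l * ((2 : ℝ) ^ l)⁻¹)

/-- PSIK: moment of order `2 k` of the combined kernel (Minkowski / Jensen). -/
def Stmt_PsiK : Prop := ∀ d k : ℕ, 1 ≤ d → 1 ≤ k → ∀ ρ : ℝ, ∃ C : ℝ, 0 < C ∧
  ∀ (θ : ℝ) (b : ℕ → ℝ) (h M : ℕ) [NeZero M], 2 ^ (h + 3) ≤ M →
    avg (fun x : Fin d → ZMod M => (kap d b h ρ θ (grd M x)) ^ (2 * k)) ≤
      C * (∑ l ∈ Finset.range (h + 1), |b l| *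
        ((Ln d l : ℝ) * ((2 : ℝ) ^ l)⁻¹) ^ (1 / (2 * (k : ℝ)))) ^ (2 * k)

/-- KAPE: exponential moment of the combined kernel (convexity of cosh). -/
def Stmt_KapE : Prop := ∀ d : ℕ, 2 ≤ d → ∃ c C : ℝ, 0 < c ∧ 0 < C ∧
  ∀ (b : ℕ → ℝ) (h n M : ℕ) [NeZero M] (P θ : ℝ), 2 ^ (h + 3) ≤ M → (∀ l, 0 ≤ b l) →
    (∀ l < n, b l = 0) → P = ∑ l ∈ Finset.range (h + 1), b l * Ln d l → 0 < P → 0 ≤ θ →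
    θ * P ≤ c * (n + 1) →
    kap d b h 0 0 0 = P ∧
    avg (fun x : Fin d → ZMod M => Real.cosh (θ * kap d b h 0 0 (grd M x)) - 1) ≤
      C * (θ * P) ^ 2 * (((2 : ℝ) ^ n)⁻¹ * (Ln d n : ℝ)⁻¹)

/-! ## Part C: random sums -/

/-- MGF: the exponential moment of a random sum, and the tail. -/
def Stmt_Mgf : Prop := ∀ (Ω : Type) [AddCommGroup Ω] [Fintype Ω] (N : ℕ) (κ : Ω → ℝ) (x : Ω),
  (∀ θ : ℝ, avg (fun ω : Fin N → Ω × Bool => Real.cosh (θ * RS κ ω x)) =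
    (avg fun y => Real.cosh (θ * κ y)) ^ N) ∧
  ∀ θ a : ℝ, 0 ≤ θ → avg (fun ω : Fin N → Ω × Bool => if a ≤ |RS κ ω x| then (1 : ℝ) else 0) ≤
    2 * Real.exp (-(θ * a)) * (avg fun y => Real.cosh (θ * κ y)) ^ N

/-- MOMP: even moments of a random sum. -/
def Stmt_MomP : Prop := ∀ p : ℕ, ∃ C : ℝ, 0 < C ∧ ∀ (Ω : Type) [AddCommGroup Ω] [Fintype Ω]
  (N : ℕ) (Ψ : Ω → ℝ) (Q : ℝ), 1 ≤ Q →
  (∀ k, 1 ≤ k → k ≤ p → (N : ℝ) * avg (fun y => Ψ y ^ (2 * k)) ≤ Q) →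
  ∀ x : Ω, avg (fun ω : Fin N → Ω × Bool => RS Ψ ω x ^ (2 * p)) ≤ C * Q ^ p

/-- CNT: few configurations have most of their points in a small set. -/
def Stmt_Cnt : Prop := ∀ (Ω : Type) [Fintype Ω] [DecidableEq Ω] (N : ℕ) (T : Finset Ω) (δ : ℝ),
  1 ≤ N → 0 < Fintype.card Ω → 0 ≤ δ → (T.card : ℝ) ≤ δ * Fintype.card Ω →
  ((Finset.univ.filter fun ω : Fin N → Ω × Bool =>
      3 * (N : ℝ) / 4 ≤ ((Finset.univ.filter fun i => (ω i).1 ∈ T).card : ℝ)).card : ℝ) ≤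
    2 ^ N * δ ^ (3 * (N : ℝ) / 4) * (2 * (Fintype.card Ω : ℝ)) ^ N

/-- SEPF: maximal separated families. -/
def Stmt_SepF : Prop := ∀ (E : Type) [DecidableEq E] (G : Finset E) (near : E → E → Prop)
  (K : ℝ), (∀ a b, near a b → near b a) → (∀ a ∈ G, near a a) →
  (∀ b ∈ G, ∃ S : Finset E, (∀ a ∈ G, near a b → a ∈ S) ∧ (S.card : ℝ) ≤ K) →
  ∃ F : Finset E, F ⊆ G ∧ (G.card : ℝ) ≤ F.card * K ∧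
    ∀ a ∈ F, ∀ b ∈ F, a ≠ b → ¬ near a b

/-- CORE: a large separated family of random sums. -/
def Stmt_Core : Prop := ∀ (Ω : Type) [AddCommGroup Ω] [Fintype Ω] [DecidableEq Ω] (N p : ℕ)
  (κ Ψ : Ω → ℝ) (P θ B τ Q : ℝ), 1 ≤ N → 0 < P → κ 0 = P → 0 ≤ θ → 0 < Q →
  2 * Real.exp (-(θ * (P / 4))) * (avg fun y => Real.cosh (θ * κ y)) ^ N ≤ τ → τ ≤ 1 / 32 →
  (Fintype.card Ω : ℝ) *
    (2 * Real.exp (-(θ * (B * P))) * (avg fun y => Real.cosh (θ * κ y)) ^ N) ≤ 1 / 8 →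
  (∀ x : Ω, avg (fun ω : Fin N → Ω × Bool => RS Ψ ω x ^ (2 * p)) ≤ Q) →
  ∃ F : Finset (Fin N → Ω × Bool),
    1 / 2 ≤ (F.card : ℝ) * (2 ^ N * (8 * τ) ^ (3 * (N : ℝ) / 4)) ∧
    (∀ ω ∈ F, ∀ x, |RS κ ω x| ≤ B * P) ∧
    (∀ ω ∈ F, avg (fun x => RS Ψ ω x ^ (2 * p)) ≤ 8 * Q) ∧
    ∀ ω ∈ F, ∀ ω' ∈ F, ω ≠ ω' → ∃ x, P / 2 ≤ |RS κ ω x - RS κ ω' x|

/-- PACK: packing in a finite-dimensional space. -/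
def Stmt_Pack : Prop := ∀ (X : Type) [NormedAddCommGroup X] [NormedSpace ℝ X]
  (U : Submodule ℝ X) (m : ℕ) (ι : Type) [Fintype ι] (u : ι → X) (R δ : ℝ),
  FiniteDimensional ℝ U → Module.finrank ℝ U ≤ m → (∀ i, u i ∈ U) → 0 ≤ R → 0 < δ →
  (∀ i, ‖u i‖ ≤ R) → (∀ i j, i ≠ j → δ ≤ ‖u i - u j‖) →
  (Fintype.card ι : ℝ) ≤ (1 + 2 * R / δ) ^ m

/-! ## Part D: trigonometric polynomials on the torus -/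

/-- TRIG: algebra of trigonometric polynomials. -/
def Stmt_Trig : Prop :=
  (∀ (d D D' : ℕ) (f g : Tor d → ℂ), f ∈ Trig d D → g ∈ Trig d D' → f * g ∈ Trig d (D + D')) ∧
  (∀ (d D : ℕ) (f : Tor d → ℂ), f ∈ Trig d D → Continuous f) ∧
  (∀ (d D : ℕ) (f : Tor d → ℂ) (a : Tor d), f ∈ Trig d D → (fun x => f (x - a)) ∈ Trig d D) ∧
  (∀ (d D : ℕ) (z : (Fin d → ℤ) → ℂ),
    RTrig D (fun x : Tor d => (∑ n ∈ Box d D, z n * ch n x).re)) ∧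
  ∀ (d : ℕ) (b : ℕ → ℝ) (h : ℕ) (ρ θ : ℝ) (N M : ℕ) [NeZero M]
    (ω : Fin N → (Fin d → ZMod M) × Bool), RTrig (2 ^ (h + 2)) (TS (kap d b h ρ θ) ω)

/-- DISC: the sup norm is controlled by the grid. -/
def Stmt_Disc : Prop := ∀ (d D M : ℕ) [NeZero M], 1 ≤ D → 4 * D ≤ M → ∀ f ∈ Trig d D,
  ∀ B : ℝ, (∀ y : Fin d → ZMod M, ‖f (grd M y)‖ ≤ B) → ∀ x, ‖f x‖ ≤ 3 ^ d * B

/-- LCIRC: the `L_1` norm on the circle is controlled by the grid. -/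
def Stmt_LCirc : Prop := ∀ (D M : ℕ) [NeZero M], 1 ≤ D → 4 * D ≤ M → ∀ c : ℤ → ℂ,
  ∫ x : UnitAddCircle, ‖∑ k ∈ Finset.Icc (-(D : ℤ)) D, c k * fourier k x‖
      ∂AddCircle.haarAddCircle ≤
    3 * avg (fun y : ZMod M => ‖∑ k ∈ Finset.Icc (-(D : ℤ)) D, c k * fourier k (gr M y)‖)

/-- QUAD: exactness of the grid quadrature, and its consequence for `L_{2p}` norms. -/
def Stmt_Quad : Prop :=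
  (∀ (d D M : ℕ) [NeZero M], D < M → ∀ f ∈ Trig d D,
    ∫ x, f x ∂(mu d) = (∑ y : Fin d → ZMod M, f (grd M y)) / (M : ℂ) ^ d) ∧
  ∀ (d D M p : ℕ) [NeZero M] (f : Tor d → ℝ) (Q : ℝ), 1 ≤ p → 2 * p * D < M → RTrig D f →
    0 ≤ Q → avg (fun y : Fin d → ZMod M => f (grd M y) ^ (2 * p)) ≤ Q ^ (2 * p) →
    eLpNorm f (2 * p : ℕ) (mu d) ≤ ENNReal.ofReal Q

/-- SUPN: the norm in `L_∞` of a continuous function is the sup norm. -/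
def Stmt_SupN : Prop := ∀ (d : ℕ) (f : C(Tor d, ℝ)), ‖toL f‖ = ‖f‖

/-! ## Part E: the lower bound for finite `q` -/

/-- LOWA: second moment of the weights. -/
def Stmt_LowA : Prop := ∀ (d : ℕ) (r : ℝ), 2 ≤ d → 0 < r → ∃ C : ℝ, 0 < C ∧
  ∀ (A : ℝ) (n J : ℕ), 1 ≤ A → 1 ≤ n → J ≤ n →
    ∑ l ∈ Finset.range (n + J + 1), (wt d r A n J l * (2 : ℝ) ^ (r * l)) ^ 2 *
      (Ln d l * ((2 : ℝ) ^ l)⁻¹) ≤ C * (A ^ 2 * n / ((2 : ℝ) ^ n * Ln d n))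

/-- LOWB: higher moments of the weights. -/
def Stmt_LowB : Prop := ∀ (d k : ℕ) (r : ℝ), 2 ≤ d → 2 ≤ k → 0 < r → ∃ C : ℝ, 0 < C ∧
  ∀ (A : ℝ) (n J : ℕ), 1 ≤ A → 1 ≤ n → J ≤ n → A ^ 2 * n * (2 : ℝ) ^ J ≤ (Ln d n : ℝ) ^ 2 →
    (∑ l ∈ Finset.range (n + J + 1), |wt d r A n J l * (2 : ℝ) ^ (r * l)| *
      ((Ln d l : ℝ) * ((2 : ℝ) ^ l)⁻¹) ^ (1 / (2 * (k : ℝ)))) ^ (2 * k) ≤
        C * (A ^ 2 * n / ((2 : ℝ) ^ n * Ln d n))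

/-- LOWC: the choice of the number of layers, and the peak. -/
def Stmt_LowC : Prop := ∀ (d : ℕ) (r A : ℝ), 2 ≤ d → 0 < r → 1 ≤ A → ∃ (c : ℝ) (n₀ : ℕ),
  0 < c ∧ ∀ n ≥ n₀, ∃ J : ℕ, J ≤ n ∧ A ^ 2 * n * (2 : ℝ) ^ J ≤ (Ln d n : ℝ) ^ 2 ∧
    c * Ssq r (Jn d n) ≤ Ssq r J ∧
    c * Th d r n ≤ ∑ l ∈ Finset.range (n + J + 1), wt d r A n J l * Ln d l

/-- LOWM: the moments and the peak of the test kernel. -/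
def Stmt_LowM : Prop := ∀ (d p : ℕ) (r : ℝ), 2 ≤ d → 1 ≤ p → 0 < r → ∃ Q : ℝ, 1 ≤ Q ∧
  ∀ A : ℝ, 1 ≤ A → ∃ (c : ℝ) (n₀ : ℕ), 0 < c ∧ ∀ n ≥ n₀, ∃ (J N : ℕ) (b : ℕ → ℝ) (P : ℝ),
    J ≤ n ∧ 1 ≤ N ∧ (∀ l, 0 ≤ b l) ∧ (∀ l < n, b l = 0) ∧
    P = ∑ l ∈ Finset.range (n + J + 1), b l * Ln d l ∧
    c * Th d r n ≤ P ∧
    (N : ℝ) ≤ (2 : ℝ) ^ n * Ln d n / (A ^ 2 * n) ∧ c * ((2 : ℝ) ^ n * Ln d n) ≤ n * (N : ℝ) ∧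
    ∀ (θ : ℝ) (M : ℕ) [NeZero M], 2 ^ (n + J + 3) ≤ M → ∀ k, 1 ≤ k → k ≤ p →
      (N : ℝ) * avg (fun x : Fin d → ZMod M =>
        (kap d (fun l => b l * (2 : ℝ) ^ (r * l)) (n + J) r θ (grd M x)) ^ (2 * k)) ≤ Q

/-- LOWG: a large family of separated random sums on the grid. -/
def Stmt_LowG : Prop := ∀ (d p : ℕ) (r θ : ℝ), 2 ≤ d → 1 ≤ p → 0 < r →
  ∃ (c B Q : ℝ) (n₀ : ℕ), 0 < c ∧ 0 < B ∧ 0 < Q ∧ ∀ n ≥ n₀,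
    ∃ (h M N : ℕ) (_ : NeZero M) (b : ℕ → ℝ) (P : ℝ) (F : Finset (Fin N → (Fin d → ZMod M) × Bool)),
    4 * 2 ^ (h + 2) ≤ M ∧ 2 * p * 2 ^ (h + 2) < M ∧ 0 < P ∧ c * Th d r n ≤ P ∧
    Real.exp (c * ((2 : ℝ) ^ n * Ln d n)) ≤ F.card ∧
    (∀ ω ∈ F, ∀ x, |RS (fun y => kap d b h 0 0 (grd M y)) ω x| ≤ B * P) ∧
    (∀ ω ∈ F, avg (fun x => RS (fun y => kap d (fun l => b l * (2 : ℝ) ^ (r * l)) h r θ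
      (grd M y)) ω x ^ (2 * p)) ≤ Q ^ (2 * p)) ∧
    ∀ ω ∈ F, ∀ ω' ∈ F, ω ≠ ω' → ∃ x, P ≤ |RS (fun y => kap d b h 0 0 (grd M y)) ω x -
      RS (fun y => kap d b h 0 0 (grd M y)) ω' x|

/-- LOWF: a large family of separated test functions. -/
def Stmt_LowF : Prop := ∀ (d p : ℕ) (r α : ℝ), 2 ≤ d → 1 ≤ p → 0 < r →
  ∃ (c B : ℝ) (n₀ : ℕ), 0 < c ∧ 0 < B ∧ ∀ n ≥ n₀, ∃ (P : ℝ) (F : Finset C(Tor d, ℝ)),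
    0 < P ∧ c * Th d r n ≤ P ∧
    Real.exp (c * ((2 : ℝ) ^ n * Ln d n)) ≤ F.card ∧
    (∀ f ∈ F, ‖f‖ ≤ B * P) ∧
    (∀ f ∈ F, ∀ g ∈ F, f ≠ g → P ≤ ‖f - g‖) ∧
    ∀ f ∈ F, toL f ∈ W d (2 * p : ℕ) r α

/-- LOWK: the lower bound of the width. -/
def Stmt_LowK : Prop := ∀ (d p : ℕ) (r α : ℝ), 2 ≤ d → 1 ≤ p → 0 < r →
  ∃ (c : ℝ) (n₀ : ℕ), 0 < c ∧ ∀ n ≥ n₀, ∀ m : ℕ, (m : ℝ) ≤ c * ((2 : ℝ) ^ n * (n : ℝ) ^ (d - 1)) →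
    ENNReal.ofReal (c * Th d r n) ≤ kol ℝ (W d (2 * p : ℕ) r α) m

/-! ## Part F: widths of ellipsoids in the sup norm -/

/-- SGNM: exponential moments of the square of a sum of random signs. -/
def Stmt_SgnM : Prop := ∀ (ι : Type) [Fintype ι] [DecidableEq ι] (w : ι → ℝ), ∑ i, w i ^ 2 = 1 →
  avg (fun ε : ι → Bool => Real.exp (-((∑ i, sgn (ε i) * w i) ^ 2 / 4))) ≤ 27 / 32 ∧
  avg (fun ε : ι → Bool => Real.exp ((∑ i, sgn (ε i) * w i) ^ 2 / 4)) ≤ 2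

/-- JL: the Johnson-Lindenstrauss lemma with signs. -/
def Stmt_JL : Prop := ∀ (ι : Type) [Fintype ι] [DecidableEq ι] (m : ℕ) (S : Finset (ι → ℝ)),
  2 * (S.card : ℝ) ≤ Real.exp (m / 16) → ∃ G : Fin m → ι → ℝ, ∀ w ∈ S,
    (m : ℝ) / 4 * ∑ i, w i ^ 2 ≤ ∑ j, (∑ i, G j i * w i) ^ 2 ∧
    ∑ j, (∑ i, G j i * w i) ^ 2 ≤ 4 * m * ∑ i, w i ^ 2

/-- MAUR: Maurey's lemma in coordinates. -/
def Stmt_Maur : Prop := ∀ (X ι : Type) [Fintype X] [Fintype ι] (v : X → ι → ℝ) (R : ℝ)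
  (c : X → ℝ) (k : ℕ), (∀ x, ∑ i, v x i ^ 2 ≤ R ^ 2) → ∑ x, |c x| ≤ 1 → 1 ≤ k → Nonempty X →
  ∃ σ : Fin k → X × Bool,
    ∑ i, (∑ x, c x * v x i - (∑ j, sgn (σ j).2 * v (σ j).1 i) / k) ^ 2 ≤ R ^ 2 / k

/-- DUAL: from Gelfand to Kolmogorov. -/
def Stmt_Dual : Prop := ∀ (X ι : Type) [Fintype X] [Fintype ι] (v : X → ι → ℝ)
  (V : Submodule ℝ (ι → ℝ)) (ε : ℝ), 0 ≤ ε →
  (∀ c : X → ℝ, ∑ x, |c x| ≤ 1 → (fun i => ∑ x, c x * v x i) ∈ V →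
    ∑ i, (∑ x, c x * v x i) ^ 2 ≤ ε ^ 2) →
  ∀ a : ι → ℝ, ∑ i, a i ^ 2 ≤ 1 → ∃ b : ι → ℝ, (∀ w ∈ V, ∑ i, b i * w i = 0) ∧
    ∀ x, |∑ i, (a i - b i) * v x i| ≤ ε

/-- WID: the width of a ball in the sup norm over a finite set. -/
def Stmt_Wid : Prop := ∃ C : ℝ, 0 < C ∧ ∀ (X ι : Type) [Fintype X] [Fintype ι]
  (v : X → ι → ℝ) (R : ℝ) (m : ℕ), 0 ≤ R → (∀ x, ∑ i, v x i ^ 2 ≤ R ^ 2) →
  ∃ T : Submodule ℝ (ι → ℝ), Module.finrank ℝ T ≤ m ∧ ∀ a : ι → ℝ, ∑ i, a i ^ 2 ≤ 1 →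
    ∃ b ∈ T, ∀ x, |∑ i, (a i - b i) * v x i| ≤
      C * R * Real.sqrt (Real.log (2 * Fintype.card X + 1) / (m + 1))

/-- WIDT: the width of an ellipsoid of trigonometric polynomials in the sup norm. -/
def Stmt_WidT : Prop := ∀ d : ℕ, ∃ C : ℝ, 0 < C ∧ ∀ (h : ℕ) (a : (Fin d → ℤ) → ℂ) (m : ℕ),
  ∃ U : Submodule ℝ C(Tor d, ℝ), FiniteDimensional ℝ U ∧ Module.finrank ℝ U ≤ m ∧
    ∀ φ : Tor d → ℝ, MemLp φ 2 (mu d) → eLpNorm φ 2 (mu d) ≤ 1 → ∃ u ∈ U, ∀ x,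
      |(∑ n ∈ Box d (2 ^ h), a n * coef (fun x => (φ x : ℂ)) n * ch n x).re - u x| ≤
        C * Real.sqrt (((h : ℝ) + 1) / (m + 1)) * Real.sqrt (∑ n ∈ Box d (2 ^ h), ‖a n‖ ^ 2)

/-! ## Part G: the blocks of the kernel -/

/-- BET: the partition of unity. -/
def Stmt_Bet : Prop :=
  (∀ s k, 0 ≤ bet s k ∧ bet s k ≤ 1) ∧
  (∀ k : ℤ, bet 0 k ≠ 0 → |k| ≤ 1) ∧
  (∀ (s : ℕ) (k : ℤ), 1 ≤ s → bet s k ≠ 0 → 2 ^ (s - 1) < |k| ∧ |k| < 2 ^ (s + 1)) ∧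
  ∀ (t : ℕ) (k : ℤ), |k| ≤ 2 ^ t → ∑ s ∈ Finset.range (t + 1), bet s k = 1

/-- RHOB: elementary facts on `rho` and the real-valued blocks. -/
def Stmt_RhoB : Prop := ∀ r α : ℝ,
  (∀ k : ℤ, k ≠ 0 → ‖rho r α k‖ = |(k : ℝ)| ^ (-r)) ∧
  (∀ k : ℤ, rho r α (-k) = (starRingEnd ℂ) (rho r α k)) ∧
  ∀ (s : ℕ) (x : UnitAddCircle), ((blk r α s x : ℝ) : ℂ) =
    ∑ k ∈ Finset.Icc (-(2 : ℤ) ^ (s + 1)) (2 ^ (s + 1)), ((bet s k : ℝ) : ℂ) * rho r α k *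
      fourier k x

/-- BLK: sup norm and `L_1` norm of the one-dimensional blocks. -/
def Stmt_Blk : Prop := ∀ r α : ℝ, ∃ C : ℝ, 1 ≤ C ∧ ∀ s : ℕ,
  (∀ x, |blk r α s x| ≤ C * (2 : ℝ) ^ ((1 - r) * s)) ∧
  ∫ x, |blk r α s x| ∂AddCircle.haarAddCircle ≤ C * (2 : ℝ) ^ (-(r * s))

/-- LAYB: sup norm and `L_1` norm of the layers. -/
def Stmt_LayB : Prop := ∀ (d : ℕ) (r α : ℝ), ∃ C : ℝ, 0 < C ∧ ∀ l : ℕ,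
  Continuous (Lay d r α l) ∧
  (∀ x, |Lay d r α l x| ≤ C * Ln d l * (2 : ℝ) ^ ((1 - r) * l)) ∧
  ∫ x, |Lay d r α l x| ∂(mu d) ≤ C * Ln d l * (2 : ℝ) ^ (-(r * l))

/-- CNV: bounds of convolutions. -/
def Stmt_Cnv : Prop := ∀ (d : ℕ) (A φ : Tor d → ℝ) (a₀ a₁ : ℝ), Continuous A → 0 ≤ a₀ →
  (∀ x, |A x| ≤ a₀) → ∫ x, |A x| ∂(mu d) ≤ a₁ →
  (∀ lam : ℝ, 0 ≤ lam → AEStronglyMeasurable φ (mu d) → (∀ᵐ x ∂(mu d), |φ x| ≤ lam) →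
    ∀ x, |cnv A φ x| ≤ a₁ * lam) ∧
  ∀ q t : ℝ, 1 ≤ q → 0 < t → MemLp φ (ENNReal.ofReal q) (mu d) →
    eLpNorm φ (ENNReal.ofReal q) (mu d) ≤ 1 → ∀ x, |cnv A φ x| ≤ a₁ * t + a₀ * t ^ (1 - q)

/-- CREP: the convolution with a layer is a trigonometric polynomial. -/
def Stmt_CRep : Prop := ∀ (d : ℕ) (r α : ℝ) (l : ℕ) (φ : Tor d → ℝ), Integrable φ (mu d) →
  (∀ x, cnv (Lay d r α l) φ x = pl d r α l φ x) ∧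
  ∀ n : Fin d → ℤ, coef (fun x => ((pl d r α l φ x : ℝ) : ℂ)) n =
    lm d r α l n * coef (fun x => (φ x : ℂ)) n

/-- LMA: partition property and support of the multipliers of the layers. -/
def Stmt_LmA : Prop :=
  (∀ (d : ℕ) (r α : ℝ) (t : ℕ) (n : Fin d → ℤ), (∀ i, |n i| ≤ 2 ^ t) →
    ∑ l ∈ Finset.range (d * t + 1), lm d r α l n = ∏ i, rho r α (n i) ∧
      ∀ l, d * t < l → lm d r α l n = 0) ∧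
  ∀ (d : ℕ) (r α : ℝ) (l : ℕ) (n : Fin d → ℤ), lm d r α l n ≠ 0 → n ∈ Box d (2 ^ (l + 1))

/-- LMB: the square sum of the multipliers. -/
def Stmt_LmB : Prop := ∀ (d : ℕ) (r α : ℝ), ∃ C : ℝ, 0 < C ∧ ∀ (I : Finset ℕ) (h : ℕ),
  ∑ n ∈ Box d (2 ^ h), ‖∑ l ∈ I, lm d r α l n‖ ^ 2 ≤
    C * ∑ l ∈ I, (2 : ℝ) ^ ((1 - 2 * r) * l) * Ln d l

/-- LMC: the number of frequencies of the layers below `n₀`. -/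
def Stmt_LmC : Prop := ∀ d : ℕ, 1 ≤ d → ∃ C : ℝ, 0 < C ∧ ∀ n₀ : ℕ, ∃ T : Finset (Fin d → ℤ),
  (T.card : ℝ) ≤ C * ((2 : ℝ) ^ n₀ * Ln d n₀) ∧
  ∀ (r α : ℝ) (l : ℕ) (n : Fin d → ℤ), l < n₀ → lm d r α l n ≠ 0 → n ∈ T

/-- UNIQ: uniqueness of the Fourier coefficients of integrable functions. -/
def Stmt_Uniq : Prop := ∀ (d : ℕ) (f g : Tor d → ℝ), Integrable f (mu d) → Integrable g (mu d) →
  (∀ n, coef (fun x => (f x : ℂ)) n = coef (fun x => (g x : ℂ)) n) → f =ᵐ[mu d] g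

/-- DECO: the decomposition of a function of the class. -/
def Stmt_Deco : Prop := ∀ (d : ℕ) (q r α : ℝ), 1 ≤ d → 1 ≤ q → 1 / q < r →
  ∃ C η : ℝ, 0 < C ∧ 0 < η ∧ ∀ φ : Tor d → ℝ, MemLp φ (ENNReal.ofReal q) (mu d) →
    eLpNorm φ (ENNReal.ofReal q) (mu d) ≤ 1 →
    ∃ f : Lp ℝ ⊤ (mu d), (∀ n : Fin d → ℤ, coef (fun x => (f x : ℂ)) n =
      (∏ i, rho r α (n i)) * coef (fun x => (φ x : ℂ)) n) ∧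
      ∀ N : ℕ, ‖f - ∑ l ∈ Finset.range N, toL (pl d r α l φ)‖ ≤ C * (2 : ℝ) ^ (-(η * N))

/-! ## Part H: the upper bound, interpolation, orders -/

/-- UPA: the layers up to `n + J`. -/
def Stmt_UpA : Prop := ∀ (d : ℕ) (r α : ℝ), 2 ≤ d → 0 < r → ∃ C : ℝ, 0 < C ∧ ∀ n : ℕ, 2 ≤ n →
  ∀ m : ℕ, C * ((2 : ℝ) ^ n * Ln d n) ≤ m →
  ∃ U : Submodule ℝ C(Tor d, ℝ), FiniteDimensional ℝ U ∧ Module.finrank ℝ U ≤ m ∧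
    ∀ φ : Tor d → ℝ, MemLp φ 2 (mu d) → eLpNorm φ 2 (mu d) ≤ 1 → ∃ u ∈ U,
      ‖∑ l ∈ Finset.range (n + Jn d n + 1), pl d r α l φ - u‖ ≤ C * Th d r n

/-- UPB: one layer, with truncation of `φ` at the level `lam`. -/
def Stmt_UpB : Prop := ∀ (d : ℕ) (q r α : ℝ), 2 ≤ d → 2 ≤ q → 0 < r → ∃ C : ℝ, 0 < C ∧
  ∀ (l m : ℕ) (lam : ℝ), 1 ≤ lam →
  ∃ U : Submodule ℝ C(Tor d, ℝ), FiniteDimensional ℝ U ∧ Module.finrank ℝ U ≤ m ∧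
    ∀ φ : Tor d → ℝ, MemLp φ (ENNReal.ofReal q) (mu d) →
      eLpNorm φ (ENNReal.ofReal q) (mu d) ≤ 1 → ∃ u ∈ U,
      ‖pl d r α l φ - u‖ ≤ C * ((2 : ℝ) ^ (-(r * l)) * Ln d l * lam +
        (2 : ℝ) ^ ((1 / 2 - r) * l) * Real.sqrt (Ln d l * ((l : ℝ) + 1) / (m + 1)) *
          lam ^ (1 - q / 2))

/-- UPS: the choice of the parameters in the layers above `n + J`. -/
def Stmt_UpS : Prop := ∀ (d : ℕ) (q r : ℝ), 2 ≤ d → 2 ≤ q → 1 / q < r → ∃ C : ℝ, 0 < C ∧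
  ∀ n : ℕ, 2 ≤ n → ∃ (mm : ℕ → ℕ) (lam : ℕ → ℝ) (I : ℕ), (∀ i, 1 ≤ lam i) ∧
    (∀ i ≥ I, mm i = 0) ∧ (∑ i ∈ Finset.range I, (mm i : ℝ)) ≤ C * ((2 : ℝ) ^ n * Ln d n) ∧
    ∀ K : ℕ, ∑ i ∈ Finset.range K,
      ((2 : ℝ) ^ (-(r * ((n + Jn d n + 1 + i : ℕ) : ℝ))) * Ln d (n + Jn d n + 1 + i) * lam i +
        (2 : ℝ) ^ ((1 / 2 - r) * ((n + Jn d n + 1 + i : ℕ) : ℝ)) *
          Real.sqrt (Ln d (n + Jn d n + 1 + i) * (((n + Jn d n + 1 + i : ℕ) : ℝ) + 1) /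
            (mm i + 1)) * lam i ^ (1 - q / 2)) ≤ C * Th d r n

/-- UPK: the upper bound of the width. -/
def Stmt_UpK : Prop := ∀ (d : ℕ) (q r α : ℝ), 2 ≤ d → 2 ≤ q → 1 / q < r →
  ∃ C : ℝ, 0 < C ∧ ∀ n : ℕ, 2 ≤ n → ∀ m : ℕ, C * ((2 : ℝ) ^ n * (n : ℝ) ^ (d - 1)) ≤ m →
    kol ℝ (W d (ENNReal.ofReal q) r α) m ≤ ENNReal.ofReal (C * Th d r n)

/-- MONO: monotonicity of the classes and of the widths. -/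
def Stmt_Mono : Prop :=
  (∀ (d : ℕ) (q q' : ℝ≥0∞) (r α : ℝ), 1 ≤ q → q ≤ q' → W d q' r α ⊆ W d q r α) ∧
  (∀ (d : ℕ) (q q' : ℝ≥0∞) (r α : ℝ) (m : ℕ), 1 ≤ q → q ≤ q' →
    kol ℝ (W d q' r α) m ≤ kol ℝ (W d q r α) m) ∧
  ∀ (d : ℕ) (q : ℝ≥0∞) (r α : ℝ) (m m' : ℕ), m ≤ m' → kol ℝ (W d q r α) m' ≤ kol ℝ (W d q r α) m

/-- INTP: interpolation between the classes. -/
def Stmt_Intp : Prop := ∀ (d : ℕ) (q₀ q₁ r α lam : ℝ) (m : ℕ), 1 ≤ d → 1 ≤ q₀ → q₀ < q₁ →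
  1 / q₀ < r → 1 ≤ lam →
  kol ℝ (W d (ENNReal.ofReal q₁) r α) (2 * m) ≤
    ENNReal.ofReal lam * kol ℝ (W d ⊤ r α) m +
      ENNReal.ofReal (lam ^ (1 - q₁ / q₀)) * kol ℝ (W d (ENNReal.ofReal q₀) r α) m

/-- ORDL: from the index `n` to the number `m`, lower bound. -/
def Stmt_OrdL : Prop := ∀ (d : ℕ) (r c : ℝ) (n₀ : ℕ) (D : ℕ → ℝ≥0∞), 2 ≤ d → 0 < r → 0 < c →
  Antitone D → (∀ n ≥ n₀, ∀ m : ℕ, (m : ℝ) ≤ c * ((2 : ℝ) ^ n * (n : ℝ) ^ (d - 1)) →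
    ENNReal.ofReal (c * Th d r n) ≤ D m) →
  ∃ c₁ : ℝ, 0 < c₁ ∧ ∀ m : ℕ, 2 ≤ m → ENNReal.ofReal (c₁ * psi d r m) ≤ D m

/-- ORDU: from the index `n` to the number `m`, upper bound. -/
def Stmt_OrdU : Prop := ∀ (d : ℕ) (r C : ℝ) (D : ℕ → ℝ≥0∞), 2 ≤ d → 0 < r → 0 < C →
  Antitone D → D 0 ≠ ⊤ → (∀ n : ℕ, 2 ≤ n → ∀ m : ℕ, C * ((2 : ℝ) ^ n * (n : ℝ) ^ (d - 1)) ≤ m →
    D m ≤ ENNReal.ofReal (C * Th d r n)) →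
  ∃ c₂ : ℝ, 0 < c₂ ∧ ∀ m : ℕ, 2 ≤ m → D m ≤ ENNReal.ofReal (c₂ * psi d r m)

/-- BDD: the class is bounded, so the width is finite. -/
def Stmt_Bdd : Prop := ∀ (d : ℕ) (q : ℝ≥0∞) (r α : ℝ), 1 ≤ d → 1 ≤ q → (1 / q).toReal < r →
  kol ℝ (W d q r α) 0 ≠ ⊤

/-- PSID: doubling of `psi`. -/
def Stmt_PsiD : Prop := ∀ (d : ℕ) (r : ℝ), 2 ≤ d → 0 < r → ∃ c : ℝ, 0 < c ∧
  ∀ m : ℕ, 2 ≤ m → 0 < psi d r m ∧ c * psi d r m ≤ psi d r (2 * m)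

/-- MAIN: the order of the widths, real scalars. -/
def Stmt_Main : Prop := ∀ (d : ℕ) (q : ℝ≥0∞) (r α : ℝ), 2 ≤ d → 2 ≤ q → (1 / q).toReal < r →
  ∃ c₁ c₂ : ℝ, 0 < c₁ ∧ 0 < c₂ ∧ ∀ m : ℕ, 2 ≤ m →
    ENNReal.ofReal (c₁ * psi d r m) ≤ kol ℝ (W d q r α) m ∧
      kol ℝ (W d q r α) m ≤ ENNReal.ofReal (c₂ * psi d r m)

/-! ## Part I: the literal form of the problem -/

/-- FRA: the partial sums of the series of `F_r` converge and are dominated. -/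
def Stmt_FrA : Prop := ∀ r α : ℝ, 0 < r → ∃ C η : ℝ, 0 < C ∧ 0 < η ∧ η < 1 ∧ ∀ t : ℝ,
  0 < t → t < 1 →
  (∀ K : ℕ, |1 + 2 * ∑ k ∈ Finset.Icc 1 K, (k : ℝ) ^ (-r) *
    Real.cos ((k : ℝ) * (2 * Real.pi * t) - α * Real.pi / 2)| ≤
      C * (t ^ (-η) + (1 - t) ^ (-η))) ∧
  ∃ L : ℝ, Filter.Tendsto (fun K : ℕ => 1 + 2 * ∑ k ∈ Finset.Icc 1 K, (k : ℝ) ^ (-r) *
    Real.cos ((k : ℝ) * (2 * Real.pi * t) - α * Real.pi / 2)) Filter.atTop (nhds L)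

/-- FRK: the kernel `F_r(·, α)` is integrable with Fourier coefficients `rho r α`. -/
def Stmt_Frk : Prop := ∀ r α : ℝ, 0 < r → Integrable (Fr r α) AddCircle.haarAddCircle ∧
  ∀ k : ℤ, ∫ x, fourier (-k) x * ((Fr r α x : ℝ) : ℂ) ∂AddCircle.haarAddCircle = rho r α k

/-- LITW: the class of the problem is the class `W`. -/
def Stmt_LitW : Prop := ∀ (d : ℕ) (q : ℝ≥0∞) (r α : ℝ), 1 ≤ q → 0 < r → WR d q r α = W d q r α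

/-- CPLX: real and complex widths are comparable. -/
def Stmt_Cplx : Prop := ∀ (d : ℕ) (q : ℝ≥0∞) (r α : ℝ) (m : ℕ), 1 ≤ q → 0 < r →
  kol ℂ (WC d q r α) m ≤ 2 * kol ℝ (WR d q r α) m ∧
  kol ℝ (WR d q r α) (2 * m) ≤ kol ℂ (WC d q r α) m

/-- FINAL: the complete answer. -/
def Stmt_Final : Prop := ∀ (d : ℕ) (q : ℝ≥0∞) (r α : ℝ), 2 ≤ d → 2 ≤ q → (1 / q).toReal < r →
  (∃ c₁ c₂ : ℝ, 0 < c₁ ∧ 0 < c₂ ∧ ∀ m : ℕ, 2 ≤ m →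
    ENNReal.ofReal (c₁ * psi d r m) ≤ kol ℝ (WR d q r α) m ∧
      kol ℝ (WR d q r α) m ≤ ENNReal.ofReal (c₂ * psi d r m)) ∧
  ∃ c₁ c₂ : ℝ, 0 < c₁ ∧ 0 < c₂ ∧ ∀ m : ℕ, 2 ≤ m →
    ENNReal.ofReal (c₁ * psi d r m) ≤ kol ℂ (WC d q r α) m ∧
      kol ℂ (WC d q r α) m ≤ ENNReal.ofReal (c₂ * psi d r m)

end

end Pool.Agent.KW
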