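import Pool.Agent.KW.Stmts

set_option autoImplicit false

/-!
# KW, module TRIG: algebra of trigonometric polynomials
-/

open MeasureTheory
open scoped BigOperators ENNReal

namespace Pool.Agent.KW

namespace TRIG_

theorem ch_mem {d D : ℕ} {n : Fin d → ℤ} (hn : ∀ i, |n i| ≤ D) : ch n ∈ Trig d D :=
  Submodule.subset_span ⟨n, hn, rfl⟩

theorem ch_mul {d : ℕ} (n m : Fin d → ℤ) : ch n * ch m = ch (n + m) := by
  funext x
  simp only [ch, Pi.mul_apply, Pi.add_apply, ← Finset.prod_mul_distrib, fourier_add]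

theorem fourier_sub' (n : ℤ) (x a : UnitAddCircle) :
    fourier n (x - a) = fourier n x * fourier (-n) a := by
  rw [fourier_apply, fourier_apply, fourier_apply, sub_eq_add_neg, smul_add, smul_neg, neg_smul,
    AddCircle.toCircle_add, Circle.coe_mul]

theorem ch_sub {d : ℕ} (n : Fin d → ℤ) (x a : Tor d) : ch n (x - a) = ch n x * ch (-n) a := by
  simp only [ch, ← Finset.prod_mul_distrib, Pi.sub_apply, Pi.neg_apply, fourier_sub']

theorem conj_ch {d : ℕ} (n : Fin d → ℤ) (x : Tor d) :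
    (starRingEnd ℂ) (ch n x) = ch (-n) x := by
  simp only [ch, map_prod, Pi.neg_apply, fourier_neg]

theorem mul_mem {d D D' : ℕ} {f g : Tor d → ℂ} (hf : f ∈ Trig d D) (hg : g ∈ Trig d D') :
    f * g ∈ Trig d (D + D') := by
  refine Submodule.span_induction ?_ ?_ ?_ ?_ hf
  · rintro _ ⟨n, hn, rfl⟩
    refine Submodule.span_induction ?_ ?_ ?_ ?_ hg
    · rintro _ ⟨m, hm, rfl⟩
      rw [ch_mul]
      refine ch_mem fun i => ?_
      calc |(n + m) i| ≤ |n i| + |m i| := abs_add_le _ _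
        _ ≤ ((D + D' : ℕ) : ℤ) := by push_cast; exact add_le_add (hn i) (hm i)
    · rw [mul_zero]; exact Submodule.zero_mem _
    · intro x y _ _ hx hy
      rw [mul_add]; exact Submodule.add_mem _ hx hy
    · intro a x _ hx
      rw [mul_smul_comm]; exact Submodule.smul_mem _ _ hx
  · rw [zero_mul]; exact Submodule.zero_mem _
  · intro x y _ _ hx hy
    rw [add_mul]; exact Submodule.add_mem _ hx hy
  · intro a x _ hx
    rw [smul_mul_assoc]; exact Submodule.smul_mem _ _ hx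

theorem cont {d D : ℕ} {f : Tor d → ℂ} (hf : f ∈ Trig d D) : Continuous f := by
  refine Submodule.span_induction ?_ ?_ ?_ ?_ hf
  · rintro _ ⟨n, _, rfl⟩
    exact ch_continuous n
  · exact continuous_const
  · intro x y _ _ hx hy
    exact hx.add hy
  · intro a x _ hx
    exact hx.const_smul a

theorem transl {d D : ℕ} {f : Tor d → ℂ} (a : Tor d) (hf : f ∈ Trig d D) :
    (fun x => f (x - a)) ∈ Trig d D := by
  refine Submodule.span_induction (p := fun f _ => (fun x => f (x - a)) ∈ Trig d D)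
    ?_ ?_ ?_ ?_ hf
  · rintro _ ⟨n, hn, rfl⟩
    have h : (fun x => ch n (x - a)) = ch (-n) a • ch n := by
      funext x
      rw [ch_sub, Pi.smul_apply, smul_eq_mul, mul_comm]
    rw [h]
    exact Submodule.smul_mem _ _ (ch_mem hn)
  · exact Submodule.zero_mem _
  · intro x y _ _ hx hy
    exact Submodule.add_mem _ hx hy
  · intro c x _ hx
    exact Submodule.smul_mem _ c hx

theorem conj_mem {d D : ℕ} {f : Tor d → ℂ} (hf : f ∈ Trig d D) :
    (fun x => (starRingEnd ℂ) (f x)) ∈ Trig d D := by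
  refine Submodule.span_induction (p := fun f _ => (fun x => (starRingEnd ℂ) (f x)) ∈ Trig d D)
    ?_ ?_ ?_ ?_ hf
  · rintro _ ⟨n, hn, rfl⟩
    have h : (fun x => (starRingEnd ℂ) (ch n x)) = ch (-n) := by
      funext x
      exact conj_ch n x
    rw [h]
    exact ch_mem fun i => by rw [Pi.neg_apply, abs_neg]; exact hn i
  · simp only [Pi.zero_apply, map_zero]
    exact Submodule.zero_mem _
  · intro x y _ _ hx hy
    simp only [Pi.add_apply, map_add]
    exact Submodule.add_mem _ hx hy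
  · intro c x _ hx
    simp only [Pi.smul_apply, smul_eq_mul, map_mul]
    exact Submodule.smul_mem _ ((starRingEnd ℂ) c) hx

theorem re_mem {d D : ℕ} {f : Tor d → ℂ} (hf : f ∈ Trig d D) :
    RTrig D (fun x => (f x).re) := by
  unfold RTrig
  have h : (fun x => ((f x).re : ℂ)) =
      (1 / 2 : ℂ) • (f + fun x => (starRingEnd ℂ) (f x)) := by
    funext x
    simp only [Pi.smul_apply, Pi.add_apply, smul_eq_mul, Complex.add_conj]
    push_cast
    ring
  rw [h]
  exact Submodule.smul_mem _ _ (Submodule.add_mem _ hf (conj_mem hf))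

theorem box_mem {d D : ℕ} {n : Fin d → ℤ} (hn : n ∈ Box d D) (i : Fin d) : |n i| ≤ D := by
  have h := Fintype.mem_piFinset.1 hn i
  rw [Finset.mem_Icc] at h
  exact abs_le.2 h

theorem sum_box_mem {d D : ℕ} (z : (Fin d → ℤ) → ℂ) :
    (fun x : Tor d => ∑ n ∈ Box d D, z n * ch n x) ∈ Trig d D := by
  have h : (fun x : Tor d => ∑ n ∈ Box d D, z n * ch n x) = ∑ n ∈ Box d D, z n • ch n := by
    funext x
    simp only [Finset.sum_apply, Pi.smul_apply, smul_eq_mul]
  rw [h]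
  exact Submodule.sum_mem _ fun n hn => Submodule.smul_mem _ _ (ch_mem (box_mem hn))

/-- One-dimensional trigonometric polynomials of degree at most `D`. -/
def One (D : ℕ) (g : UnitAddCircle → ℂ) : Prop :=
  ∃ c : ℤ → ℂ, ∀ x, g x = ∑ k ∈ Finset.Icc (-(D : ℤ)) D, c k * fourier k x

theorem prod_mem {d D : ℕ} (g : Fin d → UnitAddCircle → ℂ) (hg : ∀ i, One D (g i)) :
    (fun x : Tor d => ∏ i, g i (x i)) ∈ Trig d D := by
  choose c hc using hg
  have h : (fun x : Tor d => ∏ i, g i (x i)) =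
      fun x : Tor d => ∑ n ∈ Box d D, (∏ i, c i (n i)) * ch n x := by
    funext x
    simp only [hc, ch, ← Finset.prod_mul_distrib]
    rw [Finset.prod_univ_sum]
    rfl
  rw [h]
  exact sum_box_mem _

theorem one_sum {D : ℕ} (K : Finset ℤ) (hK : K ⊆ Finset.Icc (-(D : ℤ)) D) (A : ℤ → ℂ) :
    One D (fun x => ∑ k ∈ K, A k * fourier k x) := by
  refine ⟨fun k => if k ∈ K then A k else 0, fun x => ?_⟩
  rw [← Finset.sum_subset hK]
  · exact Finset.sum_congr rfl fun k hk => by simp only [if_pos hk]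
  · intro k _ hk
    simp only [if_neg hk, zero_mul]

theorem one_conj {D : ℕ} {g : UnitAddCircle → ℂ} (hg : One D g) :
    One D (fun x => (starRingEnd ℂ) (g x)) := by
  obtain ⟨c, hc⟩ := hg
  refine ⟨fun k => (starRingEnd ℂ) (c (-k)), fun x => ?_⟩
  simp only [hc, map_sum]
  refine Finset.sum_nbij' (fun k => -k) (fun k => -k) ?_ ?_ ?_ ?_ ?_
  · intro k hk
    rw [Finset.mem_Icc] at hk ⊢
    constructor <;> linarith [hk.1, hk.2]
  · intro k hk
    rw [Finset.mem_Icc] at hk ⊢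
    constructor <;> linarith [hk.1, hk.2]
  · intro k _
    exact neg_neg k
  · intro k _
    exact neg_neg k
  · intro k _
    simp only [neg_neg, map_mul, fourier_neg]

theorem one_re {D : ℕ} {g : UnitAddCircle → ℂ} (hg : One D g) :
    One D (fun x => ((g x).re : ℂ)) := by
  obtain ⟨c, hc⟩ := hg
  obtain ⟨c', hc'⟩ := one_conj ⟨c, hc⟩
  refine ⟨fun k => (c k + c' k) / 2, fun x => ?_⟩
  have h : ((g x).re : ℂ) = (g x + (starRingEnd ℂ) (g x)) / 2 := by
    rw [Complex.add_conj]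
    push_cast
    ring
  have h2 : (starRingEnd ℂ) (g x) = _ := hc' x
  show ((g x).re : ℂ) = _
  rw [h, h2, hc x, ← Finset.sum_add_distrib, Finset.sum_div]
  exact Finset.sum_congr rfl fun k _ => by ring

theorem one_ker (ρ θ : ℝ) (s D : ℕ) (h : 2 ^ (s + 2) ≤ D) :
    One D (fun x => ((ker ρ θ s x : ℝ) : ℂ)) := by
  refine one_re (g := fun x => ∑ k ∈ Finset.Ioo ((2 : ℤ) ^ (s + 1)) (2 ^ (s + 2)),
    ((kc ρ s k : ℝ) : ℂ) * Complex.exp (θ * Complex.I) * fourier k x) ?_
  refine one_sum _ ?_ (fun k => ((kc ρ s k : ℝ) : ℂ) * Complex.exp (θ * Complex.I))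
  intro k hk
  rw [Finset.mem_Ioo] at hk
  rw [Finset.mem_Icc]
  have h1 : (0 : ℤ) ≤ 2 ^ (s + 1) := by positivity
  have h2 : ((2 : ℤ) ^ (s + 2)) ≤ (D : ℤ) := by exact_mod_cast h
  have h3 : (0 : ℤ) ≤ (D : ℤ) := Int.natCast_nonneg D
  constructor <;> linarith [hk.1, hk.2]

theorem rtrig_sum {ι : Type*} {d D : ℕ} (S : Finset ι) (f : ι → Tor d → ℝ)
    (hf : ∀ i ∈ S, RTrig D (f i)) : RTrig D (fun x => ∑ i ∈ S, f i x) := by
  unfold RTrig
  have h : (fun x => ((∑ i ∈ S, f i x : ℝ) : ℂ)) = ∑ i ∈ S, fun x => (f i x : ℂ) := by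
    funext x
    simp only [Finset.sum_apply, Complex.ofReal_sum]
  rw [h]
  exact Submodule.sum_mem _ hf

theorem rtrig_smul {d D : ℕ} (c : ℝ) (f : Tor d → ℝ) (hf : RTrig D f) :
    RTrig D (fun x => c * f x) := by
  unfold RTrig at hf ⊢
  have h : (fun x => ((c * f x : ℝ) : ℂ)) = (c : ℂ) • fun x => (f x : ℂ) := by
    funext x
    simp only [Pi.smul_apply, smul_eq_mul, Complex.ofReal_mul]
  rw [h]
  exact Submodule.smul_mem _ _ hf

theorem rtrig_kap (d : ℕ) (b : ℕ → ℝ) (h : ℕ) (ρ θ : ℝ) :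
    RTrig (2 ^ (h + 2)) (kap d b h ρ θ) := by
  unfold kap
  refine rtrig_sum (Finset.range (h + 1))
    (fun l (x : Tor d) => b l * ∑ s ∈ Sh d l, ∏ i, ker ρ θ (s i) (x i)) fun l hl => ?_
  refine rtrig_smul (b l) (fun x : Tor d => ∑ s ∈ Sh d l, ∏ i, ker ρ θ (s i) (x i)) ?_
  refine rtrig_sum (Sh d l) (fun s (x : Tor d) => ∏ i, ker ρ θ (s i) (x i)) fun s hs => ?_
  unfold RTrig
  have h1 : (fun x : Tor d => ((∏ i, ker ρ θ (s i) (x i) : ℝ) : ℂ)) =
      fun x : Tor d => ∏ i, (fun y => ((ker ρ θ (s i) y : ℝ) : ℂ)) (x i) := by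
    funext x
    simp only [Complex.ofReal_prod]
  rw [h1]
  refine prod_mem _ fun i => one_ker ρ θ (s i) _ ?_
  refine Nat.pow_le_pow_right (by norm_num) ?_
  have h2 : s i ≤ l := by
    have h3 := (Finset.mem_piAntidiag.1 hs).1
    rw [← h3]
    exact Finset.single_le_sum (fun _ _ => Nat.zero_le _) (Finset.mem_univ i)
  have h4 : l < h + 1 := Finset.mem_range.1 hl
  omega

theorem rtrig_transl {d D : ℕ} (f : Tor d → ℝ) (a : Tor d) (hf : RTrig D f) :
    RTrig D (fun x => f (x - a)) := transl a hf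

end TRIG_

theorem trig_proof : Stmt_Trig := by
  refine ⟨fun d D D' f g hf hg => TRIG_.mul_mem hf hg, fun d D f hf => TRIG_.cont hf,
    fun d D f a hf => TRIG_.transl a hf, fun d D z => TRIG_.re_mem (TRIG_.sum_box_mem z), ?_⟩
  intro d b h ρ θ N M _ ω
  unfold TS
  refine TRIG_.rtrig_sum Finset.univ
    (fun i (x : Tor d) => sgn (ω i).2 * kap d b h ρ θ (x - grd M (ω i).1)) fun i _ => ?_
  exact TRIG_.rtrig_smul _ _ (TRIG_.rtrig_transl _ _ (TRIG_.rtrig_kap d b h ρ θ))

end Pool.Agent.KW
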